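import Pool.Agent.H337R2.Cx2

/-!
# The linear form as an integral over a vertical line
-/

open MeasureTheory Filter Topology Complex Polynomial

namespace Pool.Agent.H337R2

noncomputable section

/-- the rational function on the line, as a sum of partial fractions -/
def Rc (s : Finset ℕ) (μ : ℕ → ℕ) (P : ℚ[X]) (y : ℝ) : ℂ :=
  ∑ k ∈ s, ∑ j ∈ Finset.range (μ k), ((pfc s μ P k j : ℚ) : ℂ) * li ((k : ℝ) - 1 / 2) y ^ (μ k - j)

/-- the point on the line -/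
def zl (y : ℝ) : ℂ := ((-(1 / 2) : ℝ) : ℂ) + y * I

lemma zl_add (y : ℝ) (k : ℕ) : zl y + k = (((k : ℝ) - 1 / 2 : ℝ) : ℂ) + y * I := by
  unfold zl; push_cast; ring

lemma half_ne (k : ℕ) : ((k : ℝ) - 1 / 2) ≠ 0 := by
  intro h
  have h1 : (k : ℝ) * 2 = 1 := by linarith
  have h2 : k * 2 = 1 := by exact_mod_cast h1
  omega

lemma zl_ne (y : ℝ) (k : ℕ) : zl y + k ≠ 0 := by
  rw [zl_add]; exact lf_ne (half_ne k) y

lemma li_zl (y : ℝ) (k : ℕ) : li ((k : ℝ) - 1 / 2) y = (zl y + k)⁻¹ := by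
  rw [zl_add]; rfl

theorem Rc_eq (s : Finset ℕ) (μ : ℕ → ℕ) (P : ℚ[X]) (hdeg : P.degree < (QQ s μ).degree) (y : ℝ) :
    Rc s μ P y = aeval (zl y) P / aeval (zl y) (QQ s μ) := by
  have hQ : ∀ s' : Finset ℕ, aeval (zl y) (QQ s' μ) ≠ 0 := by
    intro s'
    unfold QQ
    rw [map_prod, Finset.prod_ne_zero_iff]
    intro m _
    rw [map_pow, map_add, aeval_X, aeval_C]
    apply pow_ne_zero
    have := zl_ne y m
    simpa using this
  rw [eq_div_iff (hQ s)]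
  conv_rhs => rw [pf_identity s μ P hdeg]
  unfold Rc
  rw [map_sum, Finset.sum_mul]
  apply Finset.sum_congr rfl
  intro k hk
  rw [map_sum, Finset.sum_mul]
  apply Finset.sum_congr rfl
  intro j hj
  rw [Finset.mem_range] at hj
  rw [QQ_erase s μ hk, map_mul, map_mul, map_mul, map_pow, map_pow, map_add, aeval_X, aeval_C, aeval_C, li_zl]
  have e1 : (algebraMap ℚ ℂ) (k : ℚ) = (k : ℂ) := by simp
  have e2 : (algebraMap ℚ ℂ) (pfc s μ P k j) = ((pfc s μ P k j : ℚ) : ℂ) := rfl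
  rw [e1, e2]
  have hz := zl_ne y k
  have e3 : (zl y + k) ^ μ k = (zl y + k) ^ (μ k - j) * (zl y + k) ^ j := by
    rw [← pow_add, Nat.sub_add_cancel hj.le]
  rw [e3, inv_pow]
  field_simp

lemma Rc_le (s : Finset ℕ) (μ : ℕ → ℕ) (P : ℚ[X]) :
    ∃ C : ℝ, 0 < C ∧ ∀ y, ‖Rc s μ P y‖ ≤ C * (Real.sqrt (1 + y ^ 2))⁻¹ := by
  have h0 : ∀ k j : ℕ, j < μ k → ∃ C : ℝ, 0 < C ∧ ∀ y, ‖((pfc s μ P k j : ℚ) : ℂ) * li ((k : ℝ) - 1 / 2) y ^ (μ k - j)‖ ≤
      C * (Real.sqrt (1 + y ^ 2))⁻¹ := by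
    intro k j hj
    obtain ⟨C, hC, h⟩ := norm_li_le (half_ne k)
    refine ⟨(‖((pfc s μ P k j : ℚ) : ℂ)‖ + 1) * C ^ (μ k - j), by positivity, fun y => ?_⟩
    rw [norm_mul, norm_pow]
    have h1 : (Real.sqrt (1 + y ^ 2))⁻¹ ≤ 1 := by
      apply inv_le_one_of_one_le₀
      rw [Real.one_le_sqrt]
      nlinarith [sq_nonneg y]
    have h2 : ((Real.sqrt (1 + y ^ 2))⁻¹) ^ (μ k - j) ≤ (Real.sqrt (1 + y ^ 2))⁻¹ := by
      calc _ ≤ ((Real.sqrt (1 + y ^ 2))⁻¹) ^ 1 := pow_le_pow_of_le_one (by positivity) h1 (by omega)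
        _ = _ := pow_one _
    calc _ ≤ (‖((pfc s μ P k j : ℚ) : ℂ)‖ + 1) * (C * (Real.sqrt (1 + y ^ 2))⁻¹) ^ (μ k - j) := by
          gcongr
          · linarith
          · exact h y
      _ = (‖((pfc s μ P k j : ℚ) : ℂ)‖ + 1) * C ^ (μ k - j) * ((Real.sqrt (1 + y ^ 2))⁻¹) ^ (μ k - j) := by
          rw [mul_pow]; ring
      _ ≤ _ := mul_le_mul_of_nonneg_left h2 (by positivity)
  choose! C hC hCb using h0
  refine ⟨(∑ k ∈ s, ∑ j ∈ Finset.range (μ k), C k j) + 1, ?_, fun y => ?_⟩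
  · have : 0 ≤ ∑ k ∈ s, ∑ j ∈ Finset.range (μ k), C k j := by
      apply Finset.sum_nonneg
      intro k _
      apply Finset.sum_nonneg
      intro j hj
      exact (hC k j (Finset.mem_range.1 hj)).le
    linarith
  · have hs : (0 : ℝ) ≤ (Real.sqrt (1 + y ^ 2))⁻¹ := by positivity
    unfold Rc
    calc _ ≤ ∑ k ∈ s, ∑ j ∈ Finset.range (μ k), C k j * (Real.sqrt (1 + y ^ 2))⁻¹ := by
          refine (norm_sum_le _ _).trans (Finset.sum_le_sum fun k _ => ?_)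
          refine (norm_sum_le _ _).trans (Finset.sum_le_sum fun j hj => ?_)
          exact hCb k j (Finset.mem_range.1 hj) y
      _ = (∑ k ∈ s, ∑ j ∈ Finset.range (μ k), C k j) * (Real.sqrt (1 + y ^ 2))⁻¹ := by
          rw [Finset.sum_mul]
          apply Finset.sum_congr rfl
          intro k _
          rw [Finset.sum_mul]
      _ ≤ _ := by nlinarith

lemma Rc_continuous (s : Finset ℕ) (μ : ℕ → ℕ) (P : ℚ[X]) : Continuous (Rc s μ P) := by
  unfold Rc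
  apply continuous_finsetSum
  intro k _
  apply continuous_finsetSum
  intro j _
  exact continuous_const.mul ((li_continuous (half_ne k)).pow _)

lemma li_hm_le2 (m : ℤ) (y : ℝ) : ‖li (hm m) y‖ ≤ 2 * (Real.sqrt (1 + y ^ 2))⁻¹ := by
  unfold li
  rw [norm_inv, norm_lf]
  have : 2 * (Real.sqrt (1 + y ^ 2))⁻¹ = (Real.sqrt (1 + y ^ 2) / 2)⁻¹ := by rw [inv_div]; ring
  rw [this]
  apply inv_anti₀ (by positivity)
  apply Real.le_sqrt_of_sq_le
  rw [div_pow, Real.sq_sqrt (by positivity)]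
  have h1 : 1 / 4 ≤ |hm m| := by
    refine le_trans ?_ (hm_abs m)
    have := abs_nonneg (m : ℝ)
    linarith
  have h2 : (1 : ℝ) / 4 ≤ (hm m) ^ 2 := by
    unfold hm
    rcases le_or_gt 0 m with h | h
    · have h' : (0 : ℝ) ≤ m := by exact_mod_cast h
      nlinarith
    · have h' : (m : ℝ) ≤ -1 := by exact_mod_cast (by omega : m ≤ -1)
      nlinarith
  nlinarith [sq_nonneg y]

lemma term_int_norm (s : Finset ℕ) (μ : ℕ → ℕ) (P : ℚ[X]) {b : ℕ} (hb : 3 ≤ b) :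
    ∃ C : ℝ, 0 < C ∧ ∀ (m : ℤ) (y : ℝ), ‖Rc s μ P y * li (hm m) y ^ b‖ ≤ (C * (1 / (|(m : ℝ)| + 1) ^ 2)) * (1 + y ^ 2)⁻¹ := by
  obtain ⟨C, hC, h⟩ := Rc_le s μ P
  refine ⟨C * (2 * 4 ^ (b - 1)), by positivity, fun m y => ?_⟩
  obtain ⟨b', rfl⟩ : ∃ b', b = b' + 1 := ⟨b - 1, by omega⟩
  rw [norm_mul, pow_succ, norm_mul, Nat.add_sub_cancel]
  have h1 := li_hm_le (b := b') (by omega) m y
  have h2 := li_hm_le2 m y
  have h3 := h y
  have h4 : (Real.sqrt (1 + y ^ 2))⁻¹ * (Real.sqrt (1 + y ^ 2))⁻¹ = (1 + y ^ 2)⁻¹ := by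
    rw [← mul_inv, Real.mul_self_sqrt (by positivity)]
  calc _ ≤ (C * (Real.sqrt (1 + y ^ 2))⁻¹) * ((4 ^ b' * (1 / (|(m : ℝ)| + 1) ^ 2)) * (2 * (Real.sqrt (1 + y ^ 2))⁻¹)) := by
        gcongr
    _ = C * (2 * 4 ^ b') * (1 / (|(m : ℝ)| + 1) ^ 2) * ((Real.sqrt (1 + y ^ 2))⁻¹ * (Real.sqrt (1 + y ^ 2))⁻¹) := by ring
    _ = _ := by rw [h4]

lemma term_integrable (s : Finset ℕ) (μ : ℕ → ℕ) (P : ℚ[X]) {b : ℕ} (hb : 3 ≤ b) (m : ℤ) :
    Integrable (fun y : ℝ => Rc s μ P y * li (hm m) y ^ b) := by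
  obtain ⟨C, _, hC⟩ := term_int_norm s μ P hb
  refine Integrable.mono' (integrable_inv_one_add_sq.const_mul (C * (1 / (|(m : ℝ)| + 1) ^ 2))) ?_ (Filter.Eventually.of_forall (hC m))
  exact ((Rc_continuous s μ P).mul ((li_continuous (hm_ne m)).pow b)).aestronglyMeasurable

theorem hasSum_int (s : Finset ℕ) (μ : ℕ → ℕ) (P : ℚ[X]) {b : ℕ} (hb : 3 ≤ b) :
    HasSum (fun m : ℤ => ∫ y : ℝ, Rc s μ P y * li (hm m) y ^ b) (∫ y : ℝ, Rc s μ P y * KK b y) := by
  obtain ⟨C, _, hC⟩ := term_int_norm s μ P hb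
  have h := hasSum_integral_of_summable_integral_norm (μ := volume) (F := fun (m : ℤ) (y : ℝ) => Rc s μ P y * li (hm m) y ^ b)
    (fun m => term_integrable s μ P hb m) (by
      apply Summable.of_nonneg_of_le (fun m => integral_nonneg fun y => norm_nonneg _)
        (f := fun m : ℤ => (C * (1 / (|(m : ℝ)| + 1) ^ 2)) * ∫ y : ℝ, (1 + y ^ 2)⁻¹)
      · intro m
        rw [← integral_const_mul]
        exact integral_mono (term_integrable s μ P hb m).norm (integrable_inv_one_add_sq.const_mul _) (hC m)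
      · exact (summable_abs_sq.mul_left C).mul_right _)
  have e : (∫ y : ℝ, Rc s μ P y * KK b y) = ∫ y : ℝ, ∑' m : ℤ, Rc s μ P y * li (hm m) y ^ b := by
    refine integral_congr_ae (Filter.Eventually.of_forall fun y => ?_)
    simp only [KK]
    rw [tsum_mul_left]
  rw [e]
  exact h

/-- integral against one term of the kernel, right of the line -/
lemma int_nat (s : Finset ℕ) (μ : ℕ → ℕ) (P : ℚ[X]) (hdeg : P.degree < (QQ s μ).degree)
    (hs : ∀ k ∈ s, 1 ≤ k) {b : ℕ} (hb : 3 ≤ b) (t : ℕ) :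
    ∫ y : ℝ, Rc s μ P y * li (hm t) y ^ b =
      -(2 * Real.pi) * ((PowerSeries.coeff (b - 1) (RS s μ P (t : ℚ)) : ℚ) : ℂ) := by
  obtain ⟨β, rfl⟩ : ∃ β, b = β + 1 := ⟨b - 1, by omega⟩
  have hne : ∀ m ∈ s, (t : ℚ) + (m : ℚ) ≠ 0 := by
    intro m hm0
    have h1 : (1 : ℚ) ≤ m := by exact_mod_cast hs m hm0
    positivity
  have hV : hm (t : ℤ) < 0 := by
    unfold hm
    have : (0 : ℝ) ≤ ((t : ℤ) : ℝ) := by positivity
    linarith
  rw [Nat.add_sub_cancel, coeff_RS s μ P hdeg _ hne β]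
  have h1 : ∀ y : ℝ, Rc s μ P y * li (hm t) y ^ (β + 1) = ∑ k ∈ s, ∑ j ∈ Finset.range (μ k),
      ((pfc s μ P k j : ℚ) : ℂ) * (li ((k : ℝ) - 1 / 2) y ^ (μ k - j) * li (hm t) y ^ (β + 1)) := by
    intro y
    unfold Rc
    rw [Finset.sum_mul]
    apply Finset.sum_congr rfl
    intro k _
    rw [Finset.sum_mul]
    apply Finset.sum_congr rfl
    intro j _
    ring
  simp_rw [h1]
  rw [integral_finsetSum]
  · push_cast
    rw [Finset.mul_sum]
    apply Finset.sum_congr rfl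
    intro k hk
    have hk1 : (0 : ℝ) < (k : ℝ) - 1 / 2 := by
      have : (1 : ℝ) ≤ k := by exact_mod_cast hs k hk
      linarith
    rw [integral_finsetSum, Finset.mul_sum]
    · apply Finset.sum_congr rfl
      intro j hj
      rw [Finset.mem_range] at hj
      rw [integral_const_mul]
      obtain ⟨i, hi⟩ : ∃ i, μ k - j = i + 1 := ⟨μ k - j - 1, by omega⟩
      rw [hi, J_neg hk1 hV (i + β) i β rfl]
      have e1 : ((((k : ℝ) - 1 / 2 : ℝ)) : ℂ) - ((hm (t : ℤ) : ℝ) : ℂ) = (t : ℂ) + k := by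
        unfold hm; push_cast; ring
      rw [e1, Nat.add_sub_cancel]
      have e2 : i + 1 + β = i + β + 1 := by ring
      rw [e2]
      ring
    · intro j hj
      rw [Finset.mem_range] at hj
      exact (li_prod_integrable hk1.ne' hV.ne (by omega)).const_mul _
  · intro k hk
    have hk1 : (0 : ℝ) < (k : ℝ) - 1 / 2 := by
      have : (1 : ℝ) ≤ k := by exact_mod_cast hs k hk
      linarith
    apply integrable_finsetSum
    intro j hj
    rw [Finset.mem_range] at hj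
    exact (li_prod_integrable hk1.ne' hV.ne (by omega)).const_mul _

/-- integral against one term of the kernel, left of the line -/
lemma int_neg (s : Finset ℕ) (μ : ℕ → ℕ) (P : ℚ[X]) (hs : ∀ k ∈ s, 1 ≤ k) {b : ℕ} (hb : 3 ≤ b) (m : ℤ) (hm0 : m < 0) :
    ∫ y : ℝ, Rc s μ P y * li (hm m) y ^ b = 0 := by
  obtain ⟨β, rfl⟩ : ∃ β, b = β + 1 := ⟨b - 1, by omega⟩
  have hV : 0 < hm m := by
    unfold hm
    have h' : (m : ℝ) ≤ -1 := by exact_mod_cast (by omega : m ≤ -1)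
    linarith
  have h1 : ∀ y : ℝ, Rc s μ P y * li (hm m) y ^ (β + 1) = ∑ k ∈ s, ∑ j ∈ Finset.range (μ k),
      ((pfc s μ P k j : ℚ) : ℂ) * (li ((k : ℝ) - 1 / 2) y ^ (μ k - j) * li (hm m) y ^ (β + 1)) := by
    intro y
    unfold Rc
    rw [Finset.sum_mul]
    apply Finset.sum_congr rfl
    intro k _
    rw [Finset.sum_mul]
    apply Finset.sum_congr rfl
    intro j _
    ring
  simp_rw [h1]
  rw [integral_finsetSum]
  · apply Finset.sum_eq_zero
    intro k hk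
    have hk1 : (0 : ℝ) < (k : ℝ) - 1 / 2 := by
      have : (1 : ℝ) ≤ k := by exact_mod_cast hs k hk
      linarith
    rw [integral_finsetSum]
    · apply Finset.sum_eq_zero
      intro j hj
      rw [Finset.mem_range] at hj
      rw [integral_const_mul]
      obtain ⟨i, hi⟩ : ∃ i, μ k - j = i + 1 := ⟨μ k - j - 1, by omega⟩
      rw [hi, J_pos hk1 hV (i + β) i β rfl, mul_zero]
    · intro j hj
      rw [Finset.mem_range] at hj
      exact (li_prod_integrable hk1.ne' hV.ne' (by omega)).const_mul _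
  · intro k hk
    have hk1 : (0 : ℝ) < (k : ℝ) - 1 / 2 := by
      have : (1 : ℝ) ≤ k := by exact_mod_cast hs k hk
      linarith
    apply integrable_finsetSum
    intro j hj
    rw [Finset.mem_range] at hj
    exact (li_prod_integrable hk1.ne' hV.ne' (by omega)).const_mul _

/-- The sum of the series as an integral. -/
theorem F_integral (s : Finset ℕ) (μ : ℕ → ℕ) (P : ℚ[X]) (hdeg : P.degree < (QQ s μ).degree)
    (hs : ∀ k ∈ s, 1 ≤ k) {b : ℕ} (hb : 3 ≤ b) (F : ℝ)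
    (hF : HasSum (fun t : ℕ => ((PowerSeries.coeff (b - 1) (RS s μ P (t : ℚ)) : ℚ) : ℝ)) F) :
    ∫ y : ℝ, Rc s μ P y * KK b y = -(2 * Real.pi) * (F : ℂ) := by
  have h1 := hasSum_int s μ P hb
  have h2 : HasSum (fun t : ℕ => ((PowerSeries.coeff (b - 1) (RS s μ P (t : ℚ)) : ℚ) : ℂ)) (F : ℂ) := by
    have := (Complex.hasSum_ofReal).2 hF
    refine this.congr_fun ?_ 
    intro t
    push_cast
    rfl
  have h3 := h2.mul_left (-(2 * (Real.pi : ℂ)))
  have h4 : HasSum (fun m : ℤ => ∫ y : ℝ, Rc s μ P y * li (hm m) y ^ b) (-(2 * (Real.pi : ℂ)) * (F : ℂ)) := by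
    rw [← Function.Injective.hasSum_iff (g := fun t : ℕ => (t : ℤ)) (fun a b h => by simpa using h)]
    · refine h3.congr_fun ?_
      intro t
      exact (int_nat s μ P hdeg hs hb t)
    · intro m hm0
      apply int_neg s μ P hs hb m
      by_contra hcon
      apply hm0
      exact ⟨m.toNat, by simp; omega⟩
  exact h1.unique h4

/-- upper bound by the integral of the absolute value -/
theorem F_le_integral (s : Finset ℕ) (μ : ℕ → ℕ) (P : ℚ[X]) (hdeg : P.degree < (QQ s μ).degree)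
    (hs : ∀ k ∈ s, 1 ≤ k) {b : ℕ} (hb : 3 ≤ b) (F : ℝ)
    (hF : HasSum (fun t : ℕ => ((PowerSeries.coeff (b - 1) (RS s μ P (t : ℚ)) : ℚ) : ℝ)) F)
    (B : ℝ) (hB : ∀ y : ℝ, ‖Rc s μ P y‖ * Real.exp (-(2 * Real.pi * |y|)) ≤ B * (1 + y ^ 2)⁻¹)
    (C : ℝ) (hC : 0 ≤ C) (hCK : ∀ y : ℝ, ‖KK b y‖ ≤ C * Real.exp (-(2 * Real.pi * |y|))) : |F| ≤ C * B := by
  have h1 := F_integral s μ P hdeg hs hb F hF
  have h2 : ‖∫ y : ℝ, Rc s μ P y * KK b y‖ ≤ ∫ y : ℝ, (C * B) * (1 + y ^ 2)⁻¹ := by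
    apply norm_integral_le_of_norm_le (integrable_inv_one_add_sq.const_mul _)
    refine Filter.Eventually.of_forall (fun y => ?_)
    rw [norm_mul]
    calc _ ≤ ‖Rc s μ P y‖ * (C * Real.exp (-(2 * Real.pi * |y|))) := mul_le_mul_of_nonneg_left (hCK y) (norm_nonneg _)
      _ = C * (‖Rc s μ P y‖ * Real.exp (-(2 * Real.pi * |y|))) := by ring
      _ ≤ C * (B * (1 + y ^ 2)⁻¹) := mul_le_mul_of_nonneg_left (hB y) hC
      _ = _ := by ring
  rw [h1, integral_const_mul, integral_univ_inv_one_add_sq, norm_mul, norm_neg, norm_mul, Complex.norm_ofNat,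
    Complex.norm_real, Complex.norm_real, Real.norm_of_nonneg Real.pi_pos.le, Real.norm_eq_abs] at h2
  have hπ := Real.pi_pos
  have h3 : 2 * |F| * Real.pi ≤ (C * B) * Real.pi := by linarith
  have h4 := le_of_mul_le_mul_right h3 hπ
  have := abs_nonneg F
  linarith

end

end Pool.Agent.H337R2
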