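import Pool.Agent.H337R2.Cx3

/-!
# Product inequality for the hyperbolic cosine
-/

open MeasureTheory Filter Topology

namespace Pool.Agent.H337R2

noncomputable section

lemma sinh_prod {x : ℝ} (hx : x ≠ 0) :
    Tendsto (fun n : ℕ => ∏ j ∈ Finset.range n, (1 + x ^ 2 / ((j : ℝ) + 1) ^ 2)) atTop
      (𝓝 (Real.sinh (Real.pi * x) / (Real.pi * x))) := by
  have h := Complex.tendsto_euler_sin_prod ((x : ℂ) * Complex.I)
  have hπx : (Real.pi : ℝ) * x ≠ 0 := mul_ne_zero Real.pi_ne_zero hx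
  have h1 : ∀ n : ℕ, (Real.pi : ℂ) * ((x : ℂ) * Complex.I) * ∏ j ∈ Finset.range n, ((1 : ℂ) - ((x : ℂ) * Complex.I) ^ 2 / ((j : ℂ) + 1) ^ 2)
      = Complex.I * ((Real.pi * x * ∏ j ∈ Finset.range n, (1 + x ^ 2 / ((j : ℝ) + 1) ^ 2) : ℝ) : ℂ) := by
    intro n
    push_cast
    have : ∀ j : ℕ, (1 : ℂ) - ((x : ℂ) * Complex.I) ^ 2 / ((j : ℂ) + 1) ^ 2 = 1 + (x : ℂ) ^ 2 / ((j : ℂ) + 1) ^ 2 := by
      intro j
      rw [mul_pow, Complex.I_sq]; ring
    simp_rw [this]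
    ring
  have h2 : Complex.sin (Real.pi * ((x : ℂ) * Complex.I)) = Complex.I * ((Real.sinh (Real.pi * x) : ℝ) : ℂ) := by
    rw [← mul_assoc, Complex.sin_mul_I, Complex.ofReal_sinh]
    push_cast
    ring
  simp_rw [h1] at h
  rw [h2] at h
  have h3 := h.const_mul (-Complex.I)
  have h4 : ∀ z : ℂ, -Complex.I * (Complex.I * z) = z := by
    intro z
    rw [← mul_assoc, neg_mul, Complex.I_mul_I]; ring
  simp_rw [h4] at h3
  have h5 := (Complex.continuous_re.tendsto _).comp h3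
  simp only [Function.comp_def, Complex.ofReal_re] at h5
  have h6 := h5.const_mul (Real.pi * x)⁻¹
  refine (h6.congr (fun n => ?_)).trans_eq ?_
  · field_simp
  · congr 1
    field_simp

/-- the half-integer product -/
def HM (y : ℝ) (M : ℕ) : ℝ := ∏ m ∈ Finset.range M, (1 + y ^ 2 / ((m : ℝ) + 1 / 2) ^ 2)

lemma HM_mono (y : ℝ) : Monotone (HM y) := by
  apply monotone_nat_of_le_succ
  intro M
  unfold HM
  rw [Finset.prod_range_succ]
  have h1 : 0 ≤ ∏ m ∈ Finset.range M, (1 + y ^ 2 / ((m : ℝ) + 1 / 2) ^ 2) := by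
    apply Finset.prod_nonneg
    intro m _
    positivity
  have h2 : 1 ≤ (1 + y ^ 2 / ((M : ℝ) + 1 / 2) ^ 2) := by
    have : 0 ≤ y ^ 2 / ((M : ℝ) + 1 / 2) ^ 2 := by positivity
    linarith
  nlinarith

lemma HM_split (y : ℝ) (M : ℕ) :
    ∏ j ∈ Finset.range (2 * M), (1 + (2 * y) ^ 2 / ((j : ℝ) + 1) ^ 2) =
      HM y M * ∏ j ∈ Finset.range M, (1 + y ^ 2 / ((j : ℝ) + 1) ^ 2) := by
  induction M with
  | zero => simp [HM]
  | succ M ih =>
    rw [show 2 * (M + 1) = 2 * M + 1 + 1 by ring, Finset.prod_range_succ, Finset.prod_range_succ, ih]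
    unfold HM
    rw [Finset.prod_range_succ, Finset.prod_range_succ]
    have e1 : (1 + (2 * y) ^ 2 / (((2 * M : ℕ) : ℝ) + 1) ^ 2) = (1 + y ^ 2 / ((M : ℝ) + 1 / 2) ^ 2) := by
      push_cast
      have : ((2 : ℝ) * M + 1) = 2 * (M + 1 / 2) := by ring
      rw [this, mul_pow, mul_pow]
      have h2 : ((M : ℝ) + 1 / 2) ≠ 0 := by positivity
      field_simp
    have e2 : (1 + (2 * y) ^ 2 / (((2 * M + 1 : ℕ) : ℝ) + 1) ^ 2) = (1 + y ^ 2 / ((M : ℝ) + 1) ^ 2) := by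
      push_cast
      have : ((2 : ℝ) * M + 1 + 1) = 2 * (M + 1) := by ring
      rw [this, mul_pow, mul_pow]
      have h2 : ((M : ℝ) + 1) ≠ 0 := by positivity
      field_simp
    rw [e1, e2]
    ring

theorem HM_le (y : ℝ) (M : ℕ) : HM y M ≤ Real.exp (Real.pi * |y|) := by
  by_cases hy : y = 0
  · subst hy
    unfold HM
    simp
  · have hπ := Real.pi_pos
    have h1 := sinh_prod hy
    have h2 := sinh_prod (x := 2 * y) (by positivity)
    have hS : Real.sinh (Real.pi * y) ≠ 0 := by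
      rw [Ne, Real.sinh_eq_zero]
      positivity
    have h3 : Tendsto (fun M : ℕ => 2 * M) atTop atTop := tendsto_id.const_mul_atTop' (by norm_num)
    have h4 := h2.comp h3
    have h5 : Tendsto (HM y) atTop (𝓝 (Real.cosh (Real.pi * y))) := by
      have h6 := h4.div h1 (div_ne_zero hS (by positivity))
      have e : Real.sinh (Real.pi * (2 * y)) / (Real.pi * (2 * y)) / (Real.sinh (Real.pi * y) / (Real.pi * y)) = Real.cosh (Real.pi * y) := by
        rw [show Real.pi * (2 * y) = 2 * (Real.pi * y) by ring, Real.sinh_two_mul]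
        field_simp
      rw [e] at h6
      refine h6.congr (fun M => ?_)
      simp only [Pi.div_apply, Function.comp]
      rw [HM_split]
      have : (∏ j ∈ Finset.range M, (1 + y ^ 2 / ((j : ℝ) + 1) ^ 2)) ≠ 0 := by
        rw [Finset.prod_ne_zero_iff]
        intro j _
        positivity
      field_simp
    have h7 := (HM_mono y).ge_of_tendsto h5 M
    refine h7.trans ?_
    rw [Real.cosh_eq]
    have h8 : Real.exp (Real.pi * y) ≤ Real.exp (Real.pi * |y|) :=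
      Real.exp_le_exp.2 (mul_le_mul_of_nonneg_left (le_abs_self y) hπ.le)
    have h9 : Real.exp (-(Real.pi * y)) ≤ Real.exp (Real.pi * |y|) := by
      apply Real.exp_le_exp.2
      rw [← mul_neg]
      exact mul_le_mul_of_nonneg_left (neg_le_abs y) hπ.le
    linarith

/-- sums of inverse squares, lower bound -/
lemma sum_inv_sq_ge (A B : ℕ) (hA : 1 ≤ A) (hAB : A ≤ B + 1) :
    1 / (A : ℝ) - 1 / ((B : ℝ) + 1) ≤ ∑ k ∈ Finset.Icc A B, 1 / (k : ℝ) ^ 2 := by
  obtain ⟨N, hN⟩ : ∃ N, B + 1 = A + N := ⟨B + 1 - A, by omega⟩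
  induction N generalizing B with
  | zero =>
    have : Finset.Icc A B = ∅ := Finset.Icc_eq_empty (by omega)
    rw [this]
    have h : ((B : ℝ) + 1) = A := by exact_mod_cast hN
    rw [h]; simp
  | succ N ih =>
    obtain ⟨B', rfl⟩ : ∃ B', B = B' + 1 := ⟨B - 1, by omega⟩
    have h1 := ih B' (by omega) (by omega)
    rw [Finset.sum_Icc_succ_top (by omega)]
    have hB : (0 : ℝ) < (B' : ℝ) + 1 := by positivity
    have h2 : 1 / ((B' : ℝ) + 1) - 1 / ((B' : ℝ) + 1 + 1) ≤ 1 / ((B' : ℝ) + 1) ^ 2 := by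
      rw [div_sub_div _ _ (by positivity) (by positivity), div_le_div_iff₀ (by positivity) (by positivity)]
      nlinarith
    push_cast
    linarith

lemma sum_inv_sq_le (A B : ℕ) (hA : 1 ≤ A) (hAB : A ≤ B) :
    ∑ k ∈ Finset.Icc A B, 1 / (k : ℝ) ^ 2 ≤ 1 / (A : ℝ) ^ 2 + 1 / (A : ℝ) - 1 / (B : ℝ) := by
  obtain ⟨N, hN⟩ : ∃ N, B = A + N := ⟨B - A, by omega⟩
  induction N generalizing B with
  | zero =>
    have hB : B = A := by omega
    subst hB
    rw [Finset.Icc_self, Finset.sum_singleton]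
    linarith
  | succ N ih =>
    obtain ⟨B', rfl⟩ : ∃ B', B = B' + 1 := ⟨B - 1, by omega⟩
    have h1 := ih B' (by omega) (by omega)
    rw [Finset.sum_Icc_succ_top (by omega)]
    have hB : (0 : ℝ) < (B' : ℝ) := by exact_mod_cast (by omega : 0 < B')
    have h2 : 1 / ((B' : ℝ) + 1) ^ 2 ≤ 1 / (B' : ℝ) - 1 / ((B' : ℝ) + 1) := by
      rw [div_sub_div _ _ (by positivity) (by positivity), div_le_div_iff₀ (by positivity) (by positivity)]
      nlinarith
    push_cast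
    linarith

lemma sum_inv_four_le (A B : ℕ) (hA : 1 ≤ A) (hAB : A ≤ B) :
    ∑ k ∈ Finset.Icc A B, 1 / (k : ℝ) ^ 4 ≤ 1 / (A : ℝ) ^ 4 + (1 / (A : ℝ) ^ 3 - 1 / (B : ℝ) ^ 3) / 3 := by
  obtain ⟨N, hN⟩ : ∃ N, B = A + N := ⟨B - A, by omega⟩
  induction N generalizing B with
  | zero =>
    have hB : B = A := by omega
    subst hB
    rw [Finset.Icc_self, Finset.sum_singleton]
    linarith
  | succ N ih =>
    obtain ⟨B', rfl⟩ : ∃ B', B = B' + 1 := ⟨B - 1, by omega⟩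
    have h1 := ih B' (by omega) (by omega)
    rw [Finset.sum_Icc_succ_top (by omega)]
    have hB : (0 : ℝ) < (B' : ℝ) := by exact_mod_cast (by omega : 0 < B')
    have h2 : 1 / ((B' : ℝ) + 1) ^ 4 ≤ (1 / (B' : ℝ) ^ 3 - 1 / ((B' : ℝ) + 1) ^ 3) / 3 := by
      rw [div_sub_div _ _ (by positivity) (by positivity), div_div, div_le_div_iff₀ (by positivity) (by positivity)]
      have e : (1 * ((B' : ℝ) + 1) ^ 3 - (B' : ℝ) ^ 3 * 1) * ((B' : ℝ) + 1) ^ 4 - 1 * ((B' : ℝ) ^ 3 * ((B' : ℝ) + 1) ^ 3 * 3)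
        = ((B' : ℝ) + 1) ^ 3 * (6 * (B' : ℝ) ^ 2 + 4 * (B' : ℝ) + 1) := by ring
      have : 0 ≤ ((B' : ℝ) + 1) ^ 3 * (6 * (B' : ℝ) ^ 2 + 4 * (B' : ℝ) + 1) := by positivity
      linarith
    push_cast
    linarith

end

end Pool.Agent.H337R2
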