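import Pool.Agent.H337R2.Dn
import Pool.Agent.Helper923.PNT

/-!
# Growth of the common denominator
-/

open Filter Topology

namespace Pool.Agent.H337R2

noncomputable section

/-- growth rate attached to a list of cells -/
def cost : List (ℕ × ℕ × ℕ) → ℝ
  | x :: y :: L => x.2.2 * ((x.2.1 : ℝ) / x.1 - (y.2.1 : ℝ) / y.1) + cost (y :: L)
  | _ => 0

/-- increasing breakpoints -/
def Inc : List (ℕ × ℕ × ℕ) → Prop
  | x :: y :: L => 0 < x.1 ∧ 0 < y.1 ∧ x.1 * y.2.1 ≤ y.1 * x.2.1 ∧ Inc (y :: L)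
  | _ => True

lemma theta_lim (a : ℝ) (ha : 0 < a) (ε : ℝ) (hε : 0 < ε) :
    ∀ᶠ n : ℕ in atTop, |Chebyshev.theta (a * n) - a * n| ≤ ε * n := by
  have h1 := Pool.Agent.Helper923.PNT.theta_div_tendsto
  have h2 : Tendsto (fun n : ℕ => a * (n : ℝ)) atTop atTop :=
    (tendsto_natCast_atTop_atTop).const_mul_atTop ha
  have h3 := h1.comp h2
  rw [Metric.tendsto_atTop] at h3
  obtain ⟨N, hN⟩ := h3 (ε / a) (by positivity)
  filter_upwards [eventually_ge_atTop N, eventually_ge_atTop 1] with n hn hn1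
  have h4 := (hN n hn).le
  have hn0 : (0 : ℝ) < n := by exact_mod_cast hn1
  have h5 : 0 < a * (n : ℝ) := by positivity
  rw [Real.dist_eq] at h4
  simp only [Function.comp] at h4
  have h6 : Chebyshev.theta (a * n) - a * n = (Chebyshev.theta (a * n) / (a * n) - 1) * (a * n) := by
    field_simp
  rw [h6, abs_mul, abs_of_pos h5]
  calc _ ≤ ε / a * (a * n) := mul_le_mul_of_nonneg_right h4 h5.le
    _ = ε * n := by field_simp

lemma log_Pc_le (x y : ℕ × ℕ) (hx : 0 < x.1) (hy : 0 < y.1) (hxy : x.1 * y.2 ≤ y.1 * x.2) (n E : ℕ) :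
    Real.log ((∏ p ∈ Pc x y n, p ^ E : ℕ) : ℝ) ≤
      E * (Chebyshev.theta ((x.2 : ℝ) / x.1 * n) - Chebyshev.theta ((y.2 : ℝ) / y.1 * n)) := by
  have hx' : (0 : ℝ) < x.1 := by exact_mod_cast hx
  have hy' : (0 : ℝ) < y.1 := by exact_mod_cast hy
  have hAB : (y.2 : ℝ) / y.1 * n ≤ (x.2 : ℝ) / x.1 * n := by
    apply mul_le_mul_of_nonneg_right _ (by positivity)
    rw [div_le_div_iff₀ hy' hx']
    have : ((x.1 * y.2 : ℕ) : ℝ) ≤ ((y.1 * x.2 : ℕ) : ℝ) := by exact_mod_cast hxy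
    push_cast at this
    linarith
  push_cast
  rw [Real.log_prod (fun p hp => by
    unfold Pc at hp
    rw [Finset.mem_filter] at hp
    have := hp.2.1.pos
    positivity)]
  have h1 : ∀ p ∈ Pc x y n, Real.log ((p : ℝ) ^ E) = E * Real.log p := fun p _ => Real.log_pow _ _
  rw [Finset.sum_congr rfl h1, ← Finset.mul_sum]
  apply mul_le_mul_of_nonneg_left _ (by positivity)
  have h2 : Chebyshev.theta ((x.2 : ℝ) / x.1 * n) = Chebyshev.theta ((y.2 : ℝ) / y.1 * n) +
      ∑ p ∈ ((Finset.Ioc 0 ⌊(x.2 : ℝ) / x.1 * n⌋₊).filter Nat.Prime \ (Finset.Ioc 0 ⌊(y.2 : ℝ) / y.1 * n⌋₊).filter Nat.Prime), Real.log p := by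
    unfold Chebyshev.theta
    rw [add_comm]
    exact (Finset.sum_sdiff (Finset.filter_subset_filter _ (Finset.Ioc_subset_Ioc_right (Nat.floor_mono hAB)))).symm
  rw [h2, add_sub_cancel_left]
  apply Finset.sum_le_sum_of_subset_of_nonneg
  · intro p hp
    unfold Pc at hp
    rw [Finset.mem_filter] at hp
    obtain ⟨_, hp1, hp2, hp3⟩ := hp
    rw [Finset.mem_sdiff, Finset.mem_filter, Finset.mem_filter, Finset.mem_Ioc, Finset.mem_Ioc]
    refine ⟨⟨⟨hp1.pos, ?_⟩, hp1⟩, ?_⟩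
    · rw [Nat.le_floor_iff (by positivity), div_mul_eq_mul_div, le_div_iff₀ hx']
      have : ((x.1 * p : ℕ) : ℝ) ≤ ((x.2 * n : ℕ) : ℝ) := by exact_mod_cast hp2.le
      push_cast at this
      linarith
    · rintro ⟨⟨_, h3⟩, _⟩
      rw [Nat.le_floor_iff (by positivity), div_mul_eq_mul_div, le_div_iff₀ hy'] at h3
      have : ((y.2 * n : ℕ) : ℝ) < ((y.1 * p : ℕ) : ℝ) := by exact_mod_cast hp3
      push_cast at this
      linarith
  · intro p hp _
    rw [Finset.mem_sdiff, Finset.mem_filter] at hp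
    exact Real.log_nonneg (by exact_mod_cast hp.1.2.one_lt.le)

lemma log_TT_le (z : ℕ × ℕ × ℕ) (hz : 0 < z.1) (n K : ℕ) :
    Real.log ((TT z n K : ℕ) : ℝ) ≤ K * Chebyshev.theta ((z.2.1 : ℝ) / z.1 * n) := by
  have hz' : (0 : ℝ) < z.1 := by exact_mod_cast hz
  unfold TT
  push_cast
  rw [Real.log_prod (fun p hp => by
    rw [Finset.mem_filter] at hp
    have := hp.2.1.pos
    positivity)]
  have h1 : ∀ p ∈ (Finset.range (z.2.1 * n + 1)).filter (fun p => p.Prime ∧ z.1 * p ≤ z.2.1 * n),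
      Real.log ((p : ℝ) ^ K) = K * Real.log p := fun p _ => Real.log_pow _ _
  rw [Finset.sum_congr rfl h1, ← Finset.mul_sum]
  apply mul_le_mul_of_nonneg_left _ (by positivity)
  unfold Chebyshev.theta
  apply Finset.sum_le_sum_of_subset_of_nonneg
  · intro p hp
    rw [Finset.mem_filter] at hp
    rw [Finset.mem_filter, Finset.mem_Ioc]
    refine ⟨⟨hp.2.1.pos, ?_⟩, hp.2.1⟩
    rw [Nat.le_floor_iff (by positivity), div_mul_eq_mul_div, le_div_iff₀ hz']
    have : ((z.1 * p : ℕ) : ℝ) ≤ ((z.2.1 * n : ℕ) : ℝ) := by exact_mod_cast hp.2.2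
    push_cast at this
    linarith
  · intro p hp _
    rw [Finset.mem_filter] at hp
    exact Real.log_nonneg (by exact_mod_cast hp.2.one_lt.le)

lemma log_DD_le (L : List (ℕ × ℕ × ℕ)) (hL : Inc L) (hpos : ∀ x ∈ L, 0 < x.2.1) (ε : ℝ) (hε : 0 < ε) :
    ∀ᶠ n : ℕ in atTop, Real.log (DD L n : ℝ) ≤ (cost L + ε) * n := by
  induction L generalizing ε with
  | nil =>
    filter_upwards with n
    simp only [DD, cost, Nat.cast_one, Real.log_one, zero_add]
    positivity
  | cons x L ih =>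
    cases L with
    | nil =>
      filter_upwards with n
      simp only [DD, cost, Nat.cast_one, Real.log_one, zero_add]
      positivity
    | cons y L =>
      obtain ⟨hx1, hy1, hxy, hI⟩ := hL
      have hx2 := hpos x (by simp)
      have hy2 := hpos y (by simp)
      have hx1' : (0 : ℝ) < x.1 := by exact_mod_cast hx1
      have hy1' : (0 : ℝ) < y.1 := by exact_mod_cast hy1
      have hx2' : (0 : ℝ) < x.2.1 := by exact_mod_cast hx2
      have hy2' : (0 : ℝ) < y.2.1 := by exact_mod_cast hy2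
      set ε' : ℝ := ε / (2 * ((x.2.2 : ℝ) + 1) * 2) with hε'
      have hε'0 : 0 < ε' := by positivity
      filter_upwards [ih hI (fun z hz => hpos z (List.mem_cons_of_mem _ hz)) (ε / 2) (by positivity),
        theta_lim ((x.2.1 : ℝ) / x.1) (by positivity) ε' hε'0,
        theta_lim ((y.2.1 : ℝ) / y.1) (by positivity) ε' hε'0] with n h1 h2 h3
      rw [DD]
      push_cast
      have hP : (0 : ℝ) < ∏ p ∈ Pc (x.1, x.2.1) (y.1, y.2.1) n, (p : ℝ) ^ x.2.2 := by
        apply Finset.prod_pos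
        intro p hp
        unfold Pc at hp
        rw [Finset.mem_filter] at hp
        have := hp.2.1.pos
        positivity
      have hD : (0 : ℝ) < (DD (y :: L) n : ℝ) := by exact_mod_cast DD_pos _ _
      rw [Real.log_mul hP.ne' hD.ne']
      have h4 := log_Pc_le (x.1, x.2.1) (y.1, y.2.1) hx1 hy1 hxy n x.2.2
      push_cast at h4
      rw [cost]
      rw [abs_le] at h2 h3
      have h5 : (x.2.2 : ℝ) * (Chebyshev.theta ((x.2.1 : ℝ) / x.1 * n) - Chebyshev.theta ((y.2.1 : ℝ) / y.1 * n))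
          ≤ x.2.2 * (((x.2.1 : ℝ) / x.1 - (y.2.1 : ℝ) / y.1) * n + 2 * ε' * n) := by
        apply mul_le_mul_of_nonneg_left _ (by positivity)
        linarith [h2.2, h3.1]
      have h6 : (x.2.2 : ℝ) * (2 * ε') ≤ ε / 2 := by
        rw [hε']
        rw [show (x.2.2 : ℝ) * (2 * (ε / (2 * ((x.2.2 : ℝ) + 1) * 2))) = (ε / 2) * (x.2.2 / ((x.2.2 : ℝ) + 1)) by
          field_simp]
        have : (x.2.2 : ℝ) / ((x.2.2 : ℝ) + 1) ≤ 1 := by
          rw [div_le_one (by positivity)]; linarith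
        calc _ ≤ (ε / 2) * 1 := mul_le_mul_of_nonneg_left this (by positivity)
          _ = _ := by ring
      have hn0 : (0 : ℝ) ≤ n := by positivity
      have h7 : (x.2.2 : ℝ) * (2 * ε') * n ≤ ε / 2 * n := mul_le_mul_of_nonneg_right h6 hn0
      nlinarith [h1, h4, h5, h7]

lemma rpow_lim (C : ℝ) (hC : 0 ≤ C) (ε : ℝ) (hε : 0 < ε) :
    ∀ᶠ n : ℕ in atTop, (C * n) ^ (3 / 4 : ℝ) ≤ ε * n := by
  have h1 : Tendsto (fun n : ℕ => (n : ℝ) ^ (-(1 / 4 : ℝ))) atTop (𝓝 0) :=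
    (tendsto_rpow_neg_atTop (by norm_num : (0 : ℝ) < 1 / 4)).comp tendsto_natCast_atTop_atTop
  have h2 : Tendsto (fun n : ℕ => C ^ (3 / 4 : ℝ) * (n : ℝ) ^ (-(1 / 4 : ℝ))) atTop (𝓝 0) := by
    have := h1.const_mul (C ^ (3 / 4 : ℝ))
    rwa [mul_zero] at this
  filter_upwards [h2.eventually_lt_const hε, eventually_ge_atTop 1] with n h3 hn
  have hn0 : (0 : ℝ) < n := by exact_mod_cast hn
  rw [Real.mul_rpow hC hn0.le]
  have h4 : (n : ℝ) ^ (3 / 4 : ℝ) = (n : ℝ) ^ (-(1 / 4 : ℝ)) * n := by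
    conv_rhs => rw [← Real.rpow_one (n : ℝ), ← Real.rpow_mul hn0.le, ← Real.rpow_add hn0]
    norm_num
  rw [h4, ← mul_assoc]
  exact mul_le_mul_of_nonneg_right h3.le hn0.le

lemma log_lim (C : ℝ) (hC : 0 ≤ C) (ε : ℝ) (hε : 0 < ε) :
    ∀ᶠ n : ℕ in atTop, C * Real.log n ≤ ε * n := by
  have h1 := Real.isLittleO_log_id_atTop.comp_tendsto (tendsto_natCast_atTop_atTop (R := ℝ))
  have h2 := h1.def (c := ε / (C + 1)) (by positivity)
  filter_upwards [h2, eventually_ge_atTop 1] with n h3 hn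
  simp only [Function.comp, id, Real.norm_eq_abs] at h3
  have hn0 : (0 : ℝ) < n := by exact_mod_cast hn
  rw [abs_of_nonneg (Real.log_nonneg (by exact_mod_cast hn)), abs_of_pos hn0] at h3
  calc C * Real.log n ≤ C * (ε / (C + 1) * n) := mul_le_mul_of_nonneg_left h3 hC
    _ = (C / (C + 1)) * (ε * n) := by field_simp
    _ ≤ 1 * (ε * n) := by
        apply mul_le_mul_of_nonneg_right _ (by positivity)
        rw [div_le_one (by positivity)]; linarith
    _ = _ := one_mul _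

lemma log_AA_le (h K : ℕ) (ε : ℝ) (hε : 0 < ε) :
    ∀ᶠ n : ℕ in atTop, Real.log (AA h n K : ℝ) ≤ ε * n := by
  filter_upwards [rpow_lim (h + 1) (by positivity) (ε / (16 * (K + 1))) (by positivity), eventually_ge_atTop 1] with n h1 hn
  have hn0 : (1 : ℝ) ≤ n := by exact_mod_cast hn
  set M : ℝ := ((h * n + 1 : ℕ) : ℝ) with hM
  have hM1 : 1 ≤ M := by rw [hM]; exact_mod_cast (by omega : 1 ≤ h * n + 1)
  have hMn : M ≤ (h + 1) * n := by
    rw [hM]; push_cast; nlinarith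
  have hA : (AA h n K : ℝ) ≤ (M ^ 2) ^ (K * (Nat.sqrt (h * n) + 1)) := by
    unfold AA
    push_cast
    calc _ ≤ ∏ p ∈ (Finset.range (Nat.sqrt (h * n) + 1)).filter Nat.Prime, (M ^ 2) ^ K := by
          apply Finset.prod_le_prod
          · intro p _; positivity
          · intro p hp
            rw [Finset.mem_filter, Finset.mem_range] at hp
            apply pow_le_pow_left₀ (by positivity)
            have h2 : p ^ Nat.log p (h * n + 1) ≤ h * n + 1 := Nat.pow_log_le_self p (by omega)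
            have h3 : p ≤ h * n + 1 := by
              have := Nat.sqrt_le_self (h * n)
              omega
            have h4 : p ^ (Nat.log p (h * n + 1) + 1) ≤ (h * n + 1) ^ 2 := by
              rw [pow_succ, pow_two]
              exact Nat.mul_le_mul h2 h3
            rw [hM]
            exact_mod_cast h4
      _ = ((M ^ 2) ^ K) ^ ((Finset.range (Nat.sqrt (h * n) + 1)).filter Nat.Prime).card := Finset.prod_const _
      _ ≤ ((M ^ 2) ^ K) ^ (Nat.sqrt (h * n) + 1) := by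
          apply pow_le_pow_right₀ (one_le_pow₀ (one_le_pow₀ hM1))
          refine (Finset.card_filter_le _ _).trans ?_
          rw [Finset.card_range]
      _ = _ := by rw [← pow_mul]
  have hApos : (0 : ℝ) < (AA h n K : ℝ) := by exact_mod_cast AA_pos h n K
  have h2 := Real.log_le_log hApos hA
  rw [Real.log_pow, Real.log_pow] at h2
  have h3 : Real.log M ≤ M ^ (1 / 4 : ℝ) / (1 / 4) := Real.log_le_rpow_div (by positivity) (by norm_num)
  have h4 : ((Nat.sqrt (h * n) : ℕ) : ℝ) + 1 ≤ 2 * M ^ (1 / 2 : ℝ) := by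
    have h5 : ((Nat.sqrt (h * n) : ℕ) : ℝ) ≤ Real.sqrt M := by
      apply Real.le_sqrt_of_sq_le
      have := Nat.sqrt_le' (h * n)
      rw [hM]
      exact_mod_cast (by omega : Nat.sqrt (h * n) ^ 2 ≤ h * n + 1)
    rw [← Real.sqrt_eq_rpow]
    have h6 : 1 ≤ Real.sqrt M := by
      rw [Real.one_le_sqrt]; exact hM1
    linarith
  have h5 : M ^ (3 / 4 : ℝ) ≤ ε / (16 * (K + 1)) * n := by
    refine le_trans ?_ h1
    apply Real.rpow_le_rpow (by positivity) hMn (by norm_num)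
  have h6 : M ^ (1 / 2 : ℝ) * M ^ (1 / 4 : ℝ) = M ^ (3 / 4 : ℝ) := by
    rw [← Real.rpow_add (by positivity)]; norm_num
  have hlog0 : 0 ≤ Real.log M := Real.log_nonneg hM1
  push_cast at h2
  calc Real.log (AA h n K : ℝ) ≤ (K : ℝ) * ((Nat.sqrt (h * n) : ℕ) + 1) * (2 * Real.log M) := h2
    _ ≤ (K : ℝ) * (2 * M ^ (1 / 2 : ℝ)) * (2 * (M ^ (1 / 4 : ℝ) / (1 / 4))) := by gcongr
    _ = 16 * K * (M ^ (1 / 2 : ℝ) * M ^ (1 / 4 : ℝ)) := by ring
    _ = 16 * K * M ^ (3 / 4 : ℝ) := by rw [h6]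
    _ ≤ 16 * K * (ε / (16 * (K + 1)) * n) := by gcongr
    _ = (K / (K + 1)) * (ε * n) := by field_simp
    _ ≤ 1 * (ε * n) := by
        apply mul_le_mul_of_nonneg_right _ (by positivity)
        rw [div_le_one (by positivity)]; linarith
    _ = _ := one_mul _

theorem log_Dn_le (b h r : ℕ) (x : ℕ × ℕ × ℕ) (L : List (ℕ × ℕ × ℕ)) (hI : Inc (x :: L))
    (hpos : ∀ y ∈ x :: L, 0 < y.2.1) (hlast : 0 < ((x :: L).getLast (by simp)).1) (ε : ℝ) (hε : 0 < ε) :
    ∀ᶠ n : ℕ in atTop, Real.log (Dn b h n r x L : ℝ) ≤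
      (cost (x :: L) + ((b - 1 + r : ℕ) : ℝ) * ((((x :: L).getLast (by simp)).2.1 : ℝ) / ((x :: L).getLast (by simp)).1) + ε) * n := by
  set z := (x :: L).getLast (by simp) with hz
  have hz2 : 0 < z.2.1 := hpos z (List.getLast_mem _)
  have hz1' : (0 : ℝ) < z.1 := by exact_mod_cast hlast
  have hz2' : (0 : ℝ) < z.2.1 := by exact_mod_cast hz2
  set K : ℕ := b - 1 + r with hK
  filter_upwards [log_AA_le h (4 * r + b) (ε / 4) (by positivity), log_lim K (by positivity) (ε / 4) (by positivity),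
    log_DD_le (x :: L) hI hpos (ε / 4) (by positivity),
    theta_lim ((z.2.1 : ℝ) / z.1) (by positivity) (ε / (4 * (K + 1))) (by positivity), eventually_ge_atTop 1] with n h1 h2 h3 h4 hn
  have hn0 : (1 : ℝ) ≤ n := by exact_mod_cast hn
  unfold Dn
  push_cast
  have p1 : (0 : ℝ) < (AA h n (4 * r + b) : ℝ) := by exact_mod_cast AA_pos _ _ _
  have p2 : (0 : ℝ) < (n : ℝ) ^ K := by positivity
  have p3 : (0 : ℝ) < (DD (x :: L) n : ℝ) := by exact_mod_cast DD_pos _ _
  have p4 : (0 : ℝ) < (TT z n K : ℝ) := by exact_mod_cast TT_pos _ _ _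
  rw [Real.log_mul (by positivity) p4.ne', Real.log_mul (by positivity) p3.ne', Real.log_mul p1.ne' p2.ne', Real.log_pow]
  have h5 := log_TT_le z hlast n K
  rw [abs_le] at h4
  have h6 : (K : ℝ) * Chebyshev.theta ((z.2.1 : ℝ) / z.1 * n) ≤ K * ((z.2.1 : ℝ) / z.1 * n + ε / (4 * (K + 1)) * n) := by
    apply mul_le_mul_of_nonneg_left _ (by positivity)
    linarith [h4.2]
  have h7 : (K : ℝ) * (ε / (4 * (K + 1)) * n) ≤ ε / 4 * n := by
    calc _ = (K / (K + 1)) * (ε / 4 * n) := by field_simp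
      _ ≤ 1 * (ε / 4 * n) := by
        apply mul_le_mul_of_nonneg_right _ (by positivity)
        rw [div_le_one (by positivity)]; linarith
      _ = _ := one_mul _
  nlinarith [h1, h2, h3, h5, h6, h7]

end

end Pool.Agent.H337R2
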