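import Pool.Agent.H337R2.Count

/-!
# The main p-adic bound for the partial fraction coefficients of the concrete data
-/

open Polynomial

namespace Pool.Agent.H337R2

noncomputable section

set_option linter.unusedSectionVars false

lemma NN_eq (b h c n : ℕ) (hch : c ≤ h) (hhn : 1 ≤ h * n) :
    NN b h c n = (∏ m ∈ Finset.Icc 1 (c * n), (X + C (m : ℚ)) ^ b) *
      ∏ m ∈ Finset.Icc (h * n - c * n) (h * n - 1), (X + C (m : ℚ)) ^ b := by
  have hcn : c * n ≤ h * n := Nat.mul_le_mul_right n hch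
  unfold NN
  rw [Finset.prod_mul_distrib]
  congr 1
  apply Finset.prod_bij (fun m _ => h * n - m)
  · intro m hm; rw [Finset.mem_Icc] at *; omega
  · intro m1 h1 m2 h2 he; rw [Finset.mem_Icc] at *; omega
  · intro m hm; rw [Finset.mem_Icc] at hm
    exact ⟨h * n - m, by rw [Finset.mem_Icc]; omega, by omega⟩
  · intro m hm
    rw [Finset.mem_Icc] at hm
    rw [Nat.cast_sub (by omega)]
    push_cast
    rfl

variable {p : ℕ} [hp : Fact p.Prime]

lemma norm_le_ite (a : ℤ) : padicNorm p (a : ℚ) ≤ if (p : ℤ) ∣ a then (p : ℚ)⁻¹ else 1 := by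
  split_ifs with h
  · have := (padicNorm.dvd_iff_norm_le (p := p) (n := 1) (z := a)).1 (by simpa using h)
    simpa using this
  · exact padicNorm.of_int a

lemma p_pos' : (0 : ℚ) < p := by exact_mod_cast hp.out.pos
lemma p_one' : (1 : ℚ) ≤ p := by exact_mod_cast hp.out.one_lt.le

/-- bound of a block of linear factors -/
lemma PB_block (A B b k : ℕ) :
    PB p (p : ℚ) (((p : ℚ)⁻¹) ^ (b * cnt p A B k))
      (∏ m ∈ Finset.Icc A B, (PowerSeries.X + PowerSeries.C (-(k : ℚ) + m)) ^ b) := by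
  have h1 : ((p : ℚ)⁻¹) ^ (b * cnt p A B k)
      = ∏ m ∈ Finset.Icc A B, ((if (p : ℤ) ∣ (m : ℤ) - k then (p : ℚ)⁻¹ else 1)) ^ b := by
    rw [prod_ite_pow (Finset.Icc A B) (fun m : ℕ => (p : ℤ) ∣ (m : ℤ) - k) ((p : ℚ)⁻¹) (fun _ => b)]
    congr 1
    rw [← Finset.mul_sum]
    congr 1
    unfold cnt
    rw [Finset.card_filter]
  rw [h1]
  have hp0 : (0 : ℚ) ≤ p := p_pos'.le
  apply PB.prod _ _ _ hp0
  · intro m _
    apply pow_nonneg
    split_ifs
    · exact inv_nonneg.2 hp0
    · exact zero_le_one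
  · intro m _
    apply PB.pow hp0
    · split_ifs
      · exact inv_nonneg.2 hp0
      · exact zero_le_one
    · apply PB.linX hp0
      · split_ifs
        · exact inv_nonneg.2 hp0
        · exact zero_le_one
      · have := norm_le_ite (p := p) ((m : ℤ) - k)
        have h2 : (((m : ℤ) - k : ℤ) : ℚ) = -(k : ℚ) + m := by push_cast; ring
        rw [h2] at this
        exact this
      · split_ifs
        · rw [inv_mul_cancel₀ p_pos'.ne']
        · rw [one_mul]; exact p_one'

lemma TS_lin2 (c a : ℚ) : TS c (2 * X + C a) = PowerSeries.C 2 * PowerSeries.X + PowerSeries.C (2 * c + a) := by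
  rw [map_add, map_mul, TS_X, TS_C]
  have : TS c 2 = PowerSeries.C 2 := by
    rw [map_ofNat, map_ofNat]
  rw [this, mul_add, ← map_mul, map_add]
  ring

lemma PB_PP (b h c n : ℕ) (ds : List ℕ) (hch : c ≤ h) (hhn : 1 ≤ h * n) (k : ℕ) :
    PB p (p : ℚ) (padicNorm p (cst b h c n ds) * ((p : ℚ)⁻¹) ^ (b * n1 p h c n k))
      (TS (-(k : ℚ)) (PP b h c n ds)) := by
  have hp0 : (0 : ℚ) ≤ p := p_pos'.le
  unfold PP
  rw [NN_eq b h c n hch hhn, (TS (-(k : ℚ))).map_mul, (TS (-(k : ℚ))).map_mul,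
    (TS (-(k : ℚ))).map_mul, TS_C, TS_lin2, map_prod, map_prod]
  simp only [map_pow, TS_lin]
  have h1 : padicNorm p (cst b h c n ds) * ((p : ℚ)⁻¹) ^ (b * n1 p h c n k)
      = (padicNorm p (cst b h c n ds) * 1) * (((p : ℚ)⁻¹) ^ (b * cnt p 1 (c * n) k) *
        ((p : ℚ)⁻¹) ^ (b * cnt p (h * n - c * n) (h * n - 1) k)) := by
    unfold n1
    rw [mul_one, mul_add, pow_add]
  rw [h1]
  have hinv : (0 : ℚ) ≤ (p : ℚ)⁻¹ := inv_nonneg.2 hp0
  have hcst : 0 ≤ padicNorm p (cst b h c n ds) := padicNorm.nonneg _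
  apply PB.mul hp0 (mul_nonneg hcst zero_le_one) (by positivity)
  · apply PB.mul hp0 hcst zero_le_one
    · exact PB.C hp0 hcst le_rfl
    · apply PB.lin hp0 zero_le_one
      · have := padicNorm.of_int (p := p) ((h : ℤ) * n - 2 * k)
        push_cast at this
        rw [show (2 : ℚ) * -(k : ℚ) + (h : ℚ) * n = (h : ℚ) * n - 2 * k by ring]
        exact this
      · rw [one_mul]
        have := padicNorm.of_int (p := p) 2
        push_cast at this
        exact this.trans p_one'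
  · exact PB.mul hp0 (by positivity) (by positivity) (PB_block _ _ _ _) (PB_block _ _ _ _)

lemma mem_ss_ne {h c n k : ℕ} {m : ℕ} (hm : m ∈ ss h c n) (hk : k ∈ ss h c n)
    (hmk : m ≠ k) (hp2 : h * n < p ^ 2) :
    padicNorm p ((m : ℚ) - k) = if (p : ℤ) ∣ (m : ℤ) - k then (p : ℚ)⁻¹ else 1 := by
  have h1 : ((m : ℤ) - k) ≠ 0 := by
    intro h; apply hmk; omega
  have h2 : |(m : ℤ) - k| < (p : ℤ) ^ 2 := by
    rw [ss, Finset.mem_Icc] at hm hk
    have h3 : ((h * n : ℕ) : ℤ) < ((p ^ 2 : ℕ) : ℤ) := by exact_mod_cast hp2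
    have h4 : (((p ^ 2 : ℕ) : ℤ)) = (p : ℤ) ^ 2 := by push_cast; ring
    rw [← h4]
    rw [abs_lt]
    omega
  have h3 := norm_small (p := p) h1 h2
  push_cast at h3
  exact h3

lemma nq_split (h c n k : ℕ) (ds : List ℕ) (hn : 1 ≤ n)
    (hc : ∀ d ∈ ds, c < d) (h2 : ∀ d ∈ ds, 2 * d < h) (hk : k ∈ ss h c n) :
    nq p h n ds k = mu h n ds k +
      ∑ m ∈ (ss h c n).erase k, mu h n ds m * (if (p : ℤ) ∣ (m : ℤ) - k then 1 else 0) := by
  have h1 := sum_mu h c n ds hn hc h2 (fun m => if (p : ℤ) ∣ (m : ℤ) - k then 1 else 0)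
  rw [← Finset.add_sum_erase _ _ hk] at h1
  simp only [sub_self, dvd_zero, if_true, mul_one] at h1
  rw [h1]
  unfold nq cnt
  congr 1
  apply List.map_congr_left
  intro d _
  rw [Finset.card_filter]

/-- main p-adic bound -/
theorem pa_bound (b h c n : ℕ) (ds : List ℕ) (hn : 1 ≤ n)
    (hc : ∀ d ∈ ds, c < d) (h2 : ∀ d ∈ ds, 2 * d < h) (hch : c < h) (hp2 : h * n < p ^ 2) {k : ℕ}
    (hk : k ∈ ss h c n) (i : ℕ) :
    padicNorm p (pa (ss h c n) (mu h n ds) (PP b h c n ds) k i) ≤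
      padicNorm p (cst b h c n ds) * ((p : ℚ)⁻¹) ^ (b * n1 p h c n k + i) * (p : ℚ) ^ (nq p h n ds k) := by
  have hp0 : (0 : ℚ) ≤ p := p_pos'.le
  have hinv : (0 : ℚ) ≤ (p : ℚ)⁻¹ := inv_nonneg.2 hp0
  have hcst : 0 ≤ padicNorm p (cst b h c n ds) := padicNorm.nonneg _
  unfold pa
  split_ifs with hi
  · have h1 := pfc_bound (p := p) (ss h c n) (mu h n ds) (PP b h c n ds) k (p : ℚ) _
      (fun m => if (p : ℤ) ∣ (m : ℤ) - k then (p : ℚ) else 1) hp0 (by positivity)
      (PB_PP b h c n ds hch.le (Nat.one_le_iff_ne_zero.2 (Nat.mul_ne_zero (by omega) (by omega))) k)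
      (by
        intro m hm _
        rw [mem_ss_ne (Finset.mem_of_mem_erase hm) hk (Finset.ne_of_mem_erase hm) hp2]
        split_ifs
        · simp
        · simp [hp.out.one_lt.le])
      (by
        intro m _
        split_ifs
        · exact hp0
        · exact zero_le_one) (mu h n ds k - i)
    refine h1.trans (le_of_eq ?_)
    rw [prod_ite_pow, nq_split h c n k ds hn hc h2 hk]
    have h3 : ((p : ℚ)⁻¹) ^ i * (p : ℚ) ^ i = 1 := by
      rw [← mul_pow, inv_mul_cancel₀ p_pos'.ne', one_pow]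
    have h4 : (p : ℚ) ^ (mu h n ds k) = (p : ℚ) ^ (mu h n ds k - i) * (p : ℚ) ^ i := by
      rw [← pow_add, Nat.sub_add_cancel hi]
    rw [pow_add, pow_add, h4]
    linear_combination (padicNorm p (cst b h c n ds) * ((p : ℚ)⁻¹) ^ (b * n1 p h c n k) *
      (p : ℚ) ^ (∑ m ∈ (ss h c n).erase k, mu h n ds m * (if (p : ℤ) ∣ (m : ℤ) - k then 1 else 0)) *
      (p : ℚ) ^ (mu h n ds k - i)) * (-1) * h3
  · rw [padicNorm.zero]
    positivity

/-- generic bound for `TS PP` with `ρ ≥ 1`, all numerator factors only known to be integral -/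
lemma PB_PP_int (b h c n : ℕ) (ds : List ℕ) (k : ℕ) (ρ : ℚ) (hρ : 1 ≤ ρ) :
    PB p ρ (padicNorm p (cst b h c n ds)) (TS (-(k : ℚ)) (PP b h c n ds)) := by
  have hρ0 : (0 : ℚ) ≤ ρ := by linarith
  have hcst : 0 ≤ padicNorm p (cst b h c n ds) := padicNorm.nonneg _
  unfold PP NN
  rw [(TS (-(k : ℚ))).map_mul, (TS (-(k : ℚ))).map_mul, TS_C, TS_lin2, map_prod]
  have key : PB p ρ 1 (∏ x ∈ Finset.Icc 1 (c * n), (TS (-(k : ℚ))) ((X + C (x : ℚ)) ^ b * (X + C ((h : ℚ) * n - x)) ^ b)) := by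
    have := PB.prod (p := p) (Finset.Icc 1 (c * n)) (fun _ => (1 : ℚ))
      (fun x : ℕ => (TS (-(k : ℚ))) ((X + C (x : ℚ)) ^ b * (X + C ((h : ℚ) * n - x)) ^ b)) hρ0
      (fun _ _ => zero_le_one) (by
        intro m _
        rw [map_mul, map_pow, map_pow, TS_lin, TS_lin]
        have e1 : PB p ρ 1 (PowerSeries.X + PowerSeries.C (-(k : ℚ) + m)) := by
          apply PB.linX hρ0 zero_le_one
          · have := padicNorm.of_int (p := p) (-(k : ℤ) + m)
            push_cast at this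
            exact this
          · rw [one_mul]; exact hρ
        have e2 : PB p ρ 1 (PowerSeries.X + PowerSeries.C (-(k : ℚ) + ((h : ℚ) * n - m))) := by
          apply PB.linX hρ0 zero_le_one
          · have := padicNorm.of_int (p := p) (-(k : ℤ) + (h * n - m))
            push_cast at this
            exact this
          · rw [one_mul]; exact hρ
        have e3 := PB.mul hρ0 (by positivity) (by positivity) (PB.pow hρ0 zero_le_one e1 b) (PB.pow hρ0 zero_le_one e2 b)
        simpa using e3)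
    simpa using this
  have e4 : PB p ρ 1 (PowerSeries.C 2 * PowerSeries.X + PowerSeries.C (2 * -(k : ℚ) + (h : ℚ) * n)) := by
    apply PB.lin hρ0 zero_le_one
    · have := padicNorm.of_int (p := p) ((h : ℤ) * n - 2 * k)
      push_cast at this
      rw [show (2 : ℚ) * -(k : ℚ) + (h : ℚ) * n = (h : ℚ) * n - 2 * k by ring]
      exact this
    · rw [one_mul]
      have := padicNorm.of_int (p := p) 2
      push_cast at this
      exact this.trans hρ
  have e5 := PB.mul hρ0 (by positivity) zero_le_one (PB.mul hρ0 hcst zero_le_one (PB.C hρ0 hcst le_rfl) e4) key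
  simpa using e5

/-- bound when the class of `k` mod `p` contains no other pole -/
theorem pa_bound_int (b h c n : ℕ) (ds : List ℕ) {k : ℕ}
    (hk : k ∈ ss h c n) (i : ℕ)
    (hno : ∀ m ∈ ss h c n, m ≠ k → mu h n ds m ≠ 0 → ¬ (p : ℤ) ∣ (m : ℤ) - k) :
    padicNorm p (pa (ss h c n) (mu h n ds) (PP b h c n ds) k i) ≤
      padicNorm p (cst b h c n ds) := by
  have hcst : 0 ≤ padicNorm p (cst b h c n ds) := padicNorm.nonneg _
  unfold pa
  split_ifs with hi
  · have h1 := pfc_bound (p := p) (ss h c n) (mu h n ds) (PP b h c n ds) k 1 _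
      (fun m => 1) zero_le_one hcst
      (PB_PP_int b h c n ds k 1 le_rfl)
      (by
        intro m hm hm0
        have h2 := hno m (Finset.mem_of_mem_erase hm) (Finset.ne_of_mem_erase hm) hm0
        have h3 := (padicNorm.int_eq_one_iff (p := p) _).2 h2
        push_cast at h3
        rw [h3]; simp)
      (by
        intro m _; exact zero_le_one) (mu h n ds k - i)
    simpa using h1
  · rw [padicNorm.zero]
    positivity

end

end Pool.Agent.H337R2
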