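import Mathlib

/-!
# Elementary Stirling-type bounds
-/

namespace Pool.Agent.H337R2

noncomputable section

/-- `x log x` -/
def xl (x : ℝ) : ℝ := x * Real.log x

lemma xl_zero : xl 0 = 0 := by simp [xl]

lemma exp_xl (x : ℕ) : Real.exp (xl x) = (x : ℝ) ^ x := by
  rcases Nat.eq_zero_or_pos x with rfl | hx
  · simp [xl]
  · have : (0 : ℝ) < x := by exact_mod_cast hx
    unfold xl
    rw [mul_comm, Real.exp_mul, Real.exp_log this, Real.rpow_natCast]

lemma xl_scale {n : ℝ} (hn : 0 < n) {x : ℝ} (hx : 0 ≤ x) : xl (n * x) = n * xl x + n * x * Real.log n := by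
  unfold xl
  rcases hx.eq_or_lt with rfl | h
  · simp
  · rw [Real.log_mul hn.ne' h.ne']; ring

lemma prod_up (t L : ℕ) : (∏ m ∈ Finset.Icc 1 L, ((t : ℝ) + m)) * (Nat.factorial t : ℝ) = Nat.factorial (t + L) := by
  induction L with
  | zero => simp
  | succ L ih =>
    rw [Finset.prod_Icc_succ_top (by omega), ← add_assoc, Nat.factorial_succ]
    push_cast
    rw [← ih]; ring

lemma L1 (t L : ℕ) : ∏ m ∈ Finset.Icc 1 L, ((t : ℝ) + m) ≤
    (Nat.factorial L : ℝ) * Real.exp (xl (t + L) - xl t - xl L) := by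
  have h1 : Nat.choose (t + L) L * t ^ t * L ^ L ≤ (t + L) ^ (t + L) := by
    rw [add_pow]
    have : Nat.choose (t + L) L * t ^ t * L ^ L = t ^ t * L ^ (t + L - t) * (t + L).choose t := by
      rw [Nat.add_sub_cancel_left]
      rw [Nat.choose_symm_add]; ring
    rw [this]
    exact Finset.single_le_sum (f := fun m => t ^ m * L ^ (t + L - m) * (t + L).choose m) (fun _ _ => Nat.zero_le _) (Finset.mem_range.2 (by omega))
  have h2 : (∏ m ∈ Finset.Icc 1 L, ((t : ℝ) + m)) = (Nat.choose (t + L) L : ℝ) * Nat.factorial L := by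
    have e1 := prod_up t L
    have e2 : (Nat.factorial t : ℝ) ≠ 0 := by exact_mod_cast Nat.factorial_ne_zero t
    have e3 : ((t + L).choose L * Nat.factorial L * Nat.factorial t : ℝ) = Nat.factorial (t + L) := by
      have := Nat.choose_mul_factorial_mul_factorial (show L ≤ t + L by omega)
      rw [Nat.add_sub_cancel] at this
      exact_mod_cast this
    rw [← e3] at e1
    exact mul_right_cancel₀ e2 e1
  have h3 : Real.exp (xl (t + L) - xl t - xl L) = ((t + L : ℕ) : ℝ) ^ (t + L) / ((t : ℝ) ^ t * (L : ℝ) ^ L) := by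
    rw [sub_sub, Real.exp_sub, Real.exp_add, exp_xl, exp_xl, ← exp_xl (t + L)]
    push_cast; rfl
  rw [h2, h3]
  have e4 : (0 : ℝ) < (t : ℝ) ^ t := by
    rcases Nat.eq_zero_or_pos t with rfl | h
    · simp
    · positivity
  have e5 : (0 : ℝ) < (L : ℝ) ^ L := by
    rcases Nat.eq_zero_or_pos L with rfl | h
    · simp
    · positivity
  rw [mul_comm, mul_div_assoc', le_div_iff₀ (by positivity), mul_assoc]
  apply mul_le_mul_of_nonneg_left _ (by positivity)
  have h4 : ((Nat.choose (t + L) L * t ^ t * L ^ L : ℕ) : ℝ) ≤ (((t + L) ^ (t + L) : ℕ) : ℝ) := by exact_mod_cast h1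
  push_cast at h4 ⊢
  linarith

lemma L2 (K L : ℕ) (hKL : L ≤ K) : ∏ m ∈ Finset.Icc 1 L, ((K : ℝ) - m) ≤
    (Nat.factorial L : ℝ) * Real.exp (xl K - xl (K - L) - xl L) := by
  have h1 := L1 (K - L) L
  have h2 : ((K - L : ℕ) : ℝ) = (K : ℝ) - L := Nat.cast_sub hKL
  rw [h2, sub_add_cancel] at h1
  refine le_trans ?_ h1
  have h3 : ∏ m ∈ Finset.Icc 1 L, ((K : ℝ) - L + m) = ∏ m ∈ Finset.Icc 1 L, ((K : ℝ) - m + 1) := by
    apply Finset.prod_bij (fun m _ => L + 1 - m)
    · intro m hm; rw [Finset.mem_Icc] at *; omega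
    · intro a ha b hb h; rw [Finset.mem_Icc] at *; omega
    · intro m hm; rw [Finset.mem_Icc] at hm
      exact ⟨L + 1 - m, by rw [Finset.mem_Icc]; omega, by omega⟩
    · intro m hm
      rw [Finset.mem_Icc] at hm
      rw [Nat.cast_sub (by omega)]
      push_cast; ring
  rw [h3]
  apply Finset.prod_le_prod
  · intro m hm
    rw [Finset.mem_Icc] at hm
    have : (m : ℝ) ≤ K := by exact_mod_cast hm.2.trans hKL
    linarith
  · intro m _; linarith

lemma low_step {x : ℝ} (hx : 0 ≤ x) : xl (x + 1) ≤ xl x + 1 + Real.log (x + 1) := by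
  unfold xl
  rcases hx.eq_or_lt with rfl | h
  · simp
  · have h1 : Real.log ((x + 1) / x) ≤ (x + 1) / x - 1 := Real.log_le_sub_one_of_pos (by positivity)
    rw [Real.log_div (by positivity) h.ne'] at h1
    have h2 : (x + 1) / x - 1 = 1 / x := by field_simp; ring
    rw [h2] at h1
    have h3 : x * (Real.log (x + 1) - Real.log x) ≤ x * (1 / x) := mul_le_mul_of_nonneg_left h1 hx
    rw [mul_one_div_cancel h.ne'] at h3
    nlinarith

lemma up_step {N : ℝ} (hN : 0 < N) : xl N + Real.log N + 1 ≤ xl (N + 1) := by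
  unfold xl
  have h1 : 1 - ((N + 1) / N)⁻¹ ≤ Real.log ((N + 1) / N) := Real.one_sub_inv_le_log_of_pos (by positivity)
  rw [Real.log_div (by positivity) hN.ne'] at h1
  have h2 : 1 - ((N + 1) / N)⁻¹ = 1 / (N + 1) := by field_simp; ring
  rw [h2] at h1
  have h3 : (N + 1) * (1 / (N + 1)) ≤ (N + 1) * (Real.log (N + 1) - Real.log N) := mul_le_mul_of_nonneg_left h1 (by positivity)
  rw [mul_one_div_cancel (by positivity)] at h3
  nlinarith

lemma fac_low (T N : ℕ) : (Nat.factorial T : ℝ) * Real.exp (xl (T + N)) ≤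
    Nat.factorial (T + N) * Real.exp N * Real.exp (xl T) := by
  induction N with
  | zero => simp
  | succ N ih =>
    have h1 := low_step (x := (T : ℝ) + N) (by positivity)
    have h2 : Real.exp (xl ((T : ℝ) + N + 1)) ≤ Real.exp (xl (T + N)) * Real.exp 1 * ((T : ℝ) + N + 1) := by
      calc _ ≤ Real.exp (xl ((T : ℝ) + N) + 1 + Real.log ((T : ℝ) + N + 1)) := Real.exp_le_exp.2 h1
        _ = _ := by rw [Real.exp_add, Real.exp_add, Real.exp_log (by positivity)]
    rw [← add_assoc, Nat.factorial_succ]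
    push_cast
    rw [← add_assoc, Real.exp_add]
    calc _ ≤ (Nat.factorial T : ℝ) * (Real.exp (xl (T + N)) * Real.exp 1 * ((T : ℝ) + N + 1)) := by gcongr
      _ = ((Nat.factorial T : ℝ) * Real.exp (xl (T + N))) * (Real.exp 1 * ((T : ℝ) + N + 1)) := by ring
      _ ≤ (Nat.factorial (T + N) * Real.exp N * Real.exp (xl T)) * (Real.exp 1 * ((T : ℝ) + N + 1)) := by gcongr
      _ = _ := by ring

lemma fac_up (N : ℕ) : (Nat.factorial N : ℝ) * Real.exp N ≤ Real.exp 1 * (N + 1) * Real.exp (xl N) := by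
  have key : ∀ N : ℕ, (Nat.factorial (N + 1) : ℝ) * Real.exp (N + 1 : ℝ) ≤ Real.exp 1 * (N + 1) * Real.exp (xl (N + 1)) := by
    intro N
    induction N with
    | zero => simp [xl]
    | succ N ih =>
      have h1 := up_step (N := (N : ℝ) + 1) (by positivity)
      have h2 : Real.exp (xl ((N : ℝ) + 1)) * ((N : ℝ) + 1) * Real.exp 1 ≤ Real.exp (xl ((N : ℝ) + 1 + 1)) := by
        calc _ = Real.exp (xl ((N : ℝ) + 1) + Real.log ((N : ℝ) + 1) + 1) := by
              rw [Real.exp_add, Real.exp_add, Real.exp_log (by positivity)]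
          _ ≤ _ := Real.exp_le_exp.2 h1
      rw [Nat.factorial_succ (N + 1)]
      push_cast
      rw [Real.exp_add]
      calc _ = ((Nat.factorial (N + 1) : ℝ) * Real.exp (N + 1 : ℝ)) * (((N : ℝ) + 1 + 1) * Real.exp 1) := by ring
        _ ≤ (Real.exp 1 * (N + 1) * Real.exp (xl (N + 1))) * (((N : ℝ) + 1 + 1) * Real.exp 1) := by gcongr
        _ = Real.exp 1 * ((N : ℝ) + 1 + 1) * (Real.exp (xl ((N : ℝ) + 1)) * ((N : ℝ) + 1) * Real.exp 1) := by ring
        _ ≤ _ := by gcongr
  rcases Nat.eq_zero_or_pos N with rfl | hN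
  · simp [xl]
  · obtain ⟨M, rfl⟩ : ∃ M, N = M + 1 := ⟨N - 1, by omega⟩
    have := key M
    push_cast
    refine this.trans ?_
    have : 0 ≤ Real.exp 1 * Real.exp (xl (M + 1)) := by positivity
    nlinarith

lemma L3 (T N : ℕ) (hT : 1 ≤ T) : (Nat.factorial N : ℝ) * ∏ k ∈ Finset.Icc T (T + N), ((k : ℝ))⁻¹ ≤
    Real.exp 1 * (N + 1) / T * Real.exp (xl N + xl T - xl (T + N)) := by
  have h1 : ∏ k ∈ Finset.Icc T (T + N), ((k : ℝ))⁻¹ = (Nat.factorial T : ℝ) / T / Nat.factorial (T + N) := by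
    have hT' : (T : ℝ) ≠ 0 := by positivity
    induction N with
    | zero =>
      simp
      have : (Nat.factorial T : ℝ) ≠ 0 := by exact_mod_cast Nat.factorial_ne_zero T
      field_simp
    | succ N ih =>
      rw [← add_assoc, Finset.prod_Icc_succ_top (by omega), ih, Nat.factorial_succ]
      push_cast
      have : (Nat.factorial (T + N) : ℝ) ≠ 0 := by exact_mod_cast Nat.factorial_ne_zero _
      field_simp
  rw [h1]
  have h2 := fac_low T N
  have h3 := fac_up N
  have hT' : (0 : ℝ) < T := by positivity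
  have hf : (0 : ℝ) < Nat.factorial (T + N) := by exact_mod_cast Nat.factorial_pos _
  rw [Real.exp_sub, Real.exp_add]
  have e1 : (Nat.factorial N : ℝ) * ((Nat.factorial T : ℝ) / T / Nat.factorial (T + N))
      = ((Nat.factorial N : ℝ) * Real.exp N) * ((Nat.factorial T : ℝ) * Real.exp (xl (T + N))) /
        (T * Nat.factorial (T + N) * Real.exp N * Real.exp (xl (T + N))) := by
    have := Real.exp_pos (N : ℝ)
    have := Real.exp_pos (xl ((T : ℝ) + N))
    field_simp
  rw [e1]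
  have hp1 := Real.exp_pos (N : ℝ)
  have hp2 := Real.exp_pos (xl ((T : ℝ) + N))
  have hp3 := Real.exp_pos (xl (T : ℝ))
  have hp4 := Real.exp_pos (xl (N : ℝ))
  rw [div_le_iff₀ (by positivity)]
  calc _ ≤ (Real.exp 1 * (N + 1) * Real.exp (xl N)) * (Nat.factorial (T + N) * Real.exp N * Real.exp (xl T)) := by gcongr
    _ = _ := by field_simp

end

end Pool.Agent.H337R2
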