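import Pool.Agent.H337R2.Cx6
import Pool.Agent.H337R2.Asym

/-!
# The archimedean bound on the line
-/

open MeasureTheory Filter Topology Polynomial

namespace Pool.Agent.H337R2

noncomputable section

lemma prod_half (A B : ℕ) (hA : 2 ≤ A) (hAB : A ≤ B) :
    ∏ k ∈ Finset.Icc A B, (k : ℝ) ≤ B * ∏ k ∈ Finset.Icc A B, ((k : ℝ) - 1 / 2) := by
  obtain ⟨N, hN⟩ : ∃ N, B = A + N := ⟨B - A, by omega⟩
  induction N generalizing B with
  | zero =>
    have hB : B = A := by omega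
    subst hB
    rw [Finset.Icc_self, Finset.prod_singleton, Finset.prod_singleton]
    have : (2 : ℝ) ≤ B := by exact_mod_cast hA
    nlinarith
  | succ N ih =>
    obtain ⟨B', rfl⟩ : ∃ B', B = B' + 1 := ⟨B - 1, by omega⟩
    have h1 := ih B' (by omega) (by omega)
    rw [Finset.prod_Icc_succ_top (by omega), Finset.prod_Icc_succ_top (by omega)]
    have h2 : 0 ≤ ∏ k ∈ Finset.Icc A B', ((k : ℝ) - 1 / 2) := by
      apply Finset.prod_nonneg
      intro k hk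
      rw [Finset.mem_Icc] at hk
      have : (2 : ℝ) ≤ k := by exact_mod_cast (by omega : 2 ≤ k)
      linarith
    have hB0 : (0 : ℝ) ≤ B' := by positivity
    push_cast
    calc _ ≤ (B' * ∏ k ∈ Finset.Icc A B', ((k : ℝ) - 1 / 2)) * ((B' : ℝ) + 1) := by gcongr
      _ ≤ (((B' : ℝ) + 1 / 2) * ∏ k ∈ Finset.Icc A B', ((k : ℝ) - 1 / 2)) * ((B' : ℝ) + 1) := by
          gcongr; linarith
      _ = _ := by ring

lemma prod_half_mu (h c n : ℕ) (ds : List ℕ) (hn : 1 ≤ n) (hc0 : 1 ≤ c)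
    (hc : ∀ d ∈ ds, c < d) (h2 : ∀ d ∈ ds, 2 * d < h) :
    ∏ k ∈ ss h c n, (k : ℝ) ^ mu h n ds k ≤ ((h : ℝ) * n) ^ ds.length * ∏ k ∈ ss h c n, ((k : ℝ) - 1 / 2) ^ mu h n ds k := by
  rw [prod_mu h c n ds hn hc h2 (fun k : ℕ => (k : ℝ)), prod_mu h c n ds hn hc h2 (fun k : ℕ => (k : ℝ) - 1 / 2)]
  induction ds with
  | nil => simp
  | cons d l ih =>
    simp only [List.map_cons, List.prod_cons, List.length_cons, pow_succ']
    have hd1 := hc d (by simp)
    have hd2 := h2 d (by simp)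
    have ih' := ih (fun d' hd' => hc d' (List.mem_cons_of_mem _ hd')) (fun d' hd' => h2 d' (List.mem_cons_of_mem _ hd'))
    have hdn : d * n + d * n + 1 ≤ h * n := by
      have : (2 * d + 1) * n ≤ h * n := Nat.mul_le_mul_right n (by omega)
      have e : (2 * d + 1) * n = d * n + d * n + n := by ring
      omega
    have h3 := prod_half (d * n) (h * n - d * n) (by nlinarith) (by omega)
    have h4 : ((h * n - d * n : ℕ) : ℝ) ≤ (h : ℝ) * n := by exact_mod_cast Nat.sub_le _ _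
    have h5 : 0 ≤ ∏ k ∈ Finset.Icc (d * n) (h * n - d * n), ((k : ℝ) - 1 / 2) := by
      apply Finset.prod_nonneg
      intro k hk
      rw [Finset.mem_Icc] at hk
      have : (1 : ℝ) ≤ k := by exact_mod_cast (by nlinarith : 1 ≤ k)
      linarith
    have h6 : 0 ≤ (l.map fun d => ∏ k ∈ Finset.Icc (d * n) (h * n - d * n), (k : ℝ)).prod := by
      apply List.prod_nonneg
      intro a ha
      rw [List.mem_map] at ha
      obtain ⟨d', _, rfl⟩ := ha
      positivity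
    calc _ ≤ (((h : ℝ) * n) * ∏ k ∈ Finset.Icc (d * n) (h * n - d * n), ((k : ℝ) - 1 / 2)) *
          (((h : ℝ) * n) ^ l.length * (l.map fun d => ∏ k ∈ Finset.Icc (d * n) (h * n - d * n), ((k : ℝ) - 1 / 2)).prod) := by
          apply mul_le_mul _ ih' h6 (by positivity)
          exact h3.trans (mul_le_mul_of_nonneg_right h4 h5)
      _ = _ := by ring

lemma A0_le (b h c n : ℕ) (ds : List ℕ) (hn : 1 ≤ n) (hc0 : 1 ≤ c) (hch : 2 * c < h)
    (hc : ∀ d ∈ ds, c < d) (h2 : ∀ d ∈ ds, 2 * d < h) :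
    A0 b h c n ds ≤ (((Rt b h c n ds 0 : ℚ) : ℝ) * ((h : ℝ) * n) ^ ds.length) ^ 2 := by
  have hcn : c * n + 1 ≤ h * n - c * n := by
    have : (2 * c + 1) * n ≤ h * n := Nat.mul_le_mul_right n (by omega)
    have e : (2 * c + 1) * n = c * n + c * n + n := by ring
    omega
  have hcst : (0 : ℝ) ≤ ((cst b h c n ds : ℚ) : ℝ) := by exact_mod_cast cst_nonneg b h c n ds
  have hhn : (1 : ℝ) ≤ (h : ℝ) * n := by exact_mod_cast (by nlinarith : 1 ≤ h * n)
  have hk1 : ∀ k ∈ ss h c n, (1 : ℝ) ≤ k := by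
    intro k hk
    unfold ss at hk
    rw [Finset.mem_Icc] at hk
    exact_mod_cast (by omega : 1 ≤ k)
  set N1 := ∏ m ∈ Finset.Icc 1 (c * n), (((m : ℝ) - 1 / 2) ^ b * (((h * n - m : ℕ) : ℝ) - 1 / 2) ^ b) with hN1
  set N2 := ∏ m ∈ Finset.Icc 1 (c * n), ((m : ℝ) ^ b * ((h * n - m : ℕ) : ℝ) ^ b) with hN2
  set D1 := ∏ k ∈ ss h c n, ((k : ℝ) - 1 / 2) ^ mu h n ds k with hD1
  set D2 := ∏ k ∈ ss h c n, (k : ℝ) ^ mu h n ds k with hD2
  have hD10 : 0 < D1 := Finset.prod_pos fun k hk => pow_pos (by linarith [hk1 k hk]) _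
  have hD20 : 0 < D2 := Finset.prod_pos fun k hk => pow_pos (by linarith [hk1 k hk]) _
  have hmul : ∀ m ∈ Finset.Icc 1 (c * n), (1 : ℝ) ≤ m ∧ (1 : ℝ) ≤ ((h * n - m : ℕ) : ℝ) := by
    intro m hm
    rw [Finset.mem_Icc] at hm
    exact ⟨by exact_mod_cast hm.1, by exact_mod_cast (by omega : 1 ≤ h * n - m)⟩
  have hN10 : 0 ≤ N1 := Finset.prod_nonneg fun m hm => by
    obtain ⟨a1, a2⟩ := hmul m hm
    exact mul_nonneg (pow_nonneg (by linarith) _) (pow_nonneg (by linarith) _)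
  have hN12 : N1 ≤ N2 := by
    apply Finset.prod_le_prod
    · intro m hm
      obtain ⟨a1, a2⟩ := hmul m hm
      exact mul_nonneg (pow_nonneg (by linarith) _) (pow_nonneg (by linarith) _)
    · intro m hm
      obtain ⟨a1, a2⟩ := hmul m hm
      apply mul_le_mul
      · exact pow_le_pow_left₀ (by linarith) (by linarith) _
      · exact pow_le_pow_left₀ (by linarith) (by linarith) _
      · exact pow_nonneg (by linarith) _
      · exact pow_nonneg (by linarith) _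
  have hA : A0 b h c n ds = (((cst b h c n ds : ℚ) : ℝ) * N1 / D1) ^ 2 := by
    unfold A0
    rw [div_pow, mul_pow, hN1, hD1, ← Finset.prod_pow, ← Finset.prod_pow]
    congr 1
    · congr 1
      apply Finset.prod_congr rfl
      intro m _
      generalize (m : ℝ) - 1 / 2 = u
      generalize ((h * n - m : ℕ) : ℝ) - 1 / 2 = v
      ring
    · apply Finset.prod_congr rfl
      intro m _
      generalize (m : ℝ) - 1 / 2 = u
      ring
  have hR : ((Rt b h c n ds 0 : ℚ) : ℝ) = ((cst b h c n ds : ℚ) : ℝ) * (h * n) * N2 / D2 := by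
    unfold Rt
    push_cast
    rw [hN2, hD2]
    have e1 : ∏ m ∈ Finset.Icc 1 (c * n), ((0 + (m : ℝ)) ^ b * (0 + ((h : ℝ) * n - m)) ^ b) =
        ∏ m ∈ Finset.Icc 1 (c * n), ((m : ℝ) ^ b * ((h * n - m : ℕ) : ℝ) ^ b) := by
      apply Finset.prod_congr rfl
      intro m hm
      rw [Finset.mem_Icc] at hm
      rw [Nat.cast_sub (by omega)]
      push_cast
      ring
    have e2 : ∏ k ∈ ss h c n, ((0 + (k : ℝ))⁻¹) ^ mu h n ds k = (∏ k ∈ ss h c n, (k : ℝ) ^ mu h n ds k)⁻¹ := by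
      rw [← Finset.prod_inv_distrib]
      apply Finset.prod_congr rfl
      intro k _
      rw [zero_add, inv_pow]
    rw [e1, e2]
    ring
  rw [hA]
  apply pow_le_pow_left₀ (by positivity)
  rw [hR]
  have hD := prod_half_mu h c n ds hn hc0 hc h2
  rw [← hD1, ← hD2] at hD
  have hD' : 1 / D1 ≤ ((h : ℝ) * n) ^ ds.length / D2 := by
    rw [div_le_div_iff₀ hD10 hD20]; linarith
  have hN20 : 0 ≤ N2 := hN10.trans hN12
  calc ((cst b h c n ds : ℚ) : ℝ) * N1 / D1 = ((cst b h c n ds : ℚ) : ℝ) * N1 * (1 / D1) := by ring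
    _ ≤ ((cst b h c n ds : ℚ) : ℝ) * N2 * (((h : ℝ) * n) ^ ds.length / D2) := by gcongr
    _ = (((cst b h c n ds : ℚ) : ℝ) * 1 * N2 / D2) * ((h : ℝ) * n) ^ ds.length := by ring
    _ ≤ (((cst b h c n ds : ℚ) : ℝ) * (h * n) * N2 / D2) * ((h : ℝ) * n) ^ ds.length := by gcongr

lemma Rc_neg_sq (b h c n : ℕ) (ds : List ℕ) (hch : c * n ≤ h * n)
    (hdeg : (PP b h c n ds).degree < (QQ (ss h c n) (mu h n ds)).degree) (y : ℝ) :
    ‖Rc (ss h c n) (mu h n ds) (PP b h c n ds) (-y)‖ ^ 2 = ‖Rc (ss h c n) (mu h n ds) (PP b h c n ds) y‖ ^ 2 := by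
  rw [Rc_eq _ _ _ hdeg, Rc_eq _ _ _ hdeg, norm_div, norm_div, div_pow, div_pow, norm_QQ_sq, norm_QQ_sq,
    norm_PP_sq b h c n ds hch, norm_PP_sq b h c n ds hch]
  unfold lin ws
  simp only [neg_sq]

lemma far_elem (Y y : ℝ) (hY : 1 ≤ Y) (hy : Y ≤ y) :
    (1 + y ^ 2) ^ 2 * ((y / Y) ^ 2 * Real.exp (-((y - Y) / 2))) ≤ 92160 * (1 + Y ^ 2) ^ 2 := by
  set v := y - Y with hv
  have hv0 : 0 ≤ v := by linarith
  have hyv : y = Y + v := by rw [hv]; ring
  have h1 : y / Y ≤ 1 + v := by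
    rw [div_le_iff₀ (by linarith), hyv]; nlinarith
  have h2 : 1 + y ^ 2 ≤ (1 + Y ^ 2) * (1 + v) ^ 2 := by
    rw [hyv]
    have : (Y + v) ^ 2 ≤ Y ^ 2 * (1 + v) ^ 2 := by
      rw [← mul_pow]
      apply pow_le_pow_left₀ (by linarith)
      nlinarith
    nlinarith [sq_nonneg v]
  have h3 : (1 + v) ^ 6 * Real.exp (-(v / 2)) ≤ 92160 := by
    have h4 := Real.pow_div_factorial_le_exp ((1 + v) / 2) (by linarith) 6
    have h5 : ((6 : ℕ).factorial : ℝ) = 720 := by norm_num [Nat.factorial]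
    rw [h5, div_le_iff₀ (by norm_num)] at h4
    have h6 : Real.exp ((1 + v) / 2) * Real.exp (-(v / 2)) = Real.exp (1 / 2) := by
      rw [← Real.exp_add]; congr 1; ring
    have h7 : Real.exp (1 / 2) ≤ 2 := by
      have h8 : Real.exp (1 / 2) ^ 2 = Real.exp 1 := by
        rw [← Real.exp_nat_mul]; norm_num
      have h9 := Real.exp_one_lt_d9
      nlinarith [Real.exp_pos (1 / 2 : ℝ)]
    have h10 : (1 + v) ^ 6 = 64 * ((1 + v) / 2) ^ 6 := by ring
    calc (1 + v) ^ 6 * Real.exp (-(v / 2)) = 64 * (((1 + v) / 2) ^ 6 * Real.exp (-(v / 2))) := by rw [h10]; ring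
      _ ≤ 64 * ((Real.exp ((1 + v) / 2) * 720) * Real.exp (-(v / 2))) := by gcongr
      _ = 46080 * (Real.exp ((1 + v) / 2) * Real.exp (-(v / 2))) := by ring
      _ = 46080 * Real.exp (1 / 2) := by rw [h6]
      _ ≤ 92160 := by linarith
  have h8 : -((y - Y) / 2) = -(v / 2) := by rw [hv]
  rw [h8]
  have hy0 : 0 ≤ y / Y := div_nonneg (by linarith) (by linarith)
  calc (1 + y ^ 2) ^ 2 * ((y / Y) ^ 2 * Real.exp (-(v / 2)))
      ≤ ((1 + Y ^ 2) * (1 + v) ^ 2) ^ 2 * ((1 + v) ^ 2 * Real.exp (-(v / 2))) := by gcongr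
    _ = (1 + Y ^ 2) ^ 2 * ((1 + v) ^ 6 * Real.exp (-(v / 2))) := by ring
    _ ≤ (1 + Y ^ 2) ^ 2 * 92160 := by gcongr
    _ = _ := by ring

/-- hypotheses for the line bound -/
structure LineHyp (b h c : ℕ) (ds : List ℕ) (η Y γ : ℝ) : Prop where
  hη : 0 ≤ η
  hY : 1 ≤ Y
  hγ : 0 ≤ γ
  hmin : ∀ s t : ℝ, 0 ≤ s → s ≤ η / c → 0 ≤ t → t ≤ Y / c → 2 * s * t - s ^ 2 - γ * s ^ 4 ≤ Real.log (1 + t ^ 2)
  hsl : ((b : ℝ) - 4) * Real.pi ≤ 2 * η * I2f b h c ds
  hfar : (b : ℝ) * c ≤ 3 * Y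

/-- the bound of the squared modulus, all `y ≥ 0` -/
theorem Rc_all (b h c n : ℕ) (ds : List ℕ) (hn : 1 ≤ n) (hc0 : 1 ≤ c) (hch : 2 * c < h)
    (hc : ∀ d ∈ ds, c < d) (h2 : ∀ d ∈ ds, 2 * d < h)
    (hdeg : (PP b h c n ds).degree < (QQ (ss h c n) (mu h n ds)).degree)
    (η Y γ : ℝ) (H : LineHyp b h c ds η Y γ) (y : ℝ) (hy : 0 ≤ y) :
    (1 + y ^ 2) ^ 2 * (‖Rc (ss h c n) (mu h n ds) (PP b h c n ds) y‖ ^ 2 * Real.exp (-(4 * Real.pi * y))) ≤
      92160 * (1 + (Y * n) ^ 2) ^ 2 * (A0 b h c n ds * ((h * n) ^ 2 + 4 * (Y * n) ^ 2) *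
      (Real.exp (2 * η * Y * b / c ^ 2 + η ^ 2 * (b + ds.length) / c ^ 2 + γ * η ^ 4 * (b + ds.length) / c ^ 4) *
        Real.exp (n * (η ^ 2 * I2f b h c ds + γ * η ^ 4 * I4f b h c ds)))) := by
  have hn1 : (1 : ℝ) ≤ n := by exact_mod_cast hn
  have hcn : c * n ≤ h * n := Nat.mul_le_mul_right n (by omega)
  have hc0' : (0 : ℝ) < c := by exact_mod_cast hc0
  set E := (Real.exp (2 * η * Y * b / c ^ 2 + η ^ 2 * (b + ds.length) / c ^ 2 + γ * η ^ 4 * (b + ds.length) / c ^ 4) *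
        Real.exp (n * (η ^ 2 * I2f b h c ds + γ * η ^ 4 * I4f b h c ds))) with hE
  have hE0 : 0 < E := by rw [hE]; positivity
  have hA0 := A0_nonneg b h c n ds
  have hY1 : 1 ≤ Y * n := by nlinarith [H.hY]
  have hYn0 : 0 < Y * n := by linarith
  have hhn1 : (1 : ℝ) ≤ (h : ℝ) * n := by exact_mod_cast (by nlinarith : 1 ≤ h * n)
  -- near
  have near : ∀ w : ℝ, 0 ≤ w → w ≤ Y * n → ‖Rc (ss h c n) (mu h n ds) (PP b h c n ds) w‖ ^ 2 * Real.exp (-(4 * Real.pi * w)) ≤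
      A0 b h c n ds * ((h * n) ^ 2 + 4 * (Y * n) ^ 2) * E := by
    intro w hw0 hwY
    have h3 := Rc_sq_le b h c n ds hn hch hdeg w
    have h4 := near_bound b h c n ds hn hc0 hch hc h2 η Y γ H.hη H.hγ H.hmin H.hsl w hw0 hwY
    rw [← hE] at h4
    have hlin : lin h n w ≤ (h * n) ^ 2 + 4 * (Y * n) ^ 2 := by
      unfold lin
      have h5 : ((h : ℝ) * n - 1) ^ 2 ≤ (h * n) ^ 2 := by nlinarith
      have h6 : w ^ 2 ≤ (Y * n) ^ 2 := pow_le_pow_left₀ hw0 hwY 2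
      linarith
    have hlin0 : 0 ≤ lin h n w := by unfold lin; positivity
    calc _ ≤ (A0 b h c n ds * lin h n w * Real.exp (b * (Real.pi * |w|)) / ∏ k ∈ ss h c n, qs k w ^ (b + mu h n ds k)) *
          Real.exp (-(4 * Real.pi * w)) := mul_le_mul_of_nonneg_right h3 (Real.exp_pos _).le
      _ = (A0 b h c n ds * lin h n w) * (Real.exp (b * (Real.pi * |w|)) / (∏ k ∈ ss h c n, qs k w ^ (b + mu h n ds k)) *
          Real.exp (-(4 * Real.pi * w))) := by ring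
      _ ≤ (A0 b h c n ds * lin h n w) * E := mul_le_mul_of_nonneg_left h4 (by positivity)
      _ ≤ _ := by gcongr
  rcases le_or_gt y (Y * n) with hyY | hyY
  · have h3 := near y hy hyY
    have h4 : (1 + y ^ 2) ^ 2 ≤ (1 + (Y * n) ^ 2) ^ 2 := by gcongr
    have hL : 0 ≤ A0 b h c n ds * ((h * n) ^ 2 + 4 * (Y * n) ^ 2) * E := by positivity
    calc _ ≤ (1 + (Y * n) ^ 2) ^ 2 * (A0 b h c n ds * ((h * n) ^ 2 + 4 * (Y * n) ^ 2) * E) :=
          mul_le_mul h4 h3 (by positivity) (by positivity)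
      _ ≤ _ := by
          have : 0 ≤ (1 + (Y * n) ^ 2) ^ 2 * (A0 b h c n ds * ((h * n) ^ 2 + 4 * (Y * n) ^ 2) * E) := by positivity
          linarith
  · have h3 := near (Y * n) hYn0.le le_rfl
    have h4 := Rc_sq_far b h c n ds hcn hdeg (Y * n) y hYn0 hyY.le
    have h5 : ((y / (Y * n)) ^ 2) ^ (2 * b * (c * n)) * Real.exp (-(4 * Real.pi * y)) ≤
        Real.exp (-(4 * Real.pi * (Y * n))) * Real.exp (-((y - Y * n) / 2)) := by
      have h6 : y / (Y * n) ≤ Real.exp (y / (Y * n) - 1) := by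
        have := Real.add_one_le_exp (y / (Y * n) - 1)
        linarith
      have h7 : 0 ≤ y / (Y * n) := by positivity
      have h8 : ((y / (Y * n)) ^ 2) ^ (2 * b * (c * n)) ≤ Real.exp (((2 * (2 * b * (c * n)) : ℕ) : ℝ) * (y / (Y * n) - 1)) := by
        rw [← pow_mul, Real.exp_nat_mul]
        exact pow_le_pow_left₀ h7 h6 _
      have h9 : ((2 * (2 * b * (c * n)) : ℕ) : ℝ) * (y / (Y * n) - 1) = 4 * ((b : ℝ) * c / Y) * (y - Y * n) := by
        push_cast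
        have : Y ≠ 0 := by linarith [H.hY]
        field_simp
        ring
      rw [h9] at h8
      rw [← Real.exp_add]
      refine (mul_le_mul_of_nonneg_right h8 (Real.exp_pos _).le).trans ?_
      rw [← Real.exp_add]
      apply Real.exp_le_exp.2
      have h10 : (b : ℝ) * c / Y ≤ 3 := by
        rw [div_le_iff₀ (by linarith [H.hY])]; exact H.hfar
      have h11 := Real.pi_gt_d2
      have h12 : 0 ≤ y - Y * n := by linarith
      nlinarith [mul_le_mul_of_nonneg_right h10 h12, mul_le_mul_of_nonneg_right h11.le h12]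
    have h6 := far_elem (Y * n) y hY1 hyY.le
    have hR0 : 0 ≤ ‖Rc (ss h c n) (mu h n ds) (PP b h c n ds) (Y * n)‖ ^ 2 := by positivity
    calc _ ≤ (1 + y ^ 2) ^ 2 * ((‖Rc (ss h c n) (mu h n ds) (PP b h c n ds) (Y * n)‖ ^ 2 * ((y / (Y * n)) ^ 2 * ((y / (Y * n)) ^ 2) ^ (2 * b * (c * n)))) *
          Real.exp (-(4 * Real.pi * y))) := by gcongr
      _ = (1 + y ^ 2) ^ 2 * (y / (Y * n)) ^ 2 * ‖Rc (ss h c n) (mu h n ds) (PP b h c n ds) (Y * n)‖ ^ 2 *
          (((y / (Y * n)) ^ 2) ^ (2 * b * (c * n)) * Real.exp (-(4 * Real.pi * y))) := by ring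
      _ ≤ (1 + y ^ 2) ^ 2 * (y / (Y * n)) ^ 2 * ‖Rc (ss h c n) (mu h n ds) (PP b h c n ds) (Y * n)‖ ^ 2 *
          (Real.exp (-(4 * Real.pi * (Y * n))) * Real.exp (-((y - Y * n) / 2))) := by gcongr
      _ = ((1 + y ^ 2) ^ 2 * ((y / (Y * n)) ^ 2 * Real.exp (-((y - Y * n) / 2)))) *
          (‖Rc (ss h c n) (mu h n ds) (PP b h c n ds) (Y * n)‖ ^ 2 * Real.exp (-(4 * Real.pi * (Y * n)))) := by ring
      _ ≤ (92160 * (1 + (Y * n) ^ 2) ^ 2) * (A0 b h c n ds * ((h * n) ^ 2 + 4 * (Y * n) ^ 2) * E) := by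
          apply mul_le_mul h6 h3 (by positivity) (by positivity)

lemma poly_id (CK K0 Y h n e X Z : ℝ) (r : ℕ) :
    CK ^ 2 * (92160 * ((1 + Y ^ 2) * n ^ 2) ^ 2 * (((h * n) * (e * ((h + 1) * n)) ^ r * X * (h * n) ^ r) ^ 2 *
      ((h * n) ^ 2 + 4 * (Y * n) ^ 2) * (K0 * Z))) =
    (CK ^ 2 * (92160 * K0 * (h ^ 2 + 4 * Y ^ 2) * (1 + Y ^ 2) ^ 2 * (h ^ (r + 1) * (e * (h + 1)) ^ r) ^ 2)) * n ^ (4 * r + 8) *
      (X ^ 2 * Z) := by
  have e1 : (e * ((h + 1) * n)) ^ r = (e * (h + 1)) ^ r * n ^ r := by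
    rw [← mul_pow]; ring
  have e2 : (h * n) ^ r = h ^ r * n ^ r := mul_pow _ _ _
  have e3 : n ^ (4 * r + 8) = (n ^ r) ^ 4 * n ^ 8 := by
    rw [pow_add, mul_comm 4 r, pow_mul]
  have e4 : (h * n) ^ 2 + 4 * (Y * n) ^ 2 = (h ^ 2 + 4 * Y ^ 2) * n ^ 2 := by ring
  rw [e1, e2, e3, e4, pow_succ h r]
  generalize h ^ r = hr
  generalize (e * (h + 1)) ^ r = er
  generalize n ^ r = nr
  generalize h ^ 2 + 4 * Y ^ 2 = q1
  generalize 1 + Y ^ 2 = q2
  ring

lemma mono_id (CK a a' A A' L E : ℝ) (ha : 0 ≤ a) (haa : a ≤ a') (hA : 0 ≤ A) (hAA : A ≤ A') (hL : 0 ≤ L) (hE : 0 ≤ E) :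
    CK ^ 2 * (92160 * a ^ 2 * (A * L * E)) ≤ CK ^ 2 * (92160 * a' ^ 2 * (A' * L * E)) := by
  gcongr

lemma poly_exp (K : ℝ) (hK : 0 ≤ K) (E : ℕ) (ε : ℝ) (hε : 0 < ε) :
    ∀ᶠ n : ℕ in atTop, K * (n : ℝ) ^ E ≤ Real.exp (ε * n) := by
  have h1 := log_lim E (by positivity) (ε / 2) (by positivity)
  have h2 : ∀ᶠ n : ℕ in atTop, Real.log (K + 1) ≤ (ε / 2) * n := by
    have := (tendsto_natCast_atTop_atTop (R := ℝ)).const_mul_atTop (by positivity : 0 < ε / 2)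
    exact this.eventually_ge_atTop _
  filter_upwards [h1, h2, eventually_ge_atTop 1] with n h3 h4 hn
  have hn0 : (0 : ℝ) < n := by exact_mod_cast hn
  have h5 : (n : ℝ) ^ E ≤ Real.exp (ε / 2 * n) := by
    rw [← Real.log_le_iff_le_exp (by positivity), Real.log_pow]; exact h3
  have h6 : K ≤ Real.exp (ε / 2 * n) := by
    have : K + 1 ≤ Real.exp (ε / 2 * n) := by
      rw [← Real.log_le_iff_le_exp (by positivity)]; exact h4
    linarith
  calc K * (n : ℝ) ^ E ≤ Real.exp (ε / 2 * n) * Real.exp (ε / 2 * n) := by gcongr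
    _ = _ := by rw [← Real.exp_add]; congr 1; ring

set_option maxHeartbeats 1000000 in
/-- the archimedean bound -/
theorem line_bound (b h c : ℕ) (ds : List ℕ) (hb : 3 ≤ b) (hc0 : 1 ≤ c) (hch : 2 * c < h)
    (hc : ∀ d ∈ ds, c < d) (h2 : ∀ d ∈ ds, 2 * d < h) (hlen : 3 ≤ ds.length)
    (hdeg : 2 * b * c ≤ (ds.map fun d => h - 2 * d).sum)
    (η Y γ : ℝ) (H : LineHyp b h c ds η Y γ) (S : ℝ)
    (hS : f0 b h c ds 0 + (η ^ 2 * I2f b h c ds + γ * η ^ 4 * I4f b h c ds) / 2 ≤ S) (ε : ℝ) (hε : 0 < ε) :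
    ∀ᶠ n : ℕ in atTop, ∀ F, HasSum (term b h c n ds) F → |F| ≤ Real.exp (n * (S + ε)) := by
  obtain ⟨CK, hCK0, hCK⟩ := KK_exp (b := b) (by omega)
  set r := ds.length with hr
  set K0 := Real.exp (2 * η * Y * b / c ^ 2 + η ^ 2 * (b + ds.length) / c ^ 2 + γ * η ^ 4 * (b + ds.length) / c ^ 4) with hK0
  set Kq : ℝ := CK ^ 2 * (92160 * K0 * (h ^ 2 + 4 * Y ^ 2) * (1 + Y ^ 2) ^ 2 * ((h : ℝ) ^ (r + 1) * (Real.exp 1 * (h + 1)) ^ r) ^ 2) with hKq
  have hKq0 : 0 ≤ Kq := by rw [hKq]; positivity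
  filter_upwards [poly_exp Kq hKq0 (4 * r + 8) (2 * ε) (by positivity), eventually_ge_atTop 1] with n hpoly hn F hF
  have hn1 : (1 : ℝ) ≤ n := by exact_mod_cast hn
  have hn0 : (0 : ℝ) < n := by linarith
  have hcn : c * n ≤ h * n := Nat.mul_le_mul_right n (by omega)
  have hd := deg_lt b h c n ds hn hc h2 hlen hdeg
  have hdeg' : (PP b h c n ds).degree < (QQ (ss h c n) (mu h n ds)).degree := by
    rw [Polynomial.degree_eq_natDegree (QQ_monic _ _).ne_zero]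
    exact lt_of_le_of_lt Polynomial.degree_le_natDegree (by exact_mod_cast (by omega))
  set B2 : ℝ := 92160 * (1 + (Y * n) ^ 2) ^ 2 * (A0 b h c n ds * ((h * n) ^ 2 + 4 * (Y * n) ^ 2) *
      (K0 * Real.exp (n * (η ^ 2 * I2f b h c ds + γ * η ^ 4 * I4f b h c ds)))) with hB2
  have hA0 := A0_nonneg b h c n ds
  have hB20 : 0 ≤ B2 := by rw [hB2]; positivity
  have hall : ∀ y : ℝ, ‖Rc (ss h c n) (mu h n ds) (PP b h c n ds) y‖ * Real.exp (-(2 * Real.pi * |y|)) ≤ Real.sqrt B2 * (1 + y ^ 2)⁻¹ := by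
    have key : ∀ y : ℝ, 0 ≤ y → ‖Rc (ss h c n) (mu h n ds) (PP b h c n ds) y‖ * Real.exp (-(2 * Real.pi * |y|)) ≤ Real.sqrt B2 * (1 + y ^ 2)⁻¹ := by
      intro y hy
      have h3 := Rc_all b h c n ds hn hc0 hch hc h2 hdeg' η Y γ H y hy
      rw [← hK0, ← hB2] at h3
      rw [abs_of_nonneg hy, ← div_eq_mul_inv, le_div_iff₀ (by positivity)]
      apply Real.le_sqrt_of_sq_le
      refine le_trans (le_of_eq ?_) h3
      have e1 : Real.exp (-(4 * Real.pi * y)) = Real.exp (-(2 * Real.pi * y)) ^ 2 := by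
        rw [← Real.exp_nat_mul]; congr 1; push_cast; ring
      rw [e1]
      ring
    intro y
    rcases le_or_gt 0 y with hy | hy
    · exact key y hy
    · have h3 := key (-y) (by linarith)
      rw [abs_neg, neg_sq] at h3
      have h4 := Rc_neg_sq b h c n ds hcn hdeg' y
      have h5 : ‖Rc (ss h c n) (mu h n ds) (PP b h c n ds) (-y)‖ = ‖Rc (ss h c n) (mu h n ds) (PP b h c n ds) y‖ :=
        (pow_left_inj₀ (norm_nonneg _) (norm_nonneg _) (by norm_num)).1 h4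
      rw [h5] at h3
      exact h3
  have hF2 := F_le_integral (ss h c n) (mu h n ds) (PP b h c n ds) hdeg'
    (fun k hk => by unfold ss at hk; rw [Finset.mem_Icc] at hk; omega) hb F hF (Real.sqrt B2) hall CK hCK0.le hCK
  -- square
  have hsq : |F| ^ 2 ≤ CK ^ 2 * B2 := by
    calc |F| ^ 2 ≤ (CK * Real.sqrt B2) ^ 2 := pow_le_pow_left₀ (abs_nonneg _) hF2 2
      _ = CK ^ 2 * B2 := by rw [mul_pow, Real.sq_sqrt hB20]
  have hRt := Rt_le b h c n ds hn hc h2 (by omega) 0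
  have hRt0 : (0 : ℝ) ≤ ((Rt b h c n ds 0 : ℚ) : ℝ) := by
    have : (0 : ℚ) ≤ Rt b h c n ds 0 := by
      unfold Rt
      apply mul_nonneg
      · apply mul_nonneg
        · apply mul_nonneg (cst_nonneg _ _ _ _ _)
          positivity
        · apply Finset.prod_nonneg
          intro m hm
          rw [Finset.mem_Icc] at hm
          have h3 : (m : ℚ) ≤ (h : ℚ) * n := by exact_mod_cast (by omega : m ≤ h * n)
          have h4 : (0 : ℚ) ≤ (h : ℚ) * n - m := by linarith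
          positivity
      · apply Finset.prod_nonneg
        intro m _
        positivity
    exact_mod_cast this
  have hlist : (ds.map fun d : ℕ => Real.exp 1 * (((h : ℝ) - 2 * d) * n + 1) / (((0 : ℕ) : ℝ) + d * n)).prod ≤ (Real.exp 1 * ((h + 1) * n)) ^ r := by
    have key : ∀ l : List ℕ, (∀ d ∈ l, 2 * d < h) → (∀ d ∈ l, c < d) →
        (l.map fun d : ℕ => Real.exp 1 * (((h : ℝ) - 2 * d) * n + 1) / (((0 : ℕ) : ℝ) + d * n)).prod ≤ (Real.exp 1 * ((h + 1) * n)) ^ l.length := by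
      intro l hl hl2
      induction l with
      | nil => simp
      | cons d l ih =>
        simp only [List.map_cons, List.prod_cons, List.length_cons, pow_succ']
        have hd := hl d (by simp)
        have hd2 := hl2 d (by simp)
        have hd' : (2 * d : ℝ) ≤ h := by exact_mod_cast hd.le
        have hdn : (1 : ℝ) ≤ d * n := by
          exact_mod_cast (Nat.one_le_iff_ne_zero.2 (Nat.mul_ne_zero (by omega) (by omega)))
        have hd0 : (0 : ℝ) ≤ d := by positivity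
        apply mul_le_mul
        · rw [Nat.cast_zero, zero_add]
          apply (div_le_self _ hdn).trans
          · apply mul_le_mul_of_nonneg_left _ (by positivity)
            nlinarith
          · have h5 : 0 ≤ ((h : ℝ) - 2 * d) := by linarith
            positivity
        · exact ih (fun d' hd' => hl d' (List.mem_cons_of_mem _ hd')) (fun d' hd' => hl2 d' (List.mem_cons_of_mem _ hd'))
        · apply List.prod_nonneg
          intro a ha
          rw [List.mem_map] at ha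
          obtain ⟨d', hd'', rfl⟩ := ha
          have : (2 * d' : ℝ) ≤ h := by exact_mod_cast (hl d' (List.mem_cons_of_mem _ hd'')).le
          have h5 : 0 ≤ ((h : ℝ) - 2 * d') := by linarith
          positivity
        · positivity
    exact key ds h2 hc
  have hRt2 : ((Rt b h c n ds 0 : ℚ) : ℝ) ≤ (h * n) * (Real.exp 1 * ((h + 1) * n)) ^ r * Real.exp (n * f0 b h c ds 0) := by
    have e0 : (((0 : ℕ) : ℝ) / n) = 0 := by simp
    rw [e0] at hRt
    refine hRt.trans ?_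
    have : (2 * ((0 : ℕ) : ℝ) + h * n) = h * n := by simp
    rw [this]
    gcongr
  have hA1 : A0 b h c n ds ≤ ((h * n) * (Real.exp 1 * ((h + 1) * n)) ^ r * Real.exp (n * f0 b h c ds 0) * ((h : ℝ) * n) ^ r) ^ 2 := by
    refine (A0_le b h c n ds hn hc0 hch hc h2).trans ?_
    apply pow_le_pow_left₀ (by positivity)
    exact mul_le_mul_of_nonneg_right hRt2 (by positivity)
  have hYn : 1 + (Y * n) ^ 2 ≤ (1 + Y ^ 2) * n ^ 2 := by
    have : (1 : ℝ) ≤ n ^ 2 := one_le_pow₀ hn1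
    nlinarith
  have hfin : CK ^ 2 * B2 ≤ (Kq * (n : ℝ) ^ (4 * r + 8)) * (Real.exp (n * f0 b h c ds 0) ^ 2 * Real.exp (n * (η ^ 2 * I2f b h c ds + γ * η ^ 4 * I4f b h c ds))) := by
    have hY0 : 0 ≤ Y := by linarith [H.hY]
    have m1 := mono_id CK (1 + (Y * n) ^ 2) ((1 + Y ^ 2) * n ^ 2) (A0 b h c n ds)
      (((h * n) * (Real.exp 1 * ((h + 1) * n)) ^ r * Real.exp (n * f0 b h c ds 0) * ((h : ℝ) * n) ^ r) ^ 2)
      ((h * n) ^ 2 + 4 * (Y * n) ^ 2) (K0 * Real.exp (n * (η ^ 2 * I2f b h c ds + γ * η ^ 4 * I4f b h c ds)))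
      (by positivity) hYn hA0 hA1 (by positivity) (mul_nonneg (Real.exp_pos _).le (Real.exp_pos _).le)
    have m2 := poly_id CK K0 Y h n (Real.exp 1) (Real.exp (n * f0 b h c ds 0))
            (Real.exp (n * (η ^ 2 * I2f b h c ds + γ * η ^ 4 * I4f b h c ds))) r
    rw [hB2, hKq]
    exact m1.trans m2.le
  have hexp : Real.exp (n * f0 b h c ds 0) ^ 2 * Real.exp (n * (η ^ 2 * I2f b h c ds + γ * η ^ 4 * I4f b h c ds)) ≤ Real.exp (2 * (n * S)) := by
    rw [← Real.exp_nat_mul, ← Real.exp_add]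
    apply Real.exp_le_exp.2
    push_cast
    nlinarith [mul_le_mul_of_nonneg_left hS hn0.le]
  have hend : |F| ^ 2 ≤ Real.exp (n * (S + ε)) ^ 2 := by
    calc |F| ^ 2 ≤ (Kq * (n : ℝ) ^ (4 * r + 8)) * (Real.exp (n * f0 b h c ds 0) ^ 2 * Real.exp (n * (η ^ 2 * I2f b h c ds + γ * η ^ 4 * I4f b h c ds))) :=
          hsq.trans hfin
      _ ≤ Real.exp (2 * ε * n) * Real.exp (2 * (n * S)) := mul_le_mul hpoly hexp (by positivity) (by positivity)
      _ = _ := by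
          rw [← Real.exp_nat_mul, ← Real.exp_add]
          congr 1
          push_cast
          ring
  exact (pow_le_pow_iff_left₀ (abs_nonneg _) (Real.exp_pos _).le (by norm_num)).1 hend

end

end Pool.Agent.H337R2
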