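import Pool.Agent.H337R2.CheckS
import Pool.Agent.H337R2.Cx7

/-!
# From the checker to the irrationality criterion
-/

open Filter Topology

namespace Pool.Agent.H337R2

/-- check of all the cells, and of the order of the breakpoints -/
def cellsOK (b h c D : ℕ) (dm : List (ℕ × ℕ)) : List (ℕ × ℕ × ℕ) → Bool
  | x :: y :: L => cellOK b h c D dm ((b : ℤ) - 1 - x.2.2) (-1 - (x.2.2 : ℤ)) (x.1, x.2.1) (y.1, y.2.1) &&
      (Nat.ble 1 x.1 && Nat.ble 1 y.1 && Nat.ble 1 x.2.1 && Nat.ble 1 y.2.1 && Nat.ble (x.1 * y.2.1) (y.1 * x.2.1)) &&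
      cellsOK b h c D dm (y :: L)
  | _ => true

/-- upper bound of the cost, scaled -/
def costN (Sc : ℕ) : List (ℕ × ℕ × ℕ) → ℕ
  | x :: y :: L => x.2.2 * ((Sc * x.2.1) / x.1 + 1 - (Sc * y.2.1) / y.1) + costN Sc (y :: L)
  | _ => 0

lemma cellsOK_sound {b h c D : ℕ} {dm : List (ℕ × ℕ)} (hcD : c < D) (hch : 2 * c + D < h)
    (hDD : 2 * D + c < h) (hdm : ∀ z ∈ dm, 2 * z.1 < h ∧ D ≤ z.1) (L : List (ℕ × ℕ × ℕ))
    (hL : cellsOK b h c D dm L = true) : Valid b h c (expd dm) L ∧ Inc L := by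
  induction L with
  | nil => exact ⟨trivial, trivial⟩
  | cons x L ih =>
    cases L with
    | nil => exact ⟨trivial, trivial⟩
    | cons y L =>
      unfold cellsOK at hL
      simp only [Bool.and_eq_true, Nat.ble_eq] at hL
      obtain ⟨⟨h1, ⟨⟨⟨⟨h2, h3⟩, h4⟩, h5⟩, h6⟩⟩, h7⟩ := hL
      obtain ⟨i1, i2⟩ := ih h7
      refine ⟨⟨by omega, ?_, i1⟩, by omega, by omega, h6, i2⟩
      intro p n hp hn hp2 hx hy k hk hm
      obtain ⟨d, hd, hd1, hd2⟩ := mu_ne_zero hm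
      obtain ⟨z, hz, hzd⟩ := mem_expd hd
      obtain ⟨hz1, hz2⟩ := hdm z hz
      have hDn : D * n ≤ d * n := Nat.mul_le_mul_right n (by omega)
      have hkD : k ≤ (h - D) * n := by
        have : (h - D) * n + D * n = h * n := by
          rw [← add_mul]; congr 1; omega
        omega
      have h8 := cellOK_sound (D := D) (p := p) (n := n) (k := k) hcD hch (fun z hz => (hdm z hz).1) (by omega)
        (by simpa using (by omega : 0 < y.2.1)) h1 hn hx hy hkD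
      refine ⟨fun h9 => ?_, ?_⟩
      · have := h8.1 h9
        linarith
      · rcases h8.2 with h9 | h9
        · right
          have hle : ∀ m : ℕ, m ≤ h - 2 * D → m * n < p := by
            intro m hm2
            exact lt_of_le_of_lt (Nat.mul_le_mul_right n hm2) h9
          refine ⟨?_, ?_⟩
          · intro d' hd'
            obtain ⟨z', hz', hzd'⟩ := mem_expd hd'
            have := hdm z' hz'
            exact hle _ (by omega)
          · exact hle _ (by omega)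
        · left
          linarith

lemma cost_le {b h c D : ℕ} {dm : List (ℕ × ℕ)} (Sc : ℕ) (hSc : 0 < Sc) (L : List (ℕ × ℕ × ℕ))
    (hL : cellsOK b h c D dm L = true) : cost L ≤ (costN Sc L : ℝ) / Sc := by
  have hS : (0 : ℝ) < Sc := by exact_mod_cast hSc
  induction L with
  | nil => simp [cost, costN]
  | cons x L ih =>
    cases L with
    | nil => simp [cost, costN]
    | cons y L =>
      unfold cellsOK at hL
      simp only [Bool.and_eq_true, Nat.ble_eq] at hL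
      obtain ⟨⟨_, ⟨⟨⟨⟨h2, h3⟩, _⟩, _⟩, _⟩⟩, h7⟩ := hL
      have ih' := ih h7
      unfold cost costN
      have hx : (0 : ℝ) < x.1 := by exact_mod_cast (by omega : 0 < x.1)
      have hy : (0 : ℝ) < y.1 := by exact_mod_cast (by omega : 0 < y.1)
      have e1 : (x.2.1 : ℝ) / x.1 ≤ (((Sc * x.2.1) / x.1 + 1 : ℕ) : ℝ) / Sc := by
        rw [div_le_div_iff₀ hx hS]
        have h8 : Sc * x.2.1 < ((Sc * x.2.1) / x.1 + 1) * x.1 := by
          have := Nat.lt_div_mul_add (a := Sc * x.2.1) (b := x.1) (by omega)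
          linarith
        have h9 : ((Sc * x.2.1 : ℕ) : ℝ) ≤ ((((Sc * x.2.1) / x.1 + 1) * x.1 : ℕ) : ℝ) := by exact_mod_cast h8.le
        push_cast at h9 ⊢
        linarith
      have e2 : (((Sc * y.2.1) / y.1 : ℕ) : ℝ) / Sc ≤ (y.2.1 : ℝ) / y.1 := by
        rw [div_le_div_iff₀ hS hy]
        have h8 : ((Sc * y.2.1) / y.1) * y.1 ≤ Sc * y.2.1 := Nat.div_mul_le_self _ _
        have h9 : ((((Sc * y.2.1) / y.1) * y.1 : ℕ) : ℝ) ≤ ((Sc * y.2.1 : ℕ) : ℝ) := by exact_mod_cast h8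
        push_cast at h9 ⊢
        linarith
      have e3 : (((Sc * x.2.1) / x.1 + 1 : ℕ) : ℝ) - (((Sc * y.2.1) / y.1 : ℕ) : ℝ) ≤
          (((Sc * x.2.1) / x.1 + 1 - (Sc * y.2.1) / y.1 : ℕ) : ℝ) := by
        rw [sub_le_iff_le_add]
        exact_mod_cast (by omega : (Sc * x.2.1) / x.1 + 1 ≤ ((Sc * x.2.1) / x.1 + 1 - (Sc * y.2.1) / y.1) + (Sc * y.2.1) / y.1)
      have e4 : (x.2.1 : ℝ) / x.1 - (y.2.1 : ℝ) / y.1 ≤ (((Sc * x.2.1) / x.1 + 1 - (Sc * y.2.1) / y.1 : ℕ) : ℝ) / Sc := by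
        calc _ ≤ (((Sc * x.2.1) / x.1 + 1 : ℕ) : ℝ) / Sc - (((Sc * y.2.1) / y.1 : ℕ) : ℝ) / Sc := by linarith
          _ = ((((Sc * x.2.1) / x.1 + 1 : ℕ) : ℝ) - (((Sc * y.2.1) / y.1 : ℕ) : ℝ)) / Sc := by ring
          _ ≤ _ := div_le_div_of_nonneg_right e3 hS.le
      have e5 := mul_le_mul_of_nonneg_left e4 (by positivity : (0 : ℝ) ≤ (x.2.2 : ℝ))
      have e6 : ((x.2.2 * ((Sc * x.2.1) / x.1 + 1 - (Sc * y.2.1) / y.1) + costN Sc (y :: L) : ℕ) : ℝ) / Sc =
          (x.2.2 : ℝ) * ((((Sc * x.2.1) / x.1 + 1 - (Sc * y.2.1) / y.1 : ℕ) : ℝ) / Sc) + (costN Sc (y :: L) : ℝ) / Sc := by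
        rw [Nat.cast_add, Nat.cast_mul]
        ring
      rw [e6]
      linarith

/-- numerator and denominator of the exponential of the growth at zero -/
def Nf (b h : ℕ) (dm : List (ℕ × ℕ)) : ℕ :=
  (h ^ h) ^ b * (dm.map fun z => (((h - 2 * z.1) ^ (h - 2 * z.1)) * z.1 ^ z.1) ^ z.2).prod

/-- denominator -/
def Mf (b h c : ℕ) (dm : List (ℕ × ℕ)) : ℕ :=
  (((h - c) ^ (h - c)) * c ^ c) ^ b * (dm.map fun z => ((h - z.1) ^ (h - z.1)) ^ z.2).prod

lemma xl_nat (k : ℕ) : xl (k : ℝ) = Real.log ((k ^ k : ℕ) : ℝ) := by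
  unfold xl
  push_cast
  rw [Real.log_pow]

lemma f0_zero (b h c : ℕ) (dm : List (ℕ × ℕ)) (hc : 1 ≤ c) (hch : c < h) (hdm : ∀ z ∈ dm, 2 * z.1 < h ∧ 1 ≤ z.1) :
    f0 b h c (expd dm) 0 = Real.log (Nf b h dm) - Real.log (Mf b h c dm) := by
  have key : ((expd dm).map fun d : ℕ => xl ((h : ℝ) - 2 * d) + xl (0 + d) - xl (0 + h - d)).sum =
      Real.log (((dm.map fun z => (((h - 2 * z.1) ^ (h - 2 * z.1)) * z.1 ^ z.1) ^ z.2).prod : ℕ) : ℝ) -
      Real.log (((dm.map fun z => ((h - z.1) ^ (h - z.1)) ^ z.2).prod : ℕ) : ℝ) := by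
    induction dm with
    | nil => simp [expd]
    | cons z L ih =>
      have ih' := ih (fun z hz => hdm z (List.mem_cons_of_mem _ hz))
      obtain ⟨hz1, hz2⟩ := hdm z List.mem_cons_self
      have hexp : expd (z :: L) = List.replicate z.2 z.1 ++ expd L := by
        unfold expd; rw [List.flatMap_cons]
      rw [hexp, List.map_append, List.sum_append, ih', List.map_replicate, List.sum_replicate,
        List.map_cons, List.map_cons, List.prod_cons, List.prod_cons]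
      have p1 : ∀ M : List (ℕ × ℕ), (∀ z ∈ M, 2 * z.1 < h ∧ 1 ≤ z.1) →
          0 < (M.map fun z => (((h - 2 * z.1) ^ (h - 2 * z.1)) * z.1 ^ z.1) ^ z.2).prod := by
        intro M hM
        apply List.prod_pos
        intro a ha
        rw [List.mem_map] at ha
        obtain ⟨w, hw, rfl⟩ := ha
        obtain ⟨hw1, hw2⟩ := hM w hw
        have a1 : 0 < h - 2 * w.1 := by omega
        positivity
      have p2 : ∀ M : List (ℕ × ℕ), (∀ z ∈ M, 2 * z.1 < h ∧ 1 ≤ z.1) →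
          0 < (M.map fun z => ((h - z.1) ^ (h - z.1)) ^ z.2).prod := by
        intro M hM
        apply List.prod_pos
        intro a ha
        rw [List.mem_map] at ha
        obtain ⟨w, hw, rfl⟩ := ha
        obtain ⟨hw1, hw2⟩ := hM w hw
        have a1 : 0 < h - w.1 := by omega
        positivity
      have q1 := p1 L (fun z hz => hdm z (List.mem_cons_of_mem _ hz))
      have q2 := p2 L (fun z hz => hdm z (List.mem_cons_of_mem _ hz))
      have q1' : (((L.map fun z => (((h - 2 * z.1) ^ (h - 2 * z.1)) * z.1 ^ z.1) ^ z.2).prod : ℕ) : ℝ) ≠ 0 := by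
        exact_mod_cast q1.ne'
      have q2' : (((L.map fun z => ((h - z.1) ^ (h - z.1)) ^ z.2).prod : ℕ) : ℝ) ≠ 0 := by
        exact_mod_cast q2.ne'
      have a1 : 0 < h - 2 * z.1 := by omega
      have a2 : 0 < h - z.1 := by omega
      have r1 : (((h - 2 * z.1) ^ (h - 2 * z.1) : ℕ) : ℝ) ≠ 0 := by
        exact_mod_cast (Nat.pow_pos a1).ne'
      have r2 : ((z.1 ^ z.1 : ℕ) : ℝ) ≠ 0 := by
        exact_mod_cast (Nat.pow_pos hz2).ne'
      have r3 : (((h - z.1) ^ (h - z.1) : ℕ) : ℝ) ≠ 0 := by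
        exact_mod_cast (Nat.pow_pos a2).ne'
      have s1 : (h : ℝ) - 2 * (z.1 : ℕ) = ((h - 2 * z.1 : ℕ) : ℝ) := by
        rw [Nat.cast_sub (by omega)]; push_cast; ring
      have s2 : 0 + (h : ℝ) - (z.1 : ℕ) = ((h - z.1 : ℕ) : ℝ) := by
        rw [Nat.cast_sub (by omega)]; ring
      rw [s1, s2, zero_add, xl_nat, xl_nat, xl_nat]
      rw [Nat.cast_mul, Nat.cast_mul, Real.log_mul (by
          rw [Nat.cast_pow, Nat.cast_mul]
          exact pow_ne_zero _ (mul_ne_zero r1 r2)) q1', Real.log_mul (by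
          rw [Nat.cast_pow]
          exact pow_ne_zero _ r3) q2']
      rw [Nat.cast_pow _ z.2, Nat.cast_pow _ z.2, Real.log_pow, Real.log_pow, Nat.cast_mul, Real.log_mul r1 r2, nsmul_eq_mul]
      ring
  unfold f0 Nf Mf
  rw [key, xl_zero]
  have hh : 0 < h := by omega
  have hhc : 0 < h - c := by omega
  have r1 : ((h ^ h : ℕ) : ℝ) ≠ 0 := by exact_mod_cast (Nat.pow_pos hh).ne'
  have r2 : (((h - c) ^ (h - c) : ℕ) : ℝ) ≠ 0 := by exact_mod_cast (Nat.pow_pos hhc).ne'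
  have r3 : ((c ^ c : ℕ) : ℝ) ≠ 0 := by exact_mod_cast (Nat.pow_pos hc).ne'
  have p1 : (((dm.map fun z => (((h - 2 * z.1) ^ (h - 2 * z.1)) * z.1 ^ z.1) ^ z.2).prod : ℕ) : ℝ) ≠ 0 := by
    have : 0 < (dm.map fun z => (((h - 2 * z.1) ^ (h - 2 * z.1)) * z.1 ^ z.1) ^ z.2).prod := by
      apply List.prod_pos
      intro a ha
      rw [List.mem_map] at ha
      obtain ⟨w, hw, rfl⟩ := ha
      obtain ⟨hw1, hw2⟩ := hdm w hw
      have a1 : 0 < h - 2 * w.1 := by omega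
      positivity
    exact_mod_cast this.ne'
  have p2 : (((dm.map fun z => ((h - z.1) ^ (h - z.1)) ^ z.2).prod : ℕ) : ℝ) ≠ 0 := by
    have : 0 < (dm.map fun z => ((h - z.1) ^ (h - z.1)) ^ z.2).prod := by
      apply List.prod_pos
      intro a ha
      rw [List.mem_map] at ha
      obtain ⟨w, hw, rfl⟩ := ha
      obtain ⟨hw1, hw2⟩ := hdm w hw
      have a1 : 0 < h - w.1 := by omega
      positivity
    exact_mod_cast this.ne'
  have s3 : 0 + (h : ℝ) - c = ((h - c : ℕ) : ℝ) := by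
    rw [Nat.cast_sub hch.le]; ring
  rw [s3, zero_add, zero_add, xl_nat, xl_nat, xl_nat]
  rw [Nat.cast_mul, Nat.cast_mul, Real.log_mul (by
      rw [Nat.cast_pow]
      exact pow_ne_zero _ r1) p1, Real.log_mul (by
      rw [Nat.cast_pow, Nat.cast_mul]
      exact pow_ne_zero _ (mul_ne_zero r2 r3)) p2]
  rw [Nat.cast_pow _ b, Nat.cast_pow _ b, Real.log_pow, Real.log_pow, Nat.cast_mul, Real.log_mul r2 r3]
  ring

lemma f0_zero_le (b h c : ℕ) (dm : List (ℕ × ℕ)) (hc : 1 ≤ c) (hch : c < h) (hdm : ∀ z ∈ dm, 2 * z.1 < h ∧ 1 ≤ z.1)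
    (X : ℕ) (hX : Nat.ble (Nf b h dm * 27182818286 ^ X) (Mf b h c dm * 10 ^ (10 * X)) = true) :
    f0 b h c (expd dm) 0 ≤ -(X : ℝ) := by
  rw [f0_zero b h c dm hc hch hdm]
  rw [Nat.ble_eq] at hX
  have hN : 0 < Nf b h dm := by
    unfold Nf
    apply Nat.mul_pos
    · exact Nat.pow_pos (Nat.pow_pos (by omega))
    · apply List.prod_pos
      intro a ha
      rw [List.mem_map] at ha
      obtain ⟨w, hw, rfl⟩ := ha
      obtain ⟨hw1, hw2⟩ := hdm w hw
      have a1 : 0 < h - 2 * w.1 := by omega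
      positivity
  have hM : 0 < Mf b h c dm := by
    unfold Mf
    apply Nat.mul_pos
    · exact Nat.pow_pos (Nat.mul_pos (Nat.pow_pos (by omega)) (Nat.pow_pos (by omega)))
    · apply List.prod_pos
      intro a ha
      rw [List.mem_map] at ha
      obtain ⟨w, hw, rfl⟩ := ha
      obtain ⟨hw1, hw2⟩ := hdm w hw
      have a1 : 0 < h - w.1 := by omega
      positivity
  have hN' : (0 : ℝ) < Nf b h dm := by exact_mod_cast hN
  have hM' : (0 : ℝ) < Mf b h c dm := by exact_mod_cast hM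
  have hX' : ((Nf b h dm * 27182818286 ^ X : ℕ) : ℝ) ≤ ((Mf b h c dm * 10 ^ (10 * X) : ℕ) : ℝ) := by exact_mod_cast hX
  rw [Nat.cast_mul, Nat.cast_mul, Nat.cast_pow, Nat.cast_pow] at hX'
  have he : Real.exp 1 ≤ 27182818286 / 10 ^ 10 := by
    have := Real.exp_one_lt_d9
    norm_num at this ⊢
    linarith
  have h1 : (Nf b h dm : ℝ) * Real.exp X ≤ Mf b h c dm := by
    have h2 : Real.exp X = Real.exp 1 ^ X := by rw [← Real.exp_nat_mul, mul_one]
    rw [h2]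
    have h3 : Real.exp 1 ^ X ≤ (27182818286 / 10 ^ 10) ^ X := pow_le_pow_left₀ (Real.exp_pos _).le he X
    have h4 : (0 : ℝ) < 10 ^ (10 * X) := by positivity
    calc _ ≤ (Nf b h dm : ℝ) * (27182818286 / 10 ^ 10) ^ X := mul_le_mul_of_nonneg_left h3 hN'.le
      _ = ((Nf b h dm : ℝ) * ((27182818286 : ℕ) : ℝ) ^ X) / 10 ^ (10 * X) := by
          rw [div_pow, ← pow_mul]; push_cast; ring
      _ ≤ _ := by
          rw [div_le_iff₀ h4]
          push_cast at hX' ⊢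
          exact hX'
  have h5 : Real.log ((Nf b h dm : ℝ) * Real.exp X) ≤ Real.log (Mf b h c dm) :=
    Real.log_le_log (by positivity) h1
  rw [Real.log_mul hN'.ne' (Real.exp_pos _).ne', Real.log_exp] at h5
  linarith

/-- rational versions of the moments -/
def I2q (b h c : ℕ) (dm : List (ℕ × ℕ)) : ℚ :=
  b * (1 / (c : ℚ) - 1 / ((h : ℚ) - c)) + (dm.map fun z => (z.2 : ℚ) * (1 / (z.1 : ℚ) - 1 / ((h : ℚ) - z.1))).sum

/-- rational versions of the moments -/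
def I4q (b h c : ℕ) (dm : List (ℕ × ℕ)) : ℚ :=
  (b * (1 / (c : ℚ) ^ 3 - 1 / ((h : ℚ) - c) ^ 3) +
    (dm.map fun z => (z.2 : ℚ) * (1 / (z.1 : ℚ) ^ 3 - 1 / ((h : ℚ) - z.1) ^ 3)).sum) / 3

lemma sum_expdR (dm : List (ℕ × ℕ)) (f : ℕ → ℝ) :
    ((expd dm).map f).sum = (dm.map fun z => (z.2 : ℝ) * f z.1).sum := by
  unfold expd
  induction dm with
  | nil => simp
  | cons z L ih =>
    rw [List.flatMap_cons, List.map_append, List.sum_append, ih, List.map_cons, List.sum_cons,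
      List.map_replicate, List.sum_replicate, nsmul_eq_mul]

lemma cast_sumQ {α : Type} (L : List α) (f : α → ℚ) : (((L.map f).sum : ℚ) : ℝ) = (L.map fun x => ((f x : ℚ) : ℝ)).sum := by
  induction L with
  | nil => simp
  | cons z L ih => rw [List.map_cons, List.sum_cons, List.map_cons, List.sum_cons, Rat.cast_add, ih]

lemma I2_eq (b h c : ℕ) (dm : List (ℕ × ℕ)) : I2f b h c (expd dm) = ((I2q b h c dm : ℚ) : ℝ) := by
  unfold I2f I2q
  rw [sum_expdR, Rat.cast_add, cast_sumQ]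
  push_cast
  rfl

lemma I4_eq (b h c : ℕ) (dm : List (ℕ × ℕ)) : I4f b h c (expd dm) = ((I4q b h c dm : ℚ) : ℝ) := by
  unfold I4f I4q
  rw [sum_expdR, Rat.cast_div, Rat.cast_add, cast_sumQ]
  push_cast
  rfl

/-- all the computations needed for the line bound -/
structure Cert (b h c D : ℕ) (dm : List (ℕ × ℕ)) (C : List (ℕ × ℕ × ℕ)) (η Y : ℚ) (X Sc : ℕ) : Prop where
  hb : 3 ≤ b
  hc0 : 1 ≤ c
  hcD : c < D
  hcc : 2 * c + D < h
  hDD : 2 * D + c < h
  hdm : ∀ z ∈ dm, 2 * z.1 < h ∧ D ≤ z.1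
  hDm : D ∈ expd dm
  hlen : 3 ≤ (expd dm).length
  hev : Even (expd dm).length
  hdeg : 2 * b * c ≤ ((expd dm).map fun d => h - 2 * d).sum
  hη : 0 ≤ η
  hY : 1 ≤ Y
  hfar : (b : ℚ) * c ≤ 3 * Y
  hsl : ((b : ℚ) - 4) * (31416 / 10000) ≤ 2 * η * I2q b h c dm
  hX : Nat.ble (Nf b h dm * 27182818286 ^ X) (Mf b h c dm * 10 ^ (10 * X)) = true
  hC : cellsOK b h c D dm C = true
  hne : C ≠ []
  hhead : (C.head hne).1 = 1 ∧ (C.head hne).2.1 = h - D - c
  hpos : ∀ y ∈ C, 0 < y.2.1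
  hlast : 0 < (C.getLast hne).1
  hneg : -(X : ℚ) + (η ^ 2 * I2q b h c dm + η ^ 4 * I4q b h c dm) / 2 + ((costN Sc C : ℚ) / Sc +
    ((b - 1 + (expd dm).length : ℕ) : ℚ) * (((C.getLast hne).2.1 : ℚ) / (C.getLast hne).1)) < 0
  hSc : 0 < Sc
  hb4 : 4 ≤ b

theorem cert_irrational {b h c D : ℕ} {dm : List (ℕ × ℕ)} {C : List (ℕ × ℕ × ℕ)} {η Y : ℚ} {X Sc : ℕ}
    (H : Cert b h c D dm C η Y X Sc)
    (hmin : ∀ s t : ℝ, 0 ≤ s → s ≤ η / c → 0 ≤ t → t ≤ Y / c → 2 * s * t - s ^ 2 - s ^ 4 ≤ Real.log (1 + t ^ 2)) :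
    ∃ i, Odd i ∧ 3 ≤ i ∧ i ≤ (expd dm).length ∧ Irrational (zr (i + (b - 1))) := by
  have hc : ∀ d ∈ expd dm, c < d := by
    intro d hd
    obtain ⟨z, hz, hzd⟩ := mem_expd hd
    have := (H.hdm z hz).2
    have := H.hcD
    omega
  have h2 : ∀ d ∈ expd dm, 2 * d < h := by
    intro d hd
    obtain ⟨z, hz, hzd⟩ := mem_expd hd
    have := (H.hdm z hz).1
    omega
  have hD : ∀ d ∈ expd dm, D ≤ d := by
    intro d hd
    obtain ⟨z, hz, hzd⟩ := mem_expd hd
    have := (H.hdm z hz).2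
    omega
  have hch2 : 2 * c < h := by have := H.hcc; omega
  have hdm1 : ∀ z ∈ dm, 2 * z.1 < h ∧ 1 ≤ z.1 := by
    intro z hz
    have := H.hdm z hz
    have := H.hcD
    omega
  have hη : (0 : ℝ) ≤ (η : ℝ) := by exact_mod_cast H.hη
  have P : Params b h c D (expd dm) := ⟨by have := H.hb; omega, H.hDm, hD, hc, h2, H.hcc, H.hDD, H.hlen, H.hev, H.hdeg⟩
  obtain ⟨hV, hI⟩ := cellsOK_sound H.hcD H.hcc H.hDD H.hdm C H.hC
  have hcost := cost_le Sc H.hSc C H.hC
  have hf0 := f0_zero_le b h c dm H.hc0 (by omega) hdm1 X H.hX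
  have hI20 : (0 : ℝ) ≤ ((I2q b h c dm : ℚ) : ℝ) := by
    rw [← I2_eq]
    unfold I2f
    apply add_nonneg
    · apply mul_nonneg (by positivity)
      rw [sub_nonneg]
      apply one_div_le_one_div_of_le
      · exact_mod_cast H.hc0
      · have : ((2 * c : ℕ) : ℝ) < h := by exact_mod_cast hch2
        push_cast at this
        linarith
    · apply List.sum_nonneg
      intro a ha
      rw [List.mem_map] at ha
      obtain ⟨d, hd, rfl⟩ := ha
      rw [sub_nonneg]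
      have h3 := hc d hd
      apply one_div_le_one_div_of_le
      · exact_mod_cast (by omega : 0 < d)
      · have : ((2 * d : ℕ) : ℝ) < h := by exact_mod_cast h2 d hd
        push_cast at this
        linarith
  have hL : LineHyp b h c (expd dm) (η : ℝ) (Y : ℝ) 1 := by
    refine ⟨hη, by exact_mod_cast H.hY, zero_le_one, ?_, ?_, by exact_mod_cast H.hfar⟩
    · intro s t h3 h4 h5 h6
      have := hmin s t h3 h4 h5 h6
      linarith
    · rw [I2_eq]
      have h3 : (((b : ℚ) - 4) * (31416 / 10000) : ℚ) ≤ 2 * η * I2q b h c dm := H.hsl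
      have h4 : ((((b : ℚ) - 4) * (31416 / 10000) : ℚ) : ℝ) ≤ ((2 * η * I2q b h c dm : ℚ) : ℝ) := by exact_mod_cast h3
      push_cast at h4
      have h5 := Real.pi_lt_d4
      have h6 : (0 : ℝ) ≤ (b : ℝ) - 4 := by
        have : (4 : ℝ) ≤ b := by exact_mod_cast H.hb4
        linarith
      nlinarith
  set S : ℝ := f0 b h c (expd dm) 0 + ((η : ℝ) ^ 2 * I2f b h c (expd dm) + 1 * (η : ℝ) ^ 4 * I4f b h c (expd dm)) / 2 with hS
  have hbound := fun ε hε => line_bound b h c (expd dm) H.hb H.hc0 hch2 hc h2 H.hlen H.hdeg (η : ℝ) (Y : ℝ) 1 hL S (le_of_eq hS.symm) ε hε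
  have hneg : S + ((costN Sc C : ℝ) / Sc + ((b - 1 + (expd dm).length : ℕ) : ℝ) * (((C.getLast H.hne).2.1 : ℝ) / (C.getLast H.hne).1)) < 0 := by
    have h3 := H.hneg
    have h4 : ((-(X : ℚ) + (η ^ 2 * I2q b h c dm + η ^ 4 * I4q b h c dm) / 2 + ((costN Sc C : ℚ) / Sc +
    ((b - 1 + (expd dm).length : ℕ) : ℚ) * (((C.getLast H.hne).2.1 : ℚ) / (C.getLast H.hne).1)) : ℚ) : ℝ) < 0 := by exact_mod_cast h3
    rw [Rat.cast_add, Rat.cast_add, Rat.cast_neg, Rat.cast_natCast, Rat.cast_add, Rat.cast_div, Rat.cast_add, Rat.cast_mul, Rat.cast_mul,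
      Rat.cast_mul, Rat.cast_div, Rat.cast_div, Rat.cast_natCast, Rat.cast_natCast, Rat.cast_natCast, Rat.cast_natCast, Rat.cast_natCast,
      Rat.cast_pow, Rat.cast_pow, Rat.cast_ofNat, ← I2_eq, ← I4_eq] at h4
    rw [hS]
    linarith
  obtain ⟨x, L, hxL⟩ : ∃ x L, C = x :: L := List.exists_cons_of_ne_nil H.hne
  subst hxL
  have hhead := H.hhead
  simp only [List.head_cons] at hhead
  apply criterion b h c D (expd dm) P x L hV hI hhead.1 hhead.2 H.hpos H.hlast S hbound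
  have h3 := hcost
  linarith

end Pool.Agent.H337R2
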