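import Pool.Agent.H337R2.Crude

open Polynomial

namespace Pool.Agent.H337R2

noncomputable section

set_option linter.unusedSectionVars false

variable {p : ℕ} [hp : Fact p.Prime]

lemma num_bound (K L : ℕ) (hKL : L + 1 ≤ K) :
    ∏ m ∈ Finset.Icc 1 L, padicNorm p ((K : ℚ) - m) ≤ padicNorm p (Nat.factorial L : ℚ) := by
  have h1 : ((Nat.descFactorial (K - 1) L : ℕ) : ℚ) = ∏ m ∈ Finset.Icc 1 L, ((K : ℚ) - m) := by
    rw [Nat.descFactorial_eq_prod_range, Nat.cast_prod]
    rw [show Finset.Icc 1 L = Finset.Ico 1 (L + 1) by ext; simp, Finset.prod_Ico_eq_prod_range]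
    apply Finset.prod_congr (by simp)
    intro i hi
    rw [Finset.mem_range] at hi
    rw [show K - 1 - i = K - (1 + i) by omega, Nat.cast_sub (by omega)]
  obtain ⟨q, hq⟩ := Nat.factorial_dvd_descFactorial (K - 1) L
  rw [← padicNorm_prod', ← h1, hq]
  push_cast
  rw [padicNorm.mul]
  exact mul_le_of_le_one_right (padicNorm.nonneg _) (padicNorm.of_nat q)

lemma PB_PP_crude (b h c n : ℕ) (ds : List ℕ) (k : ℕ) (hk : k ∈ ss h c n) (M : ℚ) (hM1 : 1 ≤ M)
    (hM : ((h * n : ℕ) : ℚ) ≤ M) (hch : c ≤ h) :
    PB p M (padicNorm p (cst b h c n ds) * (padicNorm p (Nat.factorial (c * n) : ℚ)) ^ (2 * b))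
      (TS (-(k : ℚ)) (PP b h c n ds)) := by
  have hM0 : (0 : ℚ) ≤ M := by linarith
  have hcst : 0 ≤ padicNorm p (cst b h c n ds) := padicNorm.nonneg _
  have hcn : c * n ≤ h * n := Nat.mul_le_mul_right n hch
  rw [ss, Finset.mem_Icc] at hk
  have hF : 0 ≤ padicNorm p (Nat.factorial (c * n) : ℚ) := padicNorm.nonneg _
  unfold PP NN
  rw [(TS (-(k : ℚ))).map_mul, (TS (-(k : ℚ))).map_mul, TS_C, TS_lin2, map_prod]
  have key : PB p M (∏ x ∈ Finset.Icc 1 (c * n), (padicNorm p ((k : ℚ) - x) ^ b * padicNorm p (((h * n - k : ℕ) : ℚ) - x) ^ b))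
      (∏ x ∈ Finset.Icc 1 (c * n), (TS (-(k : ℚ))) ((X + C (x : ℚ)) ^ b * (X + C ((h : ℚ) * n - x)) ^ b)) := by
    apply PB.prod _ _ _ hM0
    · intro m _
      have := padicNorm.nonneg (p := p) ((k : ℚ) - m)
      have := padicNorm.nonneg (p := p) (((h * n - k : ℕ) : ℚ) - m)
      positivity
    · intro m hm
      rw [Finset.mem_Icc] at hm
      rw [map_mul, map_pow, map_pow, TS_lin, TS_lin]
      have e0 : padicNorm p ((k : ℚ) - m) = padicNorm p (-(k : ℚ) + m) := by
        rw [← padicNorm.neg]; congr 1; ring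
      have e1 : PB p M (padicNorm p ((k : ℚ) - m)) (PowerSeries.X + PowerSeries.C (-(k : ℚ) + m)) := by
        apply PB.linX hM0 (padicNorm.nonneg _) (le_of_eq e0.symm)
        have h3 := norm_inv_le (p := p) (a := (k : ℤ) - m) (by omega) (M := M) (by
          push_cast
          rw [abs_le]
          have h5 : (m : ℚ) ≤ k := by exact_mod_cast (by omega : m ≤ k)
          have h6 : (k : ℚ) ≤ ((h * n : ℕ) : ℚ) := by exact_mod_cast (by omega : k ≤ h * n)
          have h7 : (0 : ℚ) ≤ m := by positivity
          constructor <;> linarith)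
        push_cast at h3
        have h4 : 0 < padicNorm p ((k : ℚ) - m) := by
          refine lt_of_le_of_ne (padicNorm.nonneg _) (Ne.symm (padicNorm.nonzero ?_))
          have : (m : ℚ) < k := by exact_mod_cast (by omega : m < k)
          linarith
        rw [inv_le_iff_one_le_mul₀ h4] at h3
        linarith
      have hcast : ((h * n - k : ℕ) : ℚ) = (h : ℚ) * n - k := by
        rw [Nat.cast_sub (by omega)]; push_cast; ring
      have e2 : PB p M (padicNorm p (((h * n - k : ℕ) : ℚ) - m)) (PowerSeries.X + PowerSeries.C (-(k : ℚ) + ((h : ℚ) * n - m))) := by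
        apply PB.linX hM0 (padicNorm.nonneg _)
        · rw [hcast]; apply le_of_eq; congr 1; ring
        have h3 := norm_inv_le (p := p) (a := ((h * n - k : ℕ) : ℤ) - m) (by omega) (M := M) (by
          push_cast
          rw [abs_le]
          have h5 : (m : ℚ) ≤ ((h * n - k : ℕ) : ℚ) := by exact_mod_cast (by omega : m ≤ h * n - k)
          have h6 : ((h * n - k : ℕ) : ℚ) ≤ ((h * n : ℕ) : ℚ) := by exact_mod_cast (by omega : h * n - k ≤ h * n)
          have h7 : (0 : ℚ) ≤ m := by positivity
          constructor <;> linarith)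
        push_cast at h3
        have h4 : 0 < padicNorm p (((h * n - k : ℕ) : ℚ) - m) := by
          refine lt_of_le_of_ne (padicNorm.nonneg _) (Ne.symm (padicNorm.nonzero ?_))
          have : (m : ℚ) < ((h * n - k : ℕ) : ℚ) := by exact_mod_cast (by omega : m < h * n - k)
          linarith
        rw [inv_le_iff_one_le_mul₀ h4] at h3
        linarith
      exact PB.mul hM0 (pow_nonneg (padicNorm.nonneg _) _) (pow_nonneg (padicNorm.nonneg _) _)
        (PB.pow hM0 (padicNorm.nonneg _) e1 b) (PB.pow hM0 (padicNorm.nonneg _) e2 b)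
  have hprodle : (∏ x ∈ Finset.Icc 1 (c * n), (padicNorm p ((k : ℚ) - x) ^ b * padicNorm p (((h * n - k : ℕ) : ℚ) - x) ^ b))
      ≤ (padicNorm p (Nat.factorial (c * n) : ℚ)) ^ (2 * b) := by
    rw [Finset.prod_mul_distrib, Finset.prod_pow, Finset.prod_pow, two_mul, pow_add]
    have e1 := num_bound (p := p) k (c * n) (by omega)
    have e2 := num_bound (p := p) (h * n - k) (c * n) (by omega)
    have e3 : 0 ≤ ∏ m ∈ Finset.Icc 1 (c * n), padicNorm p ((k : ℚ) - m) := Finset.prod_nonneg fun _ _ => padicNorm.nonneg _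
    have e4 : 0 ≤ ∏ m ∈ Finset.Icc 1 (c * n), padicNorm p (((h * n - k : ℕ) : ℚ) - m) := Finset.prod_nonneg fun _ _ => padicNorm.nonneg _
    gcongr
  have e4 : PB p M 1 (PowerSeries.C 2 * PowerSeries.X + PowerSeries.C (2 * -(k : ℚ) + (h : ℚ) * n)) := by
    apply PB.lin hM0 zero_le_one
    · have := padicNorm.of_int (p := p) ((h : ℤ) * n - 2 * k)
      push_cast at this
      rw [show (2 : ℚ) * -(k : ℚ) + (h : ℚ) * n = (h : ℚ) * n - 2 * k by ring]
      exact this
    · rw [one_mul]
      have := padicNorm.of_int (p := p) 2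
      push_cast at this
      exact this.trans hM1
  have e5 := PB.mul hM0 (by positivity) (by positivity) (PB.mul hM0 hcst zero_le_one (PB.C hM0 hcst le_rfl) e4)
    (PB.mono hM0 key hprodle)
  simpa using e5

theorem pa_crude (b h c n : ℕ) (ds : List ℕ) (hn : 1 ≤ n)
    (hc : ∀ d ∈ ds, c < d) (h2 : ∀ d ∈ ds, 2 * d < h) (hch : c < h) {k : ℕ}
    (hk : k ∈ ss h c n) (i : ℕ) :
    padicNorm p (pa (ss h c n) (mu h n ds) (PP b h c n ds) k i) ≤ ((h * n + 1 : ℕ) : ℚ) ^ (3 * ds.length) := by
  set M : ℚ := ((h * n + 1 : ℕ) : ℚ) with hM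
  have hM1 : 1 ≤ M := by rw [hM]; exact_mod_cast (by omega : 1 ≤ h * n + 1)
  have hM0 : (0 : ℚ) ≤ M := by linarith
  have hcst : 0 ≤ padicNorm p (cst b h c n ds) := padicNorm.nonneg _
  unfold pa
  split_ifs with hi
  · have hkk := hk
    rw [ss, Finset.mem_Icc] at hkk
    have h1 := pfc_bound (p := p) (ss h c n) (mu h n ds) (PP b h c n ds) k M _
      (fun m => if m = k then 1 else (padicNorm p ((m : ℚ) - k))⁻¹) hM0
      (mul_nonneg hcst (pow_nonneg (padicNorm.nonneg _) _))
      (PB_PP_crude b h c n ds k hk M hM1 (by rw [hM]; push_cast; linarith) hch.le)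
      (by
        intro m hm _
        have hmk := Finset.ne_of_mem_erase hm
        have hm2 := Finset.mem_of_mem_erase hm
        rw [ss, Finset.mem_Icc] at hm2
        simp only [hmk, if_false]
        refine ⟨le_rfl, ?_⟩
        have h3 := norm_inv_le (p := p) (a := (m : ℤ) - k) (by omega) (M := M) (by
          push_cast
          rw [abs_le, hM]
          push_cast
          have h5 : (m : ℚ) ≤ h * n := by exact_mod_cast (by omega : m ≤ h * n)
          have h6 : (k : ℚ) ≤ h * n := by exact_mod_cast (by omega : k ≤ h * n)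
          have h7 : (0 : ℚ) ≤ m := by positivity
          have h8 : (0 : ℚ) ≤ k := by positivity
          constructor <;> linarith)
        push_cast at h3
        exact h3)
      (by
        intro m _
        beta_reduce
        split_ifs
        · exact zero_le_one
        · exact inv_nonneg.2 (padicNorm.nonneg _)) (mu h n ds k - i)
    refine h1.trans ?_
    have h4 : ∏ m ∈ (ss h c n).erase k, (if m = k then 1 else (padicNorm p ((m : ℚ) - k))⁻¹) ^ mu h n ds m
        = (ds.map fun d => ∏ m ∈ Finset.Icc (d * n) (h * n - d * n), (if m = k then 1 else (padicNorm p ((m : ℚ) - k))⁻¹)).prod := by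
      rw [← prod_mu h c n ds hn hc h2, ← Finset.mul_prod_erase _ _ hk]
      simp
    rw [h4]
    have hF : 0 < padicNorm p (Nat.factorial (c * n) : ℚ) :=
      lt_of_le_of_ne (padicNorm.nonneg _) (Ne.symm (padicNorm.nonzero (by exact_mod_cast Nat.factorial_ne_zero _)))
    have h5 : padicNorm p (cst b h c n ds) * (padicNorm p (Nat.factorial (c * n) : ℚ)) ^ (2 * b)
        = (ds.map fun d => padicNorm p (Nat.factorial ((h - 2 * d) * n) : ℚ)).prod := by
      unfold cst
      rw [padicNorm.div, padicNorm_pow', padicNorm_listprod, div_mul_cancel₀]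
      exact pow_ne_zero _ hF.ne'
    rw [h5, ← List.prod_map_mul]
    have h6 : ∀ l : List ℕ, (∀ d ∈ l, 2 * d < h) → (l.map fun d => padicNorm p (Nat.factorial ((h - 2 * d) * n) : ℚ) *
        ∏ m ∈ Finset.Icc (d * n) (h * n - d * n), (if m = k then 1 else (padicNorm p ((m : ℚ) - k))⁻¹)).prod ≤ (M ^ 2) ^ l.length := by
      intro l hl
      induction l with
      | nil => simp
      | cons d l ih =>
        rw [List.map_cons, List.prod_cons, List.length_cons, pow_succ']
        have hd := hl d (by simp)
        have hdn : h * n = (h - 2 * d) * n + 2 * (d * n) := by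
          have : h = (h - 2 * d) + 2 * d := by omega
          conv_lhs => rw [this]
          ring
        have e1 : h * n - d * n = d * n + (h - 2 * d) * n := by omega
        rw [e1]
        apply mul_le_mul
        · apply brick_bound (p := p) (d * n) ((h - 2 * d) * n) k M hM1
          · rw [hM]; exact_mod_cast (by omega : (h - 2 * d) * n + 1 ≤ h * n + 1)
          · rw [hM]; exact_mod_cast (by omega : d * n + (h - 2 * d) * n ≤ h * n + 1)
          · rw [hM]; exact_mod_cast (by omega : k ≤ h * n + 1)
        · have := ih (fun d' hd' => hl d' (List.mem_cons_of_mem _ hd'))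
          exact this
        · apply List.prod_nonneg
          intro a ha
          rw [List.mem_map] at ha
          obtain ⟨d', _, rfl⟩ := ha
          apply mul_nonneg (padicNorm.nonneg _)
          apply Finset.prod_nonneg
          intro m _
          split_ifs
          · exact zero_le_one
          · exact inv_nonneg.2 (padicNorm.nonneg _)
        · positivity
    have h7 : mu h n ds k - i ≤ ds.length := (Nat.sub_le _ _).trans (mu_le_length h n ds k)
    calc _ ≤ (M ^ 2) ^ ds.length * M ^ (mu h n ds k - i) := by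
          apply mul_le_mul_of_nonneg_right (h6 ds h2); positivity
      _ ≤ (M ^ 2) ^ ds.length * M ^ ds.length := by
          apply mul_le_mul_of_nonneg_left _ (by positivity)
          exact pow_le_pow_right₀ hM1 h7
      _ = M ^ (3 * ds.length) := by rw [← pow_mul, ← pow_add]; congr 1; ring
  · rw [padicNorm.zero]
    positivity

end

end Pool.Agent.H337R2
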