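import Pool.Agent.H337R2.Arch
import Pool.Agent.H337R2.Stir

open Polynomial

namespace Pool.Agent.H337R2

noncomputable section

/-- the exponential growth function -/
def f0 (b h c : ℕ) (ds : List ℕ) (τ : ℝ) : ℝ :=
  b * (xl (τ + c) - xl τ - xl c + (xl (τ + h) - xl (τ + h - c) - xl c)) +
    (ds.map fun d : ℕ => xl ((h : ℝ) - 2 * d) + xl (τ + d) - xl (τ + h - d)).sum

lemma f0_scale (b h c : ℕ) (ds : List ℕ) (h2 : ∀ d ∈ ds, 2 * d < h) (hch : c ≤ h) (n : ℕ) (hn : 1 ≤ n) (t : ℕ) :
    b * (xl (t + c * n) - xl t - xl (c * n) + (xl (t + h * n) - xl (t + h * n - c * n) - xl (c * n))) +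
    (ds.map fun d : ℕ => xl (((h : ℝ) - 2 * d) * n) + xl (t + d * n) - xl (t + h * n - d * n)).sum
      = n * f0 b h c ds (t / n) := by
  have hn0 : (0 : ℝ) < n := by exact_mod_cast hn
  have ht0 : (0 : ℝ) ≤ (t : ℝ) / n := by positivity
  have key : ∀ x : ℝ, 0 ≤ x → ∀ y : ℝ, y = n * x → xl y = n * xl x + y * Real.log n := by
    intro x hx y hy
    rw [hy, xl_scale hn0 hx]
  have hch' : (c : ℝ) ≤ h := by exact_mod_cast hch
  have e1 := key ((t : ℝ) / n + c) (by positivity) (t + c * n) (by field_simp)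
  have e2 := key ((t : ℝ) / n) (by positivity) t (by field_simp)
  have e3 := key (c : ℝ) (by positivity) (c * n) (by ring)
  have e4 := key ((t : ℝ) / n + h) (by positivity) (t + h * n) (by field_simp)
  have e5 := key ((t : ℝ) / n + h - c) (by linarith) (t + h * n - c * n) (by field_simp)
  unfold f0
  rw [e1, e2, e3, e4, e5, mul_add (n : ℝ)]
  have e6 : (ds.map fun d : ℕ => xl (((h : ℝ) - 2 * d) * n) + xl (t + d * n) - xl (t + h * n - d * n)).sum
      = n * (ds.map fun d : ℕ => xl ((h : ℝ) - 2 * d) + xl ((t : ℝ) / n + d) - xl ((t : ℝ) / n + h - d)).sum := by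
    rw [← List.sum_map_mul_left]
    congr 1
    apply List.map_congr_left
    intro d hd
    have hd2 : (2 * d : ℝ) ≤ h := by exact_mod_cast (h2 d hd).le
    have hd3 : (0 : ℝ) ≤ d := by positivity
    rw [key ((h : ℝ) - 2 * d) (by linarith) (((h : ℝ) - 2 * d) * n) (by ring),
      key ((t : ℝ) / n + d) (by positivity) (t + d * n) (by field_simp),
      key ((t : ℝ) / n + h - d) (by linarith) (t + h * n - d * n) (by field_simp)]
    ring
  rw [e6]
  ring

lemma Rt_le (b h c n : ℕ) (ds : List ℕ) (hn : 1 ≤ n)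
    (hc : ∀ d ∈ ds, c < d) (h2 : ∀ d ∈ ds, 2 * d < h) (hch : c ≤ h) (t : ℕ) :
    ((Rt b h c n ds t : ℚ) : ℝ) ≤ (2 * t + h * n) *
      (ds.map fun d : ℕ => Real.exp 1 * (((h : ℝ) - 2 * d) * n + 1) / (t + d * n)).prod *
      Real.exp (n * f0 b h c ds (t / n)) := by
  have hn0 : (0 : ℝ) < n := by exact_mod_cast hn
  have hcn : c * n ≤ h * n := Nat.mul_le_mul_right n hch
  have hcn' : (c * n : ℝ) ≤ h * n := by exact_mod_cast hcn
  unfold Rt
  have hL := L1 t (c * n)
  have hR := L2 (t + h * n) (c * n) (by omega)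
  have hF : (0 : ℝ) < Nat.factorial (c * n) := by exact_mod_cast Nat.factorial_pos _
  rw [← f0_scale b h c ds h2 hch n hn t]
  push_cast
  -- split the last product
  have e1 : (∏ m ∈ ss h c n, ((t + m : ℝ)⁻¹) ^ mu h n ds m)
      = (ds.map fun d => ∏ m ∈ Finset.Icc (d * n) (h * n - d * n), (t + m : ℝ)⁻¹).prod :=
    prod_mu h c n ds hn hc h2 _
  have e2 : ((cst b h c n ds : ℚ) : ℝ) = (ds.map fun d => (Nat.factorial ((h - 2 * d) * n) : ℝ)).prod /
      (Nat.factorial (c * n) : ℝ) ^ (2 * b) := by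
    unfold cst
    push_cast
    congr 1
    induction ds with
    | nil => simp
    | cons d ds ih =>
      simp only [List.map_cons, List.prod_cons]
      push_cast
      rw [ih (fun d' hd' => hc d' (List.mem_cons_of_mem _ hd')) (fun d' hd' => h2 d' (List.mem_cons_of_mem _ hd'))]
      exact prod_mu h c n ds hn (fun d' hd' => hc d' (List.mem_cons_of_mem _ hd')) (fun d' hd' => h2 d' (List.mem_cons_of_mem _ hd')) _
  rw [e1, e2, Finset.prod_mul_distrib, Finset.prod_pow, Finset.prod_pow]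
  have e3 : ∏ m ∈ Finset.Icc 1 (c * n), ((t : ℝ) + (h * n - m)) = ∏ m ∈ Finset.Icc 1 (c * n), (((t + h * n : ℕ) : ℝ) - m) := by
    apply Finset.prod_congr rfl
    intro m _
    push_cast; ring
  rw [e3]
  have n1 : 0 ≤ ∏ m ∈ Finset.Icc 1 (c * n), ((t : ℝ) + m) := Finset.prod_nonneg fun _ _ => by positivity
  have n2 : 0 ≤ ∏ m ∈ Finset.Icc 1 (c * n), (((t + h * n : ℕ) : ℝ) - m) := by
    apply Finset.prod_nonneg
    intro m hm
    rw [Finset.mem_Icc] at hm
    have : (m : ℝ) ≤ ((t + h * n : ℕ) : ℝ) := by exact_mod_cast (by omega : m ≤ t + h * n)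
    linarith
  -- denominators
  have e4 : ∀ l : List ℕ, (∀ d ∈ l, 2 * d < h) → (∀ d ∈ l, c < d) →
      (l.map fun d => (Nat.factorial ((h - 2 * d) * n) : ℝ)).prod *
      (l.map fun d => ∏ m ∈ Finset.Icc (d * n) (h * n - d * n), (t + m : ℝ)⁻¹).prod ≤
      (l.map fun d : ℕ => Real.exp 1 * (((h : ℝ) - 2 * d) * n + 1) / (t + d * n)).prod *
      Real.exp ((l.map fun d : ℕ => xl (((h : ℝ) - 2 * d) * n) + xl (t + d * n) - xl (t + h * n - d * n)).sum) := by
    intro l hl hl2
    induction l with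
    | nil => simp
    | cons d l ih =>
      simp only [List.map_cons, List.prod_cons, List.sum_cons]
      have hd := hl d (by simp)
      have hd2 := hl2 d (by simp)
      have hdn : h * n = (h - 2 * d) * n + 2 * (d * n) := by
        have : h = (h - 2 * d) + 2 * d := by omega
        conv_lhs => rw [this]
        ring
      have hd1 : 1 ≤ d * n := Nat.one_le_iff_ne_zero.2 (Nat.mul_ne_zero (by omega) (by omega))
      have h3 := L3 (t + d * n) ((h - 2 * d) * n) (by omega)
      have h4 : ∏ k ∈ Finset.Icc (t + d * n) (t + d * n + (h - 2 * d) * n), ((k : ℝ))⁻¹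
          = ∏ m ∈ Finset.Icc (d * n) (h * n - d * n), (t + m : ℝ)⁻¹ := by
        symm
        apply Finset.prod_bij (fun m _ => t + m)
        · intro m hm; rw [Finset.mem_Icc] at *; omega
        · intro a _ b _ h; omega
        · intro m hm; rw [Finset.mem_Icc] at hm
          exact ⟨m - t, by rw [Finset.mem_Icc]; omega, by omega⟩
        · intro m _; push_cast; rfl
      rw [h4] at h3
      have h5 : (((h - 2 * d : ℕ) : ℝ)) = (h : ℝ) - 2 * d := by
        rw [Nat.cast_sub hd.le]; push_cast; ring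
      push_cast at h3
      rw [h5] at h3
      have h6 : (t : ℝ) + d * n + ((h : ℝ) - 2 * d) * n = t + h * n - d * n := by ring
      rw [h6] at h3
      have h7 := ih (fun d' hd' => hl d' (List.mem_cons_of_mem _ hd')) (fun d' hd' => hl2 d' (List.mem_cons_of_mem _ hd'))
      have h8 : (0 : ℝ) ≤ (h : ℝ) - 2 * d := by
        rw [← h5]; positivity
      rw [Real.exp_add]
      have h9 : 0 ≤ (l.map fun d => (Nat.factorial ((h - 2 * d) * n) : ℝ)).prod *
          (l.map fun d => ∏ m ∈ Finset.Icc (d * n) (h * n - d * n), (t + m : ℝ)⁻¹).prod := by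
        apply mul_nonneg
        · apply List.prod_nonneg
          intro a ha
          rw [List.mem_map] at ha
          obtain ⟨d, _, rfl⟩ := ha
          positivity
        · apply List.prod_nonneg
          intro a ha
          rw [List.mem_map] at ha
          obtain ⟨d, _, rfl⟩ := ha
          exact Finset.prod_nonneg fun _ _ => by positivity
      calc _ = ((Nat.factorial ((h - 2 * d) * n) : ℝ) * ∏ m ∈ Finset.Icc (d * n) (h * n - d * n), (t + m : ℝ)⁻¹) *
            ((l.map fun d => (Nat.factorial ((h - 2 * d) * n) : ℝ)).prod *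
            (l.map fun d => ∏ m ∈ Finset.Icc (d * n) (h * n - d * n), (t + m : ℝ)⁻¹).prod) := by ring
        _ ≤ (Real.exp 1 * (((h : ℝ) - 2 * d) * n + 1) / (t + d * n) * Real.exp (xl (((h : ℝ) - 2 * d) * n) + xl (t + d * n) - xl (t + h * n - d * n))) *
            ((l.map fun d : ℕ => Real.exp 1 * (((h : ℝ) - 2 * d) * n + 1) / (t + d * n)).prod *
            Real.exp ((l.map fun d : ℕ => xl (((h : ℝ) - 2 * d) * n) + xl (t + d * n) - xl (t + h * n - d * n)).sum)) := by
              apply mul_le_mul h3 h7 h9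
              positivity
        _ = _ := by ring
  have e5 := e4 ds h2 hc
  rw [Real.exp_add]
  have e6 : (∏ m ∈ Finset.Icc 1 (c * n), ((t : ℝ) + m)) ^ b * (∏ m ∈ Finset.Icc 1 (c * n), (((t + h * n : ℕ) : ℝ) - m)) ^ b
      ≤ (Nat.factorial (c * n) : ℝ) ^ (2 * b) * Real.exp (b * (xl (t + c * n) - xl t - xl (c * n) +
        (xl (t + h * n) - xl (t + h * n - c * n) - xl (c * n)))) := by
    calc _ ≤ ((Nat.factorial (c * n) : ℝ) * Real.exp (xl (t + (c * n : ℕ)) - xl t - xl ((c * n : ℕ) : ℝ))) ^ b *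
          ((Nat.factorial (c * n) : ℝ) * Real.exp (xl ((t + h * n : ℕ) : ℝ) - xl (((t + h * n : ℕ) : ℝ) - (c * n : ℕ)) - xl ((c * n : ℕ) : ℝ))) ^ b := by
            gcongr
      _ = _ := by
        rw [mul_pow, mul_pow, ← Real.exp_nat_mul, ← Real.exp_nat_mul]
        rw [mul_add (b : ℝ), Real.exp_add, two_mul, pow_add]
        push_cast
        ring
  have n3 : 0 ≤ (ds.map fun d => (Nat.factorial ((h - 2 * d) * n) : ℝ)).prod *
      (ds.map fun d => ∏ m ∈ Finset.Icc (d * n) (h * n - d * n), (t + m : ℝ)⁻¹).prod := by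
    apply mul_nonneg
    · apply List.prod_nonneg
      intro a ha
      rw [List.mem_map] at ha
      obtain ⟨d, _, rfl⟩ := ha
      positivity
    · apply List.prod_nonneg
      intro a ha
      rw [List.mem_map] at ha
      obtain ⟨d, _, rfl⟩ := ha
      exact Finset.prod_nonneg fun _ _ => by positivity
  have e7 : (ds.map fun d => (Nat.factorial ((h - 2 * d) * n) : ℝ)).prod / (Nat.factorial (c * n) : ℝ) ^ (2 * b) *
      (2 * t + h * n) * ((∏ m ∈ Finset.Icc 1 (c * n), ((t : ℝ) + m)) ^ b * (∏ m ∈ Finset.Icc 1 (c * n), (((t + h * n : ℕ) : ℝ) - m)) ^ b) *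
      (ds.map fun d => ∏ m ∈ Finset.Icc (d * n) (h * n - d * n), (t + m : ℝ)⁻¹).prod
      = (2 * t + h * n) * (((∏ m ∈ Finset.Icc 1 (c * n), ((t : ℝ) + m)) ^ b * (∏ m ∈ Finset.Icc 1 (c * n), (((t + h * n : ℕ) : ℝ) - m)) ^ b) /
      (Nat.factorial (c * n) : ℝ) ^ (2 * b)) * ((ds.map fun d => (Nat.factorial ((h - 2 * d) * n) : ℝ)).prod *
      (ds.map fun d => ∏ m ∈ Finset.Icc (d * n) (h * n - d * n), (t + m : ℝ)⁻¹).prod) := by
    field_simp
  rw [e7]
  have e8 : ((∏ m ∈ Finset.Icc 1 (c * n), ((t : ℝ) + m)) ^ b * (∏ m ∈ Finset.Icc 1 (c * n), (((t + h * n : ℕ) : ℝ) - m)) ^ b) /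
      (Nat.factorial (c * n) : ℝ) ^ (2 * b) ≤ Real.exp (b * (xl (t + c * n) - xl t - xl (c * n) +
        (xl (t + h * n) - xl (t + h * n - c * n) - xl (c * n)))) := by
    rw [div_le_iff₀ (by positivity), mul_comm (Real.exp _)]
    exact e6
  calc _ ≤ (2 * t + h * n) * Real.exp (b * (xl (t + c * n) - xl t - xl (c * n) +
        (xl (t + h * n) - xl (t + h * n - c * n) - xl (c * n)))) *
        ((ds.map fun d : ℕ => Real.exp 1 * (((h : ℝ) - 2 * d) * n + 1) / (t + d * n)).prod *
      Real.exp ((ds.map fun d : ℕ => xl (((h : ℝ) - 2 * d) * n) + xl (t + d * n) - xl (t + h * n - d * n)).sum)) := by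
        gcongr
    _ = _ := by ring

/-- upper bound for the whole sum -/
theorem F_le (b h c n : ℕ) (ds : List ℕ) (hn : 1 ≤ n) (hb : 1 ≤ ds.length)
    (hc : ∀ d ∈ ds, c < d) (h2 : ∀ d ∈ ds, 2 * d < h) (hch : c < h) (h2h : 2 ≤ h) (hr : 3 ≤ ds.length)
    (S : ℝ) (hS : ∀ τ : ℝ, 0 ≤ τ → f0 b h c ds τ ≤ S) (β : ℕ) (F : ℝ)
    (hF : HasSum (fun t : ℕ => ((PowerSeries.coeff β (RS (ss h c n) (mu h n ds) (PP b h c n ds) (t : ℚ)) : ℚ) : ℝ)) F) :
    |F| ≤ ((Real.exp 1 * (h * n + 1)) ^ ds.length * (h * n) * (∑' t : ℕ, 1 / ((t : ℝ) + 1) ^ 2) *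
      (1 + 2 * b * (c * n) + ∑ k ∈ ss h c n, mu h n ds k : ℕ) ^ β) * Real.exp (n * S) := by
  have hhn : 2 ≤ h * n := by nlinarith
  have hcn : c * n + 1 ≤ h * n := by
    have : (c + 1) * n ≤ h * n := Nat.mul_le_mul_right n hch
    nlinarith
  have hn0 : (0 : ℝ) < n := by exact_mod_cast hn
  set Mt : ℝ := ((1 + 2 * b * (c * n) + ∑ k ∈ ss h c n, mu h n ds k : ℕ) : ℝ) with hMt
  set K : ℝ := (Real.exp 1 * (h * n + 1)) ^ ds.length * (h * n) with hK
  have hK0 : 0 ≤ K := by rw [hK]; positivity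
  have hMt0 : 0 ≤ Mt := by rw [hMt]; positivity
  have hterm : ∀ t : ℕ, |((PowerSeries.coeff β (RS (ss h c n) (mu h n ds) (PP b h c n ds) (t : ℚ)) : ℚ) : ℝ)|
      ≤ K * Mt ^ β * Real.exp (n * S) * (1 / ((t : ℝ) + 1) ^ 2) := by
    intro t
    have h1 := coeff_RS_le b h c n ds hhn hcn t β
    have h1' : |((PowerSeries.coeff β (RS (ss h c n) (mu h n ds) (PP b h c n ds) (t : ℚ)) : ℚ) : ℝ)|
        ≤ ((Rt b h c n ds t : ℚ) : ℝ) * Mt ^ β := by
      have : ((|PowerSeries.coeff β (RS (ss h c n) (mu h n ds) (PP b h c n ds) (t : ℚ))| : ℚ) : ℝ) ≤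
        ((Rt b h c n ds t * (1 + 2 * b * (c * n) + ∑ k ∈ ss h c n, mu h n ds k : ℚ) ^ β : ℚ) : ℝ) := by
        exact_mod_cast h1
      rw [hMt]
      push_cast at this ⊢
      exact this
    have h3 := Rt_le b h c n ds hn hc h2 hch.le t
    have h4 : (ds.map fun d : ℕ => Real.exp 1 * (((h : ℝ) - 2 * d) * n + 1) / (t + d * n)).prod
        ≤ (Real.exp 1 * (h * n + 1) / (t + 1)) ^ ds.length := by
      have key : ∀ l : List ℕ, (∀ d ∈ l, 2 * d < h) → (∀ d ∈ l, c < d) →
          (l.map fun d : ℕ => Real.exp 1 * (((h : ℝ) - 2 * d) * n + 1) / (t + d * n)).prod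
          ≤ (Real.exp 1 * (h * n + 1) / (t + 1)) ^ l.length := by
        intro l hl hl2
        induction l with
        | nil => simp
        | cons d l ih =>
          simp only [List.map_cons, List.prod_cons, List.length_cons, pow_succ']
          have hd := hl d (by simp)
          have hd2 := hl2 d (by simp)
          have hd' : (2 * d : ℝ) ≤ h := by exact_mod_cast hd.le
          have hdn : (1 : ℝ) ≤ d * n := by
            exact_mod_cast (Nat.one_le_iff_ne_zero.2 (Nat.mul_ne_zero (by omega) (by omega)))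
          have hd0 : (0 : ℝ) ≤ d := by positivity
          apply mul_le_mul
          · apply div_le_div₀ (by positivity) _ (by positivity) (by linarith)
            apply mul_le_mul_of_nonneg_left _ (by positivity)
            nlinarith
          · exact ih (fun d' hd' => hl d' (List.mem_cons_of_mem _ hd')) (fun d' hd' => hl2 d' (List.mem_cons_of_mem _ hd'))
          · apply List.prod_nonneg
            intro a ha
            rw [List.mem_map] at ha
            obtain ⟨d', hd'', rfl⟩ := ha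
            have : (2 * d' : ℝ) ≤ h := by exact_mod_cast (hl d' (List.mem_cons_of_mem _ hd'')).le
            have h5 : 0 ≤ ((h : ℝ) - 2 * d') := by linarith
            positivity
          · positivity
      exact key ds h2 hc
    have h5 : (2 * (t : ℝ) + h * n) ≤ h * n * (t + 1) := by
      have : (2 : ℝ) ≤ h * n := by exact_mod_cast hhn
      have ht : (0 : ℝ) ≤ t := by positivity
      nlinarith
    have h6 : Real.exp (n * f0 b h c ds (t / n)) ≤ Real.exp (n * S) := by
      apply Real.exp_le_exp.2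
      apply mul_le_mul_of_nonneg_left (hS _ (by positivity)) hn0.le
    have h7 : ((Rt b h c n ds t : ℚ) : ℝ) ≤ K * Real.exp (n * S) * (1 / ((t : ℝ) + 1) ^ 2) := by
      have hnn : 0 ≤ (ds.map fun d : ℕ => Real.exp 1 * (((h : ℝ) - 2 * d) * n + 1) / (t + d * n)).prod := by
        apply List.prod_nonneg
        intro a ha
        rw [List.mem_map] at ha
        obtain ⟨d', hd'', rfl⟩ := ha
        have : (2 * d' : ℝ) ≤ h := by exact_mod_cast (h2 d' hd'').le
        have h5 : 0 ≤ ((h : ℝ) - 2 * d') := by linarith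
        positivity
      calc _ ≤ (h * n * (t + 1)) * (Real.exp 1 * (h * n + 1) / (t + 1)) ^ ds.length * Real.exp (n * S) := by
            refine h3.trans ?_
            gcongr
        _ = (h * n * (Real.exp 1 * (h * n + 1)) ^ ds.length) * Real.exp (n * S) * ((t + 1) / (t + 1) ^ ds.length) := by
            rw [div_pow]; ring
        _ ≤ (h * n * (Real.exp 1 * (h * n + 1)) ^ ds.length) * Real.exp (n * S) * (1 / ((t : ℝ) + 1) ^ 2) := by
            apply mul_le_mul_of_nonneg_left _ (by positivity)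
            rw [div_le_div_iff₀ (by positivity) (by positivity), one_mul, ← pow_succ']
            exact pow_le_pow_right₀ (by linarith [(by positivity : (0:ℝ) ≤ t)]) (by omega)
        _ = _ := by rw [hK]; ring
    calc _ ≤ ((Rt b h c n ds t : ℚ) : ℝ) * Mt ^ β := h1'
      _ ≤ (K * Real.exp (n * S) * (1 / ((t : ℝ) + 1) ^ 2)) * Mt ^ β := by gcongr
      _ = _ := by ring
  have hsum : Summable (fun t : ℕ => 1 / ((t : ℝ) + 1) ^ 2) := summable_zr (le_refl 2)
  have h8 := hasSum_le (f := fun t : ℕ => |((PowerSeries.coeff β (RS (ss h c n) (mu h n ds) (PP b h c n ds) (t : ℚ)) : ℚ) : ℝ)|)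
    (g := fun t : ℕ => K * Mt ^ β * Real.exp (n * S) * (1 / ((t : ℝ) + 1) ^ 2)) hterm
    (Summable.hasSum (Summable.of_nonneg_of_le (fun _ => abs_nonneg _) hterm (hsum.mul_left _)))
    ((hsum.hasSum).mul_left _)
  have h9 : |F| ≤ ∑' t : ℕ, |((PowerSeries.coeff β (RS (ss h c n) (mu h n ds) (PP b h c n ds) (t : ℚ)) : ℚ) : ℝ)| := by
    rw [← hF.tsum_eq]
    have hs : Summable (fun t : ℕ => |((PowerSeries.coeff β (RS (ss h c n) (mu h n ds) (PP b h c n ds) (t : ℚ)) : ℚ) : ℝ)|) :=
      Summable.of_nonneg_of_le (fun _ => abs_nonneg _) hterm (hsum.mul_left _)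
    have := norm_tsum_le_tsum_norm (f := fun t : ℕ => ((PowerSeries.coeff β (RS (ss h c n) (mu h n ds) (PP b h c n ds) (t : ℚ)) : ℚ) : ℝ)) hs
    simpa only [Real.norm_eq_abs] using this
  refine h9.trans (h8.trans (le_of_eq ?_))
  ring

end

end Pool.Agent.H337R2
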