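import Pool.Agent.H337R2.NonVan
import Pool.Agent.H337R2.Arch2

/-!
# The linear form when the zeta values are rational
-/

open Polynomial

namespace Pool.Agent.H337R2

noncomputable section

/-- the `t`-th term of the series -/
def term (b h c n : ℕ) (ds : List ℕ) (t : ℕ) : ℝ :=
  ((PowerSeries.coeff (b - 1) (RS (ss h c n) (mu h n ds) (PP b h c n ds) (t : ℚ)) : ℚ) : ℝ)

lemma deg_lt (b h c n : ℕ) (ds : List ℕ) (hn : 1 ≤ n)
    (hc : ∀ d ∈ ds, c < d) (h2 : ∀ d ∈ ds, 2 * d < h) (hlen : 3 ≤ ds.length)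
    (hdeg : 2 * b * c ≤ (ds.map fun d => h - 2 * d).sum) :
    (PP b h c n ds).natDegree + 2 ≤ (QQ (ss h c n) (mu h n ds)).natDegree := by
  rw [QQ_natDegree, sum_mu_one h c n ds hn hc h2]
  have h1 := PP_natDegree_le b h c n ds
  have h3 : (ds.map fun d => (h - 2 * d) * n + 1).sum = (ds.map fun d => h - 2 * d).sum * n + ds.length := by
    clear hlen hdeg h1 hc h2
    induction ds with
    | nil => simp
    | cons d l ih =>
      simp only [List.map_cons, List.sum_cons, List.length_cons]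
      rw [ih]; ring
  rw [h3]
  have h4 : 2 * b * c * n ≤ (ds.map fun d => h - 2 * d).sum * n := Nat.mul_le_mul_right n hdeg
  have h5 : 2 * b * (c * n) = 2 * b * c * n := by ring
  omega

theorem hasSum_term (b h c n : ℕ) (ds : List ℕ) (hn : 1 ≤ n) (hb : 2 ≤ b)
    (hc : ∀ d ∈ ds, c < d) (h2 : ∀ d ∈ ds, 2 * d < h) (hlen : 3 ≤ ds.length) (hev : Even ds.length)
    (hdeg : 2 * b * c ≤ (ds.map fun d => h - 2 * d).sum) (u : ℕ → ℚ)
    (hu : ∀ i, Odd i → 3 ≤ i → i ≤ ds.length → zr (i + (b - 1)) = (u i : ℝ)) :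
    HasSum (term b h c n ds) ((xform b h c n ds u : ℚ) : ℝ) := by
  have hd := deg_lt b h c n ds hn hc h2 hlen hdeg
  have hdeg' : (PP b h c n ds).degree < (QQ (ss h c n) (mu h n ds)).degree := by
    rw [Polynomial.degree_eq_natDegree (QQ_monic _ _).ne_zero]
    exact lt_of_le_of_lt Polynomial.degree_le_natDegree (by exact_mod_cast (by omega))
  have h1 := linear_form' (ss h c n) (mu h n ds) (PP b h c n ds) hdeg' (b - 1) (c * n) ds.length (by omega)
    (fun k hk => by rw [ss, Finset.mem_Icc] at hk; omega)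
    (fun k _ => mu_le_length h n ds k)
    (fun m hm => by rw [Nat.sub_add_cancel (by omega)]; exact PP_dvd b h c n ds hm)
  unfold term
  convert h1 using 1
  unfold xform
  push_cast
  apply Finset.sum_congr rfl
  intro i hi
  rw [Finset.mem_Icc] at hi
  congr 1
  congr 1
  by_cases hodd : Odd i
  · by_cases hi3 : 3 ≤ i
    · rw [hu i hodd hi3 hi.2]
    · have : i = 1 := by
        obtain ⟨j, hj⟩ := hodd
        omega
      subst this
      have h3 := residue_sum (ss h c n) (mu h n ds) (PP b h c n ds) hd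
      have h4 : (∑ k ∈ ss h c n, ((pa (ss h c n) (mu h n ds) (PP b h c n ds) k 1 : ℚ) : ℝ)) = 0 := by
        have : (((∑ k ∈ ss h c n, pa (ss h c n) (mu h n ds) (PP b h c n ds) k 1 : ℚ)) : ℝ) = 0 := by
          rw [h3]; simp
        push_cast at this
        exact this
      rw [h4, zero_mul, zero_mul]
  · have hodd' := Nat.not_odd_iff_even.1 hodd
    have h3 := even_vanish (ss h c n) (mu h n ds) (PP b h c n ds) (h * n)
      (fun k hk => ss_reflect h c n hk) (fun k hk => mu_reflect h n ds (ss_reflect h c n hk).1)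
      (PP_comp b h c n ds) (even_sum_mu h c n ds hn hc h2 hev) hodd' hi.1
    have h4 : (∑ k ∈ ss h c n, ((pa (ss h c n) (mu h n ds) (PP b h c n ds) k i : ℚ) : ℝ)) = 0 := by
      have : (((∑ k ∈ ss h c n, pa (ss h c n) (mu h n ds) (PP b h c n ds) k i : ℚ)) : ℝ) = 0 := by
        rw [h3]; simp
      push_cast at this
      exact this
    rw [h4, zero_mul, zero_mul]

end

end Pool.Agent.H337R2
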