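import Pool.Agent.H337R2.PBd

/-!
# Archimedean bound of the coefficients
-/

open Polynomial

namespace Pool.Agent.H337R2

noncomputable section

/-- coefficientwise bound `|f_j| ≤ A ρ^j` -/
def AB (ρ A : ℚ) (f : PowerSeries ℚ) : Prop :=
  ∀ j, |PowerSeries.coeff j f| ≤ A * ρ ^ j

lemma AB.mul {ρ σ A B : ℚ} {f g : PowerSeries ℚ} (hρ : 0 ≤ ρ) (hσ : 0 ≤ σ) (hA : 0 ≤ A) (hB : 0 ≤ B)
    (hf : AB ρ A f) (hg : AB σ B g) : AB (ρ + σ) (A * B) (f * g) := by
  intro j
  rw [PowerSeries.coeff_mul]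
  refine (Finset.abs_sum_le_sum_abs _ _).trans ?_
  calc ∑ x ∈ Finset.HasAntidiagonal.antidiagonal j, |(PowerSeries.coeff x.1) f * (PowerSeries.coeff x.2) g|
      ≤ ∑ x ∈ Finset.HasAntidiagonal.antidiagonal j, A * B * ((j.choose x.1 : ℚ) * ρ ^ x.1 * σ ^ x.2) := by
        apply Finset.sum_le_sum
        intro x hx
        have hx := Finset.HasAntidiagonal.mem_antidiagonal.1 hx
        rw [abs_mul]
        have h1 : (1 : ℚ) ≤ (j.choose x.1 : ℚ) := by
          exact_mod_cast Nat.choose_pos (by omega : x.1 ≤ j)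
        have h2 : 0 ≤ A * B * (ρ ^ x.1 * σ ^ x.2) := by positivity
        calc _ ≤ (A * ρ ^ x.1) * (B * σ ^ x.2) := mul_le_mul (hf _) (hg _) (abs_nonneg _) (by positivity)
          _ = A * B * (ρ ^ x.1 * σ ^ x.2) * 1 := by ring
          _ ≤ A * B * (ρ ^ x.1 * σ ^ x.2) * (j.choose x.1 : ℚ) := by gcongr
          _ = _ := by ring
    _ = A * B * (ρ + σ) ^ j := by
        rw [← Finset.mul_sum]
        congr 1
        rw [Commute.add_pow' (Commute.all ρ σ)]
        apply Finset.sum_congr rfl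
        intro x _
        rw [nsmul_eq_mul]; ring

lemma AB.C {A : ℚ} {a : ℚ} (ha : |a| ≤ A) : AB 0 A (PowerSeries.C a) := by
  intro j
  rw [PowerSeries.coeff_C]
  split_ifs with h
  · rw [h, pow_zero, mul_one]; exact ha
  · rw [abs_zero, zero_pow h, mul_zero]

lemma AB.one : AB 0 1 1 := by
  have := AB.C (a := 1) (A := 1) (by simp)
  simpa using this

lemma AB.pow {ρ A : ℚ} {f : PowerSeries ℚ} (hρ : 0 ≤ ρ) (hA : 0 ≤ A) (hf : AB ρ A f) (n : ℕ) :
    AB (n * ρ) (A ^ n) (f ^ n) := by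
  induction n with
  | zero => simpa using AB.one
  | succ n ih =>
    rw [pow_succ, pow_succ]
    have := AB.mul (by positivity) hρ (by positivity) hA ih hf
    convert this using 1
    push_cast; ring

lemma AB.prod {ι : Type*} (s : Finset ι) (ρ A : ι → ℚ) (f : ι → PowerSeries ℚ) (hρ : ∀ i ∈ s, 0 ≤ ρ i)
    (hA : ∀ i ∈ s, 0 ≤ A i) (hf : ∀ i ∈ s, AB (ρ i) (A i) (f i)) :
    AB (∑ i ∈ s, ρ i) (∏ i ∈ s, A i) (∏ i ∈ s, f i) := by
  classical
  induction s using Finset.induction_on with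
  | empty => simpa using AB.one
  | insert a s ha ih =>
    rw [Finset.prod_insert ha, Finset.prod_insert ha, Finset.sum_insert ha]
    apply AB.mul (hρ a (Finset.mem_insert_self _ _))
      (Finset.sum_nonneg fun i hi => hρ i (Finset.mem_insert_of_mem hi))
      (hA a (Finset.mem_insert_self _ _))
      (Finset.prod_nonneg fun i hi => hA i (Finset.mem_insert_of_mem hi))
      (hf a (Finset.mem_insert_self _ _))
    exact ih (fun i hi => hρ i (Finset.mem_insert_of_mem hi))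
      (fun i hi => hA i (Finset.mem_insert_of_mem hi)) (fun i hi => hf i (Finset.mem_insert_of_mem hi))

lemma AB.lin {a u : ℚ} (ha : 0 ≤ a) (hu0 : 0 ≤ u) (hu : u ≤ a) : AB 1 a (PowerSeries.C u * PowerSeries.X + PowerSeries.C a) := by
  intro j
  rw [map_add]
  rcases j with _ | _ | j
  · simp [abs_of_nonneg ha]
  · simpa [PowerSeries.coeff_C, abs_of_nonneg hu0] using hu
  · simp [PowerSeries.coeff_C]
    exact ha

lemma AB.linX {a : ℚ} (ha : 1 ≤ a) : AB 1 a (PowerSeries.X + PowerSeries.C a) := by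
  have := AB.lin (u := 1) (a := a) (by linarith) zero_le_one ha
  simpa using this

lemma AB.iv {a : ℚ} (ha : 1 ≤ a) : AB 1 a⁻¹ (iv a) := by
  intro j
  have h0 : 0 < a := by linarith
  simp only [Pool.Agent.H337R2.iv, PowerSeries.coeff_mk]
  rw [abs_div, abs_pow, abs_neg, abs_one, one_pow, abs_of_pos (by positivity), mul_one, one_div]
  apply inv_anti₀ h0
  exact le_self_pow₀ ha (by omega)

/-- the value of the rational function at `t` -/
def Rt (b h c n : ℕ) (ds : List ℕ) (t : ℕ) : ℚ :=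
  cst b h c n ds * (2 * t + h * n) * (∏ m ∈ Finset.Icc 1 (c * n), ((t + m : ℚ) ^ b * (t + (h * n - m) : ℚ) ^ b)) *
    (∏ m ∈ ss h c n, ((t + m : ℚ)⁻¹) ^ mu h n ds m)

lemma cst_nonneg (b h c n : ℕ) (ds : List ℕ) : 0 ≤ cst b h c n ds := by
  unfold cst
  apply div_nonneg
  · apply List.prod_nonneg
    intro a ha
    rw [List.mem_map] at ha
    obtain ⟨d, _, rfl⟩ := ha
    positivity
  · positivity

theorem coeff_RS_le (b h c n : ℕ) (ds : List ℕ) (hhn : 2 ≤ h * n) (hch : c * n + 1 ≤ h * n) (t β : ℕ) :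
    |PowerSeries.coeff β (RS (ss h c n) (mu h n ds) (PP b h c n ds) (t : ℚ))| ≤
      Rt b h c n ds t * (1 + 2 * b * (c * n) + ∑ k ∈ ss h c n, mu h n ds k : ℚ) ^ β := by
  unfold RS PP NN Rt VV
  rw [(TS (t : ℚ)).map_mul, (TS (t : ℚ)).map_mul, TS_C, TS_lin2, map_prod]
  have ht : (0 : ℚ) ≤ t := by positivity
  have hhn' : (2 : ℚ) ≤ (h : ℚ) * n := by exact_mod_cast hhn
  have e1 : AB 0 (cst b h c n ds) (PowerSeries.C (cst b h c n ds)) :=
    AB.C (by rw [abs_of_nonneg (cst_nonneg _ _ _ _ _)])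
  have e2 : AB 1 (2 * (t : ℚ) + (h : ℚ) * n) (PowerSeries.C 2 * PowerSeries.X + PowerSeries.C (2 * (t : ℚ) + (h : ℚ) * n)) :=
    AB.lin (by positivity) (by norm_num) (by linarith)
  have e3 : AB (∑ x ∈ Finset.Icc 1 (c * n), ((b : ℚ) * 1 + b * 1))
      (∏ m ∈ Finset.Icc 1 (c * n), ((t + m : ℚ) ^ b * (t + (h * n - m) : ℚ) ^ b))
      (∏ x ∈ Finset.Icc 1 (c * n), (TS (t : ℚ)) ((X + C (x : ℚ)) ^ b * (X + C ((h : ℚ) * n - x)) ^ b)) := by
    apply AB.prod
    · intro i _; positivity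
    · intro m hm
      rw [Finset.mem_Icc] at hm
      have h1 : (m : ℚ) ≤ (h : ℚ) * n := by exact_mod_cast (by omega : m ≤ h * n)
      have h2 : (0 : ℚ) ≤ (h : ℚ) * n - m := by linarith
      positivity
    · intro m hm
      rw [Finset.mem_Icc] at hm
      rw [map_mul, map_pow, map_pow, TS_lin, TS_lin]
      have h1 : (m : ℚ) + 1 ≤ (h : ℚ) * n := by exact_mod_cast (by omega : m + 1 ≤ h * n)
      have h3 : (1 : ℚ) ≤ m := by exact_mod_cast hm.1
      apply AB.mul (by positivity) (by positivity) (by positivity) (pow_nonneg (by linarith) _)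
      · exact AB.pow zero_le_one (by positivity) (AB.linX (by linarith)) b
      · exact AB.pow zero_le_one (by linarith) (AB.linX (by linarith)) b
  have e4 : AB (∑ m ∈ ss h c n, ((mu h n ds m : ℚ) * 1))
      (∏ m ∈ ss h c n, ((t + m : ℚ)⁻¹) ^ mu h n ds m) (∏ m ∈ ss h c n, iv ((t : ℚ) + m) ^ mu h n ds m) := by
    apply AB.prod
    · intro i _; positivity
    · intro i _; positivity
    · intro m hm
      rw [ss, Finset.mem_Icc] at hm
      have h3 : (1 : ℚ) ≤ m := by exact_mod_cast (by omega : 1 ≤ m)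
      exact AB.pow zero_le_one (by positivity) (AB.iv (by linarith)) _
  have hc0 := cst_nonneg b h c n ds
  have n3 : 0 ≤ (∏ m ∈ Finset.Icc 1 (c * n), ((t + m : ℚ) ^ b * (t + (h * n - m) : ℚ) ^ b)) := by
    apply Finset.prod_nonneg
    intro m hm
    rw [Finset.mem_Icc] at hm
    have h1 : (m : ℚ) ≤ (h : ℚ) * n := by exact_mod_cast (by omega : m ≤ h * n)
    have h2 : (0 : ℚ) ≤ (h : ℚ) * n - m := by linarith
    positivity
  have e5 := AB.mul (by positivity) (by positivity) (by positivity) (by positivity)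
    (AB.mul (by positivity) (by positivity) (by positivity) n3
      (AB.mul le_rfl zero_le_one hc0 (by positivity) e1 e2) e3) e4
  have e6 := e5 β
  refine e6.trans (le_of_eq ?_)
  congr 2
  simp
  ring

end

end Pool.Agent.H337R2
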