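import Pool.Agent.H337R2.Crude2

/-!
# p-adic size of the linear form
-/

open Polynomial

namespace Pool.Agent.H337R2

noncomputable section

set_option linter.unusedSectionVars false

variable {p : ℕ} [hp : Fact p.Prime]

/-- the exponent `e_p(k)` -/
def ee (p b h c n : ℕ) (ds : List ℕ) (k : ℕ) : ℤ :=
  b * (n1 p h c n k : ℤ) - nq p h n ds k - 2 * b * ((c * n / p : ℕ) : ℤ)
    + ((ds.map fun d => (h - 2 * d) * n / p).sum : ℕ)

lemma norm_cst (b h c n : ℕ) (ds : List ℕ) (hp2 : h * n < p ^ 2) (h2 : ∀ d ∈ ds, 2 * d < h) (hch : c ≤ h) :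
    padicNorm p (cst b h c n ds) = (p : ℚ) ^ (2 * b * ((c * n / p : ℕ) : ℤ)
      - ((ds.map fun d => (h - 2 * d) * n / p).sum : ℕ) : ℤ) := by
  have hp0 : (p : ℚ) ≠ 0 := p_pos'.ne'
  unfold cst
  rw [padicNorm.div, padicNorm_pow', padicNorm_listprod]
  have h1 : padicNorm p (Nat.factorial (c * n) : ℚ) = (p : ℚ) ^ (-((c * n / p : ℕ) : ℤ)) :=
    norm_factorial (lt_of_le_of_lt (Nat.mul_le_mul_right n hch) hp2)
  rw [h1]
  have h3 : ∀ l : List ℕ, (∀ d ∈ l, 2 * d < h) →
      (l.map fun d => padicNorm p (Nat.factorial ((h - 2 * d) * n) : ℚ)).prod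
      = (p : ℚ) ^ (-(((l.map fun d => (h - 2 * d) * n / p).sum : ℕ) : ℤ)) := by
    intro l hl
    induction l with
    | nil => simp
    | cons d l ih =>
      simp only [List.map_cons, List.prod_cons, List.sum_cons]
      rw [ih (fun d' hd' => hl d' (List.mem_cons_of_mem _ hd')), norm_factorial (lt_of_le_of_lt (Nat.mul_le_mul_right n (Nat.sub_le _ _)) hp2),
        ← zpow_add₀ hp0]
      congr 1
      push_cast; ring
  rw [h3 ds h2, ← zpow_natCast, ← zpow_mul, ← zpow_sub₀ hp0]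
  congr 1
  push_cast; ring

theorem pa_bound_zpow (b h c n : ℕ) (ds : List ℕ) (hn : 1 ≤ n)
    (hc : ∀ d ∈ ds, c < d) (h2 : ∀ d ∈ ds, 2 * d < h) (hch : c < h) (hp2 : h * n < p ^ 2) {k : ℕ}
    (hk : k ∈ ss h c n) (i : ℕ) :
    padicNorm p (pa (ss h c n) (mu h n ds) (PP b h c n ds) k i) ≤ (p : ℚ) ^ (-(ee p b h c n ds k) - i : ℤ) := by
  have hp0 : (p : ℚ) ≠ 0 := p_pos'.ne'
  refine (pa_bound b h c n ds hn hc h2 hch hp2 hk i).trans (le_of_eq ?_)
  rw [norm_cst b h c n ds hp2 h2 hch.le]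
  rw [inv_pow, ← zpow_natCast, ← zpow_natCast, ← zpow_neg, ← zpow_add₀ hp0, ← zpow_add₀ hp0]
  congr 1
  unfold ee
  push_cast; ring

lemma hs_norm_small (e m : ℕ) (hm : m < p) : padicNorm p (hs e m) ≤ 1 := by
  unfold hs
  apply padicNorm.sum_le' _ zero_le_one
  intro l hl
  rw [Finset.mem_range] at hl
  rw [padicNorm.div, padicNorm.one, padicNorm_pow']
  have : padicNorm p ((l : ℚ) + 1) = 1 := by
    have := (padicNorm.nat_eq_one_iff (p := p) (l + 1)).2 (by
      intro h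
      have := Nat.le_of_dvd (by omega) h
      omega)
    push_cast at this
    exact this
  rw [this]; simp

lemma hs_norm_med (e m : ℕ) (hm : m < p ^ 2) : padicNorm p (hs e m) ≤ (p : ℚ) ^ e := by
  unfold hs
  have hp1 : (1 : ℚ) ≤ p := p_one'
  apply padicNorm.sum_le' _ (by positivity)
  intro l hl
  rw [Finset.mem_range] at hl
  rw [padicNorm.div, padicNorm.one, padicNorm_pow', one_div, ← inv_pow]
  apply pow_le_pow_left₀ (inv_nonneg.2 (padicNorm.nonneg _))
  have h1 := norm_small (p := p) (a := ((l + 1 : ℕ) : ℤ)) (by positivity) (by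
    rw [abs_of_nonneg (by positivity)]
    exact_mod_cast (by omega : l + 1 < p ^ 2))
  have h2 : (((l + 1 : ℕ) : ℤ) : ℚ) = (l : ℚ) + 1 := by push_cast; ring
  rw [h2] at h1
  rw [h1]
  split_ifs
  · simp
  · simpa using hp.out.one_lt.le

lemma hs_norm_crude (e m : ℕ) (M : ℚ) (hM : (m : ℚ) ≤ M) (hM1 : 1 ≤ M) : padicNorm p (hs e m) ≤ M ^ e := by
  unfold hs
  apply padicNorm.sum_le' _ (by positivity)
  intro l hl
  rw [Finset.mem_range] at hl
  rw [padicNorm.div, padicNorm.one, padicNorm_pow', one_div, ← inv_pow]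
  apply pow_le_pow_left₀ (inv_nonneg.2 (padicNorm.nonneg _))
  have := norm_inv_le (p := p) (a := ((l + 1 : ℕ) : ℤ)) (by positivity) (M := M) (by
    rw [abs_of_nonneg (by positivity)]
    push_cast
    refine le_trans ?_ hM
    exact_mod_cast (by omega : l + 1 ≤ m))
  push_cast at this
  exact this

/-- the linear form evaluated at rational numbers `u i` in place of the zeta values -/
def xform (b h c n : ℕ) (ds : List ℕ) (u : ℕ → ℚ) : ℚ :=
  ∑ i ∈ Finset.Icc 1 ds.length, ((-1) ^ (b - 1) * (Nat.choose (i - 1 + (b - 1)) (i - 1) : ℚ)) *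
    ((∑ k ∈ ss h c n, pa (ss h c n) (mu h n ds) (PP b h c n ds) k i) * u i -
      ∑ k ∈ ss h c n, pa (ss h c n) (mu h n ds) (PP b h c n ds) k i * hs (i + (b - 1)) (k - c * n - 1))

lemma xform_norm (b h c n : ℕ) (ds : List ℕ) (u : ℕ → ℚ) (W : ℚ) (hW : 0 ≤ W)
    (h1 : ∀ i ∈ Finset.Icc 1 ds.length, ∀ k ∈ ss h c n,
      padicNorm p (pa (ss h c n) (mu h n ds) (PP b h c n ds) k i) * padicNorm p (u i) ≤ W)
    (h2 : ∀ i ∈ Finset.Icc 1 ds.length, ∀ k ∈ ss h c n,
      padicNorm p (pa (ss h c n) (mu h n ds) (PP b h c n ds) k i) *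
        padicNorm p (hs (i + (b - 1)) (k - c * n - 1)) ≤ W) :
    padicNorm p (xform b h c n ds u) ≤ W := by
  unfold xform
  apply padicNorm.sum_le' _ hW
  intro i hi
  rw [padicNorm.mul]
  have e1 : padicNorm p ((-1) ^ (b - 1) * (Nat.choose (i - 1 + (b - 1)) (i - 1) : ℚ)) ≤ 1 := by
    have := padicNorm.of_int (p := p) ((-1) ^ (b - 1) * (Nat.choose (i - 1 + (b - 1)) (i - 1) : ℤ))
    push_cast at this
    exact this
  have e2 : padicNorm p ((∑ k ∈ ss h c n, pa (ss h c n) (mu h n ds) (PP b h c n ds) k i) * u i -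
      ∑ k ∈ ss h c n, pa (ss h c n) (mu h n ds) (PP b h c n ds) k i * hs (i + (b - 1)) (k - c * n - 1)) ≤ W := by
    refine padicNorm.sub.trans (max_le ?_ ?_)
    · rw [Finset.sum_mul]
      apply padicNorm.sum_le' _ hW
      intro k hk
      rw [padicNorm.mul]
      exact h1 i hi k hk
    · apply padicNorm.sum_le' _ hW
      intro k hk
      rw [padicNorm.mul]
      exact h2 i hi k hk
  calc _ ≤ 1 * W := mul_le_mul e1 e2 (padicNorm.nonneg _) zero_le_one
    _ = W := one_mul W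

/-- crude bound for all primes -/
theorem xform_crude (b h c n : ℕ) (ds : List ℕ) (hn : 1 ≤ n)
    (hc : ∀ d ∈ ds, c < d) (h2 : ∀ d ∈ ds, 2 * d < h) (hch : c < h) (u : ℕ → ℚ) (q : ℕ) (hq : 0 < q)
    (hu : ∀ i, ∃ z : ℤ, (q : ℚ) * u i = z) :
    padicNorm p (q * xform b h c n ds u) ≤ ((h * n + 1 : ℕ) : ℚ) ^ (4 * ds.length + b) := by
  set M : ℚ := ((h * n + 1 : ℕ) : ℚ) with hM
  have hM1 : 1 ≤ M := by rw [hM]; exact_mod_cast (by omega : 1 ≤ h * n + 1)
  have hq0 : 0 < padicNorm p (q : ℚ) :=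
    lt_of_le_of_ne (padicNorm.nonneg _) (Ne.symm (padicNorm.nonzero (by positivity)))
  have hq1 : padicNorm p (q : ℚ) ≤ 1 := padicNorm.of_nat q
  have hu2 : ∀ i, padicNorm p (u i) ≤ (padicNorm p (q : ℚ))⁻¹ := by
    intro i
    obtain ⟨z, hz⟩ := hu i
    have h1 : padicNorm p ((q : ℚ) * u i) ≤ 1 := by
      rw [hz]; exact padicNorm.of_int z
    rw [padicNorm.mul] at h1
    rw [← one_div, le_div_iff₀ hq0, mul_comm]
    exact h1
  rw [padicNorm.mul]
  have key : padicNorm p (xform b h c n ds u) ≤ M ^ (4 * ds.length + b) * (padicNorm p (q : ℚ))⁻¹ := by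
    apply xform_norm
    · positivity
    · intro i hi k hk
      have h3 := pa_crude (p := p) b h c n ds hn hc h2 hch hk i
      apply mul_le_mul _ (hu2 i) (padicNorm.nonneg _) (by positivity)
      refine h3.trans ?_
      exact pow_le_pow_right₀ hM1 (by omega)
    · intro i hi k hk
      rw [Finset.mem_Icc] at hi
      have h3 := pa_crude (p := p) b h c n ds hn hc h2 hch hk i
      have h4 := hs_norm_crude (p := p) (i + (b - 1)) (k - c * n - 1) M (by
        rw [ss, Finset.mem_Icc] at hk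
        rw [hM]; exact_mod_cast (by omega : k - c * n - 1 ≤ h * n + 1)) hM1
      calc _ ≤ M ^ (3 * ds.length) * M ^ (i + (b - 1)) := mul_le_mul h3 h4 (padicNorm.nonneg _) (by positivity)
        _ = M ^ (3 * ds.length + (i + (b - 1))) := by rw [pow_add M (3 * ds.length)]
        _ ≤ M ^ (4 * ds.length + b) := pow_le_pow_right₀ hM1 (by omega)
        _ = M ^ (4 * ds.length + b) * 1 := by ring
        _ ≤ _ := by
          apply mul_le_mul_of_nonneg_left _ (by positivity)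
          exact (one_le_inv₀ hq0).2 hq1
  calc _ ≤ padicNorm p (q : ℚ) * (M ^ (4 * ds.length + b) * (padicNorm p (q : ℚ))⁻¹) :=
        mul_le_mul_of_nonneg_left key hq0.le
    _ = _ := by field_simp

end

end Pool.Agent.H337R2
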