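import Pool.Agent.H337R2.Data

/-!
# Counting multiples and the main p-adic bound for concrete data
-/

open Polynomial

namespace Pool.Agent.H337R2

noncomputable section

set_option linter.unusedSectionVars false

/-- number of `m ∈ [A,B]` congruent to `k` mod `p` -/
def cnt (p A B k : ℕ) : ℕ := ((Finset.Icc A B).filter (fun m : ℕ => (p : ℤ) ∣ (m : ℤ) - k)).card

lemma succ_ediv' (p : ℤ) (hp : 0 < p) (a : ℤ) : (a + 1) / p = a / p + if p ∣ a + 1 then 1 else 0 := by
  split_ifs with h
  · obtain ⟨q, hq⟩ := h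
    have h1 : (a + 1) / p = q := by rw [hq]; exact Int.mul_ediv_cancel_left q hp.ne'
    have h2 : a / p = q - 1 := by
      have : a = (p - 1) + p * (q - 1) := by linarith
      rw [this, Int.add_mul_ediv_left _ _ hp.ne', Int.ediv_eq_zero_of_lt (by linarith) (by linarith)]
      ring
    rw [h1, h2]; ring
  · rw [add_zero]
    have h1 := Int.emod_add_mul_ediv a p
    have h2 := Int.emod_nonneg a hp.ne'
    have h3 := Int.emod_lt_of_pos a hp
    have h4 : a % p + 1 ≠ p := by
      intro h5
      apply h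
      refine ⟨a / p + 1, ?_⟩
      linarith
    have h6 : a + 1 = (a % p + 1) + p * (a / p) := by linarith
    rw [h6, Int.add_mul_ediv_left _ _ hp.ne', Int.ediv_eq_zero_of_lt (by linarith) (by omega)]
    ring

lemma cnt_eq (p A B k : ℕ) (hp : 0 < p) (hAB : A ≤ B + 1) :
    (cnt p A B k : ℤ) = ((B : ℤ) - k) / p - ((A : ℤ) - 1 - k) / p := by
  have hp' : (0 : ℤ) < p := by exact_mod_cast hp
  obtain ⟨N, hN⟩ : ∃ N, B + 1 = A + N := ⟨B + 1 - A, by omega⟩
  induction N generalizing B with
  | zero =>
    have : Finset.Icc A B = ∅ := Finset.Icc_eq_empty (by omega)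
    unfold cnt
    rw [this]
    have h1 : (B : ℤ) = A - 1 := by omega
    rw [h1]; simp
  | succ N ih =>
    rcases Nat.eq_zero_or_pos B with h0 | h0
    · -- B = 0, A + N = 0
      have hA : A = 0 := by omega
      subst h0; subst hA
      unfold cnt
      have h5 := succ_ediv' p hp' (-1 - k)
      have h6 : (-1 - (k : ℤ) + 1) = 0 - k := by ring
      rw [h6] at h5
      simp only [Finset.Icc_self, Nat.cast_zero]
      rw [h5, Finset.filter_singleton]
      push_cast
      split_ifs <;> simp_all
    · have h1 := ih (B - 1) (by omega) (by omega)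
      have h2 : Finset.Icc A B = insert B (Finset.Icc A (B - 1)) := by
        ext x; simp only [Finset.mem_Icc, Finset.mem_insert]; omega
      have h3 : ((B - 1 : ℕ) : ℤ) = B - 1 := by omega
      rw [h3] at h1
      have h5 := succ_ediv' p hp' ((B : ℤ) - 1 - k)
      have h6 : ((B : ℤ) - 1 - k + 1) = B - k := by ring
      rw [h6] at h5
      unfold cnt at h1 ⊢
      rw [h2, Finset.filter_insert]
      split_ifs with h
      · rw [Finset.card_insert_of_notMem (by simp; omega)]
        rw [if_pos h] at h5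
        push_cast
        rw [h1, h5]; ring
      · rw [if_neg h] at h5
        rw [h1, h5]; ring

variable {p : ℕ} [hp : Fact p.Prime]

lemma padicNorm_pow' (a : ℚ) (n : ℕ) : padicNorm p (a ^ n) = padicNorm p a ^ n := by
  induction n with
  | zero => simp
  | succ m ih => rw [pow_succ, pow_succ, padicNorm.mul, ih]

lemma padicNorm_prod' {ι : Type*} (s : Finset ι) (f : ι → ℚ) :
    padicNorm p (∏ i ∈ s, f i) = ∏ i ∈ s, padicNorm p (f i) := by
  classical
  induction s using Finset.induction_on with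
  | empty => simp
  | insert a s ha ih => rw [Finset.prod_insert ha, Finset.prod_insert ha, padicNorm.mul, ih]

lemma padicNorm_listprod {ι : Type*} (s : List ι) (f : ι → ℚ) :
    padicNorm p (s.map f).prod = (s.map fun i => padicNorm p (f i)).prod := by
  induction s with
  | nil => simp
  | cons a s ih => rw [List.map_cons, List.prod_cons, padicNorm.mul, ih, List.map_cons, List.prod_cons]

/-- `‖a‖ = p⁻¹` if `p ∣ a`, and `1` otherwise, for `0 < |a| < p^2` -/
lemma norm_small {a : ℤ} (ha : a ≠ 0) (hlt : |a| < (p : ℤ) ^ 2) :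
    padicNorm p (a : ℚ) = if (p : ℤ) ∣ a then (p : ℚ)⁻¹ else 1 := by
  split_ifs with h
  · obtain ⟨q, hq⟩ := h
    have hq0 : q ≠ 0 := by rintro rfl; simp at hq; exact ha hq
    have hpq : ¬ (p : ℤ) ∣ q := by
      rintro ⟨q', hq'⟩
      have hq'0 : q' ≠ 0 := by rintro rfl; simp at hq'; exact hq0 hq'
      have : a = (p : ℤ) ^ 2 * q' := by rw [hq, hq']; ring
      rw [this, abs_mul, abs_of_nonneg (by positivity : (0 : ℤ) ≤ (p : ℤ) ^ 2)] at hlt
      have h1 : 1 ≤ |q'| := Int.one_le_abs hq'0
      nlinarith [pow_pos (by exact_mod_cast hp.out.pos : (0 : ℤ) < p) 2]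
    rw [hq]
    push_cast
    rw [padicNorm.mul, padicNorm.padicNorm_p_of_prime, (padicNorm.int_eq_one_iff q).2 hpq, mul_one]
  · exact (padicNorm.int_eq_one_iff a).2 h

lemma norm_factorial {N : ℕ} (hN : N < p ^ 2) :
    padicNorm p (Nat.factorial N : ℚ) = (p : ℚ) ^ (-((N / p : ℕ) : ℤ)) := by
  rw [padicNorm.eq_zpow_of_nonzero (by exact_mod_cast Nat.factorial_ne_zero N)]
  have h1 : padicValRat p (Nat.factorial N : ℚ) = ((N / p : ℕ) : ℤ) := by
    rw [padicValRat.of_nat]
    have h2 : Nat.log p N < 2 := Nat.log_lt_of_lt_pow' (by norm_num) hN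
    rw [padicValNat_factorial h2]
    have : Finset.Ico 1 2 = {1} := by decide
    rw [this]
    simp
  rw [h1]

/-- number of zeros congruent to `k` -/
def n1 (p h c n k : ℕ) : ℕ := cnt p 1 (c * n) k + cnt p (h * n - c * n) (h * n - 1) k

/-- number of poles congruent to `k` -/
def nq (p h n : ℕ) (ds : List ℕ) (k : ℕ) : ℕ := (ds.map fun d => cnt p (d * n) (h * n - d * n) k).sum

lemma prod_ite_pow (s : Finset ℕ) (P : ℕ → Prop) [DecidablePred P] (a : ℚ) (f : ℕ → ℕ) :
    ∏ m ∈ s, (if P m then a else 1) ^ f m = a ^ (∑ m ∈ s, f m * if P m then 1 else 0) := by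
  rw [← Finset.prod_pow_eq_pow_sum]
  apply Finset.prod_congr rfl
  intro m _
  split_ifs <;> simp

end

end Pool.Agent.H337R2
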