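import Pool.Agent.H337R2.Data
import Pool.Agent.H337R2.Count

/-!
# Alternating linear forms attached to a rational function with half-integer zeros
-/

open Polynomial Filter Topology

namespace Pool.Agent.H337R2

noncomputable section

/-- The reflection symmetry of partial fraction coefficients, even case. -/
theorem pfc_reflect' (s : Finset ℕ) (μ : ℕ → ℕ) (P : ℚ[X]) (H : ℕ)
    (hsH : ∀ k ∈ s, k ≤ H ∧ H - k ∈ s) (hμ : ∀ k ∈ s, μ (H - k) = μ k)
    (hP : P.comp (-X - C (H : ℚ)) = P) (hev : Even (∑ m ∈ s, μ m)) {k : ℕ} (hk : k ∈ s)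
    {j : ℕ} (hj : j < μ k) :
    pfc s μ P (H - k) j = (-1) ^ (μ k - j) * pfc s μ P k j := by
  have hkH := (hsH k hk).1
  have hVV : VV (s.erase (H - k)) μ (-((H - k : ℕ) : ℚ))
      = (-1) ^ (∑ m ∈ s.erase k, μ m) * PowerSeries.rescale (-1 : ℚ) (VV (s.erase k) μ (-(k : ℚ))) := by
    unfold VV
    rw [map_prod, ← Finset.prod_pow_eq_pow_sum, ← Finset.prod_mul_distrib]
    symm
    apply Finset.prod_bij (fun m _ => H - m)
    · intro m hm
      rw [Finset.mem_erase] at hm ⊢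
      have := hsH m hm.2
      refine ⟨?_, this.2⟩
      intro h
      apply hm.1; omega
    · intro m1 hm1 m2 hm2 h
      rw [Finset.mem_erase] at hm1 hm2
      have := hsH m1 hm1.2
      have := hsH m2 hm2.2
      omega
    · intro m hm
      rw [Finset.mem_erase] at hm
      have := hsH m hm.2
      refine ⟨H - m, ?_, by omega⟩
      rw [Finset.mem_erase]
      refine ⟨?_, this.2⟩
      intro h
      apply hm.1; omega
    · intro m hm
      rw [Finset.mem_erase] at hm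
      have h1 := hsH m hm.2
      rw [hμ m hm.2, map_pow, ← mul_pow]
      congr 1
      have h2 : -((H - k : ℕ) : ℚ) + ((H - m : ℕ) : ℚ) = -(-(k : ℚ) + m) := by
        rw [Nat.cast_sub hkH, Nat.cast_sub h1.1]; ring
      rw [h2, iv_neg]
      simp
  have hT : TS (-((H - k : ℕ) : ℚ)) P = PowerSeries.rescale (-1 : ℚ) (TS (-(k : ℚ)) P) := by
    have h2 : -((H - k : ℕ) : ℚ) = -(H : ℚ) - (-(k : ℚ)) := by
      rw [Nat.cast_sub hkH]; ring
    rw [h2, TS_reflect, hP]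
  have hsum : ∑ m ∈ s, μ m = μ k + ∑ m ∈ s.erase k, μ m := (Finset.add_sum_erase s μ hk).symm
  unfold pfc
  rw [hVV, hT]
  have h3 : (PowerSeries.rescale (-1 : ℚ)) (TS (-(k : ℚ)) P) * ((-1) ^ (∑ m ∈ s.erase k, μ m) *
      (PowerSeries.rescale (-1 : ℚ)) (VV (s.erase k) μ (-(k : ℚ))))
      = PowerSeries.C ((-1 : ℚ) ^ (∑ m ∈ s.erase k, μ m)) * PowerSeries.rescale (-1 : ℚ)
        (TS (-(k : ℚ)) P * VV (s.erase k) μ (-(k : ℚ))) := by
    rw [map_mul, map_pow]
    simp only [map_neg, map_one]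
    ring
  rw [h3, PowerSeries.coeff_C_mul, PowerSeries.coeff_rescale]
  rw [hsum] at hev
  have h4 : ((-1 : ℚ)) ^ (∑ m ∈ s.erase k, μ m) * (-1) ^ j = (-1) ^ (μ k - j) := by
    rw [← pow_add]
    have h5 : Even ((∑ m ∈ s.erase k, μ m) + j + (μ k - j)) := by
      convert hev using 1; omega
    have h6 : ((-1 : ℚ)) ^ ((∑ m ∈ s.erase k, μ m) + j + (μ k - j)) = 1 := h5.neg_one_pow
    rw [pow_add] at h6
    rcases neg_one_pow_eq_or ℚ (μ k - j) with h | h <;> rw [h] at h6 ⊢ <;> linarith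
  calc _ = ((-1 : ℚ) ^ (∑ m ∈ s.erase k, μ m) * (-1) ^ j) *
        (PowerSeries.coeff j) (TS (-(k : ℚ)) P * VV (s.erase k) μ (-(k : ℚ))) := by ring
    _ = _ := by rw [h4]

theorem odd_vanish (s : Finset ℕ) (μ : ℕ → ℕ) (P : ℚ[X]) (H : ℕ) (hH : Even H)
    (hsH : ∀ k ∈ s, k ≤ H ∧ H - k ∈ s) (hμ : ∀ k ∈ s, μ (H - k) = μ k)
    (hP : P.comp (-X - C (H : ℚ)) = P) (hev : Even (∑ m ∈ s, μ m)) {i : ℕ} (hi : Odd i) :
    ∑ k ∈ s, (-1) ^ k * pa s μ P k i = 0 := by
  have h1 : ∑ k ∈ s, (-1) ^ k * pa s μ P k i = ∑ k ∈ s, (-1) ^ (H - k) * pa s μ P (H - k) i := by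
    apply Finset.sum_bij (fun m _ => H - m)
    · intro m hm; exact (hsH m hm).2
    · intro m1 hm1 m2 hm2 h
      have := hsH m1 hm1
      have := hsH m2 hm2
      omega
    · intro m hm
      have := hsH m hm
      exact ⟨H - m, this.2, by omega⟩
    · intro m hm
      have := hsH m hm
      rw [show H - (H - m) = m by omega]
  have h2 : ∀ k ∈ s, (-1) ^ (H - k) * pa s μ P (H - k) i = - ((-1) ^ k * pa s μ P k i) := by
    intro k hk
    have hs : ((-1 : ℚ)) ^ (H - k) = (-1) ^ k := by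
      have hkH := (hsH k hk).1
      have h5 : Even ((H - k) + k) := by
        convert hH using 1; omega
      have h6 : ((-1 : ℚ)) ^ ((H - k) + k) = 1 := h5.neg_one_pow
      rw [pow_add] at h6
      rcases neg_one_pow_eq_or ℚ k with h | h <;> rw [h] at h6 ⊢ <;> linarith
    rw [hs]
    unfold pa
    rw [hμ k hk]
    split_ifs with h
    · rw [pfc_reflect' s μ P H hsH hμ hP hev hk (by have := hi.pos; omega)]
      rw [show μ k - (μ k - i) = i by omega, hi.neg_one_pow]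
      ring
    · simp
  rw [Finset.sum_congr rfl h2, Finset.sum_neg_distrib] at h1
  linarith

/-- the terms -/
def fz (i : ℕ) (l : ℤ) : ℚ := (-1) ^ l.natAbs / ((l : ℚ) + 1 / 2) ^ i

/-- alternating partial sums, indexed by integers -/
def bsZ (i : ℕ) (s : ℤ) : ℚ := ∑ l ∈ Finset.Ico 0 s, fz i l - ∑ l ∈ Finset.Ico s 0, fz i l

lemma bsZ_succ (i : ℕ) (s : ℤ) : bsZ i (s + 1) = bsZ i s + fz i s := by
  unfold bsZ
  rcases le_or_gt 0 s with h | h
  · have e1 : Finset.Ico (s + 1) 0 = ∅ := Finset.Ico_eq_empty (by omega)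
    have e2 : Finset.Ico s 0 = ∅ := Finset.Ico_eq_empty (by omega)
    have e3 : Finset.Ico 0 (s + 1) = insert s (Finset.Ico 0 s) := by
      ext x; simp only [Finset.mem_Ico, Finset.mem_insert]; omega
    rw [e1, e2, e3, Finset.sum_insert (by simp)]
    simp; ring
  · have e1 : Finset.Ico 0 (s + 1) = ∅ := Finset.Ico_eq_empty (by omega)
    have e2 : Finset.Ico 0 s = ∅ := Finset.Ico_eq_empty (by omega)
    have e3 : Finset.Ico s 0 = insert s (Finset.Ico (s + 1) 0) := by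
      ext x; simp only [Finset.mem_Ico, Finset.mem_insert]; omega
    rw [e1, e2, e3, Finset.sum_insert (by simp)]
    simp

lemma sum_fz (i : ℕ) (s : ℤ) (T : ℕ) : ∑ m ∈ Finset.range T, fz i (s + m) = bsZ i (s + T) - bsZ i s := by
  induction T with
  | zero => simp
  | succ T ih =>
    rw [Finset.sum_range_succ, ih]
    have e : s + ((T + 1 : ℕ) : ℤ) = (s + T) + 1 := by push_cast; ring
    rw [e, bsZ_succ]
    ring

lemma bsZ_nat (i : ℕ) (T : ℕ) : (bsZ i T : ℚ) = ∑ l ∈ Finset.range T, (-1) ^ l / ((l : ℚ) + 1 / 2) ^ i := by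
  have h := sum_fz i 0 T
  simp only [zero_add] at h
  have h0 : bsZ i 0 = 0 := by simp [bsZ]
  rw [h0, sub_zero] at h
  rw [← h]
  apply Finset.sum_congr rfl
  intro l _
  unfold fz
  simp

/-- limit of the alternating series -/
lemma bsZ_tendsto (i : ℕ) (hi : 1 ≤ i) : ∃ lam : ℝ, Tendsto (fun T : ℕ => ((bsZ i T : ℚ) : ℝ)) atTop (𝓝 lam) := by
  have hanti : Antitone (fun l : ℕ => 1 / ((l : ℝ) + 1 / 2) ^ i) := by
    intro a b hab
    have : (a : ℝ) ≤ b := by exact_mod_cast hab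
    apply one_div_le_one_div_of_le (by positivity)
    apply pow_le_pow_left₀ (by positivity)
    linarith
  have hlim : Tendsto (fun l : ℕ => 1 / ((l : ℝ) + 1 / 2) ^ i) atTop (𝓝 0) := by
    have h1 : Tendsto (fun l : ℕ => (l : ℝ) + 1 / 2) atTop atTop :=
      tendsto_atTop_add_const_right _ _ tendsto_natCast_atTop_atTop
    have h2 := (tendsto_pow_atTop (α := ℝ) (n := i) (by omega)).comp h1
    have h3 := h2.inv_tendsto_atTop
    refine h3.congr fun l => ?_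
    simp
  obtain ⟨lam, hlam⟩ := cauchySeq_tendsto_of_complete (hanti.cauchySeq_alternating_series_of_tendsto_zero hlim)
  refine ⟨lam, hlam.congr fun T => ?_⟩
  rw [bsZ_nat]
  push_cast
  apply Finset.sum_congr rfl
  intro l _
  ring

/-- the limit -/
def lamB (i : ℕ) : ℝ := if h : 1 ≤ i then (bsZ_tendsto i h).choose else 0

lemma lamB_spec {i : ℕ} (hi : 1 ≤ i) (s : ℤ) : Tendsto (fun T : ℕ => ((bsZ i (s + T) : ℚ) : ℝ)) atTop (𝓝 (lamB i)) := by
  have h1 : Tendsto (fun T : ℕ => ((bsZ i T : ℚ) : ℝ)) atTop (𝓝 (lamB i)) := by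
    unfold lamB
    rw [dif_pos hi]
    exact (bsZ_tendsto i hi).choose_spec
  rcases le_or_gt 0 s with h | h
  · obtain ⟨m, rfl⟩ := Int.eq_ofNat_of_zero_le h
    have h2 := (tendsto_add_atTop_iff_nat (f := fun T : ℕ => ((bsZ i T : ℚ) : ℝ)) m).2 h1
    refine h2.congr fun T => ?_
    push_cast
    rw [add_comm]
  · obtain ⟨m, hm⟩ : ∃ m : ℕ, s = -(m : ℤ) := ⟨s.natAbs, by omega⟩
    rw [← tendsto_add_atTop_iff_nat m]
    refine h1.congr fun T => ?_
    rw [hm]
    congr 3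
    push_cast
    ring

/-- the series of the even beta values -/
lemma lamB_even {i : ℕ} (hi : 2 ≤ i) :
    lamB i = 2 ^ i * ∑' n : ℕ, (-1 : ℝ) ^ n / (2 * n + 1) ^ i := by
  have hs : Summable (fun n : ℕ => (-1 : ℝ) ^ n / (2 * n + 1) ^ i) := by
    apply Summable.of_norm_bounded (g := fun n : ℕ => 1 / ((n : ℝ) + 1) ^ i)
    · have := (Real.summable_one_div_nat_pow (p := i)).2 (by omega)
      have h2 := (summable_nat_add_iff 1).2 this
      simpa using h2
    · intro n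
      rw [norm_div, norm_pow, norm_neg, norm_one, one_pow, norm_pow]
      apply one_div_le_one_div_of_le (by positivity)
      apply pow_le_pow_left₀ (by positivity)
      rw [Real.norm_eq_abs, abs_of_nonneg (by positivity)]
      have : (0 : ℝ) ≤ n := by positivity
      linarith
  have h1 := (hs.hasSum.mul_left (2 ^ i)).tendsto_sum_nat
  have h2 := lamB_spec (i := i) (by omega) 0
  simp only [zero_add] at h2
  refine tendsto_nhds_unique h2 (h1.congr fun T => ?_)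
  rw [bsZ_nat]
  push_cast
  apply Finset.sum_congr rfl
  intro l _
  have e : (2 * (l : ℝ) + 1) = 2 * (l + 1 / 2) := by ring
  rw [e, mul_pow]
  have h3 : (2 : ℝ) ^ i ≠ 0 := by positivity
  have h4 : ((l : ℝ) + 1 / 2) ^ i ≠ 0 := by positivity
  field_simp

/-- value of the rational function -/
def Rv (s : Finset ℕ) (μ : ℕ → ℕ) (P : ℚ[X]) (c : ℚ) : ℚ := PowerSeries.coeff 0 (RS s μ P c)

lemma Rv_eq (s : Finset ℕ) (μ : ℕ → ℕ) (P : ℚ[X])
    (hdeg : P.degree < (QQ s μ).degree) (c : ℚ) (hc : ∀ m ∈ s, c + (m : ℚ) ≠ 0) (r : ℕ) (hr : ∀ k ∈ s, μ k ≤ r) :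
    Rv s μ P c = ∑ k ∈ s, ∑ i ∈ Finset.Icc 1 r, pa s μ P k i / (c + k) ^ i := by
  unfold Rv
  rw [coeff_RS s μ P hdeg c hc 0]
  apply Finset.sum_congr rfl
  intro k hk
  have h1 : ∑ i ∈ Finset.Icc 1 r, pa s μ P k i / (c + k) ^ i = ∑ i ∈ Finset.Icc 1 (μ k), pa s μ P k i / (c + k) ^ i := by
    symm
    apply Finset.sum_subset
    · intro i hi
      have := hr k hk
      rw [Finset.mem_Icc] at *
      omega
    · intro i hi hi2
      rw [Finset.mem_Icc] at *
      have : ¬ i ≤ μ k := by omega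
      simp [pa, this]
  rw [h1]
  have h2 : Finset.Icc 1 (μ k) = Finset.Ico 1 (μ k + 1) := by
    ext; simp
  rw [h2, Finset.sum_Ico_eq_sum_range, ← Finset.sum_range_reflect]
  apply Finset.sum_congr (by simp)
  intro j hj
  rw [Finset.mem_range] at hj
  have h3 : 1 + j ≤ μ k := by omega
  simp only [pa, h3, if_true]
  have e1 : μ k - (1 + j) = μ k - 1 - j := by omega
  have e2 : μ k - (μ k - 1 - j) = 1 + j := by omega
  rw [e1, e2, add_zero, add_zero, add_tsub_cancel_left, Nat.choose_self]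
  simp
  ring

/-- the alternating linear form -/
theorem linear_formB (s : Finset ℕ) (μ : ℕ → ℕ) (P : ℚ[X])
    (hdeg : P.degree < (QQ s μ).degree) (N r : ℕ) (hr : ∀ k ∈ s, μ k ≤ r)
    (hz : ∀ m : ℕ, m < N → Rv s μ P ((m : ℚ) - N + 1 / 2) = 0) (F : ℝ)
    (hF : HasSum (fun t : ℕ => (-1 : ℝ) ^ t * ((Rv s μ P ((t : ℚ) + 1 / 2) : ℚ) : ℝ)) F) :
    F = ∑ i ∈ Finset.Icc 1 r, (((∑ k ∈ s, (-1) ^ k * pa s μ P k i : ℚ) : ℝ) * lamB i -
      ((∑ k ∈ s, (-1) ^ k * (pa s μ P k i * bsZ i ((k : ℤ) - N)) : ℚ) : ℝ)) := by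
  have hne : ∀ (c : ℤ), ∀ m ∈ s, ((c : ℚ) + 1 / 2) + (m : ℚ) ≠ 0 := by
    intro c m _ h
    have h1 : (2 * (c : ℚ) + 1 + 2 * m) = 0 := by linarith
    have h2 : (2 * c + 1 + 2 * m : ℤ) = 0 := by exact_mod_cast h1
    omega
  -- partial sums
  have hps : ∀ T : ℕ, ∑ t ∈ Finset.range T, (-1 : ℚ) ^ t * Rv s μ P ((t : ℚ) + 1 / 2) =
      ∑ i ∈ Finset.Icc 1 r, ∑ k ∈ s, (-1) ^ k * (pa s μ P k i * (bsZ i ((k : ℤ) + T) - bsZ i ((k : ℤ) - N))) := by
    intro T
    have h1 : ∑ t ∈ Finset.range T, (-1 : ℚ) ^ t * Rv s μ P ((t : ℚ) + 1 / 2) =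
        ∑ m ∈ Finset.range (N + T), (-1 : ℚ) ^ (m + N) * Rv s μ P ((m : ℚ) - N + 1 / 2) := by
      rw [Finset.sum_range_add]
      have h2 : ∑ m ∈ Finset.range N, (-1 : ℚ) ^ (m + N) * Rv s μ P ((m : ℚ) - N + 1 / 2) = 0 :=
        Finset.sum_eq_zero fun m hm => by rw [hz m (Finset.mem_range.1 hm), mul_zero]
      rw [h2, zero_add]
      apply Finset.sum_congr rfl
      intro t _
      have e1 : (((N + t : ℕ) : ℚ)) - N + 1 / 2 = (t : ℚ) + 1 / 2 := by push_cast; ring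
      have e2 : ((-1 : ℚ)) ^ (N + t + N) = (-1) ^ t := by
        rw [show N + t + N = t + 2 * N by ring, pow_add, pow_mul]; simp
      rw [e1, e2]
    rw [h1]
    have h3 : ∀ m ∈ Finset.range (N + T), (-1 : ℚ) ^ (m + N) * Rv s μ P ((m : ℚ) - N + 1 / 2) =
        ∑ i ∈ Finset.Icc 1 r, ∑ k ∈ s, (-1) ^ k * (pa s μ P k i * fz i (((k : ℤ) - N) + m)) := by
      intro m _
      have e1 : ((m : ℚ) - N + 1 / 2) = ((((m : ℤ) - N : ℤ) : ℚ) + 1 / 2) := by push_cast; ring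
      rw [e1, Rv_eq s μ P hdeg _ (hne _) r hr, Finset.mul_sum, Finset.sum_comm]
      apply Finset.sum_congr rfl
      intro k _
      rw [Finset.mul_sum]
      apply Finset.sum_congr rfl
      intro i _
      unfold fz
      have e2 : ((((k : ℤ) - N + m : ℤ) : ℚ) + 1 / 2) = ((((m : ℤ) - N : ℤ) : ℚ) + 1 / 2 + k) := by push_cast; ring
      rw [e2]
      have e3 : (-1 : ℚ) ^ (m + N) = (-1) ^ k * (-1) ^ ((k : ℤ) - N + m).natAbs := by
        rw [← pow_add]
        apply neg_one_pow_congr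
        have h4 : (((k : ℤ) - N + m).natAbs % 2 : ℕ) = ((k + N + m) % 2 : ℕ) := by omega
        rw [Nat.even_iff, Nat.even_iff]
        omega
      rw [e3]
      ring
    rw [Finset.sum_congr rfl h3, Finset.sum_comm]
    apply Finset.sum_congr rfl
    intro i _
    rw [Finset.sum_comm]
    apply Finset.sum_congr rfl
    intro k _
    rw [← Finset.mul_sum, ← Finset.mul_sum, sum_fz]
    congr 3
    push_cast
    congr 1
    ring
  have hlim := hF.tendsto_sum_nat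
  refine tendsto_nhds_unique hlim ?_
  have h5 : ∀ T : ℕ, ∑ t ∈ Finset.range T, (-1 : ℝ) ^ t * ((Rv s μ P ((t : ℚ) + 1 / 2) : ℚ) : ℝ) =
      ∑ i ∈ Finset.Icc 1 r, ∑ k ∈ s, ((-1 : ℝ) ^ k * (((pa s μ P k i : ℚ) : ℝ) * (((bsZ i ((k : ℤ) + T) : ℚ) : ℝ) - ((bsZ i ((k : ℤ) - N) : ℚ) : ℝ)))) := by
    intro T
    have := congrArg (fun x : ℚ => (x : ℝ)) (hps T)
    push_cast at this ⊢
    exact this
  simp only [h5]
  apply tendsto_finsetSum
  intro i hi
  rw [Finset.mem_Icc] at hi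
  have h6 : (((∑ k ∈ s, (-1) ^ k * pa s μ P k i : ℚ) : ℝ) * lamB i -
      ((∑ k ∈ s, (-1) ^ k * (pa s μ P k i * bsZ i ((k : ℤ) - N)) : ℚ) : ℝ)) =
      ∑ k ∈ s, ((-1 : ℝ) ^ k * (((pa s μ P k i : ℚ) : ℝ) * (lamB i - ((bsZ i ((k : ℤ) - N) : ℚ) : ℝ)))) := by
    push_cast
    rw [Finset.sum_mul, ← Finset.sum_sub_distrib]
    apply Finset.sum_congr rfl
    intro k _
    ring
  rw [h6]
  apply tendsto_finsetSum
  intro k _
  exact ((lamB_spec hi.1 (k : ℤ)).sub_const _).const_mul _ |>.const_mul _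

end

end Pool.Agent.H337R2
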