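import Pool.Agent.H337R2.Bt1
import Pool.Agent.H337R2.Arch2

/-!
# The concrete rational function with half-integer zeros
-/

open Polynomial Filter Topology

namespace Pool.Agent.H337R2

noncomputable section

/-- normalising constant -/
def cstB (h n : ℕ) (ds : List ℕ) : ℚ :=
  2 ^ (h * n) * (ds.map fun d => (Nat.factorial ((h - 2 * d) * n) : ℚ)).prod / (Nat.factorial (h * n) : ℚ)

/-- the numerator -/
def PPB (h n : ℕ) (ds : List ℕ) : ℚ[X] :=
  C (cstB h n ds) * ∏ m ∈ Finset.Icc 1 (h * n), (2 * X + C (2 * (m : ℚ) - 1))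

lemma PPB_comp (h n : ℕ) (ds : List ℕ) (hev : Even (h * n)) :
    (PPB h n ds).comp (-X - C ((h * n : ℕ) : ℚ)) = PPB h n ds := by
  unfold PPB
  rw [Polynomial.mul_comp, Polynomial.C_comp, Polynomial.prod_comp]
  congr 1
  have h2 : ∀ m ∈ Finset.Icc 1 (h * n), (2 * X + C (2 * (m : ℚ) - 1) : ℚ[X]).comp (-X - C ((h * n : ℕ) : ℚ)) =
      -1 * (2 * X + C (2 * (((h * n + 1 - m : ℕ) : ℚ)) - 1)) := by
    intro m hm
    rw [Finset.mem_Icc] at hm
    simp only [Polynomial.add_comp, Polynomial.mul_comp, Polynomial.X_comp, Polynomial.C_comp, Polynomial.ofNat_comp]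
    rw [Nat.cast_sub (by omega)]
    push_cast
    simp only [map_sub, map_mul, map_add, map_ofNat, map_one, map_natCast]
    ring
  rw [Finset.prod_congr rfl h2, Finset.prod_mul_distrib, Finset.prod_const, Nat.card_Icc]
  have h3 : ((-1 : ℚ[X])) ^ (h * n + 1 - 1) = 1 := by
    rw [Nat.add_sub_cancel]; exact hev.neg_one_pow
  rw [h3, one_mul]
  apply Finset.prod_bij (fun m _ => h * n + 1 - m)
  · intro m hm; rw [Finset.mem_Icc] at *; omega
  · intro a ha b hb hab; rw [Finset.mem_Icc] at ha hb; omega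
  · intro m hm
    rw [Finset.mem_Icc] at hm
    exact ⟨h * n + 1 - m, by rw [Finset.mem_Icc]; omega, by omega⟩
  · intro m _; rfl

lemma PPB_natDegree_le (h n : ℕ) (ds : List ℕ) : (PPB h n ds).natDegree ≤ h * n := by
  unfold PPB
  refine (Polynomial.natDegree_C_mul_le _ _).trans ?_
  refine (Polynomial.natDegree_prod_le _ _).trans ?_
  calc _ ≤ ∑ m ∈ Finset.Icc 1 (h * n), 1 := by
        apply Finset.sum_le_sum
        intro m _
        compute_degree
    _ = _ := by simp

lemma degB_lt (h n : ℕ) (ds : List ℕ) (hn : 1 ≤ n)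
    (hc : ∀ d ∈ ds, 0 < d) (h2 : ∀ d ∈ ds, 2 * d < h) (hlen : 2 ≤ ds.length)
    (hdeg : h ≤ (ds.map fun d => h - 2 * d).sum) :
    (PPB h n ds).degree < (QQ (ss h 0 n) (mu h n ds)).degree := by
  have h0 := PPB_natDegree_le h n ds
  have h3 : (ds.map fun d => (h - 2 * d) * n + 1).sum = (ds.map fun d => h - 2 * d).sum * n + ds.length := by
    clear hlen hdeg hc h2
    induction ds with
    | nil => simp
    | cons d l ih =>
      have := ih (PPB_natDegree_le h n l)
      simp only [List.map_cons, List.sum_cons, List.length_cons]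
      rw [this]; ring
  have h4 : (QQ (ss h 0 n) (mu h n ds)).natDegree = (ds.map fun d => h - 2 * d).sum * n + ds.length := by
    rw [QQ_natDegree, sum_mu_one h 0 n ds hn hc h2, h3]
  have h5 : h * n ≤ (ds.map fun d => h - 2 * d).sum * n := Nat.mul_le_mul_right n hdeg
  rw [Polynomial.degree_eq_natDegree (QQ_monic _ _).ne_zero]
  exact lt_of_le_of_lt Polynomial.degree_le_natDegree (by exact_mod_cast (by omega))

lemma constCoeff_TSB (c : ℚ) (P : ℚ[X]) : PowerSeries.constantCoeff (TS c P) = P.eval c := by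
  have h : (PowerSeries.constantCoeff (R := ℚ)).comp (TS c) = Polynomial.evalRingHom c := by
    apply Polynomial.ringHom_ext
    · intro a
      simp [TS_C]
    · simp [TS_X]
  have := congrArg (fun f : ℚ[X] →+* ℚ => f P) h
  simpa using this

lemma constCoeff_ivB (a : ℚ) : PowerSeries.constantCoeff (iv a) = a⁻¹ := by
  rw [← PowerSeries.coeff_zero_eq_constantCoeff_apply]
  simp [iv]

lemma Rv_val (s : Finset ℕ) (μ : ℕ → ℕ) (P : ℚ[X]) (c : ℚ) :
    Rv s μ P c = P.eval c * ∏ m ∈ s, ((c + m)⁻¹) ^ μ m := by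
  unfold Rv RS VV
  rw [PowerSeries.coeff_zero_eq_constantCoeff_apply, map_mul, constCoeff_TSB, map_prod]
  congr 1
  apply Finset.prod_congr rfl
  intro m _
  rw [map_pow, constCoeff_ivB]

lemma RvB_zero (h n : ℕ) (ds : List ℕ) (N : ℕ) (hN : N ≤ h * n) (m : ℕ) (hm : m < N) :
    Rv (ss h 0 n) (mu h n ds) (PPB h n ds) ((m : ℚ) - N + 1 / 2) = 0 := by
  rw [Rv_val]
  have h1 : (PPB h n ds).eval ((m : ℚ) - N + 1 / 2) = 0 := by
    unfold PPB
    rw [Polynomial.eval_mul, Polynomial.eval_prod]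
    apply mul_eq_zero_of_right
    apply Finset.prod_eq_zero (i := N - m) (Finset.mem_Icc.2 ⟨by omega, by omega⟩)
    simp only [Polynomial.eval_add, Polynomial.eval_mul, Polynomial.eval_ofNat, Polynomial.eval_X, Polynomial.eval_C]
    rw [Nat.cast_sub hm.le]
    ring
  rw [h1, zero_mul]

/-- the value at half-integers -/
lemma RvB_val (h n : ℕ) (ds : List ℕ) (hn : 1 ≤ n)
    (hc : ∀ d ∈ ds, 0 < d) (h2 : ∀ d ∈ ds, 2 * d < h) (t : ℕ) :
    Rv (ss h 0 n) (mu h n ds) (PPB h n ds) ((t : ℚ) + 1 / 2) =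
      4 ^ (h * n) * (Nat.choose (t + h * n) (h * n) : ℚ) *
      (ds.map fun d => (Nat.factorial ((h - 2 * d) * n) : ℚ) *
        ∏ m ∈ Finset.Icc (d * n) (h * n - d * n), ((t : ℚ) + 1 / 2 + m)⁻¹).prod := by
  rw [Rv_val, prod_mu h 0 n ds hn hc h2]
  unfold PPB
  rw [Polynomial.eval_mul, Polynomial.eval_prod, Polynomial.eval_C]
  have h1 : ∀ m ∈ Finset.Icc 1 (h * n), (2 * X + C (2 * (m : ℚ) - 1) : ℚ[X]).eval ((t : ℚ) + 1 / 2) = 2 * ((t : ℚ) + m) := by
    intro m _
    simp only [Polynomial.eval_add, Polynomial.eval_mul, Polynomial.eval_ofNat, Polynomial.eval_X, Polynomial.eval_C]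
    ring
  rw [Finset.prod_congr rfl h1, Finset.prod_mul_distrib, Finset.prod_const, Nat.card_Icc, Nat.add_sub_cancel]
  have h3 : (∏ m ∈ Finset.Icc 1 (h * n), ((t : ℚ) + m)) = (Nat.choose (t + h * n) (h * n) : ℚ) * (Nat.factorial (h * n) : ℚ) := by
    have e1 : ∀ L : ℕ, (∏ m ∈ Finset.Icc 1 L, ((t : ℚ) + m)) * (Nat.factorial t : ℚ) = Nat.factorial (t + L) := by
      intro L
      induction L with
      | zero => simp
      | succ L ih =>
        rw [Finset.prod_Icc_succ_top (by omega), ← add_assoc, Nat.factorial_succ]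
        push_cast
        rw [← ih]; ring
    have e2 : (Nat.factorial t : ℚ) ≠ 0 := by exact_mod_cast Nat.factorial_ne_zero t
    have e3 : ((t + h * n).choose (h * n) * Nat.factorial (h * n) * Nat.factorial t : ℚ) = Nat.factorial (t + h * n) := by
      have := Nat.choose_mul_factorial_mul_factorial (show h * n ≤ t + h * n by omega)
      rw [Nat.add_sub_cancel] at this
      exact_mod_cast this
    have e4 := e1 (h * n)
    rw [← e3] at e4
    exact mul_right_cancel₀ e2 e4
  rw [h3]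
  unfold cstB
  have h4 : (Nat.factorial (h * n) : ℚ) ≠ 0 := by exact_mod_cast Nat.factorial_ne_zero _
  rw [List.prod_map_mul]
  have h5 : (4 : ℚ) ^ (h * n) = 2 ^ (h * n) * 2 ^ (h * n) := by rw [← mul_pow]; norm_num
  rw [h5]
  field_simp

/-- the growth function -/
def gB (h : ℕ) (ds : List ℕ) (τ : ℝ) : ℝ :=
  2 * h * Real.log 2 + (xl (τ + h) - xl τ - xl h) +
    (ds.map fun d : ℕ => xl ((h : ℝ) - 2 * d) + xl (τ + d) - xl (τ + h - d)).sum

lemma gB_scale (h : ℕ) (ds : List ℕ) (h2 : ∀ d ∈ ds, 2 * d < h) (n : ℕ) (hn : 1 ≤ n) (t : ℕ) :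
    2 * h * n * Real.log 2 + (xl (t + h * n) - xl t - xl (h * n)) +
    (ds.map fun d : ℕ => xl (((h : ℝ) - 2 * d) * n) + xl (t + d * n) - xl (t + h * n - d * n)).sum
      = n * gB h ds (t / n) := by
  have hn0 : (0 : ℝ) < n := by exact_mod_cast hn
  have ht0 : (0 : ℝ) ≤ (t : ℝ) / n := by positivity
  have key : ∀ x : ℝ, 0 ≤ x → ∀ y : ℝ, y = n * x → xl y = n * xl x + y * Real.log n := by
    intro x hx y hy
    rw [hy, xl_scale hn0 hx]
  have e1 := key ((t : ℝ) / n + h) (by positivity) (t + h * n) (by field_simp)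
  have e2 := key ((t : ℝ) / n) (by positivity) t (by field_simp)
  have e3 := key (h : ℝ) (by positivity) (h * n) (by ring)
  unfold gB
  rw [e1, e2, e3]
  have e6 : (ds.map fun d : ℕ => xl (((h : ℝ) - 2 * d) * n) + xl (t + d * n) - xl (t + h * n - d * n)).sum
      = n * (ds.map fun d : ℕ => xl ((h : ℝ) - 2 * d) + xl ((t : ℝ) / n + d) - xl ((t : ℝ) / n + h - d)).sum := by
    rw [← List.sum_map_mul_left]
    congr 1
    apply List.map_congr_left
    intro d hd
    have hd2 : (2 * d : ℝ) ≤ h := by exact_mod_cast (h2 d hd).le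
    have hd3 : (0 : ℝ) ≤ d := by positivity
    rw [key ((h : ℝ) - 2 * d) (by linarith) (((h : ℝ) - 2 * d) * n) (by ring),
      key ((t : ℝ) / n + d) (by positivity) (t + d * n) (by field_simp),
      key ((t : ℝ) / n + h - d) (by linarith) (t + h * n - d * n) (by field_simp)]
    ring
  rw [e6]
  ring

lemma RvB_le (h n : ℕ) (ds : List ℕ) (hn : 1 ≤ n)
    (hc : ∀ d ∈ ds, 0 < d) (h2 : ∀ d ∈ ds, 2 * d < h) (t : ℕ) :
    0 ≤ ((Rv (ss h 0 n) (mu h n ds) (PPB h n ds) ((t : ℚ) + 1 / 2) : ℚ) : ℝ) ∧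
    ((Rv (ss h 0 n) (mu h n ds) (PPB h n ds) ((t : ℚ) + 1 / 2) : ℚ) : ℝ) ≤
      (ds.map fun d : ℕ => Real.exp 1 * (((h : ℝ) - 2 * d) * n + 1) / (t + d * n)).prod *
      Real.exp (n * gB h ds (t / n)) := by
  have hn0 : (0 : ℝ) < n := by exact_mod_cast hn
  rw [RvB_val h n ds hn hc h2 t]
  have hs := gB_scale h ds h2 n hn t
  rw [← hs]
  have hch : ((t + h * n).choose (h * n) : ℝ) ≤ Real.exp (xl (t + h * n) - xl t - xl (h * n)) := by
    have h3 := L1 t (h * n)
    have h4 : (∏ m ∈ Finset.Icc 1 (h * n), ((t : ℝ) + m)) = ((t + h * n).choose (h * n) : ℝ) * Nat.factorial (h * n) := by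
      have e1 := prod_up t (h * n)
      have e2 : (Nat.factorial t : ℝ) ≠ 0 := by exact_mod_cast Nat.factorial_ne_zero t
      have e3 : ((t + h * n).choose (h * n) * Nat.factorial (h * n) * Nat.factorial t : ℝ) = Nat.factorial (t + h * n) := by
        have := Nat.choose_mul_factorial_mul_factorial (show h * n ≤ t + h * n by omega)
        rw [Nat.add_sub_cancel] at this
        exact_mod_cast this
      rw [← e3] at e1
      exact mul_right_cancel₀ e2 e1
    rw [h4, mul_comm] at h3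
    have h5 : (0 : ℝ) < Nat.factorial (h * n) := by exact_mod_cast Nat.factorial_pos _
    have h6 := le_of_mul_le_mul_left h3 h5
    push_cast at h6
    exact h6
  have h4pow : (4 : ℝ) ^ (h * n) = Real.exp (2 * h * n * Real.log 2) := by
    have e1 : (4 : ℝ) ^ (h * n) = (2 : ℝ) ^ (2 * (h * n)) := by
      rw [pow_mul (2 : ℝ) 2 (h * n)]; norm_num
    rw [e1, ← Real.rpow_natCast, Real.rpow_def_of_pos (by norm_num)]
    congr 1
    push_cast
    ring
  -- denominators
  have e4 : ∀ l : List ℕ, (∀ d ∈ l, 2 * d < h) → (∀ d ∈ l, 0 < d) →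
      0 ≤ (l.map fun d => (Nat.factorial ((h - 2 * d) * n) : ℝ) *
        ∏ m ∈ Finset.Icc (d * n) (h * n - d * n), ((t : ℝ) + 1 / 2 + m)⁻¹).prod ∧
      (l.map fun d => (Nat.factorial ((h - 2 * d) * n) : ℝ) *
        ∏ m ∈ Finset.Icc (d * n) (h * n - d * n), ((t : ℝ) + 1 / 2 + m)⁻¹).prod ≤
      (l.map fun d : ℕ => Real.exp 1 * (((h : ℝ) - 2 * d) * n + 1) / (t + d * n)).prod *
      Real.exp ((l.map fun d : ℕ => xl (((h : ℝ) - 2 * d) * n) + xl (t + d * n) - xl (t + h * n - d * n)).sum) := by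
    intro l hl hl2
    induction l with
    | nil => simp
    | cons d l ih =>
      simp only [List.map_cons, List.prod_cons, List.sum_cons]
      have hd := hl d (by simp)
      have hd2 := hl2 d (by simp)
      have hdn : h * n = (h - 2 * d) * n + 2 * (d * n) := by
        have : h = (h - 2 * d) + 2 * d := by omega
        conv_lhs => rw [this]
        ring
      have hd1 : 1 ≤ d * n := Nat.one_le_iff_ne_zero.2 (Nat.mul_ne_zero (by omega) (by omega))
      have h3 := L3 (t + d * n) ((h - 2 * d) * n) (by omega)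
      have h4 : ∏ m ∈ Finset.Icc (d * n) (h * n - d * n), ((t : ℝ) + 1 / 2 + m)⁻¹ ≤
          ∏ k ∈ Finset.Icc (t + d * n) (t + d * n + (h - 2 * d) * n), ((k : ℝ))⁻¹ := by
        have h4a : ∏ k ∈ Finset.Icc (t + d * n) (t + d * n + (h - 2 * d) * n), ((k : ℝ))⁻¹
            = ∏ m ∈ Finset.Icc (d * n) (h * n - d * n), (t + m : ℝ)⁻¹ := by
          symm
          apply Finset.prod_bij (fun m _ => t + m)
          · intro m hm; rw [Finset.mem_Icc] at *; omega
          · intro a _ b _ h; omega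
          · intro m hm; rw [Finset.mem_Icc] at hm
            exact ⟨m - t, by rw [Finset.mem_Icc]; omega, by omega⟩
          · intro m _; push_cast; rfl
        rw [h4a]
        apply Finset.prod_le_prod
        · intro m _; positivity
        · intro m hm
          rw [Finset.mem_Icc] at hm
          have hm1 : (1 : ℝ) ≤ m := by exact_mod_cast (by omega : 1 ≤ m)
          have ht : (0 : ℝ) ≤ t := by positivity
          apply inv_anti₀ <;> linarith
      have h5 : (((h - 2 * d : ℕ) : ℝ)) = (h : ℝ) - 2 * d := by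
        rw [Nat.cast_sub hd.le]; push_cast; ring
      push_cast at h3
      rw [h5] at h3
      have h6 : (t : ℝ) + d * n + ((h : ℝ) - 2 * d) * n = t + h * n - d * n := by ring
      rw [h6] at h3
      obtain ⟨h7a, h7⟩ := ih (fun d' hd' => hl d' (List.mem_cons_of_mem _ hd')) (fun d' hd' => hl2 d' (List.mem_cons_of_mem _ hd'))
      have h8 : (0 : ℝ) ≤ (h : ℝ) - 2 * d := by
        rw [← h5]; positivity
      have h9 : 0 ≤ ∏ m ∈ Finset.Icc (d * n) (h * n - d * n), ((t : ℝ) + 1 / 2 + m)⁻¹ :=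
        Finset.prod_nonneg fun _ _ => by positivity
      refine ⟨mul_nonneg (mul_nonneg (by positivity) h9) h7a, ?_⟩
      rw [Real.exp_add]
      calc _ ≤ (Real.exp 1 * (((h : ℝ) - 2 * d) * n + 1) / (t + d * n) * Real.exp (xl (((h : ℝ) - 2 * d) * n) + xl (t + d * n) - xl (t + h * n - d * n))) *
            ((l.map fun d : ℕ => Real.exp 1 * (((h : ℝ) - 2 * d) * n + 1) / (t + d * n)).prod *
            Real.exp ((l.map fun d : ℕ => xl (((h : ℝ) - 2 * d) * n) + xl (t + d * n) - xl (t + h * n - d * n)).sum)) := by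
              apply mul_le_mul _ h7 h7a
              · positivity
              · exact (mul_le_mul_of_nonneg_left h4 (by positivity)).trans h3
        _ = _ := by ring
  obtain ⟨e5, e6⟩ := e4 ds h2 hc
  have hch0 : (0 : ℝ) ≤ ((t + h * n).choose (h * n) : ℝ) := by positivity
  have hLs : ((((ds.map fun d => (Nat.factorial ((h - 2 * d) * n) : ℚ) *
        ∏ m ∈ Finset.Icc (d * n) (h * n - d * n), ((t : ℚ) + 1 / 2 + m)⁻¹).prod : ℚ)) : ℝ) =
      (ds.map fun d => (Nat.factorial ((h - 2 * d) * n) : ℝ) *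
        ∏ m ∈ Finset.Icc (d * n) (h * n - d * n), ((t : ℝ) + 1 / 2 + m)⁻¹).prod := by
    clear e5 e6 e4 hs hc h2
    induction ds with
    | nil => simp
    | cons d l ih =>
      simp only [List.map_cons, List.prod_cons]
      rw [Rat.cast_mul, ih]
      push_cast
      rfl
  rw [Rat.cast_mul, Rat.cast_mul, hLs, Rat.cast_pow, Rat.cast_natCast, Rat.cast_ofNat]
  refine ⟨by positivity, ?_⟩
  rw [Real.exp_add, Real.exp_add, ← h4pow]
  calc _ ≤ (4 ^ (h * n) * Real.exp (xl (t + h * n) - xl t - xl (h * n))) *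
        ((ds.map fun d : ℕ => Real.exp 1 * (((h : ℝ) - 2 * d) * n + 1) / (t + d * n)).prod *
      Real.exp ((ds.map fun d : ℕ => xl (((h : ℝ) - 2 * d) * n) + xl (t + d * n) - xl (t + h * n - d * n)).sum)) := by
        apply mul_le_mul _ e6 e5 (by positivity)
        exact mul_le_mul_of_nonneg_left hch (by positivity)
    _ = _ := by ring

end

end Pool.Agent.H337R2
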