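import Pool.Agent.H337R2.Arith

/-!
# Primes of medium size
-/

open Polynomial

namespace Pool.Agent.H337R2

noncomputable section

set_option linter.unusedSectionVars false

lemma ediv_super (x y p : ℤ) (hp : 0 < p) : x / p + y / p ≤ (x + y) / p := by
  apply Int.le_ediv_of_mul_le hp
  have h1 := Int.ediv_mul_le x hp.ne'
  have h2 := Int.ediv_mul_le y hp.ne'
  linarith

lemma ediv_sub1 (x y p : ℤ) (hp : 0 < p) : (x + y + 1) / p ≤ x / p + y / p + 1 := by
  have h : (x + y + 1) / p < x / p + y / p + 2 := by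
    apply Int.ediv_lt_of_lt_mul hp
    have h1 := Int.lt_ediv_add_one_mul_self x hp
    have h2 := Int.lt_ediv_add_one_mul_self y hp
    linarith
  omega

lemma n1_eq (p h c n k : ℕ) (hp : 0 < p) (hch : c ≤ h) (hhn : 1 ≤ h * n) :
    (n1 p h c n k : ℤ) = ((c : ℤ) * n - k) / p - (-(k : ℤ)) / p + ((h : ℤ) * n - 1 - k) / p
      - ((h : ℤ) * n - c * n - 1 - k) / p := by
  have hcn : c * n ≤ h * n := Nat.mul_le_mul_right n hch
  unfold n1
  push_cast
  rw [cnt_eq p 1 (c * n) k hp (by omega), cnt_eq p (h * n - c * n) (h * n - 1) k hp (by omega)]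
  rw [Nat.cast_sub hcn, Nat.cast_sub hhn]
  push_cast
  rw [zero_sub]
  ring

lemma cnt_brick (p h d n k : ℕ) (hp : 0 < p) (h2 : 2 * d < h) :
    (cnt p (d * n) (h * n - d * n) k : ℤ) = ((h : ℤ) * n - d * n - k) / p - ((d : ℤ) * n - 1 - k) / p := by
  have hdn : d * n ≤ h * n := Nat.mul_le_mul_right n (by omega)
  have h3 : 2 * d * n ≤ h * n := Nat.mul_le_mul_right n h2.le
  rw [cnt_eq p (d * n) (h * n - d * n) k hp (by
    have : 2 * d * n = d * n + d * n := by ring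
    omega)]
  rw [Nat.cast_sub hdn]
  push_cast
  ring

/-- the trivial bound of the exponent -/
lemma ee_ge (p b h c n k : ℕ) (ds : List ℕ) (hp : 0 < p) (hch : c ≤ h) (hhn : 1 ≤ h * n)
    (h2 : ∀ d ∈ ds, 2 * d < h) : -(ds.length : ℤ) ≤ ee p b h c n ds k := by
  have hp' : (0 : ℤ) < p := by exact_mod_cast hp
  unfold ee
  have e1 : 2 * ((c * n / p : ℕ) : ℤ) ≤ (n1 p h c n k : ℤ) := by
    rw [n1_eq p h c n k hp hch hhn]
    push_cast
    have a1 := ediv_super ((c : ℤ) * n) (-(k : ℤ)) p hp'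
    have a2 := ediv_super ((c : ℤ) * n) ((h : ℤ) * n - c * n - 1 - k) p hp'
    have a3 : (c : ℤ) * n + ((h : ℤ) * n - c * n - 1 - k) = (h : ℤ) * n - 1 - k := by ring
    have a4 : (c : ℤ) * n + (-(k : ℤ)) = (c : ℤ) * n - k := by ring
    rw [a3] at a2
    rw [a4] at a1
    linarith
  have e2 : (nq p h n ds k : ℤ) ≤ ((ds.map fun d => (h - 2 * d) * n / p).sum : ℕ) + ds.length := by
    unfold nq
    induction ds with
    | nil => simp
    | cons d l ih =>
      simp only [List.map_cons, List.sum_cons, List.length_cons]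
      have i1 := ih (fun d' hd' => h2 d' (List.mem_cons_of_mem _ hd'))
      have hd := h2 d List.mem_cons_self
      have i2 := cnt_brick p h d n k hp hd
      have i3 := ediv_sub1 ((d : ℤ) * n - 1 - k) (((h - 2 * d : ℕ) : ℤ) * n) p hp'
      have i4 : ((d : ℤ) * n - 1 - k) + (((h - 2 * d : ℕ) : ℤ) * n) + 1 = (h : ℤ) * n - d * n - k := by
        rw [Nat.cast_sub hd.le]
        push_cast
        ring
      rw [i4] at i3
      push_cast at i1 i2 i3 ⊢
      linarith
  have e3 : (b : ℤ) * (2 * ((c * n / p : ℕ) : ℤ)) ≤ b * (n1 p h c n k : ℤ) :=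
    mul_le_mul_of_nonneg_left e1 (by positivity)
  linarith

/-- condition on a prime -/
def Hyp (p b h c n : ℕ) (ds : List ℕ) (E : ℕ) : Prop :=
  ∀ k ∈ ss h c n, mu h n ds k ≠ 0 →
    (c * n + 1 + p ≤ k → (b : ℤ) - 1 - ee p b h c n ds k ≤ E) ∧
     (-1 - ee p b h c n ds k ≤ E ∨ ((∀ d ∈ ds, (h - 2 * d) * n < p) ∧ c * n < p))

lemma Hyp.mono {p b h c n : ℕ} {ds : List ℕ} {E E' : ℕ} (H : Hyp p b h c n ds E) (hE : E ≤ E') :
    Hyp p b h c n ds E' := by
  intro k hk hm
  have hE' : (E : ℤ) ≤ E' := by exact_mod_cast hE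
  refine ⟨fun h1 => ((H k hk hm).1 h1).trans hE', ?_⟩
  rcases (H k hk hm).2 with h2 | h2
  · exact Or.inl (h2.trans hE')
  · exact Or.inr h2

lemma mu_ne_zero {h n : ℕ} {ds : List ℕ} {k : ℕ} (hk : mu h n ds k ≠ 0) :
    ∃ d ∈ ds, d * n ≤ k ∧ k + d * n ≤ h * n := by
  have h1 : 0 < mu h n ds k := Nat.pos_of_ne_zero hk
  unfold mu at h1
  rw [List.countP_pos_iff] at h1
  obtain ⟨d, hd, hd2⟩ := h1
  exact ⟨d, hd, by simpa using hd2⟩

/-- the trivial exponent -/
lemma hyp_trivial (p b h c n : ℕ) (ds : List ℕ) (hp : 0 < p) (hch : c ≤ h) (hhn : 1 ≤ h * n)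
    (h2 : ∀ d ∈ ds, 2 * d < h) (hb : 1 ≤ b) : Hyp p b h c n ds (b - 1 + ds.length) := by
  intro k hk _
  have h1 := ee_ge p b h c n k ds hp hch hhn h2
  push_cast
  rw [Nat.cast_sub hb]
  push_cast
  refine ⟨fun _ => by linarith, Or.inl ?_⟩
  have : (1 : ℤ) ≤ b := by exact_mod_cast hb
  linarith

/-- large primes -/
lemma hyp_large (p b h c n D : ℕ) (ds : List ℕ) (hD : ∀ d ∈ ds, D ≤ d)
    (hc : ∀ d ∈ ds, c < d) (h2 : ∀ d ∈ ds, 2 * d < h) (hcc : 2 * c + D < h) (hn : 1 ≤ n)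
    (hp : (h - D - c) * n ≤ p) : Hyp p b h c n ds 0 := by
  intro k hk hm
  obtain ⟨d, hd, hd1, hd2⟩ := mu_ne_zero hm
  have hDd := hD d hd
  have h3 := h2 d hd
  have h4 := hc d hd
  obtain ⟨κ, hκ⟩ : ∃ κ, h = κ + D + c := ⟨h - D - c, by omega⟩
  have hκ2 : h - D - c = κ := by omega
  rw [hκ2] at hp
  have e1 : D * n ≤ d * n := Nat.mul_le_mul_right n hDd
  have e2 : h * n = κ * n + D * n + c * n := by rw [hκ]; ring
  refine ⟨?_, Or.inr ⟨?_, ?_⟩⟩
  · intro h5
    exfalso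
    omega
  · intro d' hd'
    have h6 := h2 d' hd'
    have h7 := hc d' hd'
    have h8 := hD d' hd'
    refine lt_of_lt_of_le ?_ hp
    apply Nat.mul_lt_mul_of_pos_right _ (by omega)
    omega
  · refine lt_of_lt_of_le ?_ hp
    apply Nat.mul_lt_mul_of_pos_right _ (by omega)
    omega

variable {p : ℕ} [hp : Fact p.Prime]

lemma pa_zero_of_mu {s : Finset ℕ} {μ : ℕ → ℕ} {P : ℚ[X]} {k i : ℕ} (hi : 1 ≤ i) (h : μ k = 0) :
    pa s μ P k i = 0 := by
  unfold pa
  rw [if_neg (by omega)]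

lemma hno_of_lt {h n : ℕ} {ds : List ℕ} {q : ℕ} (h2 : ∀ d ∈ ds, 2 * d < h)
    (H : ∀ d ∈ ds, (h - 2 * d) * n < q) {k m : ℕ} (hk : mu h n ds k ≠ 0) (hm : mu h n ds m ≠ 0) (hmk : m ≠ k) :
    ¬ (q : ℤ) ∣ (m : ℤ) - k := by
  obtain ⟨d, hd, hd1, hd2⟩ := mu_ne_zero hk
  obtain ⟨d', hd', hd1', hd2'⟩ := mu_ne_zero hm
  have key : ∀ e : ℕ, 2 * e < h → (h - 2 * e) * n + 2 * (e * n) = h * n := by
    intro e he
    have : h = (h - 2 * e) + 2 * e := by omega
    conv_rhs => rw [this]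
    ring
  have H1 := H d hd
  have H2 := H d' hd'
  have K1 := key d (h2 d hd)
  have K2 := key d' (h2 d' hd')
  intro hdvd
  have hne : (m : ℤ) - k ≠ 0 := by omega
  have h3 := Int.le_of_dvd (a := q) (b := |(m : ℤ) - k|) (by positivity) ((dvd_abs _ _).2 hdvd)
  rcases le_total (d * n) (d' * n) with h4 | h4
  · have : |(m : ℤ) - k| ≤ ((h - 2 * d) * n : ℕ) := by
      rw [abs_le]; constructor <;> omega
    omega
  · have : |(m : ℤ) - k| ≤ ((h - 2 * d') * n : ℕ) := by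
      rw [abs_le]; constructor <;> omega
    omega

/-- medium primes -/
theorem xform_med (b h c n : ℕ) (ds : List ℕ) (hn : 1 ≤ n) (hb : 1 ≤ b)
    (hc : ∀ d ∈ ds, c < d) (h2 : ∀ d ∈ ds, 2 * d < h) (hch : c < h) (hp2 : h * n < p ^ 2)
    (u : ℕ → ℚ) (q : ℕ) (hq : 0 < q)
    (hu : ∀ i, ∃ z : ℤ, (q : ℚ) * u i = z) (E : ℕ) (H : Hyp p b h c n ds E) :
    padicNorm p (q * xform b h c n ds u) ≤ (p : ℚ) ^ E := by
  have hp0 : (p : ℚ) ≠ 0 := p_pos'.ne'
  have hp1 : (1 : ℚ) ≤ p := p_one'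
  have hq0 : 0 < padicNorm p (q : ℚ) :=
    lt_of_le_of_ne (padicNorm.nonneg _) (Ne.symm (padicNorm.nonzero (by positivity)))
  have hq1 : padicNorm p (q : ℚ) ≤ 1 := padicNorm.of_nat q
  have hu2 : ∀ i, padicNorm p (u i) ≤ (padicNorm p (q : ℚ))⁻¹ := by
    intro i
    obtain ⟨z, hz⟩ := hu i
    have h1 : padicNorm p ((q : ℚ) * u i) ≤ 1 := by
      rw [hz]; exact padicNorm.of_int z
    rw [padicNorm.mul] at h1
    rw [← one_div, le_div_iff₀ hq0, mul_comm]
    exact h1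
  have hpa : ∀ i, 1 ≤ i → ∀ k ∈ ss h c n, padicNorm p (pa (ss h c n) (mu h n ds) (PP b h c n ds) k i) ≤ (p : ℚ) ^ E := by
    intro i hi k hk
    by_cases hm : mu h n ds k = 0
    · rw [pa_zero_of_mu hi hm]; simp
    rcases (H k hk hm).2 with h3 | ⟨h3, h4⟩
    · refine (pa_bound_zpow b h c n ds hn hc h2 hch hp2 hk i).trans ?_
      rw [← zpow_natCast (p : ℚ) E]
      apply zpow_le_zpow_right₀ hp1
      have : (1 : ℤ) ≤ i := by exact_mod_cast hi
      linarith
    · refine (pa_bound_int b h c n ds hk i ?_).trans ?_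
      · intro m _ hmk hmm
        exact hno_of_lt h2 h3 hm hmm hmk
      · rw [norm_cst b h c n ds hp2 h2 hch.le]
        have h5 : c * n / p = 0 := Nat.div_eq_of_lt h4
        rw [h5]
        have h6 : ((2 : ℤ) * b * ((0 : ℕ) : ℤ) - ((ds.map fun d => (h - 2 * d) * n / p).sum : ℕ)) ≤ (E : ℤ) := by
          push_cast
          have : (0 : ℤ) ≤ ((ds.map fun d => (h - 2 * d) * n / p).sum : ℕ) := by positivity
          push_cast at this
          linarith
        rw [← zpow_natCast (p : ℚ) E]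
        exact zpow_le_zpow_right₀ hp1 h6
  rw [padicNorm.mul]
  have key : padicNorm p (xform b h c n ds u) ≤ (p : ℚ) ^ E * (padicNorm p (q : ℚ))⁻¹ := by
    apply xform_norm
    · positivity
    · intro i hi k hk
      rw [Finset.mem_Icc] at hi
      exact mul_le_mul (hpa i hi.1 k hk) (hu2 i) (padicNorm.nonneg _) (by positivity)
    · intro i hi k hk
      rw [Finset.mem_Icc] at hi
      have hle : padicNorm p (pa (ss h c n) (mu h n ds) (PP b h c n ds) k i) *
        padicNorm p (hs (i + (b - 1)) (k - c * n - 1)) ≤ (p : ℚ) ^ E := by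
        by_cases hm : mu h n ds k = 0
        · rw [pa_zero_of_mu hi.1 hm]; simp
        by_cases hkp : c * n + 1 + p ≤ k
        · have h3 := (H k hk hm).1 hkp
          have h4 := hs_norm_med (p := p) (i + (b - 1)) (k - c * n - 1) (by
            rw [ss, Finset.mem_Icc] at hk
            omega)
          have h5 := pa_bound_zpow (p := p) b h c n ds hn hc h2 hch hp2 hk i
          refine (mul_le_mul h5 h4 (padicNorm.nonneg _) (by positivity)).trans ?_
          rw [← zpow_natCast (p : ℚ) (i + (b - 1)), ← zpow_natCast (p : ℚ) E, ← zpow_add₀ hp0]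
          apply zpow_le_zpow_right₀ hp1
          push_cast
          rw [Nat.cast_sub hb]
          push_cast
          linarith
        · have h4 := hs_norm_small (p := p) (i + (b - 1)) (k - c * n - 1) (by
            have := hp.out.pos
            omega)
          calc _ ≤ (p : ℚ) ^ E * 1 := mul_le_mul (hpa i hi.1 k hk) h4 (padicNorm.nonneg _) (by positivity)
            _ = _ := mul_one _
      refine hle.trans ?_
      calc (p : ℚ) ^ E = (p : ℚ) ^ E * 1 := (mul_one _).symm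
        _ ≤ _ := by
          apply mul_le_mul_of_nonneg_left _ (by positivity)
          exact (one_le_inv₀ hq0).2 hq1
  calc _ ≤ padicNorm p (q : ℚ) * ((p : ℚ) ^ E * (padicNorm p (q : ℚ))⁻¹) :=
        mul_le_mul_of_nonneg_left key hq0.le
    _ = _ := by field_simp

end

end Pool.Agent.H337R2
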