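import Pool.Agent.H337R2.Bt2
import Pool.Agent.H337R2.Med

/-!
# p-adic bounds in the half-integer case
-/

open Polynomial

namespace Pool.Agent.H337R2

noncomputable section

set_option linter.unusedSectionVars false

/-- number of zeros congruent to `k` -/
def nzB (p h n k : ℕ) : ℕ := cnt p (1 + (p - 1) / 2) (h * n + (p - 1) / 2) k

/-- the exponent -/
def eeB (p h n : ℕ) (ds : List ℕ) (k : ℕ) : ℤ :=
  (nzB p h n k : ℤ) - nq p h n ds k - ((h * n / p : ℕ) : ℤ) + ((ds.map fun d => (h - 2 * d) * n / p).sum : ℕ)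

/-- the exponent of the constant -/
def cvB (p h n : ℕ) (ds : List ℕ) : ℤ :=
  ((ds.map fun d => (h - 2 * d) * n / p).sum : ℕ) - ((h * n / p : ℕ) : ℤ)

variable {p : ℕ} [hp : Fact p.Prime]

lemma two_unit (hodd : Odd p) : padicNorm p (2 : ℚ) = 1 := by
  have := (padicNorm.nat_eq_one_iff (p := p) 2).2 (by
    intro h
    have h1 := (Nat.prime_dvd_prime_iff_eq hp.out Nat.prime_two).1 h
    rw [h1] at hodd
    exact absurd hodd (by decide))
  exact_mod_cast this

lemma listfac_norm (n h : ℕ) (l : List ℕ) (hp2 : h * n < p ^ 2) (h2 : ∀ d ∈ l, 2 * d < h) :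
    padicNorm p ((l.map fun d => (Nat.factorial ((h - 2 * d) * n) : ℚ)).prod) =
      (p : ℚ) ^ (-(((l.map fun d => (h - 2 * d) * n / p).sum : ℕ) : ℤ)) := by
  have hp0 : (p : ℚ) ≠ 0 := p_pos'.ne'
  rw [padicNorm_listprod]
  induction l with
  | nil => simp
  | cons d l ih =>
    simp only [List.map_cons, List.prod_cons, List.sum_cons]
    rw [ih (fun d' hd' => h2 d' (List.mem_cons_of_mem _ hd'))]
    have h3 : (h - 2 * d) * n < p ^ 2 := lt_of_le_of_lt (Nat.mul_le_mul_right n (Nat.sub_le _ _)) hp2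
    rw [norm_factorial h3, ← zpow_add₀ hp0]
    congr 1
    push_cast; ring

lemma norm_cstB (h n : ℕ) (ds : List ℕ) (hodd : Odd p) (hp2 : h * n < p ^ 2) (h2 : ∀ d ∈ ds, 2 * d < h) :
    padicNorm p (cstB h n ds) = (p : ℚ) ^ (-(cvB p h n ds)) := by
  have hp0 : (p : ℚ) ≠ 0 := p_pos'.ne'
  unfold cstB
  rw [padicNorm.div, padicNorm.mul, padicNorm_pow', two_unit hodd, one_pow, one_mul, listfac_norm n h ds hp2 h2,
    norm_factorial hp2, ← zpow_sub₀ hp0]
  congr 1
  unfold cvB
  ring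

lemma dvd_shift (hodd : Odd p) (m k : ℕ) : (p : ℤ) ∣ 2 * (m : ℤ) - 1 - 2 * k ↔ (p : ℤ) ∣ ((m + (p - 1) / 2 : ℕ) : ℤ) - k := by
  obtain ⟨w, hw⟩ := hodd
  have h1 : (p - 1) / 2 = w := by omega
  rw [h1]
  have h2 : 2 * (m : ℤ) - 1 - 2 * k = 2 * (((m + w : ℕ) : ℤ) - k) - p := by
    rw [hw]; push_cast; ring
  rw [h2]
  have hco : IsCoprime (p : ℤ) 2 := by
    refine ⟨1, -(w : ℤ), ?_⟩
    rw [hw]; push_cast; ring
  constructor
  · intro h
    have h3 : (p : ℤ) ∣ 2 * (((m + w : ℕ) : ℤ) - k) := by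
      have := dvd_add h (dvd_refl (p : ℤ))
      rwa [sub_add_cancel] at this
    exact hco.dvd_of_dvd_mul_left h3
  · intro h
    exact dvd_sub (Dvd.dvd.mul_left h 2) (dvd_refl _)

lemma nzB_prod (hodd : Odd p) (h n k : ℕ) :
    ((p : ℚ)⁻¹) ^ (nzB p h n k) =
      ∏ m ∈ Finset.Icc 1 (h * n), (if (p : ℤ) ∣ 2 * (m : ℤ) - 1 - 2 * k then (p : ℚ)⁻¹ else 1) := by
  have h1 : ∏ m ∈ Finset.Icc 1 (h * n), (if (p : ℤ) ∣ 2 * (m : ℤ) - 1 - 2 * k then (p : ℚ)⁻¹ else 1) =
      ∏ m ∈ Finset.Icc (1 + (p - 1) / 2) (h * n + (p - 1) / 2), (if (p : ℤ) ∣ (m : ℤ) - k then (p : ℚ)⁻¹ else 1) := by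
    apply Finset.prod_bij (fun m _ => m + (p - 1) / 2)
    · intro m hm; rw [Finset.mem_Icc] at *; omega
    · intro a _ b _ h; omega
    · intro m hm; rw [Finset.mem_Icc] at hm
      exact ⟨m - (p - 1) / 2, by rw [Finset.mem_Icc]; omega, by omega⟩
    · intro m _
      simp only [dvd_shift hodd m k]
  rw [h1]
  have h2 := prod_ite_pow (Finset.Icc (1 + (p - 1) / 2) (h * n + (p - 1) / 2)) (fun m : ℕ => (p : ℤ) ∣ (m : ℤ) - k) ((p : ℚ)⁻¹) (fun _ => 1)
  simp only [pow_one, one_mul] at h2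
  rw [h2]
  congr 1
  unfold nzB cnt
  rw [Finset.card_filter]

lemma PB_PPB (h n : ℕ) (ds : List ℕ) (hodd : Odd p) (k : ℕ) :
    PB p (p : ℚ) (padicNorm p (cstB h n ds) * ((p : ℚ)⁻¹) ^ (nzB p h n k))
      (TS (-(k : ℚ)) (PPB h n ds)) := by
  have hp0 : (0 : ℚ) ≤ p := p_pos'.le
  have hinv : (0 : ℚ) ≤ (p : ℚ)⁻¹ := inv_nonneg.2 hp0
  have hcst : 0 ≤ padicNorm p (cstB h n ds) := padicNorm.nonneg _
  unfold PPB
  rw [(TS (-(k : ℚ))).map_mul, TS_C, map_prod]
  simp only [TS_lin2]
  rw [nzB_prod hodd]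
  apply PB.mul hp0 hcst (Finset.prod_nonneg fun m _ => by split_ifs; exact hinv; exact zero_le_one)
  · exact PB.C hp0 hcst le_rfl
  · apply PB.prod _ _ _ hp0
    · intro m _
      split_ifs
      · exact hinv
      · exact zero_le_one
    · intro m _
      apply PB.lin hp0
      · split_ifs
        · exact hinv
        · exact zero_le_one
      · have := norm_le_ite (p := p) (2 * (m : ℤ) - 1 - 2 * k)
        push_cast at this
        rw [show (2 : ℚ) * -(k : ℚ) + (2 * (m : ℚ) - 1) = 2 * (m : ℚ) - 1 - 2 * k by ring]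
        exact this
      · rw [two_unit hodd]
        split_ifs
        · rw [inv_mul_cancel₀ p_pos'.ne']
        · rw [one_mul]; exact p_one'

/-- main p-adic bound -/
theorem pa_boundB (h n : ℕ) (ds : List ℕ) (hodd : Odd p) (hn : 1 ≤ n)
    (hc : ∀ d ∈ ds, 0 < d) (h2 : ∀ d ∈ ds, 2 * d < h) (hp2 : h * n < p ^ 2) {k : ℕ}
    (hk : k ∈ ss h 0 n) (i : ℕ) :
    padicNorm p (pa (ss h 0 n) (mu h n ds) (PPB h n ds) k i) ≤ (p : ℚ) ^ (-(eeB p h n ds k) - i : ℤ) := by
  have hp0 : (0 : ℚ) ≤ p := p_pos'.le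
  have hp0' : (p : ℚ) ≠ 0 := p_pos'.ne'
  have hinv : (0 : ℚ) ≤ (p : ℚ)⁻¹ := inv_nonneg.2 hp0
  have hcst : 0 ≤ padicNorm p (cstB h n ds) := padicNorm.nonneg _
  have key : padicNorm p (pa (ss h 0 n) (mu h n ds) (PPB h n ds) k i) ≤
      padicNorm p (cstB h n ds) * ((p : ℚ)⁻¹) ^ (nzB p h n k + i) * (p : ℚ) ^ (nq p h n ds k) := by
    unfold pa
    split_ifs with hi
    · have h1 := pfc_bound (p := p) (ss h 0 n) (mu h n ds) (PPB h n ds) k (p : ℚ) _
        (fun m => if (p : ℤ) ∣ (m : ℤ) - k then (p : ℚ) else 1) hp0 (by positivity)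
        (PB_PPB h n ds hodd k)
        (by
          intro m hm _
          rw [mem_ss_ne (Finset.mem_of_mem_erase hm) hk (Finset.ne_of_mem_erase hm) hp2]
          split_ifs
          · simp
          · simp [hp.out.one_lt.le])
        (by
          intro m _
          split_ifs
          · exact hp0
          · exact zero_le_one) (mu h n ds k - i)
      refine h1.trans (le_of_eq ?_)
      rw [prod_ite_pow, nq_split h 0 n k ds hn hc h2 hk]
      have h3 : ((p : ℚ)⁻¹) ^ i * (p : ℚ) ^ i = 1 := by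
        rw [← mul_pow, inv_mul_cancel₀ p_pos'.ne', one_pow]
      have h4 : (p : ℚ) ^ (mu h n ds k) = (p : ℚ) ^ (mu h n ds k - i) * (p : ℚ) ^ i := by
        rw [← pow_add, Nat.sub_add_cancel hi]
      rw [pow_add, pow_add, h4]
      linear_combination (padicNorm p (cstB h n ds) * ((p : ℚ)⁻¹) ^ (nzB p h n k) *
        (p : ℚ) ^ (∑ m ∈ (ss h 0 n).erase k, mu h n ds m * (if (p : ℤ) ∣ (m : ℤ) - k then 1 else 0)) *
        (p : ℚ) ^ (mu h n ds k - i)) * (-1) * h3
    · rw [padicNorm.zero]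
      positivity
  refine key.trans (le_of_eq ?_)
  rw [norm_cstB h n ds hodd hp2 h2]
  rw [inv_pow, ← zpow_natCast, ← zpow_natCast, ← zpow_neg, ← zpow_add₀ hp0', ← zpow_add₀ hp0']
  congr 1
  unfold eeB cvB
  push_cast; ring

lemma PB_PPB_int (h n : ℕ) (ds : List ℕ) (k : ℕ) :
    PB p 1 (padicNorm p (cstB h n ds)) (TS (-(k : ℚ)) (PPB h n ds)) := by
  have hcst : 0 ≤ padicNorm p (cstB h n ds) := padicNorm.nonneg _
  unfold PPB
  rw [(TS (-(k : ℚ))).map_mul, TS_C, map_prod]
  simp only [TS_lin2]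
  have key : PB p 1 1 (∏ m ∈ Finset.Icc 1 (h * n), (PowerSeries.C 2 * PowerSeries.X + PowerSeries.C (2 * -(k : ℚ) + (2 * (m : ℚ) - 1)))) := by
    have := PB.prod (p := p) (Finset.Icc 1 (h * n)) (fun _ => (1 : ℚ))
      (fun m : ℕ => (PowerSeries.C 2 * PowerSeries.X + PowerSeries.C (2 * -(k : ℚ) + (2 * (m : ℚ) - 1)))) zero_le_one
      (fun _ _ => zero_le_one) (by
        intro m _
        apply PB.lin zero_le_one zero_le_one
        · have := padicNorm.of_int (p := p) (2 * (m : ℤ) - 1 - 2 * k)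
          push_cast at this
          rw [show (2 : ℚ) * -(k : ℚ) + (2 * (m : ℚ) - 1) = 2 * (m : ℚ) - 1 - 2 * k by ring]
          exact this
        · rw [one_mul]
          have := padicNorm.of_int (p := p) 2
          push_cast at this
          exact this)
    simpa using this
  have e5 := PB.mul zero_le_one hcst zero_le_one (PB.C (p := p) zero_le_one hcst le_rfl) key
  simpa using e5

/-- bound when the class of `k` mod `p` contains no other pole -/
theorem pa_bound_intB (h n : ℕ) (ds : List ℕ) {k : ℕ} (i : ℕ)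
    (hno : ∀ m ∈ ss h 0 n, m ≠ k → mu h n ds m ≠ 0 → ¬ (p : ℤ) ∣ (m : ℤ) - k) :
    padicNorm p (pa (ss h 0 n) (mu h n ds) (PPB h n ds) k i) ≤
      padicNorm p (cstB h n ds) := by
  have hcst : 0 ≤ padicNorm p (cstB h n ds) := padicNorm.nonneg _
  unfold pa
  split_ifs with hi
  · have h1 := pfc_bound (p := p) (ss h 0 n) (mu h n ds) (PPB h n ds) k 1 _
      (fun m => 1) zero_le_one hcst
      (PB_PPB_int h n ds k)
      (by
        intro m hm hm0
        have h2 := hno m (Finset.mem_of_mem_erase hm) (Finset.ne_of_mem_erase hm) hm0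
        have h3 := (padicNorm.int_eq_one_iff (p := p) _).2 h2
        push_cast at h3
        rw [h3]; simp)
      (by
        intro m _; exact zero_le_one) (mu h n ds k - i)
    simpa using h1
  · rw [padicNorm.zero]
    positivity

lemma fz_norm (i : ℕ) (l : ℤ) (W : ℚ) (hW : (padicNorm p ((2 * l + 1 : ℤ) : ℚ))⁻¹ ≤ W) :
    padicNorm p (fz i l) ≤ W ^ i := by
  unfold fz
  have e : ((l : ℚ) + 1 / 2) = ((2 * l + 1 : ℤ) : ℚ) / 2 := by push_cast; ring
  rw [e, padicNorm.div, padicNorm_pow', padicNorm_pow', padicNorm.div]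
  have h1 : padicNorm p (-1 : ℚ) = 1 := by rw [padicNorm.neg, padicNorm.one]
  rw [h1, one_pow, div_pow, one_div_div, div_eq_mul_inv, ← inv_pow]
  have h2 : padicNorm p (2 : ℚ) ≤ 1 := by
    have := padicNorm.of_int (p := p) 2
    exact_mod_cast this
  have h3 : padicNorm p (2 : ℚ) ^ i ≤ 1 := pow_le_one₀ (padicNorm.nonneg _) h2
  have h0 : 0 ≤ (padicNorm p ((2 * l + 1 : ℤ) : ℚ))⁻¹ := inv_nonneg.2 (padicNorm.nonneg _)
  calc _ ≤ 1 * W ^ i := mul_le_mul h3 (pow_le_pow_left₀ h0 hW i) (pow_nonneg h0 i) zero_le_one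
    _ = _ := one_mul _

lemma bsZ_norm (i : ℕ) (s : ℤ) (W : ℚ) (hW0 : 0 ≤ W)
    (hW : ∀ l : ℤ, |2 * l + 1| < 2 * |s| → (padicNorm p ((2 * l + 1 : ℤ) : ℚ))⁻¹ ≤ W) :
    padicNorm p (bsZ i s) ≤ W ^ i := by
  unfold bsZ
  refine padicNorm.sub.trans (max_le ?_ ?_)
  · apply padicNorm.sum_le' _ (by positivity)
    intro l hl
    rw [Finset.mem_Ico] at hl
    apply fz_norm
    apply hW
    rw [abs_of_nonneg (by omega), abs_of_nonneg (by omega)]
    omega
  · apply padicNorm.sum_le' _ (by positivity)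
    intro l hl
    rw [Finset.mem_Ico] at hl
    apply fz_norm
    apply hW
    rw [abs_of_neg (by omega), abs_of_neg (by omega)]
    omega

lemma bsZ_norm_small (i : ℕ) (s : ℤ) (hs : 2 * |s| < p + 1) : padicNorm p (bsZ i s) ≤ 1 := by
  have h := bsZ_norm (p := p) i s 1 zero_le_one (by
    intro l hl
    have h1 := (padicNorm.int_eq_one_iff (p := p) (2 * l + 1)).2 (by
      intro h
      have h2 := Int.le_of_dvd (a := p) (b := |2 * l + 1|) (by rw [abs_pos]; omega) ((dvd_abs _ _).2 h)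
      omega)
    rw [h1]; simp)
  rwa [one_pow] at h

lemma bsZ_norm_med (i : ℕ) (s : ℤ) (hs : 2 * |s| ≤ (p : ℤ) ^ 2) : padicNorm p (bsZ i s) ≤ (p : ℚ) ^ i := by
  apply bsZ_norm i s (p : ℚ) p_pos'.le
  intro l hl
  rw [norm_small (p := p) (by omega) (by omega)]
  split_ifs
  · simp
  · simpa using hp.out.one_lt.le

lemma bsZ_norm_crude (i : ℕ) (s : ℤ) (M : ℚ) (hM0 : 0 ≤ M) (hs : ((2 * |s| : ℤ) : ℚ) ≤ M) : padicNorm p (bsZ i s) ≤ M ^ i := by
  apply bsZ_norm i s M hM0
  intro l hl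
  apply norm_inv_le (by omega)
  refine le_trans ?_ hs
  rw [← Int.cast_abs]
  exact_mod_cast hl.le

/-- divisibility of products in the half-integer case -/
lemma num_boundB (hodd : Odd p) (L k : ℕ) :
    ∏ m ∈ Finset.Icc 1 L, padicNorm p (2 * (m : ℚ) - 1 - 2 * k) ≤ padicNorm p (Nat.factorial L : ℚ) := by
  obtain ⟨e, he⟩ : ∃ e : ℕ, 2 * L + 2 * k + 1 < p ^ e := ⟨2 * L + 2 * k + 1, Nat.lt_pow_self hp.out.one_lt⟩
  have hpe : Odd (p ^ e) := hodd.pow
  obtain ⟨w, hw⟩ := hpe
  have h1 : ∀ m ∈ Finset.Icc 1 L, padicNorm p (2 * (m : ℚ) - 1 - 2 * k) = padicNorm p (((w - k : ℕ) : ℚ) + m) := by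
    intro m hm
    rw [Finset.mem_Icc] at hm
    have hne : (2 * (m : ℤ) - 1 - 2 * k) ≠ 0 := by omega
    -- the norm of the small number is larger than that of p ^ e
    have h2 : padicNorm p ((p ^ e : ℕ) : ℚ) < padicNorm p (2 * (m : ℚ) - 1 - 2 * k) := by
      have h3 := (padicNorm.dvd_iff_norm_le (p := p) (n := e) (z := 2 * (m : ℤ) - 1 - 2 * k)).not.1 (by
        intro h4
        have h5 := Int.le_of_dvd (b := |2 * (m : ℤ) - 1 - 2 * k|) (by rw [abs_pos]; exact hne) ((dvd_abs _ _).2 h4)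
        have h6 : |2 * (m : ℤ) - 1 - 2 * k| ≤ 2 * L + 2 * k + 1 := by
          rw [abs_le]; constructor <;> omega
        have h7 : ((2 * L + 2 * k + 1 : ℕ) : ℤ) < ((p ^ e : ℕ) : ℤ) := by exact_mod_cast he
        push_cast at h7 h5
        omega)
      rw [not_le] at h3
      push_cast at h3 ⊢
      rw [padicNorm_pow', padicNorm.padicNorm_p hp.out.one_lt]
      rw [zpow_neg, zpow_natCast] at h3
      rw [inv_pow]
      exact h3
    have h4 : padicNorm p (((w - k : ℕ) : ℚ) + m) = padicNorm p (2 * (((w - k : ℕ) : ℚ) + m)) := by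
      rw [padicNorm.mul, two_unit hodd, one_mul]
    have hwk : k ≤ w := by omega
    have h5 : 2 * (((w - k : ℕ) : ℚ) + m) = (2 * (m : ℚ) - 1 - 2 * k) + ((p ^ e : ℕ) : ℚ) := by
      rw [hw, Nat.cast_sub hwk]; push_cast; ring
    rw [h4, h5, padicNorm.add_eq_max_of_ne h2.ne', max_eq_left h2.le]
  rw [Finset.prod_congr rfl h1, ← padicNorm_prod']
  have h6 : ∏ m ∈ Finset.Icc 1 L, (((w - k : ℕ) : ℚ) + m) = (Nat.choose (w - k + L) L : ℚ) * (Nat.factorial L : ℚ) := by
    have e1 : ∀ L : ℕ, (∏ m ∈ Finset.Icc 1 L, (((w - k : ℕ) : ℚ) + m)) * (Nat.factorial (w - k) : ℚ) = Nat.factorial (w - k + L) := by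
      intro L
      induction L with
      | zero => simp
      | succ L ih =>
        rw [Finset.prod_Icc_succ_top (by omega), ← add_assoc, Nat.factorial_succ]
        push_cast
        rw [← ih]; ring
    have e2 : (Nat.factorial (w - k) : ℚ) ≠ 0 := by exact_mod_cast Nat.factorial_ne_zero _
    have e3 : ((w - k + L).choose L * Nat.factorial L * Nat.factorial (w - k) : ℚ) = Nat.factorial (w - k + L) := by
      have := Nat.choose_mul_factorial_mul_factorial (show L ≤ w - k + L by omega)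
      rw [Nat.add_sub_cancel] at this
      exact_mod_cast this
    have e4 := e1 L
    rw [← e3] at e4
    exact mul_right_cancel₀ e2 e4
  rw [h6, padicNorm.mul]
  exact mul_le_of_le_one_left (padicNorm.nonneg _) (padicNorm.of_nat _)

lemma cst_boundB (h n : ℕ) (ds : List ℕ) (k : ℕ) :
    padicNorm p (cstB h n ds) * ∏ m ∈ Finset.Icc 1 (h * n), padicNorm p (2 * (m : ℚ) - 1 - 2 * k) ≤
      (ds.map fun d => padicNorm p (Nat.factorial ((h - 2 * d) * n) : ℚ)).prod := by
  unfold cstB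
  have hF : 0 < padicNorm p (Nat.factorial (h * n) : ℚ) :=
    lt_of_le_of_ne (padicNorm.nonneg _) (Ne.symm (padicNorm.nonzero (by exact_mod_cast Nat.factorial_ne_zero _)))
  rw [padicNorm.div, padicNorm.mul, padicNorm_listprod, padicNorm_pow']
  have h0 : 0 ≤ (ds.map fun d => padicNorm p (Nat.factorial ((h - 2 * d) * n) : ℚ)).prod := by
    apply List.prod_nonneg
    intro a ha
    rw [List.mem_map] at ha
    obtain ⟨d, _, rfl⟩ := ha
    exact padicNorm.nonneg _
  have key : padicNorm p (2 : ℚ) ^ (h * n) * ∏ m ∈ Finset.Icc 1 (h * n), padicNorm p (2 * (m : ℚ) - 1 - 2 * k) ≤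
      padicNorm p (Nat.factorial (h * n) : ℚ) := by
    rcases hp.out.eq_two_or_odd' with h2 | hodd
    · subst h2
      have h3 : ∏ m ∈ Finset.Icc 1 (h * n), padicNorm 2 (2 * (m : ℚ) - 1 - 2 * k) ≤ 1 := by
        apply Finset.prod_le_one (fun m _ => padicNorm.nonneg _)
        intro m _
        have := padicNorm.of_int (p := 2) (2 * (m : ℤ) - 1 - 2 * k)
        push_cast at this
        exact this
      have h4 : padicNorm 2 (2 : ℚ) = (2 : ℚ)⁻¹ := by
        have := padicNorm.padicNorm_p (p := 2) (by norm_num)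
        exact_mod_cast this
      have h5 : ((2 : ℚ)⁻¹) ^ (h * n) ≤ padicNorm 2 (Nat.factorial (h * n) : ℚ) := by
        have h6 : (Nat.factorial (h * n) : ℚ) ≠ 0 := by exact_mod_cast Nat.factorial_ne_zero _
        rw [padicNorm.eq_zpow_of_nonzero h6, padicValRat.of_nat, inv_pow, ← zpow_natCast, ← zpow_neg]
        apply zpow_le_zpow_right₀ (by norm_num)
        apply neg_le_neg
        have h7 : padicValNat 2 (Nat.factorial (h * n)) ≤ h * n := by
          have := sub_one_mul_padicValNat_factorial (p := 2) (h * n)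
          simp at this
          omega
        exact_mod_cast h7
      rw [h4]
      calc _ ≤ ((2 : ℚ)⁻¹) ^ (h * n) * 1 := mul_le_mul_of_nonneg_left h3 (by positivity)
        _ ≤ _ := by rw [mul_one]; exact h5
    · rw [two_unit hodd, one_pow, one_mul]
      exact num_boundB hodd (h * n) k
  calc _ = (ds.map fun d => padicNorm p (Nat.factorial ((h - 2 * d) * n) : ℚ)).prod *
        ((padicNorm p (2 : ℚ) ^ (h * n) * ∏ m ∈ Finset.Icc 1 (h * n), padicNorm p (2 * (m : ℚ) - 1 - 2 * k)) /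
          padicNorm p (Nat.factorial (h * n) : ℚ)) := by ring
    _ ≤ (ds.map fun d => padicNorm p (Nat.factorial ((h - 2 * d) * n) : ℚ)).prod * 1 := by
        apply mul_le_mul_of_nonneg_left _ h0
        rw [div_le_one hF]
        exact key
    _ = _ := mul_one _

lemma PB_PPB_crude (h n : ℕ) (ds : List ℕ) (k : ℕ) (hk : k ∈ ss h 0 n) (M : ℚ) (hM1 : 1 ≤ M)
    (hM : ((2 * (h * n) + 1 : ℕ) : ℚ) ≤ M) :
    PB p M ((ds.map fun d => padicNorm p (Nat.factorial ((h - 2 * d) * n) : ℚ)).prod)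
      (TS (-(k : ℚ)) (PPB h n ds)) := by
  have hM0 : (0 : ℚ) ≤ M := by linarith
  have hcst : 0 ≤ padicNorm p (cstB h n ds) := padicNorm.nonneg _
  rw [ss, Finset.mem_Icc] at hk
  apply PB.mono hM0 _ (cst_boundB (p := p) h n ds k)
  unfold PPB
  rw [(TS (-(k : ℚ))).map_mul, TS_C, map_prod]
  simp only [TS_lin2]
  apply PB.mul hM0 hcst (Finset.prod_nonneg fun m _ => padicNorm.nonneg _)
  · exact PB.C hM0 hcst le_rfl
  · apply PB.prod _ _ _ hM0
    · intro m _; exact padicNorm.nonneg _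
    · intro m hm
      rw [Finset.mem_Icc] at hm
      apply PB.lin hM0 (padicNorm.nonneg _)
      · rw [show (2 : ℚ) * -(k : ℚ) + (2 * (m : ℚ) - 1) = 2 * (m : ℚ) - 1 - 2 * k by ring]
      · have h2 : padicNorm p (2 : ℚ) ≤ 1 := by
          have := padicNorm.of_int (p := p) 2
          exact_mod_cast this
        have h3 := norm_inv_le (p := p) (a := 2 * (m : ℤ) - 1 - 2 * k) (by omega) (M := M) (by
          refine le_trans ?_ hM
          rw [← Int.cast_abs]
          have : |2 * (m : ℤ) - 1 - 2 * k| ≤ ((2 * (h * n) + 1 : ℕ) : ℤ) := by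
            rw [abs_le]; constructor <;> omega
          exact_mod_cast this)
        push_cast at h3
        have h4 : 0 < padicNorm p (2 * (m : ℚ) - 1 - 2 * k) := by
          refine lt_of_le_of_ne (padicNorm.nonneg _) (Ne.symm (padicNorm.nonzero ?_))
          have h5 : (2 * (m : ℤ) - 1 - 2 * k) ≠ 0 := by omega
          have h6 : ((2 * (m : ℤ) - 1 - 2 * k : ℤ) : ℚ) ≠ 0 := by exact_mod_cast h5
          push_cast at h6
          exact h6
        rw [inv_le_iff_one_le_mul₀ h4] at h3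
        linarith

theorem pa_crudeB (h n : ℕ) (ds : List ℕ) (hn : 1 ≤ n)
    (hc : ∀ d ∈ ds, 0 < d) (h2 : ∀ d ∈ ds, 2 * d < h) {k : ℕ}
    (hk : k ∈ ss h 0 n) (i : ℕ) :
    padicNorm p (pa (ss h 0 n) (mu h n ds) (PPB h n ds) k i) ≤ ((2 * (h * n) + 1 : ℕ) : ℚ) ^ (3 * ds.length) := by
  set M : ℚ := ((2 * (h * n) + 1 : ℕ) : ℚ) with hM
  have hM1 : 1 ≤ M := by rw [hM]; exact_mod_cast (by omega : 1 ≤ 2 * (h * n) + 1)
  have hM0 : (0 : ℚ) ≤ M := by linarith
  have hprod0 : 0 ≤ (ds.map fun d => padicNorm p (Nat.factorial ((h - 2 * d) * n) : ℚ)).prod := by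
    apply List.prod_nonneg
    intro a ha
    rw [List.mem_map] at ha
    obtain ⟨d, _, rfl⟩ := ha
    exact padicNorm.nonneg _
  unfold pa
  split_ifs with hi
  · have hkk := hk
    rw [ss, Finset.mem_Icc] at hkk
    have h1 := pfc_bound (p := p) (ss h 0 n) (mu h n ds) (PPB h n ds) k M _
      (fun m => if m = k then 1 else (padicNorm p ((m : ℚ) - k))⁻¹) hM0
      hprod0
      (PB_PPB_crude h n ds k hk M hM1 le_rfl)
      (by
        intro m hm _
        have hmk := Finset.ne_of_mem_erase hm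
        have hm2 := Finset.mem_of_mem_erase hm
        rw [ss, Finset.mem_Icc] at hm2
        simp only [hmk, if_false]
        refine ⟨le_rfl, ?_⟩
        have h3 := norm_inv_le (p := p) (a := (m : ℤ) - k) (by omega) (M := M) (by
          rw [hM, ← Int.cast_abs]
          have : |(m : ℤ) - k| ≤ ((2 * (h * n) + 1 : ℕ) : ℤ) := by
            rw [abs_le]; constructor <;> omega
          exact_mod_cast this)
        push_cast at h3
        exact h3)
      (by
        intro m _
        beta_reduce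
        split_ifs
        · exact zero_le_one
        · exact inv_nonneg.2 (padicNorm.nonneg _)) (mu h n ds k - i)
    refine h1.trans ?_
    have h4 : ∏ m ∈ (ss h 0 n).erase k, (if m = k then 1 else (padicNorm p ((m : ℚ) - k))⁻¹) ^ mu h n ds m
        = (ds.map fun d => ∏ m ∈ Finset.Icc (d * n) (h * n - d * n), (if m = k then 1 else (padicNorm p ((m : ℚ) - k))⁻¹)).prod := by
      rw [← prod_mu h 0 n ds hn hc h2, ← Finset.mul_prod_erase _ _ hk]
      simp
    rw [h4, ← List.prod_map_mul]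
    have h6 : ∀ l : List ℕ, (∀ d ∈ l, 2 * d < h) → (l.map fun d => padicNorm p (Nat.factorial ((h - 2 * d) * n) : ℚ) *
        ∏ m ∈ Finset.Icc (d * n) (h * n - d * n), (if m = k then 1 else (padicNorm p ((m : ℚ) - k))⁻¹)).prod ≤ (M ^ 2) ^ l.length := by
      intro l hl
      induction l with
      | nil => simp
      | cons d l ih =>
        rw [List.map_cons, List.prod_cons, List.length_cons, pow_succ']
        have hd := hl d (by simp)
        have hdn : h * n = (h - 2 * d) * n + 2 * (d * n) := by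
          have : h = (h - 2 * d) + 2 * d := by omega
          conv_lhs => rw [this]
          ring
        have e1 : h * n - d * n = d * n + (h - 2 * d) * n := by omega
        rw [e1]
        apply mul_le_mul
        · apply brick_bound (p := p) (d * n) ((h - 2 * d) * n) k M hM1
          · rw [hM]; exact_mod_cast (by omega : (h - 2 * d) * n + 1 ≤ 2 * (h * n) + 1)
          · rw [hM]; exact_mod_cast (by omega : d * n + (h - 2 * d) * n ≤ 2 * (h * n) + 1)
          · rw [hM]; exact_mod_cast (by omega : k ≤ 2 * (h * n) + 1)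
        · have := ih (fun d' hd' => hl d' (List.mem_cons_of_mem _ hd'))
          exact this
        · apply List.prod_nonneg
          intro a ha
          rw [List.mem_map] at ha
          obtain ⟨d', _, rfl⟩ := ha
          apply mul_nonneg (padicNorm.nonneg _)
          apply Finset.prod_nonneg
          intro m _
          split_ifs
          · exact zero_le_one
          · exact inv_nonneg.2 (padicNorm.nonneg _)
        · positivity
    have h7 : mu h n ds k - i ≤ ds.length := (Nat.sub_le _ _).trans (mu_le_length h n ds k)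
    calc _ ≤ (M ^ 2) ^ ds.length * M ^ (mu h n ds k - i) := by
          apply mul_le_mul_of_nonneg_right (h6 ds h2); positivity
      _ ≤ (M ^ 2) ^ ds.length * M ^ ds.length := by
          apply mul_le_mul_of_nonneg_left _ (by positivity)
          exact pow_le_pow_right₀ hM1 h7
      _ = M ^ (3 * ds.length) := by rw [← pow_mul, ← pow_add]; congr 1; ring
  · rw [padicNorm.zero]
    positivity

end

end Pool.Agent.H337R2
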