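import Pool.Agent.H337R2.Main

/-!
# A verified checker for the cells
-/

namespace Pool.Agent.H337R2

/-- the list with multiplicities -/
def expd (dm : List (ℕ × ℕ)) : List ℕ := dm.flatMap fun x => List.replicate x.2 x.1

/-- points: position, shift, weight -/
def ptsc (b h c : ℕ) (dm : List (ℕ × ℕ)) : List (ℕ × ℕ × ℤ) :=
  (0, 0, -(b : ℤ)) :: (c, 0, (b : ℤ)) :: (h, 1, (b : ℤ)) :: (h - c, 1, -(b : ℤ)) ::
    dm.flatMap fun x => [(h - x.1, 0, -(x.2 : ℤ)), (x.1, 1, (x.2 : ℤ))]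

/-- insertion by key -/
def ins {α : Type} (a : ℕ × α) : List (ℕ × α) → List (ℕ × α)
  | [] => [a]
  | b :: l => bif Nat.ble a.1 b.1 then a :: b :: l else b :: ins a l

/-- insertion sort by key -/
def isort {α : Type} : List (ℕ × α) → List (ℕ × α)
  | [] => []
  | a :: l => ins a (isort l)

lemma ins_perm {α : Type} (a : ℕ × α) (l : List (ℕ × α)) : (ins a l).Perm (a :: l) := by
  induction l with
  | nil => exact List.Perm.refl _
  | cons b l ih =>
    unfold ins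
    cases Nat.ble a.1 b.1 with
    | true => exact List.Perm.refl _
    | false => exact ((List.Perm.cons b ih).trans (List.Perm.swap a b l))

lemma isort_perm {α : Type} (l : List (ℕ × α)) : (isort l).Perm l := by
  induction l with
  | nil => exact List.Perm.refl _
  | cons a l ih => exact (ins_perm a _).trans (List.Perm.cons a ih)

/-- possibility of a large shift -/
def poss (fc fD : ℕ) (ci di : Bool) : Bool :=
  Nat.ble (fc + 3) fD || (Nat.beq fD (fc + 2) && (ci || !di)) || (Nat.beq fD (fc + 1) && ci && !di)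

/-- test at one position -/
def ok (t1 t0 : ℤ) (fc fD : ℕ) (top : Bool) (acc : ℤ) (ci di : Bool) : Bool :=
  (top || decide (t0 ≤ acc)) && (!(poss fc fD ci di) || decide (t1 ≤ acc))

/-- run through all the positions -/
def run (t1 t0 : ℤ) (c D' fc fD : ℕ) (top : Bool) : List (ℕ × ℕ × ℤ × ℕ) → ℤ → Bool → Bool → Bool
  | [], acc, ci, di => ok t1 t0 fc fD top acc ci di
  | x :: L, acc, ci, di => ok t1 t0 fc fD top acc ci di &&
      run t1 t0 c D' fc fD top L (acc - x.2.2.1) (ci || Nat.beq x.1 c) (di || Nat.beq x.1 D')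

/-- floor check of an entry -/
def flOK (x y : ℕ × ℕ) (e : ℕ × ℕ × ℤ × ℕ) : Bool :=
  (Nat.beq e.1 0 && Nat.beq e.2.1 0 && Nat.beq e.2.2.2 0) ||
    (Nat.ble 1 e.1 && Nat.ble e.2.1 1 && Nat.ble (e.2.2.2 * x.2) (e.1 * x.1) && Nat.ble (e.1 * y.1) ((e.2.2.2 + 1) * y.2))

/-- comparison of two consecutive entries on the cell -/
def cmpOK (x y : ℕ × ℕ) (e1 e2 : ℕ × ℕ × ℤ × ℕ) : Bool :=
  (Nat.ble (e1.1 + 1) e2.1 && Nat.ble (e1.1 * x.1 + e2.2.2.2 * x.2) (e2.1 * x.1 + e1.2.2.2 * x.2)) ||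
    (Nat.ble (e2.1 + 1) e1.1 && Nat.ble (e1.1 * y.1 + e2.2.2.2 * y.2) (e2.1 * y.1 + e1.2.2.2 * y.2))

/-- chain check -/
def chain (x y : ℕ × ℕ) : List (ℕ × ℕ × ℤ × ℕ) → Bool
  | e1 :: e2 :: L => cmpOK x y e1 e2 && chain x y (e2 :: L)
  | _ => true

/-- the entries of a cell -/
def ents (b h c : ℕ) (dm : List (ℕ × ℕ)) (mn md : ℕ) : List (ℕ × ℕ × ℤ × ℕ) :=
  (isort ((ptsc b h c dm).map fun z => ((z.1 * mn) % md, (z.1, z.2.1, z.2.2, (z.1 * mn) / md)))).map Prod.snd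

/-- sum of weights times floors -/
def sumf : List (ℕ × ℕ × ℤ × ℕ) → ℤ
  | [] => 0
  | e :: L => e.2.2.1 * e.2.2.2 + sumf L

/-- sum of the floors of the brick lengths -/
def sumg (h : ℕ) (mn md : ℕ) : List (ℕ × ℕ) → ℕ
  | [] => 0
  | z :: L => z.2 * (((h - 2 * z.1) * mn) / md) + sumg h mn md L

/-- check of the floors of the brick lengths -/
def gOK (h : ℕ) (mn md : ℕ) (x y : ℕ × ℕ) : List (ℕ × ℕ) → Bool
  | [] => true
  | z :: L => (Nat.ble ((((h - 2 * z.1) * mn) / md) * x.2) ((h - 2 * z.1) * x.1) &&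
      Nat.ble ((h - 2 * z.1) * y.1) ((((h - 2 * z.1) * mn) / md + 1) * y.2)) && gOK h mn md x y L

/-- check of a cell -/
def cellOK (b h c D : ℕ) (dm : List (ℕ × ℕ)) (t1 t0 : ℤ) (x y : ℕ × ℕ) : Bool :=
  let mn := x.1 + y.1
  let md := x.2 + y.2
  let L := ents b h c dm mn md
  let fc := (c * mn) / md
  let fD := ((h - D) * mn) / md
  L.all (flOK x y) && chain x y L && gOK h mn md x y dm &&
    flOK x y (c, 0, 0, fc) && flOK x y (h - D, 0, 0, fD) &&
    run t1 t0 c (h - D) fc fD (Nat.ble ((h - 2 * D) * y.1) y.2) L (sumf L - 2 * b * fc + sumg h mn md dm) false false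

end Pool.Agent.H337R2
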