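import Pool.Agent.H337R2.RealSup

/-!
# Certificates with the bound on the half line
-/

open Filter Topology

namespace Pool.Agent.H337R2

/-- all the computations needed for the real bound -/
structure CertR (b h c D : ℕ) (dm : List (ℕ × ℕ)) (C : List (ℕ × ℕ × ℕ)) (q X l : ℕ) (G : List ℕ) (Sc : ℕ) : Prop where
  hb : 2 ≤ b
  hcD : c < D
  hcc : 2 * c + D < h
  hDD : 2 * D + c < h
  hdm : ∀ z ∈ dm, 2 * z.1 < h ∧ D ≤ z.1
  hDm : D ∈ expd dm
  hlen : 3 ≤ (expd dm).length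
  hev : Even (expd dm).length
  hdeg : 2 * b * c ≤ ((expd dm).map fun d => h - 2 * d).sum
  hq : 0 < q
  hX : realOK b h c q X dm (0 :: l :: G) = true
  hC : cellsOK b h c D dm C = true
  hne : C ≠ []
  hhead : (C.head hne).1 = 1 ∧ (C.head hne).2.1 = h - D - c
  hpos : ∀ y ∈ C, 0 < y.2.1
  hlast : 0 < (C.getLast hne).1
  hneg : -(X : ℚ) / q + ((costN Sc C : ℚ) / Sc +
    ((b - 1 + (expd dm).length : ℕ) : ℚ) * (((C.getLast hne).2.1 : ℚ) / (C.getLast hne).1)) < 0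
  hSc : 0 < Sc

theorem certR_irrational {b h c D : ℕ} {dm : List (ℕ × ℕ)} {C : List (ℕ × ℕ × ℕ)} {q X l : ℕ} {G : List ℕ} {Sc : ℕ}
    (H : CertR b h c D dm C q X l G Sc) :
    ∃ i, Odd i ∧ 3 ≤ i ∧ i ≤ (expd dm).length ∧ Irrational (zr (i + (b - 1))) := by
  have hc : ∀ d ∈ expd dm, c < d := by
    intro d hd
    obtain ⟨z, hz, hzd⟩ := mem_expd hd
    have := (H.hdm z hz).2
    have := H.hcD
    omega
  have h2 : ∀ d ∈ expd dm, 2 * d < h := by
    intro d hd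
    obtain ⟨z, hz, hzd⟩ := mem_expd hd
    have := (H.hdm z hz).1
    omega
  have hD : ∀ d ∈ expd dm, D ≤ d := by
    intro d hd
    obtain ⟨z, hz, hzd⟩ := mem_expd hd
    have := (H.hdm z hz).2
    omega
  have hcc := H.hcc
  have hcD := H.hcD
  have P : Params b h c D (expd dm) := ⟨by have := H.hb; omega, H.hDm, hD, hc, h2, H.hcc, H.hDD, H.hlen, H.hev, H.hdeg⟩
  obtain ⟨hV, hI⟩ := cellsOK_sound H.hcD H.hcc H.hDD H.hdm C H.hC
  have hcost := cost_le Sc H.hSc C H.hC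
  have hsup : ∀ τ : ℝ, 0 ≤ τ → f0 b h c (expd dm) τ ≤ -(X : ℝ) / q := fun τ hτ =>
    realOK_sound H.hq (by omega) (fun z hz => (H.hdm z hz).1) l G H.hX hτ
  have hbound := real_bound b h c (expd dm) (by have := H.hb; omega) hc h2 (by omega) (by omega) H.hlen (-(X : ℝ) / q) hsup
  have hneg : -(X : ℝ) / q + ((costN Sc C : ℝ) / Sc + ((b - 1 + (expd dm).length : ℕ) : ℝ) * (((C.getLast H.hne).2.1 : ℝ) / (C.getLast H.hne).1)) < 0 := by
    have h3 := H.hneg
    have h4 : ((-(X : ℚ) / q + ((costN Sc C : ℚ) / Sc +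
    ((b - 1 + (expd dm).length : ℕ) : ℚ) * (((C.getLast H.hne).2.1 : ℚ) / (C.getLast H.hne).1)) : ℚ) : ℝ) < 0 := by exact_mod_cast h3
    rw [Rat.cast_add, Rat.cast_div, Rat.cast_neg, Rat.cast_natCast, Rat.cast_natCast, Rat.cast_add, Rat.cast_div, Rat.cast_mul,
      Rat.cast_div, Rat.cast_natCast, Rat.cast_natCast, Rat.cast_natCast, Rat.cast_natCast, Rat.cast_natCast] at h4
    exact h4
  obtain ⟨x, L, hxL⟩ : ∃ x L, C = x :: L := List.exists_cons_of_ne_nil H.hne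
  subst hxL
  have hhead := H.hhead
  simp only [List.head_cons] at hhead
  apply criterion b h c D (expd dm) P x L hV hI hhead.1 hhead.2 H.hpos H.hlast (-(X : ℝ) / q) (fun ε hε => hbound ε hε)
  linarith

end Pool.Agent.H337R2
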