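import Pool.Agent.H337R2.Check

/-!
# Soundness of the checker
-/

namespace Pool.Agent.H337R2

/-- residue of an entry -/
def rr (p n : ℕ) (e : ℕ × ℕ × ℤ × ℕ) : ℤ := (e.1 : ℤ) * n - e.2.1 - p * e.2.2.2

lemma flOK_lt {x y : ℕ × ℕ} {p n : ℕ} {e : ℕ × ℕ × ℤ × ℕ} (h1 : x.1 * p < x.2 * n) (h2 : y.2 * n < y.1 * p)
    (hy : 0 < y.2) (h : flOK x y e = true) : 0 ≤ rr p n e ∧ rr p n e < p ∧ e.2.1 ≤ 1 := by
  unfold flOK at h
  unfold rr
  rw [Bool.or_eq_true] at h
  have hp : 0 < p := by
    rcases Nat.eq_zero_or_pos p with h3 | h3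
    · subst h3; omega
    · exact h3
  rcases h with h | h
  · rw [Bool.and_eq_true, Bool.and_eq_true, Nat.beq_eq, Nat.beq_eq, Nat.beq_eq] at h
    rw [h.1.1, h.1.2, h.2]
    simp [hp]
  · rw [Bool.and_eq_true, Bool.and_eq_true, Bool.and_eq_true, Nat.ble_eq, Nat.ble_eq, Nat.ble_eq, Nat.ble_eq] at h
    obtain ⟨⟨⟨h3, h4⟩, h5⟩, h6⟩ := h
    have hx2 : 0 < x.2 := by
      rcases Nat.eq_zero_or_pos x.2 with h7 | h7
      · rw [h7] at h1; omega
      · exact h7
    have a1 : e.2.2.2 * p < e.1 * n := by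
      have b1 : e.2.2.2 * x.2 * p ≤ e.1 * x.1 * p := Nat.mul_le_mul_right p h5
      have b2 : e.1 * (x.1 * p) < e.1 * (x.2 * n) := Nat.mul_lt_mul_of_pos_left h1 (by omega)
      have b3 : (e.2.2.2 * p) * x.2 < (e.1 * n) * x.2 := by
        calc _ = e.2.2.2 * x.2 * p := by ring
          _ ≤ e.1 * x.1 * p := b1
          _ = e.1 * (x.1 * p) := by ring
          _ < _ := b2
          _ = _ := by ring
      exact lt_of_mul_lt_mul_right b3 (Nat.zero_le _)
    have a2 : e.1 * n < (e.2.2.2 + 1) * p := by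
      have b1 : e.1 * y.1 * p ≤ (e.2.2.2 + 1) * y.2 * p := Nat.mul_le_mul_right p h6
      have b2 : e.1 * (y.2 * n) < e.1 * (y.1 * p) := Nat.mul_lt_mul_of_pos_left h2 (by omega)
      have b3 : (e.1 * n) * y.2 < ((e.2.2.2 + 1) * p) * y.2 := by
        calc _ = e.1 * (y.2 * n) := by ring
          _ < _ := b2
          _ = e.1 * y.1 * p := by ring
          _ ≤ _ := b1
          _ = _ := by ring
      exact lt_of_mul_lt_mul_right b3 (Nat.zero_le _)
    have a1' : ((e.2.2.2 * p : ℕ) : ℤ) < ((e.1 * n : ℕ) : ℤ) := by exact_mod_cast a1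
    have a2' : ((e.1 * n : ℕ) : ℤ) < (((e.2.2.2 + 1) * p : ℕ) : ℤ) := by exact_mod_cast a2
    have h4' : ((e.2.1 : ℕ) : ℤ) ≤ 1 := by exact_mod_cast h4
    push_cast at a1' a2'
    refine ⟨?_, ?_, h4⟩
    · nlinarith
    · have : (0 : ℤ) ≤ e.2.1 := by positivity
      nlinarith

lemma cmpOK_le {x y : ℕ × ℕ} {p n : ℕ} {e1 e2 : ℕ × ℕ × ℤ × ℕ} (h1 : x.1 * p < x.2 * n) (h2 : y.2 * n < y.1 * p)
    (hy : 0 < y.2) (hf2 : e2.2.1 ≤ 1) (h : cmpOK x y e1 e2 = true) : rr p n e1 ≤ rr p n e2 := by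
  unfold cmpOK at h
  unfold rr
  rw [Bool.or_eq_true, Bool.and_eq_true, Bool.and_eq_true, Nat.ble_eq, Nat.ble_eq, Nat.ble_eq, Nat.ble_eq] at h
  have hx2 : 0 < x.2 := by
    rcases Nat.eq_zero_or_pos x.2 with h7 | h7
    · rw [h7] at h1; omega
    · exact h7
  have h1' : ((x.1 * p : ℕ) : ℤ) < ((x.2 * n : ℕ) : ℤ) := by exact_mod_cast h1
  have h2' : ((y.2 * n : ℕ) : ℤ) < ((y.1 * p : ℕ) : ℤ) := by exact_mod_cast h2
  push_cast at h1' h2'
  have hx2' : (0 : ℤ) < x.2 := by exact_mod_cast hx2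
  have hy2' : (0 : ℤ) < y.2 := by exact_mod_cast hy
  have hp' : (0 : ℤ) ≤ p := by positivity
  have hf2' : (e2.2.1 : ℤ) ≤ 1 := by exact_mod_cast hf2
  have hf1' : (0 : ℤ) ≤ (e1.2.1 : ℤ) := by positivity
  have key : ((e2.2.2.2 : ℤ) - e1.2.2.2) * p < ((e2.1 : ℤ) - e1.1) * n := by
    rcases h with ⟨h3, h4⟩ | ⟨h3, h4⟩
    · have h3' : (e1.1 : ℤ) + 1 ≤ e2.1 := by exact_mod_cast h3
      have h4' : ((e1.1 * x.1 + e2.2.2.2 * x.2 : ℕ) : ℤ) ≤ ((e2.1 * x.1 + e1.2.2.2 * x.2 : ℕ) : ℤ) := by exact_mod_cast h4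
      push_cast at h4'
      have b1 : ((e2.2.2.2 : ℤ) - e1.2.2.2) * x.2 * p ≤ ((e2.1 : ℤ) - e1.1) * x.1 * p := by
        apply mul_le_mul_of_nonneg_right _ hp'
        linarith
      have b2 : ((e2.1 : ℤ) - e1.1) * (x.1 * p) < ((e2.1 : ℤ) - e1.1) * (x.2 * n) := by
        apply mul_lt_mul_of_pos_left h1'
        linarith
      have b3 : (((e2.2.2.2 : ℤ) - e1.2.2.2) * p) * x.2 < (((e2.1 : ℤ) - e1.1) * n) * x.2 := by
        linarith
      exact lt_of_mul_lt_mul_right b3 hx2'.le
    · have h3' : (e2.1 : ℤ) + 1 ≤ e1.1 := by exact_mod_cast h3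
      have h4' : ((e1.1 * y.1 + e2.2.2.2 * y.2 : ℕ) : ℤ) ≤ ((e2.1 * y.1 + e1.2.2.2 * y.2 : ℕ) : ℤ) := by exact_mod_cast h4
      push_cast at h4'
      have b1 : ((e2.2.2.2 : ℤ) - e1.2.2.2) * y.2 * p ≤ ((e2.1 : ℤ) - e1.1) * y.1 * p := by
        apply mul_le_mul_of_nonneg_right _ hp'
        linarith
      have b2 : ((e1.1 : ℤ) - e2.1) * (y.2 * n) < ((e1.1 : ℤ) - e2.1) * (y.1 * p) := by
        apply mul_lt_mul_of_pos_left h2'
        linarith
      have b3 : (((e2.2.2.2 : ℤ) - e1.2.2.2) * p) * y.2 < (((e2.1 : ℤ) - e1.1) * n) * y.2 := by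
        linarith
      exact lt_of_mul_lt_mul_right b3 hy2'.le
  nlinarith

lemma chain_pairwise {x y : ℕ × ℕ} {p n : ℕ} (h1 : x.1 * p < x.2 * n) (h2 : y.2 * n < y.1 * p)
    (hy : 0 < y.2) (L : List (ℕ × ℕ × ℤ × ℕ)) (hL : ∀ e ∈ L, e.2.1 ≤ 1) (h : chain x y L = true) :
    L.Pairwise (fun e1 e2 => rr p n e1 ≤ rr p n e2) := by
  induction L with
  | nil => exact List.Pairwise.nil
  | cons e1 L ih =>
    cases L with
    | nil => simp
    | cons e2 L =>
      unfold chain at h
      rw [Bool.and_eq_true] at h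
      have ih' := ih (fun e he => hL e (List.mem_cons_of_mem _ he)) h.2
      have h3 := cmpOK_le h1 h2 hy (hL e2 (by simp)) h.1
      refine List.Pairwise.cons ?_ ih'
      intro e he
      rcases List.mem_cons.1 he with rfl | he
      · exact h3
      · exact h3.trans ((List.pairwise_cons.1 ih').1 e he)

lemma run_sound (t1 t0 : ℤ) (c D' fc fD : ℕ) (top : Bool) (r : ℕ × ℕ × ℤ × ℕ → ℤ) (κ : ℤ)
    (L : List (ℕ × ℕ × ℤ × ℕ)) (hL : L.Pairwise (fun e1 e2 => r e1 ≤ r e2)) (acc : ℤ) (ci di : Bool)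
    (h : run t1 t0 c D' fc fD top L acc ci di = true) :
    ok t1 t0 fc fD top (acc - (L.map fun e => if r e < κ then e.2.2.1 else 0).sum)
      (ci || L.any (fun e => Nat.beq e.1 c && decide (r e < κ)))
      (di || L.any (fun e => Nat.beq e.1 D' && decide (r e < κ))) = true := by
  induction L generalizing acc ci di with
  | nil =>
    unfold run at h
    simpa using h
  | cons e L ih =>
    unfold run at h
    rw [Bool.and_eq_true] at h
    rw [List.pairwise_cons] at hL
    by_cases he : r e < κ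
    · have h3 := ih hL.2 _ _ _ h.2
      have g1 : acc - (List.map (fun e => if r e < κ then e.2.2.1 else 0) (e :: L)).sum
          = acc - e.2.2.1 - (List.map (fun e => if r e < κ then e.2.2.1 else 0) L).sum := by
        simp only [List.map_cons, List.sum_cons, he, if_true]
        ring
      have g2 : ∀ (b0 : Bool) (v : ℕ), (b0 || (e :: L).any (fun e => Nat.beq e.1 v && decide (r e < κ)))
          = (b0 || Nat.beq e.1 v || L.any (fun e => Nat.beq e.1 v && decide (r e < κ))) := by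
        intro b0 v
        rw [List.any_cons, decide_eq_true he, Bool.and_true, Bool.or_assoc]
      rw [g1, g2, g2]
      exact h3
    · have hall : ∀ e' ∈ e :: L, ¬ r e' < κ := by
        intro e' he'
        rcases List.mem_cons.1 he' with rfl | he'
        · exact he
        · have := hL.1 e' he'
          omega
      have s0 : ((e :: L).map fun e => if r e < κ then e.2.2.1 else 0).sum = 0 := by
        apply List.sum_eq_zero
        intro a ha
        rw [List.mem_map] at ha
        obtain ⟨e', he', rfl⟩ := ha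
        rw [if_neg (hall e' he')]
      have a0 : ∀ v, (e :: L).any (fun e => Nat.beq e.1 v && decide (r e < κ)) = false := by
        intro v
        rw [List.any_eq_false]
        intro e' he'
        simp [hall e' he']
      rw [s0, a0, a0, sub_zero, Bool.or_false, Bool.or_false]
      exact h.1

lemma floor_shift (p : ℤ) (hp : 0 < p) (f r K κ : ℤ) (hr0 : 0 ≤ r) (hr : r < p) (hκ0 : 0 ≤ κ) (hκ : κ < p) :
    (p * f + r - (p * K + κ)) / p = f - K - if r < κ then 1 else 0 := by
  have h1 : p * f + r - (p * K + κ) = (r - κ) + p * (f - K) := by ring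
  rw [h1, Int.add_mul_ediv_left _ _ hp.ne']
  split_ifs with h
  · have : (r - κ) / p = -1 := by
      rw [Int.ediv_eq_iff_of_pos hp] 
      constructor <;> linarith
    rw [this]; ring
  · rw [Int.ediv_eq_zero_of_lt (by linarith) (by linarith)]; ring

lemma sum_expd (dm : List (ℕ × ℕ)) (f : ℕ → ℕ) :
    ((expd dm).map f).sum = (dm.map fun z => z.2 * f z.1).sum := by
  unfold expd
  induction dm with
  | nil => simp
  | cons z L ih =>
    rw [List.flatMap_cons, List.map_append, List.sum_append, ih, List.map_cons, List.sum_cons,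
      List.map_replicate, List.sum_replicate, smul_eq_mul]

lemma mem_expd {dm : List (ℕ × ℕ)} {d : ℕ} (h : d ∈ expd dm) : ∃ z ∈ dm, z.1 = d := by
  unfold expd at h
  rw [List.mem_flatMap] at h
  obtain ⟨z, hz, hd⟩ := h
  exact ⟨z, hz, (List.eq_of_mem_replicate hd).symm⟩

lemma sumg_eq (h mn md : ℕ) (dm : List (ℕ × ℕ)) :
    sumg h mn md dm = (dm.map fun z => z.2 * (((h - 2 * z.1) * mn) / md)).sum := by
  induction dm with
  | nil => simp [sumg]
  | cons z L ih => simp [sumg, ih]

lemma sumf_eq (L : List (ℕ × ℕ × ℤ × ℕ)) : sumf L = (L.map fun e => e.2.2.1 * (e.2.2.2 : ℤ)).sum := by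
  induction L with
  | nil => simp [sumf]
  | cons z L ih => simp [sumf, ih]

lemma sum_ptsc (b h c : ℕ) (dm : List (ℕ × ℕ)) (G : ℕ × ℕ × ℤ → ℤ) :
    ((ptsc b h c dm).map G).sum = G (0, 0, -(b : ℤ)) + G (c, 0, (b : ℤ)) + G (h, 1, (b : ℤ)) + G (h - c, 1, -(b : ℤ)) +
      (dm.map fun x => G (h - x.1, 0, -(x.2 : ℤ)) + G (x.1, 1, (x.2 : ℤ))).sum := by
  unfold ptsc
  simp only [List.map_cons, List.sum_cons]
  have : (List.map G (List.flatMap (fun x => [(h - x.1, 0, -(x.2 : ℤ)), (x.1, 1, (x.2 : ℤ))]) dm)).sum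
      = (dm.map fun x => G (h - x.1, 0, -(x.2 : ℤ)) + G (x.1, 1, (x.2 : ℤ))).sum := by
    induction dm with
    | nil => simp
    | cons z L ih =>
      rw [List.flatMap_cons, List.map_append, List.sum_append, ih, List.map_cons, List.sum_cons]
      simp only [List.map_cons, List.map_nil, List.sum_cons, List.sum_nil]
      ring
  rw [this]
  ring

/-- the exponent in terms of the points -/
lemma ee_pts (p b h c n k : ℕ) (dm : List (ℕ × ℕ)) (hp : 0 < p) (hch : c ≤ h) (hhn : 1 ≤ h * n)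
    (h2 : ∀ z ∈ dm, 2 * z.1 < h) :
    ee p b h c n (expd dm) k = ((ptsc b h c dm).map fun z => z.2.2 * (((z.1 : ℤ) * n - z.2.1 - k) / p)).sum
      - 2 * b * ((c * n / p : ℕ) : ℤ) + ((dm.map fun z => z.2 * ((h - 2 * z.1) * n / p)).sum : ℕ) := by
  unfold ee
  rw [n1_eq p h c n k hp hch hhn, sum_ptsc]
  unfold nq
  rw [sum_expd, sum_expd]
  have h3 : (((dm.map fun z => z.2 * cnt p (z.1 * n) (h * n - z.1 * n) k).sum : ℕ) : ℤ) =
      -(dm.map fun x => -(x.2 : ℤ) * ((((h - x.1 : ℕ) : ℤ) * n - ((0 : ℕ) : ℤ) - k) / p) +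
        (x.2 : ℤ) * (((x.1 : ℤ) * n - ((1 : ℕ) : ℤ) - k) / p)).sum := by
    induction dm with
    | nil => simp
    | cons z L ih =>
      simp only [List.map_cons, List.sum_cons]
      have hz := h2 z List.mem_cons_self
      have ih' := ih (fun z hz => h2 z (List.mem_cons_of_mem _ hz))
      have h4 := cnt_brick p h z.1 n k hp hz
      push_cast at ih' h4 ⊢
      rw [ih', h4]
      have h5 : ((h - z.1 : ℕ) : ℤ) = (h : ℤ) - z.1 := by
        rw [Nat.cast_sub (by omega)]
      rw [h5]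
      have h6 : ((h : ℤ) - z.1) * n - 0 - k = (h : ℤ) * n - z.1 * n - k := by ring
      rw [h6]
      ring
  rw [h3, Nat.cast_sub hch]
  have h7 : ((0 : ℕ) : ℤ) * n - ((0 : ℕ) : ℤ) - k = -(k : ℤ) := by push_cast; ring
  have h8 : (c : ℤ) * n - ((0 : ℕ) : ℤ) - k = (c : ℤ) * n - k := by push_cast; ring
  have h9 : (h : ℤ) * n - ((1 : ℕ) : ℤ) - k = (h : ℤ) * n - 1 - k := by push_cast; ring
  have h10 : ((h : ℤ) - c) * n - ((1 : ℕ) : ℤ) - k = (h : ℤ) * n - c * n - 1 - k := by push_cast; ring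
  simp only [h7, h8, h9, h10]
  ring

lemma ents_sum (b h c : ℕ) (dm : List (ℕ × ℕ)) (mn md : ℕ) (G : ℕ × ℕ × ℤ × ℕ → ℤ) :
    ((ents b h c dm mn md).map G).sum =
      ((ptsc b h c dm).map fun z => G (z.1, z.2.1, z.2.2, (z.1 * mn) / md)).sum := by
  unfold ents
  have h1 := (isort_perm ((ptsc b h c dm).map fun z => ((z.1 * mn) % md, (z.1, z.2.1, z.2.2, (z.1 * mn) / md))))
  have h2 := (h1.map Prod.snd).map G
  rw [h2.sum_eq]
  simp only [List.map_map]
  rfl

lemma mem_ents {b h c : ℕ} {dm : List (ℕ × ℕ)} {mn md : ℕ} {e : ℕ × ℕ × ℤ × ℕ} :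
    e ∈ ents b h c dm mn md ↔ ∃ z ∈ ptsc b h c dm, e = (z.1, z.2.1, z.2.2, (z.1 * mn) / md) := by
  unfold ents
  have h1 := (isort_perm ((ptsc b h c dm).map fun z => ((z.1 * mn) % md, (z.1, z.2.1, z.2.2, (z.1 * mn) / md))))
  rw [(h1.map Prod.snd).mem_iff]
  simp only [List.map_map, List.mem_map, Function.comp]
  constructor
  · rintro ⟨z, hz, rfl⟩; exact ⟨z, hz, rfl⟩
  · rintro ⟨z, hz, rfl⟩; exact ⟨z, hz, rfl⟩

lemma gOK_sound (h mn md : ℕ) {x y : ℕ × ℕ} {p n : ℕ} (h1 : x.1 * p < x.2 * n) (h2 : y.2 * n < y.1 * p)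
    (hy : 0 < y.2) (hn : 1 ≤ n) (dm : List (ℕ × ℕ)) (hdm : ∀ z ∈ dm, 2 * z.1 < h) (hg : gOK h mn md x y dm = true) :
    (dm.map fun z => z.2 * (((h - 2 * z.1) * mn) / md)).sum = (dm.map fun z => z.2 * ((h - 2 * z.1) * n / p)).sum := by
  induction dm with
  | nil => rfl
  | cons z L ih =>
    unfold gOK at hg
    rw [Bool.and_eq_true, Bool.and_eq_true] at hg
    have hz := hdm z List.mem_cons_self
    rw [List.map_cons, List.map_cons, List.sum_cons, List.sum_cons,
      ih (fun z hz => hdm z (List.mem_cons_of_mem _ hz)) hg.2]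
    congr 2
    set f := ((h - 2 * z.1) * mn) / md with hf
    have hfl : flOK x y (h - 2 * z.1, 0, 0, f) = true := by
      unfold flOK
      rw [Bool.or_eq_true]
      right
      simp only [Bool.and_eq_true]
      refine ⟨⟨⟨?_, ?_⟩, hg.1.1⟩, hg.1.2⟩
      · rw [Nat.ble_eq]; omega
      · rfl
    have h3 := flOK_lt h1 h2 hy hfl
    unfold rr at h3
    simp only at h3
    have hp : 0 < p := by
      rcases Nat.eq_zero_or_pos p with h3 | h3
      · subst h3; omega
      · exact h3
    symm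
    have h4 : ((h - 2 * z.1) * n / p : ℕ) = f := by
      rw [Nat.div_eq_iff hp]
      obtain ⟨a1, a2, _⟩ := h3
      push_cast at a1 a2
      have a1' : ((p * f : ℕ) : ℤ) ≤ (((h - 2 * z.1) * n : ℕ) : ℤ) := by push_cast; linarith
      have a2' : (((h - 2 * z.1) * n : ℕ) : ℤ) < ((p * f + p : ℕ) : ℤ) := by push_cast; linarith
      have a1'' : p * f ≤ (h - 2 * z.1) * n := by exact_mod_cast a1'
      have a2'' : (h - 2 * z.1) * n < p * f + p := by exact_mod_cast a2'
      have a3 : f * p = p * f := mul_comm _ _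
      omega
    exact h4

theorem cellOK_sound {b h c D : ℕ} {dm : List (ℕ × ℕ)} {t1 t0 : ℤ} {x y : ℕ × ℕ} (hcD : c < D) (hch : 2 * c + D < h)
    (hdm : ∀ z ∈ dm, 2 * z.1 < h) (hD2 : 2 * D < h) (hy : 0 < y.2) (hok : cellOK b h c D dm t1 t0 x y = true)
    {p n k : ℕ} (hn : 1 ≤ n) (h1 : x.1 * p < x.2 * n) (h2 : y.2 * n < y.1 * p) (hk : k ≤ (h - D) * n) :
    (c * n + 1 + p ≤ k → t1 ≤ ee p b h c n (expd dm) k) ∧
      ((h - 2 * D) * n < p ∨ t0 ≤ ee p b h c n (expd dm) k) := by
  have hp : 0 < p := by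
    rcases Nat.eq_zero_or_pos p with h3 | h3
    · subst h3; omega
    · exact h3
  have hp' : (0 : ℤ) < p := by exact_mod_cast hp
  unfold cellOK at hok
  simp only [Bool.and_eq_true] at hok
  set mn := x.1 + y.1 with hmn
  set md := x.2 + y.2 with hmd
  set L := ents b h c dm mn md with hL
  set fc := (c * mn) / md with hfc
  set fD := ((h - D) * mn) / md with hfD
  obtain ⟨⟨⟨⟨⟨k1, k2⟩, k3⟩, k4⟩, k5⟩, k6⟩ := hok
  rw [List.all_eq_true] at k1
  have hfl : ∀ e ∈ L, 0 ≤ rr p n e ∧ rr p n e < p ∧ e.2.1 ≤ 1 := fun e he => flOK_lt h1 h2 hy (k1 e he)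
  have hpw := chain_pairwise (p := p) (n := n) h1 h2 hy L (fun e he => (hfl e he).2.2) k2
  have hc' := flOK_lt h1 h2 hy k4
  have hD' := flOK_lt h1 h2 hy k5
  set rc := rr p n (c, 0, 0, fc) with hrc
  set rD := rr p n (h - D, 0, 0, fD) with hrD
  set K : ℤ := (k : ℤ) / p with hK
  set κ : ℤ := (k : ℤ) % p with hκ
  have hκ0 : 0 ≤ κ := Int.emod_nonneg _ hp'.ne'
  have hκp : κ < p := Int.emod_lt_of_pos _ hp'
  have hkK : (k : ℤ) = p * K + κ := (Int.mul_ediv_add_emod _ _).symm
  have hrun := run_sound t1 t0 c (h - D) fc fD (Nat.ble ((h - 2 * D) * y.1) y.2) (rr p n) κ L hpw _ _ _ k6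
  -- the exponent
  have hee : ee p b h c n (expd dm) k = (sumf L - 2 * b * fc + sumg h mn md dm) -
      (L.map fun e => if rr p n e < κ then e.2.2.1 else 0).sum := by
    rw [ee_pts p b h c n k dm hp (by omega) (by nlinarith) hdm]
    have g1 : ((ptsc b h c dm).map fun z => z.2.2 * (((z.1 : ℤ) * n - z.2.1 - k) / p)).sum
        = (L.map fun e => e.2.2.1 * (((e.1 : ℤ) * n - e.2.1 - k) / p)).sum := by
      rw [hL, ents_sum]
    have g2 : (L.map fun e => e.2.2.1 * (((e.1 : ℤ) * n - e.2.1 - k) / p)).sum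
        = sumf L - K * (L.map fun e => e.2.2.1).sum - (L.map fun e => if rr p n e < κ then e.2.2.1 else 0).sum := by
      rw [sumf_eq]
      have key : ∀ M : List (ℕ × ℕ × ℤ × ℕ), (∀ e ∈ M, 0 ≤ rr p n e ∧ rr p n e < p ∧ e.2.1 ≤ 1) →
          (M.map fun e => e.2.2.1 * (((e.1 : ℤ) * n - e.2.1 - k) / p)).sum
          = (M.map fun e => e.2.2.1 * (e.2.2.2 : ℤ)).sum - K * (M.map fun e => e.2.2.1).sum -
            (M.map fun e => if rr p n e < κ then e.2.2.1 else 0).sum := by
        intro M hM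
        induction M with
        | nil => simp
        | cons e M ih =>
          simp only [List.map_cons, List.sum_cons]
          rw [ih (fun e he => hM e (List.mem_cons_of_mem _ he))]
          obtain ⟨a1, a2, _⟩ := hM e List.mem_cons_self
          have a3 : (e.1 : ℤ) * n - e.2.1 - k = p * e.2.2.2 + rr p n e - (p * K + κ) := by
            rw [← hkK]; unfold rr; ring
          rw [a3, floor_shift p hp' _ _ _ _ a1 a2 hκ0 hκp]
          split_ifs <;> ring
      exact key L hfl
    have g3 : (L.map fun e => e.2.2.1).sum = 0 := by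
      rw [hL, ents_sum, sum_ptsc]
      have : (dm.map fun x : ℕ × ℕ => -(x.2 : ℤ) + (x.2 : ℤ)).sum = 0 := by
        apply List.sum_eq_zero
        intro a ha
        rw [List.mem_map] at ha
        obtain ⟨z, _, rfl⟩ := ha
        ring
      simp only [this]
      ring
    have g4 : c * n / p = fc := by
      rw [Nat.div_eq_iff hp]
      obtain ⟨a1, a2, _⟩ := hc'
      rw [hrc] at a1 a2
      unfold rr at a1 a2
      push_cast at a1 a2
      have a1' : ((p * fc : ℕ) : ℤ) ≤ ((c * n : ℕ) : ℤ) := by push_cast; linarith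
      have a2' : ((c * n : ℕ) : ℤ) < ((p * fc + p : ℕ) : ℤ) := by push_cast; linarith
      have a1'' : p * fc ≤ c * n := by exact_mod_cast a1'
      have a2'' : c * n < p * fc + p := by exact_mod_cast a2'
      have a3 : fc * p = p * fc := mul_comm _ _
      omega
    rw [g1, g2, g3, g4, sumg_eq, gOK_sound h mn md h1 h2 hy hn dm hdm k3]
    ring
  rw [← hee] at hrun
  unfold ok at hrun
  rw [Bool.and_eq_true, Bool.or_eq_true, Bool.or_eq_true, decide_eq_true_eq, decide_eq_true_eq] at hrun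
  refine ⟨?_, ?_⟩
  · intro hthr
    rcases hrun.2 with h3 | h3
    · exfalso
      rw [Bool.not_eq_true'] at h3
      -- facts on K and κ
      have b1 : (p : ℤ) * fc + rc + 1 + p ≤ p * K + κ := by
        rw [← hkK, hrc]
        unfold rr
        push_cast
        have : ((c * n + 1 + p : ℕ) : ℤ) ≤ (k : ℤ) := by exact_mod_cast hthr
        push_cast at this
        linarith
      have b2 : (p : ℤ) * K + κ ≤ p * fD + rD := by
        rw [← hkK, hrD]
        unfold rr
        push_cast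
        have : (k : ℤ) ≤ (((h - D) * n : ℕ) : ℤ) := by exact_mod_cast hk
        push_cast at this
        linarith
      have c1 : (fc : ℤ) + 1 ≤ K := by
        by_contra hcon
        have : (p : ℤ) * K ≤ p * fc := mul_le_mul_of_nonneg_left (by omega) hp'.le
        linarith [hc'.1]
      have c2 : K ≤ fD := by
        by_contra hcon
        have : (p : ℤ) * (fD + 1) ≤ p * K := mul_le_mul_of_nonneg_left (by omega) hp'.le
        linarith [hD'.2.1]
      have c3 : K = fc + 1 → rc < κ := by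
        intro h4
        rw [h4] at b1
        linarith
      have c4 : K = fD → κ ≤ rD := by
        intro h4
        rw [h4] at b2
        linarith
      have d1 : rc < κ → (false || L.any (fun e => Nat.beq e.1 c && decide (rr p n e < κ))) = true := by
        intro h4
        rw [Bool.false_or, List.any_eq_true]
        refine ⟨(c, 0, (b : ℤ), fc), ?_, ?_⟩
        · rw [hL, mem_ents]
          exact ⟨(c, 0, (b : ℤ)), by simp [ptsc], rfl⟩
        · rw [Bool.and_eq_true, Nat.beq_eq, decide_eq_true_eq]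
          refine ⟨rfl, ?_⟩
          have : rr p n (c, 0, (b : ℤ), fc) = rc := by rw [hrc]; rfl
          rw [this]; exact h4
      have d2 : κ ≤ rD → (false || L.any (fun e => Nat.beq e.1 (h - D) && decide (rr p n e < κ))) = false := by
        intro h4
        rw [Bool.false_or, List.any_eq_false]
        intro e he
        rw [Bool.and_eq_true, Nat.beq_eq, decide_eq_true_eq]
        rintro ⟨h5, h6⟩
        rw [hL, mem_ents] at he
        obtain ⟨z, hz, rfl⟩ := he
        have hz2 : z.2.1 = 0 := by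
          simp only at h5
          unfold ptsc at hz
          simp only [List.mem_cons, List.mem_flatMap, List.not_mem_nil, or_false] at hz
          rcases hz with rfl | rfl | rfl | rfl | ⟨w, hw, hz | hz⟩
          · rfl
          · rfl
          · simp only at h5; omega
          · simp only at h5; omega
          · rw [hz]
          · rw [hz] at h5
            simp only at h5
            have := hdm w hw
            omega
        have : rr p n (z.1, z.2.1, z.2.2, (z.1 * mn) / md) = rD := by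
          rw [hrD]
          unfold rr
          simp only
          simp only at h5
          rw [h5, hz2, hfD]
        rw [this] at h6
        linarith
      unfold poss at h3
      rw [Bool.or_eq_false_iff, Bool.or_eq_false_iff] at h3
      obtain ⟨⟨h4, h5⟩, h6⟩ := h3
      have h4' : ¬ (fc + 3 ≤ fD) := by
        intro h7
        rw [← Nat.ble_eq] at h7
        rw [h7] at h4
        exact Bool.noConfusion h4
      have h8 : fD = fc + 1 ∨ fD = fc + 2 := by omega
      rcases h8 with h8 | h8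
      · have e1 := c3 (by omega)
        have e2 := c4 (by omega)
        rw [d1 e1, d2 e2, h8] at h6
        simp at h6
      · rcases (by omega : K = fc + 1 ∨ K = fD) with h9 | h9
        · have e1 := c3 h9
          rw [d1 e1, h8] at h5
          simp at h5
        · have e2 := c4 h9
          rw [d2 e2, h8] at h5
          simp at h5
    · exact h3
  · rcases hrun.1 with h3 | h3
    · left
      rw [Nat.ble_eq] at h3
      have hy1 : 0 < y.1 := by
        rcases Nat.eq_zero_or_pos y.1 with h7 | h7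
        · rw [h7] at h2; omega
        · exact h7
      have h4 : (h - 2 * D) * y.1 * n ≤ y.2 * n := Nat.mul_le_mul_right n h3
      have h5 : ((h - 2 * D) * n) * y.1 < p * y.1 := by
        calc _ = (h - 2 * D) * y.1 * n := by ring
          _ ≤ _ := h4
          _ < _ := h2
          _ = _ := by ring
      exact lt_of_mul_lt_mul_right h5 (Nat.zero_le _)
    · right; exact h3

end Pool.Agent.H337R2
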