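import Pool.Agent.H337R2.PBd

/-!
# A crude p-adic bound, valid for all primes
-/

open Polynomial

namespace Pool.Agent.H337R2

noncomputable section

set_option linter.unusedSectionVars false

variable {p : ℕ} [hp : Fact p.Prime]

lemma norm_inv_le {a : ℤ} (ha : a ≠ 0) {M : ℚ} (hM : |(a : ℚ)| ≤ M) : (padicNorm p (a : ℚ))⁻¹ ≤ M := by
  refine le_trans ?_ hM
  have ha' : (a : ℚ) ≠ 0 := by exact_mod_cast ha
  rw [padicNorm.eq_zpow_of_nonzero ha', padicValRat.of_int, ← zpow_neg, neg_neg, zpow_natCast]
  have h1 : ((p : ℤ) ^ padicValInt p a) ∣ a := padicValInt_dvd a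
  have h2 := Int.natAbs_dvd_natAbs.2 h1
  rw [Int.natAbs_pow, Int.natAbs_natCast] at h2
  have h3 := Nat.le_of_dvd (Int.natAbs_pos.2 ha) h2
  have h4 : ((p ^ padicValInt p a : ℕ) : ℚ) ≤ (a.natAbs : ℚ) := by exact_mod_cast h3
  rw [Nat.cast_pow] at h4
  refine h4.trans (le_of_eq ?_)
  rw [Nat.cast_natAbs, Int.cast_abs]

/-- ratio bound for one denominator brick -/
lemma brick_bound (A N k : ℕ) (M : ℚ) (hM1 : 1 ≤ M) (hM : (N + 1 : ℚ) ≤ M) (hM2 : ((A + N : ℕ) : ℚ) ≤ M)
    (hM3 : (k : ℚ) ≤ M) :
    padicNorm p (Nat.factorial N : ℚ) * ∏ m ∈ Finset.Icc A (A + N), (if m = k then 1 else (padicNorm p ((m : ℚ) - k))⁻¹)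
      ≤ M ^ 2 := by
  have hp1 : (1 : ℚ) ≤ M ^ 2 := one_le_pow₀ hM1
  have hfac : ∀ n : ℕ, 0 < padicNorm p (Nat.factorial n : ℚ) := fun n =>
    lt_of_le_of_ne (padicNorm.nonneg _) (Ne.symm (padicNorm.nonzero (by exact_mod_cast Nat.factorial_ne_zero n)))
  -- product of consecutive: up
  have up : ∀ u L : ℕ, ∏ m ∈ Finset.Icc (k + u + 1) (k + u + L), (padicNorm p ((m : ℚ) - k))⁻¹
      = padicNorm p (Nat.factorial u : ℚ) / padicNorm p (Nat.factorial (u + L) : ℚ) := by
    intro u L
    induction L with
    | zero => simp [(hfac u).ne']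
    | succ L ih =>
      rw [← add_assoc, Finset.prod_Icc_succ_top (by omega), ih]
      rw [← add_assoc, Nat.factorial_succ]
      push_cast
      rw [padicNorm.mul]
      have e1 : ((k : ℚ) + u + L + 1 - k) = (u : ℚ) + L + 1 := by ring
      rw [e1]
      have e2 : padicNorm p ((u : ℚ) + L + 1) ≠ 0 := padicNorm.nonzero (by positivity)
      have e3 := (hfac (u + L)).ne'
      field_simp
  have down : ∀ u L : ℕ, u + L ≤ k → ∏ m ∈ Finset.Ico (k - u - L) (k - u), (padicNorm p ((m : ℚ) - k))⁻¹
      = padicNorm p (Nat.factorial u : ℚ) / padicNorm p (Nat.factorial (u + L) : ℚ) := by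
    intro u L hL
    induction L with
    | zero => simp [(hfac u).ne']
    | succ L ih =>
      have h1 : Finset.Ico (k - u - (L + 1)) (k - u) = insert (k - u - (L + 1)) (Finset.Ico (k - u - L) (k - u)) := by
        ext x; simp only [Finset.mem_Ico, Finset.mem_insert]; omega
      rw [h1, Finset.prod_insert (by simp; omega), ih (by omega)]
      rw [← add_assoc, Nat.factorial_succ]
      push_cast
      rw [padicNorm.mul]
      have e0 : ((k - u - (L + 1) : ℕ) : ℚ) = (k : ℚ) - u - L - 1 := by
        rw [show k - u - (L + 1) = k - (u + (L + 1)) by omega, Nat.cast_sub (by omega)]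
        push_cast; ring
      have e1 : (((k - u - (L + 1) : ℕ) : ℚ) - k) = -((u : ℚ) + L + 1) := by rw [e0]; ring
      rw [e1, padicNorm.neg]
      have e2 : padicNorm p ((u : ℚ) + L + 1) ≠ 0 := padicNorm.nonzero (by positivity)
      have e3 := (hfac (u + L)).ne'
      field_simp
  have choose_norm : ∀ T : ℕ, (T : ℚ) ≤ M → N + 1 ≤ T →
      padicNorm p (Nat.factorial N : ℚ) * (padicNorm p (Nat.factorial (T - (N + 1)) : ℚ) / padicNorm p (Nat.factorial T : ℚ)) ≤ M ^ 2 := by
    intro T hT hNT
    have e1 : (Nat.factorial T : ℚ) = (Nat.choose T (N + 1) : ℚ) * ((N + 1 : ℕ) : ℚ) * (Nat.factorial N : ℚ) * (Nat.factorial (T - (N + 1)) : ℚ) := by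
      have := Nat.choose_mul_factorial_mul_factorial hNT
      rw [Nat.factorial_succ] at this
      rw [← this]; push_cast; ring
    rw [e1, padicNorm.mul, padicNorm.mul, padicNorm.mul]
    have e2 := (hfac N)
    have e3 := (hfac (T - (N + 1)))
    have hch : Nat.choose T (N + 1) ≠ 0 := (Nat.choose_pos hNT).ne'
    have e4 : 0 < padicNorm p (Nat.choose T (N + 1) : ℚ) :=
      lt_of_le_of_ne (padicNorm.nonneg _) (Ne.symm (padicNorm.nonzero (by exact_mod_cast hch)))
    have e5 : 0 < padicNorm p ((N + 1 : ℕ) : ℚ) :=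
      lt_of_le_of_ne (padicNorm.nonneg _) (Ne.symm (padicNorm.nonzero (by positivity)))
    have e6 : padicNorm p (Nat.factorial N : ℚ) * (padicNorm p (Nat.factorial (T - (N + 1)) : ℚ) /
        (padicNorm p (Nat.choose T (N + 1) : ℚ) * padicNorm p ((N + 1 : ℕ) : ℚ) * padicNorm p (Nat.factorial N : ℚ) *
          padicNorm p (Nat.factorial (T - (N + 1)) : ℚ)))
        = (padicNorm p (Nat.choose T (N + 1) : ℚ))⁻¹ * (padicNorm p ((N + 1 : ℕ) : ℚ))⁻¹ := by
      field_simp
    rw [e6, sq]
    have e7 : (padicNorm p (Nat.choose T (N + 1) : ℚ))⁻¹ ≤ M := by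
      rw [padicNorm.eq_zpow_of_nonzero (by exact_mod_cast hch), padicValRat.of_nat, ← zpow_neg, neg_neg, zpow_natCast]
      refine le_trans ?_ hT
      have h1 := Nat.factorization_choose_le_log (p := p) (n := T) (k := N + 1)
      rw [Nat.factorization_def _ hp.out] at h1
      have h2 : p ^ padicValNat p (Nat.choose T (N + 1)) ≤ T :=
        (Nat.pow_le_pow_right hp.out.pos h1).trans (Nat.pow_log_le_self p (by omega))
      exact_mod_cast h2
    have e8 : (padicNorm p ((N + 1 : ℕ) : ℚ))⁻¹ ≤ M := by
      have := norm_inv_le (p := p) (a := ((N + 1 : ℕ) : ℤ)) (by positivity) (M := M) (by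
        push_cast
        rw [abs_of_nonneg (by positivity)]
        exact hM)
      simpa using this
    exact mul_le_mul e7 e8 (inv_nonneg.2 e5.le) (by linarith)
  rcases lt_or_ge k A with hkA | hkA
  · -- k < A
    obtain ⟨u, hu⟩ : ∃ u, A = k + u + 1 := ⟨A - k - 1, by omega⟩
    have e1 : ∏ m ∈ Finset.Icc A (A + N), (if m = k then 1 else (padicNorm p ((m : ℚ) - k))⁻¹)
        = ∏ m ∈ Finset.Icc (k + u + 1) (k + u + (N + 1)), (padicNorm p ((m : ℚ) - k))⁻¹ := by
      have : Finset.Icc A (A + N) = Finset.Icc (k + u + 1) (k + u + (N + 1)) := by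
        rw [hu]; congr 1; ring
      rw [this]
      apply Finset.prod_congr rfl
      intro m hm
      rw [Finset.mem_Icc] at hm
      rw [if_neg (by omega)]
    rw [e1, up u (N + 1)]
    have := choose_norm (u + (N + 1)) (by
      refine le_trans ?_ hM2
      exact_mod_cast (by omega : u + (N + 1) ≤ A + N)) (by omega)
    rw [show u + (N + 1) - (N + 1) = u by omega] at this
    exact this
  · rcases le_or_gt k (A + N) with hkB | hkB
    · -- inside
      have e1 : Finset.Icc A (A + N) = insert k (Finset.Ico A k ∪ Finset.Icc (k + 1) (A + N)) := by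
        ext x; simp only [Finset.mem_Icc, Finset.mem_insert, Finset.mem_union, Finset.mem_Ico]; omega
      rw [e1, Finset.prod_insert (by simp), if_pos rfl, one_mul, Finset.prod_union (by
        rw [Finset.disjoint_left]; intro x; simp only [Finset.mem_Icc, Finset.mem_Ico]; omega)]
      have e2 : ∏ m ∈ Finset.Ico A k, (if m = k then 1 else (padicNorm p ((m : ℚ) - k))⁻¹)
          = padicNorm p (Nat.factorial 0 : ℚ) / padicNorm p (Nat.factorial (0 + (k - A)) : ℚ) := by
        rw [← down 0 (k - A) (by omega)]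
        have : k - 0 - (k - A) = A := by omega
        rw [this, Nat.sub_zero]
        apply Finset.prod_congr rfl
        intro m hm
        rw [Finset.mem_Ico] at hm
        rw [if_neg (by omega)]
      have e3 : ∏ m ∈ Finset.Icc (k + 1) (A + N), (if m = k then 1 else (padicNorm p ((m : ℚ) - k))⁻¹)
          = padicNorm p (Nat.factorial 0 : ℚ) / padicNorm p (Nat.factorial (0 + (A + N - k)) : ℚ) := by
        rw [← up 0 (A + N - k)]
        have : k + 0 + (A + N - k) = A + N := by omega
        rw [this, Nat.add_zero]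
        apply Finset.prod_congr rfl
        intro m hm
        rw [Finset.mem_Icc] at hm
        rw [if_neg (by omega)]
      rw [e2, e3]
      simp only [Nat.factorial_zero, Nat.cast_one, padicNorm.one, zero_add]
      have e4 : (Nat.factorial N : ℚ) = (Nat.choose N (k - A) : ℚ) * (Nat.factorial (k - A) : ℚ) * (Nat.factorial (A + N - k) : ℚ) := by
        have := Nat.choose_mul_factorial_mul_factorial (show k - A ≤ N by omega)
        rw [show N - (k - A) = A + N - k by omega] at this
        rw [← this]; push_cast; ring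
      rw [e4, padicNorm.mul, padicNorm.mul]
      have e5 := (hfac (k - A)).ne'
      have e6 := (hfac (A + N - k)).ne'
      have e7 := padicNorm.of_nat (p := p) (Nat.choose N (k - A))
      have e8 : padicNorm p (Nat.choose N (k - A) : ℚ) * padicNorm p (Nat.factorial (k - A) : ℚ) *
          padicNorm p (Nat.factorial (A + N - k) : ℚ) * (1 / padicNorm p (Nat.factorial (k - A) : ℚ) *
          (1 / padicNorm p (Nat.factorial (A + N - k) : ℚ))) = padicNorm p (Nat.choose N (k - A) : ℚ) := by
        field_simp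
      rw [e8]
      linarith
    · -- k > A + N
      obtain ⟨u, hu⟩ : ∃ u, k = A + N + u + 1 := ⟨k - (A + N) - 1, by omega⟩
      have e1 : ∏ m ∈ Finset.Icc A (A + N), (if m = k then 1 else (padicNorm p ((m : ℚ) - k))⁻¹)
          = ∏ m ∈ Finset.Ico (k - u - (N + 1)) (k - u), (padicNorm p ((m : ℚ) - k))⁻¹ := by
        have : Finset.Icc A (A + N) = Finset.Ico (k - u - (N + 1)) (k - u) := by
          ext x; simp only [Finset.mem_Icc, Finset.mem_Ico]; omega
        rw [this]
        apply Finset.prod_congr rfl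
        intro m hm
        rw [Finset.mem_Ico] at hm
        rw [if_neg (by omega)]
      rw [e1, down u (N + 1) (by omega)]
      have := choose_norm (u + (N + 1)) (by
        refine le_trans ?_ hM3
        exact_mod_cast (by omega : u + (N + 1) ≤ k)) (by omega)
      rw [show u + (N + 1) - (N + 1) = u by omega] at this
      exact this

end

end Pool.Agent.H337R2
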