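import Pool.Agent.H337R2.FormX

/-!
# Line integrals of products of two inverse powers
-/

open MeasureTheory Filter Topology Complex

namespace Pool.Agent.H337R2

noncomputable section

/-- `(A + i y)⁻¹` -/
def li (A y : ℝ) : ℂ := ((A : ℂ) + y * I)⁻¹

lemma lf_ne {A : ℝ} (hA : A ≠ 0) (y : ℝ) : (A : ℂ) + y * I ≠ 0 := by
  intro h
  apply hA
  have := congrArg Complex.re h
  simpa using this

lemma norm_lf (A y : ℝ) : ‖(A : ℂ) + y * I‖ = Real.sqrt (A ^ 2 + y ^ 2) := by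
  rw [Complex.norm_add_mul_I]

lemma li_continuous {A : ℝ} (hA : A ≠ 0) : Continuous (li A) := by
  unfold li
  apply Continuous.inv₀ (by fun_prop) (fun y => lf_ne hA y)

lemma norm_li_le {A : ℝ} (hA : A ≠ 0) : ∃ C : ℝ, 0 < C ∧ ∀ y, ‖li A y‖ ≤ C * (Real.sqrt (1 + y ^ 2))⁻¹ := by
  have hA2 : 0 < |A| := abs_pos.2 hA
  refine ⟨(min |A| 1)⁻¹, by positivity, fun y => ?_⟩
  unfold li
  rw [norm_inv, norm_lf, ← mul_inv]
  apply inv_anti₀ (by positivity)
  apply Real.le_sqrt_of_sq_le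
  rw [mul_pow, Real.sq_sqrt (by positivity)]
  have h1 : (min |A| 1) ^ 2 ≤ A ^ 2 := by
    rw [← sq_abs A]
    exact pow_le_pow_left₀ (by positivity) (min_le_left _ _) 2
  have h2 : (min |A| 1) ^ 2 ≤ 1 := pow_le_one₀ (by positivity) (min_le_right _ _)
  nlinarith [sq_nonneg y]

lemma sqrt_inv_pow_le (y : ℝ) {n : ℕ} (hn : 2 ≤ n) :
    ((Real.sqrt (1 + y ^ 2))⁻¹) ^ n ≤ (1 + y ^ 2)⁻¹ := by
  have h1 : (Real.sqrt (1 + y ^ 2))⁻¹ ≤ 1 := by
    apply inv_le_one_of_one_le₀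
    rw [Real.one_le_sqrt]
    nlinarith [sq_nonneg y]
  calc _ ≤ ((Real.sqrt (1 + y ^ 2))⁻¹) ^ 2 := pow_le_pow_of_le_one (by positivity) h1 hn
    _ = _ := by rw [inv_pow, Real.sq_sqrt (by positivity)]

lemma li_prod_le {A V : ℝ} (hA : A ≠ 0) (hV : V ≠ 0) {i b : ℕ} (h : 2 ≤ i + b) :
    ∃ C : ℝ, 0 < C ∧ ∀ y, ‖li A y ^ i * li V y ^ b‖ ≤ C * (1 + y ^ 2)⁻¹ := by
  obtain ⟨C1, hC1, h1⟩ := norm_li_le hA
  obtain ⟨C2, hC2, h2⟩ := norm_li_le hV
  refine ⟨C1 ^ i * C2 ^ b, by positivity, fun y => ?_⟩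
  rw [norm_mul, norm_pow, norm_pow]
  calc _ ≤ (C1 * (Real.sqrt (1 + y ^ 2))⁻¹) ^ i * (C2 * (Real.sqrt (1 + y ^ 2))⁻¹) ^ b := by
        gcongr
        · exact h1 y
        · exact h2 y
    _ = C1 ^ i * C2 ^ b * ((Real.sqrt (1 + y ^ 2))⁻¹) ^ (i + b) := by
        rw [mul_pow, mul_pow, pow_add]; ring
    _ ≤ _ := by
        apply mul_le_mul_of_nonneg_left (sqrt_inv_pow_le y h) (by positivity)

lemma li_prod_integrable {A V : ℝ} (hA : A ≠ 0) (hV : V ≠ 0) {i b : ℕ} (h : 2 ≤ i + b) :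
    Integrable (fun y : ℝ => li A y ^ i * li V y ^ b) := by
  obtain ⟨C, _, hC⟩ := li_prod_le hA hV h
  refine Integrable.mono' (integrable_inv_one_add_sq.const_mul C) ?_ (Filter.Eventually.of_forall hC)
  exact (((li_continuous hA).pow i).mul ((li_continuous hV).pow b)).aestronglyMeasurable

lemma hasDerivAt_li {A : ℝ} (hA : A ≠ 0) (y : ℝ) : HasDerivAt (li A) (-(I * li A y ^ 2)) y := by
  have h1 : HasDerivAt (fun y : ℝ => (A : ℂ) + y * I) (I) y := by
    have := ((Complex.ofRealCLM.hasDerivAt (x := y)).mul_const I).const_add (A : ℂ)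
    simpa using this
  have h2 : HasDerivAt (fun y : ℝ => ((A : ℂ) + y * I)⁻¹) (-I / ((A : ℂ) + y * I) ^ 2) y := h1.inv (lf_ne hA y)
  unfold li
  refine h2.congr_deriv ?_
  rw [inv_pow]
  field_simp

lemma li_tendsto {A : ℝ} (hA : A ≠ 0) (l : Filter ℝ) (hl : Tendsto (fun y : ℝ => 1 + y ^ 2) l atTop) :
    Tendsto (li A) l (𝓝 0) := by
  obtain ⟨C, _, hC⟩ := norm_li_le hA
  rw [tendsto_zero_iff_norm_tendsto_zero]
  apply squeeze_zero (fun y => norm_nonneg _) hC
  have := (tendsto_inv_atTop_zero.comp (Real.tendsto_sqrt_atTop.comp hl)).const_mul C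
  simpa [Function.comp_def] using this

lemma integral_li_pow {A : ℝ} (hA : A ≠ 0) {n : ℕ} (hn : 2 ≤ n) : ∫ y : ℝ, li A y ^ n = 0 := by
  obtain ⟨m, rfl⟩ : ∃ m, n = m + 2 := ⟨n - 2, by omega⟩
  have hd : ∀ y : ℝ, HasDerivAt (fun y => (I / ((m : ℂ) + 1)) * li A y ^ (m + 1)) (li A y ^ (m + 2)) y := by
    intro y
    have h1 : HasDerivAt (fun y => (I / ((m : ℂ) + 1)) * li A y ^ (m + 1))
        (I / ((m : ℂ) + 1) * (((m + 1 : ℕ) : ℂ) * li A y ^ (m + 1 - 1) * -(I * li A y ^ 2))) y :=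
      ((hasDerivAt_li hA y).pow (m + 1)).const_mul (I / ((m : ℂ) + 1))
    refine h1.congr_deriv ?_
    have hm : ((m : ℂ) + 1) ≠ 0 := by
      have : ((m + 1 : ℕ) : ℂ) ≠ 0 := Nat.cast_ne_zero.2 (by omega)
      push_cast at this
      exact this
    push_cast
    have hI : I * I = -1 := Complex.I_mul_I
    calc I / ((m : ℂ) + 1) * (((m : ℂ) + 1) * li A y ^ m * -(I * li A y ^ 2))
        = -(I * I) * (((m : ℂ) + 1) / ((m : ℂ) + 1)) * li A y ^ (m + 2) := by ring
      _ = _ := by rw [hI, div_self hm]; ring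
  have hint : Integrable (fun y : ℝ => li A y ^ (m + 2)) := by
    have := li_prod_integrable hA hA (i := m + 2) (b := 0) (by omega)
    simpa using this
  have ht : Tendsto (fun y : ℝ => 1 + y ^ 2) atTop atTop :=
    tendsto_atTop_add_const_left _ _ (tendsto_pow_atTop (by norm_num))
  have hb : Tendsto (fun y : ℝ => 1 + y ^ 2) atBot atTop := by
    have := ht.comp tendsto_neg_atBot_atTop
    refine this.congr (fun y => ?_)
    simp
  have l1 : Tendsto (fun y => (I / ((m : ℂ) + 1)) * li A y ^ (m + 1)) atTop (𝓝 0) := by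
    have := ((li_tendsto hA _ ht).pow (m + 1)).const_mul (I / ((m : ℂ) + 1))
    simpa using this
  have l2 : Tendsto (fun y => (I / ((m : ℂ) + 1)) * li A y ^ (m + 1)) atBot (𝓝 0) := by
    have := ((li_tendsto hA _ hb).pow (m + 1)).const_mul (I / ((m : ℂ) + 1))
    simpa using this
  have := integral_of_hasDerivAt_of_tendsto hd hint l2 l1
  rw [this, sub_zero]

lemma integral_cauchy {V : ℝ} (hV : V ≠ 0) : Integrable (fun y : ℝ => V / (V ^ 2 + y ^ 2)) ∧
    ∫ y : ℝ, V / (V ^ 2 + y ^ 2) = SignType.sign V * Real.pi := by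
  have h1 : (fun y : ℝ => V / (V ^ 2 + y ^ 2)) = fun y => V⁻¹ * (1 + (V⁻¹ * y) ^ 2)⁻¹ := by
    ext y
    have : 0 < V ^ 2 + y ^ 2 := by positivity
    have : 0 < 1 + (V⁻¹ * y) ^ 2 := by positivity
    field_simp
  rw [h1]
  constructor
  · exact (integrable_inv_one_add_sq.comp_mul_left' (inv_ne_zero hV)).const_mul _
  · rw [integral_const_mul, Measure.integral_comp_mul_left (fun y => (1 + y ^ 2)⁻¹) V⁻¹, integral_univ_inv_one_add_sq,
      inv_inv, smul_eq_mul, ← mul_assoc]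
    congr 1
    rcases lt_or_gt_of_ne hV with h | h
    · rw [abs_of_neg h, sign_neg h]
      field_simp; simp
    · rw [abs_of_pos h, sign_pos h]
      field_simp; simp

lemma J_base {A V : ℝ} (hA : 0 < A) (hV : V ≠ 0) (hAV : A ≠ V) :
    ∫ y : ℝ, li A y * li V y = (((SignType.sign V : ℝ) - 1) * Real.pi / (A - V) : ℝ) := by
  have hint : Integrable (fun y : ℝ => li A y * li V y) := by
    have := li_prod_integrable hA.ne' hV (i := 1) (b := 1) (by omega)
    simpa using this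
  have hneg : ∫ y : ℝ, li A (-y) * li V (-y) = ∫ y : ℝ, li A y * li V y :=
    integral_neg_eq_self (fun y => li A y * li V y) volume
  have hint2 : Integrable (fun y : ℝ => li A (-y) * li V (-y)) := hint.comp_neg
  have h2 : ∫ y : ℝ, (li A y * li V y + li A (-y) * li V (-y)) = 2 * ∫ y : ℝ, li A y * li V y := by
    rw [integral_add hint hint2, hneg]; ring
  have hAVs : (A - V) ≠ 0 := sub_ne_zero.2 hAV
  have h3 : ∀ y : ℝ, (li A y * li V y + li A (-y) * li V (-y)) =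
      ((2 / (A - V) * (V / (V ^ 2 + y ^ 2) - A / (A ^ 2 + y ^ 2)) : ℝ) : ℂ) := by
    intro y
    unfold li
    have n1 : (A : ℂ) + y * I ≠ 0 := lf_ne hA.ne' y
    have n2 : (V : ℂ) + y * I ≠ 0 := lf_ne hV y
    have n3 : (A : ℂ) + ((-y : ℝ) : ℂ) * I ≠ 0 := lf_ne hA.ne' (-y)
    have n4 : (V : ℂ) + ((-y : ℝ) : ℂ) * I ≠ 0 := lf_ne hV (-y)
    have e1 : ((A : ℂ) + y * I) * ((A : ℂ) + ((-y : ℝ) : ℂ) * I) = (A : ℂ) ^ 2 + y ^ 2 := by
      push_cast
      ring_nf
      rw [Complex.I_sq]; ring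
    have e2 : ((V : ℂ) + y * I) * ((V : ℂ) + ((-y : ℝ) : ℂ) * I) = (V : ℂ) ^ 2 + y ^ 2 := by
      push_cast
      ring_nf
      rw [Complex.I_sq]; ring
    have n5 : (A : ℂ) ^ 2 + y ^ 2 ≠ 0 := by rw [← e1]; exact mul_ne_zero n1 n3
    have n6 : (V : ℂ) ^ 2 + y ^ 2 ≠ 0 := by rw [← e2]; exact mul_ne_zero n2 n4
    have n7 : (A : ℂ) - V ≠ 0 := by exact_mod_cast hAVs
    have i1 : ((A : ℂ) + y * I)⁻¹ = ((A : ℂ) + ((-y : ℝ) : ℂ) * I) / ((A : ℂ) ^ 2 + y ^ 2) := by
      rw [eq_div_iff n5, ← e1, inv_mul_cancel_left₀ n1]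
    have i2 : ((V : ℂ) + y * I)⁻¹ = ((V : ℂ) + ((-y : ℝ) : ℂ) * I) / ((V : ℂ) ^ 2 + y ^ 2) := by
      rw [eq_div_iff n6, ← e2, inv_mul_cancel_left₀ n2]
    have i3 : ((A : ℂ) + ((-y : ℝ) : ℂ) * I)⁻¹ = ((A : ℂ) + y * I) / ((A : ℂ) ^ 2 + y ^ 2) := by
      rw [eq_div_iff n5, ← e1, mul_comm ((A : ℂ) + y * I), inv_mul_cancel_left₀ n3]
    have i4 : ((V : ℂ) + ((-y : ℝ) : ℂ) * I)⁻¹ = ((V : ℂ) + y * I) / ((V : ℂ) ^ 2 + y ^ 2) := by
      rw [eq_div_iff n6, ← e2, mul_comm ((V : ℂ) + y * I), inv_mul_cancel_left₀ n4]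
    rw [i1, i2, i3, i4]
    push_cast
    field_simp
    ring_nf
    rw [Complex.I_sq]
    ring
  have h4 : ∫ y : ℝ, (li A y * li V y + li A (-y) * li V (-y)) =
      ((2 / (A - V) * ((SignType.sign V : ℝ) * Real.pi - Real.pi) : ℝ) : ℂ) := by
    simp_rw [h3]
    rw [integral_complex_ofReal]
    congr 1
    obtain ⟨c1, c2⟩ := integral_cauchy hV
    obtain ⟨c3, c4⟩ := integral_cauchy hA.ne'
    rw [integral_const_mul, integral_sub c1 c3, c2, c4, sign_pos hA]
    simp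
  rw [h2] at h4
  have h5 : ∫ y : ℝ, li A y * li V y = ((2 / (A - V) * ((SignType.sign V : ℝ) * Real.pi - Real.pi) : ℝ) : ℂ) / 2 := by
    rw [← h4]; ring
  rw [h5]
  push_cast
  field_simp

lemma J_rec {A V : ℝ} (hA : A ≠ 0) (hV : V ≠ 0) (hAV : A ≠ V) (i b : ℕ) (h : 1 ≤ i + b) :
    ∫ y : ℝ, li A y ^ (i + 1) * li V y ^ (b + 1) =
      (1 / ((A : ℂ) - V)) * ((∫ y : ℝ, li A y ^ i * li V y ^ (b + 1)) - ∫ y : ℝ, li A y ^ (i + 1) * li V y ^ b) := by
  have n7 : (A : ℂ) - V ≠ 0 := by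
    have : (A - V) ≠ 0 := sub_ne_zero.2 hAV
    exact_mod_cast this
  rw [← integral_sub (li_prod_integrable hA hV (by omega)) (li_prod_integrable hA hV (by omega)), ← integral_const_mul]
  congr 1
  ext y
  have key : li A y * li V y = (1 / ((A : ℂ) - V)) * (li V y - li A y) := by
    unfold li
    have n1 : (A : ℂ) + y * I ≠ 0 := lf_ne hA y
    have n2 : (V : ℂ) + y * I ≠ 0 := lf_ne hV y
    field_simp
    ring
  calc li A y ^ (i + 1) * li V y ^ (b + 1) = li A y ^ i * li V y ^ b * (li A y * li V y) := by ring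
    _ = _ := by rw [key]; ring

/-- pole on the right -/
theorem J_neg {A V : ℝ} (hA : 0 < A) (hV : V < 0) (N : ℕ) : ∀ i b : ℕ, i + b = N →
    ∫ y : ℝ, li A y ^ (i + 1) * li V y ^ (b + 1) =
      2 * Real.pi * (-1) ^ (b + 1) * (Nat.choose (i + b) i : ℂ) / ((A : ℂ) - V) ^ (i + b + 1) := by
  have hAV : A ≠ V := by linarith
  have n7 : (A : ℂ) - V ≠ 0 := by
    have : (A - V) ≠ 0 := sub_ne_zero.2 hAV
    exact_mod_cast this
  induction N with
  | zero =>
    intro i b hib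
    have hi : i = 0 := by omega
    have hb : b = 0 := by omega
    subst hi hb
    simp only [zero_add, pow_one]
    rw [J_base hA hV.ne hAV, sign_neg hV]
    push_cast
    simp
    ring
  | succ N ih =>
    intro i b hib
    rw [J_rec hA.ne' hV.ne hAV i b (by omega)]
    rcases Nat.eq_zero_or_pos i with hi | hi
    · subst hi
      obtain ⟨b', rfl⟩ : ∃ b', b = b' + 1 := ⟨b - 1, by omega⟩
      rw [ih 0 b' (by omega)]
      have : ∫ y : ℝ, li A y ^ 0 * li V y ^ (b' + 1 + 1) = 0 := by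
        simp only [pow_zero, one_mul]
        exact integral_li_pow hV.ne (by omega)
      rw [this]
      simp only [Nat.choose_zero_right, Nat.cast_one, zero_add]
      field_simp
      ring
    · obtain ⟨i', rfl⟩ : ∃ i', i = i' + 1 := ⟨i - 1, by omega⟩
      rw [ih i' b (by omega)]
      rcases Nat.eq_zero_or_pos b with hb | hb
      · subst hb
        have : ∫ y : ℝ, li A y ^ (i' + 1 + 1) * li V y ^ 0 = 0 := by
          simp only [pow_zero, mul_one]
          exact integral_li_pow hA.ne' (by omega)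
        rw [this]
        simp only [add_zero, Nat.choose_self, Nat.cast_one, zero_add]
        field_simp
        ring
      · obtain ⟨b', rfl⟩ : ∃ b', b = b' + 1 := ⟨b - 1, by omega⟩
        rw [ih (i' + 1) b' (by omega)]
        have hc : (Nat.choose (i' + 1 + (b' + 1)) (i' + 1) : ℂ) =
            (Nat.choose (i' + (b' + 1)) i' : ℂ) + (Nat.choose (i' + 1 + b') (i' + 1) : ℂ) := by
          have : Nat.choose (i' + 1 + (b' + 1)) (i' + 1) = Nat.choose (i' + (b' + 1)) i' + Nat.choose (i' + 1 + b') (i' + 1) := by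
            rw [show i' + 1 + (b' + 1) = (i' + (b' + 1)) + 1 by ring, Nat.choose_succ_succ,
              show i' + 1 + b' = i' + (b' + 1) by ring]
          rw [this]; push_cast; ring
        rw [hc, show i' + 1 + (b' + 1) + 1 = (i' + (b' + 1) + 1) + 1 by ring,
          show i' + 1 + b' + 1 = (i' + (b' + 1) + 1) by ring]
        field_simp
        ring

/-- pole on the left -/
theorem J_pos {A V : ℝ} (hA : 0 < A) (hV : 0 < V) (N : ℕ) : ∀ i b : ℕ, i + b = N →
    ∫ y : ℝ, li A y ^ (i + 1) * li V y ^ (b + 1) = 0 := by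
  by_cases hAV : A = V
  · subst hAV
    intro i b _
    have : ∀ y : ℝ, li A y ^ (i + 1) * li A y ^ (b + 1) = li A y ^ (i + b + 2) := fun y => by ring
    simp_rw [this]
    exact integral_li_pow hA.ne' (by omega)
  induction N with
  | zero =>
    intro i b hib
    have hi : i = 0 := by omega
    have hb : b = 0 := by omega
    subst hi hb
    simp only [zero_add, pow_one]
    rw [J_base hA hV.ne' hAV, sign_pos hV]
    simp
  | succ N ih =>
    intro i b hib
    rw [J_rec hA.ne' hV.ne' hAV i b (by omega)]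
    rcases Nat.eq_zero_or_pos i with hi | hi
    · subst hi
      obtain ⟨b', rfl⟩ : ∃ b', b = b' + 1 := ⟨b - 1, by omega⟩
      rw [ih 0 b' (by omega)]
      have : ∫ y : ℝ, li A y ^ 0 * li V y ^ (b' + 1 + 1) = 0 := by
        simp only [pow_zero, one_mul]
        exact integral_li_pow hV.ne' (by omega)
      rw [this]; simp
    · obtain ⟨i', rfl⟩ : ∃ i', i = i' + 1 := ⟨i - 1, by omega⟩
      rw [ih i' b (by omega)]
      rcases Nat.eq_zero_or_pos b with hb | hb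
      · subst hb
        have : ∫ y : ℝ, li A y ^ (i' + 1 + 1) * li V y ^ 0 = 0 := by
          simp only [pow_zero, mul_one]
          exact integral_li_pow hA.ne' (by omega)
        rw [this]; simp
      · obtain ⟨b', rfl⟩ : ∃ b', b = b' + 1 := ⟨b - 1, by omega⟩
        rw [ih (i' + 1) b' (by omega)]
        simp

end

end Pool.Agent.H337R2
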