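import Pool.Agent.H337R2.Cx1

/-!
# The periodic kernel
-/

open MeasureTheory Filter Topology Complex

namespace Pool.Agent.H337R2

noncomputable section

lemma norm_li_le_inv {A : ℝ} (hA : A ≠ 0) (y : ℝ) : ‖li A y‖ ≤ |A|⁻¹ := by
  unfold li
  rw [norm_inv, norm_lf]
  apply inv_anti₀ (abs_pos.2 hA)
  rw [← Real.sqrt_sq_eq_abs]
  apply Real.sqrt_le_sqrt
  nlinarith [sq_nonneg y]

/-- the distance of the line to the integer `m` -/
def hm (m : ℤ) : ℝ := -(1 / 2) - m

lemma hm_ne (m : ℤ) : hm m ≠ 0 := by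
  unfold hm
  intro h
  have h1 : (m : ℝ) * 2 = -1 := by linarith
  have h2 : m * 2 = -1 := by exact_mod_cast h1
  omega

lemma hm_abs (m : ℤ) : (|(m : ℝ)| + 1) / 4 ≤ |hm m| := by
  unfold hm
  rcases le_or_gt 0 m with h | h
  · have h' : (0 : ℝ) ≤ m := by exact_mod_cast h
    rw [abs_of_nonneg h', abs_of_neg (by linarith)]
    linarith
  · have h' : (m : ℝ) ≤ -1 := by exact_mod_cast (by omega : m ≤ -1)
    rw [abs_of_neg (by linarith), abs_of_pos (by linarith)]
    linarith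

lemma summable_abs_sq : Summable (fun m : ℤ => 1 / (|(m : ℝ)| + 1) ^ 2) := by
  rw [summable_int_iff_summable_nat_and_neg]
  have h := summable_zr (le_refl 2)
  constructor
  · refine h.congr (fun t => ?_)
    simp
  · refine h.congr (fun t => ?_)
    simp

lemma li_hm_le {b : ℕ} (hb : 2 ≤ b) (m : ℤ) (y : ℝ) :
    ‖li (hm m) y ^ b‖ ≤ 4 ^ b * (1 / (|(m : ℝ)| + 1) ^ 2) := by
  have h1 := norm_li_le_inv (hm_ne m) y
  have h2 := hm_abs m
  have h3 : 0 < |(m : ℝ)| + 1 := by positivity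
  have h4 : |hm m|⁻¹ ≤ 4 * (|(m : ℝ)| + 1)⁻¹ := by
    have : |hm m|⁻¹ ≤ ((|(m : ℝ)| + 1) / 4)⁻¹ := inv_anti₀ (by positivity) h2
    rw [inv_div] at this
    rw [← div_eq_mul_inv]
    exact this
  rw [norm_pow]
  calc _ ≤ (4 * (|(m : ℝ)| + 1)⁻¹) ^ b := pow_le_pow_left₀ (norm_nonneg _) (h1.trans h4) b
    _ = 4 ^ b * ((|(m : ℝ)| + 1)⁻¹) ^ b := mul_pow _ _ _
    _ ≤ 4 ^ b * ((|(m : ℝ)| + 1)⁻¹) ^ 2 := by
        apply mul_le_mul_of_nonneg_left _ (by positivity)
        apply pow_le_pow_of_le_one (by positivity) _ hb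
        apply inv_le_one_of_one_le₀
        linarith [abs_nonneg (m : ℝ)]
    _ = _ := by rw [inv_pow, one_div]

lemma summable_li {b : ℕ} (hb : 2 ≤ b) (y : ℝ) : Summable (fun m : ℤ => li (hm m) y ^ b) := by
  apply Summable.of_norm
  exact Summable.of_nonneg_of_le (fun _ => norm_nonneg _) (fun m => li_hm_le hb m y)
    (summable_abs_sq.mul_left _)

/-- the kernel on the line -/
def KK (b : ℕ) (y : ℝ) : ℂ := ∑' m : ℤ, li (hm m) y ^ b

lemma KK_le {b : ℕ} (hb : 2 ≤ b) (y : ℝ) : ‖KK b y‖ ≤ 4 ^ b * ∑' m : ℤ, 1 / (|(m : ℝ)| + 1) ^ 2 := by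
  unfold KK
  rw [← tsum_mul_left]
  exact tsum_of_norm_bounded ((summable_abs_sq.mul_left _).hasSum) (fun m => li_hm_le hb m y)

lemma KK_neg (b : ℕ) (y : ℝ) : KK b (-y) = (starRingEnd ℂ) (KK b y) := by
  unfold KK
  rw [Complex.conj_tsum]
  congr 1
  ext m
  unfold li
  rw [map_pow, map_inv₀, map_add, map_mul, Complex.conj_I, Complex.conj_ofReal, Complex.conj_ofReal]
  push_cast
  ring_nf

lemma KK_eq {k : ℕ} (hk : 1 ≤ k) {y : ℝ} (hy : 0 < y) :
    KK (k + 1) y = ((-2 * Real.pi * I) ^ (k + 1) / (Nat.factorial k : ℂ)) *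
      ∑' n : ℕ, (n : ℂ) ^ k * Complex.exp (2 * Real.pi * I * (((-(1 / 2) : ℝ) : ℂ) + y * I)) ^ n := by
  have h := EisensteinSeries.qExpansion_identity hk ⟨((-(1 / 2) : ℝ) : ℂ) + y * I, by simpa using hy⟩
  rw [← UpperHalfPlane.coe_mk (((-(1 / 2) : ℝ) : ℂ) + y * I) (by simpa using hy)]
  rw [← h]
  unfold KK
  rw [← (Equiv.neg ℤ).tsum_eq]
  congr 1
  ext m
  unfold li hm
  simp only [Equiv.neg_apply, UpperHalfPlane.coe_mk]
  rw [inv_pow, one_div]
  congr 2
  push_cast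
  ring

theorem KK_exp {b : ℕ} (hb : 2 ≤ b) : ∃ C : ℝ, 0 < C ∧ ∀ y : ℝ, ‖KK b y‖ ≤ C * Real.exp (-(2 * Real.pi * |y|)) := by
  obtain ⟨k, rfl⟩ : ∃ k, b = k + 1 := ⟨b - 1, by omega⟩
  set C1 : ℝ := 4 ^ (k + 1) * ∑' m : ℤ, 1 / (|(m : ℝ)| + 1) ^ 2 with hC1
  have hC1' : 0 ≤ C1 := by
    rw [hC1]
    apply mul_nonneg (by positivity)
    exact tsum_nonneg fun m => by positivity
  have hs : Summable (fun n : ℕ => (n : ℝ) ^ k * Real.exp (-(2 * Real.pi) * n)) :=
    Real.summable_pow_mul_exp_neg_nat_mul k (by positivity)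
  set C2 : ℝ := (2 * Real.pi) ^ (k + 1) * (Real.exp (2 * Real.pi) * ∑' n : ℕ, (n : ℝ) ^ k * Real.exp (-(2 * Real.pi) * n)) with hC2
  have hC2' : 0 ≤ C2 := by
    rw [hC2]
    apply mul_nonneg (by positivity)
    apply mul_nonneg (by positivity)
    exact tsum_nonneg fun m => by positivity
  have key : ∀ y : ℝ, 0 ≤ y → ‖KK (k + 1) y‖ ≤ (C1 * Real.exp (2 * Real.pi) + C2 + 1) * Real.exp (-(2 * Real.pi * y)) := by
    intro y hy
    rcases lt_or_ge y 1 with h1 | h1
    · have h2 := KK_le hb y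
      have h3 : 1 ≤ Real.exp (2 * Real.pi) * Real.exp (-(2 * Real.pi * y)) := by
        rw [← Real.exp_add]
        apply Real.one_le_exp
        nlinarith [Real.pi_pos]
      calc _ ≤ C1 := h2
        _ = C1 * 1 := (mul_one _).symm
        _ ≤ C1 * (Real.exp (2 * Real.pi) * Real.exp (-(2 * Real.pi * y))) := mul_le_mul_of_nonneg_left h3 hC1'
        _ = C1 * Real.exp (2 * Real.pi) * Real.exp (-(2 * Real.pi * y)) := by ring
        _ ≤ _ := by
          apply mul_le_mul_of_nonneg_right _ (by positivity)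
          linarith
    · have hy0 : 0 < y := by linarith
      rw [KK_eq (by omega) hy0]
      have hq : ‖Complex.exp (2 * Real.pi * I * (((-(1 / 2) : ℝ) : ℂ) + y * I))‖ = Real.exp (-(2 * Real.pi * y)) := by
        rw [Complex.norm_exp]
        congr 1
        simp
      rw [norm_mul]
      have e1 : ‖(-2 * (Real.pi : ℂ) * I) ^ (k + 1) / (Nat.factorial k : ℂ)‖ ≤ (2 * Real.pi) ^ (k + 1) := by
        rw [norm_div, norm_pow, norm_mul, norm_mul, Complex.norm_I, mul_one, Complex.norm_natCast, norm_neg]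
        have : ‖(2 : ℂ)‖ * ‖(Real.pi : ℂ)‖ = 2 * Real.pi := by
          rw [Complex.norm_ofNat, Complex.norm_real, Real.norm_of_nonneg Real.pi_pos.le]
        rw [this]
        apply div_le_self (by positivity)
        exact_mod_cast Nat.succ_le_of_lt (Nat.factorial_pos k)
      have e2 : ‖∑' n : ℕ, (n : ℂ) ^ k * Complex.exp (2 * Real.pi * I * (((-(1 / 2) : ℝ) : ℂ) + y * I)) ^ n‖ ≤
          (Real.exp (2 * Real.pi) * ∑' n : ℕ, (n : ℝ) ^ k * Real.exp (-(2 * Real.pi) * n)) * Real.exp (-(2 * Real.pi * y)) := by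
        have hs2 : Summable (fun n : ℕ => (Real.exp (2 * Real.pi) * Real.exp (-(2 * Real.pi * y))) * ((n : ℝ) ^ k * Real.exp (-(2 * Real.pi) * n))) :=
          hs.mul_left _
        have := tsum_of_norm_bounded hs2.hasSum (f := fun n : ℕ => (n : ℂ) ^ k * Complex.exp (2 * Real.pi * I * (((-(1 / 2) : ℝ) : ℂ) + y * I)) ^ n) (by
          intro n
          rw [norm_mul, norm_pow, norm_pow, hq, Complex.norm_natCast]
          rcases Nat.eq_zero_or_pos n with hn | hn
          · subst hn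
            rw [Nat.cast_zero, zero_pow (by omega)]
            simp
          · have hn1 : (1 : ℝ) ≤ n := by exact_mod_cast hn
            have h5 : Real.exp (-(2 * Real.pi * y)) ^ n ≤ Real.exp (2 * Real.pi) * Real.exp (-(2 * Real.pi * y)) * Real.exp (-(2 * Real.pi) * n) := by
              rw [← Real.exp_nat_mul, ← Real.exp_add, ← Real.exp_add]
              apply Real.exp_le_exp.2
              nlinarith [Real.pi_pos, mul_nonneg (mul_nonneg Real.pi_pos.le (sub_nonneg.2 hn1)) (sub_nonneg.2 h1)]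
            calc _ ≤ (n : ℝ) ^ k * (Real.exp (2 * Real.pi) * Real.exp (-(2 * Real.pi * y)) * Real.exp (-(2 * Real.pi) * n)) :=
                  mul_le_mul_of_nonneg_left h5 (by positivity)
              _ = _ := by ring)
        refine this.trans (le_of_eq ?_)
        rw [tsum_mul_left]
        ring
      calc _ ≤ (2 * Real.pi) ^ (k + 1) * ((Real.exp (2 * Real.pi) * ∑' n : ℕ, (n : ℝ) ^ k * Real.exp (-(2 * Real.pi) * n)) * Real.exp (-(2 * Real.pi * y))) :=
            mul_le_mul e1 e2 (norm_nonneg _) (by positivity)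
        _ = C2 * Real.exp (-(2 * Real.pi * y)) := by rw [hC2]; ring
        _ ≤ _ := by
          apply mul_le_mul_of_nonneg_right _ (by positivity)
          nlinarith [mul_nonneg hC1' (Real.exp_pos (2 * Real.pi)).le]
  refine ⟨C1 * Real.exp (2 * Real.pi) + C2 + 1, by positivity, fun y => ?_⟩
  rcases le_or_gt 0 y with h | h
  · rw [abs_of_nonneg h]; exact key y h
  · rw [abs_of_neg h]
    have h1 := key (-y) (by linarith)
    rw [KK_neg, Complex.norm_conj] at h1
    exact h1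

end

end Pool.Agent.H337R2
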