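import Pool.Agent.H337R2.Cx4

/-!
# The modulus of the rational function on the line
-/

open MeasureTheory Filter Topology Polynomial

namespace Pool.Agent.H337R2

noncomputable section

/-- squared distance -/
def ws (m : ℕ) (y : ℝ) : ℝ := ((m : ℝ) - 1 / 2) ^ 2 + y ^ 2

/-- ratio with the value at zero -/
def qs (m : ℕ) (y : ℝ) : ℝ := 1 + y ^ 2 / ((m : ℝ) - 1 / 2) ^ 2

lemma half_sq_pos (m : ℕ) : 0 < ((m : ℝ) - 1 / 2) ^ 2 := by
  have := half_ne m
  positivity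

lemma ws_eq (m : ℕ) (y : ℝ) : ws m y = ((m : ℝ) - 1 / 2) ^ 2 * qs m y := by
  unfold ws qs
  have := (half_sq_pos m).ne'
  generalize ((m : ℝ) - 1 / 2) ^ 2 = a at *
  field_simp

lemma ws_pos (m : ℕ) (y : ℝ) : 0 < ws m y := by
  unfold ws
  have := half_sq_pos m
  positivity

lemma qs_pos (m : ℕ) (y : ℝ) : 0 < qs m y := by
  unfold qs
  have := half_sq_pos m
  positivity

lemma norm_zl_sq (m : ℕ) (y : ℝ) : ‖zl y + m‖ ^ 2 = ws m y := by
  rw [zl_add, norm_lf, Real.sq_sqrt (by positivity)]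
  rfl

/-- squared modulus of the linear factor -/
def lin (h n : ℕ) (y : ℝ) : ℝ := ((h : ℝ) * n - 1) ^ 2 + 4 * y ^ 2

lemma norm_QQ_sq (s : Finset ℕ) (μ : ℕ → ℕ) (y : ℝ) : ‖aeval (zl y) (QQ s μ)‖ ^ 2 = ∏ k ∈ s, ws k y ^ μ k := by
  unfold QQ
  rw [map_prod, norm_prod, ← Finset.prod_pow]
  apply Finset.prod_congr rfl
  intro k _
  rw [map_pow, norm_pow, ← pow_mul, mul_comm (μ k) 2, pow_mul, map_add, aeval_X, aeval_C]
  have e1 : (algebraMap ℚ ℂ) (k : ℚ) = (k : ℂ) := by simp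
  rw [e1, norm_zl_sq]

lemma norm_PP_sq (b h c n : ℕ) (ds : List ℕ) (hch : c * n ≤ h * n) (y : ℝ) :
    ‖aeval (zl y) (PP b h c n ds)‖ ^ 2 = ((cst b h c n ds : ℚ) : ℝ) ^ 2 * lin h n y *
      ∏ m ∈ Finset.Icc 1 (c * n), (ws m y ^ b * ws (h * n - m) y ^ b) := by
  unfold PP NN
  rw [map_mul, map_mul, norm_mul, norm_mul, mul_pow, mul_pow, aeval_C]
  congr 1
  · congr 1
    · have e1 : (algebraMap ℚ ℂ) (cst b h c n ds) = (((cst b h c n ds : ℚ) : ℝ) : ℂ) := by simp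
      rw [e1, Complex.norm_real, Real.norm_eq_abs, sq_abs]
    · rw [map_add, map_mul, aeval_X, aeval_C]
      have e1 : (algebraMap ℚ ℂ) ((h : ℚ) * n) = (h : ℂ) * n := by simp
      have e2 : (aeval (zl y)) (2 : ℚ[X]) = (2 : ℂ) := by
        rw [map_ofNat]
      rw [e1, e2]
      have e3 : (2 : ℂ) * zl y + (h : ℂ) * n = (((h : ℝ) * n - 1 : ℝ) : ℂ) + ((2 * y : ℝ) : ℂ) * Complex.I := by
        unfold zl; push_cast; ring
      rw [e3, norm_lf, Real.sq_sqrt (by positivity)]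
      unfold lin
      ring
  · rw [map_prod, norm_prod, ← Finset.prod_pow]
    apply Finset.prod_congr rfl
    intro m hm
    rw [Finset.mem_Icc] at hm
    rw [map_mul, map_pow, map_pow, norm_mul, norm_pow, norm_pow, mul_pow, ← pow_mul, ← pow_mul,
      mul_comm b 2, pow_mul, pow_mul, map_add, map_add, aeval_X, aeval_C, aeval_C]
    have e1 : (algebraMap ℚ ℂ) (m : ℚ) = (m : ℂ) := by simp
    have e2 : (algebraMap ℚ ℂ) ((h : ℚ) * n - m) = ((h * n - m : ℕ) : ℂ) := by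
      rw [Nat.cast_sub (by omega)]
      push_cast
      simp
    rw [e1, e2, norm_zl_sq, norm_zl_sq]

lemma prod_three (h c n : ℕ) (hn : 1 ≤ n) (hch : 2 * c < h) (f : ℕ → ℝ) :
    (∏ m ∈ Finset.Icc 1 (c * n), (f m * f (h * n - m))) * ∏ k ∈ ss h c n, f k = ∏ m ∈ Finset.Ico 1 (h * n), f m := by
  have h1 : 2 * (c * n) + n ≤ h * n := by
    have : (2 * c + 1) * n ≤ h * n := Nat.mul_le_mul_right n (by omega)
    linarith
  have e1 : ∏ m ∈ Finset.Icc 1 (c * n), f (h * n - m) = ∏ m ∈ Finset.Ico (h * n - c * n) (h * n), f m := by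
    apply Finset.prod_bij (fun m _ => h * n - m)
    · intro m hm; rw [Finset.mem_Icc] at hm; rw [Finset.mem_Ico]; omega
    · intro m1 hm1 m2 hm2 h; rw [Finset.mem_Icc] at hm1 hm2; omega
    · intro m hm
      rw [Finset.mem_Ico] at hm
      exact ⟨h * n - m, by rw [Finset.mem_Icc]; omega, by omega⟩
    · intro m _; rfl
  have e2 : Finset.Icc 1 (c * n) = Finset.Ico 1 (c * n + 1) := by ext; simp
  have e3 : ss h c n = Finset.Ico (c * n + 1) (h * n - c * n) := by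
    unfold ss; ext; rw [Finset.mem_Icc, Finset.mem_Ico]; omega
  rw [Finset.prod_mul_distrib, e1, e2, e3]
  have e4 := Finset.prod_Ico_consecutive f (show 1 ≤ c * n + 1 by omega) (show c * n + 1 ≤ h * n - c * n by omega)
  have e5 := Finset.prod_Ico_consecutive f (show 1 ≤ h * n - c * n by omega) (show h * n - c * n ≤ h * n by omega)
  rw [← e5, ← e4]
  ring

lemma prod_qs_le (h n : ℕ) (y : ℝ) : ∏ m ∈ Finset.Ico 1 (h * n), qs m y ≤ Real.exp (Real.pi * |y|) := by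
  refine le_trans (le_of_eq ?_) (HM_le y (h * n - 1))
  unfold HM
  rw [Finset.prod_Ico_eq_prod_range]
  apply Finset.prod_congr rfl
  intro m _
  unfold qs
  have : ((1 + m : ℕ) : ℝ) - 1 / 2 = (m : ℝ) + 1 / 2 := by push_cast; ring
  rw [this]

/-- value at zero, squared -/
def A0 (b h c n : ℕ) (ds : List ℕ) : ℝ := ((cst b h c n ds : ℚ) : ℝ) ^ 2 *
  (∏ m ∈ Finset.Icc 1 (c * n), ((((m : ℝ) - 1 / 2) ^ 2) ^ b * ((((h * n - m : ℕ) : ℝ) - 1 / 2) ^ 2) ^ b)) /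
    ∏ k ∈ ss h c n, (((k : ℝ) - 1 / 2) ^ 2) ^ mu h n ds k

lemma A0_nonneg (b h c n : ℕ) (ds : List ℕ) : 0 ≤ A0 b h c n ds := by
  unfold A0
  apply div_nonneg
  · apply mul_nonneg (by positivity)
    apply Finset.prod_nonneg
    intro m _
    positivity
  · apply Finset.prod_nonneg
    intro m _
    positivity

/-- bound of the squared modulus -/
theorem Rc_sq_le (b h c n : ℕ) (ds : List ℕ) (hn : 1 ≤ n) (hch : 2 * c < h)
    (hdeg : (PP b h c n ds).degree < (QQ (ss h c n) (mu h n ds)).degree) (y : ℝ) :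
    ‖Rc (ss h c n) (mu h n ds) (PP b h c n ds) y‖ ^ 2 ≤ A0 b h c n ds * lin h n y * Real.exp (b * (Real.pi * |y|)) /
      ∏ k ∈ ss h c n, qs k y ^ (b + mu h n ds k) := by
  have hcn : c * n ≤ h * n := Nat.mul_le_mul_right n (by omega)
  rw [Rc_eq _ _ _ hdeg, norm_div, div_pow, norm_QQ_sq, norm_PP_sq b h c n ds hcn]
  have hlin : 0 ≤ lin h n y := by unfold lin; positivity
  have hq0 : ∀ s : Finset ℕ, 0 < ∏ k ∈ s, qs k y := fun s => Finset.prod_pos fun k _ => qs_pos k y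
  have e1 : ∏ k ∈ ss h c n, ws k y ^ mu h n ds k =
      (∏ k ∈ ss h c n, (((k : ℝ) - 1 / 2) ^ 2) ^ mu h n ds k) * ∏ k ∈ ss h c n, qs k y ^ mu h n ds k := by
    rw [← Finset.prod_mul_distrib]
    apply Finset.prod_congr rfl
    intro k _
    rw [ws_eq, mul_pow]
  have e2 : ∏ m ∈ Finset.Icc 1 (c * n), (ws m y ^ b * ws (h * n - m) y ^ b) =
      (∏ m ∈ Finset.Icc 1 (c * n), ((((m : ℝ) - 1 / 2) ^ 2) ^ b * ((((h * n - m : ℕ) : ℝ) - 1 / 2) ^ 2) ^ b)) *
        (∏ m ∈ Finset.Icc 1 (c * n), (qs m y * qs (h * n - m) y)) ^ b := by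
    rw [← Finset.prod_pow, ← Finset.prod_mul_distrib]
    apply Finset.prod_congr rfl
    intro m _
    rw [ws_eq, ws_eq, mul_pow, mul_pow, mul_pow]
    ring
  have e3 : ∏ k ∈ ss h c n, qs k y ^ (b + mu h n ds k) = (∏ k ∈ ss h c n, qs k y) ^ b * ∏ k ∈ ss h c n, qs k y ^ mu h n ds k := by
    rw [← Finset.prod_pow, ← Finset.prod_mul_distrib]
    apply Finset.prod_congr rfl
    intro k _
    rw [pow_add]
  have e4 : (∏ m ∈ Finset.Icc 1 (c * n), (qs m y * qs (h * n - m) y)) ^ b * (∏ k ∈ ss h c n, qs k y) ^ b ≤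
      Real.exp (b * (Real.pi * |y|)) := by
    rw [← mul_pow, prod_three h c n hn hch (fun m => qs m y), Real.exp_nat_mul]
    apply pow_le_pow_left₀ _ (prod_qs_le h n y)
    exact (Finset.prod_pos fun k _ => qs_pos k y).le
  set U := ∏ m ∈ Finset.Icc 1 (c * n), ((((m : ℝ) - 1 / 2) ^ 2) ^ b * ((((h * n - m : ℕ) : ℝ) - 1 / 2) ^ 2) ^ b) with hU
  set V := ∏ k ∈ ss h c n, (((k : ℝ) - 1 / 2) ^ 2) ^ mu h n ds k with hV
  set W := ∏ k ∈ ss h c n, qs k y ^ mu h n ds k with hW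
  set Q1 := (∏ k ∈ ss h c n, qs k y) ^ b with hQ1
  set Q2 := (∏ m ∈ Finset.Icc 1 (c * n), (qs m y * qs (h * n - m) y)) ^ b with hQ2
  have hV0 : 0 < V := Finset.prod_pos fun k _ => pow_pos (half_sq_pos k) _
  have hW0 : 0 < W := Finset.prod_pos fun k _ => pow_pos (qs_pos k y) _
  have hQ10 : 0 < Q1 := pow_pos (hq0 _) _
  have hU0 : 0 ≤ U := Finset.prod_nonneg fun k _ => by positivity
  rw [e1, e2, e3]
  unfold A0
  rw [← hU, ← hV, div_le_div_iff₀ (by positivity) (by positivity)]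
  calc ((cst b h c n ds : ℚ) : ℝ) ^ 2 * lin h n y * (U * Q2) * (Q1 * W)
      = ((cst b h c n ds : ℚ) : ℝ) ^ 2 * lin h n y * U * W * (Q2 * Q1) := by ring
    _ ≤ ((cst b h c n ds : ℚ) : ℝ) ^ 2 * lin h n y * U * W * Real.exp (b * (Real.pi * |y|)) :=
        mul_le_mul_of_nonneg_left e4 (by positivity)
    _ = _ := by field_simp

/-- growth beyond the cut -/
theorem Rc_sq_far (b h c n : ℕ) (ds : List ℕ) (hch : c * n ≤ h * n)
    (hdeg : (PP b h c n ds).degree < (QQ (ss h c n) (mu h n ds)).degree) (Y y : ℝ) (hY : 0 < Y) (hYy : Y ≤ y) :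
    ‖Rc (ss h c n) (mu h n ds) (PP b h c n ds) y‖ ^ 2 ≤
      ‖Rc (ss h c n) (mu h n ds) (PP b h c n ds) Y‖ ^ 2 * ((y / Y) ^ 2 * ((y / Y) ^ 2) ^ (2 * b * (c * n))) := by
  rw [Rc_eq _ _ _ hdeg, Rc_eq _ _ _ hdeg, norm_div, norm_div, div_pow, div_pow, norm_QQ_sq, norm_QQ_sq,
    norm_PP_sq b h c n ds hch, norm_PP_sq b h c n ds hch]
  have hr : 1 ≤ (y / Y) ^ 2 := by
    apply one_le_pow₀
    rw [one_le_div hY]; exact hYy
  have hy2 : y ^ 2 = (y / Y) ^ 2 * Y ^ 2 := by rw [div_pow]; field_simp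
  have hws : ∀ m, ws m y ≤ (y / Y) ^ 2 * ws m Y := by
    intro m
    unfold ws
    rw [mul_add, ← hy2]
    have := half_sq_pos m
    nlinarith
  have hws2 : ∀ m, ws m Y ≤ ws m y := by
    intro m
    unfold ws
    have : Y ^ 2 ≤ y ^ 2 := pow_le_pow_left₀ hY.le hYy 2
    linarith
  have hlin : lin h n y ≤ (y / Y) ^ 2 * lin h n Y := by
    unfold lin
    rw [mul_add, show (y / Y) ^ 2 * (4 * Y ^ 2) = 4 * ((y / Y) ^ 2 * Y ^ 2) by ring, ← hy2]
    nlinarith [sq_nonneg ((h : ℝ) * n - 1)]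
  have hlin0 : 0 ≤ lin h n Y := by unfold lin; positivity
  have hlin1 : 0 ≤ lin h n y := by unfold lin; positivity
  have e1 : ∏ m ∈ Finset.Icc 1 (c * n), (ws m y ^ b * ws (h * n - m) y ^ b) ≤
      ((y / Y) ^ 2) ^ (2 * b * (c * n)) * ∏ m ∈ Finset.Icc 1 (c * n), (ws m Y ^ b * ws (h * n - m) Y ^ b) := by
    have : ((y / Y) ^ 2) ^ (2 * b * (c * n)) = ∏ m ∈ Finset.Icc 1 (c * n), (((y / Y) ^ 2) ^ b * ((y / Y) ^ 2) ^ b) := by
      generalize (y / Y) ^ 2 = r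
      rw [Finset.prod_const, Nat.card_Icc, Nat.add_sub_cancel, ← pow_add, ← pow_mul]
      congr 1
      ring
    rw [this, ← Finset.prod_mul_distrib]
    apply Finset.prod_le_prod
    · intro m _
      have := (ws_pos m y).le
      have := (ws_pos (h * n - m) y).le
      positivity
    · intro m _
      calc ws m y ^ b * ws (h * n - m) y ^ b ≤ ((y / Y) ^ 2 * ws m Y) ^ b * ((y / Y) ^ 2 * ws (h * n - m) Y) ^ b := by
            have := (ws_pos m y).le
            have := (ws_pos (h * n - m) y).le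
            have := (ws_pos m Y).le
            gcongr
            · exact hws m
            · exact hws _
        _ = _ := by rw [mul_pow, mul_pow]; ring
  have e2 : ∏ k ∈ ss h c n, ws k Y ^ mu h n ds k ≤ ∏ k ∈ ss h c n, ws k y ^ mu h n ds k := by
    apply Finset.prod_le_prod
    · intro m _
      have := (ws_pos m Y).le
      positivity
    · intro m _
      exact pow_le_pow_left₀ (ws_pos m Y).le (hws2 m) _
  have p1 : 0 < ∏ k ∈ ss h c n, ws k Y ^ mu h n ds k := Finset.prod_pos fun k _ => pow_pos (ws_pos k Y) _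
  have p2 : 0 ≤ ∏ m ∈ Finset.Icc 1 (c * n), (ws m Y ^ b * ws (h * n - m) Y ^ b) :=
    Finset.prod_nonneg fun m _ => mul_nonneg (pow_nonneg (ws_pos m Y).le _) (pow_nonneg (ws_pos _ Y).le _)
  have p3 : 0 ≤ ∏ m ∈ Finset.Icc 1 (c * n), (ws m y ^ b * ws (h * n - m) y ^ b) :=
    Finset.prod_nonneg fun m _ => mul_nonneg (pow_nonneg (ws_pos m y).le _) (pow_nonneg (ws_pos _ y).le _)
  calc _ ≤ ((cst b h c n ds : ℚ) : ℝ) ^ 2 * ((y / Y) ^ 2 * lin h n Y) * (((y / Y) ^ 2) ^ (2 * b * (c * n)) * ∏ m ∈ Finset.Icc 1 (c * n), (ws m Y ^ b * ws (h * n - m) Y ^ b)) /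
        ∏ k ∈ ss h c n, ws k Y ^ mu h n ds k := by
        gcongr
    _ = _ := by ring

end

end Pool.Agent.H337R2
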