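import Pool.Agent.H337R2.Cx5

/-!
# Quadratic bound on the line
-/

open MeasureTheory Filter Topology Polynomial

namespace Pool.Agent.H337R2

noncomputable section

/-- second moment -/
def I2f (b h c : ℕ) (ds : List ℕ) : ℝ :=
  b * (1 / (c : ℝ) - 1 / ((h : ℝ) - c)) + (ds.map fun d : ℕ => 1 / (d : ℝ) - 1 / ((h : ℝ) - d)).sum

/-- fourth moment -/
def I4f (b h c : ℕ) (ds : List ℕ) : ℝ :=
  (b * (1 / (c : ℝ) ^ 3 - 1 / ((h : ℝ) - c) ^ 3) + (ds.map fun d : ℕ => 1 / (d : ℝ) ^ 3 - 1 / ((h : ℝ) - d) ^ 3).sum) / 3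

lemma sum_muR (h c n : ℕ) (ds : List ℕ) (hn : 1 ≤ n)
    (hc : ∀ d ∈ ds, c < d) (h2 : ∀ d ∈ ds, 2 * d < h) (f : ℕ → ℝ) :
    ∑ k ∈ ss h c n, (mu h n ds k : ℝ) * f k = (ds.map fun d => ∑ k ∈ Finset.Icc (d * n) (h * n - d * n), f k).sum := by
  have := prod_mu (M := Multiplicative ℝ) h c n ds hn hc h2 (fun k => Multiplicative.ofAdd (f k))
  apply_fun Multiplicative.toAdd at this
  rw [toAdd_prod] at this
  simp only [toAdd_pow, toAdd_ofAdd, nsmul_eq_mul] at this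
  rw [this]
  clear this hc h2
  induction ds with
  | nil => simp
  | cons d l ih =>
    simp only [List.map_cons, List.prod_cons, List.sum_cons, toAdd_mul, toAdd_prod, toAdd_ofAdd]
    rw [ih]

lemma sum_wt (b h c n : ℕ) (ds : List ℕ) (hn : 1 ≤ n)
    (hc : ∀ d ∈ ds, c < d) (h2 : ∀ d ∈ ds, 2 * d < h) (f : ℕ → ℝ) :
    ∑ k ∈ ss h c n, ((b + mu h n ds k : ℕ) : ℝ) * f k = b * ∑ k ∈ ss h c n, f k +
      (ds.map fun d => ∑ k ∈ Finset.Icc (d * n) (h * n - d * n), f k).sum := by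
  rw [← sum_muR h c n ds hn hc h2, Finset.mul_sum, ← Finset.sum_add_distrib]
  apply Finset.sum_congr rfl
  intro k _
  push_cast
  ring

lemma S2_ge (b h c n : ℕ) (ds : List ℕ) (hn : 1 ≤ n) (hc0 : 1 ≤ c) (hch : 2 * c < h)
    (hc : ∀ d ∈ ds, c < d) (h2 : ∀ d ∈ ds, 2 * d < h) :
    I2f b h c ds / n - b / ((c : ℝ) * n) ^ 2 ≤ ∑ k ∈ ss h c n, ((b + mu h n ds k : ℕ) : ℝ) * (1 / (k : ℝ) ^ 2) := by
  have hn0 : (0 : ℝ) < n := by exact_mod_cast hn
  have hc0' : (0 : ℝ) < c := by exact_mod_cast hc0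
  have hhc : (0 : ℝ) < (h : ℝ) - c := by
    have : ((2 * c : ℕ) : ℝ) < h := by exact_mod_cast hch
    push_cast at this
    linarith
  have hcn : c * n + 1 ≤ h * n - c * n := by
    have : (2 * c + 1) * n ≤ h * n := Nat.mul_le_mul_right n (by omega)
    have e : (2 * c + 1) * n = c * n + c * n + n := by ring
    omega
  rw [sum_wt b h c n ds hn hc h2]
  have p1 : (1 / n) * (1 / (c : ℝ) - 1 / ((h : ℝ) - c)) - 1 / ((c : ℝ) * n) ^ 2 ≤ ∑ k ∈ ss h c n, 1 / (k : ℝ) ^ 2 := by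
    have h3 := sum_inv_sq_ge (c * n + 1) (h * n - c * n - 1) (by omega) (by omega)
    unfold ss
    refine le_trans ?_ h3
    have e1 : ((h * n - c * n - 1 : ℕ) : ℝ) + 1 = ((h : ℝ) - c) * n := by
      have : h * n - c * n - 1 + 1 = h * n - c * n := by omega
      have h4 : (((h * n - c * n - 1 + 1 : ℕ)) : ℝ) = ((h * n - c * n : ℕ) : ℝ) := by rw [this]
      rw [Nat.cast_add, Nat.cast_one] at h4
      rw [h4, Nat.cast_sub (by omega)]
      push_cast; ring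
    rw [e1]
    push_cast
    have e2 : 1 / ((c : ℝ) * n) - 1 / ((c : ℝ) * n) ^ 2 ≤ 1 / ((c : ℝ) * n + 1) := by
      rw [div_sub_div _ _ (by positivity) (by positivity), div_le_div_iff₀ (by positivity) (by positivity)]
      nlinarith [mul_pos hc0' hn0]
    have e3 : (1 / (n : ℝ)) * (1 / (c : ℝ) - 1 / ((h : ℝ) - c)) = 1 / ((c : ℝ) * n) - 1 / (((h : ℝ) - c) * n) := by
      field_simp
    rw [e3]
    linarith
  have p2 : (1 / (n : ℝ)) * (ds.map fun d : ℕ => 1 / (d : ℝ) - 1 / ((h : ℝ) - d)).sum ≤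
      (ds.map fun d => ∑ k ∈ Finset.Icc (d * n) (h * n - d * n), 1 / (k : ℝ) ^ 2).sum := by
    rw [← List.sum_map_mul_left]
    apply List.sum_le_sum
    intro d hd
    have hd1 := hc d hd
    have hd2 := h2 d hd
    have hd0 : (0 : ℝ) < d := by exact_mod_cast (by omega : 0 < d)
    have hhd : (0 : ℝ) < (h : ℝ) - d := by
      have : ((2 * d : ℕ) : ℝ) < h := by exact_mod_cast hd2
      push_cast at this
      linarith
    have hdn : d * n + d * n + 1 ≤ h * n := by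
      have : (2 * d + 1) * n ≤ h * n := Nat.mul_le_mul_right n (by omega)
      have e : (2 * d + 1) * n = d * n + d * n + n := by ring
      omega
    have h3 := sum_inv_sq_ge (d * n) (h * n - d * n) (by nlinarith) (by omega)
    refine le_trans ?_ h3
    rw [Nat.cast_sub (by omega)]
    push_cast
    have e3 : (1 / (n : ℝ)) * (1 / (d : ℝ) - 1 / ((h : ℝ) - d)) = 1 / ((d : ℝ) * n) - 1 / (((h : ℝ) - d) * n) := by
      field_simp
    rw [e3]
    have e4 : 1 / ((h : ℝ) * n - d * n + 1) ≤ 1 / (((h : ℝ) - d) * n) := by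
      apply one_div_le_one_div_of_le (by positivity)
      linarith
    linarith
  unfold I2f
  have hb0 : (0 : ℝ) ≤ b := by positivity
  have p1' := mul_le_mul_of_nonneg_left p1 hb0
  calc _ = (b : ℝ) * ((1 / n) * (1 / (c : ℝ) - 1 / ((h : ℝ) - c)) - 1 / ((c : ℝ) * n) ^ 2) +
        (1 / (n : ℝ)) * (ds.map fun d : ℕ => 1 / (d : ℝ) - 1 / ((h : ℝ) - d)).sum := by
        field_simp; ring
    _ ≤ _ := add_le_add p1' p2

lemma S2_le (b h c n : ℕ) (ds : List ℕ) (hn : 1 ≤ n) (hc0 : 1 ≤ c) (hch : 2 * c < h)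
    (hc : ∀ d ∈ ds, c < d) (h2 : ∀ d ∈ ds, 2 * d < h) :
    ∑ k ∈ ss h c n, ((b + mu h n ds k : ℕ) : ℝ) * (1 / (k : ℝ) ^ 2) ≤
      I2f b h c ds / n + (b + ds.length) / ((c : ℝ) * n) ^ 2 := by
  have hn0 : (0 : ℝ) < n := by exact_mod_cast hn
  have hc0' : (0 : ℝ) < c := by exact_mod_cast hc0
  have hhc : (0 : ℝ) < (h : ℝ) - c := by
    have : ((2 * c : ℕ) : ℝ) < h := by exact_mod_cast hch
    push_cast at this
    linarith
  have hcn : c * n + 1 ≤ h * n - c * n := by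
    have : (2 * c + 1) * n ≤ h * n := Nat.mul_le_mul_right n (by omega)
    have e : (2 * c + 1) * n = c * n + c * n + n := by ring
    omega
  have hcn1 : 1 ≤ c * n := by nlinarith
  rw [sum_wt b h c n ds hn hc h2]
  have p1 : ∑ k ∈ ss h c n, 1 / (k : ℝ) ^ 2 ≤ (1 / n) * (1 / (c : ℝ) - 1 / ((h : ℝ) - c)) + 1 / ((c : ℝ) * n) ^ 2 := by
    have h3 := sum_inv_sq_le (c * n) (h * n - c * n) (by omega) (by omega)
    have h4 : ∑ k ∈ ss h c n, 1 / (k : ℝ) ^ 2 ≤ ∑ k ∈ Finset.Icc (c * n) (h * n - c * n), 1 / (k : ℝ) ^ 2 := by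
      apply Finset.sum_le_sum_of_subset_of_nonneg
      · intro k hk
        unfold ss at hk
        rw [Finset.mem_Icc] at *
        omega
      · intro k _ _; positivity
    refine h4.trans (h3.trans (le_of_eq ?_))
    rw [Nat.cast_sub (by omega)]
    push_cast
    have : (h : ℝ) * n - c * n = ((h : ℝ) - c) * n := by ring
    rw [this]
    field_simp
    ring
  have p2 : (ds.map fun d => ∑ k ∈ Finset.Icc (d * n) (h * n - d * n), 1 / (k : ℝ) ^ 2).sum ≤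
      (ds.map fun d : ℕ => (1 / (n : ℝ)) * (1 / (d : ℝ) - 1 / ((h : ℝ) - d)) + 1 / ((c : ℝ) * n) ^ 2).sum := by
    apply List.sum_le_sum
    intro d hd
    have hd1 := hc d hd
    have hd2 := h2 d hd
    have hd0 : (0 : ℝ) < d := by exact_mod_cast (by omega : 0 < d)
    have hdc : (c : ℝ) ≤ d := by exact_mod_cast hd1.le
    have hhd : (0 : ℝ) < (h : ℝ) - d := by
      have : ((2 * d : ℕ) : ℝ) < h := by exact_mod_cast hd2
      push_cast at this
      linarith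
    have hdn : d * n + d * n + 1 ≤ h * n := by
      have : (2 * d + 1) * n ≤ h * n := Nat.mul_le_mul_right n (by omega)
      have e : (2 * d + 1) * n = d * n + d * n + n := by ring
      omega
    have h3 := sum_inv_sq_le (d * n) (h * n - d * n) (by nlinarith) (by omega)
    refine h3.trans ?_
    rw [Nat.cast_sub (by omega)]
    push_cast
    have e3 : (1 / (n : ℝ)) * (1 / (d : ℝ) - 1 / ((h : ℝ) - d)) = 1 / ((d : ℝ) * n) - 1 / ((h : ℝ) * n - d * n) := by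
      have : (h : ℝ) * n - d * n = ((h : ℝ) - d) * n := by ring
      rw [this]
      field_simp
    rw [e3]
    have e4 : 1 / ((d : ℝ) * n) ^ 2 ≤ 1 / ((c : ℝ) * n) ^ 2 := by
      apply one_div_le_one_div_of_le (by positivity)
      gcongr
    linarith
  have p3 : (ds.map fun d : ℕ => (1 / (n : ℝ)) * (1 / (d : ℝ) - 1 / ((h : ℝ) - d)) + 1 / ((c : ℝ) * n) ^ 2).sum
      = (1 / (n : ℝ)) * (ds.map fun d : ℕ => 1 / (d : ℝ) - 1 / ((h : ℝ) - d)).sum + ds.length * (1 / ((c : ℝ) * n) ^ 2) := by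
    rw [List.sum_map_add, List.sum_map_mul_left]
    simp
  unfold I2f
  have hb0 : (0 : ℝ) ≤ b := by positivity
  have p1' := mul_le_mul_of_nonneg_left p1 hb0
  calc _ ≤ (b : ℝ) * ((1 / n) * (1 / (c : ℝ) - 1 / ((h : ℝ) - c)) + 1 / ((c : ℝ) * n) ^ 2) +
        ((1 / (n : ℝ)) * (ds.map fun d : ℕ => 1 / (d : ℝ) - 1 / ((h : ℝ) - d)).sum + ds.length * (1 / ((c : ℝ) * n) ^ 2)) := by
        rw [← p3]
        exact add_le_add p1' p2
    _ = _ := by field_simp; ring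

lemma S4_le (b h c n : ℕ) (ds : List ℕ) (hn : 1 ≤ n) (hc0 : 1 ≤ c) (hch : 2 * c < h)
    (hc : ∀ d ∈ ds, c < d) (h2 : ∀ d ∈ ds, 2 * d < h) :
    ∑ k ∈ ss h c n, ((b + mu h n ds k : ℕ) : ℝ) * (1 / (k : ℝ) ^ 4) ≤
      I4f b h c ds / n ^ 3 + (b + ds.length) / ((c : ℝ) * n) ^ 4 := by
  have hn0 : (0 : ℝ) < n := by exact_mod_cast hn
  have hc0' : (0 : ℝ) < c := by exact_mod_cast hc0
  have hhc : (0 : ℝ) < (h : ℝ) - c := by
    have : ((2 * c : ℕ) : ℝ) < h := by exact_mod_cast hch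
    push_cast at this
    linarith
  have hcn : c * n + 1 ≤ h * n - c * n := by
    have : (2 * c + 1) * n ≤ h * n := Nat.mul_le_mul_right n (by omega)
    have e : (2 * c + 1) * n = c * n + c * n + n := by ring
    omega
  have hcn1 : 1 ≤ c * n := by nlinarith
  rw [sum_wt b h c n ds hn hc h2]
  have p1 : ∑ k ∈ ss h c n, 1 / (k : ℝ) ^ 4 ≤ (1 / (n : ℝ) ^ 3) * ((1 / (c : ℝ) ^ 3 - 1 / ((h : ℝ) - c) ^ 3) / 3) + 1 / ((c : ℝ) * n) ^ 4 := by
    have h3 := sum_inv_four_le (c * n) (h * n - c * n) (by omega) (by omega)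
    have h4 : ∑ k ∈ ss h c n, 1 / (k : ℝ) ^ 4 ≤ ∑ k ∈ Finset.Icc (c * n) (h * n - c * n), 1 / (k : ℝ) ^ 4 := by
      apply Finset.sum_le_sum_of_subset_of_nonneg
      · intro k hk
        unfold ss at hk
        rw [Finset.mem_Icc] at *
        omega
      · intro k _ _; positivity
    refine h4.trans (h3.trans (le_of_eq ?_))
    rw [Nat.cast_sub (by omega)]
    push_cast
    have : (h : ℝ) * n - c * n = ((h : ℝ) - c) * n := by ring
    rw [this]
    field_simp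
    ring
  have p2 : (ds.map fun d => ∑ k ∈ Finset.Icc (d * n) (h * n - d * n), 1 / (k : ℝ) ^ 4).sum ≤
      (ds.map fun d : ℕ => (1 / (3 * (n : ℝ) ^ 3)) * (1 / (d : ℝ) ^ 3 - 1 / ((h : ℝ) - d) ^ 3) + 1 / ((c : ℝ) * n) ^ 4).sum := by
    apply List.sum_le_sum
    intro d hd
    have hd1 := hc d hd
    have hd2 := h2 d hd
    have hd0 : (0 : ℝ) < d := by exact_mod_cast (by omega : 0 < d)
    have hdc : (c : ℝ) ≤ d := by exact_mod_cast hd1.le
    have hhd : (0 : ℝ) < (h : ℝ) - d := by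
      have : ((2 * d : ℕ) : ℝ) < h := by exact_mod_cast hd2
      push_cast at this
      linarith
    have hdn : d * n + d * n + 1 ≤ h * n := by
      have : (2 * d + 1) * n ≤ h * n := Nat.mul_le_mul_right n (by omega)
      have e : (2 * d + 1) * n = d * n + d * n + n := by ring
      omega
    have h3 := sum_inv_four_le (d * n) (h * n - d * n) (by nlinarith) (by omega)
    refine h3.trans ?_
    rw [Nat.cast_sub (by omega)]
    push_cast
    have e3 : (1 / (3 * (n : ℝ) ^ 3)) * (1 / (d : ℝ) ^ 3 - 1 / ((h : ℝ) - d) ^ 3) = (1 / ((d : ℝ) * n) ^ 3 - 1 / ((h : ℝ) * n - d * n) ^ 3) / 3 := by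
      have : (h : ℝ) * n - d * n = ((h : ℝ) - d) * n := by ring
      rw [this]
      field_simp
    rw [e3]
    have e4 : 1 / ((d : ℝ) * n) ^ 4 ≤ 1 / ((c : ℝ) * n) ^ 4 := by
      apply one_div_le_one_div_of_le (by positivity)
      gcongr
    linarith
  have p3 : (ds.map fun d : ℕ => (1 / (3 * (n : ℝ) ^ 3)) * (1 / (d : ℝ) ^ 3 - 1 / ((h : ℝ) - d) ^ 3) + 1 / ((c : ℝ) * n) ^ 4).sum
      = (1 / (3 * (n : ℝ) ^ 3)) * (ds.map fun d : ℕ => 1 / (d : ℝ) ^ 3 - 1 / ((h : ℝ) - d) ^ 3).sum + ds.length * (1 / ((c : ℝ) * n) ^ 4) := by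
    rw [List.sum_map_add, List.sum_map_mul_left]
    simp
  unfold I4f
  have hb0 : (0 : ℝ) ≤ b := by positivity
  have p1' := mul_le_mul_of_nonneg_left p1 hb0
  calc _ ≤ (b : ℝ) * ((1 / (n : ℝ) ^ 3) * ((1 / (c : ℝ) ^ 3 - 1 / ((h : ℝ) - c) ^ 3) / 3) + 1 / ((c : ℝ) * n) ^ 4) +
        ((1 / (3 * (n : ℝ) ^ 3)) * (ds.map fun d : ℕ => 1 / (d : ℝ) ^ 3 - 1 / ((h : ℝ) - d) ^ 3).sum + ds.length * (1 / ((c : ℝ) * n) ^ 4)) := by
        rw [← p3]
        exact add_le_add p1' p2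
    _ = _ := by field_simp; ring

/-- the main bound near the real axis -/
theorem near_bound (b h c n : ℕ) (ds : List ℕ) (hn : 1 ≤ n) (hc0 : 1 ≤ c) (hch : 2 * c < h)
    (hc : ∀ d ∈ ds, c < d) (h2 : ∀ d ∈ ds, 2 * d < h)
    (η Y γ : ℝ) (hη : 0 ≤ η) (hγ : 0 ≤ γ)
    (hmin : ∀ s t : ℝ, 0 ≤ s → s ≤ η / c → 0 ≤ t → t ≤ Y / c → 2 * s * t - s ^ 2 - γ * s ^ 4 ≤ Real.log (1 + t ^ 2))
    (hsl : ((b : ℝ) - 4) * Real.pi ≤ 2 * η * I2f b h c ds)
    (y : ℝ) (hy : 0 ≤ y) (hyY : y ≤ Y * n) :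
    Real.exp (b * (Real.pi * |y|)) / (∏ k ∈ ss h c n, qs k y ^ (b + mu h n ds k)) * Real.exp (-(4 * Real.pi * y)) ≤
      Real.exp (2 * η * Y * b / c ^ 2 + η ^ 2 * (b + ds.length) / c ^ 2 + γ * η ^ 4 * (b + ds.length) / c ^ 4) *
        Real.exp (n * (η ^ 2 * I2f b h c ds + γ * η ^ 4 * I4f b h c ds)) := by
  have hn0 : (0 : ℝ) < n := by exact_mod_cast hn
  have hc0' : (0 : ℝ) < c := by exact_mod_cast hc0
  have hprod : 0 < ∏ k ∈ ss h c n, qs k y ^ (b + mu h n ds k) := Finset.prod_pos fun k _ => pow_pos (qs_pos k y) _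
  set S2 := ∑ k ∈ ss h c n, ((b + mu h n ds k : ℕ) : ℝ) * (1 / (k : ℝ) ^ 2) with hS2
  set S4 := ∑ k ∈ ss h c n, ((b + mu h n ds k : ℕ) : ℝ) * (1 / (k : ℝ) ^ 4) with hS4
  have hlog : (2 * (η * n) * y - (η * n) ^ 2) * S2 - γ * (η * n) ^ 4 * S4 ≤ Real.log (∏ k ∈ ss h c n, qs k y ^ (b + mu h n ds k)) := by
    rw [Real.log_prod (fun k _ => (pow_pos (qs_pos k y) _).ne'), hS2, hS4, Finset.mul_sum, Finset.mul_sum, ← Finset.sum_sub_distrib]
    apply Finset.sum_le_sum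
    intro k hk
    rw [Real.log_pow]
    unfold ss at hk
    rw [Finset.mem_Icc] at hk
    have hk1 : (c : ℝ) * n + 1 ≤ k := by exact_mod_cast hk.1
    have hcn0 : 0 < (c : ℝ) * n := by positivity
    have hk0 : (0 : ℝ) < k := by linarith
    have h3 := hmin (η * n / k) (y / k) (by positivity) (by
      rw [div_le_div_iff₀ hk0 hc0']
      nlinarith [mul_nonneg hη (by linarith : (0 : ℝ) ≤ k - c * n)]) (by positivity) (by
      rw [div_le_div_iff₀ hk0 hc0']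
      have hYn : 0 ≤ Y := by
        by_contra hcon
        have : Y * n < 0 := mul_neg_of_neg_of_pos (by linarith) hn0
        linarith
      nlinarith [mul_nonneg hYn (by linarith : (0 : ℝ) ≤ k - c * n), mul_le_mul_of_nonneg_right hyY hc0'.le])
    have h4 : Real.log (1 + (y / k) ^ 2) ≤ Real.log (qs k y) := by
      apply Real.log_le_log (by positivity)
      unfold qs
      rw [div_pow]
      have h5 : ((k : ℝ) - 1 / 2) ^ 2 ≤ (k : ℝ) ^ 2 := by nlinarith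
      have h6 := half_sq_pos k
      have h7 : y ^ 2 / (k : ℝ) ^ 2 ≤ y ^ 2 / ((k : ℝ) - 1 / 2) ^ 2 := by
        apply div_le_div_of_nonneg_left (by positivity) h6 h5
      linarith
    have h5 := mul_le_mul_of_nonneg_left (h3.trans h4) (by positivity : (0 : ℝ) ≤ ((b + mu h n ds k : ℕ) : ℝ))
    refine le_trans (le_of_eq ?_) h5
    field_simp
  have hmain : b * (Real.pi * |y|) - Real.log (∏ k ∈ ss h c n, qs k y ^ (b + mu h n ds k)) + (-(4 * Real.pi * y)) ≤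
      (2 * η * Y * b / c ^ 2 + η ^ 2 * (b + ds.length) / c ^ 2 + γ * η ^ 4 * (b + ds.length) / c ^ 4) +
        n * (η ^ 2 * I2f b h c ds + γ * η ^ 4 * I4f b h c ds) := by
    rw [abs_of_nonneg hy]
    have hge := S2_ge b h c n ds hn hc0 hch hc h2
    have hle := S2_le b h c n ds hn hc0 hch hc h2
    have hle4 := S4_le b h c n ds hn hc0 hch hc h2
    rw [← hS2] at hge hle
    rw [← hS4] at hle4
    set I2 := I2f b h c ds with hI2
    set I4 := I4f b h c ds with hI4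
    have q1 : 2 * (η * n) * y * (I2 / n - b / ((c : ℝ) * n) ^ 2) ≤ 2 * (η * n) * y * S2 :=
      mul_le_mul_of_nonneg_left hge (by positivity)
    have q1' : 2 * (η * n) * y * (I2 / n - b / ((c : ℝ) * n) ^ 2) = y * (2 * η * I2) - (2 * η * b / c ^ 2) * (y / n) := by
      field_simp
    have q2 : (2 * η * b / c ^ 2) * (y / n) ≤ (2 * η * b / c ^ 2) * Y := by
      apply mul_le_mul_of_nonneg_left _ (by positivity)
      rw [div_le_iff₀ hn0]; exact hyY
    have q3 : y * (((b : ℝ) - 4) * Real.pi) ≤ y * (2 * η * I2) := mul_le_mul_of_nonneg_left hsl hy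
    have q4 : (η * n) ^ 2 * S2 ≤ (η * n) ^ 2 * (I2 / n + (b + ds.length) / ((c : ℝ) * n) ^ 2) :=
      mul_le_mul_of_nonneg_left hle (by positivity)
    have q4' : (η * n) ^ 2 * (I2 / n + (b + ds.length) / ((c : ℝ) * n) ^ 2) = n * (η ^ 2 * I2) + η ^ 2 * (b + ds.length) / c ^ 2 := by
      field_simp
    have q5 : γ * (η * n) ^ 4 * S4 ≤ γ * (η * n) ^ 4 * (I4 / n ^ 3 + (b + ds.length) / ((c : ℝ) * n) ^ 4) :=
      mul_le_mul_of_nonneg_left hle4 (by positivity)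
    have q5' : γ * (η * n) ^ 4 * (I4 / n ^ 3 + (b + ds.length) / ((c : ℝ) * n) ^ 4) = n * (γ * η ^ 4 * I4) + γ * η ^ 4 * (b + ds.length) / c ^ 4 := by
      field_simp
    rw [q1'] at q1
    rw [q4'] at q4
    rw [q5'] at q5
    have q6 : 2 * η * b / (c : ℝ) ^ 2 * Y = 2 * η * Y * b / c ^ 2 := by ring
    rw [q6] at q2
    linarith
  rw [← Real.exp_add]
  calc _ = Real.exp (b * (Real.pi * |y|) - Real.log (∏ k ∈ ss h c n, qs k y ^ (b + mu h n ds k)) + (-(4 * Real.pi * y))) := by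
        rw [Real.exp_add, Real.exp_sub, Real.exp_log hprod]
    _ ≤ _ := Real.exp_le_exp.2 hmain

end

end Pool.Agent.H337R2
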