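import Pool.Agent.H337R2.PAdic

/-!
# The concrete rational functions
-/

open Polynomial

namespace Pool.Agent.H337R2

noncomputable section

/-- multiplicity of the pole at `-k` -/
def mu (h n : ℕ) (ds : List ℕ) (k : ℕ) : ℕ := ds.countP (fun d => d * n ≤ k ∧ k + d * n ≤ h * n)

/-- range of the poles -/
def ss (h c n : ℕ) : Finset ℕ := Finset.Icc (c * n + 1) (h * n - c * n - 1)

/-- normalising constant -/
def cst (b h c n : ℕ) (ds : List ℕ) : ℚ :=
  (ds.map fun d => (Nat.factorial ((h - 2 * d) * n) : ℚ)).prod / (Nat.factorial (c * n) : ℚ) ^ (2 * b)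

/-- the zeros -/
def NN (b h c n : ℕ) : ℚ[X] :=
  ∏ m ∈ Finset.Icc 1 (c * n), ((X + C (m : ℚ)) ^ b * (X + C ((h * n : ℚ) - m)) ^ b)

/-- the numerator -/
def PP (b h c n : ℕ) (ds : List ℕ) : ℚ[X] :=
  C (cst b h c n ds) * (2 * X + C (h * n : ℚ)) * NN b h c n

/-- hypotheses on the parameters -/
structure Good (b h c : ℕ) (ds : List ℕ) : Prop where
  c_lt : ∀ d ∈ ds, c < d
  two_lt : ∀ d ∈ ds, 2 * d < h

lemma prod_mu {M : Type*} [CommMonoid M] (h c n : ℕ) (ds : List ℕ) (hn : 1 ≤ n)
    (hc : ∀ d ∈ ds, c < d) (h2 : ∀ d ∈ ds, 2 * d < h) (f : ℕ → M) :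
    ∏ k ∈ ss h c n, f k ^ mu h n ds k = (ds.map fun d => ∏ k ∈ Finset.Icc (d * n) (h * n - d * n), f k).prod := by
  induction ds with
  | nil => simp [mu]
  | cons d ds ih =>
    rw [List.map_cons, List.prod_cons, ← ih (fun d' hd' => hc d' (List.mem_cons_of_mem _ hd'))
      (fun d' hd' => h2 d' (List.mem_cons_of_mem _ hd'))]
    have hsub : Finset.Icc (d * n) (h * n - d * n) ⊆ ss h c n := by
      intro k hk
      have h1 := hc d (by simp)
      have h3 : (c + 1) * n ≤ d * n := Nat.mul_le_mul_right n h1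
      rw [Nat.add_mul, one_mul] at h3
      rw [ss, Finset.mem_Icc] at *
      omega
    have h4 : ∏ k ∈ Finset.Icc (d * n) (h * n - d * n), f k
        = ∏ k ∈ ss h c n, (if k ∈ Finset.Icc (d * n) (h * n - d * n) then f k else 1) := by
      rw [Finset.prod_ite_mem, Finset.inter_eq_right.2 hsub]
    rw [h4, ← Finset.prod_mul_distrib]
    apply Finset.prod_congr rfl
    intro k _
    have h5 : (d * n ≤ k ∧ k + d * n ≤ h * n) ↔ k ∈ Finset.Icc (d * n) (h * n - d * n) := by
      rw [Finset.mem_Icc]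
      have h1 := h2 d (by simp)
      have h3 : (d * n) ≤ h * n := Nat.mul_le_mul_right n (by omega)
      omega
    unfold mu
    rw [List.countP_cons]
    by_cases hk : k ∈ Finset.Icc (d * n) (h * n - d * n)
    · rw [if_pos hk, if_pos (by simpa using h5.2 hk), pow_succ']
    · rw [if_neg hk, if_neg (by
        intro h6
        apply hk
        exact h5.1 (by simpa using h6)), one_mul, add_zero]

lemma sum_mu (h c n : ℕ) (ds : List ℕ) (hn : 1 ≤ n)
    (hc : ∀ d ∈ ds, c < d) (h2 : ∀ d ∈ ds, 2 * d < h) (f : ℕ → ℕ) :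
    ∑ k ∈ ss h c n, mu h n ds k * f k = (ds.map fun d => ∑ k ∈ Finset.Icc (d * n) (h * n - d * n), f k).sum := by
  have := prod_mu (M := Multiplicative ℕ) h c n ds hn hc h2 (fun k => Multiplicative.ofAdd (f k))
  apply_fun Multiplicative.toAdd at this
  rw [toAdd_prod] at this
  simp only [toAdd_pow, toAdd_ofAdd, smul_eq_mul] at this
  rw [this]
  clear this hc h2
  induction ds with
  | nil => simp
  | cons d ds ih =>
    rw [List.map_cons, List.prod_cons, toAdd_mul, ih, List.map_cons, List.sum_cons, toAdd_prod]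
    simp

lemma card_brick {h d n : ℕ} (h2 : 2 * d < h) :
    (Finset.Icc (d * n) (h * n - d * n)).card = (h - 2 * d) * n + 1 := by
  rw [Nat.card_Icc]
  have h3 : h * n = (h - 2 * d) * n + 2 * (d * n) := by
    have : h = (h - 2 * d) + 2 * d := by omega
    conv_lhs => rw [this]
    ring
  omega

lemma sum_mu_one (h c n : ℕ) (ds : List ℕ) (hn : 1 ≤ n)
    (hc : ∀ d ∈ ds, c < d) (h2 : ∀ d ∈ ds, 2 * d < h) :
    ∑ k ∈ ss h c n, mu h n ds k = (ds.map fun d => (h - 2 * d) * n + 1).sum := by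
  have := sum_mu h c n ds hn hc h2 (fun _ => 1)
  simp only [mul_one, Finset.sum_const, smul_eq_mul] at this
  rw [this]
  congr 1
  apply List.map_congr_left
  intro d hd
  rw [card_brick (h2 d hd)]

lemma even_sum_mu (h c n : ℕ) (ds : List ℕ) (hn : 1 ≤ n)
    (hc : ∀ d ∈ ds, c < d) (h2 : ∀ d ∈ ds, 2 * d < h) (hev : Even ds.length) :
    Even (∑ k ∈ ss h c n, mu h n ds k) := by
  rw [sum_mu_one h c n ds hn hc h2]
  have key : ∀ l : List ℕ, (∀ d ∈ l, 2 * d < h) →
      (l.map fun d => (h - 2 * d) * n + 1).sum % 2 = (l.length * (h * n + 1)) % 2 := by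
    intro l hl
    induction l with
    | nil => simp
    | cons d l ih =>
      rw [List.map_cons, List.sum_cons, List.length_cons, Nat.add_mod,
        ih (fun d' hd' => hl d' (List.mem_cons_of_mem _ hd')), ← Nat.add_mod, add_mul, one_mul,
        Nat.add_mod, Nat.add_mod _ (h * n + 1)]
      have h1 := hl d (by simp)
      have h3 : h * n = (h - 2 * d) * n + 2 * (d * n) := by
        have : h = (h - 2 * d) + 2 * d := by omega
        conv_lhs => rw [this]
        ring
      omega
  rw [Nat.even_iff, key ds h2, ← Nat.even_iff]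
  exact hev.mul_right _

lemma mu_le_length (h n : ℕ) (ds : List ℕ) (k : ℕ) : mu h n ds k ≤ ds.length :=
  List.countP_le_length

lemma mu_reflect (h n : ℕ) (ds : List ℕ) {k : ℕ} (hk : k ≤ h * n) :
    mu h n ds (h * n - k) = mu h n ds k := by
  unfold mu
  apply List.countP_congr
  intro d _
  simp only [decide_eq_true_eq]
  omega

lemma ss_reflect (h c n : ℕ) {k : ℕ} (hk : k ∈ ss h c n) : k ≤ h * n ∧ h * n - k ∈ ss h c n := by
  rw [ss, Finset.mem_Icc] at *
  omega

lemma PP_comp (b h c n : ℕ) (ds : List ℕ) :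
    (PP b h c n ds).comp (-X - C ((h * n : ℕ) : ℚ)) = - PP b h c n ds := by
  unfold PP NN
  rw [Polynomial.mul_comp, Polynomial.mul_comp, Polynomial.C_comp, Polynomial.prod_comp]
  have h1 : (2 * X + C (h * n : ℚ) : ℚ[X]).comp (-X - C ((h * n : ℕ) : ℚ)) = -(2 * X + C (h * n : ℚ)) := by
    simp only [Polynomial.add_comp, Polynomial.mul_comp, Polynomial.X_comp, Polynomial.C_comp,
      Polynomial.ofNat_comp]
    push_cast
    ring
  have h2 : ∀ m ∈ Finset.Icc 1 (c * n), ((X + C (m : ℚ)) ^ b * (X + C ((h * n : ℚ) - m)) ^ b : ℚ[X]).comp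
      (-X - C ((h * n : ℕ) : ℚ)) = (X + C (m : ℚ)) ^ b * (X + C ((h * n : ℚ) - m)) ^ b := by
    intro m _
    rw [← mul_pow, Polynomial.pow_comp]
    congr 1
    simp only [Polynomial.add_comp, Polynomial.mul_comp, Polynomial.X_comp, Polynomial.C_comp]
    push_cast
    rw [map_sub]
    ring
  rw [h1, Finset.prod_congr rfl h2]
  ring

lemma NN_natDegree_le (b h c n : ℕ) : (NN b h c n).natDegree ≤ 2 * b * (c * n) := by
  unfold NN
  refine (Polynomial.natDegree_prod_le _ _).trans ?_
  calc _ ≤ ∑ m ∈ Finset.Icc 1 (c * n), 2 * b := by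
        apply Finset.sum_le_sum
        intro m _
        refine (Polynomial.natDegree_mul_le).trans ?_
        refine (add_le_add (Polynomial.natDegree_pow_le) (Polynomial.natDegree_pow_le)).trans ?_
        rw [Polynomial.natDegree_X_add_C, Polynomial.natDegree_X_add_C]
        omega
    _ = _ := by simp; ring

lemma PP_natDegree_le (b h c n : ℕ) (ds : List ℕ) :
    (PP b h c n ds).natDegree ≤ 1 + 2 * b * (c * n) := by
  unfold PP
  refine (Polynomial.natDegree_mul_le).trans ?_
  refine add_le_add ?_ (NN_natDegree_le b h c n)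
  refine (Polynomial.natDegree_C_mul_le _ _).trans ?_
  compute_degree

lemma PP_dvd (b h c n : ℕ) (ds : List ℕ) {m : ℕ} (hm : m ∈ Finset.Icc 1 (c * n)) :
    (X + C (m : ℚ)) ^ b ∣ PP b h c n ds := by
  unfold PP NN
  apply Dvd.dvd.mul_left
  refine Dvd.dvd.trans ?_ (Finset.dvd_prod_of_mem _ hm)
  exact Dvd.intro _ rfl

end

end Pool.Agent.H337R2
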