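import Pool.Agent.H337R2.FormX

/-!
# The common denominator
-/

open Polynomial

namespace Pool.Agent.H337R2

noncomputable section

set_option linter.unusedSectionVars false

/-- primes `p` with `n/p` in the open interval `(x.1/x.2, y.1/y.2)` -/
def Pc (x y : ℕ × ℕ) (n : ℕ) : Finset ℕ :=
  (Finset.range (x.2 * n)).filter (fun p => p.Prime ∧ x.1 * p < x.2 * n ∧ y.2 * n < y.1 * p)

/-- product over the cells -/
def DD : List (ℕ × ℕ × ℕ) → ℕ → ℕ
  | x :: y :: L, n => (∏ p ∈ Pc (x.1, x.2.1) (y.1, y.2.1) n, p ^ x.2.2) * DD (y :: L) n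
  | _, _ => 1

/-- validity of a list of cells -/
def Valid (b h c : ℕ) (ds : List ℕ) : List (ℕ × ℕ × ℕ) → Prop
  | x :: y :: L => 0 < x.1 ∧ (∀ p n : ℕ, p.Prime → 1 ≤ n → h * n < p ^ 2 → x.1 * p < x.2.1 * n → y.2.1 * n < y.1 * p →
      Hyp p b h c n ds x.2.2) ∧ Valid b h c ds (y :: L)
  | _ => True

lemma DD_pos (L : List (ℕ × ℕ × ℕ)) (n : ℕ) : 0 < DD L n := by
  induction L with
  | nil => simp [DD]
  | cons x L ih =>
    cases L with
    | nil => simp [DD]
    | cons y L =>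
      rw [DD]
      apply Nat.mul_pos _ ih
      apply Finset.prod_pos
      intro p hp
      unfold Pc at hp
      rw [Finset.mem_filter] at hp
      exact Nat.pow_pos hp.2.1.pos

lemma exists_E (b h c : ℕ) (ds : List ℕ) (n p : ℕ) (hp : p.Prime) (hn : 1 ≤ n) (hp2 : h * n < p ^ 2) :
    ∀ (x : ℕ × ℕ × ℕ) (L : List (ℕ × ℕ × ℕ)), Valid b h c ds (x :: L) → x.1 * p < x.2.1 * n →
      (∀ y ∈ L, y.2.1 < p ∧ 0 < y.2.1) → (∃ E, Hyp p b h c n ds E ∧ p ^ E ∣ DD (x :: L) n) ∨ (p ∣ n) ∨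
        (((x :: L).getLast (by simp)).1 * p ≤ ((x :: L).getLast (by simp)).2.1 * n) := by
  intro x L
  induction L generalizing x with
  | nil =>
    intro _ hx _
    right; right
    simpa using hx.le
  | cons y L ih =>
    intro hV hx hL
    rcases lt_trichotomy (y.2.1 * n) (y.1 * p) with h1 | h1 | h1
    · left
      refine ⟨x.2.2, hV.2.1 p n hp hn hp2 hx h1, ?_⟩
      rw [DD]
      apply Dvd.dvd.mul_right
      apply Finset.dvd_prod_of_mem (fun p => p ^ x.2.2)
      unfold Pc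
      rw [Finset.mem_filter, Finset.mem_range]
      refine ⟨?_, hp, hx, h1⟩
      have := hV.1
      nlinarith
    · right; left
      have h2 : p ∣ y.2.1 * n := by rw [h1]; exact Dvd.intro_left _ rfl
      rcases (hp.dvd_mul).1 h2 with h3 | h3
      · exfalso
        have h4 := hL y List.mem_cons_self
        have := Nat.le_of_dvd h4.2 h3
        omega
      · exact h3
    · rcases ih y hV.2.2 h1 (fun z hz => hL z (List.mem_cons_of_mem _ hz)) with h2 | h2 | h2
      · left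
        obtain ⟨E, hE, hdvd⟩ := h2
        refine ⟨E, hE, ?_⟩
        rw [DD]
        exact hdvd.mul_left _
      · right; left; exact h2
      · right; right
        rw [List.getLast_cons (by simp)]
        exact h2

/-- integrality criterion -/
lemma isInt_of_norm {z : ℚ} (h : ∀ p : ℕ, p.Prime → padicNorm p z ≤ 1) : ∃ m : ℤ, z = m := by
  by_cases hd : z.den = 1
  · exact ⟨z.num, (Rat.coe_int_num_of_den_eq_one hd).symm⟩
  · exfalso
    obtain ⟨p, hp, hpd⟩ := Nat.exists_prime_and_dvd hd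
    haveI : Fact p.Prime := ⟨hp⟩
    have h1 := h p hp
    have hz : z = (z.num : ℚ) / (z.den : ℚ) := (Rat.num_div_den z).symm
    rw [hz, padicNorm.div] at h1
    have h2 : padicNorm p (z.num : ℚ) = 1 := by
      rw [padicNorm.int_eq_one_iff]
      intro hdvd
      have h3 : p ∣ z.num.natAbs := by
        rwa [← Int.natCast_dvd_natCast, Int.dvd_natAbs]
      have h4 := Nat.dvd_gcd h3 hpd
      rw [z.reduced] at h4
      exact hp.one_lt.ne' (Nat.dvd_one.1 h4)
    have h3 : padicNorm p (z.den : ℚ) < 1 := by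
      rw [padicNorm.nat_lt_one_iff]; exact hpd
    have h4 : 0 < padicNorm p (z.den : ℚ) :=
      lt_of_le_of_ne (padicNorm.nonneg _) (Ne.symm (padicNorm.nonzero (by exact_mod_cast z.den_nz)))
    rw [h2, div_le_one h4] at h1
    linarith

/-- product over the small primes -/
def AA (h n K : ℕ) : ℕ :=
  ∏ p ∈ (Finset.range (Nat.sqrt (h * n) + 1)).filter Nat.Prime, (p ^ (Nat.log p (h * n + 1) + 1)) ^ K

/-- tail product -/
def TT (z : ℕ × ℕ × ℕ) (n K : ℕ) : ℕ :=
  ∏ p ∈ (Finset.range (z.2.1 * n + 1)).filter (fun p => p.Prime ∧ z.1 * p ≤ z.2.1 * n), p ^ K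

/-- the common denominator -/
def Dn (b h n r : ℕ) (x : ℕ × ℕ × ℕ) (L : List (ℕ × ℕ × ℕ)) : ℕ :=
  AA h n (4 * r + b) * n ^ (b - 1 + r) * DD (x :: L) n * TT ((x :: L).getLast (by simp)) n (b - 1 + r)

lemma AA_pos (h n K : ℕ) : 0 < AA h n K := by
  unfold AA
  apply Finset.prod_pos
  intro p hp
  rw [Finset.mem_filter] at hp
  exact Nat.pow_pos (Nat.pow_pos hp.2.pos)

lemma TT_pos (z : ℕ × ℕ × ℕ) (n K : ℕ) : 0 < TT z n K := by
  unfold TT
  apply Finset.prod_pos
  intro p hp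
  rw [Finset.mem_filter] at hp
  exact Nat.pow_pos hp.2.1.pos

lemma Dn_pos (b h n r : ℕ) (x : ℕ × ℕ × ℕ) (L : List (ℕ × ℕ × ℕ)) (hn : 1 ≤ n) : 0 < Dn b h n r x L := by
  unfold Dn
  have := AA_pos h n (4 * r + b)
  have := DD_pos (x :: L) n
  have := TT_pos ((x :: L).getLast (by simp)) n (b - 1 + r)
  positivity

lemma norm_le_of_dvd {p : ℕ} [hp : Fact p.Prime] {E D : ℕ} (h : p ^ E ∣ D) : padicNorm p (D : ℚ) ≤ ((p : ℚ) ^ E)⁻¹ := by
  have h1 : ((p ^ E : ℕ) : ℤ) ∣ (D : ℤ) := by exact_mod_cast h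
  have := (padicNorm.dvd_iff_norm_le (p := p) (n := E) (z := (D : ℤ))).1 (by exact_mod_cast h1)
  rw [zpow_neg, zpow_natCast] at this
  exact_mod_cast this

/-- integrality of the linear form after multiplication by the common denominator -/
theorem integral (b h c n D : ℕ) (ds : List ℕ) (hb : 1 ≤ b) (hn : 1 ≤ n) (hD : ∀ d ∈ ds, D ≤ d)
    (hc : ∀ d ∈ ds, c < d) (h2 : ∀ d ∈ ds, 2 * d < h) (hch : c < h) (hcc : 2 * c + D < h)
    (x : ℕ × ℕ × ℕ) (L : List (ℕ × ℕ × ℕ)) (hV : Valid b h c ds (x :: L))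
    (hx1 : x.1 = 1) (hx2 : x.2.1 = h - D - c) (hLn : ∀ y ∈ x :: L, y.2.1 ^ 2 ≤ h * n ∧ 0 < y.2.1)
    (hlast : 0 < ((x :: L).getLast (by simp)).1)
    (u : ℕ → ℚ) (q : ℕ) (hq : 0 < q)
    (hu : ∀ i, ∃ z : ℤ, (q : ℚ) * u i = z) :
    ∃ m : ℤ, ((Dn b h n ds.length x L : ℕ) : ℚ) * (q * xform b h c n ds u) = m := by
  apply isInt_of_norm
  intro p hp
  haveI : Fact p.Prime := ⟨hp⟩
  rw [padicNorm.mul]
  have hhn : 1 ≤ h * n := by nlinarith
  have hpp : 0 < (p : ℚ) := p_pos'
  by_cases hp2 : h * n < p ^ 2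
  · have key : ∃ E, Hyp p b h c n ds E ∧ p ^ E ∣ Dn b h n ds.length x L := by
      by_cases hpk : (h - D - c) * n ≤ p
      · exact ⟨0, hyp_large p b h c n D ds hD hc h2 hcc hn hpk, by simp⟩
      · have htriv := hyp_trivial p b h c n ds hp.pos hch.le hhn h2 hb
        rcases exists_E b h c ds n p hp hn hp2 x L hV (by rw [hx1, hx2]; omega) (by
          intro y hy
          have h3 := hLn y (List.mem_cons_of_mem _ hy)
          refine ⟨?_, h3.2⟩
          have h4 : y.2.1 ^ 2 < p ^ 2 := lt_of_le_of_lt h3.1 hp2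
          exact lt_of_pow_lt_pow_left₀ 2 (by omega) h4) with h3 | h3 | h3
        · obtain ⟨E, hE, hd⟩ := h3
          refine ⟨E, hE, ?_⟩
          unfold Dn
          exact (hd.mul_left _).mul_right _
        · refine ⟨_, htriv, ?_⟩
          unfold Dn
          exact (((pow_dvd_pow_of_dvd h3 _).mul_left _).mul_right _).mul_right _
        · refine ⟨_, htriv, ?_⟩
          unfold Dn
          apply Dvd.dvd.mul_left
          unfold TT
          apply Finset.dvd_prod_of_mem (fun p => p ^ (b - 1 + ds.length))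
          rw [Finset.mem_filter, Finset.mem_range]
          refine ⟨?_, hp, h3⟩
          nlinarith
    obtain ⟨E, hE, hd⟩ := key
    have h3 := xform_med (p := p) b h c n ds hn hb hc h2 hch hp2 u q hq hu E hE
    have h4 := norm_le_of_dvd (p := p) hd
    calc _ ≤ ((p : ℚ) ^ E)⁻¹ * (p : ℚ) ^ E := mul_le_mul h4 h3 (padicNorm.nonneg _) (by positivity)
      _ = 1 := inv_mul_cancel₀ (by positivity)
  · have h3 := xform_crude (p := p) b h c n ds hn hc h2 hch u q hq hu
    have hd : (p ^ (Nat.log p (h * n + 1) + 1)) ^ (4 * ds.length + b) ∣ Dn b h n ds.length x L := by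
      unfold Dn
      apply Dvd.dvd.mul_right
      apply Dvd.dvd.mul_right
      apply Dvd.dvd.mul_right
      unfold AA
      apply Finset.dvd_prod_of_mem (fun p => (p ^ (Nat.log p (h * n + 1) + 1)) ^ (4 * ds.length + b))
      rw [Finset.mem_filter, Finset.mem_range]
      refine ⟨?_, hp⟩
      have : p ≤ Nat.sqrt (h * n) := Nat.le_sqrt.2 (by nlinarith)
      omega
    rw [← pow_mul] at hd
    have h4 := norm_le_of_dvd (p := p) hd
    have h5 : h * n + 1 < p ^ (Nat.log p (h * n + 1) + 1) := Nat.lt_pow_succ_log_self hp.one_lt _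
    have h6 : ((h * n + 1 : ℕ) : ℚ) ^ (4 * ds.length + b) ≤ ((p : ℚ) ^ ((Nat.log p (h * n + 1) + 1) * (4 * ds.length + b))) := by
      rw [pow_mul]
      apply pow_le_pow_left₀ (by positivity)
      exact_mod_cast h5.le
    calc _ ≤ ((p : ℚ) ^ ((Nat.log p (h * n + 1) + 1) * (4 * ds.length + b)))⁻¹ *
          ((p : ℚ) ^ ((Nat.log p (h * n + 1) + 1) * (4 * ds.length + b))) := by
          exact mul_le_mul h4 (h3.trans h6) (padicNorm.nonneg _) (by positivity)
      _ = 1 := inv_mul_cancel₀ (by positivity)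

end

end Pool.Agent.H337R2
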