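import Pool.Agent.H337R2.PF

/-!
# Linear forms in zeta values attached to a rational function
-/

open Polynomial

namespace Pool.Agent.H337R2

noncomputable section

/-- value of a rational function at `c` as power series -/
def RS (s : Finset ℕ) (μ : ℕ → ℕ) (P : ℚ[X]) (c : ℚ) : PowerSeries ℚ :=
  TS c P * VV s μ c

theorem pf_series (s : Finset ℕ) (μ : ℕ → ℕ) (P : ℚ[X])
    (hdeg : P.degree < (QQ s μ).degree) (c : ℚ) (hc : ∀ m ∈ s, c + (m : ℚ) ≠ 0) :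
    RS s μ P c = ∑ k ∈ s, ∑ j ∈ Finset.range (μ k),
      PowerSeries.C (pfc s μ P k j) * (iv (c + k)) ^ (μ k - j) := by
  unfold RS
  conv_lhs => rw [pf_identity s μ P hdeg]
  rw [map_sum, Finset.sum_mul]
  apply Finset.sum_congr rfl
  intro k hk
  rw [map_sum, Finset.sum_mul]
  apply Finset.sum_congr rfl
  intro j hj
  rw [Finset.mem_range] at hj
  have h1 : VV s μ c = iv (c + k) ^ (μ k - j) * iv (c + k) ^ j * VV (s.erase k) μ c := by
    unfold VV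
    rw [← pow_add, Nat.sub_add_cancel hj.le, Finset.mul_prod_erase s (fun m => iv (c + m) ^ μ m) hk]
  have h2 : TS c (QQ (s.erase k) μ) * VV (s.erase k) μ c = 1 :=
    TS_QQ_mul_VV _ _ _ (fun m hm _ => hc m (Finset.mem_of_mem_erase hm))
  have h3 : (PowerSeries.X + PowerSeries.C (c + k)) ^ j * iv (c + k) ^ j = 1 := by
    rw [← mul_pow, lin_mul_iv (hc k hk), one_pow]
  rw [map_mul, map_mul, map_pow, TS_C, TS_lin, h1]
  calc _ = PowerSeries.C (pfc s μ P k j) * iv (c + k) ^ (μ k - j) *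
        ((PowerSeries.X + PowerSeries.C (c + k)) ^ j * iv (c + k) ^ j) *
        (TS c (QQ (s.erase k) μ) * VV (s.erase k) μ c) := by ring
    _ = _ := by rw [h2, h3, mul_one, mul_one]

lemma coeff_RS (s : Finset ℕ) (μ : ℕ → ℕ) (P : ℚ[X])
    (hdeg : P.degree < (QQ s μ).degree) (c : ℚ) (hc : ∀ m ∈ s, c + (m : ℚ) ≠ 0) (β : ℕ) :
    PowerSeries.coeff β (RS s μ P c) = ∑ k ∈ s, ∑ j ∈ Finset.range (μ k),
      pfc s μ P k j * ((-1) ^ β * (Nat.choose (μ k - j - 1 + β) (μ k - j - 1) : ℚ)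
        / (c + k) ^ (μ k - j + β)) := by
  rw [pf_series s μ P hdeg c hc, map_sum]
  apply Finset.sum_congr rfl
  intro k hk
  rw [map_sum]
  apply Finset.sum_congr rfl
  intro j hj
  rw [Finset.mem_range] at hj
  rw [PowerSeries.coeff_C_mul]
  congr 1
  obtain ⟨d, hd⟩ : ∃ d, μ k - j = d + 1 := ⟨μ k - j - 1, by omega⟩
  rw [hd, coeff_iv_pow (hc k hk)]
  simp

/-- real zeta value as a series -/
def zr (e : ℕ) : ℝ := ∑' t : ℕ, 1 / ((t : ℝ) + 1) ^ e

/-- partial zeta sums -/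
def hs (e m : ℕ) : ℚ := ∑ l ∈ Finset.range m, 1 / ((l : ℚ) + 1) ^ e

lemma summable_zr {e : ℕ} (he : 2 ≤ e) : Summable (fun t : ℕ => 1 / ((t : ℝ) + 1) ^ e) := by
  have := (Real.summable_one_div_nat_pow (p := e)).2 (by omega)
  have h2 := (summable_nat_add_iff 1).2 this
  simpa using h2

lemma hasSum_tail {e : ℕ} (he : 2 ≤ e) (m : ℕ) :
    HasSum (fun t : ℕ => 1 / ((t : ℝ) + ((m : ℝ) + 1)) ^ e) (zr e - (hs e m : ℚ)) := by
  have h := (summable_zr he)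
  have h1 : Summable (fun t : ℕ => 1 / (((t + m : ℕ) : ℝ) + 1) ^ e) :=
    (summable_nat_add_iff (f := fun t : ℕ => 1 / ((t : ℝ) + 1) ^ e) m).2 h
  have h2 := h.sum_add_tsum_nat_add m
  have h3 : ∑' t : ℕ, 1 / (((t + m : ℕ) : ℝ) + 1) ^ e = zr e - (hs e m : ℚ) := by
    unfold zr hs
    rw [← h2]
    push_cast
    ring
  have h4 : (fun t : ℕ => 1 / ((t : ℝ) + ((m : ℝ) + 1)) ^ e)
      = fun t : ℕ => 1 / (((t + m : ℕ) : ℝ) + 1) ^ e := by
    ext t; push_cast; ring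
  rw [h4, ← h3]
  exact h1.hasSum

/-- the linear form -/
theorem linear_form (s : Finset ℕ) (μ : ℕ → ℕ) (P : ℚ[X])
    (hdeg : P.degree < (QQ s μ).degree) (β s0 : ℕ) (hβ : 1 ≤ β)
    (hs0 : ∀ k ∈ s, s0 < k)
    (hz : ∀ m ∈ Finset.Icc 1 s0, (X + C (m : ℚ)) ^ (β + 1) ∣ P) :
    HasSum (fun t : ℕ => ((PowerSeries.coeff β (RS s μ P (t : ℚ)) : ℚ) : ℝ))
      (∑ k ∈ s, ∑ j ∈ Finset.range (μ k),
        ((pfc s μ P k j * ((-1) ^ β * (Nat.choose (μ k - j - 1 + β) (μ k - j - 1) : ℚ)) : ℚ) : ℝ) *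
          (zr (μ k - j + β) - (hs (μ k - j + β) (k - s0 - 1) : ℚ))) := by
  -- the shifted function
  let φ : ℕ → ℝ := fun t => ∑ k ∈ s, ∑ j ∈ Finset.range (μ k),
        ((pfc s μ P k j * ((-1) ^ β * (Nat.choose (μ k - j - 1 + β) (μ k - j - 1) : ℚ)) : ℚ) : ℝ) *
          (1 / ((t : ℝ) + (((k - s0 - 1 : ℕ) : ℝ) + 1)) ^ (μ k - j + β))
  have hφ : HasSum φ (∑ k ∈ s, ∑ j ∈ Finset.range (μ k),
        ((pfc s μ P k j * ((-1) ^ β * (Nat.choose (μ k - j - 1 + β) (μ k - j - 1) : ℚ)) : ℚ) : ℝ) *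
          (zr (μ k - j + β) - (hs (μ k - j + β) (k - s0 - 1) : ℚ))) := by
    apply hasSum_sum
    intro k _
    apply hasSum_sum
    intro j hj
    rw [Finset.mem_range] at hj
    exact (hasSum_tail (by omega) _).mul_left _
  -- φ t is the coefficient at t - s0
  have hval : ∀ t : ℕ, (∀ k ∈ s, ((t : ℚ) - s0) + (k : ℚ) ≠ 0) ∧
      φ t = ((PowerSeries.coeff β (RS s μ P ((t : ℚ) - s0)) : ℚ) : ℝ) := by
    intro t
    have hne : ∀ k ∈ s, ((t : ℚ) - s0) + (k : ℚ) ≠ 0 := by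
      intro k hk
      have h1 := hs0 k hk
      have h2 : (s0 : ℚ) < k := by exact_mod_cast h1
      have h3 : (0 : ℚ) ≤ t := by positivity
      intro h4
      linarith
    refine ⟨hne, ?_⟩
    rw [coeff_RS s μ P hdeg _ hne β]
    push_cast
    apply Finset.sum_congr rfl
    intro k hk
    apply Finset.sum_congr rfl
    intro j _
    have h1 := hs0 k hk
    have h5 : (((k - s0 - 1 : ℕ) : ℝ) + 1) = (k : ℝ) - s0 := by
      have : k - s0 - 1 + 1 = k - s0 := by omega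
      have h6 : (((k - s0 - 1 + 1 : ℕ)) : ℝ) = (((k - s0 : ℕ)) : ℝ) := by rw [this]
      rw [Nat.cast_add, Nat.cast_one] at h6
      rw [h6, Nat.cast_sub h1.le]
    rw [h5]
    push_cast
    rw [show (t : ℝ) + ((k : ℝ) - s0) = (t : ℝ) - s0 + k by ring]
    ring
  have hzero : ∀ t : ℕ, t < s0 → φ t = 0 := by
    intro t ht
    rw [(hval t).2]
    obtain ⟨P', hP'⟩ := hz (s0 - t) (Finset.mem_Icc.2 ⟨by omega, by omega⟩)
    have h1 : TS ((t : ℚ) - s0) (X + C ((s0 - t : ℕ) : ℚ)) = PowerSeries.X := by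
      rw [TS_lin, Nat.cast_sub ht.le]
      simp
    have h2 : PowerSeries.coeff β (RS s μ P ((t : ℚ) - s0)) = 0 := by
      unfold RS
      rw [hP', RingHom.map_mul, RingHom.map_pow, h1, mul_assoc, PowerSeries.coeff_X_pow_mul', if_neg (by omega)]
    rw [h2]; simp
  have hshift : ∀ t : ℕ, φ (t + s0) = ((PowerSeries.coeff β (RS s μ P (t : ℚ)) : ℚ) : ℝ) := by
    intro t
    rw [(hval (t + s0)).2]
    congr 4
    push_cast
    ring
  have h1 := (hasSum_nat_add_iff' (f := φ) s0).2 hφ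
  have h2 : ∑ i ∈ Finset.range s0, φ i = 0 :=
    Finset.sum_eq_zero fun i hi => hzero i (Finset.mem_range.1 hi)
  rw [h2, sub_zero] at h1
  simpa only [hshift] using h1

end

end Pool.Agent.H337R2
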