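import Pool.Agent.H337R2.Asym

/-!
# The main criterion
-/

open Filter Topology

namespace Pool.Agent.H337R2

noncomputable section

/-- All the hypotheses on the parameters. -/
structure Params (b h c D : ℕ) (ds : List ℕ) : Prop where
  hb : 2 ≤ b
  hDm : D ∈ ds
  hD : ∀ d ∈ ds, D ≤ d
  hc : ∀ d ∈ ds, c < d
  h2 : ∀ d ∈ ds, 2 * d < h
  hcc : 2 * c + D < h
  hDD : 2 * D + c < h
  hlen : 3 ≤ ds.length
  hev : Even ds.length
  hdeg : 2 * b * c ≤ (ds.map fun d => h - 2 * d).sum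

theorem criterion (b h c D : ℕ) (ds : List ℕ) (H : Params b h c D ds)
    (x : ℕ × ℕ × ℕ) (L : List (ℕ × ℕ × ℕ)) (hV : Valid b h c ds (x :: L)) (hI : Inc (x :: L))
    (hx1 : x.1 = 1) (hx2 : x.2.1 = h - D - c) (hpos : ∀ y ∈ x :: L, 0 < y.2.1)
    (hlast : 0 < ((x :: L).getLast (by simp)).1) (S : ℝ)
    (hS : ∀ ε : ℝ, 0 < ε → ∀ᶠ n : ℕ in atTop, ∀ F, HasSum (term b h c n ds) F → |F| ≤ Real.exp (n * (S + ε)))
    (hneg : S + (cost (x :: L) + ((b - 1 + ds.length : ℕ) : ℝ) *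
      ((((x :: L).getLast (by simp)).2.1 : ℝ) / ((x :: L).getLast (by simp)).1)) < 0) :
    ∃ i, Odd i ∧ 3 ≤ i ∧ i ≤ ds.length ∧ Irrational (zr (i + (b - 1))) := by
  by_contra hcon
  push Not at hcon
  have hrat : ∀ i, ∃ v : ℚ, (Odd i ∧ 3 ≤ i ∧ i ≤ ds.length → zr (i + (b - 1)) = (v : ℝ)) ∧ (ds.length < i → v = 0) := by
    intro i
    by_cases hi : Odd i ∧ 3 ≤ i ∧ i ≤ ds.length
    · have h1 := hcon i hi.1 hi.2.1 hi.2.2
      unfold Irrational at h1
      rw [not_not] at h1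
      obtain ⟨v, hv⟩ := h1
      exact ⟨v, fun _ => hv.symm, fun h => by omega⟩
    · exact ⟨0, fun h => absurd h hi, fun _ => rfl⟩
  choose u hu1 hu2 using hrat
  set q : ℕ := ∏ i ∈ Finset.range (ds.length + 1), (u i).den with hq
  have hq0 : 0 < q := by
    rw [hq]; exact Finset.prod_pos fun i _ => (u i).den_pos
  have hqu : ∀ i, ∃ z : ℤ, (q : ℚ) * u i = z := by
    intro i
    by_cases hi : ds.length < i
    · exact ⟨0, by rw [hu2 i hi]; simp⟩
    · have h1 : (u i).den ∣ q := Finset.dvd_prod_of_mem (fun i => (u i).den) (Finset.mem_range.2 (by omega))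
      obtain ⟨w, hw⟩ := h1
      refine ⟨w * (u i).num, ?_⟩
      rw [hw]
      push_cast
      have h2 : ((u i).den : ℚ) * u i = (u i).num := by
        rw [mul_comm]; exact Rat.mul_den_eq_num (u i)
      calc ((u i).den : ℚ) * w * u i = w * (((u i).den : ℚ) * u i) := by ring
        _ = _ := by rw [h2]
  -- the growth inequality
  set T : ℝ := S + (cost (x :: L) + ((b - 1 + ds.length : ℕ) : ℝ) *
      ((((x :: L).getLast (by simp)).2.1 : ℝ) / ((x :: L).getLast (by simp)).1)) with hT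
  have hε : 0 < -T / 4 := by linarith
  have hκ : 2 ≤ h - D - c := by
    have := H.hcc
    have := H.hDD
    have := H.hc D H.hDm
    omega
  set κ := h - D - c with hκdef
  have ev1 := hS (-T / 4) hε
  have ev2 := log_Dn_le b h ds.length x L hI hpos hlast (-T / 4) hε
  have ev3 : ∀ᶠ n : ℕ in atTop, Real.log q ≤ (-T / 4) * n := by
    have := (tendsto_natCast_atTop_atTop (R := ℝ)).const_mul_atTop hε
    exact this.eventually_ge_atTop _
  have ev4 : ∀ᶠ n : ℕ in atTop, ∀ y ∈ x :: L, y.2.1 ^ 2 ≤ h * n := by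
    obtain ⟨B, hB⟩ : ∃ B : ℕ, ∀ y ∈ x :: L, y.2.1 ≤ B := by
      refine ⟨((x :: L).map fun y => y.2.1).sum, fun y hy => ?_⟩
      exact List.single_le_sum (fun _ _ => Nat.zero_le _) _ (List.mem_map_of_mem hy)
    filter_upwards [eventually_ge_atTop (B ^ 2)] with n hn y hy
    have h1 := hB y hy
    have h2 : y.2.1 ^ 2 ≤ B ^ 2 := Nat.pow_le_pow_left h1 2
    have h3 : 1 ≤ h := by have := H.hcc; omega
    nlinarith
  obtain ⟨N, hN⟩ := eventually_atTop.1 (ev1.and (ev2.and (ev3.and ev4)))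
  -- a special prime
  haveI : NeZero κ := ⟨by omega⟩
  obtain ⟨p, hpN, hp, hpmod⟩ := Nat.forall_exists_prime_gt_and_eq_mod (q := κ) (a := (-1 : ZMod κ)) (by
    exact isUnit_one.neg) (κ * (N + 2) + q + h ^ 2 + ds.length + b)
  haveI : Fact p.Prime := ⟨hp⟩
  have hdvd : κ ∣ p + 1 := by
    rw [← CharP.cast_eq_zero_iff (ZMod κ) κ (p + 1)]
    push_cast
    rw [hpmod]; ring
  obtain ⟨n, hn⟩ := hdvd
  have hpn : p + 1 = κ * n := hn
  have hNn : N + 2 ≤ n := by
    by_contra h1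
    have h2 : κ * n ≤ κ * (N + 2) := Nat.mul_le_mul_left κ (by omega)
    omega
  have hnp : n ≤ p := by nlinarith
  have hp2 : h * n < p ^ 2 := by
    have h1 : h ^ 2 < p := by omega
    have h2 : h ≤ h ^ 2 := by
      have : 1 ≤ h := by have := H.hcc; omega
      nlinarith
    calc h * n ≤ h * p := Nat.mul_le_mul_left h hnp
      _ < p * p := by
        apply Nat.mul_lt_mul_of_pos_right _ hp.pos
        omega
      _ = p ^ 2 := by ring
  obtain ⟨h1, h2, h3, h4⟩ := hN n (by omega)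
  have hch : c < h := by have := H.hcc; omega
  have hne := xform_ne_zero (p := p) b h c n D ds H.hb (by omega) H.hDm H.hD H.hc H.h2 H.hcc H.hDD hpn hp2
    (by omega) u q hq0 (by omega) hqu
  have hsum := hasSum_term b h c n ds (by omega) H.hb H.hc H.h2 H.hlen H.hev H.hdeg u
    (fun i hi1 hi2 hi3 => hu1 i ⟨hi1, hi2, hi3⟩)
  have h5 := h1 _ hsum
  obtain ⟨m, hm⟩ := integral b h c n D ds (by have := H.hb; omega) (by omega) H.hD H.hc H.h2 hch H.hcc x L hV hx1 hx2
    (fun y hy => ⟨h4 y hy, hpos y hy⟩) hlast u q hq0 hqu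
  have hDpos := Dn_pos b h n ds.length x L (by omega)
  have hm0 : m ≠ 0 := by
    rintro rfl
    simp only [Int.cast_zero, mul_eq_zero] at hm
    rcases hm with h6 | h6 | h6
    · have : Dn b h n ds.length x L = 0 := by exact_mod_cast h6
      omega
    · have : q = 0 := by exact_mod_cast h6
      omega
    · exact hne h6
  have hm1 : (1 : ℝ) ≤ |(m : ℝ)| := by
    have : (1 : ℤ) ≤ |m| := Int.one_le_abs hm0
    exact_mod_cast this
  have hmr : (m : ℝ) = (Dn b h n ds.length x L : ℝ) * (q * ((xform b h c n ds u : ℚ) : ℝ)) := by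
    have : ((m : ℚ) : ℝ) = (((Dn b h n ds.length x L : ℕ) : ℚ) * (q * xform b h c n ds u) : ℚ) := by rw [hm]
    push_cast at this
    exact this
  have hDr : (0 : ℝ) < (Dn b h n ds.length x L : ℝ) := by exact_mod_cast hDpos
  have hqr : (0 : ℝ) < (q : ℝ) := by exact_mod_cast hq0
  rw [hmr, abs_mul, abs_mul, abs_of_pos hDr, abs_of_pos hqr] at hm1
  have e1 : (Dn b h n ds.length x L : ℝ) ≤ Real.exp ((cost (x :: L) + ((b - 1 + ds.length : ℕ) : ℝ) * ((((x :: L).getLast (by simp)).2.1 : ℝ) / ((x :: L).getLast (by simp)).1) + -T / 4) * n) := by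
    rw [← Real.log_le_iff_le_exp hDr]; exact h2
  have e2 : (q : ℝ) ≤ Real.exp (-T / 4 * n) := by
    rw [← Real.log_le_iff_le_exp hqr]; exact h3
  have e3 : (Dn b h n ds.length x L : ℝ) * (q * |((xform b h c n ds u : ℚ) : ℝ)|) ≤
      Real.exp ((cost (x :: L) + ((b - 1 + ds.length : ℕ) : ℝ) * ((((x :: L).getLast (by simp)).2.1 : ℝ) / ((x :: L).getLast (by simp)).1) + -T / 4) * n) *
      (Real.exp (-T / 4 * n) * Real.exp (n * (S + -T / 4))) := by
    gcongr
  rw [← Real.exp_add, ← Real.exp_add] at e3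
  have e4 : (cost (x :: L) + ((b - 1 + ds.length : ℕ) : ℝ) * ((((x :: L).getLast (by simp)).2.1 : ℝ) / ((x :: L).getLast (by simp)).1) + -T / 4) * n
      + (-T / 4 * n + n * (S + -T / 4)) = (T / 4) * n := by
    rw [hT]; ring
  rw [e4] at e3
  have hn0 : (0 : ℝ) < n := by exact_mod_cast (by omega : 0 < n)
  have e5 : Real.exp (T / 4 * n) < 1 := by
    rw [Real.exp_lt_one_iff]
    nlinarith
  linarith

end

end Pool.Agent.H337R2
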