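import Pool.Agent.H337R2.Med

/-!
# Non-vanishing of the linear form via a special prime
-/

open Polynomial

namespace Pool.Agent.H337R2

noncomputable section

set_option linter.unusedSectionVars false

lemma constCoeff_TS (c : ℚ) (P : ℚ[X]) : PowerSeries.constantCoeff (TS c P) = P.eval c := by
  have h : (PowerSeries.constantCoeff (R := ℚ)).comp (TS c) = Polynomial.evalRingHom c := by
    apply Polynomial.ringHom_ext
    · intro a; simp [TS_C]
    · simp [TS_X]
  have := congrArg (fun f => f P) h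
  simpa using this

lemma constCoeff_iv (a : ℚ) : PowerSeries.constantCoeff (iv a) = 1 / a := by
  rw [← PowerSeries.coeff_zero_eq_constantCoeff_apply]
  simp [iv]

variable {p : ℕ} [hp : Fact p.Prime]

lemma norm_one_of_not_dvd {a : ℤ} (h : ¬ (p : ℤ) ∣ a) : padicNorm p (a : ℚ) = 1 :=
  (padicNorm.int_eq_one_iff a).2 h

lemma norm_lead (b h c n D : ℕ) (ds : List ℕ) (hn : 2 ≤ n) (hDm : D ∈ ds) (hD : ∀ d ∈ ds, D ≤ d)
    (hc : ∀ d ∈ ds, c < d) (h2 : ∀ d ∈ ds, 2 * d < h) (hcc : 2 * c + D < h) (hDD : 2 * D + c < h)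
    (hpn : p + 1 = (h - D - c) * n) (hp2 : h * n < p ^ 2) :
    padicNorm p (pa (ss h c n) (mu h n ds) (PP b h c n ds) ((h - D) * n) (mu h n ds ((h - D) * n))) = 1 := by
  have hcD := hc D hDm
  have h2D := h2 D hDm
  obtain ⟨κ, hκ⟩ : ∃ κ, h = κ + D + c := ⟨h - D - c, by omega⟩
  have hκ2 : h - D - c = κ := by omega
  have hκ3 : h - D = κ + c := by omega
  rw [hκ2] at hpn
  rw [hκ3]
  have f1 : (κ + c) * n = κ * n + c * n := by ring
  have f2 : h * n = κ * n + D * n + c * n := by rw [hκ]; ring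
  have f3 : c * n + n ≤ κ * n := by
    have : (c + 1) * n ≤ κ * n := Nat.mul_le_mul_right n (by omega)
    linarith
  have f4 : D * n + n ≤ κ * n := by
    have : (D + 1) * n ≤ κ * n := Nat.mul_le_mul_right n (by omega)
    linarith
  have f5 : c * n + n ≤ D * n := by
    have : (c + 1) * n ≤ D * n := Nat.mul_le_mul_right n (by omega)
    linarith
  have hbr : ∀ d ∈ ds, (h - 2 * d) * n < p := by
    intro d hd
    have h8 := hD d hd
    have h9 : (h - 2 * d + 1) * n ≤ κ * n := Nat.mul_le_mul_right n (by omega)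
    have h10 : (h - 2 * d + 1) * n = (h - 2 * d) * n + n := by ring
    omega
  set k := (κ + c) * n with hk
  have hkc : c * n < p := by omega
  unfold pa
  rw [if_pos le_rfl, Nat.sub_self]
  unfold pfc
  rw [PowerSeries.coeff_zero_eq_constantCoeff_apply, map_mul, constCoeff_TS]
  unfold VV
  rw [map_prod, padicNorm.mul, padicNorm_prod']
  have hV : ∏ i ∈ (ss h c n).erase k, padicNorm p (PowerSeries.constantCoeff (iv (-(k : ℚ) + i) ^ mu h n ds i)) = 1 := by
    apply Finset.prod_eq_one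
    intro m hm
    rw [Finset.mem_erase] at hm
    rw [map_pow, constCoeff_iv, padicNorm_pow']
    by_cases h0 : mu h n ds m = 0
    · rw [h0, pow_zero]
    · have hk0 : mu h n ds k ≠ 0 := by
        unfold mu
        have : 0 < List.countP (fun d => d * n ≤ k ∧ k + d * n ≤ h * n) ds := by
          rw [List.countP_pos_iff]
          refine ⟨D, hDm, ?_⟩
          simp only [decide_eq_true_eq]
          constructor <;> omega
        omega
      have h1 := hno_of_lt (q := p) h2 hbr hk0 h0 hm.1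
      have h3 := norm_one_of_not_dvd (p := p) h1
      have h4 : -(k : ℚ) + m = (((m : ℤ) - k : ℤ) : ℚ) := by push_cast; ring
      rw [h4, padicNorm.div, padicNorm.one, h3]
      simp
  rw [hV, mul_one]
  unfold PP NN
  rw [Polynomial.eval_mul, Polynomial.eval_mul, Polynomial.eval_prod, padicNorm.mul, padicNorm.mul,
    padicNorm_prod', Polynomial.eval_C]
  have hcst : padicNorm p (cst b h c n ds) = 1 := by
    rw [norm_cst b h c n ds hp2 h2 (by omega)]
    have h5 : c * n / p = 0 := Nat.div_eq_of_lt hkc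
    have h6 : (ds.map fun d => (h - 2 * d) * n / p).sum = 0 := by
      rw [List.sum_eq_zero_iff]
      intro x hx
      rw [List.mem_map] at hx
      obtain ⟨d, hd, rfl⟩ := hx
      exact Nat.div_eq_of_lt (hbr d hd)
    rw [h5, h6]; simp
  have hlin : padicNorm p (Polynomial.eval (-(k : ℚ)) (2 * X + C ((h : ℚ) * n))) = 1 := by
    have e1 : Polynomial.eval (-(k : ℚ)) (2 * X + C ((h : ℚ) * n)) = ((((h * n : ℕ) : ℤ) - 2 * k : ℤ) : ℚ) := by
      simp; ring
    rw [e1]
    apply norm_one_of_not_dvd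
    intro hdvd
    have h3 := Int.le_of_dvd (a := p) (b := 2 * (k : ℤ) - ((h * n : ℕ) : ℤ)) (by omega) (by
      have := (dvd_neg).2 hdvd
      rwa [neg_sub] at this)
    have h4 := hbr D hDm
    have h5 : (h - 2 * D) * n + 2 * (D * n) = h * n := by
      have : h = (h - 2 * D) + 2 * D := by omega
      conv_rhs => rw [this]
      ring
    omega
  rw [hcst, hlin, one_mul, one_mul]
  apply Finset.prod_eq_one
  intro m hm
  rw [Finset.mem_Icc] at hm
  rw [Polynomial.eval_mul, Polynomial.eval_pow, Polynomial.eval_pow, padicNorm.mul, padicNorm_pow', padicNorm_pow']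
  have e1 : Polynomial.eval (-(k : ℚ)) (X + C (m : ℚ)) = ((-((k : ℤ) - m) : ℤ) : ℚ) := by
    simp; ring
  have e2 : Polynomial.eval (-(k : ℚ)) (X + C ((h : ℚ) * n - m)) = ((((h * n : ℕ) : ℤ) - m - k : ℤ) : ℚ) := by
    simp; ring
  rw [e1, e2, norm_one_of_not_dvd, norm_one_of_not_dvd]
  · simp
  · intro hdvd
    have h3 := Int.le_of_dvd (by omega) hdvd
    omega
  · intro hdvd
    rw [dvd_neg] at hdvd
    obtain ⟨z, hz⟩ := hdvd
    have h3 : (p : ℤ) * 1 < p * z := by
      rw [← hz]; omega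
    have h4 : (p : ℤ) * z < p * 2 := by
      rw [← hz]; omega
    have hpp : (0 : ℤ) < p := by exact_mod_cast hp.out.pos
    have h5 := lt_of_mul_lt_mul_left h3 hpp.le
    have h6 := lt_of_mul_lt_mul_left h4 hpp.le
    omega

lemma xform_eq (b h c n : ℕ) (ds : List ℕ) (u : ℕ → ℚ) :
    xform b h c n ds u = ∑ i ∈ Finset.Icc 1 ds.length, ∑ k ∈ ss h c n,
      ((-1) ^ (b - 1) * (Nat.choose (i - 1 + (b - 1)) (i - 1) : ℚ)) *
        (pa (ss h c n) (mu h n ds) (PP b h c n ds) k i * (u i - hs (i + (b - 1)) (k - c * n - 1))) := by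
  unfold xform
  apply Finset.sum_congr rfl
  intro i _
  rw [← Finset.mul_sum]
  congr 1
  rw [Finset.sum_mul, ← Finset.sum_sub_distrib]
  apply Finset.sum_congr rfl
  intro k _
  ring

theorem xform_ne_zero (b h c n D : ℕ) (ds : List ℕ) (hb : 2 ≤ b) (hn : 2 ≤ n) (hDm : D ∈ ds) (hD : ∀ d ∈ ds, D ≤ d)
    (hc : ∀ d ∈ ds, c < d) (h2 : ∀ d ∈ ds, 2 * d < h) (hcc : 2 * c + D < h) (hDD : 2 * D + c < h)
    (hpn : p + 1 = (h - D - c) * n) (hp2 : h * n < p ^ 2) (hpb : ds.length + b ≤ p)
    (u : ℕ → ℚ) (q : ℕ) (hq : 0 < q) (hqp : q < p)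
    (hu : ∀ i, ∃ z : ℤ, (q : ℚ) * u i = z) : xform b h c n ds u ≠ 0 := by
  have hp0 : (p : ℚ) ≠ 0 := p_pos'.ne'
  have hp1 : (1 : ℚ) ≤ p := p_one'
  have hp1' : (1 : ℚ) < p := by exact_mod_cast hp.out.one_lt
  have hcD := hc D hDm
  have h2D := h2 D hDm
  have hκn : h * n = (h - D - c) * n + D * n + c * n := by
    have : h = (h - D - c) + D + c := by omega
    conv_lhs => rw [this]
    ring
  have hκn2 : (h - D) * n = (h - D - c) * n + c * n := by
    have : h - D = (h - D - c) + c := by omega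
    conv_lhs => rw [this]
    ring
  have f3 : c * n + n ≤ (h - D - c) * n := by
    have : (c + 1) * n ≤ (h - D - c) * n := Nat.mul_le_mul_right n (by omega)
    linarith
  have f4 : D * n + n ≤ (h - D - c) * n := by
    have : (D + 1) * n ≤ (h - D - c) * n := Nat.mul_le_mul_right n (by omega)
    linarith
  have f5 : c * n + n ≤ D * n := by
    have : (c + 1) * n ≤ D * n := Nat.mul_le_mul_right n (by omega)
    linarith
  have hbr : ∀ d ∈ ds, (h - 2 * d) * n < p := by
    intro d hd
    have h8 := hD d hd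
    have h9 : (h - 2 * d + 1) * n ≤ (h - D - c) * n := Nat.mul_le_mul_right n (by omega)
    have h10 : (h - 2 * d + 1) * n = (h - 2 * d) * n + n := by ring
    omega
  have hcst : padicNorm p (cst b h c n ds) = 1 := by
    rw [norm_cst b h c n ds hp2 h2 (by omega)]
    have h5 : c * n / p = 0 := Nat.div_eq_of_lt (by omega)
    have h6 : (ds.map fun d => (h - 2 * d) * n / p).sum = 0 := by
      rw [List.sum_eq_zero_iff]
      intro x hx
      rw [List.mem_map] at hx
      obtain ⟨d, hd, rfl⟩ := hx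
      exact Nat.div_eq_of_lt (hbr d hd)
    rw [h5, h6]; simp
  have hpa : ∀ k ∈ ss h c n, ∀ i, 1 ≤ i →
      padicNorm p (pa (ss h c n) (mu h n ds) (PP b h c n ds) k i) ≤ 1 := by
    intro k hk i hi
    by_cases hm : mu h n ds k = 0
    · rw [pa_zero_of_mu hi hm]; simp
    · rw [← hcst]
      apply pa_bound_int b h c n ds hk i
      intro m _ hmk hmm
      exact hno_of_lt h2 hbr hm hmm hmk
  have hlead := norm_lead (p := p) b h c n D ds hn hDm hD hc h2 hcc hDD hpn hp2
  set k0 := (h - D) * n with hk0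
  set μ1 := mu h n ds k0 with hμ1
  have hk0mem : k0 ∈ ss h c n := by
    rw [ss, Finset.mem_Icc]
    omega
  have hμpos : 1 ≤ μ1 := by
    rw [hμ1]
    unfold mu
    have : 0 < List.countP (fun d => d * n ≤ k0 ∧ k0 + d * n ≤ h * n) ds := by
      rw [List.countP_pos_iff]
      refine ⟨D, hDm, ?_⟩
      simp only [decide_eq_true_eq]
      constructor <;> omega
    omega
  have hμle : μ1 ≤ ds.length := mu_le_length h n ds k0
  have hq1 : padicNorm p (q : ℚ) = 1 := by
    rw [padicNorm.nat_eq_one_iff]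
    intro hdvd
    have := Nat.le_of_dvd hq hdvd
    omega
  have hu2 : ∀ i, padicNorm p (u i) ≤ 1 := by
    intro i
    obtain ⟨z, hz⟩ := hu i
    have h1 : padicNorm p ((q : ℚ) * u i) ≤ 1 := by
      rw [hz]; exact padicNorm.of_int z
    rw [padicNorm.mul, hq1, one_mul] at h1
    exact h1
  obtain ⟨Cf, hCf⟩ : ∃ Cf : ℕ → ℚ, ∀ i, Cf i = (-1) ^ (b - 1) * (Nat.choose (i - 1 + (b - 1)) (i - 1) : ℚ) :=
    ⟨_, fun _ => rfl⟩
  have hchoose : ∀ i, padicNorm p (Cf i) ≤ 1 := by
    intro i
    rw [hCf]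
    have := padicNorm.of_int (p := p) ((-1) ^ (b - 1) * (Nat.choose (i - 1 + (b - 1)) (i - 1) : ℤ))
    push_cast at this
    exact this
  set T : ℕ → ℕ → ℚ := fun i k => Cf i *
        (pa (ss h c n) (mu h n ds) (PP b h c n ds) k i * (u i - hs (i + (b - 1)) (k - c * n - 1))) with hT
  set W : ℚ := (p : ℚ) ^ (μ1 + b - 2) with hW
  have hW1 : 1 ≤ W := one_le_pow₀ hp1
  have hTle : ∀ i k, 1 ≤ i → k ∈ ss h c n → (k ≠ k0 ∨ i ≠ μ1) → padicNorm p (T i k) ≤ W := by
    intro i k hi hk hik
    have hkk : k ≠ k0 → mu h n ds k ≠ 0 → k < k0 := by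
      intro h1 h3
      obtain ⟨d, hd, hd1, hd2⟩ := mu_ne_zero h3
      have h4 : D * n ≤ d * n := Nat.mul_le_mul_right n (hD d hd)
      omega
    rw [hT]
    simp only
    rw [padicNorm.mul, padicNorm.mul]
    by_cases hm : mu h n ds k = 0
    · rw [pa_zero_of_mu hi hm, padicNorm.zero, zero_mul, mul_zero]; linarith
    have h3 : padicNorm p (u i - hs (i + (b - 1)) (k - c * n - 1)) ≤ W ∨
        pa (ss h c n) (mu h n ds) (PP b h c n ds) k i = 0 := by
      by_cases hkk0 : k = k0
      · subst hkk0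
        have him : i ≠ μ1 := by
          rcases hik with h4 | h4
          · exact absurd rfl h4
          · exact h4
        by_cases hi2 : i ≤ μ1
        · left
          refine padicNorm.sub.trans (max_le ((hu2 i).trans hW1) ?_)
          refine (hs_norm_med (p := p) (i + (b - 1)) (k0 - c * n - 1) ?_).trans ?_
          · omega
          · apply pow_le_pow_right₀ hp1
            omega
        · right
          unfold pa
          rw [if_neg (by omega)]
      · left
        have h4 := hkk hkk0 hm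
        refine padicNorm.sub.trans (max_le ((hu2 i).trans hW1) ?_)
        refine (hs_norm_small (p := p) (i + (b - 1)) (k - c * n - 1) ?_).trans hW1
        omega
    rcases h3 with h3 | h3
    · have h5 := hpa k hk i hi
      have h6 := hchoose i
      calc _ ≤ 1 * (1 * W) := by
            apply mul_le_mul h6 _ (mul_nonneg (padicNorm.nonneg _) (padicNorm.nonneg _)) zero_le_one
            exact mul_le_mul h5 h3 (padicNorm.nonneg _) zero_le_one
        _ = W := by ring
    · rw [h3, padicNorm.zero, zero_mul, mul_zero]; linarith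
  have hTeq : padicNorm p (T μ1 k0) = (p : ℚ) ^ (μ1 + b - 1) := by
    rw [hT]
    simp only
    rw [padicNorm.mul, padicNorm.mul, hlead, one_mul]
    have e1 : padicNorm p (Cf μ1) = 1 := by
      rw [hCf, padicNorm.mul]
      have e2 : padicNorm p ((-1 : ℚ) ^ (b - 1)) = 1 := by
        rw [padicNorm_pow', padicNorm.neg, padicNorm.one, one_pow]
      rw [e2, one_mul, padicNorm.nat_eq_one_iff]
      intro hdvd
      have h4 : Nat.choose (μ1 - 1 + (b - 1)) (μ1 - 1) ∣ Nat.factorial (μ1 - 1 + (b - 1)) := by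
        have h5 := Nat.choose_mul_factorial_mul_factorial (n := μ1 - 1 + (b - 1)) (k := μ1 - 1) (by omega)
        rw [← h5, mul_assoc]
        exact Dvd.intro _ rfl
      have h5 := (hp.out.dvd_factorial).1 (hdvd.trans h4)
      omega
    rw [e1, one_mul]
    have hk0p : k0 - c * n - 1 = p := by omega
    rw [hk0p]
    obtain ⟨p', hp'⟩ : ∃ p', p = p' + 1 := ⟨p - 1, by have := hp.out.pos; omega⟩
    have hsplit : hs (μ1 + (b - 1)) p = hs (μ1 + (b - 1)) p' + 1 / (p : ℚ) ^ (μ1 + (b - 1)) := by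
      have : hs (μ1 + (b - 1)) p = hs (μ1 + (b - 1)) (p' + 1) := by rw [hp']
      rw [this]
      unfold hs
      rw [Finset.sum_range_succ]
      congr 3
      rw [hp']; push_cast; ring
    have e3 : padicNorm p (1 / (p : ℚ) ^ (μ1 + (b - 1))) = (p : ℚ) ^ (μ1 + b - 1) := by
      rw [padicNorm.div, padicNorm.one, padicNorm_pow', padicNorm.padicNorm_p_of_prime]
      rw [inv_pow, one_div, inv_inv]
      congr 1
      omega
    have e4 : padicNorm p (u μ1 - hs (μ1 + (b - 1)) p') ≤ 1 := by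
      refine padicNorm.sub.trans (max_le (hu2 _) ?_)
      exact hs_norm_small (p := p) (μ1 + (b - 1)) p' (by omega)
    have e5 : u μ1 - hs (μ1 + (b - 1)) p = (u μ1 - hs (μ1 + (b - 1)) p') + (-(1 / (p : ℚ) ^ (μ1 + (b - 1)))) := by
      rw [hsplit]; ring
    have e6 : (1 : ℚ) < (p : ℚ) ^ (μ1 + b - 1) := one_lt_pow₀ hp1' (by omega)
    rw [e5, padicNorm.add_eq_max_of_ne]
    · rw [padicNorm.neg, e3]
      exact max_eq_right (by linarith)
    · rw [padicNorm.neg, e3]
      intro h; rw [h] at e4; linarith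
  have hWlt : W < (p : ℚ) ^ (μ1 + b - 1) := by
    rw [hW]
    apply pow_lt_pow_right₀ hp1'
    omega
  -- isolate the leading term
  have hμmem : μ1 ∈ Finset.Icc 1 ds.length := by
    rw [Finset.mem_Icc]; omega
  have hx : xform b h c n ds u = T μ1 k0 + (∑ k ∈ (ss h c n).erase k0, T μ1 k +
      ∑ i ∈ (Finset.Icc 1 ds.length).erase μ1, ∑ k ∈ ss h c n, T i k) := by
    have hx1 : xform b h c n ds u = ∑ i ∈ Finset.Icc 1 ds.length, ∑ k ∈ ss h c n, T i k := by
      rw [xform_eq]
      simp only [hT, hCf]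
    rw [hx1, ← Finset.add_sum_erase _ _ hμmem, ← Finset.add_sum_erase _ _ hk0mem, add_assoc]
  have hrest : padicNorm p (∑ k ∈ (ss h c n).erase k0, T μ1 k +
      ∑ i ∈ (Finset.Icc 1 ds.length).erase μ1, ∑ k ∈ ss h c n, T i k) ≤ W := by
    have hW0 : 0 ≤ W := by linarith
    refine padicNorm.nonarchimedean.trans (max_le ?_ ?_)
    · apply padicNorm.sum_le' _ hW0
      intro k hk
      rw [Finset.mem_erase] at hk
      exact hTle μ1 k hμpos hk.2 (Or.inl hk.1)
    · apply padicNorm.sum_le' _ hW0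
      intro i hi
      rw [Finset.mem_erase, Finset.mem_Icc] at hi
      apply padicNorm.sum_le' _ hW0
      intro k hk
      exact hTle i k hi.2.1 hk (Or.inr hi.1)
  intro hx0
  rw [hx0] at hx
  have h7 : T μ1 k0 = -(∑ k ∈ (ss h c n).erase k0, T μ1 k +
      ∑ i ∈ (Finset.Icc 1 ds.length).erase μ1, ∑ k ∈ ss h c n, T i k) := by linarith
  have h8 := hTeq
  rw [h7, padicNorm.neg] at h8
  rw [h8] at hrest
  linarith

end

end Pool.Agent.H337R2
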