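import Pool.Agent.H337R2.Sym

/-!
# p-adic size of power series coefficients
-/

open Polynomial

namespace Pool.Agent.H337R2

noncomputable section

set_option linter.unusedSectionVars false
set_option linter.unusedSimpArgs false

variable {p : ℕ} [hp : Fact p.Prime]

/-- coefficientwise p-adic bound `‖f_j‖ ≤ A ρ^j` -/
def PB (p : ℕ) (ρ A : ℚ) (f : PowerSeries ℚ) : Prop :=
  ∀ j, padicNorm p (PowerSeries.coeff j f) ≤ A * ρ ^ j

lemma PB.mul {ρ A B : ℚ} {f g : PowerSeries ℚ} (hρ : 0 ≤ ρ) (hA : 0 ≤ A) (hB : 0 ≤ B)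
    (hf : PB p ρ A f) (hg : PB p ρ B g) : PB p ρ (A * B) (f * g) := by
  intro j
  rw [PowerSeries.coeff_mul]
  apply padicNorm.sum_le' _ (by positivity)
  intro x hx
  have hx := Finset.HasAntidiagonal.mem_antidiagonal.1 hx
  rw [padicNorm.mul]
  calc padicNorm p ((PowerSeries.coeff x.1) f) * padicNorm p ((PowerSeries.coeff x.2) g)
      ≤ (A * ρ ^ x.1) * (B * ρ ^ x.2) :=
        mul_le_mul (hf _) (hg _) (padicNorm.nonneg _) (by positivity)
    _ = A * B * ρ ^ j := by rw [← hx, pow_add]; ring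

lemma PB.C {ρ A : ℚ} {a : ℚ} (hρ : 0 ≤ ρ) (hA : 0 ≤ A) (ha : padicNorm p a ≤ A) :
    PB p ρ A (PowerSeries.C a) := by
  intro j
  rw [PowerSeries.coeff_C]
  split_ifs with h
  · rw [h, pow_zero, mul_one]; exact ha
  · rw [padicNorm.zero]; positivity

lemma PB.one {ρ : ℚ} (hρ : 0 ≤ ρ) : PB p ρ 1 1 := by
  have := PB.C (p := p) (a := 1) (A := 1) hρ zero_le_one (by simp)
  simpa using this

lemma PB.pow {ρ A : ℚ} {f : PowerSeries ℚ} (hρ : 0 ≤ ρ) (hA : 0 ≤ A) (hf : PB p ρ A f) (n : ℕ) :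
    PB p ρ (A ^ n) (f ^ n) := by
  induction n with
  | zero => simpa using PB.one hρ
  | succ n ih => rw [pow_succ, pow_succ]; exact PB.mul hρ (by positivity) hA ih hf

lemma PB.prod {ι : Type*} {ρ : ℚ} (s : Finset ι) (A : ι → ℚ) (f : ι → PowerSeries ℚ) (hρ : 0 ≤ ρ)
    (hA : ∀ i ∈ s, 0 ≤ A i) (hf : ∀ i ∈ s, PB p ρ (A i) (f i)) :
    PB p ρ (∏ i ∈ s, A i) (∏ i ∈ s, f i) := by
  classical
  induction s using Finset.induction_on with
  | empty => simpa using PB.one hρ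
  | insert a s ha ih =>
    rw [Finset.prod_insert ha, Finset.prod_insert ha]
    apply PB.mul hρ (hA a (Finset.mem_insert_self _ _))
      (Finset.prod_nonneg fun i hi => hA i (Finset.mem_insert_of_mem hi))
      (hf a (Finset.mem_insert_self _ _))
    exact ih (fun i hi => hA i (Finset.mem_insert_of_mem hi)) (fun i hi => hf i (Finset.mem_insert_of_mem hi))

lemma PB.lin {ρ A : ℚ} {a u : ℚ} (hρ : 0 ≤ ρ) (hA : 0 ≤ A) (ha : padicNorm p a ≤ A)
    (hu : padicNorm p u ≤ A * ρ) : PB p ρ A (PowerSeries.C u * PowerSeries.X + PowerSeries.C a) := by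
  intro j
  rw [map_add]
  rcases j with _ | _ | j
  · simpa using ha
  · simpa [PowerSeries.coeff_C] using hu
  · simp [PowerSeries.coeff_C, PowerSeries.coeff_X]
    positivity

lemma PB.linX {ρ A : ℚ} {a : ℚ} (hρ : 0 ≤ ρ) (hA : 0 ≤ A) (ha : padicNorm p a ≤ A)
    (hu : 1 ≤ A * ρ) : PB p ρ A (PowerSeries.X + PowerSeries.C a) := by
  have := PB.lin (p := p) (u := 1) hρ hA ha (by simpa using hu)
  simpa using this

lemma PB.iv {ρ A : ℚ} {a : ℚ} (ha : a ≠ 0) (h1 : (padicNorm p a)⁻¹ ≤ A) (h2 : (padicNorm p a)⁻¹ ≤ ρ) :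
    PB p ρ A (iv a) := by
  intro j
  have h0 : 0 < padicNorm p a := lt_of_le_of_ne (padicNorm.nonneg _) (Ne.symm (padicNorm.nonzero ha))
  simp only [Pool.Agent.H337R2.iv, PowerSeries.coeff_mk]
  rw [padicNorm.div]
  have h3 : padicNorm p ((-1 : ℚ) ^ j) = 1 := by
    rcases neg_one_pow_eq_or ℚ j with h | h <;> rw [h] <;> simp
  have h4 : padicNorm p (a ^ (j + 1)) = padicNorm p a ^ (j + 1) := by
    induction j + 1 with
    | zero => simp
    | succ m ih => rw [pow_succ, pow_succ, padicNorm.mul, ih]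
  rw [h3, h4, one_div, ← inv_pow, pow_succ']
  have h5 : 0 < (padicNorm p a)⁻¹ := inv_pos.2 h0
  have h6 : 0 ≤ A := h5.le.trans h1
  gcongr

lemma PB.mono {ρ A B : ℚ} {f : PowerSeries ℚ} (hρ : 0 ≤ ρ) (h : PB p ρ A f) (hAB : A ≤ B) : PB p ρ B f := by
  intro j
  exact (h j).trans (by gcongr)

/-- general bound on partial fraction coefficients -/
theorem pfc_bound (s : Finset ℕ) (μ : ℕ → ℕ) (P : ℚ[X]) (k : ℕ) (ρ A : ℚ) (w : ℕ → ℚ)
    (hρ : 0 ≤ ρ) (hA : 0 ≤ A)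
    (hP : PB p ρ A (TS (-(k : ℚ)) P))
    (hw : ∀ m ∈ s.erase k, μ m ≠ 0 → (padicNorm p ((m : ℚ) - k))⁻¹ ≤ w m ∧ (padicNorm p ((m : ℚ) - k))⁻¹ ≤ ρ)
    (hw0 : ∀ m ∈ s.erase k, 0 ≤ w m) (j : ℕ) :
    padicNorm p (pfc s μ P k j) ≤ A * (∏ m ∈ s.erase k, w m ^ μ m) * ρ ^ j := by
  have h1 : PB p ρ (∏ m ∈ s.erase k, w m ^ μ m) (VV (s.erase k) μ (-(k : ℚ))) := by
    unfold VV
    apply PB.prod _ _ _ hρ (fun m hm => pow_nonneg (hw0 m hm) _)
    intro m hm
    by_cases h0 : μ m = 0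
    · rw [h0, pow_zero, pow_zero]; exact PB.one hρ
    · have hmk : m ≠ k := Finset.ne_of_mem_erase hm
      have hne : -(k : ℚ) + m ≠ 0 := by
        intro h
        apply hmk
        have : (m : ℚ) = k := by linarith
        exact_mod_cast this
      have h2 := hw m hm h0
      rw [show (m : ℚ) - k = -(k : ℚ) + m by ring] at h2
      exact PB.pow hρ (hw0 m hm) (PB.iv hne h2.1 h2.2) _
  have h2 := PB.mul hρ hA (Finset.prod_nonneg fun m hm => pow_nonneg (hw0 m hm) _) hP h1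
  exact h2 j

end

end Pool.Agent.H337R2
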