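import Mathlib

/-!
# Partial fractions of a rational function with integer poles, via power series

Everything is over `ℚ`. Poles sit at `-k` for natural numbers `k`.
-/

open Polynomial

namespace Pool.Agent.H337R2

noncomputable section

/-- Taylor expansion at `c` as a power series. -/
def TS (c : ℚ) : ℚ[X] →+* PowerSeries ℚ :=
  (Polynomial.coeToPowerSeries.ringHom).comp (Polynomial.taylorAlgHom c).toRingHom

lemma TS_X (c : ℚ) : TS c X = PowerSeries.X + PowerSeries.C c := by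
  simp [TS]

lemma TS_C (c a : ℚ) : TS c (C a) = PowerSeries.C a := by
  simp [TS]

lemma TS_lin (c a : ℚ) : TS c (X + C a) = PowerSeries.X + PowerSeries.C (c + a) := by
  rw [map_add, TS_X, TS_C, add_assoc, ← map_add]

/-- inverse of `X + a` -/
def iv (a : ℚ) : PowerSeries ℚ := PowerSeries.mk fun j => (-1) ^ j / a ^ (j + 1)

lemma lin_mul_iv {a : ℚ} (ha : a ≠ 0) :
    (PowerSeries.X + PowerSeries.C a) * iv a = 1 := by
  ext j
  rw [add_mul, map_add]
  cases j with
  | zero =>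
    simp [iv, ha]
  | succ j =>
    rw [PowerSeries.coeff_succ_X_mul, PowerSeries.coeff_C_mul]
    simp only [iv, PowerSeries.coeff_mk, PowerSeries.coeff_one]
    rw [if_neg (by omega)]
    field_simp
    ring

lemma iv_eq {a : ℚ} (ha : a ≠ 0) :
    iv a = PowerSeries.C a⁻¹ * PowerSeries.rescale (-a⁻¹) (PowerSeries.mk 1) := by
  ext j
  rw [PowerSeries.coeff_C_mul, PowerSeries.coeff_rescale]
  simp only [iv, PowerSeries.coeff_mk, Pi.one_apply, mul_one]
  rw [neg_pow a⁻¹ j, inv_pow, pow_succ]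
  field_simp

lemma coeff_iv_pow {a : ℚ} (ha : a ≠ 0) (d j : ℕ) :
    PowerSeries.coeff j (iv a ^ (d + 1)) = (-1) ^ j * (Nat.choose (d + j) d : ℚ) / a ^ (d + 1 + j) := by
  rw [iv_eq ha, mul_pow, ← map_pow, ← map_pow, PowerSeries.mk_one_pow_eq_mk_choose_add,
    PowerSeries.coeff_C_mul, PowerSeries.coeff_rescale, PowerSeries.coeff_mk, neg_pow,
    inv_pow, inv_pow, pow_add a (d + 1) j]
  field_simp

/-- the denominator `∏ (X + m)^{μ m}` -/
def QQ (s : Finset ℕ) (μ : ℕ → ℕ) : ℚ[X] := ∏ m ∈ s, (X + C (m : ℚ)) ^ μ m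

/-- formal inverse at `c` of `QQ`, when no pole at `-c`... -/
def VV (s : Finset ℕ) (μ : ℕ → ℕ) (c : ℚ) : PowerSeries ℚ := ∏ m ∈ s, (iv (c + m)) ^ μ m

lemma TS_QQ_mul_VV (s : Finset ℕ) (μ : ℕ → ℕ) (c : ℚ) (hc : ∀ m ∈ s, μ m ≠ 0 → c + m ≠ 0) :
    TS c (QQ s μ) * VV s μ c = 1 := by
  unfold QQ VV
  rw [map_prod, ← Finset.prod_mul_distrib]
  apply Finset.prod_eq_one
  intro m hm
  by_cases h0 : μ m = 0
  · simp [h0]
  · rw [map_pow, TS_lin, ← mul_pow, lin_mul_iv (hc m hm h0), one_pow]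

/-- the partial fraction coefficient: coefficient of `(X + k)^j` (i.e. of `1/(X+k)^(μ k - j)`) -/
def pfc (s : Finset ℕ) (μ : ℕ → ℕ) (P : ℚ[X]) (k j : ℕ) : ℚ :=
  PowerSeries.coeff j (TS (-(k : ℚ)) P * VV (s.erase k) μ (-(k : ℚ)))

lemma coprime_lin {i j : ℕ} (h : i ≠ j) : IsCoprime (X + C (i : ℚ)) (X + C (j : ℚ)) := by
  have := Polynomial.isCoprime_X_sub_C_of_isUnit_sub (R := ℚ) (a := -(i : ℚ)) (b := -(j : ℚ)) (by
    rw [isUnit_iff_ne_zero]
    intro h'
    apply h
    have : (i : ℚ) = j := by linarith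
    exact_mod_cast this)
  simpa using this

lemma QQ_monic (s : Finset ℕ) (μ : ℕ → ℕ) : (QQ s μ).Monic :=
  Polynomial.monic_prod_of_monic _ _ fun _ _ => (Polynomial.monic_X_add_C _).pow _

lemma QQ_natDegree (s : Finset ℕ) (μ : ℕ → ℕ) : (QQ s μ).natDegree = ∑ m ∈ s, μ m := by
  unfold QQ
  rw [Polynomial.natDegree_prod_of_monic _ _ fun _ _ => (Polynomial.monic_X_add_C _).pow _]
  apply Finset.sum_congr rfl
  intro m _
  rw [(Polynomial.monic_X_add_C _).natDegree_pow, Polynomial.natDegree_X_add_C, mul_one]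

lemma QQ_erase (s : Finset ℕ) (μ : ℕ → ℕ) {k : ℕ} (hk : k ∈ s) :
    QQ s μ = (X + C (k : ℚ)) ^ μ k * QQ (s.erase k) μ := by
  unfold QQ
  rw [← Finset.mul_prod_erase s _ hk]

/-- extraction of coefficients from a partial fraction identity -/
theorem pf_extract (s : Finset ℕ) (μ : ℕ → ℕ) (P : ℚ[X]) (A : ℕ → ℕ → ℚ)
    (hP : P = ∑ k ∈ s, ∑ j ∈ Finset.range (μ k),
      C (A k j) * (X + C (k : ℚ)) ^ j * QQ (s.erase k) μ) {k j : ℕ} (hk : k ∈ s) (hj : j < μ k) :
    A k j = pfc s μ P k j := by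
  have hinj : ∀ m ∈ s.erase k, μ m ≠ 0 → -(k : ℚ) + m ≠ 0 := by
    intro m hm _ h0
    have : m ≠ k := Finset.ne_of_mem_erase hm
    apply this
    have : (m : ℚ) = k := by linarith
    exact_mod_cast this
  have hself : TS (-(k : ℚ)) (X + C (k : ℚ)) = PowerSeries.X := by
    rw [TS_lin]; simp
  unfold pfc
  have h1 : TS (-(k : ℚ)) P = (∑ j ∈ Finset.range (μ k),
      PowerSeries.C (A k j) * PowerSeries.X ^ j) * TS (-(k : ℚ)) (QQ (s.erase k) μ)
      + PowerSeries.X ^ μ k * ∑ k' ∈ s.erase k, ∑ j ∈ Finset.range (μ k'),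
        TS (-(k : ℚ)) (C (A k' j) * (X + C (k' : ℚ)) ^ j * QQ ((s.erase k').erase k) μ) := by
    conv_lhs => rw [hP]
    rw [← Finset.add_sum_erase s _ hk, map_add, map_sum, Finset.sum_mul]
    congr 1
    · apply Finset.sum_congr rfl
      intro i _
      rw [map_mul, map_mul, map_pow, hself, TS_C]
    · rw [map_sum, Finset.mul_sum]
      apply Finset.sum_congr rfl
      intro k' hk'
      rw [map_sum, Finset.mul_sum]
      apply Finset.sum_congr rfl
      intro i _
      have hkk : k ∈ s.erase k' := by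
        refine Finset.mem_erase.2 ⟨?_, hk⟩
        exact (Finset.ne_of_mem_erase hk').symm
      rw [QQ_erase (s.erase k') μ hkk, map_mul, map_mul, map_mul, map_mul, map_mul, map_pow, map_pow,
        hself]
      ring
  rw [h1, add_mul, mul_assoc, TS_QQ_mul_VV _ _ _ hinj, mul_one, map_add, mul_assoc,
    PowerSeries.coeff_X_pow_mul', if_neg (by omega), add_zero, map_sum]
  simp only [PowerSeries.coeff_C_mul, PowerSeries.coeff_X_pow]
  rw [Finset.sum_eq_single j]
  · simp
  · intro i _ hij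
    rw [if_neg (Ne.symm hij), mul_zero]
  · intro h
    exact absurd (Finset.mem_range.2 hj) h

theorem pf_identity (s : Finset ℕ) (μ : ℕ → ℕ) (P : ℚ[X])
    (hdeg : P.degree < (QQ s μ).degree) :
    P = ∑ k ∈ s, ∑ j ∈ Finset.range (μ k),
      C (pfc s μ P k j) * (X + C (k : ℚ)) ^ j * QQ (s.erase k) μ := by
  obtain ⟨q, r, hr, hf⟩ := Polynomial.eq_quo_mul_prod_pow_add_sum_rem_mul_prod_pow (s := s) P
    (g := fun m : ℕ => X + C (m : ℚ)) (fun i _ => Polynomial.monic_X_add_C _)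
    (fun i _ j _ hij => coprime_lin hij) μ
  have hdeg1 : ∀ m : ℕ, (X + C (m : ℚ)).degree = 1 := fun m => Polynomial.degree_X_add_C _
  -- r i j are constants
  have hrc : ∀ k ∈ s, ∀ j, r k j = C ((r k j).coeff 0) := by
    intro k hk j
    apply Polynomial.eq_C_of_degree_le_zero
    have := hr k hk j
    rw [hdeg1] at this
    exact Nat.WithBot.lt_one_iff_le_zero.1 this
  let A : ℕ → ℕ → ℚ := fun k j => if h : j < μ k then (r k ⟨j, h⟩).coeff 0 else 0
  have hsum : ∑ k ∈ s, ∑ j : Fin (μ k), r k j * (X + C (k : ℚ)) ^ j.1 *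
      ∏ m ∈ s.erase k, (X + C (m : ℚ)) ^ μ m
      = ∑ k ∈ s, ∑ j ∈ Finset.range (μ k),
      C (A k j) * (X + C (k : ℚ)) ^ j * QQ (s.erase k) μ := by
    apply Finset.sum_congr rfl
    intro k hk
    rw [← Fin.sum_univ_eq_sum_range (fun j => C (A k j) * (X + C (k : ℚ)) ^ j * QQ (s.erase k) μ)]
    apply Finset.sum_congr rfl
    intro j _
    have : A k j.1 = (r k j).coeff 0 := by
      simp [A]
    rw [this, ← hrc k hk j]
    rfl
  rw [hsum] at hf
  change P = q * QQ s μ + _ at hf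
  have hq : q = 0 := by
    by_contra hq0
    have h1 : (q * QQ s μ).degree < (QQ s μ).degree := by
      have : q * QQ s μ = P - ∑ k ∈ s, ∑ j ∈ Finset.range (μ k),
          C (A k j) * (X + C (k : ℚ)) ^ j * QQ (s.erase k) μ := by
        rw [hf]; ring
      rw [this]
      refine lt_of_le_of_lt (Polynomial.degree_sub_le _ _) (max_lt hdeg ?_)
      refine lt_of_le_of_lt (Polynomial.degree_sum_le _ _) ?_
      rw [Finset.sup_lt_iff (by rw [bot_lt_iff_ne_bot, Polynomial.degree_ne_bot]; exact (QQ_monic s μ).ne_zero)]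
      intro k hk
      refine lt_of_le_of_lt (Polynomial.degree_sum_le _ _) ?_
      rw [Finset.sup_lt_iff (by rw [bot_lt_iff_ne_bot, Polynomial.degree_ne_bot]; exact (QQ_monic s μ).ne_zero)]
      intro j hj
      rw [Finset.mem_range] at hj
      have hm : ((X + C (k : ℚ)) ^ j * QQ (s.erase k) μ).Monic :=
        ((Polynomial.monic_X_add_C _).pow _).mul (QQ_monic _ _)
      rw [mul_assoc]
      refine lt_of_le_of_lt ((Polynomial.degree_mul_le _ _).trans (add_le_of_nonpos_left Polynomial.degree_C_le)) ?_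
      rw [QQ_erase s μ hk]
      have hm2 : ((X + C (k : ℚ)) ^ μ k * QQ (s.erase k) μ).Monic :=
        ((Polynomial.monic_X_add_C _).pow _).mul (QQ_monic _ _)
      rw [Polynomial.degree_eq_natDegree hm.ne_zero, Polynomial.degree_eq_natDegree hm2.ne_zero,
        ((Polynomial.monic_X_add_C _).pow _).natDegree_mul (QQ_monic _ _),
        ((Polynomial.monic_X_add_C _).pow _).natDegree_mul (QQ_monic _ _),
        (Polynomial.monic_X_add_C _).natDegree_pow, (Polynomial.monic_X_add_C _).natDegree_pow,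
        Polynomial.natDegree_X_add_C]
      exact_mod_cast (by omega : j * 1 + (QQ (s.erase k) μ).natDegree < μ k * 1 + (QQ (s.erase k) μ).natDegree)
    rw [Polynomial.degree_mul] at h1
    have h2 : (QQ s μ).degree ≠ ⊥ := by rw [Polynomial.degree_ne_bot]; exact (QQ_monic s μ).ne_zero
    have h3 : 0 ≤ q.degree := Polynomial.zero_le_degree_iff.2 hq0
    have h4 : (QQ s μ).degree ≤ q.degree + (QQ s μ).degree := le_add_of_nonneg_left h3
    exact absurd h1 (not_lt.2 h4)
  rw [hq, zero_mul, zero_add] at hf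
  conv_lhs => rw [hf]
  apply Finset.sum_congr rfl
  intro k hk
  apply Finset.sum_congr rfl
  intro j hj
  rw [pf_extract s μ P A hf hk (Finset.mem_range.1 hj)]

end

end Pool.Agent.H337R2
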