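import Pool.Agent.H337R2.PsiCert

/-!
# The checker for `∑ c_s Ψ(v - e_s) ≤ a` on an interval
-/

open Real

namespace Pool.Agent.H337R2

/-- `w log |w|` -/
noncomputable def xlL (w : ℝ) : ℝ := w * Real.log w

lemma xlL_neg (w : ℝ) : xlL (-w) = - xlL w := by unfold xlL; rw [Real.log_neg_eq_log]; ring

/-- `∑ C (x - k)` -/
def T1 (l : List (ℤ × ℤ)) (x : ℤ) : ℤ := (l.map fun s => s.1 * (x - s.2)).sum

/-- the same for a real argument -/
noncomputable def T1R (l : List (ℤ × ℤ)) (w : ℝ) : ℝ := (l.map fun s => (s.1 : ℝ) * (w - s.2)).sum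

/-- `∑ C (w - k) log |w - k|` -/
noncomputable def GR (l : List (ℤ × ℤ)) (w : ℝ) : ℝ := (l.map fun s => (s.1 : ℝ) * xlL (w - s.2)).sum

lemma T1R_cast (l : List (ℤ × ℤ)) (x : ℤ) : T1R l (x : ℝ) = (T1 l x : ℝ) := by
  induction l with
  | nil => simp [T1R, T1]
  | cons s l ih =>
    simp only [T1R, T1, List.map_cons, List.sum_cons] at ih ⊢
    rw [ih]; push_cast; ring

lemma EF_eq {Dc M : ℕ} (hD : 0 < Dc) (hM : 0 < M) (l : List (ℤ × ℤ)) (w : ℝ) :
    (Dc : ℝ) * M * EF Dc M l (w / M) = GR l w - T1R l w * (Real.log M + 1) := by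
  have hD' : (0 : ℝ) < Dc := by exact_mod_cast hD
  have hM' : (0 : ℝ) < M := by exact_mod_cast hM
  induction l with
  | nil => simp [EF, GR, T1R]
  | cons s l ih =>
    rw [EF_cons, mul_add, ih]
    simp only [GR, T1R, List.map_cons, List.sum_cons]
    have e1 : w / M - (s.2 : ℝ) / M = (w - s.2) / M := by ring
    rw [e1]
    have e2 : (Dc : ℝ) * M * ((s.1 : ℝ) / Dc * Psi ((w - s.2) / M)) =
        (s.1 : ℝ) * xlL (w - s.2) - (s.1 : ℝ) * (w - s.2) * (Real.log M + 1) := by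
      unfold Psi xlL
      rcases eq_or_ne (w - (s.2 : ℝ)) 0 with h | h
      · rw [h]; simp
      · rw [Real.log_div h hM'.ne']
        field_simp
        ring
    rw [e2]
    ring

/-- upper bound for `10^12 * Dc * M * EF (x / M)` -/
def Eup (M : ℕ) (l : List (ℤ × ℤ)) (x : ℤ) : ℤ :=
  (l.map fun s => s.1 * (x - s.2) * lnA (x - s.2).natAbs + |s.1 * (x - s.2)| * lnE).sum
    - T1 l x * (lnA M + 1000000000000) + |T1 l x| * lnE

lemma GR_le (l : List (ℤ × ℤ)) (x : ℤ) (hx : ∀ s ∈ l, |x - s.2| < 2 ^ 20) :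
    10 ^ 12 * GR l (x : ℝ) ≤
      ((l.map fun s => s.1 * (x - s.2) * lnA (x - s.2).natAbs + |s.1 * (x - s.2)| * lnE).sum : ℤ) := by
  induction l with
  | nil => simp [GR]
  | cons s l ih =>
    have ih' := ih (fun t ht => hx t (List.mem_cons_of_mem _ ht))
    have h0 := hx s List.mem_cons_self
    simp only [GR, List.map_cons, List.sum_cons, mul_add] at ih' ⊢
    push_cast at ih' ⊢
    have key : (10 : ℝ) ^ 12 * ((s.1 : ℝ) * xlL ((x : ℝ) - s.2)) ≤
        (s.1 : ℝ) * ((x : ℝ) - s.2) * (lnA (x - s.2).natAbs : ℝ) + |(s.1 : ℝ) * ((x : ℝ) - s.2)| * 20000 := by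
      rcases eq_or_ne (x - s.2) 0 with h | h
      · have h' : (x : ℝ) - s.2 = 0 := by exact_mod_cast h
        rw [h']; simp [xlL]
      · have hj1 : 1 ≤ (x - s.2).natAbs := by omega
        have hj2 : (x - s.2).natAbs < 2 ^ 20 := by
          have : ((x - s.2).natAbs : ℤ) < 2 ^ 20 := by rw [Int.natCast_natAbs]; exact h0
          exact_mod_cast this
        have hs := lnA_spec _ hj1 hj2
        have hc : (((x - s.2).natAbs : ℕ) : ℝ) = |(x : ℝ) - s.2| := by
          have h2 : (((x - s.2).natAbs : ℕ) : ℤ) = |x - s.2| := Int.natCast_natAbs _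
          calc (((x - s.2).natAbs : ℕ) : ℝ) = ((((x - s.2).natAbs : ℕ) : ℤ) : ℝ) := by rw [Int.cast_natCast]
            _ = ((|x - s.2| : ℤ) : ℝ) := by rw [h2]
            _ = _ := by push_cast; rfl
        rw [hc, Real.log_abs] at hs
        unfold xlL
        set c : ℝ := (s.1 : ℝ) * ((x : ℝ) - s.2)
        set L : ℝ := Real.log ((x : ℝ) - s.2)
        set A : ℝ := (lnA (x - s.2).natAbs : ℝ)
        have : (10 : ℝ) ^ 12 * ((s.1 : ℝ) * (((x : ℝ) - s.2) * L)) = c * A + c * (10 ^ 12 * L - A) := by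
          simp only [c]; ring
        rw [this]
        have h3 : c * (10 ^ 12 * L - A) ≤ |c| * |10 ^ 12 * L - A| := by
          rw [← abs_mul]; exact le_abs_self _
        have h4 : |c| * |10 ^ 12 * L - A| ≤ |c| * 20000 := by
          apply mul_le_mul_of_nonneg_left _ (abs_nonneg c)
          simpa [lnE] using hs
        linarith
    linarith

lemma Eup_spec {M : ℕ} (hM : 1 ≤ M) (hM2 : M < 2 ^ 20) (l : List (ℤ × ℤ)) (x : ℤ)
    (hx : ∀ s ∈ l, |x - s.2| < 2 ^ 20) :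
    10 ^ 12 * (GR l (x : ℝ) - T1R l (x : ℝ) * (Real.log M + 1)) ≤ (Eup M l x : ℝ) := by
  have h1 := GR_le l x hx
  have h2 := lnA_spec M hM hM2
  rw [T1R_cast]
  unfold Eup
  push_cast at h1 ⊢
  set t : ℝ := (T1 l x : ℝ)
  have h3 : t * (lnA M - 10 ^ 12 * Real.log M) ≤ |t| * |(lnA M : ℝ) - 10 ^ 12 * Real.log M| := by
    rw [← abs_mul]; exact le_abs_self _
  have h4 : |t| * |(lnA M : ℝ) - 10 ^ 12 * Real.log M| ≤ |t| * 20000 := by
    apply mul_le_mul_of_nonneg_left _ (abs_nonneg t)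
    rw [abs_sub_comm]
    simpa [lnE] using h2
  nlinarith [h1, h3, h4]

/-! ### Convexity -/

lemma xlL_convex {a b : ℝ} (ha : 0 ≤ a) (hb : 0 ≤ b) {p q : ℝ} (hp : 0 ≤ p) (hq : 0 ≤ q) (hpq : p + q = 1) :
    xlL (p * a + q * b) ≤ p * xlL a + q * xlL b := by
  have h := Real.convexOn_mul_log.2 (Set.mem_Ici.2 ha) (Set.mem_Ici.2 hb) hp hq hpq
  simpa [xlL, smul_eq_mul] using h

lemma xlL_gap {a b : ℝ} (ha : 0 < a) (hab : a ≤ b) {p q : ℝ} (hp : 0 ≤ p) (hq : 0 ≤ q) (hpq : p + q = 1) :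
    p * xlL a + q * xlL b - xlL (p * a + q * b) ≤ (b - a) ^ 2 / (4 * a) := by
  have hb : 0 < b := lt_of_lt_of_le ha hab
  set u := p * a + q * b with hu
  have hua : a ≤ u := by
    have : u = a + q * (b - a) := by rw [hu]; have : p = 1 - q := by linarith
                                     rw [this]; ring
    rw [this]; nlinarith
  have hu0 : 0 < u := lt_of_lt_of_le ha hua
  have h1 : Real.log (a / u) ≤ a / u - 1 := Real.log_le_sub_one_of_pos (by positivity)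
  have h2 : Real.log (b / u) ≤ b / u - 1 := Real.log_le_sub_one_of_pos (by positivity)
  rw [Real.log_div ha.ne' hu0.ne'] at h1
  rw [Real.log_div hb.ne' hu0.ne'] at h2
  have h3 : p * xlL a + q * xlL b - xlL u = p * a * (Real.log a - Real.log u) + q * b * (Real.log b - Real.log u) := by
    unfold xlL; rw [hu]; ring
  rw [h3]
  have h4 : p * a * (Real.log a - Real.log u) ≤ p * a * (a / u - 1) := mul_le_mul_of_nonneg_left h1 (by positivity)
  have h5 : q * b * (Real.log b - Real.log u) ≤ q * b * (b / u - 1) := mul_le_mul_of_nonneg_left h2 (by positivity)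
  have h6 : p * a * (a / u - 1) + q * b * (b / u - 1) = p * q * (b - a) ^ 2 / u := by
    have hp' : p = 1 - q := by linarith
    field_simp
    rw [hu, hp']
    ring
  have h7 : p * q * (b - a) ^ 2 / u ≤ (b - a) ^ 2 / (4 * a) := by
    rw [div_le_div_iff₀ hu0 (by positivity)]
    have h8 : 4 * (p * q) ≤ 1 := by nlinarith [sq_nonneg (p - q)]
    have h9 : 0 ≤ (b - a) ^ 2 := sq_nonneg _
    nlinarith [mul_le_mul_of_nonneg_left hua (by positivity : 0 ≤ (b - a) ^ 2),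
      mul_nonneg (mul_nonneg h9 ha.le) (by linarith : (0 : ℝ) ≤ 1 - 4 * (p * q))]
  linarith

lemma xlL_gap0 {b : ℝ} (hb : 0 < b) {q : ℝ} (hq : 0 ≤ q) (hq1 : q ≤ 1) :
    q * xlL b - xlL (q * b) ≤ 37 / 100 * b := by
  rcases eq_or_lt_of_le hq with h | h
  · rw [← h]; simp [xlL]; linarith
  · have h1 : q * xlL b - xlL (q * b) = b * (-(q * Real.log q)) := by
      unfold xlL; rw [Real.log_mul h.ne' hb.ne']; ring
    rw [h1, mul_comm]
    apply mul_le_mul_of_nonneg_right _ hb.le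
    set t := -Real.log q with ht
    have hqe : q = Real.exp (-t) := by rw [ht, neg_neg, Real.exp_log h]
    have h2 : t ≤ Real.exp (t - 1) := by have := Real.add_one_le_exp (t - 1); linarith
    have h3 : -(q * Real.log q) = t * Real.exp (-t) := by rw [← hqe, ht]; ring
    rw [h3]
    have h4 : t * Real.exp (-t) ≤ Real.exp (t - 1) * Real.exp (-t) :=
      mul_le_mul_of_nonneg_right h2 (Real.exp_pos _).le
    rw [← Real.exp_add] at h4
    have h5 : t - 1 + -t = -1 := by ring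
    rw [h5] at h4
    have h6 : Real.exp (-1) ≤ 37 / 100 := by
      rw [Real.exp_neg, inv_le_comm₀ (Real.exp_pos _) (by norm_num)]
      have := Real.exp_one_gt_d9
      norm_num at this ⊢
      linarith
    linarith

/-- gap bound, scaled by `10^12` -/
def gapI (a d : ℤ) : ℤ := if a ≤ 0 then 370000000000 * d else 1000000000000 * d ^ 2 / (4 * a) + 1

/-- concavity cost of the term `s` -/
def gapS (x0 x1 : ℤ) (s : ℤ × ℤ) : ℤ :=
  if s.2 ≤ x0 then (if s.1 < 0 then -s.1 * gapI (x0 - s.2) (x1 - x0) else 0)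
  else (if 0 < s.1 then s.1 * gapI (s.2 - x1) (x1 - x0) else 0)

lemma gapI_spec {a b : ℤ} (ha : 0 ≤ a) (hab : a < b) {p q : ℝ} (hp : 0 ≤ p) (hq : 0 ≤ q) (hpq : p + q = 1) :
    10 ^ 12 * (p * xlL a + q * xlL b - xlL (p * a + q * b)) ≤ (gapI a (b - a) : ℝ) := by
  unfold gapI
  have habR : (a : ℝ) < b := by exact_mod_cast hab
  split_ifs with h
  · have h0 : a = 0 := le_antisymm h ha
    subst h0
    have hb : (0 : ℝ) < b := by exact_mod_cast hab
    have := xlL_gap0 hb hq (by linarith)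
    push_cast
    simp only [xlL, Real.log_zero, mul_zero, zero_add, Int.cast_zero, sub_zero] at this ⊢
    linarith
  · have ha' : (0 : ℝ) < a := by exact_mod_cast not_le.1 h
    have h1 := xlL_gap ha' habR.le hp hq hpq
    have h4a : (0 : ℤ) < 4 * a := by omega
    have h2 : 1000000000000 * (b - a) ^ 2 < (1000000000000 * (b - a) ^ 2 / (4 * a) + 1) * (4 * a) :=
      Int.lt_ediv_add_one_mul_self _ h4a
    have h3 : 1000000000000 * ((b : ℝ) - a) ^ 2 <
        (((1000000000000 * (b - a) ^ 2 / (4 * a) : ℤ) : ℝ) + 1) * (4 * a) := by exact_mod_cast h2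
    have h4 : 10 ^ 12 * (((b : ℝ) - a) ^ 2 / (4 * a)) ≤ ((1000000000000 * (b - a) ^ 2 / (4 * a) : ℤ) : ℝ) + 1 := by
      rw [← mul_div_assoc, div_le_iff₀ (by positivity)]
      norm_num at h3 ⊢
      linarith
    push_cast at h4 ⊢
    linarith

lemma gapS_spec {x0 x1 : ℤ} (hx : x0 < x1) (s : ℤ × ℤ) (hs : s.2 ≤ x0 ∨ x1 ≤ s.2) {p q : ℝ} (hp : 0 ≤ p)
    (hq : 0 ≤ q) (hpq : p + q = 1) :
    10 ^ 12 * ((s.1 : ℝ) * xlL ((p * x0 + q * x1) - s.2)) ≤
      10 ^ 12 * (p * ((s.1 : ℝ) * xlL (x0 - s.2)) + q * ((s.1 : ℝ) * xlL (x1 - s.2))) + (gapS x0 x1 s : ℝ) := by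
  unfold gapS
  have hp' : p = 1 - q := by linarith
  by_cases h : s.2 ≤ x0
  · rw [if_pos h]
    have hh1 : (s.2 : ℝ) ≤ x0 := by exact_mod_cast h
    have hh2 : (x0 : ℝ) < x1 := by exact_mod_cast hx
    have ha : (0 : ℝ) ≤ (x0 : ℝ) - s.2 := by linarith
    have hb : (0 : ℝ) ≤ (x1 : ℝ) - s.2 := by linarith
    have e1 : (p * x0 + q * x1) - s.2 = p * ((x0 : ℝ) - s.2) + q * ((x1 : ℝ) - s.2) := by rw [hp']; ring
    rw [e1]
    by_cases h2 : s.1 < 0
    · rw [if_pos h2]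
      have h3 := gapI_spec (a := x0 - s.2) (b := x1 - s.2) (by omega) (by omega) hp hq hpq
      have e2 : x1 - s.2 - (x0 - s.2) = x1 - x0 := by ring
      rw [e2] at h3
      push_cast at h3 ⊢
      have hh3 : (s.1 : ℝ) < 0 := by exact_mod_cast h2
      have h4 : (0 : ℝ) ≤ -(s.1 : ℝ) := by linarith
      nlinarith [mul_le_mul_of_nonneg_left h3 h4]
    · rw [if_neg h2]
      have h3 := xlL_convex ha hb hp hq hpq
      have h4 : (0 : ℝ) ≤ (s.1 : ℝ) := by exact_mod_cast not_lt.1 h2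
      have h5 := mul_le_mul_of_nonneg_left h3 h4
      push_cast
      linarith
  · rw [if_neg h]
    have hs' : x1 ≤ s.2 := by tauto
    have hh1 : (x1 : ℝ) ≤ s.2 := by exact_mod_cast hs'
    have hh2 : (x0 : ℝ) < x1 := by exact_mod_cast hx
    have ha : (0 : ℝ) ≤ (s.2 : ℝ) - x1 := by linarith
    have hb : (0 : ℝ) ≤ (s.2 : ℝ) - x0 := by linarith
    have e1 : (p * x0 + q * x1) - s.2 = -(q * ((s.2 : ℝ) - x1) + p * ((s.2 : ℝ) - x0)) := by rw [hp']; ring
    have e2 : (x0 : ℝ) - s.2 = -((s.2 : ℝ) - x0) := by ring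
    have e3 : (x1 : ℝ) - s.2 = -((s.2 : ℝ) - x1) := by ring
    rw [e1, e2, e3, xlL_neg, xlL_neg, xlL_neg]
    by_cases h2 : 0 < s.1
    · rw [if_pos h2]
      have h3 := gapI_spec (a := s.2 - x1) (b := s.2 - x0) (by omega) (by omega) hq hp (by linarith)
      have e4 : s.2 - x0 - (s.2 - x1) = x1 - x0 := by ring
      rw [e4] at h3
      push_cast at h3 ⊢
      have hh3 : (0 : ℝ) < s.1 := by exact_mod_cast h2
      have h4 : (0 : ℝ) ≤ (s.1 : ℝ) := hh3.le
      nlinarith [mul_le_mul_of_nonneg_left h3 h4]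
    · rw [if_neg h2]
      have h3 := xlL_convex ha hb hq hp (by linarith)
      have hh3 : (s.1 : ℝ) ≤ 0 := by exact_mod_cast not_lt.1 h2
      have h4 : (0 : ℝ) ≤ -(s.1 : ℝ) := by linarith
      have h5 := mul_le_mul_of_nonneg_left h3 h4
      push_cast
      linarith

/-- one cell -/
def cellOK (M : ℕ) (l : List (ℤ × ℤ)) (A : ℤ) (x0 x1 : ℤ) : Bool :=
  decide (x0 < x1) &&
  (l.all fun s => (decide (s.2 ≤ x0) || decide (x1 ≤ s.2)) && decide (|x0 - s.2| < 1048576) &&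
    decide (|x1 - s.2| < 1048576)) &&
  (let g := (l.map (gapS x0 x1)).sum
   decide (Eup M l x0 + g ≤ A) && decide (Eup M l x1 + g ≤ A))

lemma GR_cell {x0 x1 : ℤ} (hx : x0 < x1) (l : List (ℤ × ℤ)) (hs : ∀ s ∈ l, s.2 ≤ x0 ∨ x1 ≤ s.2) {p q : ℝ}
    (hp : 0 ≤ p) (hq : 0 ≤ q) (hpq : p + q = 1) :
    10 ^ 12 * GR l (p * x0 + q * x1) ≤
      10 ^ 12 * (p * GR l x0 + q * GR l x1) + (((l.map (gapS x0 x1)).sum : ℤ) : ℝ) := by
  induction l with
  | nil => simp [GR]
  | cons s l ih =>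
    have ih' := ih (fun t ht => hs t (List.mem_cons_of_mem _ ht))
    have h0 := gapS_spec hx s (hs s List.mem_cons_self) hp hq hpq
    simp only [GR, List.map_cons, List.sum_cons] at ih' ⊢
    push_cast at ih' h0 ⊢
    nlinarith [ih', h0]

lemma T1R_affine (l : List (ℤ × ℤ)) (x y : ℝ) {p q : ℝ} (hpq : p + q = 1) :
    T1R l (p * x + q * y) = p * T1R l x + q * T1R l y := by
  induction l with
  | nil => simp [T1R]
  | cons s l ih =>
    simp only [T1R, List.map_cons, List.sum_cons] at ih ⊢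
    rw [ih]
    have : p = 1 - q := by linarith
    rw [this]; ring

lemma cellOK_spec {Dc M : ℕ} (hD : 0 < Dc) (hM : 1 ≤ M) (hM2 : M < 2 ^ 20) {l : List (ℤ × ℤ)} {A : ℤ}
    {x0 x1 : ℤ} (h : cellOK M l A x0 x1 = true) (a : ℝ) (hA : (A : ℝ) ≤ a * (10 ^ 12 * Dc * M)) (w : ℝ)
    (h0 : (x0 : ℝ) ≤ w) (h1 : w ≤ x1) : EF Dc M l (w / M) ≤ a := by
  unfold cellOK at h
  simp only [Bool.and_eq_true, decide_eq_true_eq, List.all_eq_true, Bool.or_eq_true] at h
  obtain ⟨⟨hx, hall⟩, hE0, hE1⟩ := h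
  have hxR : (x0 : ℝ) < x1 := by exact_mod_cast hx
  set q : ℝ := (w - x0) / (x1 - x0) with hq
  set p : ℝ := 1 - q with hp
  have hd : (0 : ℝ) < x1 - x0 := by linarith
  have hq0 : 0 ≤ q := div_nonneg (by linarith) hd.le
  have hq1 : q ≤ 1 := by rw [hq, div_le_one hd]; linarith
  have hp0 : 0 ≤ p := by rw [hp]; linarith
  have hpq : p + q = 1 := by rw [hp]; ring
  have hw : w = p * x0 + q * x1 := by
    have : q * (x1 - x0) = w - x0 := by rw [hq]; field_simp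
    rw [hp]; linarith
  have hs : ∀ s ∈ l, s.2 ≤ x0 ∨ x1 ≤ s.2 := fun s hsl => (hall s hsl).1.1
  have hc := GR_cell hx l hs hp0 hq0 hpq
  rw [← hw] at hc
  have ht : T1R l w = p * T1R l x0 + q * T1R l x1 := by rw [hw]; exact T1R_affine l _ _ hpq
  have e0 := Eup_spec hM hM2 l x0 (fun s hsl => by have := (hall s hsl).1.2; norm_num; exact this)
  have e1 := Eup_spec hM hM2 l x1 (fun s hsl => by have := (hall s hsl).2; norm_num; exact this)
  have hE0' : (Eup M l x0 : ℝ) + (((l.map (gapS x0 x1)).sum : ℤ) : ℝ) ≤ A := by exact_mod_cast hE0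
  have hE1' : (Eup M l x1 : ℝ) + (((l.map (gapS x0 x1)).sum : ℤ) : ℝ) ≤ A := by exact_mod_cast hE1
  have hEF := EF_eq hD (by omega : 0 < M) l w
  set g : ℝ := (((l.map (gapS x0 x1)).sum : ℤ) : ℝ)
  have hD' : (0 : ℝ) < Dc := by exact_mod_cast hD
  have hM' : (0 : ℝ) < M := by exact_mod_cast hM
  have hfin : 10 ^ 12 * ((Dc : ℝ) * M * EF Dc M l (w / M)) ≤ A := by
    rw [hEF, ht]
    have a0 := mul_le_mul_of_nonneg_left e0 hp0
    have a1 := mul_le_mul_of_nonneg_left e1 hq0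
    have b0 := mul_le_mul_of_nonneg_left hE0' hp0
    have b1 := mul_le_mul_of_nonneg_left hE1' hq0
    have hgg : g = p * g + q * g := by rw [← add_mul, hpq, one_mul]
    have hAA : (A : ℝ) = p * A + q * A := by rw [← add_mul, hpq, one_mul]
    rw [hAA]
    nlinarith [a0, a1, b0, b1, hc, hgg]
  have hpos : (0 : ℝ) < 10 ^ 12 * Dc * M := by positivity
  have : EF Dc M l (w / M) * ((10 : ℝ) ^ 12 * Dc * M) ≤ a * ((10 : ℝ) ^ 12 * Dc * M) := by
    have e9 : EF Dc M l (w / M) * ((10 : ℝ) ^ 12 * Dc * M) = (10 : ℝ) ^ 12 * ((Dc : ℝ) * M * EF Dc M l (w / M)) := by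
      ring
    rw [e9]
    exact le_trans hfin hA
  exact le_of_mul_le_mul_right this hpos

/-- `cnt` cells of width `st` starting at `x0` -/
def chk (M : ℕ) (l : List (ℤ × ℤ)) (A : ℤ) (st : ℤ) : ℕ → ℤ → Bool
  | 0, _ => true
  | c + 1, x0 => cellOK M l A x0 (x0 + st) && chk M l A st c (x0 + st)

theorem chk_spec {Dc M : ℕ} (hD : 0 < Dc) (hM : 1 ≤ M) (hM2 : M < 2 ^ 20) {l : List (ℤ × ℤ)} {A : ℤ}
    (a : ℝ) (hA : (A : ℝ) ≤ a * (10 ^ 12 * Dc * M)) (st : ℤ) (c : ℕ) :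
    ∀ x0 : ℤ, c ≠ 0 → chk M l A st c x0 = true → ∀ w : ℝ, (x0 : ℝ) ≤ w → w ≤ x0 + c * st →
      EF Dc M l (w / M) ≤ a := by
  induction c with
  | zero => intro x0 h; exact absurd rfl h
  | succ c ih =>
    intro x0 _ h w h0 h1
    simp only [chk, Bool.and_eq_true] at h
    rcases le_or_gt w ((x0 + st : ℤ) : ℝ) with hw | hw
    · exact cellOK_spec hD hM hM2 h.1 a hA w h0 hw
    · rcases Nat.eq_zero_or_pos c with hc | hc
      · subst hc
        exfalso
        push_cast at hw h1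
        linarith
      · refine ih (x0 + st) (by omega) h.2 w hw.le ?_
        push_cast at h1 ⊢
        linarith

/-- **the interval certificate** -/
theorem EF_le {Dc M : ℕ} (hD : 0 < Dc) (hM : 1 ≤ M) (hM2 : M < 2 ^ 20) {l : List (ℤ × ℤ)} {A : ℤ}
    (a : ℝ) (hA : (A : ℝ) ≤ a * (10 ^ 12 * Dc * M)) {st : ℤ} {c : ℕ} (hc : c ≠ 0) {x0 : ℤ}
    (h : chk M l A st c x0 = true) (v : ℝ) (h0 : (x0 : ℝ) / M ≤ v) (h1 : v ≤ ((x0 + c * st : ℤ) : ℝ) / M) :
    EF Dc M l v ≤ a := by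
  have hM' : (0 : ℝ) < M := by exact_mod_cast (by omega : 0 < M)
  have := chk_spec hD hM hM2 a hA st c x0 hc h (v * M) (by rwa [div_le_iff₀ hM'] at h0)
    (by rw [le_div_iff₀ hM'] at h1; push_cast at h1; linarith)
  rwa [mul_div_cancel_right₀ _ hM'.ne'] at this

end Pool.Agent.H337R2
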