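import Pool.Agent.H337R2.CheckL

/-!
# A verified upper bound of the growth function on the half line
-/

open Filter Topology

namespace Pool.Agent.H337R2

noncomputable section

lemma xl_shift {u v δ : ℝ} (hu : 0 ≤ u) (huv : u ≤ v) (hδ : 0 ≤ δ) :
    xl (u + δ) - xl u ≤ xl (v + δ) - xl v := by
  rcases eq_or_lt_of_le huv with h | h
  · rw [h]
  rcases eq_or_lt_of_le hδ with h' | h'
  · rw [← h']; simp
  have hconv : ConvexOn ℝ (Set.Ici 0) (fun x : ℝ => x * Real.log x) := Real.convexOn_mul_log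
  have hs : 0 < v - u + δ := by linarith
  set a : ℝ := δ / (v - u + δ) with ha
  have ha0 : 0 ≤ a := by positivity
  have ha1 : a ≤ 1 := by rw [ha, div_le_one hs]; linarith
  have hv : v + δ ∈ Set.Ici (0 : ℝ) := Set.mem_Ici.2 (by linarith)
  have h1 := hconv.2 (Set.mem_Ici.2 hu) hv (by linarith : (0 : ℝ) ≤ 1 - a) ha0 (by ring)
  have h2 := hconv.2 (Set.mem_Ici.2 hu) hv ha0 (by linarith : (0 : ℝ) ≤ 1 - a) (by ring)
  simp only [smul_eq_mul] at h1 h2
  have e1 : (1 - a) * u + a * (v + δ) = u + δ := by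
    rw [ha]; field_simp; ring
  have e2 : a * u + (1 - a) * (v + δ) = v := by
    rw [ha]; field_simp; ring
  rw [e1] at h1
  rw [e2] at h2
  unfold xl
  linarith

/-- increasing part -/
def fA (b h c : ℕ) (τ : ℝ) : ℝ := b * (xl (τ + c) - xl τ - xl c + (xl (τ + h) - xl (τ + h - c) - xl c))

/-- decreasing part -/
def fB (h : ℕ) (ds : List ℕ) (τ : ℝ) : ℝ := (ds.map fun d : ℕ => xl ((h : ℝ) - 2 * d) + xl (τ + d) - xl (τ + h - d)).sum

lemma f0_split (b h c : ℕ) (ds : List ℕ) (τ : ℝ) : f0 b h c ds τ = fA b h c τ + fB h ds τ := rfl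

lemma fA_mono (b h c : ℕ) (hch : c ≤ h) {u v : ℝ} (hu : 0 ≤ u) (huv : u ≤ v) : fA b h c u ≤ fA b h c v := by
  unfold fA
  apply mul_le_mul_of_nonneg_left _ (by positivity)
  have hch' : (c : ℝ) ≤ h := by exact_mod_cast hch
  have h1 := xl_shift hu huv (δ := (c : ℝ)) (by positivity)
  have h2 := xl_shift (u := u + h - c) (v := v + h - c) (δ := (c : ℝ)) (by linarith) (by linarith) (by positivity)
  have e1 : u + h - c + c = u + h := by ring
  have e2 : v + h - c + c = v + h := by ring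
  rw [e1, e2] at h2
  linarith

lemma fB_anti (h : ℕ) (ds : List ℕ) (h2 : ∀ d ∈ ds, 2 * d < h) {u v : ℝ} (hu : 0 ≤ u) (huv : u ≤ v) :
    fB h ds v ≤ fB h ds u := by
  unfold fB
  apply List.sum_le_sum
  intro d hd
  have hd2 : (2 * d : ℝ) ≤ h := by exact_mod_cast (h2 d hd).le
  have h1 := xl_shift (u := u + d) (v := v + d) (δ := (h : ℝ) - 2 * d) (by positivity) (by linarith) (by linarith)
  have e1 : u + d + ((h : ℝ) - 2 * d) = u + h - d := by ring
  have e2 : v + d + ((h : ℝ) - 2 * d) = v + h - d := by ring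
  rw [e1, e2] at h1
  linarith

/-- numerator of the increasing part -/
def An (b h c q k : ℕ) : ℕ := ((k + c * q) ^ (k + c * q) * (k + h * q) ^ (k + h * q)) ^ b

/-- denominator of the increasing part -/
def Ad (b h c q k : ℕ) : ℕ := (k ^ k * ((c * q) ^ (c * q)) ^ 2 * (k + h * q - c * q) ^ (k + h * q - c * q)) ^ b

/-- numerator of the decreasing part -/
def Bn (h q : ℕ) (dm : List (ℕ × ℕ)) (l : ℕ) : ℕ :=
  (dm.map fun z => (((h - 2 * z.1) * q) ^ ((h - 2 * z.1) * q) * (l + z.1 * q) ^ (l + z.1 * q)) ^ z.2).prod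

/-- denominator of the decreasing part -/
def Bd (h q : ℕ) (dm : List (ℕ × ℕ)) (l : ℕ) : ℕ :=
  (dm.map fun z => ((l + h * q - z.1 * q) ^ (l + h * q - z.1 * q)) ^ z.2).prod

lemma pow_self_pos (k : ℕ) : 0 < k ^ k := by
  rcases Nat.eq_zero_or_pos k with h | h
  · subst h; simp
  · exact Nat.pow_pos h

lemma xl_div (q : ℕ) (hq : 0 < q) (j : ℕ) (x : ℝ) (hx : (q : ℝ) * x = j) :
    q * xl x = Real.log ((j ^ j : ℕ) : ℝ) - j * Real.log q := by
  have hq' : (0 : ℝ) < q := by exact_mod_cast hq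
  have e1 : x = j / q := by rw [← hx]; field_simp
  rcases Nat.eq_zero_or_pos j with h | h
  · subst h
    have : x = 0 := by rw [e1]; simp
    rw [this, xl_zero]; simp
  · have hj : (0 : ℝ) < j := by exact_mod_cast h
    unfold xl
    rw [e1, Real.log_div hj.ne' hq'.ne']
    push_cast
    rw [Real.log_pow]
    field_simp

lemma fA_eq (b h c q k : ℕ) (hq : 0 < q) (hch : c ≤ h) :
    q * fA b h c ((k : ℝ) / q) = Real.log (An b h c q k) - Real.log (Ad b h c q k) := by
  have hq' : (0 : ℝ) < q := by exact_mod_cast hq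
  have hcq : c * q ≤ h * q := Nat.mul_le_mul_right q hch
  have a1 := xl_div q hq (k + c * q) ((k : ℝ) / q + c) (by push_cast; field_simp)
  have a2 := xl_div q hq k ((k : ℝ) / q) (by field_simp)
  have a3 := xl_div q hq (c * q) (c : ℝ) (by push_cast; ring)
  have a4 := xl_div q hq (k + h * q) ((k : ℝ) / q + h) (by push_cast; field_simp)
  have a5 := xl_div q hq (k + h * q - c * q) ((k : ℝ) / q + h - c) (by
    rw [Nat.cast_sub (by omega)]; push_cast; field_simp)
  have p : ∀ j : ℕ, ((j ^ j : ℕ) : ℝ) ≠ 0 := fun j => by exact_mod_cast (pow_self_pos j).ne'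
  unfold fA An Ad
  rw [Nat.cast_pow _ b, Nat.cast_pow _ b, Real.log_pow, Real.log_pow, Nat.cast_mul, Real.log_mul (p _) (p _),
    Nat.cast_mul, Nat.cast_mul, Real.log_mul (mul_ne_zero (p _) (by rw [Nat.cast_pow _ 2]; exact pow_ne_zero _ (p _))) (p _),
    Real.log_mul (p _) (by rw [Nat.cast_pow _ 2]; exact pow_ne_zero _ (p _)), Nat.cast_pow _ 2, Real.log_pow]
  have e : (q : ℝ) * (b * (xl ((k : ℝ) / q + c) - xl ((k : ℝ) / q) - xl c + (xl ((k : ℝ) / q + h) - xl ((k : ℝ) / q + h - c) - xl c)))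
      = b * (q * xl ((k : ℝ) / q + c) - q * xl ((k : ℝ) / q) - q * xl c + (q * xl ((k : ℝ) / q + h) - q * xl ((k : ℝ) / q + h - c) - q * xl c)) := by
    ring
  rw [e, a1, a2, a3, a4, a5, Nat.cast_sub (by omega : c * q ≤ k + h * q)]
  push_cast
  ring

lemma fB_eq (h q : ℕ) (dm : List (ℕ × ℕ)) (l : ℕ) (hq : 0 < q) (hdm : ∀ z ∈ dm, 2 * z.1 < h) :
    q * fB h (expd dm) ((l : ℝ) / q) = Real.log (Bn h q dm l) - Real.log (Bd h q dm l) := by
  have hq' : (0 : ℝ) < q := by exact_mod_cast hq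
  have p : ∀ j : ℕ, ((j ^ j : ℕ) : ℝ) ≠ 0 := fun j => by exact_mod_cast (pow_self_pos j).ne'
  have pB : ∀ M : List (ℕ × ℕ), (Bn h q M l : ℝ) ≠ 0 := by
    intro M
    unfold Bn
    have : 0 < (M.map fun z => (((h - 2 * z.1) * q) ^ ((h - 2 * z.1) * q) * (l + z.1 * q) ^ (l + z.1 * q)) ^ z.2).prod := by
      apply List.prod_pos
      intro a ha
      rw [List.mem_map] at ha
      obtain ⟨w, hw, rfl⟩ := ha
      exact Nat.pow_pos (Nat.mul_pos (pow_self_pos _) (pow_self_pos _))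
    exact_mod_cast this.ne'
  have pD : ∀ M : List (ℕ × ℕ), (Bd h q M l : ℝ) ≠ 0 := by
    intro M
    unfold Bd
    have : 0 < (M.map fun z => ((l + h * q - z.1 * q) ^ (l + h * q - z.1 * q)) ^ z.2).prod := by
      apply List.prod_pos
      intro a ha
      rw [List.mem_map] at ha
      obtain ⟨w, hw, rfl⟩ := ha
      exact Nat.pow_pos (pow_self_pos _)
    exact_mod_cast this.ne'
  unfold fB
  rw [sum_expdR]
  induction dm with
  | nil => simp [Bn, Bd]
  | cons z L ih =>
    have ih' := ih (fun z hz => hdm z (List.mem_cons_of_mem _ hz))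
    have hz := hdm z List.mem_cons_self
    rw [List.map_cons, List.sum_cons, mul_add, ih']
    have b1 : Bn h q (z :: L) l = (((h - 2 * z.1) * q) ^ ((h - 2 * z.1) * q) * (l + z.1 * q) ^ (l + z.1 * q)) ^ z.2 * Bn h q L l := by
      unfold Bn; rw [List.map_cons, List.prod_cons]
    have b2 : Bd h q (z :: L) l = ((l + h * q - z.1 * q) ^ (l + h * q - z.1 * q)) ^ z.2 * Bd h q L l := by
      unfold Bd; rw [List.map_cons, List.prod_cons]
    have hzq : z.1 * q ≤ h * q := Nat.mul_le_mul_right q (by omega)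
    have a1 := xl_div q hq ((h - 2 * z.1) * q) ((h : ℝ) - 2 * z.1) (by
      rw [Nat.cast_mul, Nat.cast_sub hz.le]; push_cast; ring)
    have a2 := xl_div q hq (l + z.1 * q) ((l : ℝ) / q + z.1) (by push_cast; field_simp)
    have a3 := xl_div q hq (l + h * q - z.1 * q) ((l : ℝ) / q + h - z.1) (by
      rw [Nat.cast_sub (by omega)]; push_cast; field_simp)
    rw [b1, b2, Nat.cast_mul, Nat.cast_mul, Real.log_mul (by
        rw [Nat.cast_pow _ z.2, Nat.cast_mul]
        exact pow_ne_zero _ (mul_ne_zero (p _) (p _))) (pB L), Real.log_mul (by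
        rw [Nat.cast_pow _ z.2]
        exact pow_ne_zero _ (p _)) (pD L), Nat.cast_pow _ z.2, Nat.cast_pow _ z.2, Real.log_pow, Real.log_pow,
      Nat.cast_mul, Real.log_mul (p _) (p _)]
    have e : (q : ℝ) * ((z.2 : ℝ) * (xl ((h : ℝ) - 2 * z.1) + xl ((l : ℝ) / q + z.1) - xl ((l : ℝ) / q + h - z.1)))
      = (z.2 : ℝ) * (q * xl ((h : ℝ) - 2 * z.1) + q * xl ((l : ℝ) / q + z.1) - q * xl ((l : ℝ) / q + h - z.1)) := by ring
    rw [e, a1, a2, a3, Nat.cast_sub (by omega : z.1 * q ≤ l + h * q), Nat.cast_mul (h - 2 * z.1) q, Nat.cast_sub hz.le]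
    push_cast
    ring

/-- one interval -/
def stepOK (b h c q X : ℕ) (dm : List (ℕ × ℕ)) (l k : ℕ) : Bool :=
  Nat.ble (An b h c q k * Bn h q dm l * 27182818286 ^ X) (Ad b h c q k * Bd h q dm l * 10 ^ (10 * X))

lemma stepOK_sound {b h c q X : ℕ} {dm : List (ℕ × ℕ)} {l k : ℕ} (hq : 0 < q) (hch : c ≤ h)
    (hdm : ∀ z ∈ dm, 2 * z.1 < h) (hs : stepOK b h c q X dm l k = true) {τ : ℝ} (h1 : (l : ℝ) / q ≤ τ) (h2 : τ ≤ (k : ℝ) / q) :
    f0 b h c (expd dm) τ ≤ -(X : ℝ) / q := by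
  have hq' : (0 : ℝ) < q := by exact_mod_cast hq
  have hl0 : (0 : ℝ) ≤ (l : ℝ) / q := by positivity
  have h2' : ∀ d ∈ expd dm, 2 * d < h := by
    intro d hd
    obtain ⟨z, hz, hzd⟩ := mem_expd hd
    have := hdm z hz
    omega
  have m1 := fA_mono b h c hch (hl0.trans h1) h2
  have m2 := fB_anti h (expd dm) h2' hl0 h1
  have e1 := fA_eq b h c q k hq hch
  have e2 := fB_eq h q dm l hq hdm
  rw [f0_split, le_div_iff₀ hq']
  have h3 : (fA b h c τ + fB h (expd dm) τ) * q ≤ q * fA b h c ((k : ℝ) / q) + q * fB h (expd dm) ((l : ℝ) / q) := by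
    nlinarith
  refine h3.trans ?_
  rw [e1, e2]
  unfold stepOK at hs
  rw [Nat.ble_eq] at hs
  have pA : 0 < An b h c q k := Nat.pow_pos (Nat.mul_pos (pow_self_pos _) (pow_self_pos _))
  have pA' : 0 < Ad b h c q k := Nat.pow_pos (Nat.mul_pos (Nat.mul_pos (pow_self_pos _) (Nat.pow_pos (pow_self_pos _))) (pow_self_pos _))
  have pB : 0 < Bn h q dm l := by
    unfold Bn
    apply List.prod_pos
    intro a ha
    rw [List.mem_map] at ha
    obtain ⟨w, hw, rfl⟩ := ha
    exact Nat.pow_pos (Nat.mul_pos (pow_self_pos _) (pow_self_pos _))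
  have pB' : 0 < Bd h q dm l := by
    unfold Bd
    apply List.prod_pos
    intro a ha
    rw [List.mem_map] at ha
    obtain ⟨w, hw, rfl⟩ := ha
    exact Nat.pow_pos (pow_self_pos _)
  have r1 : (0 : ℝ) < An b h c q k := by exact_mod_cast pA
  have r2 : (0 : ℝ) < Ad b h c q k := by exact_mod_cast pA'
  have r3 : (0 : ℝ) < Bn h q dm l := by exact_mod_cast pB
  have r4 : (0 : ℝ) < Bd h q dm l := by exact_mod_cast pB'
  have hX' : ((An b h c q k * Bn h q dm l * 27182818286 ^ X : ℕ) : ℝ) ≤ ((Ad b h c q k * Bd h q dm l * 10 ^ (10 * X) : ℕ) : ℝ) := by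
    exact_mod_cast hs
  rw [Nat.cast_mul, Nat.cast_mul, Nat.cast_mul, Nat.cast_mul, Nat.cast_pow, Nat.cast_pow] at hX'
  have he : Real.exp 1 ≤ 27182818286 / 10 ^ 10 := by
    have := Real.exp_one_lt_d9
    norm_num at this ⊢
    linarith
  have h5 : (An b h c q k : ℝ) * Bn h q dm l * Real.exp X ≤ Ad b h c q k * Bd h q dm l := by
    have h2 : Real.exp X = Real.exp 1 ^ X := by rw [← Real.exp_nat_mul, mul_one]
    rw [h2]
    have h3 : Real.exp 1 ^ X ≤ (27182818286 / 10 ^ 10) ^ X := pow_le_pow_left₀ (Real.exp_pos _).le he X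
    have h4 : (0 : ℝ) < 10 ^ (10 * X) := by positivity
    calc _ ≤ (An b h c q k : ℝ) * Bn h q dm l * (27182818286 / 10 ^ 10) ^ X := mul_le_mul_of_nonneg_left h3 (by positivity)
      _ = ((An b h c q k : ℝ) * Bn h q dm l * ((27182818286 : ℕ) : ℝ) ^ X) / 10 ^ (10 * X) := by
          rw [div_pow, ← pow_mul]; push_cast; ring
      _ ≤ _ := by
          rw [div_le_iff₀ h4]
          push_cast at hX' ⊢
          exact hX'
  have h6 : Real.log ((An b h c q k : ℝ) * Bn h q dm l * Real.exp X) ≤ Real.log (Ad b h c q k * Bd h q dm l) :=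
    Real.log_le_log (by positivity) h5
  rw [Real.log_mul (by positivity) (Real.exp_pos _).ne', Real.log_exp, Real.log_mul r1.ne' r3.ne', Real.log_mul r2.ne' r4.ne'] at h6
  linarith


lemma xl_hasDeriv {x : ℝ} (hx : 0 < x) : HasDerivAt xl (Real.log x + 1) x := Real.hasDerivAt_mul_log hx.ne'

lemma fA_deriv (b h c : ℕ) (hch : c ≤ h) {τ : ℝ} (hτ : 0 < τ) :
    HasDerivAt (fA b h c) (b * (Real.log (τ + c) - Real.log τ + (Real.log (τ + h) - Real.log (τ + h - c)))) τ := by
  have hch' : (c : ℝ) ≤ h := by exact_mod_cast hch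
  have hc0 : (0 : ℝ) ≤ c := by positivity
  have d1 : HasDerivAt (fun t : ℝ => xl (t + c)) (Real.log (τ + c) + 1) τ :=
    (xl_hasDeriv (by linarith : 0 < τ + c)).comp_add_const τ (c : ℝ)
  have d2 := xl_hasDeriv hτ
  have d3 : HasDerivAt (fun t : ℝ => xl (t + h)) (Real.log (τ + h) + 1) τ :=
    (xl_hasDeriv (by linarith : 0 < τ + h)).comp_add_const τ (h : ℝ)
  have d4 : HasDerivAt (fun t : ℝ => xl (t + h - c)) (Real.log (τ + h - c) + 1) τ := by
    have := (xl_hasDeriv (by linarith : 0 < τ + (h - c))).comp_add_const τ ((h : ℝ) - c)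
    have e : (fun t : ℝ => xl (t + h - c)) = fun t : ℝ => xl (t + ((h : ℝ) - c)) := by
      funext t; congr 1; ring
    rw [e]
    have e2 : τ + h - c = τ + ((h : ℝ) - c) := by ring
    rw [e2]
    exact this
  have d5 := (((d1.sub d2).sub (hasDerivAt_const τ (xl c))).add ((d3.sub d4).sub (hasDerivAt_const τ (xl c)))).const_mul (b : ℝ)
  have e5 : (b : ℝ) * (Real.log (τ + c) - Real.log τ + (Real.log (τ + h) - Real.log (τ + h - c))) =
    b * (Real.log (τ + c) + 1 - (Real.log τ + 1) - 0 + (Real.log (τ + h) + 1 - (Real.log (τ + h - c) + 1) - 0)) := by ring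
  rw [e5]
  exact d5

lemma fB_deriv (h : ℕ) (ds : List ℕ) (h2 : ∀ d ∈ ds, 2 * d < h) {τ : ℝ} (hτ : 0 < τ) :
    HasDerivAt (fB h ds) ((ds.map fun d : ℕ => Real.log (τ + d) - Real.log (τ + h - d)).sum) τ := by
  induction ds with
  | nil =>
    have : fB h [] = fun _ => (0 : ℝ) := by
      funext t; simp [fB]
    rw [this]
    simpa using hasDerivAt_const τ (0 : ℝ)
  | cons d L ih =>
    have ih' := ih (fun d hd => h2 d (List.mem_cons_of_mem _ hd))
    have hd : ((2 * d : ℕ) : ℝ) < h := by exact_mod_cast h2 d List.mem_cons_self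
    push_cast at hd
    have hd0 : (0 : ℝ) ≤ d := by positivity
    have d1 : HasDerivAt (fun t : ℝ => xl (t + d)) (Real.log (τ + d) + 1) τ :=
      (xl_hasDeriv (by linarith : 0 < τ + d)).comp_add_const τ (d : ℝ)
    have d4 : HasDerivAt (fun t : ℝ => xl (t + h - d)) (Real.log (τ + h - d) + 1) τ := by
      have := (xl_hasDeriv (by linarith : 0 < τ + (h - d))).comp_add_const τ ((h : ℝ) - d)
      have e : (fun t : ℝ => xl (t + h - d)) = fun t : ℝ => xl (t + ((h : ℝ) - d)) := by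
        funext t; congr 1; ring
      rw [e]
      have e2 : τ + h - d = τ + ((h : ℝ) - d) := by ring
      rw [e2]
      exact this
    have e : fB h (d :: L) = fun t => (xl ((h : ℝ) - 2 * d) + xl (t + d) - xl (t + h - d)) + fB h L t := by
      funext t; simp [fB]
    rw [e, List.map_cons, List.sum_cons]
    have d5 := (((hasDerivAt_const τ (xl ((h : ℝ) - 2 * d))).add d1).sub d4).add ih'
    have e5 : Real.log (τ + d) - Real.log (τ + h - d) + (L.map fun d : ℕ => Real.log (τ + d) - Real.log (τ + h - d)).sum =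
      0 + (Real.log (τ + d) + 1) - (Real.log (τ + h - d) + 1) + (L.map fun d : ℕ => Real.log (τ + d) - Real.log (τ + h - d)).sum := by ring
    rw [e5]
    exact d5

lemma log_ratio_le {u v : ℝ} (hu : 0 < u) (huv : u ≤ v) : Real.log v - Real.log u ≤ (v - u) / u := by
  have hv : 0 < v := by linarith
  rw [← Real.log_div hv.ne' hu.ne']
  have := Real.log_le_sub_one_of_pos (div_pos hv hu)
  have e : v / u - 1 = (v - u) / u := by field_simp
  linarith

lemma log_ratio_ge {u v : ℝ} (hu : 0 < u) (huv : u ≤ v) : 2 * (v - u) / (u + v) ≤ Real.log v - Real.log u := by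
  have hv : 0 < v := by linarith
  rw [← Real.log_div hv.ne' hu.ne']
  have h1 := Real.le_log_one_add_of_nonneg (x := v / u - 1) (by rw [sub_nonneg, one_le_div hu]; exact huv)
  have e : 1 + (v / u - 1) = v / u := by ring
  rw [e] at h1
  refine le_trans (le_of_eq ?_) h1
  have hne : u + v ≠ 0 := by positivity
  have e2 : v / u - 1 + 2 = (u + v) / u := by field_simp; ring
  have e3 : v / u - 1 = (v - u) / u := by field_simp
  rw [e2, e3]
  field_simp

/-- the function is decreasing from some point on -/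
lemma f0_tail (b h c : ℕ) (ds : List ℕ) (hch : c ≤ h) (h2 : ∀ d ∈ ds, 2 * d < h) (T : ℝ) (hT : 0 < T)
    (hcond : ∀ τ : ℝ, T ≤ τ → (b : ℝ) * c * (2 * τ + (h - c)) * (2 * τ + h) ≤
      2 * (ds.map fun d : ℕ => (h : ℝ) - 2 * d).sum * (τ * (τ + (h - c)))) {τ : ℝ} (hτ : T ≤ τ) :
    f0 b h c ds τ ≤ f0 b h c ds T := by
  have hch' : (c : ℝ) ≤ h := by exact_mod_cast hch
  have hder : ∀ x : ℝ, T ≤ x → HasDerivAt (f0 b h c ds)
      (b * (Real.log (x + c) - Real.log x + (Real.log (x + h) - Real.log (x + h - c))) +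
        (ds.map fun d : ℕ => Real.log (x + d) - Real.log (x + h - d)).sum) x := by
    intro x hx
    have hx0 : 0 < x := by linarith
    exact (fA_deriv b h c hch hx0).add (fB_deriv h ds h2 hx0)
  have hle : ∀ x : ℝ, T ≤ x → b * (Real.log (x + c) - Real.log x + (Real.log (x + h) - Real.log (x + h - c))) +
        (ds.map fun d : ℕ => Real.log (x + d) - Real.log (x + h - d)).sum ≤ 0 := by
    intro x hx
    have hx0 : 0 < x := by linarith
    have hc0 : (0 : ℝ) ≤ c := by positivity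
    have hb0 : (0 : ℝ) ≤ b := by positivity
    have hxc : 0 < x + (h - c) := by linarith
    have a1 := log_ratio_le hx0 (by linarith : x ≤ x + c)
    have a2 := log_ratio_le (by linarith : 0 < x + h - c) (by linarith : x + h - c ≤ x + h)
    have a3 : (ds.map fun d : ℕ => Real.log (x + d) - Real.log (x + h - d)).sum ≤
        -(2 * (ds.map fun d : ℕ => (h : ℝ) - 2 * d).sum / (2 * x + h)) := by
      clear hder hcond
      induction ds with
      | nil => simp
      | cons d L ih =>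
        have ih' := ih (fun d hd => h2 d (List.mem_cons_of_mem _ hd))
        have hd : ((2 * d : ℕ) : ℝ) < h := by exact_mod_cast h2 d List.mem_cons_self
        push_cast at hd
        have hd0 : (0 : ℝ) ≤ d := by positivity
        have a4 := log_ratio_ge (by linarith : 0 < x + d) (by linarith : x + d ≤ x + h - d)
        simp only [List.map_cons, List.sum_cons]
        have e1 : 2 * (x + h - d - (x + d)) / (x + d + (x + h - d)) = 2 * ((h : ℝ) - 2 * d) / (2 * x + h) := by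
          congr 1 <;> ring
        rw [e1] at a4
        have e2 : -(2 * ((h : ℝ) - 2 * d + (L.map fun d : ℕ => (h : ℝ) - 2 * d).sum) / (2 * x + h)) =
          -(2 * ((h : ℝ) - 2 * d) / (2 * x + h)) + -(2 * (L.map fun d : ℕ => (h : ℝ) - 2 * d).sum / (2 * x + h)) := by ring
        rw [e2]
        linarith
    have a5 : (x + c - x) / x + (x + h - (x + h - c)) / (x + h - c) = c * (2 * x + (h - c)) / (x * (x + (h - c))) := by
      have e1 : x + h - c = x + (h - c) := by ring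
      rw [e1]
      field_simp
      ring
    have a6 := hcond x hx
    have hden : 0 < x * (x + (h - c)) := by positivity
    have hden2 : (0 : ℝ) < 2 * x + h := by positivity
    have a7 : (b : ℝ) * (c * (2 * x + (h - c)) / (x * (x + (h - c)))) ≤
        2 * (ds.map fun d : ℕ => (h : ℝ) - 2 * d).sum / (2 * x + h) := by
      rw [← mul_div_assoc, div_le_div_iff₀ hden hden2]
      linarith
    have a8 : (b : ℝ) * (Real.log (x + c) - Real.log x + (Real.log (x + h) - Real.log (x + h - c))) ≤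
      b * ((x + c - x) / x + (x + h - (x + h - c)) / (x + h - c)) := mul_le_mul_of_nonneg_left (by linarith) hb0
    rw [a5] at a8
    linarith
  have hanti : AntitoneOn (f0 b h c ds) (Set.Ici T) := by
    apply antitoneOn_of_deriv_nonpos (convex_Ici T)
    · intro x hx
      exact (hder x hx).continuousAt.continuousWithinAt
    · intro x hx
      rw [interior_Ici] at hx
      exact (hder x (le_of_lt hx)).differentiableAt.differentiableWithinAt
    · intro x hx
      rw [interior_Ici] at hx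
      rw [(hder x (le_of_lt hx)).deriv]
      exact hle x (le_of_lt hx)
  exact hanti (Set.mem_Ici.2 le_rfl) (Set.mem_Ici.2 hτ) hτ

/-- total weight -/
def Wn (h : ℕ) (dm : List (ℕ × ℕ)) : ℕ := (dm.map fun z => z.2 * (h - 2 * z.1)).sum

lemma Wn_eq (h : ℕ) (dm : List (ℕ × ℕ)) (hdm : ∀ z ∈ dm, 2 * z.1 < h) :
    ((expd dm).map fun d : ℕ => (h : ℝ) - 2 * d).sum = (Wn h dm : ℝ) := by
  rw [sum_expdR]
  unfold Wn
  induction dm with
  | nil => simp
  | cons z L ih =>
    have ih' := ih (fun z hz => hdm z (List.mem_cons_of_mem _ hz))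
    have hz := hdm z List.mem_cons_self
    rw [List.map_cons, List.sum_cons, ih', List.map_cons, List.sum_cons, Nat.cast_add, Nat.cast_mul, Nat.cast_sub hz.le]
    push_cast
    ring

/-- the tail condition -/
def tailOK (b h c q : ℕ) (dm : List (ℕ × ℕ)) (k : ℕ) : Bool :=
  Nat.ble 1 k && Nat.ble (4 * b * c) (2 * Wn h dm) && Nat.ble (2 * b * c * (2 * h - c)) (2 * Wn h dm * (h - c)) &&
    Nat.ble (b * c * (2 * k + (h - c) * q) * (2 * k + h * q)) (2 * Wn h dm * (k * (k + (h - c) * q)))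

lemma tailOK_sound {b h c q : ℕ} {dm : List (ℕ × ℕ)} {k : ℕ} (hq : 0 < q) (hch : c ≤ h)
    (hdm : ∀ z ∈ dm, 2 * z.1 < h) (hs : tailOK b h c q dm k = true) {τ : ℝ} (h1 : (k : ℝ) / q ≤ τ) :
    f0 b h c (expd dm) τ ≤ f0 b h c (expd dm) ((k : ℝ) / q) := by
  have hq' : (0 : ℝ) < q := by exact_mod_cast hq
  have h2' : ∀ d ∈ expd dm, 2 * d < h := by
    intro d hd
    obtain ⟨z, hz, hzd⟩ := mem_expd hd
    have := hdm z hz
    omega
  unfold tailOK at hs
  simp only [Bool.and_eq_true, Nat.ble_eq] at hs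
  obtain ⟨⟨⟨hk, c1⟩, c2⟩, c3⟩ := hs
  have hk' : (0 : ℝ) < k := by exact_mod_cast hk
  have hch' : (c : ℝ) ≤ h := by exact_mod_cast hch
  apply f0_tail b h c (expd dm) hch h2' ((k : ℝ) / q) (by positivity) _ h1
  intro x hx
  rw [Wn_eq h dm hdm]
  set W : ℝ := (Wn h dm : ℝ) with hW
  have d1 : (4 : ℝ) * b * c ≤ 2 * W := by rw [hW]; exact_mod_cast c1
  have d2 : (2 : ℝ) * b * c * (2 * h - c) ≤ 2 * W * (h - c) := by
    have : ((2 * b * c * (2 * h - c) : ℕ) : ℝ) ≤ ((2 * Wn h dm * (h - c) : ℕ) : ℝ) := by exact_mod_cast c2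
    rw [Nat.cast_mul, Nat.cast_sub (by omega), Nat.cast_mul _ (h - c), Nat.cast_sub hch] at this
    push_cast at this
    linarith
  have d3 : (b : ℝ) * c * (2 * k + (h - c) * q) * (2 * k + h * q) ≤ 2 * W * (k * (k + (h - c) * q)) := by
    have : ((b * c * (2 * k + (h - c) * q) * (2 * k + h * q) : ℕ) : ℝ) ≤ ((2 * Wn h dm * (k * (k + (h - c) * q)) : ℕ) : ℝ) := by
      exact_mod_cast c3
    push_cast [Nat.cast_sub hch] at this
    linarith
  set T : ℝ := (k : ℝ) / q with hT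
  have hT0 : 0 < T := by positivity
  have hkT : (k : ℝ) = T * q := by rw [hT]; field_simp
  have d4 : (b : ℝ) * c * (2 * T + (h - c)) * (2 * T + h) ≤ 2 * W * (T * (T + (h - c))) := by
    rw [hkT] at d3
    have e1 : (b : ℝ) * c * (2 * (T * q) + (h - c) * q) * (2 * (T * q) + h * q) = (b * c * (2 * T + (h - c)) * (2 * T + h)) * q ^ 2 := by ring
    have e2 : 2 * W * (T * q * (T * q + (h - c) * q)) = (2 * W * (T * (T + (h - c)))) * q ^ 2 := by ring
    rw [e1, e2] at d3
    exact le_of_mul_le_mul_right d3 (by positivity)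
  have hx0 : 0 ≤ x - T := by linarith
  have m1 : 0 ≤ (2 * W - 4 * b * c) * ((x - T) * (x + T)) := by
    apply mul_nonneg (by linarith) (mul_nonneg hx0 (by linarith))
  have m2 : 0 ≤ (2 * W * (h - c) - 2 * b * c * (2 * h - c)) * (x - T) := mul_nonneg (by linarith) hx0
  nlinarith

/-- the whole check -/
def realOK (b h c q X : ℕ) (dm : List (ℕ × ℕ)) : List ℕ → Bool
  | k :: l :: L => Nat.ble k l && stepOK b h c q X dm k l && realOK b h c q X dm (l :: L)
  | [k] => tailOK b h c q dm k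
  | [] => false

lemma realOK_aux {b h c q X : ℕ} {dm : List (ℕ × ℕ)} (hq : 0 < q) (hch : c ≤ h)
    (hdm : ∀ z ∈ dm, 2 * z.1 < h) (L : List ℕ) : ∀ k : ℕ, realOK b h c q X dm (k :: L) = true →
    f0 b h c (expd dm) ((k : ℝ) / q) ≤ -(X : ℝ) / q → ∀ τ : ℝ, (k : ℝ) / q ≤ τ → f0 b h c (expd dm) τ ≤ -(X : ℝ) / q := by
  induction L with
  | nil =>
    intro k hk h0 τ hτ
    exact (tailOK_sound hq hch hdm hk hτ).trans h0
  | cons l L ih =>
    intro k hk h0 τ hτ
    unfold realOK at hk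
    simp only [Bool.and_eq_true, Nat.ble_eq] at hk
    obtain ⟨⟨h1, h2⟩, h3⟩ := hk
    have hq' : (0 : ℝ) < q := by exact_mod_cast hq
    have hkl : (k : ℝ) / q ≤ (l : ℝ) / q := by
      apply div_le_div_of_nonneg_right _ hq'.le
      exact_mod_cast h1
    rcases le_total τ ((l : ℝ) / q) with h4 | h4
    · exact stepOK_sound hq hch hdm h2 hτ h4
    · exact ih l h3 (stepOK_sound hq hch hdm h2 hkl le_rfl) τ h4

/-- soundness: the growth function is bounded on the half line -/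
theorem realOK_sound {b h c q X : ℕ} {dm : List (ℕ × ℕ)} (hq : 0 < q) (hch : c ≤ h)
    (hdm : ∀ z ∈ dm, 2 * z.1 < h) (l : ℕ) (L : List ℕ) (hL : realOK b h c q X dm (0 :: l :: L) = true)
    {τ : ℝ} (hτ : 0 ≤ τ) : f0 b h c (expd dm) τ ≤ -(X : ℝ) / q := by
  have h0 : f0 b h c (expd dm) (((0 : ℕ) : ℝ) / q) ≤ -(X : ℝ) / q := by
    have hL' := hL
    unfold realOK at hL'
    simp only [Bool.and_eq_true, Nat.ble_eq] at hL'
    obtain ⟨⟨h1, h2⟩, h3⟩ := hL'
    apply stepOK_sound hq hch hdm h2 le_rfl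
    have hq' : (0 : ℝ) < q := by exact_mod_cast hq
    apply div_le_div_of_nonneg_right _ hq'.le
    exact_mod_cast h1
  exact realOK_aux hq hch hdm (l :: L) 0 hL h0 τ (by simpa using hτ)

/-- the archimedean bound from the bound of the growth function -/
theorem real_bound (b h c : ℕ) (ds : List ℕ) (hb : 1 ≤ b)
    (hc : ∀ d ∈ ds, c < d) (h2 : ∀ d ∈ ds, 2 * d < h) (hch : c < h) (h2h : 2 ≤ h) (hr : 3 ≤ ds.length)
    (S : ℝ) (hS : ∀ τ : ℝ, 0 ≤ τ → f0 b h c ds τ ≤ S) (ε : ℝ) (hε : 0 < ε) :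
    ∀ᶠ n : ℕ in atTop, ∀ F, HasSum (term b h c n ds) F → |F| ≤ Real.exp (n * (S + ε)) := by
  set r := ds.length with hrd
  set M0 : ℝ := 1 + 2 * b * c + r * (h + 1) * (h + 1) with hM0
  set K : ℝ := (Real.exp 1 * (h + 1)) ^ r * h * (∑' t : ℕ, 1 / ((t : ℝ) + 1) ^ 2) * M0 ^ (b - 1) with hK
  have hts : 0 ≤ ∑' t : ℕ, 1 / ((t : ℝ) + 1) ^ 2 := tsum_nonneg fun t => by positivity
  have hK0 : 0 ≤ K := by rw [hK]; positivity
  filter_upwards [poly_exp K hK0 (r + 1 + (b - 1)) ε hε, eventually_ge_atTop 1] with n hpoly hn F hF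
  have hn1 : (1 : ℝ) ≤ n := by exact_mod_cast hn
  have h3 := F_le b h c n ds hn (by omega) hc h2 hch h2h hr S hS (b - 1) F hF
  refine h3.trans ?_
  have e : (n : ℝ) * (S + ε) = ε * n + n * S := by ring
  rw [e, Real.exp_add]
  apply mul_le_mul_of_nonneg_right _ (Real.exp_pos _).le
  refine le_trans ?_ hpoly
  have a1 : (Real.exp 1 * ((h : ℝ) * n + 1)) ^ r ≤ (Real.exp 1 * (h + 1)) ^ r * (n : ℝ) ^ r := by
    rw [← mul_pow]
    apply pow_le_pow_left₀ (by positivity)
    rw [mul_assoc]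
    apply mul_le_mul_of_nonneg_left _ (Real.exp_pos _).le
    nlinarith
  have a2 : ((1 + 2 * b * (c * n) + ∑ k ∈ ss h c n, mu h n ds k : ℕ) : ℝ) ≤ M0 * n := by
    have h4 : ∑ k ∈ ss h c n, mu h n ds k ≤ (h * n + 1) * r := by
      calc _ ≤ ∑ k ∈ ss h c n, ds.length := Finset.sum_le_sum fun k _ => mu_le_length h n ds k
        _ = (ss h c n).card * r := by rw [Finset.sum_const, smul_eq_mul]
        _ ≤ (h * n + 1) * r := by
            apply Nat.mul_le_mul_right
            unfold ss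
            rw [Nat.card_Icc]
            omega
    have h5 : ((∑ k ∈ ss h c n, mu h n ds k : ℕ) : ℝ) ≤ (((h * n + 1) * r : ℕ) : ℝ) := by exact_mod_cast h4
    push_cast at h5 ⊢
    rw [hM0]
    have h6 : ((h : ℝ) * n + 1) * r ≤ r * (h + 1) * n := by
      have : (0 : ℝ) ≤ r := by positivity
      nlinarith
    have h7 : (r : ℝ) * (h + 1) * n ≤ r * (h + 1) * (h + 1) * n := by
      have h8 : (0 : ℝ) ≤ r * (h + 1) * n := by positivity
      have h9 : (0 : ℝ) ≤ h := by positivity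
      nlinarith
    nlinarith
  have a3 : ((1 + 2 * b * (c * n) + ∑ k ∈ ss h c n, mu h n ds k : ℕ) : ℝ) ^ (b - 1) ≤ M0 ^ (b - 1) * (n : ℝ) ^ (b - 1) := by
    rw [← mul_pow]
    exact pow_le_pow_left₀ (by positivity) a2 _
  calc _ ≤ ((Real.exp 1 * (h + 1)) ^ r * (n : ℝ) ^ r) * (h * n) * (∑' t : ℕ, 1 / ((t : ℝ) + 1) ^ 2) * (M0 ^ (b - 1) * (n : ℝ) ^ (b - 1)) := by
        gcongr
    _ = K * (n : ℝ) ^ (r + 1 + (b - 1)) := by
        rw [hK, pow_add, pow_add, pow_one]; ring

end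

end Pool.Agent.H337R2
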