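import Pool.Agent.H337R2.Form

/-!
# Symmetry, vanishing of the residue sum, and the final shape of the linear form
-/

open Polynomial

namespace Pool.Agent.H337R2

noncomputable section

/-- coefficient of `1/(X+k)^i` -/
def pa (s : Finset ℕ) (μ : ℕ → ℕ) (P : ℚ[X]) (k i : ℕ) : ℚ :=
  if i ≤ μ k then pfc s μ P k (μ k - i) else 0

lemma sum_pfc_eq (s : Finset ℕ) (μ : ℕ → ℕ) (P : ℚ[X]) (r : ℕ) (k : ℕ) (hr : μ k ≤ r)
    (F : ℚ → ℕ → ℝ) (hF : ∀ i, F 0 i = 0) :
    ∑ j ∈ Finset.range (μ k), F (pfc s μ P k j) (μ k - j) = ∑ i ∈ Finset.Icc 1 r, F (pa s μ P k i) i := by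
  have h1 : ∑ i ∈ Finset.Icc 1 r, F (pa s μ P k i) i = ∑ i ∈ Finset.Icc 1 (μ k), F (pa s μ P k i) i := by
    symm
    apply Finset.sum_subset
    · intro i hi
      rw [Finset.mem_Icc] at *
      omega
    · intro i hi hi2
      rw [Finset.mem_Icc] at *
      have : ¬ i ≤ μ k := by omega
      simp [pa, this, hF]
  rw [h1]
  have h2 : Finset.Icc 1 (μ k) = Finset.Ico 1 (μ k + 1) := by
    ext; simp
  rw [h2, Finset.sum_Ico_eq_sum_range]
  rw [← Finset.sum_range_reflect]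
  apply Finset.sum_congr (by simp)
  intro j hj
  rw [Finset.mem_range] at hj
  have h3 : 1 + j ≤ μ k := by omega
  simp only [pa, h3, if_true]
  congr 2 <;> omega

/-- linear form, indexed by the order of the pole -/
theorem linear_form' (s : Finset ℕ) (μ : ℕ → ℕ) (P : ℚ[X])
    (hdeg : P.degree < (QQ s μ).degree) (β s0 r : ℕ) (hβ : 1 ≤ β)
    (hs0 : ∀ k ∈ s, s0 < k) (hr : ∀ k ∈ s, μ k ≤ r)
    (hz : ∀ m ∈ Finset.Icc 1 s0, (X + C (m : ℚ)) ^ (β + 1) ∣ P) :
    HasSum (fun t : ℕ => ((PowerSeries.coeff β (RS s μ P (t : ℚ)) : ℚ) : ℝ))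
      (∑ i ∈ Finset.Icc 1 r, ((((-1) ^ β * (Nat.choose (i - 1 + β) (i - 1) : ℚ)) : ℚ) : ℝ) *
        (((∑ k ∈ s, pa s μ P k i : ℚ) : ℝ) * zr (i + β) -
          ((∑ k ∈ s, pa s μ P k i * hs (i + β) (k - s0 - 1) : ℚ) : ℝ))) := by
  have h := linear_form s μ P hdeg β s0 hβ hs0 hz
  convert h using 1
  have h1 : ∀ k ∈ s, ∑ j ∈ Finset.range (μ k),
        ((pfc s μ P k j * ((-1) ^ β * (Nat.choose (μ k - j - 1 + β) (μ k - j - 1) : ℚ)) : ℚ) : ℝ) *
          (zr (μ k - j + β) - (hs (μ k - j + β) (k - s0 - 1) : ℚ))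
      = ∑ i ∈ Finset.Icc 1 r, ((pa s μ P k i * ((-1) ^ β * (Nat.choose (i - 1 + β) (i - 1) : ℚ)) : ℚ) : ℝ) *
          (zr (i + β) - (hs (i + β) (k - s0 - 1) : ℚ)) := by
    intro k hk
    exact sum_pfc_eq s μ P r k (hr k hk) (fun a i => ((a * ((-1) ^ β * (Nat.choose (i - 1 + β) (i - 1) : ℚ)) : ℚ) : ℝ) *
          (zr (i + β) - (hs (i + β) (k - s0 - 1) : ℚ))) (by intro i; simp)
  rw [Finset.sum_congr rfl h1, Finset.sum_comm]
  apply Finset.sum_congr rfl
  intro i _
  push_cast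
  rw [mul_sub, Finset.sum_mul, Finset.mul_sum, Finset.mul_sum, ← Finset.sum_sub_distrib]
  apply Finset.sum_congr rfl
  intro k _
  ring

/-- vanishing of the sum of residues -/
theorem residue_sum (s : Finset ℕ) (μ : ℕ → ℕ) (P : ℚ[X])
    (hdeg : P.natDegree + 2 ≤ (QQ s μ).natDegree) :
    ∑ k ∈ s, pa s μ P k 1 = 0 := by
  have hdeg' : P.degree < (QQ s μ).degree := by
    rw [Polynomial.degree_eq_natDegree (QQ_monic s μ).ne_zero]
    exact lt_of_le_of_lt Polynomial.degree_le_natDegree (by exact_mod_cast (by omega))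
  have hid := pf_identity s μ P hdeg'
  set N := (QQ s μ).natDegree with hN
  have h1 : P.coeff (N - 1) = 0 := Polynomial.coeff_eq_zero_of_natDegree_lt (by omega)
  rw [hid, Polynomial.finsetSum_coeff] at h1
  rw [← h1]
  apply Finset.sum_congr rfl
  intro k hk
  rw [Polynomial.finsetSum_coeff]
  have hNk : N = μ k + (QQ (s.erase k) μ).natDegree := by
    rw [hN, QQ_erase s μ hk, ((Polynomial.monic_X_add_C _).pow _).natDegree_mul (QQ_monic _ _),
      (Polynomial.monic_X_add_C _).natDegree_pow, Polynomial.natDegree_X_add_C, mul_one]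
  have hterm : ∀ j ∈ Finset.range (μ k), (C (pfc s μ P k j) * (X + C (k : ℚ)) ^ j *
      QQ (s.erase k) μ).coeff (N - 1) = if j = μ k - 1 then pfc s μ P k j else 0 := by
    intro j hj
    rw [Finset.mem_range] at hj
    rw [mul_assoc, Polynomial.coeff_C_mul]
    have hm : ((X + C (k : ℚ)) ^ j * QQ (s.erase k) μ).Monic :=
      ((Polynomial.monic_X_add_C _).pow _).mul (QQ_monic _ _)
    have hnd : ((X + C (k : ℚ)) ^ j * QQ (s.erase k) μ).natDegree = j + (QQ (s.erase k) μ).natDegree := by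
      rw [((Polynomial.monic_X_add_C _).pow _).natDegree_mul (QQ_monic _ _),
        (Polynomial.monic_X_add_C _).natDegree_pow, Polynomial.natDegree_X_add_C, mul_one]
    by_cases hj2 : j = μ k - 1
    · rw [if_pos hj2]
      have : N - 1 = ((X + C (k : ℚ)) ^ j * QQ (s.erase k) μ).natDegree := by
        rw [hnd, hNk]; omega
      rw [this, hm.coeff_natDegree, mul_one]
    · rw [if_neg hj2, Polynomial.coeff_eq_zero_of_natDegree_lt, mul_zero]
      rw [hnd, hNk]; omega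
  rw [Finset.sum_congr rfl hterm]
  by_cases h0 : μ k = 0
  · simp [pa, h0]
  · have : 1 ≤ μ k := by omega
    simp only [pa, this, if_true]
    rw [Finset.sum_eq_single (μ k - 1)]
    · simp
    · intro j _ hj; simp [hj]
    · intro hj
      exfalso; apply hj; rw [Finset.mem_range]; omega

lemma iv_neg (a : ℚ) : iv (-a) = - PowerSeries.rescale (-1 : ℚ) (iv a) := by
  ext j
  rw [map_neg, PowerSeries.coeff_rescale]
  simp only [iv, PowerSeries.coeff_mk]
  rw [neg_pow a (j + 1), pow_succ (-1 : ℚ) j]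
  rcases neg_one_pow_eq_or ℚ j with h | h <;> rw [h] <;> simp [neg_div, div_neg]

lemma rescale_C' (a c : ℚ) : PowerSeries.rescale a (PowerSeries.C c) = PowerSeries.C c := by
  ext j
  rw [PowerSeries.coeff_rescale, PowerSeries.coeff_C]
  split_ifs with h
  · rw [h]; simp
  · simp

lemma TS_reflect (H : ℚ) (c : ℚ) (P : ℚ[X]) :
    TS (-H - c) P = PowerSeries.rescale (-1 : ℚ) (TS c (P.comp (-X - C H))) := by
  have h : (TS (-H - c)) = (PowerSeries.rescale (-1 : ℚ)).comp ((TS c).comp (Polynomial.compRingHom (-X - C H))) := by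
    apply Polynomial.ringHom_ext
    · intro a
      simp [TS_C, rescale_C']
    · simp only [TS_X, RingHom.comp_apply, Polynomial.coe_compRingHom_apply, Polynomial.X_comp,
        map_sub, map_neg, TS_C, map_add, rescale_C', PowerSeries.rescale_neg_one_X]
      ring
  rw [h]; rfl

/-- The reflection symmetry of partial fraction coefficients. -/
theorem pfc_reflect (s : Finset ℕ) (μ : ℕ → ℕ) (P : ℚ[X]) (H : ℕ)
    (hsH : ∀ k ∈ s, k ≤ H ∧ H - k ∈ s) (hμ : ∀ k ∈ s, μ (H - k) = μ k)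
    (hP : P.comp (-X - C (H : ℚ)) = -P) (hev : Even (∑ m ∈ s, μ m)) {k : ℕ} (hk : k ∈ s)
    {j : ℕ} (hj : j < μ k) :
    pfc s μ P (H - k) j = -(-1) ^ (μ k - j) * pfc s μ P k j := by
  have hkH := (hsH k hk).1
  have hVV : VV (s.erase (H - k)) μ (-((H - k : ℕ) : ℚ))
      = (-1) ^ (∑ m ∈ s.erase k, μ m) * PowerSeries.rescale (-1 : ℚ) (VV (s.erase k) μ (-(k : ℚ))) := by
    unfold VV
    rw [map_prod, ← Finset.prod_pow_eq_pow_sum, ← Finset.prod_mul_distrib]
    symm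
    apply Finset.prod_bij (fun m _ => H - m)
    · intro m hm
      rw [Finset.mem_erase] at hm ⊢
      have := hsH m hm.2
      refine ⟨?_, this.2⟩
      intro h
      apply hm.1; omega
    · intro m1 hm1 m2 hm2 h
      rw [Finset.mem_erase] at hm1 hm2
      have := hsH m1 hm1.2
      have := hsH m2 hm2.2
      omega
    · intro m hm
      rw [Finset.mem_erase] at hm
      have := hsH m hm.2
      refine ⟨H - m, ?_, by omega⟩
      rw [Finset.mem_erase]
      refine ⟨?_, this.2⟩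
      intro h
      apply hm.1; omega
    · intro m hm
      rw [Finset.mem_erase] at hm
      have h1 := hsH m hm.2
      rw [hμ m hm.2, map_pow, ← mul_pow]
      congr 1
      have h2 : -((H - k : ℕ) : ℚ) + ((H - m : ℕ) : ℚ) = -(-(k : ℚ) + m) := by
        rw [Nat.cast_sub hkH, Nat.cast_sub h1.1]; ring
      rw [h2, iv_neg]
      simp
  have hT : TS (-((H - k : ℕ) : ℚ)) P = - PowerSeries.rescale (-1 : ℚ) (TS (-(k : ℚ)) P) := by
    have h2 : -((H - k : ℕ) : ℚ) = -(H : ℚ) - (-(k : ℚ)) := by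
      rw [Nat.cast_sub hkH]; ring
    rw [h2, TS_reflect, hP, map_neg, map_neg]
  have hsum : ∑ m ∈ s, μ m = μ k + ∑ m ∈ s.erase k, μ m := (Finset.add_sum_erase s μ hk).symm
  unfold pfc
  rw [hVV, hT]
  have h3 : -(PowerSeries.rescale (-1 : ℚ)) (TS (-(k : ℚ)) P) * ((-1) ^ (∑ m ∈ s.erase k, μ m) *
      (PowerSeries.rescale (-1 : ℚ)) (VV (s.erase k) μ (-(k : ℚ))))
      = PowerSeries.C ((-1 : ℚ) * (-1) ^ (∑ m ∈ s.erase k, μ m)) * PowerSeries.rescale (-1 : ℚ)
        (TS (-(k : ℚ)) P * VV (s.erase k) μ (-(k : ℚ))) := by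
    rw [map_mul, map_mul, map_pow]
    simp only [map_neg, map_one]
    ring
  rw [h3, PowerSeries.coeff_C_mul, PowerSeries.coeff_rescale]
  rw [hsum] at hev
  have h4 : ((-1 : ℚ)) ^ (∑ m ∈ s.erase k, μ m) * (-1) ^ j = (-1) ^ (μ k - j) := by
    rw [← pow_add]
    have h5 : Even ((∑ m ∈ s.erase k, μ m) + j + (μ k - j)) := by
      convert hev using 1; omega
    have h6 : ((-1 : ℚ)) ^ ((∑ m ∈ s.erase k, μ m) + j + (μ k - j)) = 1 := h5.neg_one_pow
    rw [pow_add] at h6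
    rcases neg_one_pow_eq_or ℚ (μ k - j) with h | h <;> rw [h] at h6 ⊢ <;> linarith
  calc _ = -((-1 : ℚ) ^ (∑ m ∈ s.erase k, μ m) * (-1) ^ j) *
        (PowerSeries.coeff j) (TS (-(k : ℚ)) P * VV (s.erase k) μ (-(k : ℚ))) := by ring
    _ = _ := by rw [h4]

theorem even_vanish (s : Finset ℕ) (μ : ℕ → ℕ) (P : ℚ[X]) (H : ℕ)
    (hsH : ∀ k ∈ s, k ≤ H ∧ H - k ∈ s) (hμ : ∀ k ∈ s, μ (H - k) = μ k)
    (hP : P.comp (-X - C (H : ℚ)) = -P) (hev : Even (∑ m ∈ s, μ m)) {i : ℕ} (hi : Even i)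
    (hi1 : 1 ≤ i) : ∑ k ∈ s, pa s μ P k i = 0 := by
  have h1 : ∑ k ∈ s, pa s μ P k i = ∑ k ∈ s, pa s μ P (H - k) i := by
    apply Finset.sum_bij (fun m _ => H - m)
    · intro m hm; exact (hsH m hm).2
    · intro m1 hm1 m2 hm2 h
      have := hsH m1 hm1
      have := hsH m2 hm2
      omega
    · intro m hm
      have := hsH m hm
      exact ⟨H - m, this.2, by omega⟩
    · intro m hm
      have := hsH m hm
      rw [show H - (H - m) = m by omega]
  have h2 : ∀ k ∈ s, pa s μ P (H - k) i = - pa s μ P k i := by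
    intro k hk
    unfold pa
    rw [hμ k hk]
    split_ifs with h
    · rw [pfc_reflect s μ P H hsH hμ hP hev hk (by omega)]
      rw [show μ k - (μ k - i) = i by omega, hi.neg_one_pow]
      ring
    · simp
  rw [Finset.sum_congr rfl h2, Finset.sum_neg_distrib] at h1
  linarith

end

end Pool.Agent.H337R2
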