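import Pool.Agent.H337R2.UnB

/-!
# Certificate of a base
-/

namespace Pool.Agent.H337R2

/-- multiplicities -/
def u3dm : List (ℕ × ℕ) := [(38, 1), (39, 1), (40, 1), (41, 1), (42, 1), (43, 1), (44, 1), (45, 1), (46, 1), (47, 1), (48, 1), (49, 1), (50, 1), (51, 1)]

/-- cells -/
def u3C0 : List (ℕ × ℕ × ℕ) := [(1, 46, 3), (1, 45, 4), (1, 44, 6), (1, 43, 6), (1, 42, 5), (1, 41, 5), (2, 81, 5), (1, 40, 4), (2, 79, 4), (1, 39, 4), (2, 77, 4), (1, 38, 4), (2, 75, 4), (1, 37, 5), (2, 73, 5), (1, 36, 8), (2, 71, 8), (1, 35, 9), (2, 69, 9), (1, 34, 9), (1, 33, 10), (1, 32, 9), (1, 31, 10), (1, 30, 10), (1, 29, 11), (1, 28, 11), (3, 82, 11), (1, 27, 12), (3, 80, 12), (3, 79, 12), (1, 26, 12), (3, 77, 12), (2, 51, 12), (3, 76, 12), (1, 25, 13), (3, 74, 13), (2, 49, 13), (3, 73, 13), (1, 24, 10), (3, 71, 10), (2, 47, 10), (3, 70, 10), (1, 23, 10), (2, 45, 9), (1, 22, 7), (2, 43, 7), (1,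 21, 7), (2, 41, 7), (4, 81, 7), (1, 20, 6), (4, 79, 6), (2, 39, 6), (4, 77, 6), (1, 19, 6), (4, 75, 6), (2, 37, 6), (4, 73, 6), (1, 18, 11), (4, 71, 11), (2, 35, 11), (4, 69, 11), (7, 120, 9), (1, 17, 9), (5, 84, 9), (3, 50, 8), (2, 33, 9), (5, 82, 9), (3, 49, 9), (5, 81, 9), (1, 16, 9), (5, 79, 9), (3, 47, 9), (5, 78, 9), (2, 31, 10), (5, 77, 10), (3, 46, 10), (5, 76, 10), (1, 15, 10), (5, 74, 10), (3, 44, 9), (5, 73, 9), (2, 29, 10), (5, 72, 10), (3, 43, 10), (5, 71, 10), (1, 14, 9), (5, 69, 9), (3, 41, 10), (2, 27, 10), (3, 40, 7), (6, 79, 7), (1, 13, 7), (6, 77, 7), (4, 51, 6), (3, 38, 5), (2, 25, 6), (3, 37, 6), (4, 49, 6), (6, 73, 6), (1, 12, 10)]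

/-- cells -/
def u3C1 : List (ℕ × ℕ × ℕ) := [(6, 71, 10), (4, 47, 10), (7, 82, 10), (3, 35, 11), (7, 81, 11), (2, 23, 11), (7, 80, 11), (3, 34, 11), (7, 79, 11), (4, 45, 11), (7, 78, 11), (1, 11, 10), (11, 120, 10), (7, 76, 10), (4, 43, 10), (7, 75, 10), (3, 32, 10), (7, 74, 10), (2, 21, 9), (7, 73, 9), (3, 31, 10), (7, 72, 10), (4, 41, 11), (5, 51, 11), (7, 71, 11), (8, 81, 11), (1, 10, 7), (8, 79, 7), (7, 69, 7), (5, 49, 6), (4, 39, 6), (3, 29, 7), (8, 77, 7), (5, 48, 8), (2, 19, 8), (5, 47, 8), (8, 75, 8), (3, 28, 8), (4, 37, 8), (13, 120, 6), (5, 46, 6), (8, 73, 6), (9, 82, 6), (1, 9, 12), (9, 80, 12), (8, 71, 12), (5, 44, 11), (9, 79, 11), (4, 35, 11), (3, 26, 11), (8, 69, 11), (5, 43, 10), (7, 60, 9), (9, 77, 9), (2, 17, 9), (9, 76, 9), (5, 42, 8), (3, 25, 8), (4, 33, 9), (9, 74, 9), (5, 41, 10), (6, 49, 10), (9, 73, 10), (10, 81, 10), (1, 8, 9), (10, 79, 9), (9, 71, 9),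 (6, 47, 9), (5, 39, 9), (9, 70, 9), (4, 31, 10), (10, 77, 10), (3, 23, 10), (11, 84, 10), (5, 38, 9), (2, 15, 7), (11, 82, 7), (5, 37, 8), (11, 81, 8), (3, 22, 6), (10, 73, 6), (7, 51, 6), (11, 80, 6), (4, 29, 6), (5, 36, 10), (11, 79, 10), (6, 43, 10), (7, 50, 10), (10, 71, 10), (11, 78, 10), (17, 120, 10), (1, 7, 10), (11, 76, 10), (10, 69, 10), (7, 48, 10), (6, 41, 10), (11, 75, 10), (5, 34, 10), (4, 27, 11), (11, 74, 11)]

/-- cells -/
def u3C2 : List (ℕ × ℕ × ℕ) := [(7, 47, 10), (3, 20, 9), (11, 73, 9), (5, 33, 9), (12, 79, 9), (7, 46, 10), (11, 72, 10), (2, 13, 10), (13, 84, 10), (11, 71, 10), (7, 45, 10), (12, 77, 10), (5, 32, 9), (8, 51, 9), (11, 70, 9), (3, 19, 8), (19, 120, 7), (13, 82, 7), (7, 44, 6), (11, 69, 6), (4, 25, 6), (13, 81, 6), (5, 31, 7), (6, 37, 8), (13, 80, 8), (7, 43, 8), (8, 49, 8), (12, 73, 8), (13, 79, 8), (1, 6, 10), (13, 77, 10), (12, 71, 10), (8,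 47, 10), (7, 41, 10), (13, 76, 10), (6, 35, 10), (5, 29, 11), (14, 81, 11), (13, 75, 11), (4, 23, 11), (7, 40, 9), (13, 74, 9), (3, 17, 9), (14, 79, 9), (8, 45, 10), (13, 73, 10), (5, 28, 9), (7, 39, 9), (9, 50, 9), (13, 72, 9), (2, 11, 9), (15, 82, 9), (13, 71, 9), (11, 60, 7), (9, 49, 7), (7, 38, 6), (5, 27, 7), (13, 70, 7), (8, 43, 7), (14, 75, 7), (3, 16, 9), (13, 69, 9), (7, 37, 10), (15, 79, 10), (4, 21, 9), (9, 47, 8), (23, 120, 7), (14, 73, 7), (5, 26, 6), (6, 31, 6), (7, 36, 10), (15, 77, 10), (8, 41, 11), (9, 46, 11), (10, 51, 11), (14, 71, 11), (15, 76, 11), (16, 81, 11), (1, 5, 11), (17, 84, 11), (16, 79, 11), (15, 74, 11), (14, 69, 11), (10, 49, 10), (9, 44, 9), (8, 39, 9), (15, 73, 9), (7, 34, 9), (6, 29, 10), (17, 82, 10), (16, 77, 10), (5, 24, 8), (9, 43, 9), (17, 81, 9), (4, 19, 9), (15, 71, 9), (7, 33, 10), (17, 80, 10), (10, 47, 10), (16, 75, 10)]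

/-- cells -/
def u3C3 : List (ℕ × ℕ × ℕ) := [(3, 14, 9), (17, 79, 9), (11, 51, 9), (8, 37, 9), (13, 60, 7), (5, 23, 7), (17, 78, 7), (7, 32, 7), (16, 73, 7), (9, 41, 7), (11, 50, 7), (17, 77, 7), (2, 9, 10), (17, 76, 10), (11, 49, 10), (9, 40, 9), (16, 71, 9), (7, 31, 10), (19, 84, 10), (17, 75, 10), (5, 22, 9), (18, 79, 9), (8, 35, 10), (11, 48, 10), (17, 74, 10), (3, 13, 10), (19, 82, 10), (16, 69, 10), (10, 43, 10), (17, 73, 10), (7, 30, 9), (18, 77, 9), (11, 47, 9), (19, 81, 9), (4, 17, 9), (17, 72, 9), (9, 38, 9), (19, 80, 9), (5, 21, 8), (11, 46, 8), (17, 71, 8), (6, 25, 8), (19, 79, 8), (7, 29, 8), (29, 120, 6), (8, 33, 7), (17, 70, 7), (9, 37, 8), (19, 78, 8), (10, 41, 9), (11, 45, 10), (12, 49, 10), (17, 69, 10), (18, 73, 10), (19, 77, 10), (20, 81, 10), (1, 4, 9), (20, 79, 9), (19, 75, 9), (18, 71, 9), (13, 51, 9), (12, 47, 9), (11, 43, 9), (21, 82, 9), (10, 39, 9),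 (19, 74, 9), (9, 35, 9), (8, 31, 10), (31, 120, 10), (7, 27, 11), (20, 77, 11), (13, 50, 11), (19, 73, 11), (6, 23, 12), (11, 42, 11), (21, 80, 11), (5, 19, 10), (19, 72, 10), (9, 34, 9), (13, 49, 9), (21, 79, 9), (4, 15, 7), (19, 71, 7), (11, 41, 8), (7, 26, 7), (10, 37, 8), (13, 48, 10), (19, 70, 10), (22, 81, 10), (3, 11, 10), (23, 84, 10), (20, 73, 10), (14, 51, 9), (11, 40, 6), (19, 69, 6), (8, 29, 7), (21, 76, 7), (13, 47, 6), (5, 18, 9), (22, 79, 9)]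

/-- cells -/
def u3C4 : List (ℕ × ℕ × ℕ) := [(12, 43, 9), (7, 25, 10), (23, 82, 10), (9, 32, 10), (20, 71, 10), (11, 39, 10), (13, 46, 10), (17, 60, 10), (21, 74, 10), (23, 81, 10), (2, 7, 10), (23, 80, 10), (21, 73, 10), (13, 45, 10), (11, 38, 9), (20, 69, 9), (9, 31, 10), (23, 79, 10), (7, 24, 8), (12, 41, 9), (22, 75, 9), (5, 17, 9), (23, 78, 9), (13, 44, 9), (21, 71, 9), (8, 27, 9), (11, 37, 10), (25, 84, 10), (14, 47, 10), (23, 77, 10), (3, 10, 5), (22, 73, 5), (13, 43, 5), (23, 76, 5), (10, 33, 6), (24, 79, 6), (7, 23, 7), (25, 82, 7), (11, 36, 10), (15, 49, 10), (23, 75, 10), (4, 13, 10), (37, 120, 10), (25, 81, 10), (13, 42, 9), (22, 71, 9), (9, 29, 10), (23, 74, 10), (14, 45, 10), (24, 77, 10), (5, 16, 9), (16, 51, 9), (11, 35, 10), (23, 73, 10), (6, 19, 10), (25, 79, 10), (19, 60, 10), (13, 41, 11), (7, 22, 10), (22, 69, 10), (15, 47, 10), (23, 72, 10), (8, 25, 10),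 (25, 78, 10), (26, 81, 10), (9, 28, 9), (10, 31, 10), (11, 34, 10), (23, 71, 10), (12, 37, 11), (25, 77, 11), (13, 40, 7), (14, 43, 8), (15, 46, 9), (16, 49, 9), (23, 70, 9), (24, 73, 9), (25, 76, 9), (26, 79, 9), (27, 82, 9), (1, 3, 12), (27, 80, 12), (26, 77, 12), (25, 74, 12), (24, 71, 12), (17, 50, 12), (16, 47, 12), (15, 44, 11), (14, 41, 11), (41, 120, 11), (27, 79, 11), (13, 38, 10), (25, 73, 10), (12, 35, 10), (11, 32, 9), (10, 29, 10), (29, 84, 10), (28, 81, 10), (9, 26, 10), (26, 75, 10)]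

/-- cells -/
def u3C5 : List (ℕ × ℕ × ℕ) := [(17, 49, 10), (25, 72, 10), (8, 23, 10), (15, 43, 9), (7, 20, 7), (27, 77, 7), (13, 37, 7), (25, 71, 7), (6, 17, 6), (29, 82, 6), (17, 48, 9), (28, 79, 9), (11, 31, 9), (27, 76, 9), (16, 45, 10), (26, 73, 10), (5, 14, 9), (29, 81, 9), (43, 120, 6), (14, 39, 6), (9, 25, 6), (13, 36, 10), (17, 47, 10), (25, 69, 10), (29, 80, 10), (4, 11, 10), (27, 74, 10), (15, 41, 10), (26, 71, 10), (11, 30, 9), (29, 79, 9), (18, 49, 9), (7, 19, 9), (31, 84, 9), (17, 46, 9), (27, 73, 9), (10, 27, 10), (13, 35, 11), (29, 78, 11), (16, 43, 10), (19, 51, 10), (28, 75, 10), (3, 8, 9), (29, 77, 9), (26, 69, 9), (17, 45, 9), (31, 82, 9), (14, 37, 10), (11, 29, 11), (30, 79, 11), (19, 50, 11), (27, 71, 11), (8, 21, 10), (29, 76, 10), (13, 34, 10), (31, 81, 10), (18, 47, 9), (23, 60, 7), (28, 73, 7), (5, 13, 7), (27, 70, 7), (17, 44, 6), (29, 75, 6), (12, 31,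 7), (31, 80, 7), (19, 49, 6), (7, 18, 9), (30, 77, 9), (16, 41, 10), (9, 23, 10), (47, 120, 10), (29, 74, 10), (20, 51, 10), (31, 79, 10), (11, 28, 9), (13, 33, 10), (28, 71, 10), (15, 38, 10), (32, 81, 10), (17, 43, 10), (19, 48, 11), (29, 73, 11), (31, 78, 11), (2, 5, 11), (33, 82, 11), (31, 77, 11), (29, 72, 11), (19, 47, 11), (17, 42, 10), (32, 79, 10), (15, 37, 10), (28, 69, 10), (13, 32, 10), (11, 27, 11), (31, 76, 11), (20, 49, 10), (49, 120, 8), (29, 71, 8), (9, 22, 6), (16, 39, 6)]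

/-- cells -/
def u3C6 : List (ℕ × ℕ × ℕ) := [(30, 73, 6), (7, 17, 5), (33, 80, 5), (19, 46, 6), (31, 75, 6), (12, 29, 6), (29, 70, 6), (17, 41, 7), (32, 77, 7), (5, 12, 9), (33, 79, 9), (18, 43, 9), (31, 74, 9), (13, 31, 10), (34, 81, 10), (21, 50, 10), (29, 69, 10), (8, 19, 10), (19, 45, 10), (30, 71, 10), (11, 26, 9), (14, 33, 10), (31, 73, 10), (17, 40, 10), (20, 47, 10), (32, 75, 10), (35, 82, 10), (3, 7, 10), (34, 79, 10), (31, 72, 10), (22, 51, 10), (19, 44, 9), (35, 81, 9), (16, 37, 9), (13, 30, 6), (33, 76, 6), (10, 23, 7), (17, 39, 7), (31, 71, 7), (7, 16, 9), (32, 73, 9), (18, 41, 10), (11, 25, 10), (37, 84, 10), (15, 34, 10), (34, 77, 10), (53, 120, 7), (19, 43, 8), (31, 70, 8), (35, 79, 8), (4, 9, 11), (33, 74, 11), (21, 47, 11), (17, 38, 10), (13, 29, 11), (35, 78, 11), (22, 49, 11), (31, 69, 11), (9, 20, 9), (32, 71, 9), (23, 51, 9), (37, 82, 9), (14, 31, 10), (33,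 73, 10), (19, 42, 10), (34, 75, 10), (5, 11, 9), (36, 79, 9), (21, 46, 9), (37, 81, 9), (16, 35, 9), (11, 24, 9), (17, 37, 10), (23, 50, 10), (35, 76, 10), (6, 13, 10), (37, 80, 10), (19, 41, 10), (32, 69, 10), (13, 28, 10), (33, 71, 10), (20, 43, 10), (34, 73, 10), (7, 15, 7), (36, 77, 7), (22, 47, 7), (37, 79, 7), (15, 32, 7), (38, 81, 7), (23, 49, 6), (8, 17, 5), (33, 70, 5), (17, 36, 10), (35, 74, 10), (9, 19, 10), (37, 78, 10), (19, 40, 10), (39, 82, 10), (10, 21, 10), (21, 44, 9)]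

/-- cells -/
def u3C7 : List (ℕ × ℕ × ℕ) := [(11, 23, 9), (34, 71, 9), (23, 48, 9), (35, 73, 9), (12, 25, 9), (37, 77, 9), (38, 79, 9), (13, 27, 9), (14, 29, 9), (29, 60, 9), (15, 31, 9), (16, 33, 10), (17, 35, 11), (35, 72, 11), (18, 37, 12), (37, 76, 12), (19, 39, 13), (39, 80, 13), (20, 41, 14), (41, 84, 14), (21, 43, 13), (22, 45, 13), (23, 47, 13), (24, 49, 13), (25, 51, 13), (59, 120, 13), (34, 69, 13), (35, 71, 13), (36, 73, 13), (37, 75, 13), (38, 77, 13), (39, 79, 13), (40, 81, 13), (1, 2, 9), (41, 81, 9), (40, 79, 9), (39, 77, 9), (38, 75, 9), (37, 73, 9), (36, 71, 9), (35, 69, 9), (61, 120, 9), (26, 51, 9), (25, 49, 9), (24, 47, 9), (23, 45, 9), (22, 43, 9), (43, 84, 9), (21, 41, 9), (41, 80, 9), (20, 39, 9), (39, 76, 9), (19, 37, 9), (37, 72, 9), (18, 35, 9), (17, 33, 9), (16, 31, 9), (31, 60, 7), (15, 29, 8), (14, 27, 9), (41, 79, 9), (40, 77, 9), (13, 25, 10), (38,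 73, 10), (25, 48, 10), (37, 71, 10), (12, 23, 10), (23, 44, 10), (11, 21, 10), (43, 82, 10), (21, 40, 7), (41, 78, 7), (10, 19, 7), (39, 74, 7), (19, 36, 11), (37, 70, 11), (9, 17, 10), (26, 49, 10), (43, 81, 10), (17, 32, 10), (42, 79, 10), (25, 47, 10), (41, 77, 10), (8, 15, 10), (39, 73, 10), (23, 43, 10), (38, 71, 10), (15, 28, 10), (37, 69, 10), (22, 41, 10), (43, 80, 10), (7, 13, 10), (41, 76, 10), (27, 50, 10), (20, 37, 10), (13, 24, 8), (19, 35, 9), (44, 81, 9), (25, 46, 10), (43, 79, 10)]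

/-- cells -/
def u3C8 : List (ℕ × ℕ × ℕ) := [(6, 11, 10), (41, 75, 10), (23, 42, 9), (40, 73, 9), (17, 31, 10), (45, 82, 10), (28, 51, 10), (39, 71, 10), (11, 20, 6), (38, 69, 6), (27, 49, 6), (43, 78, 6), (16, 29, 6), (21, 38, 5), (26, 47, 5), (41, 74, 5), (5, 9, 10), (44, 79, 10), (39, 70, 10), (24, 43, 10), (67, 120, 10), (43, 77, 10), (19, 34, 9), (47, 84, 9), (14, 25, 10), (23, 41, 10), (41, 73, 10), (9, 16, 10), (40, 71, 10), (22, 39, 10), (13, 23, 10), (43, 76, 10), (17, 30, 9), (21, 37, 10), (46, 81, 10), (25, 44, 10), (29, 51, 10), (41, 72, 10), (45, 79, 10), (4, 7, 10), (47, 82, 10), (43, 75, 10), (27, 47, 9), (23, 40, 6), (42, 73, 6), (19, 33, 7), (15, 26, 7), (41, 71, 7), (26, 45, 6), (11, 19, 6), (40, 69, 6), (29, 50, 6), (47, 81, 6), (18, 31, 7), (43, 74, 7), (25, 43, 7), (46, 79, 7), (7, 12, 10), (45, 77, 10), (24, 41, 10), (41, 70, 10), (17, 29, 11), (44, 75, 11),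 (27, 46, 11), (47, 80, 11), (10, 17, 10), (43, 73, 10), (23, 39, 11), (13, 22, 10), (42, 71, 10), (71, 120, 10), (29, 49, 10), (45, 76, 10), (16, 27, 10), (19, 32, 10), (41, 69, 10), (22, 37, 11), (47, 79, 11), (25, 42, 11), (28, 47, 11), (43, 72, 11), (46, 77, 11), (49, 82, 11), (3, 5, 7), (47, 78, 7), (44, 73, 7), (29, 48, 7), (26, 43, 8), (49, 81, 8), (23, 38, 8), (43, 71, 8), (20, 33, 9), (17, 28, 9), (48, 79, 9), (31, 51, 9), (45, 74, 9), (73, 120, 6), (14, 23, 6), (25, 41, 7), (47, 77, 7)]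

/-- cells -/
def u3C9 : List (ℕ × ℕ × ℕ) := [(11, 18, 9), (30, 49, 9), (49, 80, 9), (19, 31, 10), (46, 75, 10), (27, 44, 10), (43, 70, 10), (8, 13, 10), (45, 73, 10), (37, 60, 10), (29, 47, 10), (50, 81, 10), (21, 34, 10), (47, 76, 10), (13, 21, 9), (44, 71, 9), (31, 50, 9), (49, 79, 9), (18, 29, 10), (23, 37, 11), (51, 82, 11), (28, 45, 11), (43, 69, 11), (48, 77, 11), (5, 8, 8), (47, 75, 8), (32, 51, 8), (27, 43, 8), (49, 78, 8), (22, 35, 9), (17, 27, 10), (46, 73, 10), (29, 46, 10), (53, 84, 10), (12, 19, 9), (31, 49, 9), (50, 79, 9), (19, 30, 7), (45, 71, 7), (26, 41, 7), (47, 74, 7), (7, 11, 7), (51, 80, 7), (44, 69, 7), (30, 47, 6), (23, 36, 9), (16, 25, 10), (25, 39, 10), (77, 120, 10), (52, 81, 10), (9, 14, 9), (47, 73, 9), (29, 45, 9), (49, 76, 9), (20, 31, 10), (51, 79, 10), (31, 48, 10), (53, 82, 10), (11, 17, 10), (46, 71, 10), (24, 37, 11), (50, 77, 11), (13, 20,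 9), (28, 43, 10), (15, 23, 11), (47, 72, 11), (32, 49, 11), (49, 75, 11), (17, 26, 10), (53, 81, 10), (55, 84, 10), (19, 29, 10), (21, 32, 10), (23, 35, 11), (48, 73, 11), (25, 38, 11), (52, 79, 11), (79, 120, 8), (27, 41, 8), (29, 44, 8), (31, 47, 8), (33, 50, 8), (47, 71, 8), (49, 74, 8), (51, 77, 8), (53, 80, 8), (2, 3, 11), (55, 82, 11), (53, 79, 11), (51, 76, 11), (49, 73, 11), (47, 70, 11), (33, 49, 11), (31, 46, 11), (29, 43, 11), (27, 40, 10), (52, 77, 10), (25, 37, 10), (48, 71, 10), (23, 34, 9)]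

/-- cells -/
def u3C10 : List (ℕ × ℕ × ℕ) := [(21, 31, 10), (19, 28, 10), (55, 81, 10), (53, 78, 10), (17, 25, 11), (49, 72, 11), (32, 47, 11), (47, 69, 11), (15, 22, 8), (28, 41, 8), (41, 60, 7), (54, 79, 7), (13, 19, 7), (50, 73, 7), (24, 35, 7), (35, 51, 6), (11, 16, 8), (53, 77, 8), (31, 45, 9), (51, 74, 9), (20, 29, 9), (49, 71, 9), (29, 42, 9), (56, 81, 9), (83, 120, 6), (9, 13, 6), (52, 75, 6), (34, 49, 5), (25, 36, 10), (57, 82, 10), (16, 23, 10), (55, 79, 10), (23, 33, 11), (53, 76, 11), (30, 43, 11), (51, 73, 11), (7, 10, 10), (54, 77, 10), (33, 47, 10), (59, 84, 10), (26, 37, 10), (19, 27, 11), (50, 71, 11), (31, 44, 10), (55, 78, 10), (12, 17, 9), (53, 75, 9), (29, 41, 9), (17, 24, 9), (56, 79, 9), (22, 31, 9), (49, 69, 9), (27, 38, 9), (32, 45, 10), (52, 73, 10), (57, 80, 10), (5, 7, 10), (58, 81, 10), (53, 74, 10), (43, 60, 7), (33, 46, 7), (28, 39, 7), (51, 71,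 7), (23, 32, 7), (59, 82, 7), (18, 25, 7), (31, 43, 7), (57, 79, 7), (13, 18, 10), (34, 47, 10), (55, 76, 10), (21, 29, 11), (50, 69, 11), (29, 40, 10), (37, 51, 10), (53, 73, 10), (61, 84, 10), (8, 11, 10), (59, 81, 10), (51, 70, 10), (35, 48, 10), (27, 37, 10), (19, 26, 10), (30, 41, 10), (52, 71, 10), (11, 15, 9), (58, 79, 9), (36, 49, 9), (25, 34, 9), (53, 72, 9), (14, 19, 9), (59, 80, 9), (31, 42, 9), (17, 23, 9), (54, 73, 9), (37, 50, 9), (57, 77, 9), (20, 27, 9), (89, 120, 6), (23, 31, 7)]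

/-- cells -/
def u3C11 : List (ℕ × ℕ × ℕ) := [(26, 35, 8), (55, 74, 8), (29, 39, 9), (61, 82, 9), (32, 43, 9), (35, 47, 9), (38, 51, 9), (53, 71, 9), (56, 75, 9), (59, 79, 9), (3, 4, 10), (61, 81, 10), (58, 77, 10), (55, 73, 10), (52, 69, 10), (37, 49, 10), (34, 45, 10), (31, 41, 10), (59, 78, 10), (28, 37, 10), (53, 70, 10), (25, 33, 10), (91, 120, 9), (22, 29, 10), (60, 79, 10), (19, 25, 11), (54, 71, 11), (35, 46, 11), (16, 21, 11), (61, 80, 11), (29, 38, 10), (55, 72, 10), (13, 17, 9), (62, 81, 9), (36, 47, 9), (59, 77, 9), (23, 30, 7), (56, 73, 7), (33, 43, 7), (53, 69, 7), (63, 82, 7), (10, 13, 7), (57, 74, 7), (37, 48, 9), (27, 35, 10), (61, 79, 10), (17, 22, 9), (58, 75, 9), (65, 84, 9), (24, 31, 10), (55, 71, 10), (31, 40, 6), (38, 49, 6), (59, 76, 6), (7, 9, 10), (60, 77, 10), (39, 50, 10), (32, 41, 10), (57, 73, 10), (25, 32, 9), (61, 78, 9), (18, 23, 10), (47, 60,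 10), (29, 37, 10), (40, 51, 10), (62, 79, 10), (11, 14, 9), (59, 75, 9), (37, 47, 9), (63, 80, 9), (26, 33, 10), (56, 71, 10), (15, 19, 10), (64, 81, 10), (34, 43, 9), (19, 24, 9), (61, 77, 9), (65, 82, 9), (23, 29, 9), (27, 34, 9), (58, 73, 9), (31, 39, 10), (35, 44, 10), (39, 49, 10), (55, 69, 10), (59, 74, 10), (63, 79, 10), (67, 84, 10), (4, 5, 7), (65, 81, 7), (61, 76, 7), (57, 71, 7), (41, 51, 6), (37, 46, 5), (33, 41, 6), (62, 77, 6), (29, 36, 9), (25, 31, 10), (21, 26, 10), (59, 73, 10)]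

/-- cells -/
def u3C12 : List (ℕ × ℕ × ℕ) := [(97, 120, 10), (38, 47, 10), (17, 21, 10), (64, 79, 10), (30, 37, 10), (56, 69, 10), (13, 16, 10), (61, 75, 10), (35, 43, 11), (57, 70, 11), (22, 27, 11), (31, 38, 10), (40, 49, 9), (49, 60, 9), (58, 71, 9), (67, 82, 9), (9, 11, 9), (59, 72, 9), (41, 50, 9), (32, 39, 9), (23, 28, 9), (60, 73, 9), (37, 45, 9), (65, 79, 9), (14, 17, 8), (61, 74, 8), (33, 40, 6), (19, 23, 7), (62, 75, 7), (67, 81, 7), (24, 29, 7), (29, 35, 8), (63, 76, 8), (34, 41, 9), (39, 47, 9), (59, 71, 9), (64, 77, 9), (5, 6, 9), (66, 79, 9), (61, 73, 9), (41, 49, 9), (36, 43, 9), (67, 80, 9), (31, 37, 9), (26, 31, 10), (68, 81, 10), (21, 25, 11), (58, 69, 11), (37, 44, 10), (69, 82, 10), (101, 120, 10), (16, 19, 9), (59, 70, 9), (43, 51, 9), (27, 32, 9), (65, 77, 9), (38, 45, 9), (60, 71, 9), (71, 84, 9), (11, 13, 9), (61, 72, 9), (39, 46, 9), (67, 79, 9), (28,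 33, 10), (62, 73, 10), (17, 20, 6), (40, 47, 6), (63, 74, 6), (23, 27, 7), (29, 34, 7), (64, 75, 7), (35, 41, 7), (41, 48, 10), (59, 69, 10), (65, 76, 10), (6, 7, 8), (103, 120, 7), (67, 78, 7), (61, 71, 7), (43, 50, 6), (37, 43, 6), (68, 79, 6), (31, 36, 10), (25, 29, 11), (69, 80, 11), (44, 51, 11), (63, 73, 11), (19, 22, 9), (70, 81, 9), (32, 37, 10), (71, 82, 10), (13, 15, 9), (33, 38, 9), (73, 84, 9), (20, 23, 9), (67, 77, 9), (27, 31, 10), (61, 70, 10), (34, 39, 11), (41, 47, 11)]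

/-- cells -/
def u3C13 : List (ℕ × ℕ × ℕ) := [(62, 71, 11), (69, 79, 11), (7, 8, 8), (71, 81, 8), (64, 73, 8), (43, 49, 8), (36, 41, 8), (65, 74, 8), (29, 33, 9), (22, 25, 10), (37, 42, 9), (67, 76, 9), (15, 17, 8), (68, 77, 8), (53, 60, 6), (38, 43, 7), (61, 69, 7), (23, 26, 6), (31, 35, 7), (70, 79, 7), (39, 44, 7), (63, 71, 7), (71, 80, 7), (8, 9, 11), (73, 82, 11), (65, 73, 11), (41, 46, 10), (107, 120, 10), (33, 37, 11), (25, 28, 11), (67, 75, 11), (42, 47, 10), (17, 19, 9), (43, 48, 10), (69, 77, 10), (26, 29, 10), (35, 39, 11), (44, 49, 11), (62, 69, 11), (71, 79, 11), (9, 10, 9), (73, 81, 9), (64, 71, 9), (46, 51, 9), (37, 41, 9), (65, 72, 9), (28, 31, 10), (66, 73, 10), (19, 21, 9), (67, 74, 9), (29, 32, 9), (68, 75, 9), (39, 43, 9), (69, 76, 9), (109, 120, 6), (10, 11, 6), (71, 78, 6), (41, 45, 6), (72, 79, 6), (31, 34, 6), (73, 80, 6), (21, 23, 7), (74, 81, 7), (32,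 35, 8), (75, 82, 8), (43, 47, 8), (65, 71, 8), (11, 12, 10), (67, 73, 10), (45, 49, 10), (34, 37, 10), (23, 25, 11), (35, 38, 10), (47, 51, 10), (71, 77, 10), (12, 13, 10), (73, 79, 10), (37, 40, 9), (25, 27, 10), (38, 41, 10), (64, 69, 10), (13, 14, 9), (66, 71, 9), (40, 43, 9), (67, 72, 9), (27, 29, 10), (68, 73, 10), (41, 44, 9), (69, 74, 9), (14, 15, 6), (71, 76, 6), (43, 46, 6), (72, 77, 6), (29, 31, 7), (73, 78, 7), (44, 47, 7), (74, 79, 7), (15, 16, 8), (76, 81, 8), (46, 49, 8)]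

/-- cells -/
def u3C14 : List (ℕ × ℕ × ℕ) := [(77, 82, 8), (31, 33, 9), (47, 50, 9), (79, 84, 9), (16, 17, 7), (113, 120, 6), (65, 69, 6), (33, 35, 7), (67, 71, 7), (17, 18, 11), (69, 73, 11), (35, 37, 12), (71, 75, 12), (18, 19, 12), (73, 77, 12), (37, 39, 13), (75, 79, 13), (19, 20, 10), (77, 81, 10), (39, 41, 11), (20, 21, 10), (41, 43, 9), (21, 22, 8), (43, 45, 9), (22, 23, 10), (67, 70, 10), (45, 47, 10), (68, 71, 10), (23, 24, 12), (70, 73, 12), (47, 49, 12), (71, 74, 12), (24, 25, 12), (73, 76, 12), (49, 51, 12), (74, 77, 12), (25, 26, 11), (76, 79, 11), (77, 80, 11), (26, 27, 11), (79, 82, 11), (27, 28, 10), (28, 29, 10), (29, 30, 6), (30, 31, 6), (31, 32, 5), (32, 33, 6), (33, 34, 6), (67, 69, 6), (34, 35, 7), (69, 71, 7), (35, 36, 12), (71, 73, 12), (36, 37, 13), (73, 75, 13), (37, 38, 13), (75, 77, 13), (38, 39, 14), (77, 79, 14), (39, 40, 12), (79, 81, 12), (40, 41,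 13), (41, 42, 12), (42, 43, 11), (43, 44, 11), (44, 45, 12), (45, 46, 13), (46, 47, 13), (47, 48, 16), (48, 49, 16), (49, 50, 16), (50, 51, 16), (59, 60, 16), (68, 69, 16), (69, 70, 16), (70, 71, 16), (71, 72, 16), (72, 73, 16), (73, 74, 16), (74, 75, 16), (75, 76, 16), (76, 77, 16), (77, 78, 16), (78, 79, 16), (79, 80, 16), (80, 81, 16), (81, 82, 16), (83, 84, 16), (119, 120, 13), (1, 1, 0)]

/-- all cells -/
def u3C : List (ℕ × ℕ × ℕ) := u3C0 ++ (u3C1 ++ (u3C2 ++ (u3C3 ++ (u3C4 ++ (u3C5 ++ (u3C6 ++ (u3C7 ++ (u3C8 ++ (u3C9 ++ (u3C10 ++ (u3C11 ++ (u3C12 ++ (u3C13 ++ (u3C14))))))))))))))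

theorem u3C0ok : cellsOK 3 120 36 38 u3dm (u3C0 ++ [(6, 71, 10)]) = true := by decide +kernel

theorem u3C1ok : cellsOK 3 120 36 38 u3dm (u3C1 ++ [(7, 47, 10)]) = true := by decide +kernel

theorem u3C2ok : cellsOK 3 120 36 38 u3dm (u3C2 ++ [(3, 14, 9)]) = true := by decide +kernel

theorem u3C3ok : cellsOK 3 120 36 38 u3dm (u3C3 ++ [(12, 43, 9)]) = true := by decide +kernel

theorem u3C4ok : cellsOK 3 120 36 38 u3dm (u3C4 ++ [(17, 49, 10)]) = true := by decide +kernel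

theorem u3C5ok : cellsOK 3 120 36 38 u3dm (u3C5 ++ [(30, 73, 6)]) = true := by decide +kernel

theorem u3C6ok : cellsOK 3 120 36 38 u3dm (u3C6 ++ [(11, 23, 9)]) = true := by decide +kernel

theorem u3C7ok : cellsOK 3 120 36 38 u3dm (u3C7 ++ [(6, 11, 10)]) = true := by decide +kernel

theorem u3C8ok : cellsOK 3 120 36 38 u3dm (u3C8 ++ [(11, 18, 9)]) = true := by decide +kernel

theorem u3C9ok : cellsOK 3 120 36 38 u3dm (u3C9 ++ [(21, 31, 10)]) = true := by decide +kernel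

theorem u3C10ok : cellsOK 3 120 36 38 u3dm (u3C10 ++ [(26, 35, 8)]) = true := by decide +kernel

theorem u3C11ok : cellsOK 3 120 36 38 u3dm (u3C11 ++ [(97, 120, 10)]) = true := by decide +kernel

theorem u3C12ok : cellsOK 3 120 36 38 u3dm (u3C12 ++ [(62, 71, 11)]) = true := by decide +kernel

theorem u3C13ok : cellsOK 3 120 36 38 u3dm (u3C13 ++ [(77, 82, 8)]) = true := by decide +kernel

theorem u3C14ok : cellsOK 3 120 36 38 u3dm u3C14 = true := by decide +kernel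

theorem u3Cok : cellsOK 3 120 36 38 u3dm u3C = true := by
  unfold u3C
  exact (cellsOK_app (6, 71, 10) _ _ u3C0ok (cellsOK_app (7, 47, 10) _ _ u3C1ok (cellsOK_app (3, 14, 9) _ _ u3C2ok (cellsOK_app (12, 43, 9) _ _ u3C3ok (cellsOK_app (17, 49, 10) _ _ u3C4ok (cellsOK_app (30, 73, 6) _ _ u3C5ok (cellsOK_app (11, 23, 9) _ _ u3C6ok (cellsOK_app (6, 11, 10) _ _ u3C7ok (cellsOK_app (11, 18, 9) _ _ u3C8ok (cellsOK_app (21, 31, 10) _ _ u3C9ok (cellsOK_app (26, 35, 8) _ _ u3C10ok (cellsOK_app (97, 120, 10) _ _ u3C11ok (cellsOK_app (62, 71, 11) _ _ u3C12ok (cellsOK_app (77, 82, 8) _ _ u3C13ok u3C14ok rfl) rfl) rfl) rfl) rfl) rfl) rfl) rfl) rfl) rfl) rfl) rfl) rfl) rfl)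

theorem u3Xok : realOK 3 120 36 1 410 u3dm (0 :: 7 :: [17, 35]) = true := by decide +kernel

theorem u3cert : CertU 3 8 120 36 38 u3dm ubdm u3C ubC 1 410 7 [17, 35] 3 3318 4 [7, 9, 11, 12, 13, 14, 15, 16, 17, 18, 19, 20, 21, 22, 23, 24, 25, 26, 27, 28, 29, 30, 32, 34, 36, 39, 42, 46, 51, 58, 68, 83, 108] 1000000 where
  hb := by norm_num
  hcD := by norm_num
  hcc := by norm_num
  hDD := by norm_num
  hdm := by decide +kernel
  hdmB := by decide +kernel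
  hDm := by decide +kernel
  hlen := by decide +kernel
  hev := by decide +kernel
  hevB := by decide +kernel
  hdeg := by decide +kernel
  hdegB := by decide +kernel
  hq := by norm_num
  hq' := by norm_num
  hX := u3Xok
  hX' := ubXok
  hC := u3Cok
  hCB := ubCok
  hsame := by decide +kernel
  hne := by decide +kernel
  hhead := by decide +kernel
  hpos := by decide +kernel
  hlast := by decide +kernel
  hneg := by decide +kernel
  hnegB := by decide +kernel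
  hSc := by norm_num

end Pool.Agent.H337R2
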