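import Pool.Agent.H337R2.UnB

/-!
# Certificate of a base
-/

namespace Pool.Agent.H337R2

/-- multiplicities -/
def u7dm : List (ℕ × ℕ) := [(38, 3), (39, 2), (40, 3), (41, 2), (42, 2), (43, 2), (44, 2), (45, 2), (46, 2), (47, 2), (48, 2), (49, 2), (50, 2), (51, 2)]

/-- cells -/
def u7C0 : List (ℕ × ℕ × ℕ) := [(1, 46, 9), (1, 45, 11), (1, 44, 12), (1, 43, 13), (1, 42, 12), (1, 41, 14), (2, 81, 14), (1, 40, 7), (2, 79, 7), (1, 39, 9), (2, 77, 9), (1, 38, 9), (2, 75, 9), (1, 37, 11), (2, 73, 11), (1, 36, 18), (2, 71, 18), (1, 35, 20), (2, 69, 20), (1, 34, 20), (1, 33, 22), (1, 32, 22), (1, 31, 24), (1, 30, 24), (1, 29, 26), (1, 28, 26), (3, 82, 26), (1, 27, 28), (3, 80, 28), (3, 79, 28), (1, 26, 28), (3, 77, 28), (2, 51, 28), (3, 76, 28), (1, 25, 30), (3, 74, 30), (2, 49, 30), (3, 73, 30), (1, 24, 23), (3, 71, 23), (2, 47, 23), (3, 70, 23), (1, 23, 23), (2, 45, 21), (1, 22, 15), (2, 43, 17), (1, 21, 16), (2,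 41, 18), (4, 81, 18), (1, 20, 12), (4, 79, 12), (2, 39, 12), (4, 77, 12), (1, 19, 12), (4, 75, 12), (2, 37, 13), (4, 73, 13), (1, 18, 24), (4, 71, 24), (2, 35, 24), (4, 69, 24), (7, 120, 20), (1, 17, 20), (5, 84, 20), (3, 50, 20), (2, 33, 22), (5, 82, 22), (3, 49, 22), (5, 81, 22), (1, 16, 22), (5, 79, 22), (3, 47, 22), (5, 78, 22), (2, 31, 24), (5, 77, 24), (3, 46, 24), (5, 76, 24), (1, 15, 23), (5, 74, 23), (3, 44, 21), (5, 73, 21), (2, 29, 23), (5, 72, 23), (3, 43, 23), (5, 71, 23), (1, 14, 22), (5, 69, 22), (3, 41, 24), (2, 27, 24), (3, 40, 16), (6, 79, 16), (1, 13, 16), (6, 77, 16), (4, 51, 14), (3, 38, 11), (2, 25, 13), (3, 37, 13), (4, 49, 13), (6, 73, 13), (1, 12, 24)]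

/-- cells -/
def u7C1 : List (ℕ × ℕ × ℕ) := [(6, 71, 24), (4, 47, 24), (7, 82, 24), (3, 35, 26), (7, 81, 26), (2, 23, 26), (7, 80, 26), (3, 34, 26), (7, 79, 26), (4, 45, 26), (7, 78, 26), (1, 11, 23), (11, 120, 23), (7, 76, 23), (4, 43, 23), (7, 75, 23), (3, 32, 23), (7, 74, 23), (2, 21, 22), (7, 73, 22), (3, 31, 24), (7, 72, 24), (4, 41, 26), (5, 51, 26), (7, 71, 26), (8, 81, 26), (1, 10, 16), (8, 79, 16), (7, 69, 16), (5, 49, 14), (4, 39, 14), (3, 29, 16), (8, 77, 16), (5, 48, 18), (2, 19, 18), (5, 47, 18), (8, 75, 18), (3, 28, 18), (4, 37, 18), (13, 120, 14), (5, 46, 14), (8, 73, 14), (9, 82, 14), (1, 9, 28), (9, 80, 28), (8, 71, 28), (5, 44, 25), (9, 79, 25), (4, 35, 25), (3, 26, 25), (8, 69, 25), (5, 43, 23), (7, 60, 21), (9, 77, 21), (2, 17, 21), (9, 76, 21), (5, 42, 20), (3, 25, 20), (4, 33, 22), (9, 74, 22), (5, 41, 24), (6, 49, 24), (9, 73, 24), (10, 81, 24), (1, 8, 20), (10, 79, 20), (9, 71, 20),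 (6, 47, 20), (5, 39, 20), (9, 70, 20), (4, 31, 22), (10, 77, 22), (3, 23, 23), (11, 84, 23), (5, 38, 20), (2, 15, 16), (11, 82, 16), (5, 37, 18), (11, 81, 18), (3, 22, 14), (10, 73, 14), (7, 51, 14), (11, 80, 14), (4, 29, 14), (5, 36, 23), (11, 79, 23), (6, 43, 23), (7, 50, 23), (10, 71, 23), (11, 78, 23), (17, 120, 23), (1, 7, 24), (11, 76, 24), (10, 69, 24), (7, 48, 24), (6, 41, 24), (11, 75, 24), (5, 34, 24), (4, 27, 26), (11, 74, 26)]

/-- cells -/
def u7C2 : List (ℕ × ℕ × ℕ) := [(7, 47, 24), (3, 20, 20), (11, 73, 20), (5, 33, 20), (12, 79, 20), (7, 46, 23), (11, 72, 23), (2, 13, 23), (13, 84, 23), (11, 71, 23), (7, 45, 23), (12, 77, 23), (5, 32, 21), (8, 51, 21), (11, 70, 21), (3, 19, 18), (19, 120, 16), (13, 82, 16), (7, 44, 14), (11, 69, 14), (4, 25, 14), (13, 81, 14), (5, 31, 16), (6, 37, 18), (13, 80, 18), (7, 43, 18), (8, 49, 18), (12, 73, 18), (13, 79, 18), (1, 6, 23), (13, 77, 23), (12, 71, 23),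 (8, 47, 23), (7, 41, 23), (13, 76, 23), (6, 35, 24), (5, 29, 26), (14, 81, 26), (13, 75, 26), (4, 23, 26), (7, 40, 21), (13, 74, 21), (3, 17, 21), (14, 79, 21), (8, 45, 23), (13, 73, 23), (5, 28, 21), (7, 39, 21), (9, 50, 21), (13, 72, 21), (2, 11, 21), (15, 82, 21), (13, 71, 21), (11, 60, 16), (9, 49, 16), (7, 38, 14), (5, 27, 16), (13, 70, 16), (8, 43, 16), (14, 75, 16), (3, 16, 21), (13, 69, 21), (7, 37, 23), (15, 79, 23), (4, 21, 21), (9, 47, 19), (23, 120, 16), (14, 73, 16), (5, 26, 14), (6, 31, 14), (7, 36, 24), (15, 77, 24), (8, 41, 26), (9, 46, 26), (10, 51, 26), (14, 71, 26), (15, 76, 26), (16, 81, 26), (1, 5, 25), (17, 84, 25), (16, 79, 25), (15, 74, 25), (14, 69, 25), (10, 49, 23), (9, 44, 20), (8, 39, 21), (15, 73, 21), (7, 34, 21), (6, 29, 23), (17, 82, 23), (16, 77, 23), (5, 24, 19), (9, 43, 21), (17, 81, 21), (4, 19, 21), (15, 71, 21), (7, 33, 23), (17, 80, 23), (10, 47, 23), (16, 75, 23)]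

/-- cells -/
def u7C3 : List (ℕ × ℕ × ℕ) := [(3, 14, 21), (17, 79, 21), (11, 51, 21), (8, 37, 21), (13, 60, 16), (5, 23, 17), (17, 78, 17), (7, 32, 17), (16, 73, 17), (9, 41, 17), (11, 50, 17), (17, 77, 17), (2, 9, 24), (17, 76, 24), (11, 49, 24), (9, 40, 21), (16, 71, 21), (7, 31, 23), (19, 84, 23), (17, 75, 23), (5, 22, 21), (18, 79, 21), (8, 35, 23), (11, 48, 23), (17, 74, 23), (3, 13, 23), (19, 82, 23), (16, 69, 23), (10, 43, 23), (17, 73, 23), (7, 30, 21), (18, 77, 21), (11, 47, 21), (19, 81, 21), (4, 17, 21), (17, 72, 21), (9, 38, 21), (19, 80, 21), (5, 21, 19), (11, 46, 19), (17, 71, 19), (6, 25, 19), (19, 79, 19), (7, 29, 19), (29, 120, 15), (8, 33, 17), (17, 70, 17), (9, 37, 19), (19, 78, 19), (10, 41, 21), (11, 45, 23), (12, 49, 23), (17, 69, 23), (18, 73, 23), (19, 77, 23), (20, 81, 23), (1, 4, 21), (20, 79, 21), (19, 75, 21), (18, 71, 21), (13, 51, 21), (12, 47, 21), (11, 43, 21), (21, 82, 21),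 (10, 39, 21), (19, 74, 21), (9, 35, 21), (8, 31, 23), (31, 120, 23), (7, 27, 25), (20, 77, 25), (13, 50, 25), (19, 73, 25), (6, 23, 27), (11, 42, 25), (21, 80, 25), (5, 19, 23), (19, 72, 23), (9, 34, 21), (13, 49, 21), (21, 79, 21), (4, 15, 17), (19, 71, 17), (11, 41, 19), (7, 26, 17), (10, 37, 19), (13, 48, 23), (19, 70, 23), (22, 81, 23), (3, 11, 23), (23, 84, 23), (20, 73, 23), (14, 51, 21), (11, 40, 13), (19, 69, 13), (8, 29, 15), (21, 76, 15), (13, 47, 13), (5, 18, 21), (22, 79, 21)]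

/-- cells -/
def u7C4 : List (ℕ × ℕ × ℕ) := [(12, 43, 21), (7, 25, 23), (23, 82, 23), (9, 32, 23), (20, 71, 23), (11, 39, 23), (13, 46, 23), (17, 60, 23), (21, 74, 23), (23, 81, 23), (2, 7, 24), (23, 80, 24), (21, 73, 24), (13, 45, 23), (11, 38, 21), (20, 69, 21), (9, 31, 23), (23, 79, 23), (7, 24, 19), (12, 41, 21), (22, 75, 21), (5, 17, 21), (23, 78, 21), (13, 44, 21), (21, 71, 21), (8, 27, 21), (11, 37, 23), (25, 84, 23), (14, 47, 23), (23, 77, 23), (3, 10, 11), (22, 73, 11), (13, 43, 11), (23, 76, 11), (10, 33, 13), (24, 79, 13), (7, 23, 16), (25, 82, 16), (11, 36, 23), (15, 49, 23), (23, 75, 23), (4, 13, 23), (37, 120, 23), (25, 81, 23), (13, 42, 22), (22, 71, 22), (9, 29, 24), (23, 74, 24), (14, 45, 24), (24, 77, 24), (5, 16, 22), (16, 51, 22), (11, 35, 24), (23, 73, 24), (6, 19, 23), (25, 79, 23), (19, 60, 23), (13, 41, 25), (7, 22, 23), (22, 69, 23), (15, 47, 23), (23, 72, 23), (8, 25, 23), (25,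 78, 23), (26, 81, 23), (9, 28, 21), (10, 31, 23), (11, 34, 23), (23, 71, 23), (12, 37, 25), (25, 77, 25), (13, 40, 15), (14, 43, 17), (15, 46, 20), (16, 49, 20), (23, 70, 20), (24, 73, 20), (25, 76, 20), (26, 79, 20), (27, 82, 20), (1, 3, 27), (27, 80, 27), (26, 77, 27), (25, 74, 27), (24, 71, 27), (17, 50, 27), (16, 47, 27), (15, 44, 24), (14, 41, 24), (41, 120, 24), (27, 79, 24), (13, 38, 22), (25, 73, 22), (12, 35, 22), (11, 32, 21), (10, 29, 23), (29, 84, 23), (28, 81, 23), (9, 26, 23), (26, 75, 23)]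

/-- cells -/
def u7C5 : List (ℕ × ℕ × ℕ) := [(17, 49, 23), (25, 72, 23), (8, 23, 23), (15, 43, 21), (7, 20, 15), (27, 77, 15), (13, 37, 15), (25, 71, 15), (6, 17, 14), (29, 82, 14), (17, 48, 21), (28, 79, 21), (11, 31, 21), (27, 76, 21), (16, 45, 23), (26, 73, 23), (5, 14, 21), (29, 81, 21), (43, 120, 14), (14, 39, 14), (9, 25, 14), (13, 36, 24), (17, 47, 24), (25, 69, 24), (29, 80, 24), (4, 11, 24), (27, 74, 24), (15, 41, 24), (26, 71, 24), (11, 30, 21), (29, 79, 21), (18, 49, 21), (7, 19, 21), (31, 84, 21), (17, 46, 21), (27, 73, 21), (10, 27, 23), (13, 35, 25), (29, 78, 25), (16, 43, 23), (19, 51, 23), (28, 75, 23), (3, 8, 21), (29, 77, 21), (26, 69, 21), (17, 45, 21), (31, 82, 21), (14, 37, 23), (11, 29, 25), (30, 79, 25), (19, 50, 25), (27, 71, 25), (8, 21, 23), (29, 76, 23), (13, 34, 23), (31, 81, 23), (18, 47, 21), (23, 60, 16), (28, 73, 16), (5, 13, 16), (27, 70, 16), (17, 44, 14), (29, 75, 14),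 (12, 31, 16), (31, 80, 16), (19, 49, 14), (7, 18, 22), (30, 77, 22), (16, 41, 23), (9, 23, 24), (47, 120, 24), (29, 74, 24), (20, 51, 24), (31, 79, 24), (11, 28, 22), (13, 33, 24), (28, 71, 24), (15, 38, 23), (32, 81, 23), (17, 43, 23), (19, 48, 26), (29, 73, 26), (31, 78, 26), (2, 5, 25), (33, 82, 25), (31, 77, 25), (29, 72, 25), (19, 47, 25), (17, 42, 23), (32, 79, 23), (15, 37, 23), (28, 69, 23), (13, 32, 23), (11, 27, 25), (31, 76, 25), (20, 49, 23), (49, 120, 18), (29, 71, 18), (9, 22, 13), (16, 39, 13)]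

/-- cells -/
def u7C6 : List (ℕ × ℕ × ℕ) := [(30, 73, 13), (7, 17, 12), (33, 80, 12), (19, 46, 15), (31, 75, 15), (12, 29, 15), (29, 70, 15), (17, 41, 17), (32, 77, 17), (5, 12, 22), (33, 79, 22), (18, 43, 22), (31, 74, 22), (13, 31, 24), (34, 81, 24), (21, 50, 24), (29, 69, 24), (8, 19, 24), (19, 45, 24), (30, 71, 24), (11, 26, 22), (14, 33, 24), (31, 73, 24), (17, 40, 23), (20, 47, 23), (32, 75, 23), (35, 82, 23), (3, 7, 23), (34, 79, 23), (31, 72, 23), (22, 51, 23), (19, 44, 20), (35, 81, 20), (16, 37, 20), (13, 30, 14), (33, 76, 14), (10, 23, 16), (17, 39, 17), (31, 71, 17), (7, 16, 22), (32, 73, 22), (18, 41, 24), (11, 25, 24), (37, 84, 24), (15, 34, 24), (34, 77, 24), (53, 120, 17), (19, 43, 19), (31, 70, 19), (35, 79, 19), (4, 9, 26), (33, 74, 26), (21, 47, 26), (17, 38, 24), (13, 29, 26), (35, 78, 26), (22, 49, 26), (31, 69, 26), (9, 20, 21), (32, 71, 21), (23, 51, 21), (37, 82, 21), (14, 31, 23),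 (33, 73, 23), (19, 42, 23), (34, 75, 23), (5, 11, 20), (36, 79, 20), (21, 46, 20), (37, 81, 20), (16, 35, 20), (11, 24, 22), (17, 37, 24), (23, 50, 24), (35, 76, 24), (6, 13, 24), (37, 80, 24), (19, 41, 24), (32, 69, 24), (13, 28, 24), (33, 71, 24), (20, 43, 24), (34, 73, 24), (7, 15, 17), (36, 77, 17), (22, 47, 17), (37, 79, 17), (15, 32, 17), (38, 81, 17), (23, 49, 15), (8, 17, 13), (33, 70, 13), (17, 36, 24), (35, 74, 24), (9, 19, 24), (37, 78, 24), (19, 40, 23), (39, 82, 23), (10, 21, 23), (21, 44, 20)]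

/-- cells -/
def u7C7 : List (ℕ × ℕ × ℕ) := [(11, 23, 20), (34, 71, 20), (23, 48, 22), (35, 73, 22), (12, 25, 22), (37, 77, 22), (38, 79, 22), (13, 27, 22), (14, 29, 22), (29, 60, 22), (15, 31, 22), (16, 33, 24), (17, 35, 26), (35, 72, 26), (18, 37, 28), (37, 76, 28), (19, 39, 30), (39, 80, 30), (20, 41, 32), (41, 84, 32), (21, 43, 30), (22, 45, 29), (23, 47, 29), (24, 49, 29), (25, 51, 29), (59, 120, 29), (34, 69, 29), (35, 71, 29), (36, 73, 29), (37, 75, 29), (38, 77, 29), (39, 79, 29), (40, 81, 29), (1, 2, 22), (41, 81, 22), (40, 79, 22), (39, 77, 22), (38, 75, 22), (37, 73, 22), (36, 71, 22), (35, 69, 22), (61, 120, 22), (26, 51, 22), (25, 49, 22), (24, 47, 22), (23, 45, 22), (22, 43, 22), (43, 84, 22), (21, 41, 22), (41, 80, 22), (20, 39, 22), (39, 76, 22), (19, 37, 22), (37, 72, 22), (18, 35, 22), (17, 33, 22), (16, 31, 22), (31, 60, 17), (15, 29, 19), (14, 27, 21), (41, 79, 21), (40, 77, 21), (13,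 25, 23), (38, 73, 23), (25, 48, 23), (37, 71, 23), (12, 23, 23), (23, 44, 23), (11, 21, 24), (43, 82, 24), (21, 40, 16), (41, 78, 16), (10, 19, 15), (39, 74, 15), (19, 36, 24), (37, 70, 24), (9, 17, 24), (26, 49, 24), (43, 81, 24), (17, 32, 24), (42, 79, 24), (25, 47, 24), (41, 77, 24), (8, 15, 24), (39, 73, 24), (23, 43, 24), (38, 71, 24), (15, 28, 24), (37, 69, 24), (22, 41, 24), (43, 80, 24), (7, 13, 24), (41, 76, 24), (27, 50, 24), (20, 37, 24), (13, 24, 18), (19, 35, 20), (44, 81, 20), (25, 46, 23), (43, 79, 23)]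

/-- cells -/
def u7C8 : List (ℕ × ℕ × ℕ) := [(6, 11, 23), (41, 75, 23), (23, 42, 22), (40, 73, 22), (17, 31, 24), (45, 82, 24), (28, 51, 24), (39, 71, 24), (11, 20, 14), (38, 69, 14), (27, 49, 14), (43, 78, 14), (16, 29, 14), (21, 38, 11), (26, 47, 11), (41, 74, 11), (5, 9, 24), (44, 79, 24), (39, 70, 24), (24, 43, 24), (67, 120, 24), (43, 77, 24), (19, 34, 22), (47, 84, 22), (14, 25, 24), (23, 41, 24), (41, 73, 24), (9, 16, 24), (40, 71, 24), (22, 39, 24), (13, 23, 24), (43, 76, 24), (17, 30, 21), (21, 37, 23), (46, 81, 23), (25, 44, 23), (29, 51, 23), (41, 72, 23), (45, 79, 23), (4, 7, 24), (47, 82, 24), (43, 75, 24), (27, 47, 22), (23, 40, 14), (42, 73, 14), (19, 33, 16), (15, 26, 16), (41, 71, 16), (26, 45, 14), (11, 19, 13), (40, 69, 13), (29, 50, 13), (47, 81, 13), (18, 31, 15), (43, 74, 15), (25, 43, 15), (46, 79, 15), (7, 12, 23), (45, 77, 23), (24, 41, 24), (41, 70, 24), (17, 29, 26), (44, 75,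 26), (27, 46, 26), (47, 80, 26), (10, 17, 24), (43, 73, 24), (23, 39, 25), (13, 22, 23), (42, 71, 23), (71, 120, 23), (29, 49, 23), (45, 76, 23), (16, 27, 23), (19, 32, 23), (41, 69, 23), (22, 37, 25), (47, 79, 25), (25, 42, 26), (28, 47, 26), (43, 72, 26), (46, 77, 26), (49, 82, 26), (3, 5, 16), (47, 78, 16), (44, 73, 16), (29, 48, 16), (26, 43, 18), (49, 81, 18), (23, 38, 18), (43, 71, 18), (20, 33, 20), (17, 28, 20), (48, 79, 20), (31, 51, 20), (45, 74, 20), (73, 120, 13), (14, 23, 14), (25, 41, 16), (47, 77, 16)]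

/-- cells -/
def u7C9 : List (ℕ × ℕ × ℕ) := [(11, 18, 22), (30, 49, 22), (49, 80, 22), (19, 31, 24), (46, 75, 24), (27, 44, 23), (43, 70, 23), (8, 13, 23), (45, 73, 23), (37, 60, 23), (29, 47, 23), (50, 81, 23), (21, 34, 23), (47, 76, 23), (13, 21, 22), (44, 71, 22), (31, 50, 22), (49, 79, 22), (18, 29, 24), (23, 37, 26), (51, 82, 26), (28, 45, 26), (43, 69, 26), (48, 77, 26), (5, 8, 18), (47, 75, 18), (32, 51, 18), (27, 43, 18), (49, 78, 18), (22, 35, 20), (17, 27, 22), (46, 73, 22), (29, 46, 23), (53, 84, 23), (12, 19, 20), (31, 49, 20), (50, 79, 20), (19, 30, 16), (45, 71, 16), (26, 41, 16), (47, 74, 16), (7, 11, 16), (51, 80, 16), (44, 69, 16), (30, 47, 14), (23, 36, 21), (16, 25, 23), (25, 39, 23), (77, 120, 23), (52, 81, 23), (9, 14, 22), (47, 73, 22), (29, 45, 22), (49, 76, 22), (20, 31, 24), (51, 79, 24), (31, 48, 24), (53, 82, 24), (11, 17, 24), (46, 71, 24), (24, 37, 26), (50, 77, 26), (13, 20,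 20), (28, 43, 22), (15, 23, 25), (47, 72, 25), (32, 49, 25), (49, 75, 25), (17, 26, 23), (53, 81, 23), (55, 84, 23), (19, 29, 23), (21, 32, 23), (23, 35, 25), (48, 73, 25), (25, 38, 24), (52, 79, 24), (79, 120, 18), (27, 41, 18), (29, 44, 18), (31, 47, 18), (33, 50, 18), (47, 71, 18), (49, 74, 18), (51, 77, 18), (53, 80, 18), (2, 3, 26), (55, 82, 26), (53, 79, 26), (51, 76, 26), (49, 73, 26), (47, 70, 26), (33, 49, 25), (31, 46, 25), (29, 43, 25), (27, 40, 22), (52, 77, 22), (25, 37, 22), (48, 71, 22), (23, 34, 21)]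

/-- cells -/
def u7C10 : List (ℕ × ℕ × ℕ) := [(21, 31, 23), (19, 28, 23), (55, 81, 23), (53, 78, 23), (17, 25, 25), (49, 72, 25), (32, 47, 25), (47, 69, 25), (15, 22, 19), (28, 41, 19), (41, 60, 15), (54, 79, 15), (13, 19, 15), (50, 73, 15), (24, 35, 15), (35, 51, 14), (11, 16, 19), (53, 77, 19), (31, 45, 21), (51, 74, 21), (20, 29, 21), (49, 71, 21), (29, 42, 21), (56, 81, 21), (83, 120, 14), (9, 13, 14), (52, 75, 14), (34, 49, 12), (25, 36, 24), (57, 82, 24), (16, 23, 24), (55, 79, 24), (23, 33, 26), (53, 76, 26), (30, 43, 26), (51, 73, 26), (7, 10, 23), (54, 77, 23), (33, 47, 23), (59, 84, 23), (26, 37, 23), (19, 27, 25), (50, 71, 25), (31, 44, 22), (55, 78, 22), (12, 17, 21), (53, 75, 21), (29, 41, 21), (17, 24, 21), (56, 79, 21), (22, 31, 21), (49, 69, 21), (27, 38, 21), (32, 45, 23), (52, 73, 23), (57, 80, 23), (5, 7, 23), (58, 81, 23), (53, 74, 23), (43, 60, 16), (33, 46, 16), (28, 39, 17), (51,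 71, 17), (23, 32, 17), (59, 82, 17), (18, 25, 17), (31, 43, 17), (57, 79, 17), (13, 18, 24), (34, 47, 24), (55, 76, 24), (21, 29, 26), (50, 69, 26), (29, 40, 23), (37, 51, 23), (53, 73, 23), (61, 84, 23), (8, 11, 23), (59, 81, 23), (51, 70, 23), (35, 48, 23), (27, 37, 23), (19, 26, 23), (30, 41, 23), (52, 71, 23), (11, 15, 21), (58, 79, 21), (36, 49, 21), (25, 34, 21), (53, 72, 21), (14, 19, 21), (59, 80, 21), (31, 42, 21), (17, 23, 21), (54, 73, 21), (37, 50, 21), (57, 77, 21), (20, 27, 21), (89, 120, 15), (23, 31, 17)]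

/-- cells -/
def u7C11 : List (ℕ × ℕ × ℕ) := [(26, 35, 19), (55, 74, 19), (29, 39, 21), (61, 82, 21), (32, 43, 21), (35, 47, 21), (38, 51, 21), (53, 71, 21), (56, 75, 21), (59, 79, 21), (3, 4, 23), (61, 81, 23), (58, 77, 23), (55, 73, 23), (52, 69, 23), (37, 49, 23), (34, 45, 23), (31, 41, 23), (59, 78, 23), (28, 37, 23), (53, 70, 23), (25, 33, 23), (91, 120, 21), (22, 29, 23), (60, 79, 23), (19, 25, 25), (54, 71, 25), (35, 46, 25), (16, 21, 25), (61, 80, 25), (29, 38, 23), (55, 72, 23), (13, 17, 21), (62, 81, 21), (36, 47, 21), (59, 77, 21), (23, 30, 17), (56, 73, 17), (33, 43, 17), (53, 69, 17), (63, 82, 17), (10, 13, 17), (57, 74, 17), (37, 48, 21), (27, 35, 23), (61, 79, 23), (17, 22, 21), (58, 75, 21), (65, 84, 21), (24, 31, 23), (55, 71, 23), (31, 40, 13), (38, 49, 13), (59, 76, 13), (7, 9, 23), (60, 77, 23), (39, 50, 23), (32, 41, 23), (57, 73, 23), (25, 32, 21), (61, 78, 21), (18, 23, 23), (47,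 60, 23), (29, 37, 23), (40, 51, 23), (62, 79, 23), (11, 14, 22), (59, 75, 22), (37, 47, 22), (63, 80, 22), (26, 33, 24), (56, 71, 24), (15, 19, 23), (64, 81, 23), (34, 43, 21), (19, 24, 21), (61, 77, 21), (65, 82, 21), (23, 29, 21), (27, 34, 21), (58, 73, 21), (31, 39, 23), (35, 44, 23), (39, 49, 23), (55, 69, 23), (59, 74, 23), (63, 79, 23), (67, 84, 23), (4, 5, 15), (65, 81, 15), (61, 76, 15), (57, 71, 15), (41, 51, 13), (37, 46, 12), (33, 41, 14), (62, 77, 14), (29, 36, 21), (25, 31, 23), (21, 26, 23), (59, 73, 23)]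

/-- cells -/
def u7C12 : List (ℕ × ℕ × ℕ) := [(97, 120, 23), (38, 47, 23), (17, 21, 23), (64, 79, 23), (30, 37, 24), (56, 69, 24), (13, 16, 24), (61, 75, 24), (35, 43, 26), (57, 70, 26), (22, 27, 26), (31, 38, 23), (40, 49, 21), (49, 60, 21), (58, 71, 21), (67, 82, 21), (9, 11, 21), (59, 72, 21), (41, 50, 21), (32, 39, 21), (23, 28, 21), (60, 73, 21), (37, 45, 21), (65, 79, 21), (14, 17, 19), (61, 74, 19), (33, 40, 13), (19, 23, 16), (62, 75, 16), (67, 81, 16), (24, 29, 16), (29, 35, 18), (63, 76, 18), (34, 41, 20), (39, 47, 20), (59, 71, 20), (64, 77, 20), (5, 6, 22), (66, 79, 22), (61, 73, 22), (41, 49, 22), (36, 43, 22), (67, 80, 22), (31, 37, 22), (26, 31, 24), (68, 81, 24), (21, 25, 26), (58, 69, 26), (37, 44, 24), (69, 82, 24), (101, 120, 22), (16, 19, 21), (59, 70, 21), (43, 51, 21), (27, 32, 21), (65, 77, 21), (38, 45, 21), (60, 71, 21), (71, 84, 21), (11, 13, 21), (61, 72, 21), (39, 46, 21), (67,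 79, 21), (28, 33, 23), (62, 73, 23), (17, 20, 14), (40, 47, 14), (63, 74, 14), (23, 27, 16), (29, 34, 16), (64, 75, 16), (35, 41, 16), (41, 48, 23), (59, 69, 23), (65, 76, 23), (6, 7, 19), (103, 120, 16), (67, 78, 16), (61, 71, 16), (43, 50, 14), (37, 43, 14), (68, 79, 14), (31, 36, 24), (25, 29, 26), (69, 80, 26), (44, 51, 26), (63, 73, 26), (19, 22, 22), (70, 81, 22), (32, 37, 24), (71, 82, 24), (13, 15, 21), (33, 38, 21), (73, 84, 21), (20, 23, 21), (67, 77, 21), (27, 31, 23), (61, 70, 23), (34, 39, 25), (41, 47, 25)]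

/-- cells -/
def u7C13 : List (ℕ × ℕ × ℕ) := [(62, 71, 25), (69, 79, 25), (7, 8, 19), (71, 81, 19), (64, 73, 19), (43, 49, 19), (36, 41, 19), (65, 74, 19), (29, 33, 21), (22, 25, 23), (37, 42, 21), (67, 76, 21), (15, 17, 19), (68, 77, 19), (53, 60, 14), (38, 43, 16), (61, 69, 16), (23, 26, 14), (31, 35, 16), (70, 79, 16), (39, 44, 16), (63, 71, 16), (71, 80, 16), (8, 9, 26), (73, 82, 26), (65, 73, 26), (41, 46, 24), (107, 120, 24), (33, 37, 26), (25, 28, 26), (67, 75, 26), (42, 47, 24), (17, 19, 21), (43, 48, 24), (69, 77, 24), (26, 29, 24), (35, 39, 26), (44, 49, 26), (62, 69, 26), (71, 79, 26), (9, 10, 21), (73, 81, 21), (64, 71, 21), (46, 51, 21), (37, 41, 21), (65, 72, 21), (28, 31, 23), (66, 73, 23), (19, 21, 21), (67, 74, 21), (29, 32, 21), (68, 75, 21), (39, 43, 21), (69, 76, 21), (109, 120, 14), (10, 11, 14), (71, 78, 14), (41, 45, 14), (72, 79, 14), (31, 34, 14), (73, 80, 14), (21, 23, 17), (74,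 81, 17), (32, 35, 19), (75, 82, 19), (43, 47, 19), (65, 71, 19), (11, 12, 24), (67, 73, 24), (45, 49, 24), (34, 37, 24), (23, 25, 26), (35, 38, 24), (47, 51, 24), (71, 77, 24), (12, 13, 24), (73, 79, 24), (37, 40, 21), (25, 27, 23), (38, 41, 23), (64, 69, 23), (13, 14, 21), (66, 71, 21), (40, 43, 21), (67, 72, 21), (27, 29, 23), (68, 73, 23), (41, 44, 20), (69, 74, 20), (14, 15, 14), (71, 76, 14), (43, 46, 15), (72, 77, 15), (29, 31, 17), (73, 78, 17), (44, 47, 17), (74, 79, 17), (15, 16, 20), (76, 81, 20), (46, 49, 20)]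

/-- cells -/
def u7C14 : List (ℕ × ℕ × ℕ) := [(77, 82, 20), (31, 33, 22), (47, 50, 22), (79, 84, 22), (16, 17, 18), (113, 120, 15), (65, 69, 15), (33, 35, 17), (67, 71, 17), (17, 18, 26), (69, 73, 26), (35, 37, 28), (71, 75, 28), (18, 19, 27), (73, 77, 27), (37, 39, 29), (75, 79, 29), (19, 20, 23), (77, 81, 23), (39, 41, 25), (20, 21, 23), (41, 43, 21), (21, 22, 18), (43, 45, 20), (22, 23, 23), (67, 70, 23), (45, 47, 23), (68, 71, 23), (23, 24, 28), (70, 73, 28), (47, 49, 28), (71, 74, 28), (24, 25, 28), (73, 76, 28), (49, 51, 28), (74, 77, 28), (25, 26, 26), (76, 79, 26), (77, 80, 26), (26, 27, 26), (79, 82, 26), (27, 28, 24), (28, 29, 24), (29, 30, 15), (30, 31, 15), (31, 32, 13), (32, 33, 15), (33, 34, 15), (67, 69, 15), (34, 35, 17), (69, 71, 17), (35, 36, 28), (71, 73, 28), (36, 37, 30), (73, 75, 30), (37, 38, 29), (75, 77, 29), (38, 39, 31), (77, 79, 31), (39, 40, 27), (79, 81, 27), (40, 41, 29),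 (41, 42, 27), (42, 43, 25), (43, 44, 24), (44, 45, 26), (45, 46, 29), (46, 47, 29), (47, 48, 36), (48, 49, 36), (49, 50, 36), (50, 51, 36), (59, 60, 36), (68, 69, 36), (69, 70, 36), (70, 71, 36), (71, 72, 36), (72, 73, 36), (73, 74, 36), (74, 75, 36), (75, 76, 36), (76, 77, 36), (77, 78, 36), (78, 79, 36), (79, 80, 36), (80, 81, 36), (81, 82, 36), (83, 84, 36), (119, 120, 29), (1, 1, 0)]

/-- all cells -/
def u7C : List (ℕ × ℕ × ℕ) := u7C0 ++ (u7C1 ++ (u7C2 ++ (u7C3 ++ (u7C4 ++ (u7C5 ++ (u7C6 ++ (u7C7 ++ (u7C8 ++ (u7C9 ++ (u7C10 ++ (u7C11 ++ (u7C12 ++ (u7C13 ++ (u7C14))))))))))))))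

theorem u7C0ok : cellsOK 7 120 36 38 u7dm (u7C0 ++ [(6, 71, 24)]) = true := by decide +kernel

theorem u7C1ok : cellsOK 7 120 36 38 u7dm (u7C1 ++ [(7, 47, 24)]) = true := by decide +kernel

theorem u7C2ok : cellsOK 7 120 36 38 u7dm (u7C2 ++ [(3, 14, 21)]) = true := by decide +kernel

theorem u7C3ok : cellsOK 7 120 36 38 u7dm (u7C3 ++ [(12, 43, 21)]) = true := by decide +kernel

theorem u7C4ok : cellsOK 7 120 36 38 u7dm (u7C4 ++ [(17, 49, 23)]) = true := by decide +kernel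

theorem u7C5ok : cellsOK 7 120 36 38 u7dm (u7C5 ++ [(30, 73, 13)]) = true := by decide +kernel

theorem u7C6ok : cellsOK 7 120 36 38 u7dm (u7C6 ++ [(11, 23, 20)]) = true := by decide +kernel

theorem u7C7ok : cellsOK 7 120 36 38 u7dm (u7C7 ++ [(6, 11, 23)]) = true := by decide +kernel

theorem u7C8ok : cellsOK 7 120 36 38 u7dm (u7C8 ++ [(11, 18, 22)]) = true := by decide +kernel

theorem u7C9ok : cellsOK 7 120 36 38 u7dm (u7C9 ++ [(21, 31, 23)]) = true := by decide +kernel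

theorem u7C10ok : cellsOK 7 120 36 38 u7dm (u7C10 ++ [(26, 35, 19)]) = true := by decide +kernel

theorem u7C11ok : cellsOK 7 120 36 38 u7dm (u7C11 ++ [(97, 120, 23)]) = true := by decide +kernel

theorem u7C12ok : cellsOK 7 120 36 38 u7dm (u7C12 ++ [(62, 71, 25)]) = true := by decide +kernel

theorem u7C13ok : cellsOK 7 120 36 38 u7dm (u7C13 ++ [(77, 82, 20)]) = true := by decide +kernel

theorem u7C14ok : cellsOK 7 120 36 38 u7dm u7C14 = true := by decide +kernel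

theorem u7Cok : cellsOK 7 120 36 38 u7dm u7C = true := by
  unfold u7C
  exact (cellsOK_app (6, 71, 24) _ _ u7C0ok (cellsOK_app (7, 47, 24) _ _ u7C1ok (cellsOK_app (3, 14, 21) _ _ u7C2ok (cellsOK_app (12, 43, 21) _ _ u7C3ok (cellsOK_app (17, 49, 23) _ _ u7C4ok (cellsOK_app (30, 73, 13) _ _ u7C5ok (cellsOK_app (11, 23, 20) _ _ u7C6ok (cellsOK_app (6, 11, 23) _ _ u7C7ok (cellsOK_app (11, 18, 22) _ _ u7C8ok (cellsOK_app (21, 31, 23) _ _ u7C9ok (cellsOK_app (26, 35, 19) _ _ u7C10ok (cellsOK_app (97, 120, 23) _ _ u7C11ok (cellsOK_app (62, 71, 25) _ _ u7C12ok (cellsOK_app (77, 82, 20) _ _ u7C13ok u7C14ok rfl) rfl) rfl) rfl) rfl) rfl) rfl) rfl) rfl) rfl) rfl) rfl) rfl) rfl)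

theorem u7Xok : realOK 7 120 36 1 913 u7dm (0 :: 3 :: [5, 7, 10, 13, 17, 23, 32]) = true := by decide +kernel

theorem u7cert : CertU 7 8 120 36 38 u7dm ubdm u7C ubC 1 913 3 [5, 7, 10, 13, 17, 23, 32] 3 3318 4 [7, 9, 11, 12, 13, 14, 15, 16, 17, 18, 19, 20, 21, 22, 23, 24, 25, 26, 27, 28, 29, 30, 32, 34, 36, 39, 42, 46, 51, 58, 68, 83, 108] 1000000 where
  hb := by norm_num
  hcD := by norm_num
  hcc := by norm_num
  hDD := by norm_num
  hdm := by decide +kernel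
  hdmB := by decide +kernel
  hDm := by decide +kernel
  hlen := by decide +kernel
  hev := by decide +kernel
  hevB := by decide +kernel
  hdeg := by decide +kernel
  hdegB := by decide +kernel
  hq := by norm_num
  hq' := by norm_num
  hX := u7Xok
  hX' := ubXok
  hC := u7Cok
  hCB := ubCok
  hsame := by decide +kernel
  hne := by decide +kernel
  hhead := by decide +kernel
  hpos := by decide +kernel
  hlast := by decide +kernel
  hneg := by decide +kernel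
  hnegB := by decide +kernel
  hSc := by norm_num

end Pool.Agent.H337R2
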