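import Pool.Agent.H337R2.UnB

/-!
# Certificate of a base
-/

namespace Pool.Agent.H337R2

/-- multiplicities -/
def u9dm : List (ℕ × ℕ) := [(38, 6), (39, 2), (40, 4), (41, 4), (42, 2), (43, 3), (44, 3), (45, 2), (46, 4), (47, 2), (48, 4), (49, 2), (50, 1), (51, 1)]

/-- cells -/
def u9C0 : List (ℕ × ℕ × ℕ) := [(1, 46, 14), (1, 45, 16), (1, 44, 15), (1, 43, 18), (1, 42, 18), (1, 41, 20), (2, 81, 20), (1, 40, 11), (2, 79, 11), (1, 39, 14), (2, 77, 14), (1, 38, 13), (2, 75, 13), (1, 37, 15), (2, 73, 15), (1, 36, 27), (2, 71, 27), (1, 35, 30), (2, 69, 30), (1, 34, 29), (1, 33, 33), (1, 32, 32), (1, 31, 36), (1, 30, 36), (1, 29, 39), (1, 28, 38), (3, 82, 38), (1, 27, 40), (3, 80, 40), (3, 79, 40), (1, 26, 42), (3, 77, 42), (2, 51, 42), (3, 76, 42), (1, 25, 44), (3, 74, 44), (2, 49, 44), (3, 73, 44), (1, 24, 33), (3, 71, 33), (2, 47, 32), (3, 70, 32), (1, 23, 29), (2, 45, 28), (1, 22, 22), (2, 43, 22), (1, 21,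 21), (2, 41, 22), (4, 81, 22), (1, 20, 17), (4, 79, 17), (2, 39, 17), (4, 77, 17), (1, 19, 14), (4, 75, 14), (2, 37, 16), (4, 73, 16), (1, 18, 30), (4, 71, 30), (2, 35, 30), (4, 69, 30), (7, 120, 30), (1, 17, 29), (5, 84, 29), (3, 50, 29), (2, 33, 33), (5, 82, 33), (3, 49, 33), (5, 81, 33), (1, 16, 32), (5, 79, 32), (3, 47, 32), (5, 78, 32), (2, 31, 35), (5, 77, 35), (3, 46, 34), (5, 76, 34), (1, 15, 30), (5, 74, 30), (3, 44, 28), (5, 73, 28), (2, 29, 28), (5, 72, 28), (3, 43, 31), (5, 71, 31), (1, 14, 28), (5, 69, 28), (3, 41, 30), (2, 27, 30), (3, 40, 21), (6, 79, 21), (1, 13, 22), (6, 77, 22), (4, 51, 21), (3, 38, 17), (2, 25, 19), (3, 37, 19), (4, 49, 19), (6, 73, 19), (1, 12, 31)]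

/-- cells -/
def u9C1 : List (ℕ × ℕ × ℕ) := [(6, 71, 31), (4, 47, 31), (7, 82, 31), (3, 35, 34), (7, 81, 34), (2, 23, 34), (7, 80, 34), (3, 34, 33), (7, 79, 33), (4, 45, 33), (7, 78, 33), (1, 11, 31), (11, 120, 31), (7, 76, 31), (4, 43, 31), (7, 75, 31), (3, 32, 30), (7, 74, 30), (2, 21, 31), (7, 73, 31), (3, 31, 33), (7, 72, 33), (4, 41, 35), (5, 51, 35), (7, 71, 35), (8, 81, 35), (1, 10, 24), (8, 79, 24), (7, 69, 24), (5, 49, 22), (4, 39, 22), (3, 29, 25), (8, 77, 25), (5, 48, 23), (2, 19, 23), (5, 47, 23), (8, 75, 23), (3, 28, 23), (4, 37, 23), (13, 120, 18), (5, 46, 18), (8, 73, 18), (9, 82, 18), (1, 9, 36), (9, 80, 36), (8, 71, 36), (5, 44, 30), (9, 79, 30), (4, 35, 32), (3, 26, 31), (8, 69, 31), (5, 43, 30), (7, 60, 30), (9, 77, 30), (2, 17, 29), (9, 76, 29), (5, 42, 31), (3, 25, 31), (4, 33, 33), (9, 74, 33), (5, 41, 35), (6, 49, 35), (9, 73, 35), (10, 81, 35), (1, 8, 24), (10, 79, 24), (9, 71, 24),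 (6, 47, 24), (5, 39, 24), (9, 70, 24), (4, 31, 26), (10, 77, 26), (3, 23, 29), (11, 84, 29), (5, 38, 22), (2, 15, 21), (11, 82, 21), (5, 37, 23), (11, 81, 23), (3, 22, 17), (10, 73, 17), (7, 51, 17), (11, 80, 17), (4, 29, 17), (5, 36, 32), (11, 79, 32), (6, 43, 32), (7, 50, 32), (10, 71, 32), (11, 78, 32), (17, 120, 32), (1, 7, 30), (11, 76, 30), (10, 69, 30), (7, 48, 30), (6, 41, 30), (11, 75, 30), (5, 34, 31), (4, 27, 33), (11, 74, 33)]

/-- cells -/
def u9C2 : List (ℕ × ℕ × ℕ) := [(7, 47, 31), (3, 20, 26), (11, 73, 26), (5, 33, 28), (12, 79, 28), (7, 46, 32), (11, 72, 32), (2, 13, 33), (13, 84, 33), (11, 71, 33), (7, 45, 33), (12, 77, 33), (5, 32, 30), (8, 51, 30), (11, 70, 30), (3, 19, 23), (19, 120, 21), (13, 82, 21), (7, 44, 18), (11, 69, 18), (4, 25, 18), (13, 81, 18), (5, 31, 20), (6, 37, 23), (13, 80, 23), (7, 43, 24), (8, 49, 24), (12, 73, 24), (13, 79, 24), (1, 6, 31), (13, 77, 31), (12, 71, 31),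 (8, 47, 31), (7, 41, 31), (13, 76, 31), (6, 35, 33), (5, 29, 35), (14, 81, 35), (13, 75, 35), (4, 23, 33), (7, 40, 32), (13, 74, 32), (3, 17, 32), (14, 79, 32), (8, 45, 32), (13, 73, 32), (5, 28, 31), (7, 39, 31), (9, 50, 31), (13, 72, 31), (2, 11, 31), (15, 82, 31), (13, 71, 31), (11, 60, 22), (9, 49, 20), (7, 38, 16), (5, 27, 18), (13, 70, 18), (8, 43, 20), (14, 75, 20), (3, 16, 26), (13, 69, 26), (7, 37, 28), (15, 79, 28), (4, 21, 26), (9, 47, 24), (23, 120, 19), (14, 73, 19), (5, 26, 17), (6, 31, 17), (7, 36, 33), (15, 77, 33), (8, 41, 35), (9, 46, 37), (10, 51, 37), (14, 71, 37), (15, 76, 37), (16, 81, 37), (1, 5, 37), (17, 84, 37), (16, 79, 37), (15, 74, 37), (14, 69, 37), (10, 49, 35), (9, 44, 28), (8, 39, 30), (15, 73, 30), (7, 34, 31), (6, 29, 34), (17, 82, 34), (16, 77, 34), (5, 24, 22), (9, 43, 26), (17, 81, 26), (4, 19, 26), (15, 71, 26), (7, 33, 30), (17, 80, 30), (10, 47, 30), (16, 75, 30)]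

/-- cells -/
def u9C3 : List (ℕ × ℕ × ℕ) := [(3, 14, 28), (17, 79, 28), (11, 51, 28), (8, 37, 28), (13, 60, 19), (5, 23, 21), (17, 78, 21), (7, 32, 19), (16, 73, 19), (9, 41, 21), (11, 50, 21), (17, 77, 21), (2, 9, 34), (17, 76, 34), (11, 49, 33), (9, 40, 30), (16, 71, 30), (7, 31, 33), (19, 84, 33), (17, 75, 33), (5, 22, 28), (18, 79, 28), (8, 35, 30), (11, 48, 30), (17, 74, 30), (3, 13, 31), (19, 82, 31), (16, 69, 31), (10, 43, 30), (17, 73, 30), (7, 30, 30), (18, 77, 30), (11, 47, 30), (19, 81, 30), (4, 17, 29), (17, 72, 29), (9, 38, 29), (19, 80, 29), (5, 21, 27), (11, 46, 27), (17, 71, 27), (6, 25, 27), (19, 79, 27), (7, 29, 27), (29, 120, 23), (8, 33, 25), (17, 70, 25), (9, 37, 27), (19, 78, 27), (10, 41, 29), (11, 45, 31), (12, 49, 31), (17, 69, 31), (18, 73, 31), (19, 77, 31), (20, 81, 31), (1, 4, 29), (20, 79, 29), (19, 75, 29), (18, 71, 29), (13, 51, 29), (12, 47, 29), (11, 43, 29), (21, 82, 29),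 (10, 39, 29), (19, 74, 29), (9, 35, 29), (8, 31, 31), (31, 120, 31), (7, 27, 33), (20, 77, 33), (13, 50, 33), (19, 73, 33), (6, 23, 35), (11, 42, 33), (21, 80, 33), (5, 19, 29), (19, 72, 29), (9, 34, 28), (13, 49, 28), (21, 79, 28), (4, 15, 23), (19, 71, 23), (11, 41, 23), (7, 26, 25), (10, 37, 25), (13, 48, 30), (19, 70, 30), (22, 81, 30), (3, 11, 27), (23, 84, 27), (20, 73, 27), (14, 51, 26), (11, 40, 15), (19, 69, 15), (8, 29, 17), (21, 76, 17), (13, 47, 15), (5, 18, 31), (22, 79, 31)]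

/-- cells -/
def u9C4 : List (ℕ × ℕ × ℕ) := [(12, 43, 33), (7, 25, 33), (23, 82, 33), (9, 32, 32), (20, 71, 32), (11, 39, 32), (13, 46, 34), (17, 60, 34), (21, 74, 34), (23, 81, 34), (2, 7, 34), (23, 80, 34), (21, 73, 34), (13, 45, 32), (11, 38, 26), (20, 69, 26), (9, 31, 30), (23, 79, 30), (7, 24, 26), (12, 41, 29), (22, 75, 29), (5, 17, 29), (23, 78, 29), (13, 44, 25), (21, 71, 25), (8, 27, 25), (11, 37, 28), (25, 84, 28), (14, 47, 28), (23, 77, 28), (3, 10, 14), (22, 73, 14), (13, 43, 14), (23, 76, 14), (10, 33, 18), (24, 79, 18), (7, 23, 21), (25, 82, 21), (11, 36, 32), (15, 49, 32), (23, 75, 32), (4, 13, 34), (37, 120, 34), (25, 81, 34), (13, 42, 34), (22, 71, 34), (9, 29, 35), (23, 74, 35), (14, 45, 35), (24, 77, 35), (5, 16, 32), (16, 51, 32), (11, 35, 34), (23, 73, 34), (6, 19, 31), (25, 79, 31), (19, 60, 31), (13, 41, 34), (7, 22, 30), (22, 69, 30), (15, 47, 30), (23, 72, 30), (8, 25, 30), (25,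 78, 30), (26, 81, 30), (9, 28, 26), (10, 31, 28), (11, 34, 29), (23, 71, 29), (12, 37, 32), (25, 77, 32), (13, 40, 19), (14, 43, 20), (15, 46, 26), (16, 49, 26), (23, 70, 26), (24, 73, 26), (25, 76, 26), (26, 79, 26), (27, 82, 26), (1, 3, 37), (27, 80, 37), (26, 77, 37), (25, 74, 37), (24, 71, 37), (17, 50, 36), (16, 47, 35), (15, 44, 29), (14, 41, 29), (41, 120, 29), (27, 79, 29), (13, 38, 25), (25, 73, 25), (12, 35, 27), (11, 32, 26), (10, 29, 28), (29, 84, 28), (28, 81, 28), (9, 26, 30), (26, 75, 30)]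

/-- cells -/
def u9C5 : List (ℕ × ℕ × ℕ) := [(17, 49, 30), (25, 72, 30), (8, 23, 27), (15, 43, 24), (7, 20, 21), (27, 77, 21), (13, 37, 23), (25, 71, 23), (6, 17, 22), (29, 82, 22), (17, 48, 30), (28, 79, 30), (11, 31, 30), (27, 76, 30), (16, 45, 32), (26, 73, 32), (5, 14, 28), (29, 81, 28), (43, 120, 19), (14, 39, 20), (9, 25, 20), (13, 36, 34), (17, 47, 34), (25, 69, 34), (29, 80, 34), (4, 11, 34), (27, 74, 34), (15, 41, 34), (26, 71, 34), (11, 30, 29), (29, 79, 29), (18, 49, 29), (7, 19, 27), (31, 84, 27), (17, 46, 27), (27, 73, 27), (10, 27, 28), (13, 35, 30), (29, 78, 30), (16, 43, 30), (19, 51, 30), (28, 75, 30), (3, 8, 31), (29, 77, 31), (26, 69, 31), (17, 45, 31), (31, 82, 31), (14, 37, 33), (11, 29, 35), (30, 79, 35), (19, 50, 35), (27, 71, 35), (8, 21, 33), (29, 76, 33), (13, 34, 32), (31, 81, 32), (18, 47, 30), (23, 60, 23), (28, 73, 23), (5, 13, 22), (27, 70, 22), (17, 44, 17), (29, 75, 17),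 (12, 31, 19), (31, 80, 19), (19, 49, 17), (7, 18, 32), (30, 77, 32), (16, 41, 32), (9, 23, 36), (47, 120, 36), (29, 74, 36), (20, 51, 36), (31, 79, 36), (11, 28, 32), (13, 33, 34), (28, 71, 34), (15, 38, 29), (32, 81, 29), (17, 43, 28), (19, 48, 37), (29, 73, 37), (31, 78, 37), (2, 5, 37), (33, 82, 37), (31, 77, 37), (29, 72, 37), (19, 47, 37), (17, 42, 35), (32, 79, 35), (15, 37, 35), (28, 69, 35), (13, 32, 35), (11, 27, 37), (31, 76, 37), (20, 49, 35), (49, 120, 28), (29, 71, 28), (9, 22, 19), (16, 39, 19)]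

/-- cells -/
def u9C6 : List (ℕ × ℕ × ℕ) := [(30, 73, 19), (7, 17, 19), (33, 80, 19), (19, 46, 20), (31, 75, 20), (12, 29, 20), (29, 70, 20), (17, 41, 23), (32, 77, 23), (5, 12, 31), (33, 79, 31), (18, 43, 32), (31, 74, 32), (13, 31, 34), (34, 81, 34), (21, 50, 34), (29, 69, 34), (8, 19, 34), (19, 45, 34), (30, 71, 34), (11, 26, 32), (14, 33, 36), (31, 73, 36), (17, 40, 34), (20, 47, 34), (32, 75, 34), (35, 82, 34), (3, 7, 34), (34, 79, 34), (31, 72, 34), (22, 51, 34), (19, 44, 28), (35, 81, 28), (16, 37, 28), (13, 30, 20), (33, 76, 20), (10, 23, 19), (17, 39, 22), (31, 71, 22), (7, 16, 27), (32, 73, 27), (18, 41, 30), (11, 25, 30), (37, 84, 30), (15, 34, 30), (34, 77, 30), (53, 120, 21), (19, 43, 23), (31, 70, 23), (35, 79, 23), (4, 9, 37), (33, 74, 37), (21, 47, 35), (17, 38, 33), (13, 29, 35), (35, 78, 35), (22, 49, 35), (31, 69, 35), (9, 20, 31), (32, 71, 31), (23, 51, 31), (37, 82, 31), (14, 31, 33),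 (33, 73, 33), (19, 42, 31), (34, 75, 31), (5, 11, 27), (36, 79, 27), (21, 46, 26), (37, 81, 26), (16, 35, 26), (11, 24, 30), (17, 37, 32), (23, 50, 32), (35, 76, 32), (6, 13, 32), (37, 80, 32), (19, 41, 33), (32, 69, 33), (13, 28, 31), (33, 71, 31), (20, 43, 30), (34, 73, 30), (7, 15, 24), (36, 77, 24), (22, 47, 24), (37, 79, 24), (15, 32, 23), (38, 81, 23), (23, 49, 21), (8, 17, 18), (33, 70, 18), (17, 36, 33), (35, 74, 33), (9, 19, 32), (37, 78, 32), (19, 40, 30), (39, 82, 30), (10, 21, 30), (21, 44, 24)]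

/-- cells -/
def u9C7 : List (ℕ × ℕ × ℕ) := [(11, 23, 24), (34, 71, 24), (23, 48, 32), (35, 73, 32), (12, 25, 32), (37, 77, 32), (38, 79, 32), (13, 27, 32), (14, 29, 32), (29, 60, 32), (15, 31, 32), (16, 33, 33), (17, 35, 35), (35, 72, 35), (18, 37, 37), (37, 76, 37), (19, 39, 39), (39, 80, 39), (20, 41, 42), (41, 84, 42), (21, 43, 39), (22, 45, 39), (23, 47, 39), (24, 49, 39), (25, 51, 39), (59, 120, 39), (34, 69, 39), (35, 71, 39), (36, 73, 39), (37, 75, 39), (38, 77, 39), (39, 79, 39), (40, 81, 39), (1, 2, 32), (41, 81, 32), (40, 79, 32), (39, 77, 32), (38, 75, 32), (37, 73, 32), (36, 71, 32), (35, 69, 32), (61, 120, 32), (26, 51, 32), (25, 49, 32), (24, 47, 32), (23, 45, 32), (22, 43, 32), (43, 84, 32), (21, 41, 32), (41, 80, 32), (20, 39, 32), (39, 76, 32), (19, 37, 32), (37, 72, 32), (18, 35, 32), (17, 33, 32), (16, 31, 32), (31, 60, 28), (15, 29, 31), (14, 27, 33), (41, 79, 33), (40, 77, 33), (13,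 25, 35), (38, 73, 35), (25, 48, 33), (37, 71, 33), (12, 23, 30), (23, 44, 30), (11, 21, 32), (43, 82, 32), (21, 40, 21), (41, 78, 21), (10, 19, 18), (39, 74, 18), (19, 36, 31), (37, 70, 31), (9, 17, 32), (26, 49, 32), (43, 81, 32), (17, 32, 33), (42, 79, 33), (25, 47, 33), (41, 77, 33), (8, 15, 33), (39, 73, 33), (23, 43, 33), (38, 71, 33), (15, 28, 32), (37, 69, 32), (22, 41, 32), (43, 80, 32), (7, 13, 34), (41, 76, 34), (27, 50, 34), (20, 37, 34), (13, 24, 22), (19, 35, 24), (44, 81, 24), (25, 46, 30), (43, 79, 30)]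

/-- cells -/
def u9C8 : List (ℕ × ℕ × ℕ) := [(6, 11, 30), (41, 75, 30), (23, 42, 30), (40, 73, 30), (17, 31, 32), (45, 82, 32), (28, 51, 32), (39, 71, 32), (11, 20, 19), (38, 69, 19), (27, 49, 19), (43, 78, 19), (16, 29, 19), (21, 38, 14), (26, 47, 14), (41, 74, 14), (5, 9, 30), (44, 79, 30), (39, 70, 30), (24, 43, 30), (67, 120, 30), (43, 77, 30), (19, 34, 29), (47, 84, 29), (14, 25, 31), (23, 41, 31), (41, 73, 31), (9, 16, 30), (40, 71, 30), (22, 39, 30), (13, 23, 34), (43, 76, 34), (17, 30, 32), (21, 37, 34), (46, 81, 34), (25, 44, 34), (29, 51, 34), (41, 72, 34), (45, 79, 34), (4, 7, 34), (47, 82, 34), (43, 75, 34), (27, 47, 32), (23, 40, 21), (42, 73, 21), (19, 33, 23), (15, 26, 23), (41, 71, 23), (26, 45, 21), (11, 19, 17), (40, 69, 17), (29, 50, 17), (47, 81, 17), (18, 31, 20), (43, 74, 20), (25, 43, 21), (46, 79, 21), (7, 12, 30), (45, 77, 30), (24, 41, 31), (41, 70, 31), (17, 29, 32), (44, 75,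 32), (27, 46, 33), (47, 80, 33), (10, 17, 34), (43, 73, 34), (23, 39, 37), (13, 22, 35), (42, 71, 35), (71, 120, 35), (29, 49, 35), (45, 76, 35), (16, 27, 35), (19, 32, 33), (41, 69, 33), (22, 37, 35), (47, 79, 35), (25, 42, 37), (28, 47, 37), (43, 72, 37), (46, 77, 37), (49, 82, 37), (3, 5, 25), (47, 78, 25), (44, 73, 25), (29, 48, 21), (26, 43, 23), (49, 81, 23), (23, 38, 23), (43, 71, 23), (20, 33, 27), (17, 28, 27), (48, 79, 27), (31, 51, 27), (45, 74, 27), (73, 120, 18), (14, 23, 17), (25, 41, 20), (47, 77, 20)]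

/-- cells -/
def u9C9 : List (ℕ × ℕ × ℕ) := [(11, 18, 32), (30, 49, 32), (49, 80, 32), (19, 31, 34), (46, 75, 34), (27, 44, 32), (43, 70, 32), (8, 13, 33), (45, 73, 33), (37, 60, 33), (29, 47, 33), (50, 81, 33), (21, 34, 33), (47, 76, 33), (13, 21, 35), (44, 71, 35), (31, 50, 35), (49, 79, 35), (18, 29, 36), (23, 37, 39), (51, 82, 39), (28, 45, 39), (43, 69, 39), (48, 77, 39), (5, 8, 21), (47, 75, 21), (32, 51, 20), (27, 43, 21), (49, 78, 21), (22, 35, 24), (17, 27, 26), (46, 73, 26), (29, 46, 29), (53, 84, 29), (12, 19, 24), (31, 49, 24), (50, 79, 24), (19, 30, 21), (45, 71, 21), (26, 41, 21), (47, 74, 21), (7, 11, 18), (51, 80, 18), (44, 69, 18), (30, 47, 16), (23, 36, 30), (16, 25, 32), (25, 39, 33), (77, 120, 33), (52, 81, 33), (9, 14, 31), (47, 73, 31), (29, 45, 31), (49, 76, 31), (20, 31, 33), (51, 79, 33), (31, 48, 33), (53, 82, 33), (11, 17, 34), (46, 71, 34), (24, 37, 37), (50, 77, 37), (13, 20,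 24), (28, 43, 28), (15, 23, 34), (47, 72, 34), (32, 49, 34), (49, 75, 34), (17, 26, 32), (53, 81, 32), (55, 84, 32), (19, 29, 32), (21, 32, 30), (23, 35, 32), (48, 73, 32), (25, 38, 29), (52, 79, 29), (79, 120, 22), (27, 41, 25), (29, 44, 23), (31, 47, 23), (33, 50, 23), (47, 71, 23), (49, 74, 23), (51, 77, 23), (53, 80, 23), (2, 3, 37), (55, 82, 37), (53, 79, 37), (51, 76, 37), (49, 73, 37), (47, 70, 37), (33, 49, 35), (31, 46, 32), (29, 43, 32), (27, 40, 30), (52, 77, 30), (25, 37, 32), (48, 71, 32), (23, 34, 31)]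

/-- cells -/
def u9C10 : List (ℕ × ℕ × ℕ) := [(21, 31, 34), (19, 28, 33), (55, 81, 33), (53, 78, 33), (17, 25, 35), (49, 72, 35), (32, 47, 34), (47, 69, 34), (15, 22, 25), (28, 41, 25), (41, 60, 20), (54, 79, 20), (13, 19, 16), (50, 73, 16), (24, 35, 18), (35, 51, 18), (11, 16, 24), (53, 77, 24), (31, 45, 26), (51, 74, 26), (20, 29, 26), (49, 71, 26), (29, 42, 26), (56, 81, 26), (83, 120, 17), (9, 13, 17), (52, 75, 17), (34, 49, 15), (25, 36, 33), (57, 82, 33), (16, 23, 33), (55, 79, 33), (23, 33, 36), (53, 76, 36), (30, 43, 37), (51, 73, 37), (7, 10, 34), (54, 77, 34), (33, 47, 34), (59, 84, 34), (26, 37, 35), (19, 27, 37), (50, 71, 37), (31, 44, 30), (55, 78, 30), (12, 17, 30), (53, 75, 30), (29, 41, 30), (17, 24, 26), (56, 79, 26), (22, 31, 26), (49, 69, 26), (27, 38, 26), (32, 45, 28), (52, 73, 28), (57, 80, 28), (5, 7, 28), (58, 81, 28), (53, 74, 28), (43, 60, 19), (33, 46, 19), (28, 39, 22), (51,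 71, 22), (23, 32, 21), (59, 82, 21), (18, 25, 21), (31, 43, 22), (57, 79, 22), (13, 18, 33), (34, 47, 33), (55, 76, 33), (21, 29, 35), (50, 69, 35), (29, 40, 31), (37, 51, 31), (53, 73, 31), (61, 84, 31), (8, 11, 30), (59, 81, 30), (51, 70, 30), (35, 48, 30), (27, 37, 30), (19, 26, 30), (30, 41, 30), (52, 71, 30), (11, 15, 29), (58, 79, 29), (36, 49, 29), (25, 34, 29), (53, 72, 29), (14, 19, 27), (59, 80, 27), (31, 42, 27), (17, 23, 27), (54, 73, 27), (37, 50, 27), (57, 77, 27), (20, 27, 27), (89, 120, 23), (23, 31, 24)]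

/-- cells -/
def u9C11 : List (ℕ × ℕ × ℕ) := [(26, 35, 26), (55, 74, 26), (29, 39, 29), (61, 82, 29), (32, 43, 31), (35, 47, 31), (38, 51, 31), (53, 71, 31), (56, 75, 31), (59, 79, 31), (3, 4, 29), (61, 81, 29), (58, 77, 29), (55, 73, 29), (52, 69, 29), (37, 49, 29), (34, 45, 29), (31, 41, 29), (59, 78, 29), (28, 37, 29), (53, 70, 29), (25, 33, 29), (91, 120, 29), (22, 29, 32), (60, 79, 32), (19, 25, 34), (54, 71, 34), (35, 46, 34), (16, 21, 33), (61, 80, 33), (29, 38, 29), (55, 72, 29), (13, 17, 28), (62, 81, 28), (36, 47, 28), (59, 77, 28), (23, 30, 23), (56, 73, 23), (33, 43, 23), (53, 69, 23), (63, 82, 23), (10, 13, 25), (57, 74, 25), (37, 48, 28), (27, 35, 30), (61, 79, 30), (17, 22, 26), (58, 75, 26), (65, 84, 26), (24, 31, 28), (55, 71, 28), (31, 40, 16), (38, 49, 16), (59, 76, 16), (7, 9, 32), (60, 77, 32), (39, 50, 32), (32, 41, 32), (57, 73, 32), (25, 32, 31), (61, 78, 31), (18, 23, 32), (47,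 60, 32), (29, 37, 34), (40, 51, 34), (62, 79, 34), (11, 14, 32), (59, 75, 32), (37, 47, 32), (63, 80, 32), (26, 33, 34), (56, 71, 34), (15, 19, 29), (64, 81, 29), (34, 43, 26), (19, 24, 30), (61, 77, 30), (65, 82, 30), (23, 29, 30), (27, 34, 28), (58, 73, 28), (31, 39, 30), (35, 44, 28), (39, 49, 28), (55, 69, 28), (59, 74, 28), (63, 79, 28), (67, 84, 28), (4, 5, 19), (65, 81, 19), (61, 76, 19), (57, 71, 19), (41, 51, 18), (37, 46, 16), (33, 41, 19), (62, 77, 19), (29, 36, 31), (25, 31, 34), (21, 26, 36), (59, 73, 36)]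

/-- cells -/
def u9C12 : List (ℕ × ℕ × ℕ) := [(97, 120, 36), (38, 47, 36), (17, 21, 35), (64, 79, 35), (30, 37, 35), (56, 69, 35), (13, 16, 34), (61, 75, 34), (35, 43, 34), (57, 70, 34), (22, 27, 34), (31, 38, 31), (40, 49, 31), (49, 60, 31), (58, 71, 31), (67, 82, 31), (9, 11, 28), (59, 72, 28), (41, 50, 28), (32, 39, 31), (23, 28, 28), (60, 73, 28), (37, 45, 28), (65, 79, 28), (14, 17, 28), (61, 74, 28), (33, 40, 16), (19, 23, 20), (62, 75, 20), (67, 81, 20), (24, 29, 20), (29, 35, 22), (63, 76, 22), (34, 41, 25), (39, 47, 25), (59, 71, 25), (64, 77, 25), (5, 6, 32), (66, 79, 32), (61, 73, 32), (41, 49, 32), (36, 43, 32), (67, 80, 32), (31, 37, 33), (26, 31, 35), (68, 81, 35), (21, 25, 36), (58, 69, 36), (37, 44, 33), (69, 82, 33), (101, 120, 29), (16, 19, 27), (59, 70, 27), (43, 51, 27), (27, 32, 26), (65, 77, 26), (38, 45, 26), (60, 71, 26), (71, 84, 26), (11, 13, 28), (61, 72, 28), (39, 46, 28), (67,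 79, 28), (28, 33, 30), (62, 73, 30), (17, 20, 20), (40, 47, 20), (63, 74, 20), (23, 27, 22), (29, 34, 21), (64, 75, 21), (35, 41, 21), (41, 48, 30), (59, 69, 30), (65, 76, 30), (6, 7, 24), (103, 120, 19), (67, 78, 19), (61, 71, 19), (43, 50, 18), (37, 43, 19), (68, 79, 19), (31, 36, 36), (25, 29, 38), (69, 80, 38), (44, 51, 38), (63, 73, 38), (19, 22, 34), (70, 81, 34), (32, 37, 36), (71, 82, 36), (13, 15, 29), (33, 38, 27), (73, 84, 27), (20, 23, 27), (67, 77, 27), (27, 31, 28), (61, 70, 28), (34, 39, 32), (41, 47, 32)]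

/-- cells -/
def u9C13 : List (ℕ × ℕ × ℕ) := [(62, 71, 32), (69, 79, 32), (7, 8, 27), (71, 81, 27), (64, 73, 27), (43, 49, 27), (36, 41, 27), (65, 74, 27), (29, 33, 30), (22, 25, 31), (37, 42, 29), (67, 76, 29), (15, 17, 28), (68, 77, 28), (53, 60, 19), (38, 43, 21), (61, 69, 21), (23, 26, 19), (31, 35, 22), (70, 79, 22), (39, 44, 19), (63, 71, 19), (71, 80, 19), (8, 9, 37), (73, 82, 37), (65, 73, 37), (41, 46, 35), (107, 120, 35), (33, 37, 37), (25, 28, 35), (67, 75, 35), (42, 47, 33), (17, 19, 26), (43, 48, 33), (69, 77, 33), (26, 29, 33), (35, 39, 35), (44, 49, 35), (62, 69, 35), (71, 79, 35), (9, 10, 31), (73, 81, 31), (64, 71, 31), (46, 51, 31), (37, 41, 31), (65, 72, 31), (28, 31, 34), (66, 73, 34), (19, 21, 32), (67, 74, 32), (29, 32, 31), (68, 75, 31), (39, 43, 31), (69, 76, 31), (109, 120, 22), (10, 11, 19), (71, 78, 19), (41, 45, 19), (72, 79, 19), (31, 34, 19), (73, 80, 19), (21, 23, 23), (74,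 81, 23), (32, 35, 25), (75, 82, 25), (43, 47, 25), (65, 71, 25), (11, 12, 32), (67, 73, 32), (45, 49, 32), (34, 37, 33), (23, 25, 34), (35, 38, 30), (47, 51, 30), (71, 77, 30), (12, 13, 32), (73, 79, 32), (37, 40, 28), (25, 27, 30), (38, 41, 30), (64, 69, 30), (13, 14, 28), (66, 71, 28), (40, 43, 28), (67, 72, 28), (27, 29, 30), (68, 73, 30), (41, 44, 24), (69, 74, 24), (14, 15, 18), (71, 76, 18), (43, 46, 23), (72, 77, 23), (29, 31, 24), (73, 78, 24), (44, 47, 24), (74, 79, 24), (15, 16, 29), (76, 81, 29), (46, 49, 29)]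

/-- cells -/
def u9C14 : List (ℕ × ℕ × ℕ) := [(77, 82, 29), (31, 33, 30), (47, 50, 30), (79, 84, 30), (16, 17, 26), (113, 120, 19), (65, 69, 19), (33, 35, 21), (67, 71, 21), (17, 18, 37), (69, 73, 37), (35, 37, 39), (71, 75, 39), (18, 19, 35), (73, 77, 35), (37, 39, 39), (75, 79, 39), (19, 20, 33), (77, 81, 33), (39, 41, 36), (20, 21, 34), (41, 43, 31), (21, 22, 27), (43, 45, 29), (22, 23, 35), (67, 70, 35), (45, 47, 35), (68, 71, 35), (23, 24, 40), (70, 73, 40), (47, 49, 40), (71, 74, 40), (24, 25, 40), (73, 76, 40), (49, 51, 40), (74, 77, 40), (25, 26, 38), (76, 79, 38), (77, 80, 38), (26, 27, 38), (79, 82, 38), (27, 28, 34), (28, 29, 34), (29, 30, 23), (30, 31, 23), (31, 32, 20), (32, 33, 21), (33, 34, 19), (67, 69, 19), (34, 35, 21), (69, 71, 21), (35, 36, 38), (71, 73, 38), (36, 37, 40), (73, 75, 40), (37, 38, 36), (75, 77, 36), (38, 39, 40), (77, 79, 40), (39, 40, 35), (79, 81, 35), (40, 41, 38),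 (41, 42, 36), (42, 43, 33), (43, 44, 31), (44, 45, 33), (45, 46, 39), (46, 47, 39), (47, 48, 48), (48, 49, 48), (49, 50, 48), (50, 51, 48), (59, 60, 48), (68, 69, 48), (69, 70, 48), (70, 71, 48), (71, 72, 48), (72, 73, 48), (73, 74, 48), (74, 75, 48), (75, 76, 48), (76, 77, 48), (77, 78, 48), (78, 79, 48), (79, 80, 48), (80, 81, 48), (81, 82, 48), (83, 84, 48), (119, 120, 39), (1, 1, 0)]

/-- all cells -/
def u9C : List (ℕ × ℕ × ℕ) := u9C0 ++ (u9C1 ++ (u9C2 ++ (u9C3 ++ (u9C4 ++ (u9C5 ++ (u9C6 ++ (u9C7 ++ (u9C8 ++ (u9C9 ++ (u9C10 ++ (u9C11 ++ (u9C12 ++ (u9C13 ++ (u9C14))))))))))))))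

theorem u9C0ok : cellsOK 9 120 36 38 u9dm (u9C0 ++ [(6, 71, 31)]) = true := by decide +kernel

theorem u9C1ok : cellsOK 9 120 36 38 u9dm (u9C1 ++ [(7, 47, 31)]) = true := by decide +kernel

theorem u9C2ok : cellsOK 9 120 36 38 u9dm (u9C2 ++ [(3, 14, 28)]) = true := by decide +kernel

theorem u9C3ok : cellsOK 9 120 36 38 u9dm (u9C3 ++ [(12, 43, 33)]) = true := by decide +kernel

theorem u9C4ok : cellsOK 9 120 36 38 u9dm (u9C4 ++ [(17, 49, 30)]) = true := by decide +kernel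

theorem u9C5ok : cellsOK 9 120 36 38 u9dm (u9C5 ++ [(30, 73, 19)]) = true := by decide +kernel

theorem u9C6ok : cellsOK 9 120 36 38 u9dm (u9C6 ++ [(11, 23, 24)]) = true := by decide +kernel

theorem u9C7ok : cellsOK 9 120 36 38 u9dm (u9C7 ++ [(6, 11, 30)]) = true := by decide +kernel

theorem u9C8ok : cellsOK 9 120 36 38 u9dm (u9C8 ++ [(11, 18, 32)]) = true := by decide +kernel

theorem u9C9ok : cellsOK 9 120 36 38 u9dm (u9C9 ++ [(21, 31, 34)]) = true := by decide +kernel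

theorem u9C10ok : cellsOK 9 120 36 38 u9dm (u9C10 ++ [(26, 35, 26)]) = true := by decide +kernel

theorem u9C11ok : cellsOK 9 120 36 38 u9dm (u9C11 ++ [(97, 120, 36)]) = true := by decide +kernel

theorem u9C12ok : cellsOK 9 120 36 38 u9dm (u9C12 ++ [(62, 71, 32)]) = true := by decide +kernel

theorem u9C13ok : cellsOK 9 120 36 38 u9dm (u9C13 ++ [(77, 82, 29)]) = true := by decide +kernel

theorem u9C14ok : cellsOK 9 120 36 38 u9dm u9C14 = true := by decide +kernel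

theorem u9Cok : cellsOK 9 120 36 38 u9dm u9C = true := by
  unfold u9C
  exact (cellsOK_app (6, 71, 31) _ _ u9C0ok (cellsOK_app (7, 47, 31) _ _ u9C1ok (cellsOK_app (3, 14, 28) _ _ u9C2ok (cellsOK_app (12, 43, 33) _ _ u9C3ok (cellsOK_app (17, 49, 30) _ _ u9C4ok (cellsOK_app (30, 73, 19) _ _ u9C5ok (cellsOK_app (11, 23, 24) _ _ u9C6ok (cellsOK_app (6, 11, 30) _ _ u9C7ok (cellsOK_app (11, 18, 32) _ _ u9C8ok (cellsOK_app (21, 31, 34) _ _ u9C9ok (cellsOK_app (26, 35, 26) _ _ u9C10ok (cellsOK_app (97, 120, 36) _ _ u9C11ok (cellsOK_app (62, 71, 32) _ _ u9C12ok (cellsOK_app (77, 82, 29) _ _ u9C13ok u9C14ok rfl) rfl) rfl) rfl) rfl) rfl) rfl) rfl) rfl) rfl) rfl) rfl) rfl) rfl)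

theorem u9Xok : realOK 9 120 36 1 1284 u9dm (0 :: 3 :: [6, 9, 13, 19, 29]) = true := by decide +kernel

theorem u9cert : CertU 9 8 120 36 38 u9dm ubdm u9C ubC 1 1284 3 [6, 9, 13, 19, 29] 3 3318 4 [7, 9, 11, 12, 13, 14, 15, 16, 17, 18, 19, 20, 21, 22, 23, 24, 25, 26, 27, 28, 29, 30, 32, 34, 36, 39, 42, 46, 51, 58, 68, 83, 108] 1000000 where
  hb := by norm_num
  hcD := by norm_num
  hcc := by norm_num
  hDD := by norm_num
  hdm := by decide +kernel
  hdmB := by decide +kernel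
  hDm := by decide +kernel
  hlen := by decide +kernel
  hev := by decide +kernel
  hevB := by decide +kernel
  hdeg := by decide +kernel
  hdegB := by decide +kernel
  hq := by norm_num
  hq' := by norm_num
  hX := u9Xok
  hX' := ubXok
  hC := u9Cok
  hCB := ubCok
  hsame := by decide +kernel
  hne := by decide +kernel
  hhead := by decide +kernel
  hpos := by decide +kernel
  hlast := by decide +kernel
  hneg := by decide +kernel
  hnegB := by decide +kernel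
  hSc := by norm_num

end Pool.Agent.H337R2
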