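import Pool.Agent.H337R2.Unif2

/-!
# Certificate of the block
-/

namespace Pool.Agent.H337R2

/-- multiplicities -/
def ubdm : List (ℕ × ℕ) := [(38, 5), (39, 2), (40, 3), (41, 3), (42, 2), (43, 2), (44, 3), (45, 2), (46, 3), (47, 2), (48, 3), (49, 2), (50, 1), (51, 1)]

/-- cells -/
def ubC0 : List (ℕ × ℕ × ℕ) := [(1, 46, 13), (1, 45, 15), (1, 44, 13), (1, 43, 16), (1, 42, 16), (1, 41, 18), (2, 81, 18), (1, 40, 10), (2, 79, 10), (1, 39, 12), (2, 77, 12), (1, 38, 12), (2, 75, 12), (1, 37, 14), (2, 73, 14), (1, 36, 23), (2, 71, 23), (1, 35, 26), (2, 69, 26), (1, 34, 26), (1, 33, 29), (1, 32, 28), (1, 31, 31), (1, 30, 31), (1, 29, 33), (1, 28, 33), (3, 82, 33), (1, 27, 35), (3, 80, 35), (3, 79, 35), (1, 26, 36), (3, 77, 36), (2, 51, 36), (3, 76, 36), (1, 25, 38), (3, 74, 38), (2, 49, 38), (3, 73, 38), (1, 24, 29), (3, 71, 29), (2, 47, 28), (3, 70, 28), (1, 23, 26), (2, 45, 24), (1, 22, 19), (2, 43, 19),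 (1, 21, 18), (2, 41, 20), (4, 81, 20), (1, 20, 15), (4, 79, 15), (2, 39, 15), (4, 77, 15), (1, 19, 13), (4, 75, 13), (2, 37, 15), (4, 73, 15), (1, 18, 27), (4, 71, 27), (2, 35, 27), (4, 69, 27), (7, 120, 26), (1, 17, 26), (5, 84, 26), (3, 50, 26), (2, 33, 29), (5, 82, 29), (3, 49, 29), (5, 81, 29), (1, 16, 28), (5, 79, 28), (3, 47, 28), (5, 78, 28), (2, 31, 30), (5, 77, 30), (3, 46, 30), (5, 76, 30), (1, 15, 27), (5, 74, 27), (3, 44, 25), (5, 73, 25), (2, 29, 25), (5, 72, 25), (3, 43, 27), (5, 71, 27), (1, 14, 25), (5, 69, 25), (3, 41, 27), (2, 27, 27), (3, 40, 19), (6, 79, 19), (1, 13, 19), (6, 77, 19), (4, 51, 18), (3, 38, 15), (2, 25, 17), (3, 37, 17), (4, 49, 17), (6, 73, 17), (1, 12, 27)]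

/-- cells -/
def ubC1 : List (ℕ × ℕ × ℕ) := [(6, 71, 27), (4, 47, 27), (7, 82, 27), (3, 35, 30), (7, 81, 30), (2, 23, 30), (7, 80, 30), (3, 34, 30), (7, 79, 30), (4, 45, 30), (7, 78, 30), (1, 11, 28), (11, 120, 28), (7, 76, 28), (4, 43, 28), (7, 75, 28), (3, 32, 27), (7, 74, 27), (2, 21, 27), (7, 73, 27), (3, 31, 29), (7, 72, 29), (4, 41, 31), (5, 51, 31), (7, 71, 31), (8, 81, 31), (1, 10, 21), (8, 79, 21), (7, 69, 21), (5, 49, 19), (4, 39, 19), (3, 29, 21), (8, 77, 21), (5, 48, 21), (2, 19, 21), (5, 47, 21), (8, 75, 21), (3, 28, 21), (4, 37, 21), (13, 120, 16), (5, 46, 17), (8, 73, 17), (9, 82, 17), (1, 9, 32), (9, 80, 32), (8, 71, 32), (5, 44, 27), (9, 79, 27), (4, 35, 28), (3, 26, 27), (8, 69, 27), (5, 43, 26), (7, 60, 26), (9, 77, 26), (2, 17, 26), (9, 76, 26), (5, 42, 27), (3, 25, 27), (4, 33, 29), (9, 74, 29), (5, 41, 31), (6, 49, 31), (9, 73, 31), (10, 81, 31), (1, 8, 22), (10, 79, 22), (9, 71,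 22), (6, 47, 22), (5, 39, 22), (9, 70, 22), (4, 31, 24), (10, 77, 24), (3, 23, 26), (11, 84, 26), (5, 38, 21), (2, 15, 19), (11, 82, 19), (5, 37, 21), (11, 81, 21), (3, 22, 15), (10, 73, 15), (7, 51, 15), (11, 80, 15), (4, 29, 15), (5, 36, 28), (11, 79, 28), (6, 43, 28), (7, 50, 28), (10, 71, 28), (11, 78, 28), (17, 120, 27), (1, 7, 27), (11, 76, 27), (10, 69, 27), (7, 48, 27), (6, 41, 27), (11, 75, 27), (5, 34, 28), (4, 27, 30), (11, 74, 30)]

/-- cells -/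
def ubC2 : List (ℕ × ℕ × ℕ) := [(7, 47, 28), (3, 20, 23), (11, 73, 23), (5, 33, 25), (12, 79, 25), (7, 46, 29), (11, 72, 29), (2, 13, 29), (13, 84, 29), (11, 71, 29), (7, 45, 29), (12, 77, 29), (5, 32, 26), (8, 51, 26), (11, 70, 26), (3, 19, 21), (19, 120, 19), (13, 82, 19), (7, 44, 16), (11, 69, 16), (4, 25, 16), (13, 81, 16), (5, 31, 18), (6, 37, 20), (13, 80, 20), (7, 43, 21), (8, 49, 21), (12, 73, 21), (13, 79, 21), (1, 6, 27), (13, 77, 27), (12, 71, 27), (8, 47, 27), (7, 41, 27), (13, 76, 27), (6, 35, 29), (5, 29, 31), (14, 81, 31), (13, 75, 31), (4, 23, 29), (7, 40, 28), (13, 74, 28), (3, 17, 28), (14, 79, 28), (8, 45, 29), (13, 73, 29), (5, 28, 28), (7, 39, 28), (9, 50, 28), (13, 72, 28), (2, 11, 27), (15, 82, 27), (13, 71, 27), (11, 60, 19), (9, 49, 17), (7, 38, 15), (5, 27, 17), (13, 70, 17), (8, 43, 18), (14, 75, 18), (3, 16, 23), (13, 69, 23), (7, 37, 25), (15, 79, 25), (4, 21, 23), (9, 47,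 21), (23, 120, 17), (14, 73, 17), (5, 26, 15), (6, 31, 15), (7, 36, 29), (15, 77, 29), (8, 41, 31), (9, 46, 31), (10, 51, 31), (14, 71, 31), (15, 76, 31), (16, 81, 31), (1, 5, 32), (17, 84, 32), (16, 79, 32), (15, 74, 32), (14, 69, 32), (10, 49, 30), (9, 44, 24), (8, 39, 26), (15, 73, 26), (7, 34, 27), (6, 29, 29), (17, 82, 29), (16, 77, 29), (5, 24, 21), (9, 43, 24), (17, 81, 24), (4, 19, 24), (15, 71, 24), (7, 33, 27), (17, 80, 27), (10, 47, 27), (16, 75, 27)]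

/-- cells -/
def ubC3 : List (ℕ × ℕ × ℕ) := [(3, 14, 25), (17, 79, 25), (11, 51, 25), (8, 37, 25), (13, 60, 17), (5, 23, 20), (17, 78, 20), (7, 32, 18), (16, 73, 18), (9, 41, 19), (11, 50, 19), (17, 77, 19), (2, 9, 30), (17, 76, 30), (11, 49, 29), (9, 40, 27), (16, 71, 27), (7, 31, 29), (19, 84, 29), (17, 75, 29), (5, 22, 25), (18, 79, 25), (8, 35, 27), (11, 48, 27), (17, 74, 27), (3, 13, 27), (19, 82, 27), (16, 69, 27), (10, 43, 27), (17, 73, 27), (7, 30, 26), (18, 77, 26), (11, 47, 26), (19, 81, 26), (4, 17, 26), (17, 72, 26), (9, 38, 26), (19, 80, 26), (5, 21, 24), (11, 46, 24), (17, 71, 24), (6, 25, 24), (19, 79, 24), (7, 29, 24), (29, 120, 20), (8, 33, 22), (17, 70, 22), (9, 37, 24), (19, 78, 24), (10, 41, 25), (11, 45, 27), (12, 49, 27), (17, 69, 27), (18, 73, 27), (19, 77, 27), (20, 81, 27), (1, 4, 26), (20, 79, 26), (19, 75, 26), (18, 71, 26), (13, 51, 26), (12, 47, 26), (11, 43, 26), (21, 82,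 26), (10, 39, 26), (19, 74, 26), (9, 35, 26), (8, 31, 27), (31, 120, 27), (7, 27, 29), (20, 77, 29), (13, 50, 29), (19, 73, 29), (6, 23, 31), (11, 42, 29), (21, 80, 29), (5, 19, 26), (19, 72, 26), (9, 34, 25), (13, 49, 25), (21, 79, 25), (4, 15, 21), (19, 71, 21), (11, 41, 21), (7, 26, 22), (10, 37, 22), (13, 48, 27), (19, 70, 27), (22, 81, 27), (3, 11, 24), (23, 84, 24), (20, 73, 24), (14, 51, 23), (11, 40, 14), (19, 69, 14), (8, 29, 16), (21, 76, 16), (13, 47, 14), (5, 18, 28), (22, 79, 28)]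

/-- cells -/
def ubC4 : List (ℕ × ℕ × ℕ) := [(12, 43, 29), (7, 25, 29), (23, 82, 29), (9, 32, 28), (20, 71, 28), (11, 39, 28), (13, 46, 29), (17, 60, 29), (21, 74, 29), (23, 81, 29), (2, 7, 29), (23, 80, 29), (21, 73, 29), (13, 45, 27), (11, 38, 23), (20, 69, 23), (9, 31, 26), (23, 79, 26), (7, 24, 24), (12, 41, 26), (22, 75, 26), (5, 17, 26), (23, 78, 26), (13, 44, 23), (21, 71, 23), (8, 27, 23), (11, 37, 25), (25, 84, 25), (14, 47, 25), (23, 77, 25), (3, 10, 14), (22, 73, 14), (13, 43, 14), (23, 76, 14), (10, 33, 17), (24, 79, 17), (7, 23, 20), (25, 82, 20), (11, 36, 29), (15, 49, 29), (23, 75, 29), (4, 13, 30), (37, 120, 30), (25, 81, 30), (13, 42, 29), (22, 71, 29), (9, 29, 30), (23, 74, 30), (14, 45, 30), (24, 77, 30), (5, 16, 27), (16, 51, 27), (11, 35, 29), (23, 73, 29), (6, 19, 28), (25, 79, 28), (19, 60, 28), (13, 41, 30), (7, 22, 26), (22, 69, 26), (15, 47, 26), (23, 72, 26), (8, 25, 26),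 (25, 78, 26), (26, 81, 26), (9, 28, 23), (10, 31, 25), (11, 34, 26), (23, 71, 26), (12, 37, 28), (25, 77, 28), (13, 40, 17), (14, 43, 19), (15, 46, 24), (16, 49, 24), (23, 70, 24), (24, 73, 24), (25, 76, 24), (26, 79, 24), (27, 82, 24), (1, 3, 32), (27, 80, 32), (26, 77, 32), (25, 74, 32), (24, 71, 32), (17, 50, 32), (16, 47, 32), (15, 44, 27), (14, 41, 27), (41, 120, 27), (27, 79, 27), (13, 38, 24), (25, 73, 24), (12, 35, 24), (11, 32, 23), (10, 29, 25), (29, 84, 25), (28, 81, 25), (9, 26, 26), (26, 75, 26)]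

/-- cells -/
def ubC5 : List (ℕ × ℕ × ℕ) := [(17, 49, 26), (25, 72, 26), (8, 23, 24), (15, 43, 22), (7, 20, 18), (27, 77, 18), (13, 37, 20), (25, 71, 20), (6, 17, 20), (29, 82, 20), (17, 48, 27), (28, 79, 27), (11, 31, 27), (27, 76, 27), (16, 45, 29), (26, 73, 29), (5, 14, 26), (29, 81, 26), (43, 120, 18), (14, 39, 19), (9, 25, 19), (13, 36, 30), (17, 47, 30), (25, 69, 30), (29, 80, 30), (4, 11, 29), (27, 74, 29), (15, 41, 29), (26, 71, 29), (11, 30, 25), (29, 79, 25), (18, 49, 25), (7, 19, 24), (31, 84, 24), (17, 46, 24), (27, 73, 24), (10, 27, 25), (13, 35, 27), (29, 78, 27), (16, 43, 26), (19, 51, 26), (28, 75, 26), (3, 8, 27), (29, 77, 27), (26, 69, 27), (17, 45, 27), (31, 82, 27), (14, 37, 29), (11, 29, 31), (30, 79, 31), (19, 50, 31), (27, 71, 31), (8, 21, 29), (29, 76, 29), (13, 34, 29), (31, 81, 29), (18, 47, 27), (23, 60, 21), (28, 73, 21), (5, 13, 20), (27, 70, 20), (17, 44, 15), (29, 75,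 15), (12, 31, 17), (31, 80, 17), (19, 49, 15), (7, 18, 27), (30, 77, 27), (16, 41, 27), (9, 23, 30), (47, 120, 30), (29, 74, 30), (20, 51, 30), (31, 79, 30), (11, 28, 27), (13, 33, 29), (28, 71, 29), (15, 38, 26), (32, 81, 26), (17, 43, 25), (19, 48, 31), (29, 73, 31), (31, 78, 31), (2, 5, 32), (33, 82, 32), (31, 77, 32), (29, 72, 32), (19, 47, 32), (17, 42, 30), (32, 79, 30), (15, 37, 30), (28, 69, 30), (13, 32, 30), (11, 27, 32), (31, 76, 32), (20, 49, 30), (49, 120, 24), (29, 71, 24), (9, 22, 16), (16, 39, 16)]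

/-- cells -/
def ubC6 : List (ℕ × ℕ × ℕ) := [(30, 73, 16), (7, 17, 16), (33, 80, 16), (19, 46, 18), (31, 75, 18), (12, 29, 18), (29, 70, 18), (17, 41, 20), (32, 77, 20), (5, 12, 27), (33, 79, 27), (18, 43, 28), (31, 74, 28), (13, 31, 29), (34, 81, 29), (21, 50, 29), (29, 69, 29), (8, 19, 29), (19, 45, 29), (30, 71, 29), (11, 26, 27), (14, 33, 30), (31, 73, 30), (17, 40, 29), (20, 47, 29), (32, 75, 29), (35, 82, 29), (3, 7, 29), (34, 79, 29), (31, 72, 29), (22, 51, 29), (19, 44, 24), (35, 81, 24), (16, 37, 24), (13, 30, 17), (33, 76, 17), (10, 23, 18), (17, 39, 20), (31, 71, 20), (7, 16, 25), (32, 73, 25), (18, 41, 27), (11, 25, 27), (37, 84, 27), (15, 34, 27), (34, 77, 27), (53, 120, 19), (19, 43, 21), (31, 70, 21), (35, 79, 21), (4, 9, 32), (33, 74, 32), (21, 47, 31), (17, 38, 29), (13, 29, 31), (35, 78, 31), (22, 49, 31), (31, 69, 31), (9, 20, 28), (32, 71, 28), (23, 51, 28), (37, 82, 28), (14, 31,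 30), (33, 73, 30), (19, 42, 28), (34, 75, 28), (5, 11, 23), (36, 79, 23), (21, 46, 23), (37, 81, 23), (16, 35, 23), (11, 24, 27), (17, 37, 29), (23, 50, 29), (35, 76, 29), (6, 13, 29), (37, 80, 29), (19, 41, 29), (32, 69, 29), (13, 28, 28), (33, 71, 28), (20, 43, 28), (34, 73, 28), (7, 15, 21), (36, 77, 21), (22, 47, 21), (37, 79, 21), (15, 32, 20), (38, 81, 20), (23, 49, 18), (8, 17, 16), (33, 70, 16), (17, 36, 28), (35, 74, 28), (9, 19, 28), (37, 78, 28), (19, 40, 27), (39, 82, 27), (10, 21, 27), (21, 44, 22)]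

/-- cells -/
def ubC7 : List (ℕ × ℕ × ℕ) := [(11, 23, 22), (34, 71, 22), (23, 48, 28), (35, 73, 28), (12, 25, 28), (37, 77, 28), (38, 79, 28), (13, 27, 28), (14, 29, 28), (29, 60, 28), (15, 31, 28), (16, 33, 29), (17, 35, 31), (35, 72, 31), (18, 37, 33), (37, 76, 33), (19, 39, 35), (39, 80, 35), (20, 41, 37), (41, 84, 37), (21, 43, 35), (22, 45, 34), (23, 47, 34), (24, 49, 34), (25, 51, 34), (59, 120, 34), (34, 69, 34), (35, 71, 34), (36, 73, 34), (37, 75, 34), (38, 77, 34), (39, 79, 34), (40, 81, 34), (1, 2, 28), (41, 81, 28), (40, 79, 28), (39, 77, 28), (38, 75, 28), (37, 73, 28), (36, 71, 28), (35, 69, 28), (61, 120, 28), (26, 51, 28), (25, 49, 28), (24, 47, 28), (23, 45, 28), (22, 43, 28), (43, 84, 28), (21, 41, 28), (41, 80, 28), (20, 39, 28), (39, 76, 28), (19, 37, 28), (37, 72, 28), (18, 35, 28), (17, 33, 28), (16, 31, 28), (31, 60, 24), (15, 29, 26), (14, 27, 28), (41, 79, 28), (40, 77, 28),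 (13, 25, 30), (38, 73, 30), (25, 48, 29), (37, 71, 29), (12, 23, 27), (23, 44, 27), (11, 21, 28), (43, 82, 28), (21, 40, 19), (41, 78, 19), (10, 19, 17), (39, 74, 17), (19, 36, 28), (37, 70, 28), (9, 17, 29), (26, 49, 29), (43, 81, 29), (17, 32, 29), (42, 79, 29), (25, 47, 29), (41, 77, 29), (8, 15, 29), (39, 73, 29), (23, 43, 29), (38, 71, 29), (15, 28, 29), (37, 69, 29), (22, 41, 29), (43, 80, 29), (7, 13, 30), (41, 76, 30), (27, 50, 30), (20, 37, 30), (13, 24, 20), (19, 35, 22), (44, 81, 22), (25, 46, 27), (43, 79, 27)]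

/-- cells -/
def ubC8 : List (ℕ × ℕ × ℕ) := [(6, 11, 27), (41, 75, 27), (23, 42, 26), (40, 73, 26), (17, 31, 28), (45, 82, 28), (28, 51, 28), (39, 71, 28), (11, 20, 17), (38, 69, 17), (27, 49, 17), (43, 78, 17), (16, 29, 17), (21, 38, 13), (26, 47, 13), (41, 74, 13), (5, 9, 27), (44, 79, 27), (39, 70, 27), (24, 43, 27), (67, 120, 27), (43, 77, 27), (19, 34, 27), (47, 84, 27), (14, 25, 28), (23, 41, 28), (41, 73, 28), (9, 16, 28), (40, 71, 28), (22, 39, 28), (13, 23, 29), (43, 76, 29), (17, 30, 27), (21, 37, 29), (46, 81, 29), (25, 44, 29), (29, 51, 29), (41, 72, 29), (45, 79, 29), (4, 7, 29), (47, 82, 29), (43, 75, 29), (27, 47, 27), (23, 40, 18), (42, 73, 18), (19, 33, 20), (15, 26, 20), (41, 71, 20), (26, 45, 18), (11, 19, 16), (40, 69, 16), (29, 50, 16), (47, 81, 16), (18, 31, 18), (43, 74, 18), (25, 43, 19), (46, 79, 19), (7, 12, 27), (45, 77, 27), (24, 41, 28), (41, 70, 28), (17, 29, 29), (44,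 75, 29), (27, 46, 29), (47, 80, 29), (10, 17, 30), (43, 73, 30), (23, 39, 32), (13, 22, 30), (42, 71, 30), (71, 120, 30), (29, 49, 30), (45, 76, 30), (16, 27, 30), (19, 32, 28), (41, 69, 28), (22, 37, 30), (47, 79, 30), (25, 42, 31), (28, 47, 31), (43, 72, 31), (46, 77, 31), (49, 82, 31), (3, 5, 21), (47, 78, 21), (44, 73, 21), (29, 48, 19), (26, 43, 22), (49, 81, 22), (23, 38, 22), (43, 71, 22), (20, 33, 25), (17, 28, 25), (48, 79, 25), (31, 51, 25), (45, 74, 25), (73, 120, 17), (14, 23, 17), (25, 41, 19), (47, 77, 19)]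

/-- cells -/
def ubC9 : List (ℕ × ℕ × ℕ) := [(11, 18, 28), (30, 49, 28), (49, 80, 28), (19, 31, 30), (46, 75, 30), (27, 44, 29), (43, 70, 29), (8, 13, 29), (45, 73, 29), (37, 60, 29), (29, 47, 29), (50, 81, 29), (21, 34, 29), (47, 76, 29), (13, 21, 30), (44, 71, 30), (31, 50, 30), (49, 79, 30), (18, 29, 31), (23, 37, 33), (51, 82, 33), (28, 45, 33), (43, 69, 33), (48, 77, 33), (5, 8, 20), (47, 75, 20), (32, 51, 20), (27, 43, 20), (49, 78, 20), (22, 35, 23), (17, 27, 25), (46, 73, 25), (29, 46, 27), (53, 84, 27), (12, 19, 23), (31, 49, 23), (50, 79, 23), (19, 30, 20), (45, 71, 20), (26, 41, 20), (47, 74, 20), (7, 11, 16), (51, 80, 16), (44, 69, 16), (30, 47, 14), (23, 36, 27), (16, 25, 29), (25, 39, 29), (77, 120, 29), (52, 81, 29), (9, 14, 27), (47, 73, 27), (29, 45, 27), (49, 76, 27), (20, 31, 29), (51, 79, 29), (31, 48, 29), (53, 82, 29), (11, 17, 30), (46, 71, 30), (24, 37, 32), (50, 77, 32), (13,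 20, 23), (28, 43, 26), (15, 23, 31), (47, 72, 31), (32, 49, 31), (49, 75, 31), (17, 26, 29), (53, 81, 29), (55, 84, 29), (19, 29, 29), (21, 32, 27), (23, 35, 29), (48, 73, 29), (25, 38, 27), (52, 79, 27), (79, 120, 21), (27, 41, 22), (29, 44, 20), (31, 47, 20), (33, 50, 20), (47, 71, 20), (49, 74, 20), (51, 77, 20), (53, 80, 20), (2, 3, 32), (55, 82, 32), (53, 79, 32), (51, 76, 32), (49, 73, 32), (47, 70, 32), (33, 49, 30), (31, 46, 28), (29, 43, 28), (27, 40, 26), (52, 77, 26), (25, 37, 28), (48, 71, 28), (23, 34, 28)]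

/-- cells -/
def ubC10 : List (ℕ × ℕ × ℕ) := [(21, 31, 30), (19, 28, 30), (55, 81, 30), (53, 78, 30), (17, 25, 32), (49, 72, 32), (32, 47, 31), (47, 69, 31), (15, 22, 23), (28, 41, 23), (41, 60, 18), (54, 79, 18), (13, 19, 16), (50, 73, 16), (24, 35, 16), (35, 51, 16), (11, 16, 21), (53, 77, 21), (31, 45, 23), (51, 74, 23), (20, 29, 23), (49, 71, 23), (29, 42, 23), (56, 81, 23), (83, 120, 15), (9, 13, 15), (52, 75, 15), (34, 49, 13), (25, 36, 29), (57, 82, 29), (16, 23, 29), (55, 79, 29), (23, 33, 31), (53, 76, 31), (30, 43, 31), (51, 73, 31), (7, 10, 29), (54, 77, 29), (33, 47, 29), (59, 84, 29), (26, 37, 30), (19, 27, 32), (50, 71, 32), (31, 44, 26), (55, 78, 26), (12, 17, 27), (53, 75, 27), (29, 41, 27), (17, 24, 23), (56, 79, 23), (22, 31, 23), (49, 69, 23), (27, 38, 23), (32, 45, 25), (52, 73, 25), (57, 80, 25), (5, 7, 25), (58, 81, 25), (53, 74, 25), (43, 60, 17), (33, 46, 18), (28, 39, 20), (51,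 71, 20), (23, 32, 19), (59, 82, 19), (18, 25, 19), (31, 43, 20), (57, 79, 20), (13, 18, 29), (34, 47, 29), (55, 76, 29), (21, 29, 30), (50, 69, 30), (29, 40, 28), (37, 51, 28), (53, 73, 28), (61, 84, 28), (8, 11, 27), (59, 81, 27), (51, 70, 27), (35, 48, 27), (27, 37, 27), (19, 26, 27), (30, 41, 27), (52, 71, 27), (11, 15, 25), (58, 79, 25), (36, 49, 25), (25, 34, 25), (53, 72, 25), (14, 19, 24), (59, 80, 24), (31, 42, 24), (17, 23, 24), (54, 73, 24), (37, 50, 24), (57, 77, 24), (20, 27, 24), (89, 120, 20), (23, 31, 21)]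

/-- cells -/
def ubC11 : List (ℕ × ℕ × ℕ) := [(26, 35, 23), (55, 74, 23), (29, 39, 25), (61, 82, 25), (32, 43, 27), (35, 47, 27), (38, 51, 27), (53, 71, 27), (56, 75, 27), (59, 79, 27), (3, 4, 26), (61, 81, 26), (58, 77, 26), (55, 73, 26), (52, 69, 26), (37, 49, 26), (34, 45, 26), (31, 41, 26), (59, 78, 26), (28, 37, 26), (53, 70, 26), (25, 33, 26), (91, 120, 26), (22, 29, 28), (60, 79, 28), (19, 25, 30), (54, 71, 30), (35, 46, 30), (16, 21, 29), (61, 80, 29), (29, 38, 26), (55, 72, 26), (13, 17, 25), (62, 81, 25), (36, 47, 25), (59, 77, 25), (23, 30, 21), (56, 73, 21), (33, 43, 21), (53, 69, 21), (63, 82, 21), (10, 13, 22), (57, 74, 22), (37, 48, 25), (27, 35, 27), (61, 79, 27), (17, 22, 23), (58, 75, 23), (65, 84, 23), (24, 31, 25), (55, 71, 25), (31, 40, 15), (38, 49, 15), (59, 76, 15), (7, 9, 28), (60, 77, 28), (39, 50, 28), (32, 41, 28), (57, 73, 28), (25, 32, 27), (61, 78, 27), (18, 23, 27), (47,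 60, 27), (29, 37, 29), (40, 51, 29), (62, 79, 29), (11, 14, 27), (59, 75, 27), (37, 47, 27), (63, 80, 27), (26, 33, 29), (56, 71, 29), (15, 19, 26), (64, 81, 26), (34, 43, 24), (19, 24, 26), (61, 77, 26), (65, 82, 26), (23, 29, 26), (27, 34, 25), (58, 73, 25), (31, 39, 27), (35, 44, 25), (39, 49, 25), (55, 69, 25), (59, 74, 25), (63, 79, 25), (67, 84, 25), (4, 5, 18), (65, 81, 18), (61, 76, 18), (57, 71, 18), (41, 51, 17), (37, 46, 16), (33, 41, 18), (62, 77, 18), (29, 36, 28), (25, 31, 30), (21, 26, 31), (59, 73, 31)]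

/-- cells -/
def ubC12 : List (ℕ × ℕ × ℕ) := [(97, 120, 31), (38, 47, 31), (17, 21, 30), (64, 79, 30), (30, 37, 30), (56, 69, 30), (13, 16, 29), (61, 75, 29), (35, 43, 30), (57, 70, 30), (22, 27, 30), (31, 38, 27), (40, 49, 27), (49, 60, 27), (58, 71, 27), (67, 82, 27), (9, 11, 24), (59, 72, 24), (41, 50, 24), (32, 39, 26), (23, 28, 24), (60, 73, 24), (37, 45, 24), (65, 79, 24), (14, 17, 24), (61, 74, 24), (33, 40, 15), (19, 23, 19), (62, 75, 19), (67, 81, 19), (24, 29, 19), (29, 35, 21), (63, 76, 21), (34, 41, 23), (39, 47, 23), (59, 71, 23), (64, 77, 23), (5, 6, 28), (66, 79, 28), (61, 73, 28), (41, 49, 28), (36, 43, 28), (67, 80, 28), (31, 37, 29), (26, 31, 31), (68, 81, 31), (21, 25, 32), (58, 69, 32), (37, 44, 29), (69, 82, 29), (101, 120, 26), (16, 19, 24), (59, 70, 24), (43, 51, 24), (27, 32, 23), (65, 77, 23), (38, 45, 23), (60, 71, 23), (71, 84, 23), (11, 13, 24), (61, 72, 24), (39, 46, 24),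 (67, 79, 24), (28, 33, 26), (62, 73, 26), (17, 20, 18), (40, 47, 18), (63, 74, 18), (23, 27, 20), (29, 34, 20), (64, 75, 20), (35, 41, 20), (41, 48, 27), (59, 69, 27), (65, 76, 27), (6, 7, 22), (103, 120, 18), (67, 78, 18), (61, 71, 18), (43, 50, 17), (37, 43, 18), (68, 79, 18), (31, 36, 31), (25, 29, 33), (69, 80, 33), (44, 51, 33), (63, 73, 33), (19, 22, 29), (70, 81, 29), (32, 37, 31), (71, 82, 31), (13, 15, 25), (33, 38, 24), (73, 84, 24), (20, 23, 24), (67, 77, 24), (27, 31, 25), (61, 70, 25), (34, 39, 28), (41, 47, 28)]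

/-- cells -/
def ubC13 : List (ℕ × ℕ × ℕ) := [(62, 71, 28), (69, 79, 28), (7, 8, 25), (71, 81, 25), (64, 73, 25), (43, 49, 25), (36, 41, 25), (65, 74, 25), (29, 33, 27), (22, 25, 28), (37, 42, 26), (67, 76, 26), (15, 17, 25), (68, 77, 25), (53, 60, 18), (38, 43, 19), (61, 69, 19), (23, 26, 17), (31, 35, 20), (70, 79, 20), (39, 44, 17), (63, 71, 17), (71, 80, 17), (8, 9, 32), (73, 82, 32), (65, 73, 32), (41, 46, 30), (107, 120, 30), (33, 37, 32), (25, 28, 31), (67, 75, 31), (42, 47, 29), (17, 19, 24), (43, 48, 29), (69, 77, 29), (26, 29, 29), (35, 39, 31), (44, 49, 31), (62, 69, 31), (71, 79, 31), (9, 10, 28), (73, 81, 28), (64, 71, 28), (46, 51, 28), (37, 41, 28), (65, 72, 28), (28, 31, 30), (66, 73, 30), (19, 21, 28), (67, 74, 28), (29, 32, 28), (68, 75, 28), (39, 43, 28), (69, 76, 28), (109, 120, 20), (10, 11, 16), (71, 78, 16), (41, 45, 16), (72, 79, 16), (31, 34, 16), (73, 80, 16), (21, 23, 20),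 (74, 81, 20), (32, 35, 22), (75, 82, 22), (43, 47, 22), (65, 71, 22), (11, 12, 28), (67, 73, 28), (45, 49, 28), (34, 37, 29), (23, 25, 30), (35, 38, 27), (47, 51, 27), (71, 77, 27), (12, 13, 28), (73, 79, 28), (37, 40, 25), (25, 27, 27), (38, 41, 27), (64, 69, 27), (13, 14, 25), (66, 71, 25), (40, 43, 25), (67, 72, 25), (27, 29, 27), (68, 73, 27), (41, 44, 22), (69, 74, 22), (14, 15, 16), (71, 76, 16), (43, 46, 20), (72, 77, 20), (29, 31, 21), (73, 78, 21), (44, 47, 21), (74, 79, 21), (15, 16, 25), (76, 81, 25), (46, 49, 25)]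

/-- cells -/
def ubC14 : List (ℕ × ℕ × ℕ) := [(77, 82, 25), (31, 33, 26), (47, 50, 26), (79, 84, 26), (16, 17, 23), (113, 120, 17), (65, 69, 17), (33, 35, 19), (67, 71, 19), (17, 18, 32), (69, 73, 32), (35, 37, 34), (71, 75, 34), (18, 19, 31), (73, 77, 31), (37, 39, 34), (75, 79, 34), (19, 20, 30), (77, 81, 30), (39, 41, 32), (20, 21, 30), (41, 43, 28), (21, 22, 23), (43, 45, 25), (22, 23, 30), (67, 70, 30), (45, 47, 30), (68, 71, 30), (23, 24, 35), (70, 73, 35), (47, 49, 35), (71, 74, 35), (24, 25, 35), (73, 76, 35), (49, 51, 35), (74, 77, 35), (25, 26, 33), (76, 79, 33), (77, 80, 33), (26, 27, 33), (79, 82, 33), (27, 28, 30), (28, 29, 30), (29, 30, 20), (30, 31, 20), (31, 32, 17), (32, 33, 18), (33, 34, 17), (67, 69, 17), (34, 35, 19), (69, 71, 19), (35, 36, 33), (71, 73, 33), (36, 37, 35), (73, 75, 35), (37, 38, 32), (75, 77, 32), (38, 39, 35), (77, 79, 35), (39, 40, 32), (79, 81, 32), (40, 41, 34),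 (41, 42, 32), (42, 43, 30), (43, 44, 27), (44, 45, 29), (45, 46, 34), (46, 47, 34), (47, 48, 42), (48, 49, 42), (49, 50, 42), (50, 51, 42), (59, 60, 42), (68, 69, 42), (69, 70, 42), (70, 71, 42), (71, 72, 42), (72, 73, 42), (73, 74, 42), (74, 75, 42), (75, 76, 42), (76, 77, 42), (77, 78, 42), (78, 79, 42), (79, 80, 42), (80, 81, 42), (81, 82, 42), (83, 84, 42), (119, 120, 34), (1, 1, 0)]

/-- all cells -/
def ubC : List (ℕ × ℕ × ℕ) := ubC0 ++ (ubC1 ++ (ubC2 ++ (ubC3 ++ (ubC4 ++ (ubC5 ++ (ubC6 ++ (ubC7 ++ (ubC8 ++ (ubC9 ++ (ubC10 ++ (ubC11 ++ (ubC12 ++ (ubC13 ++ (ubC14))))))))))))))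

theorem ubC0ok : cellsB 8 120 36 38 ubdm (ubC0 ++ [(6, 71, 27)]) = true := by decide +kernel

theorem ubC1ok : cellsB 8 120 36 38 ubdm (ubC1 ++ [(7, 47, 28)]) = true := by decide +kernel

theorem ubC2ok : cellsB 8 120 36 38 ubdm (ubC2 ++ [(3, 14, 25)]) = true := by decide +kernel

theorem ubC3ok : cellsB 8 120 36 38 ubdm (ubC3 ++ [(12, 43, 29)]) = true := by decide +kernel

theorem ubC4ok : cellsB 8 120 36 38 ubdm (ubC4 ++ [(17, 49, 26)]) = true := by decide +kernel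

theorem ubC5ok : cellsB 8 120 36 38 ubdm (ubC5 ++ [(30, 73, 16)]) = true := by decide +kernel

theorem ubC6ok : cellsB 8 120 36 38 ubdm (ubC6 ++ [(11, 23, 22)]) = true := by decide +kernel

theorem ubC7ok : cellsB 8 120 36 38 ubdm (ubC7 ++ [(6, 11, 27)]) = true := by decide +kernel

theorem ubC8ok : cellsB 8 120 36 38 ubdm (ubC8 ++ [(11, 18, 28)]) = true := by decide +kernel

theorem ubC9ok : cellsB 8 120 36 38 ubdm (ubC9 ++ [(21, 31, 30)]) = true := by decide +kernel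

theorem ubC10ok : cellsB 8 120 36 38 ubdm (ubC10 ++ [(26, 35, 23)]) = true := by decide +kernel

theorem ubC11ok : cellsB 8 120 36 38 ubdm (ubC11 ++ [(97, 120, 31)]) = true := by decide +kernel

theorem ubC12ok : cellsB 8 120 36 38 ubdm (ubC12 ++ [(62, 71, 28)]) = true := by decide +kernel

theorem ubC13ok : cellsB 8 120 36 38 ubdm (ubC13 ++ [(77, 82, 25)]) = true := by decide +kernel

theorem ubC14ok : cellsB 8 120 36 38 ubdm ubC14 = true := by decide +kernel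

theorem ubCok : cellsB 8 120 36 38 ubdm ubC = true := by
  unfold ubC
  exact (cellsB_app (6, 71, 27) _ _ ubC0ok (cellsB_app (7, 47, 28) _ _ ubC1ok (cellsB_app (3, 14, 25) _ _ ubC2ok (cellsB_app (12, 43, 29) _ _ ubC3ok (cellsB_app (17, 49, 26) _ _ ubC4ok (cellsB_app (30, 73, 16) _ _ ubC5ok (cellsB_app (11, 23, 22) _ _ ubC6ok (cellsB_app (6, 11, 27) _ _ ubC7ok (cellsB_app (11, 18, 28) _ _ ubC8ok (cellsB_app (21, 31, 30) _ _ ubC9ok (cellsB_app (26, 35, 23) _ _ ubC10ok (cellsB_app (97, 120, 31) _ _ ubC11ok (cellsB_app (62, 71, 28) _ _ ubC12ok (cellsB_app (77, 82, 25) _ _ ubC13ok ubC14ok rfl) rfl) rfl) rfl) rfl) rfl) rfl) rfl) rfl) rfl) rfl) rfl) rfl) rfl)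

theorem ubXok : realOK 8 120 36 3 3318 ubdm (0 :: 4 :: [7, 9, 11, 12, 13, 14, 15, 16, 17, 18, 19, 20, 21, 22, 23, 24, 25, 26, 27, 28, 29, 30, 32, 34, 36, 39, 42, 46, 51, 58, 68, 83, 108]) = true := by decide +kernel

end Pool.Agent.H337R2
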