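import Pool.Agent.H337R2.CheckR

/-!
# Families of parameters: a base plus copies of a block
-/

open Filter Topology

namespace Pool.Agent.H337R2

/-- repeated block -/
def reps (m : ℕ) (dm : List (ℕ × ℕ)) : List (ℕ × ℕ) := dm.map fun z => (z.1, m * z.2)

/-- base plus repeated block -/
def comb (dm dmB : List (ℕ × ℕ)) (m : ℕ) : List (ℕ × ℕ) := dm ++ reps m dmB

lemma expd_cons (z : ℕ × ℕ) (L : List (ℕ × ℕ)) : expd (z :: L) = List.replicate z.2 z.1 ++ expd L := by
  unfold expd; rw [List.flatMap_cons]

lemma expd_append (L M : List (ℕ × ℕ)) : expd (L ++ M) = expd L ++ expd M := by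
  unfold expd; rw [List.flatMap_append]

lemma sum_reps {α : Type} [AddCommMonoid α] (m : ℕ) (M : List (ℕ × ℕ)) (f : ℕ → α) :
    ((expd (reps m M)).map f).sum = m • ((expd M).map f).sum := by
  induction M with
  | nil => simp [reps, expd]
  | cons z L ih =>
    have e : reps m (z :: L) = (z.1, m * z.2) :: reps m L := rfl
    rw [e, expd_cons, expd_cons, List.map_append, List.sum_append, ih, List.map_append, List.sum_append,
      List.map_replicate, List.map_replicate, List.sum_replicate, List.sum_replicate, nsmul_add, mul_nsmul']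

lemma sum_comb {α : Type} [AddCommMonoid α] (dm dmB : List (ℕ × ℕ)) (m : ℕ) (f : ℕ → α) :
    ((expd (comb dm dmB m)).map f).sum = ((expd dm).map f).sum + m • ((expd dmB).map f).sum := by
  unfold comb
  rw [expd_append, List.map_append, List.sum_append, sum_reps]

lemma length_comb (dm dmB : List (ℕ × ℕ)) (m : ℕ) :
    (expd (comb dm dmB m)).length = (expd dm).length + m * (expd dmB).length := by
  have h := sum_comb dm dmB m (fun _ => 1)
  simpa using h

lemma mem_comb {dm dmB : List (ℕ × ℕ)} {m d : ℕ} (h : d ∈ expd (comb dm dmB m)) : d ∈ expd dm ∨ d ∈ expd dmB := by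
  unfold comb at h
  rw [expd_append, List.mem_append] at h
  rcases h with h | h
  · exact Or.inl h
  · right
    unfold expd reps at h
    rw [List.mem_flatMap] at h
    obtain ⟨z, hz, hz2⟩ := h
    rw [List.mem_map] at hz
    obtain ⟨w, hw, rfl⟩ := hz
    simp only [List.mem_replicate] at hz2
    unfold expd
    rw [List.mem_flatMap]
    refine ⟨w, hw, ?_⟩
    rw [List.mem_replicate]
    refine ⟨?_, hz2.2⟩
    intro h0
    rw [h0] at hz2
    simp at hz2

lemma ee_comb (p b B h c n k : ℕ) (dm dmB : List (ℕ × ℕ)) (m : ℕ) :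
    ee p (b + B * m) h c n (expd (comb dm dmB m)) k = ee p b h c n (expd dm) k + m * ee p B h c n (expd dmB) k := by
  unfold ee nq
  rw [sum_comb, sum_comb, smul_eq_mul, smul_eq_mul, Nat.cast_add _ (m * _), Nat.cast_add _ (m * _), Nat.cast_mul m,
    Nat.cast_mul m, Nat.cast_add b, Nat.cast_mul B]
  ring

lemma f0_comb (b B h c : ℕ) (dm dmB : List (ℕ × ℕ)) (m : ℕ) (τ : ℝ) :
    f0 (b + B * m) h c (expd (comb dm dmB m)) τ = f0 b h c (expd dm) τ + m * f0 B h c (expd dmB) τ := by
  unfold f0
  rw [sum_comb]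
  push_cast
  rw [nsmul_eq_mul]
  ring

/-- check of the cells of a block -/
def cellsB (B h c D : ℕ) (dm : List (ℕ × ℕ)) : List (ℕ × ℕ × ℕ) → Bool
  | x :: y :: L => cellOK B h c D dm ((B : ℤ) - x.2.2) (-(x.2.2 : ℤ)) (x.1, x.2.1) (y.1, y.2.1) &&
      cellsB B h c D dm (y :: L)
  | _ => true

/-- same breakpoints -/
def sameB : List (ℕ × ℕ × ℕ) → List (ℕ × ℕ × ℕ) → Bool
  | x :: L, y :: M => Nat.beq x.1 y.1 && Nat.beq x.2.1 y.2.1 && sameB L M
  | [], [] => true
  | _, _ => false

/-- sum of the exponents -/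
def mix (m : ℕ) : List (ℕ × ℕ × ℕ) → List (ℕ × ℕ × ℕ) → List (ℕ × ℕ × ℕ)
  | x :: L, y :: M => (x.1, x.2.1, x.2.2 + m * y.2.2) :: mix m L M
  | _, _ => []

lemma mix_valid {b B h c D m : ℕ} {dm dmB : List (ℕ × ℕ)} (hcD : c < D) (hch : 2 * c + D < h)
    (hDD : 2 * D + c < h) (hdm : ∀ z ∈ dm, 2 * z.1 < h ∧ D ≤ z.1) (hdmB : ∀ z ∈ dmB, 2 * z.1 < h ∧ D ≤ z.1)
    (L : List (ℕ × ℕ × ℕ)) : ∀ M : List (ℕ × ℕ × ℕ), cellsOK b h c D dm L = true → cellsB B h c D dmB M = true →
    sameB L M = true → Valid (b + B * m) h c (expd (comb dm dmB m)) (mix m L M) ∧ Inc (mix m L M) ∧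
      cost (mix m L M) = cost L + m * cost M := by
  induction L with
  | nil =>
    intro M _ _ hs
    cases M with
    | nil => exact ⟨trivial, trivial, by simp [mix, cost]⟩
    | cons y M => simp [sameB] at hs
  | cons x L ih =>
    intro M hL hM hs
    cases M with
    | nil => simp [sameB] at hs
    | cons u M =>
      unfold sameB at hs
      simp only [Bool.and_eq_true, Nat.beq_eq] at hs
      obtain ⟨⟨s1, s2⟩, s3⟩ := hs
      cases L with
      | nil =>
        cases M with
        | nil => exact ⟨trivial, trivial, by simp [mix, cost]⟩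
        | cons v M => simp [sameB] at s3
      | cons y L =>
        cases M with
        | nil => simp [sameB] at s3
        | cons v M =>
          unfold cellsOK at hL
          simp only [Bool.and_eq_true, Nat.ble_eq] at hL
          obtain ⟨⟨h1, ⟨⟨⟨⟨h2, h3⟩, h4⟩, h5⟩, h6⟩⟩, h7⟩ := hL
          unfold cellsB at hM
          simp only [Bool.and_eq_true] at hM
          obtain ⟨g1, g2⟩ := hM
          obtain ⟨i1, i2, i3⟩ := ih (v :: M) h7 g2 s3
          have s3' := s3
          unfold sameB at s3'
          simp only [Bool.and_eq_true, Nat.beq_eq] at s3'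
          obtain ⟨⟨t1, t2⟩, _⟩ := s3'
          have em : mix m (x :: y :: L) (u :: v :: M) = (x.1, x.2.1, x.2.2 + m * u.2.2) :: mix m (y :: L) (v :: M) := rfl
          have em2 : mix m (y :: L) (v :: M) = (y.1, y.2.1, y.2.2 + m * v.2.2) :: mix m L M := rfl
          rw [em, em2]
          rw [em2] at i1 i2 i3
          refine ⟨⟨(by omega : 0 < x.1), ?_, i1⟩, ⟨(by omega : 0 < x.1), (by omega : 0 < y.1), h6, i2⟩, ?_⟩
          · intro p n hp hn hp2 hx hy k hk hm
            simp only at hx hy ⊢
            obtain ⟨d, hd, hd1, hd2⟩ := mu_ne_zero hm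
            have hDd : D ≤ d := by
              rcases mem_comb hd with hd' | hd'
              · obtain ⟨z, hz, hzd⟩ := mem_expd hd'
                have := hdm z hz
                omega
              · obtain ⟨z, hz, hzd⟩ := mem_expd hd'
                have := hdmB z hz
                omega
            have hDn : D * n ≤ d * n := Nat.mul_le_mul_right n hDd
            have hkD : k ≤ (h - D) * n := by
              have : (h - D) * n + D * n = h * n := by
                rw [← add_mul]; congr 1; omega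
              omega
            have h8 := cellOK_sound (D := D) (p := p) (n := n) (k := k) hcD hch (fun z hz => (hdm z hz).1) (by omega)
              (by simpa using (by omega : 0 < y.2.1)) h1 hn hx hy hkD
            have hx' : (u.1, u.2.1).1 * p < (u.1, u.2.1).2 * n := by
              simp only; rw [← s1, ← s2]; exact hx
            have hy' : (v.1, v.2.1).2 * n < (v.1, v.2.1).1 * p := by
              simp only; rw [← t1, ← t2]; exact hy
            have h9 := cellOK_sound (D := D) (p := p) (n := n) (k := k) hcD hch (fun z hz => (hdmB z hz).1) (by omega)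
              (by simpa using (by omega : 0 < v.2.1)) g1 hn hx' hy' hkD
            rw [ee_comb]
            have hm0 : (0 : ℤ) ≤ m := by positivity
            refine ⟨fun h10 => ?_, ?_⟩
            · have a1 := h8.1 h10
              have a2 := mul_le_mul_of_nonneg_left (h9.1 h10) hm0
              push_cast at a1 a2 ⊢
              linarith
            · rcases h8.2 with h10 | h10
              · right
                have hle : ∀ m : ℕ, m ≤ h - 2 * D → m * n < p := by
                  intro m hm2
                  exact lt_of_le_of_lt (Nat.mul_le_mul_right n hm2) h10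
                refine ⟨?_, ?_⟩
                · intro d' hd'
                  have : D ≤ d' := by
                    rcases mem_comb hd' with hd'' | hd''
                    · obtain ⟨z, hz, hzd⟩ := mem_expd hd''
                      have := hdm z hz
                      omega
                    · obtain ⟨z, hz, hzd⟩ := mem_expd hd''
                      have := hdmB z hz
                      omega
                  exact hle _ (by omega)
                · exact hle _ (by omega)
              · rcases h9.2 with h11 | h11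
                · right
                  have hle : ∀ m : ℕ, m ≤ h - 2 * D → m * n < p := by
                    intro m hm2
                    exact lt_of_le_of_lt (Nat.mul_le_mul_right n hm2) h11
                  refine ⟨?_, ?_⟩
                  · intro d' hd'
                    have : D ≤ d' := by
                      rcases mem_comb hd' with hd'' | hd''
                      · obtain ⟨z, hz, hzd⟩ := mem_expd hd''
                        have := hdm z hz
                        omega
                      · obtain ⟨z, hz, hzd⟩ := mem_expd hd''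
                        have := hdmB z hz
                        omega
                    exact hle _ (by omega)
                  · exact hle _ (by omega)
                · left
                  have a2 := mul_le_mul_of_nonneg_left h11 hm0
                  push_cast at a2 ⊢
                  linarith
          · unfold cost
            rw [i3]
            push_cast
            rw [← s1, ← s2, ← t1, ← t2]
            unfold cost
            ring

lemma mix_len (m : ℕ) (L : List (ℕ × ℕ × ℕ)) : ∀ M, sameB L M = true → (mix m L M).length = L.length := by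
  induction L with
  | nil => intro M _; cases M <;> simp [mix]
  | cons x L ih =>
    intro M hs
    cases M with
    | nil => simp [sameB] at hs
    | cons y M =>
      unfold sameB at hs
      simp only [Bool.and_eq_true] at hs
      have : mix m (x :: L) (y :: M) = (x.1, x.2.1, x.2.2 + m * y.2.2) :: mix m L M := rfl
      rw [this, List.length_cons, List.length_cons, ih M hs.2]

lemma mix_map (m : ℕ) (L : List (ℕ × ℕ × ℕ)) : ∀ M, sameB L M = true →
    (mix m L M).map (fun x => (x.1, x.2.1)) = L.map (fun x => (x.1, x.2.1)) := by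
  induction L with
  | nil => intro M _; cases M <;> simp [mix]
  | cons x L ih =>
    intro M hs
    cases M with
    | nil => simp [sameB] at hs
    | cons y M =>
      unfold sameB at hs
      simp only [Bool.and_eq_true] at hs
      have : mix m (x :: L) (y :: M) = (x.1, x.2.1, x.2.2 + m * y.2.2) :: mix m L M := rfl
      rw [this, List.map_cons, List.map_cons, ih M hs.2]

/-- upper bound of the cost -/
lemma cost_leI (Sc : ℕ) (hSc : 0 < Sc) (L : List (ℕ × ℕ × ℕ)) (hL : Inc L) : cost L ≤ (costN Sc L : ℝ) / Sc := by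
  have hS : (0 : ℝ) < Sc := by exact_mod_cast hSc
  induction L with
  | nil => simp [cost, costN]
  | cons x L ih =>
    cases L with
    | nil => simp [cost, costN]
    | cons y L =>
      obtain ⟨h2, h3, _, h7⟩ := hL
      have ih' := ih h7
      unfold cost costN
      have hx : (0 : ℝ) < x.1 := by exact_mod_cast h2
      have hy : (0 : ℝ) < y.1 := by exact_mod_cast h3
      have e1 : (x.2.1 : ℝ) / x.1 ≤ (((Sc * x.2.1) / x.1 + 1 : ℕ) : ℝ) / Sc := by
        rw [div_le_div_iff₀ hx hS]
        have h8 : Sc * x.2.1 < ((Sc * x.2.1) / x.1 + 1) * x.1 := by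
          have := Nat.lt_div_mul_add (a := Sc * x.2.1) (b := x.1) (by omega)
          linarith
        have h9 : ((Sc * x.2.1 : ℕ) : ℝ) ≤ ((((Sc * x.2.1) / x.1 + 1) * x.1 : ℕ) : ℝ) := by exact_mod_cast h8.le
        push_cast at h9 ⊢
        linarith
      have e2 : (((Sc * y.2.1) / y.1 : ℕ) : ℝ) / Sc ≤ (y.2.1 : ℝ) / y.1 := by
        rw [div_le_div_iff₀ hS hy]
        have h8 : ((Sc * y.2.1) / y.1) * y.1 ≤ Sc * y.2.1 := Nat.div_mul_le_self _ _
        have h9 : ((((Sc * y.2.1) / y.1) * y.1 : ℕ) : ℝ) ≤ ((Sc * y.2.1 : ℕ) : ℝ) := by exact_mod_cast h8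
        push_cast at h9 ⊢
        linarith
      have e3 : (((Sc * x.2.1) / x.1 + 1 : ℕ) : ℝ) - (((Sc * y.2.1) / y.1 : ℕ) : ℝ) ≤
          (((Sc * x.2.1) / x.1 + 1 - (Sc * y.2.1) / y.1 : ℕ) : ℝ) := by
        rw [sub_le_iff_le_add]
        exact_mod_cast (by omega : (Sc * x.2.1) / x.1 + 1 ≤ ((Sc * x.2.1) / x.1 + 1 - (Sc * y.2.1) / y.1) + (Sc * y.2.1) / y.1)
      have e4 : (x.2.1 : ℝ) / x.1 - (y.2.1 : ℝ) / y.1 ≤ (((Sc * x.2.1) / x.1 + 1 - (Sc * y.2.1) / y.1 : ℕ) : ℝ) / Sc := by
        calc _ ≤ (((Sc * x.2.1) / x.1 + 1 : ℕ) : ℝ) / Sc - (((Sc * y.2.1) / y.1 : ℕ) : ℝ) / Sc := by linarith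
          _ = ((((Sc * x.2.1) / x.1 + 1 : ℕ) : ℝ) - (((Sc * y.2.1) / y.1 : ℕ) : ℝ)) / Sc := by ring
          _ ≤ _ := div_le_div_of_nonneg_right e3 hS.le
      have e5 := mul_le_mul_of_nonneg_left e4 (by positivity : (0 : ℝ) ≤ (x.2.2 : ℝ))
      have e6 : ((x.2.2 * ((Sc * x.2.1) / x.1 + 1 - (Sc * y.2.1) / y.1) + costN Sc (y :: L) : ℕ) : ℝ) / Sc =
          (x.2.2 : ℝ) * ((((Sc * x.2.1) / x.1 + 1 - (Sc * y.2.1) / y.1 : ℕ) : ℝ) / Sc) + (costN Sc (y :: L) : ℝ) / Sc := by
        rw [Nat.cast_add, Nat.cast_mul]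
        ring
      rw [e6]
      linarith

lemma Inc_of_same (L : List (ℕ × ℕ × ℕ)) : ∀ M, sameB L M = true → Inc L → Inc M := by
  induction L with
  | nil => intro M hs _; cases M with
    | nil => trivial
    | cons y M => simp [sameB] at hs
  | cons x L ih =>
    intro M hs hI
    cases M with
    | nil => trivial
    | cons u M =>
      unfold sameB at hs
      simp only [Bool.and_eq_true, Nat.beq_eq] at hs
      obtain ⟨⟨s1, s2⟩, s3⟩ := hs
      cases L with
      | nil =>
        cases M with
        | nil => trivial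
        | cons v M => simp [sameB] at s3
      | cons y L =>
        cases M with
        | nil => trivial
        | cons v M =>
          have := ih (v :: M) s3 hI.2.2.2
          unfold sameB at s3
          simp only [Bool.and_eq_true, Nat.beq_eq] at s3
          obtain ⟨⟨t1, t2⟩, _⟩ := s3
          refine ⟨?_, ?_, ?_, this⟩
          · rw [← s1]; exact hI.1
          · rw [← t1]; exact hI.2.1
          · rw [← s1, ← s2, ← t1, ← t2]; exact hI.2.2.1

/-- certificate of a family -/
structure CertU (b B h c D : ℕ) (dm dmB : List (ℕ × ℕ)) (C CB : List (ℕ × ℕ × ℕ)) (q X l : ℕ) (G : List ℕ)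
    (q' X' l' : ℕ) (G' : List ℕ) (Sc : ℕ) : Prop where
  hb : 2 ≤ b
  hcD : c < D
  hcc : 2 * c + D < h
  hDD : 2 * D + c < h
  hdm : ∀ z ∈ dm, 2 * z.1 < h ∧ D ≤ z.1
  hdmB : ∀ z ∈ dmB, 2 * z.1 < h ∧ D ≤ z.1
  hDm : D ∈ expd dm
  hlen : 3 ≤ (expd dm).length
  hev : Even (expd dm).length
  hevB : Even (expd dmB).length
  hdeg : 2 * b * c ≤ ((expd dm).map fun d => h - 2 * d).sum
  hdegB : 2 * B * c ≤ ((expd dmB).map fun d => h - 2 * d).sum
  hq : 0 < q
  hq' : 0 < q'
  hX : realOK b h c q X dm (0 :: l :: G) = true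
  hX' : realOK B h c q' X' dmB (0 :: l' :: G') = true
  hC : cellsOK b h c D dm C = true
  hCB : cellsB B h c D dmB CB = true
  hsame : sameB C CB = true
  hne : C ≠ []
  hhead : (C.head hne).1 = 1 ∧ (C.head hne).2.1 = h - D - c
  hpos : ∀ y ∈ C, 0 < y.2.1
  hlast : 0 < (C.getLast hne).1
  hneg : -(X : ℚ) / q + ((costN Sc C : ℚ) / Sc +
    ((b - 1 + (expd dm).length : ℕ) : ℚ) * (((C.getLast hne).2.1 : ℚ) / (C.getLast hne).1)) < 0
  hnegB : -(X' : ℚ) / q' + ((costN Sc CB : ℚ) / Sc +
    ((B + (expd dmB).length : ℕ) : ℚ) * (((C.getLast hne).2.1 : ℚ) / (C.getLast hne).1)) ≤ 0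
  hSc : 0 < Sc

theorem certU_irrational {b B h c D : ℕ} {dm dmB : List (ℕ × ℕ)} {C CB : List (ℕ × ℕ × ℕ)} {q X l : ℕ} {G : List ℕ}
    {q' X' l' : ℕ} {G' : List ℕ} {Sc : ℕ}
    (H : CertU b B h c D dm dmB C CB q X l G q' X' l' G' Sc) (m : ℕ) :
    ∃ i, Odd i ∧ 3 ≤ i ∧ i ≤ (expd dm).length + m * (expd dmB).length ∧ Irrational (zr (i + (b + B * m - 1))) := by
  have hdD : ∀ d ∈ expd (comb dm dmB m), D ≤ d ∧ 2 * d < h := by
    intro d hd
    rcases mem_comb hd with hd' | hd'
    · obtain ⟨z, hz, hzd⟩ := mem_expd hd'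
      have := H.hdm z hz
      omega
    · obtain ⟨z, hz, hzd⟩ := mem_expd hd'
      have := H.hdmB z hz
      omega
  have hcc := H.hcc
  have hcD := H.hcD
  have hb := H.hb
  have hc : ∀ d ∈ expd (comb dm dmB m), c < d := fun d hd => by have := hdD d hd; omega
  have h2 : ∀ d ∈ expd (comb dm dmB m), 2 * d < h := fun d hd => (hdD d hd).2
  have hlen := length_comb dm dmB m
  have hlen3 : 3 ≤ (expd (comb dm dmB m)).length := by
    rw [hlen]; have := H.hlen; omega
  have hev : Even (expd (comb dm dmB m)).length := by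
    rw [hlen]; exact H.hev.add (H.hevB.mul_left m)
  have hdeg : 2 * (b + B * m) * c ≤ ((expd (comb dm dmB m)).map fun d => h - 2 * d).sum := by
    rw [sum_comb, smul_eq_mul]
    have h1 := H.hdeg
    have h3 := Nat.mul_le_mul_left m H.hdegB
    have e : 2 * (b + B * m) * c = 2 * b * c + m * (2 * B * c) := by ring
    omega
  have hDm : D ∈ expd (comb dm dmB m) := by
    unfold comb
    rw [expd_append, List.mem_append]
    exact Or.inl H.hDm
  have P : Params (b + B * m) h c D (expd (comb dm dmB m)) :=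
    ⟨by omega, hDm, fun d hd => (hdD d hd).1, hc, h2, H.hcc, H.hDD, hlen3, hev, hdeg⟩
  obtain ⟨hV, hI, hcost⟩ := mix_valid (m := m) H.hcD H.hcc H.hDD H.hdm H.hdmB C CB H.hC H.hCB H.hsame
  have hIC : Inc C := (cellsOK_sound H.hcD H.hcc H.hDD H.hdm C H.hC).2
  have hc1 := cost_leI Sc H.hSc C hIC
  have hc2 := cost_leI Sc H.hSc CB (Inc_of_same C CB H.hsame hIC)
  set S : ℝ := -(X : ℝ) / q + m * (-(X' : ℝ) / q') with hS
  have hsup : ∀ τ : ℝ, 0 ≤ τ → f0 (b + B * m) h c (expd (comb dm dmB m)) τ ≤ S := by
    intro τ hτ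
    rw [f0_comb]
    have a1 := realOK_sound H.hq (by omega) (fun z hz => (H.hdm z hz).1) l G H.hX hτ
    have a2 := realOK_sound H.hq' (by omega) (fun z hz => (H.hdmB z hz).1) l' G' H.hX' hτ
    have a3 : (m : ℝ) * f0 B h c (expd dmB) τ ≤ m * (-(X' : ℝ) / q') := mul_le_mul_of_nonneg_left a2 (by positivity)
    linarith
  have hbound := real_bound (b + B * m) h c (expd (comb dm dmB m)) (by omega) hc h2 (by omega) (by omega) hlen3 S hsup
  have hneg : -(X : ℝ) / q + ((costN Sc C : ℝ) / Sc + ((b - 1 + (expd dm).length : ℕ) : ℝ) * (((C.getLast H.hne).2.1 : ℝ) / (C.getLast H.hne).1)) < 0 := by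
    have h3 := H.hneg
    have h4 : ((-(X : ℚ) / q + ((costN Sc C : ℚ) / Sc +
    ((b - 1 + (expd dm).length : ℕ) : ℚ) * (((C.getLast H.hne).2.1 : ℚ) / (C.getLast H.hne).1)) : ℚ) : ℝ) < 0 := by exact_mod_cast h3
    rw [Rat.cast_add, Rat.cast_div, Rat.cast_neg, Rat.cast_natCast, Rat.cast_natCast, Rat.cast_add, Rat.cast_div, Rat.cast_mul,
      Rat.cast_div, Rat.cast_natCast, Rat.cast_natCast, Rat.cast_natCast, Rat.cast_natCast, Rat.cast_natCast] at h4
    exact h4
  have hnegB : -(X' : ℝ) / q' + ((costN Sc CB : ℝ) / Sc + ((B + (expd dmB).length : ℕ) : ℝ) * (((C.getLast H.hne).2.1 : ℝ) / (C.getLast H.hne).1)) ≤ 0 := by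
    have h3 := H.hnegB
    have h4 : ((-(X' : ℚ) / q' + ((costN Sc CB : ℚ) / Sc +
    ((B + (expd dmB).length : ℕ) : ℚ) * (((C.getLast H.hne).2.1 : ℚ) / (C.getLast H.hne).1)) : ℚ) : ℝ) ≤ 0 := by exact_mod_cast h3
    rw [Rat.cast_add, Rat.cast_div, Rat.cast_neg, Rat.cast_natCast, Rat.cast_natCast, Rat.cast_add, Rat.cast_div, Rat.cast_mul,
      Rat.cast_div, Rat.cast_natCast, Rat.cast_natCast, Rat.cast_natCast, Rat.cast_natCast, Rat.cast_natCast] at h4
    exact h4
  have hmap := mix_map m C CB H.hsame
  have hmlen := mix_len m C CB H.hsame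
  have hgl : ∀ hne' : mix m C CB ≠ [], ((mix m C CB).getLast hne').1 = (C.getLast H.hne).1 ∧
      ((mix m C CB).getLast hne').2.1 = (C.getLast H.hne).2.1 := by
    intro hne'
    have e1 : ((mix m C CB).map (fun x => (x.1, x.2.1))).getLast (by simpa using hne') =
        (C.map (fun x => (x.1, x.2.1))).getLast (by simpa using H.hne) := by
      simp only [hmap]
    rw [List.getLast_map, List.getLast_map] at e1
    have e2 := Prod.ext_iff.1 e1
    exact ⟨e2.1, e2.2⟩
  have hposm : ∀ y ∈ mix m C CB, 0 < y.2.1 := by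
    intro y hy
    have h3 : (y.1, y.2.1) ∈ (mix m C CB).map (fun x => (x.1, x.2.1)) := List.mem_map_of_mem hy
    rw [hmap, List.mem_map] at h3
    obtain ⟨z, hz, hz2⟩ := h3
    have h4 := H.hpos z hz
    have h5 := (Prod.ext_iff.1 hz2).2
    simp only at h5
    omega
  obtain ⟨x, L, hxL⟩ : ∃ x L, mix m C CB = x :: L := by
    apply List.exists_cons_of_ne_nil
    intro h3
    rw [h3] at hmlen
    exact H.hne (List.length_eq_zero_iff.1 hmlen.symm)
  have hhead : x.1 = 1 ∧ x.2.1 = h - D - c := by
    obtain ⟨y, M, hyM⟩ : ∃ x L, C = x :: L := List.exists_cons_of_ne_nil H.hne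
    have h3 := H.hhead
    simp only [hyM, List.head_cons] at h3
    rw [hxL, hyM, List.map_cons, List.map_cons] at hmap
    have h4 := (List.cons.inj hmap).1
    have h5 := Prod.ext_iff.1 h4
    simp only at h5
    rw [h5.1, h5.2]
    exact h3
  have hgl' := hgl (by rw [hxL]; simp)
  simp only [hxL] at hgl' hposm hV hI hcost
  have hfin := criterion (b + B * m) h c D (expd (comb dm dmB m)) P x L hV hI hhead.1 hhead.2 hposm
    (by rw [hgl'.1]; exact H.hlast) S (fun ε hε => hbound ε hε) (by
      rw [hcost, hgl'.1, hgl'.2, hlen]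
      have e1 : ((b + B * m - 1 + ((expd dm).length + m * (expd dmB).length) : ℕ) : ℝ) =
          ((b - 1 + (expd dm).length : ℕ) : ℝ) + m * ((B + (expd dmB).length : ℕ) : ℝ) := by
        rw [← Nat.cast_mul, ← Nat.cast_add]
        congr 1
        have : B * m = m * B := mul_comm _ _
        rw [Nat.mul_add]
        omega
      rw [e1]
      set z : ℝ := ((C.getLast H.hne).2.1 : ℝ) / (C.getLast H.hne).1
      have hm0 : (0 : ℝ) ≤ m := by positivity
      have a1 := mul_le_mul_of_nonneg_left hnegB hm0
      have a2 := mul_le_mul_of_nonneg_left hc2 hm0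
      rw [hS]
      nlinarith)
  rw [hlen] at hfin
  exact hfin

end Pool.Agent.H337R2
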