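import Pool.Agent.H337R2.Unif

/-!
# Checking a list of cells in pieces
-/

namespace Pool.Agent.H337R2

lemma cellsOK_app {b h c D : ℕ} {dm : List (ℕ × ℕ)} (x : ℕ × ℕ × ℕ) (A B : List (ℕ × ℕ × ℕ))
    (h1 : cellsOK b h c D dm (A ++ [x]) = true) (h2 : cellsOK b h c D dm B = true) (h3 : B.head? = some x) :
    cellsOK b h c D dm (A ++ B) = true := by
  obtain ⟨L, rfl⟩ : ∃ L, B = x :: L := by
    cases B with
    | nil => simp at h3
    | cons y L =>
      rw [List.head?_cons, Option.some.injEq] at h3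
      exact ⟨L, by rw [h3]⟩
  induction A with
  | nil => exact h2
  | cons a A ih =>
    cases A with
    | nil =>
      rw [List.cons_append, List.nil_append] at h1 ⊢
      unfold cellsOK at h1 ⊢
      rw [Bool.and_eq_true] at h1 ⊢
      exact ⟨h1.1, h2⟩
    | cons a' A =>
      rw [List.cons_append, List.cons_append] at h1 ⊢
      unfold cellsOK at h1 ⊢
      rw [Bool.and_eq_true] at h1 ⊢
      exact ⟨h1.1, ih h1.2⟩

lemma cellsB_app {b h c D : ℕ} {dm : List (ℕ × ℕ)} (x : ℕ × ℕ × ℕ) (A B : List (ℕ × ℕ × ℕ))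
    (h1 : cellsB b h c D dm (A ++ [x]) = true) (h2 : cellsB b h c D dm B = true) (h3 : B.head? = some x) :
    cellsB b h c D dm (A ++ B) = true := by
  obtain ⟨L, rfl⟩ : ∃ L, B = x :: L := by
    cases B with
    | nil => simp at h3
    | cons y L =>
      rw [List.head?_cons, Option.some.injEq] at h3
      exact ⟨L, by rw [h3]⟩
  induction A with
  | nil => exact h2
  | cons a A ih =>
    cases A with
    | nil =>
      rw [List.cons_append, List.nil_append] at h1 ⊢
      unfold cellsB at h1 ⊢
      rw [Bool.and_eq_true] at h1 ⊢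
      exact ⟨h1.1, h2⟩
    | cons a' A =>
      rw [List.cons_append, List.cons_append] at h1 ⊢
      unfold cellsB at h1 ⊢
      rw [Bool.and_eq_true] at h1 ⊢
      exact ⟨h1.1, ih h1.2⟩

end Pool.Agent.H337R2
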